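import Pool.Agent.Lib.MP_b07157_agI.KosA

/-!
# Homogeneous polynomials whose only common zero is the origin
-/

noncomputable section

namespace MPb07157I

open MvPolynomial

variable {n : ℕ}

/-! ### Homogeneous components of products -/

theorem hc_mul {g : MvPolynomial (Fin n) ℂ} {e : ℕ} (hg : g.IsHomogeneous e)
    (c : MvPolynomial (Fin n) ℂ) (j : ℕ) :
    homogeneousComponent j (c * g) =
      (if e ≤ j then homogeneousComponent (j - e) c else 0) * g := by
  classical
  ext m
  rw [coeff_homogeneousComponent, coeff_mul, coeff_mul]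
  split_ifs with hm he he
  · refine Finset.sum_congr rfl fun p hp => ?_
    by_cases h0 : coeff p.2 g = 0
    · rw [h0, mul_zero, mul_zero]
    · have h1 : p.2.degree = e := by
        by_contra hne
        exact h0 (hg.coeff_eq_zero hne)
      have h2 : p.1 + p.2 = m := Finset.HasAntidiagonal.mem_antidiagonal.1 hp
      have h3 : p.1.degree = j - e := by
        rw [← h2, map_add, h1] at hm
        omega
      rw [coeff_homogeneousComponent, if_pos h3]
  · refine Finset.sum_congr rfl fun p hp => ?_
    have h2 : p.1 + p.2 = m := Finset.HasAntidiagonal.mem_antidiagonal.1 hp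
    have h1 : p.2.degree ≠ e := by
      rw [← h2, map_add] at hm
      omega
    rw [hg.coeff_eq_zero h1, mul_zero, mul_zero]
  · symm
    refine Finset.sum_eq_zero fun p hp => ?_
    by_cases h0 : coeff p.2 g = 0
    · rw [h0, mul_zero]
    · have h1 : p.2.degree = e := by
        by_contra hne
        exact h0 (hg.coeff_eq_zero hne)
      have h2 : p.1 + p.2 = m := Finset.HasAntidiagonal.mem_antidiagonal.1 hp
      have h3 : p.1.degree ≠ j - e := by
        intro h4
        apply hm
        rw [← h2, map_add, h1, h4]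
        omega
      rw [coeff_homogeneousComponent, if_neg h3, zero_mul]
  · symm
    refine Finset.sum_eq_zero fun p hp => ?_
    rw [coeff_zero, zero_mul]

/-! ### Powers of the variables -/

/-- The powers of the variables. -/
def zX (n N : ℕ) (k : ℕ) : MvPolynomial (Fin n) ℂ := if h : k < n then X ⟨k, h⟩ ^ N else 0

theorem zX_image (N : ℕ) {j : ℕ} (hj : j ≤ n) :
    zX n N '' {k | k < j} = (fun s => monomial s (1 : ℂ)) ''
      ((fun i : Fin n => Finsupp.single i N) '' {i | (i : ℕ) < j}) := by
  rw [← Set.image_comp]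
  ext p
  constructor
  · rintro ⟨k, hk, rfl⟩
    have hk' : k < j := hk
    refine ⟨⟨k, by omega⟩, hk', ?_⟩
    show monomial (Finsupp.single (⟨k, by omega⟩ : Fin n) N) (1 : ℂ) = zX n N k
    unfold zX
    rw [dif_pos (by omega), X_pow_eq_monomial]
  · rintro ⟨i, hi, rfl⟩
    refine ⟨i, hi, ?_⟩
    show zX n N i = monomial (Finsupp.single i N) (1 : ℂ)
    unfold zX
    rw [dif_pos i.2, X_pow_eq_monomial]

theorem zX_reg (N : ℕ) {j : ℕ} (hj : j < n) (r : MvPolynomial (Fin n) ℂ)
    (h : zX n N j * r ∈ Ideal.span (zX n N '' {k | k < j})) :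
    r ∈ Ideal.span (zX n N '' {k | k < j}) := by
  classical
  rw [zX_image N hj.le, mem_ideal_span_monomial_image] at h ⊢
  intro m hm
  have h1 : Finsupp.single (⟨j, hj⟩ : Fin n) N + m ∈ (zX n N j * r).support := by
    unfold zX
    rw [dif_pos hj, X_pow_eq_monomial, mem_support_iff, coeff_monomial_mul, one_mul]
    exact mem_support_iff.1 hm
  obtain ⟨s, ⟨i, hi, rfl⟩, hs⟩ := h _ h1
  refine ⟨_, ⟨i, hi, rfl⟩, ?_⟩
  have hi' : (i : ℕ) < j := hi
  have h2 : i ≠ ⟨j, hj⟩ := by
    intro h3
    rw [h3] at hi'
    exact lt_irrefl _ hi'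
  simp only [Finsupp.single_le_iff] at hs ⊢
  rw [Finsupp.add_apply, Finsupp.single_apply, if_neg h2.symm, zero_add] at hs
  exact hs

/-- All relations between `n` polynomials such that the ideal generated by them contains powers of
the variables are Koszul relations. -/
theorem koszul_of_powers {y : Fin n → MvPolynomial (Fin n) ℂ} {N : ℕ}
    (h : ∀ j, X j ^ N ∈ Ideal.span (Set.range y)) {a : Fin n → MvPolynomial (Fin n) ℂ}
    (ha : ∑ i, a i * y i = 0) :
    ∃ c : Fin n → Fin n → MvPolynomial (Fin n) ℂ, (∀ i j, c i j = -c j i) ∧ (∀ i, c i i = 0) ∧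
      ∀ i, a i = ∑ j, c i j * y j := by
  have h1 : ∀ k : ℕ, ∃ b : Fin n → MvPolynomial (Fin n) ℂ, zX n N k = ∑ i, b i * y i := by
    intro k
    unfold zX
    split_ifs with hk
    · obtain ⟨b, hb⟩ := (Ideal.mem_span_range_iff_exists_fun).1 (h ⟨k, hk⟩)
      exact ⟨b, hb.symm⟩
    · exact ⟨0, by simp⟩
  choose b hb using h1
  exact koszul hb (fun j hj r hr => zX_reg N hj r hr) ha

/-! ### The common zeros -/

/-- The Nullstellensatz at the origin. -/
theorem exists_power {ι : Type*} {y : ι → MvPolynomial (Fin n) ℂ}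
    (h : ∀ p : Fin n → ℂ, (∀ i, eval p (y i) = 0) → p = 0) :
    ∃ N : ℕ, ∀ j, X j ^ N ∈ Ideal.span (Set.range y) := by
  have h1 : ∀ j : Fin n, ∃ N : ℕ, X j ^ N ∈ Ideal.span (Set.range y) := by
    intro j
    have h2 : (X j : MvPolynomial (Fin n) ℂ) ∈ (Ideal.span (Set.range y)).radical := by
      rw [← vanishingIdeal_zeroLocus_eq_radical (K := ℂ)]
      rw [mem_vanishingIdeal_iff]
      intro p hp
      have hp0 : p = 0 := by
        apply h
        intro i
        exact hp _ (Ideal.subset_span ⟨i, rfl⟩)
      rw [hp0, aeval_X]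
      rfl
    exact h2
  choose N hN using h1
  refine ⟨∑ j, N j, fun j => ?_⟩
  rw [← Finset.add_sum_erase Finset.univ N (Finset.mem_univ j), pow_add]
  exact Ideal.mul_mem_right _ _ (hN j)

/-- Homogeneous polynomials in `n` variables whose only common zero is the origin form a regular
sequence. -/
theorem regular_of_zeros {y : Fin n → MvPolynomial (Fin n) ℂ} {e : Fin n → ℕ}
    (he : ∀ i, 0 < e i) (hh : ∀ i, (y i).IsHomogeneous (e i))
    (h : ∀ p : Fin n → ℂ, (∀ i, eval p (y i) = 0) → p = 0) (i : Fin n)
    {r : MvPolynomial (Fin n) ℂ} (hr : r * y i ∈ Ideal.span (y '' {j | j < i})) :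
    r ∈ Ideal.span (y '' {j | j < i}) := by
  classical
  have himg : ∀ x : MvPolynomial (Fin n) ℂ, x ∈ Ideal.span (y '' {j | j < i}) ↔
      ∃ b : Fin n → MvPolynomial (Fin n) ℂ, (∀ j, ¬ j < i → b j = 0) ∧ x = ∑ j, b j * y j := by
    intro x
    constructor
    · intro hx
      refine Submodule.span_induction ?_ ?_ ?_ ?_ hx
      · rintro _ ⟨j, hj, rfl⟩
        refine ⟨Pi.single j 1, fun k hk => ?_, ?_⟩
        · rw [Pi.single_apply, if_neg]
          rintro rfl
          exact hk hj
        · simp [Pi.single_apply]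
      · exact ⟨0, by simp, by simp⟩
      · rintro x x' - - ⟨b, hb, rfl⟩ ⟨b', hb', rfl⟩
        refine ⟨b + b', fun j hj => ?_, ?_⟩
        · rw [Pi.add_apply, hb j hj, hb' j hj, add_zero]
        · simp [add_mul, Finset.sum_add_distrib]
      · rintro c x - ⟨b, hb, rfl⟩
        refine ⟨fun j => c * b j, fun j hj => ?_, ?_⟩
        · simp only [hb j hj, mul_zero]
        · simp [Finset.mul_sum, mul_assoc]
    · rintro ⟨b, hb, rfl⟩
      refine Ideal.sum_mem _ fun j _ => ?_
      by_cases hj : j < i
      · exact Ideal.mul_mem_left _ _ (Ideal.subset_span ⟨j, hj, rfl⟩)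
      · rw [hb j hj, zero_mul]
        exact Ideal.zero_mem _
  obtain ⟨a, ha, hra⟩ := (himg _).1 hr
  rw [← sum_homogeneousComponent r]
  refine Ideal.sum_mem _ fun δ _ => ?_
  -- the powers of the later elements
  let y' : Fin n → MvPolynomial (Fin n) ℂ := fun j => if j ≤ i then y j else y j ^ (δ + 1)
  have hy' : ∀ p : Fin n → ℂ, (∀ j, eval p (y' j) = 0) → p = 0 := by
    intro p hp
    apply h
    intro j
    have := hp j
    simp only [y'] at this
    split_ifs at this with hj
    · exact this
    · rw [map_pow] at this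
      exact pow_eq_zero_iff (Nat.succ_ne_zero δ) |>.1 this
  obtain ⟨N, hN⟩ := exists_power hy'
  let a' : Fin n → MvPolynomial (Fin n) ℂ := fun j =>
    if j < i then (if e j ≤ δ + e i then homogeneousComponent (δ + e i - e j) (a j) else 0)
    else if j = i then -homogeneousComponent δ r else 0
  have hsum : ∑ j, a' j * y' j = 0 := by
    have h1 : homogeneousComponent (δ + e i) (r * y i) = homogeneousComponent δ r * y i := by
      rw [hc_mul (hh i), if_pos (Nat.le_add_left _ _), Nat.add_sub_cancel]
    have h2 : homogeneousComponent (δ + e i) (r * y i) =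
        ∑ j, (if e j ≤ δ + e i then homogeneousComponent (δ + e i - e j) (a j) else 0) * y j := by
      rw [hra, map_sum]
      exact Finset.sum_congr rfl fun j _ => hc_mul (hh j) _ _
    have h3 : ∀ j, a' j * y' j =
        (if e j ≤ δ + e i then homogeneousComponent (δ + e i - e j) (a j) else 0) * y j -
          (if j = i then homogeneousComponent δ r * y i else 0) := by
      intro j
      simp only [a', y']
      by_cases hj : j < i
      · rw [if_pos hj, if_pos hj.le, if_neg (ne_of_lt hj), sub_zero]
      · rw [if_neg hj]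
        have h0 : (if e j ≤ δ + e i then homogeneousComponent (δ + e i - e j) (a j) else 0) = 0 := by
          rw [ha j hj, map_zero, ite_self]
        rw [h0, zero_mul, zero_sub]
        by_cases hji : j = i
        · rw [if_pos hji, if_pos hji, if_pos (le_of_eq hji), hji, neg_mul]
        · rw [if_neg hji, if_neg hji, zero_mul, neg_zero]
    rw [Finset.sum_congr rfl fun j _ => h3 j, Finset.sum_sub_distrib, ← h2,
      Finset.sum_ite_eq' Finset.univ i, if_pos (Finset.mem_univ i), h1, sub_self]
  obtain ⟨c, -, hc0, hc⟩ := koszul_of_powers hN hsum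
  have h1 := hc i
  simp only [a', lt_irrefl, if_false, if_true] at h1
  have h2 : homogeneousComponent δ r = -∑ j, c i j * y' j := by rw [← h1, neg_neg]
  have h3 : homogeneousComponent δ r = homogeneousComponent δ (-∑ j, c i j * y' j) := by
    rw [← h2, homogeneousComponent_eq_self (homogeneousComponent_isHomogeneous δ r)]
  rw [h3, map_neg, map_sum]
  refine (Ideal.span (y '' {j | j < i})).neg_mem (Ideal.sum_mem _ fun j _ => ?_)
  simp only [y']
  by_cases hj : j ≤ i
  · rw [if_pos hj]
    rcases hj.lt_or_eq with hj | hj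
    · rw [hc_mul (hh j)]
      exact Ideal.mul_mem_left _ _ (Ideal.subset_span ⟨j, hj, rfl⟩)
    · rw [hj, hc0 i, zero_mul, map_zero]
      exact Ideal.zero_mem _
  · rw [if_neg hj, hc_mul ((hh j).pow (δ + 1)), if_neg, zero_mul]
    · exact Ideal.zero_mem _
    · have := he j
      nlinarith

end MPb07157I
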