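import Pool.Agent.Lib.MP_b07157_agI.SqR2
import Pool.Agent.Lib.MP_b07157_agI.KosB

/-!
# A root of the Bernstein–Sato polynomial from the initial form
-/

noncomputable section

namespace MPb07157

open MvPolynomial

variable {n : ℕ}

namespace Sq

/-- Evaluation at `s = a`. -/
def evS (n : ℕ) (a : ℂ) : MvPolynomial (Fin n) (Polynomial ℂ) →+* MvPolynomial (Fin n) ℂ :=
  map (Polynomial.evalRingHom a)

theorem evS_liftS (a : ℂ) (f : MvPolynomial (Fin n) ℂ) : evS n a (liftS f) = f := by
  unfold evS liftS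
  rw [map_map]
  have : (Polynomial.evalRingHom a).comp Polynomial.C = RingHom.id ℂ := by
    ext x
    simp
  rw [this, map_id]

theorem evS_C (a : ℂ) (b : Polynomial ℂ) : evS n a (C b) = C (b.eval a) := by
  unfold evS
  rw [map_C]
  rfl

theorem evS_pderiv (a : ℂ) (i : Fin n) (g : MvPolynomial (Fin n) (Polynomial ℂ)) :
    evS n a (pderiv i g) = pderiv i (evS n a g) := by
  unfold evS
  exact pderiv_map.symm

variable {w : Fin n → ℕ} {Λ : KF n →ₗ[ℂ] ℂ} {g₀ h : MvPolynomial (Fin n) ℂ} {N : ℕ} {α : ℂ}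

theorem Lk_add (k : ℕ) (u v : MvPolynomial (Fin n) ℂ) :
    Lk Λ g₀ h N α k (u + v) = Lk Λ g₀ h N α k u + Lk Λ g₀ h N α k v := by
  unfold Lk
  rw [← Finset.sum_add_distrib]
  refine Finset.sum_congr rfl fun j _ => ?_
  rw [add_mul, br_add, mul_add]

theorem Lk_C_mul (k : ℕ) (c : ℂ) (u : MvPolynomial (Fin n) ℂ) :
    Lk Λ g₀ h N α k (C c * u) = c * Lk Λ g₀ h N α k u := by
  unfold Lk
  rw [Finset.mul_sum]
  refine Finset.sum_congr rfl fun j _ => ?_
  rw [mul_assoc (C c), br_C_mul]
  ring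

/-- The functional vanishes on `D[s] f^(s+1)` at `s = -α`. -/
theorem Dat.inDn (D : Dat Λ g₀ h w N α) {k : ℕ} {G : MvPolynomial (Fin n) (Polynomial ℂ)}
    (hG : InDn (g₀ + h) k G) (u : MvPolynomial (Fin n) ℂ) :
    Lk Λ g₀ h N α k (u * evS n (-α) G) = 0 := by
  induction hG generalizing u with
  | base => exact D.Lk_zero _
  | add _ _ ih ih' => rw [map_add, mul_add, Lk_add, ih, ih', add_zero]
  | mul c _ ih => rw [map_mul, ← mul_assoc, ih]
  | @deriv k g i _ ih =>
    have e1 : u * evS n (-α) (liftS (g₀ + h) * pderiv i g +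
        C (Polynomial.X + 1 - (k : Polynomial ℂ)) * liftS (pderiv i (g₀ + h)) * g) =
        ((g₀ + h) * pderiv i (u * evS n (-α) g) +
          C (1 - k - α) * (u * evS n (-α) g * pderiv i (g₀ + h))) -
          (g₀ + h) * (pderiv i u * evS n (-α) g) := by
      rw [map_add, map_mul, map_mul, map_mul, evS_liftS, evS_liftS, evS_C, evS_pderiv, pderiv_mul]
      have e2 : (Polynomial.X + 1 - (k : Polynomial ℂ)).eval (-α) = 1 - k - α := by
        simp
        ring
      rw [e2]
      ring
    rw [e1, sub_eq_add_neg, Lk_add, D.Lk_deriv, zero_add]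
    have e3 : -((g₀ + h) * (pderiv i u * evS n (-α) g)) =
        C (-1) * ((g₀ + h) * (pderiv i u * evS n (-α) g)) := by
      rw [C_neg, C_1]
      ring
    rw [e3, Lk_C_mul, D.Lk_mul, ih, mul_zero]
  | raise _ ih =>
    rw [map_mul, evS_liftS, mul_left_comm, D.Lk_mul, ih]
  | @lower k g _ ih =>
    have h1 := ih u
    rw [map_mul, evS_liftS, mul_left_comm, D.Lk_mul] at h1
    exact h1

end Sq

open Sq

/-- **The root `-|w|/N` from the initial form.** Let `f = g₀ + h`, where `g₀` is weighted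
homogeneous of weight `N` and all terms of `h` have larger weight. If `g₀^(-α)`, `α = |w|/N`, is not
a sum of derivatives in `ℂ[x][1/g₀] g₀^(-α)`, then `-α` is a root of each formal Bernstein–Sato
polynomial of `f`. -/
theorem root_of_initial {w : Fin n → ℕ} (hw : ∀ i, 0 < w i) {N : ℕ} (hwN : ∀ i, w i < N)
    (hN : 0 < N) {g₀ h : MvPolynomial (Fin n) ℂ} (hg0 : g₀ ≠ 0)
    (hg : g₀.IsWeightedHomogeneous w N) (hh : ∀ v ∈ h.support, N < wt w v) {α : ℂ}
    (hα : α * N = ∑ i, (w i : ℂ)) (hne : NonEx g₀ α) {b : Polynomial ℂ}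
    (hb : InDnForm (g₀ + h) 1 (b.map (MvPowerSeries.C (σ := Fin n) (R := ℂ)))) :
    b.eval (-α) = 0 := by
  obtain ⟨Λ, h1, h2⟩ := Sq.exists_functional hg0 hne
  have D : Dat Λ g₀ h w N α := ⟨hg0, hg, hα, h1, h2, fun v hv => hh v hv, hw, hwN, hN⟩
  obtain ⟨q, hq, hIn⟩ := hb.exists_poly
  have h3 := D.inDn hIn 1
  rw [one_mul, D.Lk_one, map_mul, evS_C, evS_liftS, map_mul, hq, mul_one, constantCoeff_C] at h3
  exact h3

/-- Weighted homogeneity of the derivative of a monomial. -/
theorem Sq.ev_monomial_hom {w : Fin n → ℕ} {N : ℕ} (hwN : ∀ i, w i < N)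
    {g : MvPolynomial (Fin n) ℂ} (hg : g.IsWeightedHomogeneous w N) (α : ℂ) (m : ℕ) (i : Fin n)
    (v : Fin n →₀ ℕ) (c : ℂ) :
    (Sq.ev g α m i (monomial v c)).IsWeightedHomogeneous w (wt w v + (N - w i)) := by
  classical
  have hi := hwN i
  have h1 : (monomial v c : MvPolynomial (Fin n) ℂ).IsWeightedHomogeneous w (wt w v) := by
    refine isWeightedHomogeneous_monomial w v _ ?_
    rw [Finsupp.weight_apply, Finsupp.sum_fintype v (fun i c => c • w i) (by simp)]
    unfold wt
    exact Finset.sum_congr rfl fun i _ => by rw [smul_eq_mul, mul_comm]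
  have h2 : (pderiv i g).IsWeightedHomogeneous w (N - w i) := hg.pderiv (by omega)
  have h3 : (g * pderiv i (monomial v c)).IsWeightedHomogeneous w (wt w v + (N - w i)) := by
    by_cases hv : v i = 0
    · rw [pderiv_monomial, hv]
      simp only [Nat.cast_zero, mul_zero, map_zero]
      exact isWeightedHomogeneous_zero _ _ _
    · have h4 := wt_le_of_ne (a := w) hv
      have h5 := hg.mul (h1.pderiv (i := i) (n' := wt w v - w i) (by omega))
      have h6 : N + (wt w v - w i) = wt w v + (N - w i) := by omega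
      rwa [h6] at h5
  unfold Sq.ev
  refine Submodule.sub_mem (weightedHomogeneousSubmodule ℂ w _) h3 ?_
  have h5 := (isWeightedHomogeneous_C w (α + m : ℂ)).mul (h1.mul h2)
  rwa [zero_add] at h5

theorem Sq.ev_sum {ι : Type*} (f : MvPolynomial (Fin n) ℂ) (α : ℂ) (m : ℕ) (i : Fin n)
    (s : Finset ι) (a : ι → MvPolynomial (Fin n) ℂ) :
    Sq.ev f α m i (∑ k ∈ s, a k) = ∑ k ∈ s, Sq.ev f α m i (a k) := by
  classical
  induction s using Finset.induction_on with
  | empty => simp [Sq.ev]
  | insert k s hk ih => rw [Finset.sum_insert hk, Finset.sum_insert hk, Sq.ev_add, ih]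

/-- Reduction to homogeneous coefficients. -/
theorem Sq.exists_hom {w : Fin n → ℕ} {N : ℕ} (hwN : ∀ i, w i < N)
    {g : MvPolynomial (Fin n) ℂ} (hg : g.IsWeightedHomogeneous w N) {α : ℂ} {m : ℕ}
    {a : Fin n → MvPolynomial (Fin n) ℂ} (h : ∑ i, Sq.ev g α m i (a i) = g ^ (m + 1)) :
    ∃ a' : Fin n → MvPolynomial (Fin n) ℂ,
      (∀ i, (a' i).IsWeightedHomogeneous w (N * m + w i)) ∧
      ∑ i, Sq.ev g α m i (a' i) = g ^ (m + 1) := by
  classical
  let a' : Fin n → MvPolynomial (Fin n) ℂ := fun i =>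
    ∑ v ∈ (a i).support.filter (fun v => wt w v = N * m + w i), monomial v (coeff v (a i))
  have ha' : ∀ i, (a' i).IsWeightedHomogeneous w (N * m + w i) := by
    intro i
    refine Submodule.sum_mem (weightedHomogeneousSubmodule ℂ w _) fun v hv => ?_
    refine isWeightedHomogeneous_monomial w v _ ?_
    rw [← (Finset.mem_filter.1 hv).2]
    rw [Finsupp.weight_apply, Finsupp.sum_fintype v (fun i c => c • w i) (by simp)]
    unfold wt
    exact Finset.sum_congr rfl fun i _ => by rw [smul_eq_mul, mul_comm]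
  refine ⟨a', ha', ?_⟩
  have hg' : (g ^ (m + 1)).IsWeightedHomogeneous w (N * m + N) := by
    have := hg.pow (m + 1)
    rwa [smul_eq_mul, show (m + 1) * N = N * m + N by ring] at this
  have h1 := congrArg (weightedHomogeneousComponent w (N * m + N)) h
  rw [weightedHomogeneousComponent_eq_self hg', map_sum] at h1
  rw [← h1]
  refine Finset.sum_congr rfl fun i _ => ?_
  have hi := hwN i
  conv_rhs => rw [← support_sum_monomial_coeff (a i), Sq.ev_sum, map_sum]
  rw [Sq.ev_sum, Finset.sum_filter]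
  refine Finset.sum_congr rfl fun v _ => ?_
  rw [weightedHomogeneousComponent_of_mem (Sq.ev_monomial_hom hwN hg α m i v _)]
  by_cases hv : wt w v = N * m + w i
  · rw [if_pos hv, if_pos (by omega)]
  · rw [if_neg hv, if_neg (by omega)]

theorem Sq.pderiv_comm (i j : Fin n) (P : MvPolynomial (Fin n) ℂ) :
    pderiv i (pderiv j P) = pderiv j (pderiv i P) := by
  classical
  by_cases h : i = j
  · rw [h]
  · ext c
    rw [coeff_pderiv, coeff_pderiv, coeff_pderiv, coeff_pderiv]
    have h1 : (c + Finsupp.single i 1 : Fin n →₀ ℕ) j = c j := by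
      rw [Finsupp.add_apply, Finsupp.single_apply, if_neg h, add_zero]
    have h2 : (c + Finsupp.single j 1 : Fin n →₀ ℕ) i = c i := by
      rw [Finsupp.add_apply, Finsupp.single_apply, if_neg (Ne.symm h), add_zero]
    rw [h1, h2, add_right_comm]
    ring

theorem Sq.antisymm_sum {R : Type*} [CommRing R] [CharZero R] [NoZeroDivisors R]
    {κ d : Fin n → Fin n → R} (hκ : ∀ i j, κ i j = -κ j i) (hd : ∀ i j, d i j = d j i) :
    ∑ i, ∑ j, κ i j * d i j = 0 := by
  have h1 : ∑ i, ∑ j, κ i j * d i j = -∑ i, ∑ j, κ i j * d i j := by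
    conv_lhs => rw [Finset.sum_comm]
    rw [← Finset.sum_neg_distrib]
    refine Finset.sum_congr rfl fun j _ => ?_
    rw [← Finset.sum_neg_distrib]
    refine Finset.sum_congr rfl fun i _ => ?_
    rw [hκ i j, hd i j]
    ring
  have h2 : (2 : R) * ∑ i, ∑ j, κ i j * d i j = 0 := by linear_combination h1
  exact (mul_eq_zero.1 h2).resolve_left two_ne_zero

/-- For isolated weighted homogeneous singularities `g^(-|w|/N)` is not a sum of derivatives. -/
theorem nonEx_of_isolated {w : Fin n → ℕ} (hw : ∀ i, 0 < w i) {N : ℕ} (hwN : ∀ i, w i < N)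
    (hn : 0 < n)
    {g : MvPolynomial (Fin n) ℂ} (hg : g.IsWeightedHomogeneous w N)
    (hiso : ∀ p : Fin n → ℂ, (∀ i, eval p (pderiv i g) = 0) → p = 0) {α : ℂ}
    (hα : α * N = ∑ i, (w i : ℂ)) : NonEx g α := by
  classical
  obtain ⟨M, hM⟩ := MPb07157I.exists_power (y := fun i => pderiv i g) hiso
  have hβ : ∀ m : ℕ, (N : ℂ) * (α + m) = ∑ i, (w i : ℂ) + N * m := by
    intro m
    linear_combination hα
  -- `α + m` is not zero
  have hpos : ∀ m : ℕ, (N : ℂ) * (α + m) ≠ 0 := by
    intro m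
    have h1 : (N : ℂ) * (α + m) = ((∑ i, w i + N * m : ℕ) : ℂ) := by
      rw [hβ]
      push_cast
      ring
    rw [h1]
    have h2 : 0 < ∑ i, w i := Finset.sum_pos (fun i _ => hw i) ⟨⟨0, hn⟩, Finset.mem_univ _⟩
    exact_mod_cast (by omega : ∑ i, w i + N * m ≠ 0)
  have hder : ∀ i, constantCoeff (pderiv i g) = 0 := by
    intro i
    have hi := hwN i
    have h1 : (pderiv i g).IsWeightedHomogeneous w (N - w i) := hg.pderiv (by omega)
    rw [constantCoeff_eq]
    refine h1.coeff_eq_zero 0 ?_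
    rw [map_zero]
    omega
  -- the reduction of the order of the pole
  have core : ∀ (m : ℕ) (a : Fin n → MvPolynomial (Fin n) ℂ),
      ∑ i, Sq.ev g α m i (a i) = g ^ (m + 1) →
      ∃ B : Fin n → MvPolynomial (Fin n) ℂ, g ^ m = ∑ j, B j * pderiv j g ∧
        ∑ j, pderiv j (B j) = 0 := by
    intro m a h
    obtain ⟨a', ha', h'⟩ := Sq.exists_hom hwN hg h
    clear h a
    set G : MvPolynomial (Fin n) ℂ := g ^ m - ∑ i, pderiv i (a' i) with hG
    have hGw : G.IsWeightedHomogeneous w (N * m) := by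
      refine Submodule.sub_mem (weightedHomogeneousSubmodule ℂ w _) ?_
        (Submodule.sum_mem _ fun i _ => (ha' i).pderiv rfl)
      have := hg.pow m
      rwa [smul_eq_mul, mul_comm] at this
    set γ : MvPolynomial (Fin n) ℂ := C ((N : ℂ) * (α + m))⁻¹ * G with hγ
    have hγw : γ.IsWeightedHomogeneous w (N * m) := by
      have := (isWeightedHomogeneous_C w ((N : ℂ) * (α + m))⁻¹).mul hGw
      rwa [zero_add] at this
    have hγG : C ((N : ℂ) * (α + m)) * γ = G := by
      rw [hγ, ← mul_assoc, ← C_mul, mul_inv_cancel₀ (hpos m), C_1, one_mul]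
    have h1 : g * G = -(C (α + m) * ∑ i, a' i * pderiv i g) := by
      have h2 : ∑ i, Sq.ev g α m i (a' i) =
          g * ∑ i, pderiv i (a' i) - C (α + m) * ∑ i, a' i * pderiv i g := by
        unfold Sq.ev
        rw [Finset.sum_sub_distrib, Finset.mul_sum, Finset.mul_sum]
      rw [h2] at h'
      rw [hG, mul_sub, ← pow_succ', ← h']
      ring
    have h2 : ∑ i, (a' i + C (w i : ℂ) * (X i * γ)) * pderiv i g = 0 := by
      have h3 : ∑ i, (a' i + C (w i : ℂ) * (X i * γ)) * pderiv i g =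
          ∑ i, a' i * pderiv i g + γ * ∑ i, C (w i : ℂ) * (X i * pderiv i g) := by
        rw [Finset.mul_sum, ← Finset.sum_add_distrib]
        exact Finset.sum_congr rfl fun i _ => by ring
      rw [h3, Sq.euler_w hg]
      have h4 : (α + m : ℂ) ≠ 0 := right_ne_zero_of_mul (hpos m)
      have h5 : (C (α + m) : MvPolynomial (Fin n) ℂ) ≠ 0 := by
        rwa [Ne, C_eq_zero]
      apply mul_left_cancel₀ h5
      rw [mul_zero]
      have h6 : (C ((N : ℂ) * (α + m)) : MvPolynomial (Fin n) ℂ) = C (N : ℂ) * C (α + m) := C_mul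
      rw [h6] at hγG
      linear_combination h1 + g * hγG
    obtain ⟨κ, hκ, -, hκ2⟩ := MPb07157I.koszul_of_powers hM h2
    refine ⟨fun j => ∑ i, pderiv i (κ i j), ?_, ?_⟩
    · have h3 : ∑ i, pderiv i (a' i + C (w i : ℂ) * (X i * γ)) =
          ∑ j, (∑ i, pderiv i (κ i j)) * pderiv j g := by
        have h4 : ∀ i, pderiv i (a' i + C (w i : ℂ) * (X i * γ)) =
            ∑ j, (pderiv i (κ i j) * pderiv j g + κ i j * pderiv i (pderiv j g)) := by
          intro i
          rw [hκ2 i, map_sum]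
          refine Finset.sum_congr rfl fun j _ => ?_
          rw [pderiv_mul]
        rw [Finset.sum_congr rfl fun i _ => h4 i]
        simp only [Finset.sum_add_distrib]
        rw [Sq.antisymm_sum hκ fun i j => Sq.pderiv_comm i j g, add_zero, Finset.sum_comm]
        exact Finset.sum_congr rfl fun j _ => (Finset.sum_mul _ _ _).symm
      rw [← h3]
      have h4 : ∑ i, pderiv i (a' i + C (w i : ℂ) * (X i * γ)) =
          ∑ i, pderiv i (a' i) + (∑ i, C (w i : ℂ)) * γ +
            ∑ i, C (w i : ℂ) * (X i * pderiv i γ) := by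
        rw [Finset.sum_mul, ← Finset.sum_add_distrib, ← Finset.sum_add_distrib]
        refine Finset.sum_congr rfl fun i _ => ?_
        rw [map_add, pderiv_C_mul, pderiv_mul, pderiv_X_self]
        ring
      rw [h4, Sq.euler_w hγw, ← map_sum]
      have h5 : (C ((N : ℂ) * (α + m)) : MvPolynomial (Fin n) ℂ) =
          C (∑ i, (w i : ℂ)) + C ((N * m : ℕ) : ℂ) := by
        rw [hβ, C_add]
        push_cast
        rfl
      rw [h5] at hγG
      linear_combination -hG - hγG
    · have h3 : ∀ j, pderiv j (∑ i, pderiv i (κ i j)) =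
          ∑ i, pderiv j (pderiv i (κ i j)) := fun j => map_sum _ _ _
      rw [Finset.sum_congr rfl fun j _ => h3 j]
      have h4 : ∑ j, ∑ i, pderiv j (pderiv i (κ i j)) = -∑ j, ∑ i, pderiv j (pderiv i (κ i j)) := by
        conv_lhs => rw [Finset.sum_comm]
        rw [← Finset.sum_neg_distrib]
        refine Finset.sum_congr rfl fun j _ => ?_
        rw [← Finset.sum_neg_distrib]
        refine Finset.sum_congr rfl fun i _ => ?_
        rw [hκ j i, map_neg, map_neg, Sq.pderiv_comm i j]
      have h5 : (2 : MvPolynomial (Fin n) ℂ) * ∑ j, ∑ i, pderiv j (pderiv i (κ i j)) = 0 := by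
        linear_combination h4
      exact (mul_eq_zero.1 h5).resolve_left two_ne_zero
  intro m
  induction m with
  | zero =>
    intro a h
    obtain ⟨B, hB, -⟩ := core 0 a h
    have h1 := congrArg constantCoeff hB
    rw [pow_zero, map_one, map_sum, Finset.sum_eq_zero] at h1
    · exact one_ne_zero h1
    · intro j _
      rw [map_mul, hder j, mul_zero]
  | succ m ih =>
    intro a h
    obtain ⟨B, hB, hB2⟩ := core (m + 1) a h
    have h4 : (α + m : ℂ) ≠ 0 := right_ne_zero_of_mul (hpos m)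
    apply ih fun j => C (-(α + m)⁻¹) * B j
    have h1 : ∀ j, g * pderiv j (C (-(α + m)⁻¹) * B j) -
        C (α + m) * (C (-(α + m)⁻¹) * B j * pderiv j g) =
        g * C (-(α + m)⁻¹) * pderiv j (B j) + B j * pderiv j g := by
      intro j
      rw [pderiv_C_mul]
      have h2 : (C (α + m) : MvPolynomial (Fin n) ℂ) * C (-(α + m)⁻¹) = -1 := by
        rw [← C_mul, mul_neg, mul_inv_cancel₀ h4, C_neg, C_1]
      linear_combination (-(B j * pderiv j g)) * h2
    rw [Finset.sum_congr rfl fun j _ => h1 j, Finset.sum_add_distrib, ← Finset.mul_sum, hB2,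
      mul_zero, zero_add, hB]

end MPb07157
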