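import Pool.Agent.Lib.MP_b07157_agI.SqP3
import Pool.Agent.Lib.MP_b07157_agI.SqR3
import Pool.Agent.Lib.MP_b07157_agS.SMain
import Pool.Agent.Lib.MP_b07157_agZ.A4

/-!
# The strong monodromy conjecture for semi-quasi-homogeneous germs
-/

noncomputable section

namespace MPb07157

open MvPolynomial

variable {n : ℕ}

/-- The local zeta function at a smooth point. -/
theorem Zmot0_mem_of_smooth {f : MvPolynomial (Fin n) ℂ} (hf : f ≠ 0) (h0 : coeff 0 f = 0)
    {j : Fin n} (hj : eval 0 (pderiv j f) ≠ 0) {s₀ : ℚ} (hs : s₀ ≠ -1) :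
    Zmot0 f ∈ regularAt s₀ := by
  have h1 : eval (0 : Fin n → ℂ) f = 0 := by
    rw [MvPolynomial.eval_zero, constantCoeff_eq, h0]
  have hc : ∀ m, Zcoeff0 f (m + 1) =
      (↑((LU ^ n)⁻¹) * clsM ({0} : Set (Fin n → ℂ)) * ((LU : Mot) - 1)) *
        (↑(LU⁻¹) : Mot) ^ (m + 1) := by
    intro m
    rw [← clsM_arcs_AtW hf (isConstr_point 0) (fun p hp => by
      rw [Set.mem_singleton_iff.1 hp]; exact h1) j (fun p hp => by
      rw [Set.mem_singleton_iff.1 hp]; exact hj) m]
    unfold Zcoeff0
    congr 2
    ext γ
    simp only [Set.mem_ofPred_eq, Set.mem_inter_iff, AtW, Set.mem_singleton_iff, funext_iff,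
      Pi.zero_apply]
  have e : Zmot0 f = PowerSeries.C (Zcoeff0 f 0) + PowerSeries.C
      (↑((LU ^ n)⁻¹) * clsM ({0} : Set (Fin n → ℂ)) * ((LU : Mot) - 1)) * (geoS - 1) := by
    ext m
    unfold Zmot0 geoS
    rw [PowerSeries.coeff_mk, map_add, PowerSeries.coeff_C, PowerSeries.coeff_C_mul, map_sub,
      PowerSeries.coeff_mk, PowerSeries.coeff_one]
    cases m with
    | zero => simp
    | succ m => rw [if_neg (Nat.succ_ne_zero m), if_neg (Nat.succ_ne_zero m), hc, zero_add,
        sub_zero]
  rw [e]
  exact add_mem (C_mem_regularAt s₀ _) (mul_mem (C_mem_regularAt s₀ _)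
    (sub_mem (geoS_mem hs) (one_mem _)))

/-- **The strong monodromy conjecture for semi-quasi-homogeneous germs.** -/
theorem SmcLoc.of_sqh {f : MvPolynomial (Fin n) ℂ} {w : Fin n → ℕ} (hw : ∀ i, 0 < w i)
    (h : ∀ p : Fin n → ℂ, p ≠ 0 → ∃ i, eval p (pderiv i (initialPart f w)) ≠ 0)
    (hf : f ≠ 0) (h0 : coeff 0 f = 0) : SmcLoc f := by
  classical
  intro s₀ hs hp b hb
  have h0' : (0 : Fin n →₀ ℕ) ∉ f.support := by rwa [notMem_support_iff]
  by_cases h1 : s₀ = -1
  · subst h1
    exact neg_one_root hf h0' b hb
  rw [initialPart_eq hf] at h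
  obtain ⟨hge, u, hu, huN⟩ := isMinWt_nuf hf w
  set N := nuf f w with hNdef
  set g := inForm f (face f w N) with hgdef
  have H : Sq.Sqh f w N := ⟨hge, h⟩
  have hN : 0 < N := by
    rcases Nat.eq_zero_or_pos N with h2 | h2
    · exfalso
      have h3 : u = 0 := by
        ext i
        rw [h2] at huN
        have h4 := Finset.sum_eq_zero_iff.1 huN i (Finset.mem_univ i)
        rcases Nat.mul_eq_zero.1 h4 with h5 | h5
        · exact absurd h5 (hw i).ne'
        · exact h5
      rw [h3] at hu
      exact h0' hu
    · exact h2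
  by_cases hwN : ∀ i, w i < N
  · by_cases h2 : s₀ * N = -∑ j, (w j : ℚ)
    · have hn : 0 < n := by
        rcases Nat.eq_zero_or_pos n with h3 | h3
        · subst h3
          exfalso
          have h4 : u = 0 := Subsingleton.elim _ _
          rw [h4] at hu
          exact h0' hu
        · exact h3
      have hg0 : g ≠ 0 := by
        intro h3
        have hpt : (fun _ => 1 : Fin n → ℂ) ≠ 0 := by
          intro h4
          exact one_ne_zero (congrFun h4 ⟨0, hn⟩)
        obtain ⟨i, hi⟩ := h _ hpt
        rw [h3, map_zero, map_zero] at hi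
        exact hi rfl
      have hcoeff : ∀ v, coeff v g = if v ∈ face f w N then coeff v f else 0 := by
        intro v
        rw [hgdef]
        unfold inForm
        rw [coeff_sum]
        simp only [coeff_monomial]
        rw [Finset.sum_ite_eq' (face f w N) v]
      have hwt : ∀ v : Fin n →₀ ℕ, Finsupp.weight w v = wt w v := by
        intro v
        unfold wt
        rw [Finsupp.weight_apply, Finsupp.sum_fintype _ _ fun _ => by simp]
        exact Finset.sum_congr rfl fun i _ => by rw [smul_eq_mul, mul_comm]
      have hg : g.IsWeightedHomogeneous w N := by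
        intro v hv
        rw [hcoeff] at hv
        split_ifs at hv with h3
        · rw [hwt]
          exact (Finset.mem_filter.1 h3).2
        · exact absurd rfl hv
      have hh : ∀ v ∈ (f - g).support, N < wt w v := by
        intro v hv
        rw [mem_support_iff, coeff_sub, hcoeff] at hv
        split_ifs at hv with h3
        · rw [sub_self] at hv
          exact absurd rfl hv
        · rw [sub_zero] at hv
          have h4 : v ∈ f.support := mem_support_iff.2 hv
          refine lt_of_le_of_ne (hge v h4) fun h5 => h3 ?_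
          exact Finset.mem_filter.2 ⟨h4, h5.symm⟩
      have hα : (-(s₀ : ℂ)) * N = ∑ i, (w i : ℂ) := by
        have h3 := congrArg (fun x : ℚ => (x : ℂ)) h2
        push_cast at h3
        linear_combination -h3
      have hne : NonEx g (-(s₀ : ℂ)) := by
        refine nonEx_of_isolated hw hwN hn hg (fun p hp => ?_) hα
        by_contra h3
        obtain ⟨i, hi⟩ := h p h3
        exact hi (hp i)
      have h3 := root_of_initial (b := b) hw hwN hN hg0 hg hh hα hne (by
        rw [add_sub_cancel]
        exact hb)
      rwa [neg_neg] at h3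
    · exact absurd (H.Zmot0_mem hw (fun j => (hwN j).le) hN h0 h1 h2) hp
  · push Not at hwN
    obtain ⟨i, hi⟩ := hwN
    exfalso
    have hpt : (Pi.single i 1 : Fin n → ℂ) ≠ 0 := by
      intro h2
      have h3 := congrFun h2 i
      rw [Pi.single_eq_same] at h3
      exact one_ne_zero h3
    obtain ⟨j, hj⟩ := h _ hpt
    rw [hgdef, Sq.eval_pderiv_inForm] at hj
    obtain ⟨v, hv, hne⟩ := Finset.exists_ne_zero_of_sum_ne_zero hj
    obtain ⟨hv1, hv2⟩ := Finset.mem_filter.1 hv
    rw [Sq.tv_eq] at hne
    have hvj : v j ≠ 0 := by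
      intro h2
      rw [h2] at hne
      simp at hne
    have hvl : ∀ l, l ≠ i → (v - Finsupp.single j 1 : Fin n →₀ ℕ) l = 0 := by
      intro l hl
      by_contra h2
      apply hne
      have h3 : ((v - Finsupp.single j 1).prod fun l e => (Pi.single i 1 : Fin n → ℂ) l ^ e) = 0 := by
        refine Finset.prod_eq_zero (Finsupp.mem_support_iff.2 h2) ?_
        show (Pi.single i 1 : Fin n → ℂ) l ^ _ = 0
        rw [Pi.single_eq_of_ne hl]
        exact zero_pow h2
      rw [h3, mul_zero]
    have hwj : w j * v j + ∑ l ∈ Finset.univ.erase j, w l * v l = N := by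
      rw [← hv2]
      exact (Sq.wt_split w v j).symm
    have hv3 : v = Finsupp.single j 1 := by
      have h5 : 1 ≤ v j := Nat.one_le_iff_ne_zero.2 hvj
      have h6 : w j * 1 ≤ w j * v j := Nat.mul_le_mul_left _ h5
      have h7 := hw j
      by_cases hij : j = i
      · subst hij
        have h8 : v j = 1 := by
          by_contra h9
          have h10 : 2 ≤ v j := by omega
          have h11 : w j * 2 ≤ w j * v j := Nat.mul_le_mul_left _ h10
          omega
        ext l
        by_cases hl : l = j
        · rw [hl, h8, Finsupp.single_eq_same]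
        · have := hvl l hl
          rw [Finsupp.tsub_apply, Finsupp.single_eq_of_ne hl, Nat.sub_zero] at this
          rw [this, Finsupp.single_eq_of_ne hl]
      · have h8 : v i = 0 := by
          by_contra h9
          have h10 : w i * 1 ≤ w i * v i := Nat.mul_le_mul_left _ (Nat.one_le_iff_ne_zero.2 h9)
          have h11 : w i * v i ≤ ∑ l ∈ Finset.univ.erase j, w l * v l :=
            Finset.single_le_sum (f := fun l => w l * v l) (fun _ _ => Nat.zero_le _)
              (Finset.mem_erase.2 ⟨fun h => hij h.symm, Finset.mem_univ i⟩)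
          omega
        ext l
        by_cases hl : l = j
        · rw [hl, Finsupp.single_eq_same]
          have := hvl j hij
          rw [Finsupp.tsub_apply, Finsupp.single_eq_same] at this
          omega
        · rw [Finsupp.single_eq_of_ne hl]
          by_cases hli : l = i
          · rw [hli, h8]
          · have := hvl l hli
            rwa [Finsupp.tsub_apply, Finsupp.single_eq_of_ne hl, Nat.sub_zero] at this
    have hlin : eval 0 (pderiv j f) ≠ 0 := by
      rw [MvPolynomial.eval_zero, constantCoeff_eq]
      have h5 : coeff 0 (pderiv j f) = coeff (Finsupp.single j 1) f := by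
        rw [coeff_pderiv]
        simp
      rw [h5, ← hv3]
      exact mem_support_iff.1 hv1
    exact hp (Zmot0_mem_of_smooth hf h0 hlin h1)

end MPb07157
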