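import Pool.Agent.Lib.MP_b07157_agI.Sub

/-!
# Superisolated germs: the summation over the orders
-/

noncomputable section

namespace MPb07157

open MvPolynomial

namespace SI

/-- The series with coefficients `∑_k L^{-nk} c_k(m - dk)`. -/
def serK (n d : ℕ) (c : ℕ → ℕ → Mot) : PowerSeries Mot :=
  PowerSeries.mk fun m => ∑ k ∈ Finset.Icc 1 m,
    if d * k ≤ m then ell ^ (n * k) * c k (m - d * k) else 0

namespace SumAux

section
variable {R : Type*} [CommRing R]

theorem eq_of_dvd {a b : PowerSeries R}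
    (h : ∀ M : ℕ, (PowerSeries.X : PowerSeries R) ^ (M + 1) ∣ a - b) : a = b := by
  ext m
  have h1 := PowerSeries.X_pow_dvd_iff.1 (h m) m (Nat.lt_succ_self m)
  rw [map_sub, sub_eq_zero] at h1
  exact h1

/-- The sum of the series `(α T^d)^k B_k`, `k ≥ 1`. -/
def FS (α : R) (d : ℕ) (B : ℕ → PowerSeries R) : PowerSeries R :=
  PowerSeries.mk fun m => ∑ k ∈ Finset.range m,
    PowerSeries.coeff m ((PowerSeries.C α * PowerSeries.X ^ d) ^ (k + 1) * B (k + 1))

theorem coeff_pow_mul (α : R) (d k m : ℕ) (G : PowerSeries R) :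
    PowerSeries.coeff m ((PowerSeries.C α * PowerSeries.X ^ d) ^ k * G) =
      if d * k ≤ m then α ^ k * PowerSeries.coeff (m - d * k) G else 0 := by
  rw [mul_pow, ← map_pow, ← pow_mul, mul_assoc, PowerSeries.coeff_C_mul,
    PowerSeries.coeff_X_pow_mul']
  split_ifs with h
  · rfl
  · rw [mul_zero]

theorem FS_dvd (α : R) {d : ℕ} (hd : 0 < d) (B : ℕ → PowerSeries R) (M : ℕ) :
    (PowerSeries.X : PowerSeries R) ^ (M + 1) ∣ FS α d B - ∑ k ∈ Finset.range M,
      (PowerSeries.C α * PowerSeries.X ^ d) ^ (k + 1) * B (k + 1) := by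
  rw [PowerSeries.X_pow_dvd_iff]
  intro m hm
  rw [map_sub, FS, PowerSeries.coeff_mk, map_sum, sub_eq_zero]
  refine Finset.sum_subset (Finset.range_mono (Nat.lt_succ_iff.1 hm)) fun k _ hk => ?_
  rw [Finset.mem_range, not_lt] at hk
  rw [coeff_pow_mul, if_neg]
  have h1 : 1 * (k + 1) ≤ d * (k + 1) := Nat.mul_le_mul_right _ hd
  omega

theorem FS_add (α : R) {d : ℕ} (_hd : 0 < d) (B B' : ℕ → PowerSeries R) :
    FS α d (fun k => B k + B' k) = FS α d B + FS α d B' := by
  ext m
  rw [map_add, FS, FS, FS, PowerSeries.coeff_mk, PowerSeries.coeff_mk, PowerSeries.coeff_mk,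
    ← Finset.sum_add_distrib]
  refine Finset.sum_congr rfl fun k _ => ?_
  rw [mul_add, map_add]

theorem FS_mul (α : R) {d : ℕ} (hd : 0 < d) (G : PowerSeries R) (B : ℕ → PowerSeries R) :
    FS α d (fun k => G * B k) = G * FS α d B := by
  apply eq_of_dvd
  intro M
  have h1 := FS_dvd α hd (fun k => G * B k) M
  have h2 := (FS_dvd α hd B M).mul_left G
  have h4 := dvd_sub h1 h2
  have h5 : ∑ k ∈ Finset.range M, (PowerSeries.C α * PowerSeries.X ^ d) ^ (k + 1) *
      (G * B (k + 1)) = G *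
      ∑ k ∈ Finset.range M, (PowerSeries.C α * PowerSeries.X ^ d) ^ (k + 1) * B (k + 1) := by
    rw [Finset.mul_sum]
    exact Finset.sum_congr rfl fun k _ => by ring
  simp only [h5] at h4
  rwa [mul_sub, sub_sub_sub_cancel_right] at h4

theorem FS_rec (α : R) {d : ℕ} (hd : 0 < d) (B : ℕ → PowerSeries R) :
    FS α d B = (PowerSeries.C α * PowerSeries.X ^ d) * B 1 +
      (PowerSeries.C α * PowerSeries.X ^ d) * FS α d (fun k => B (k + 1)) := by
  apply eq_of_dvd
  intro M
  have h1 := (pow_dvd_pow (PowerSeries.X : PowerSeries R) (Nat.le_succ (M + 1))).trans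
    (FS_dvd α hd B (M + 1))
  have h2 := (FS_dvd α hd (fun k => B (k + 1)) M).mul_left (PowerSeries.C α * PowerSeries.X ^ d)
  have h4 := dvd_sub h1 h2
  have h5 : ∑ k ∈ Finset.range (M + 1), (PowerSeries.C α * PowerSeries.X ^ d) ^ (k + 1) *
      B (k + 1) = (PowerSeries.C α * PowerSeries.X ^ d) * B 1 +
      (PowerSeries.C α * PowerSeries.X ^ d) *
      ∑ k ∈ Finset.range M, (PowerSeries.C α * PowerSeries.X ^ d) ^ (k + 1) * B (k + 1 + 1) := by
    rw [Finset.sum_range_succ', Finset.mul_sum, add_comm]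
    congr 1
    · rw [zero_add, pow_one]
    · exact Finset.sum_congr rfl fun k _ => by ring
  rw [h5] at h4
  have h6 : FS α d B - ((PowerSeries.C α * PowerSeries.X ^ d) * B 1 +
      (PowerSeries.C α * PowerSeries.X ^ d) * FS α d (fun k => B (k + 1))) =
      FS α d B - ((PowerSeries.C α * PowerSeries.X ^ d) * B 1 +
      (PowerSeries.C α * PowerSeries.X ^ d) *
      ∑ k ∈ Finset.range M, (PowerSeries.C α * PowerSeries.X ^ d) ^ (k + 1) * B (k + 1 + 1)) -
      (PowerSeries.C α * PowerSeries.X ^ d) * (FS α d (fun k => B (k + 1)) -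
      ∑ k ∈ Finset.range M, (PowerSeries.C α * PowerSeries.X ^ d) ^ (k + 1) *
      B (k + 1 + 1)) := by ring
  rw [h6]
  exact h4

/-- `k ↦ T^k y_k` -/
theorem FS_const (α : R) {d : ℕ} (hd : 0 < d) (G : PowerSeries R) :
    (1 - PowerSeries.C α * PowerSeries.X ^ d) * FS α d (fun _ => G) =
      (PowerSeries.C α * PowerSeries.X ^ d) * G := by
  have h := FS_rec α hd (fun _ => G)
  linear_combination h

/-- The series `∑ ℓ^i T^i`, `i ≥ 1`. -/
def Eser (l : R) : PowerSeries R := PowerSeries.mk fun i => if i = 0 then 0 else l ^ i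

theorem Eser_eq (l : R) :
    (1 - PowerSeries.C l * PowerSeries.X) * Eser l = PowerSeries.C l * PowerSeries.X := by
  ext m
  rw [sub_mul, one_mul, mul_assoc, map_sub, PowerSeries.coeff_C_mul, PowerSeries.coeff_C_mul]
  rcases m with - | m
  · simp [Eser]
  · rw [mul_comm PowerSeries.X, PowerSeries.coeff_succ_mul_X, Eser, PowerSeries.coeff_mk,
      PowerSeries.coeff_mk, PowerSeries.coeff_X, if_neg (Nat.succ_ne_zero m)]
    rcases m with - | m
    · simp
    · rw [if_neg (Nat.succ_ne_zero m), if_neg (by omega), mul_zero, pow_succ' l (m + 1), sub_self]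

/-- The partial sums. -/
def Pser (y : ℕ → R) (k : ℕ) : PowerSeries R :=
  ∑ i ∈ Finset.range k, PowerSeries.C (y i) * PowerSeries.X ^ i

theorem FS_P (α : R) {d : ℕ} (hd : 0 < d) {y : ℕ → R} (hy : y 0 = 0) :
    (1 - PowerSeries.C α * PowerSeries.X ^ d) * FS α d (Pser y) =
      (PowerSeries.C α * PowerSeries.X ^ d) *
        FS α d (fun k => PowerSeries.C (y k) * PowerSeries.X ^ k) := by
  have h := FS_rec α hd (Pser y)
  have h1 : (fun k => Pser y (k + 1)) =
      fun k => Pser y k + PowerSeries.C (y k) * PowerSeries.X ^ k := by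
    funext k
    rw [Pser, Finset.sum_range_succ]
    rfl
  have h2 : Pser y 1 = 0 := by
    rw [Pser, Finset.sum_range_one, hy, map_zero, zero_mul]
  rw [h1, FS_add α hd, h2] at h
  linear_combination h

theorem FS_T (α : R) {d : ℕ} (hd : 0 < d) :
    (1 - PowerSeries.C α * PowerSeries.X ^ (d + 1)) *
      FS α d (fun k => (PowerSeries.X : PowerSeries R) ^ k) =
      PowerSeries.C α * PowerSeries.X ^ (d + 1) := by
  have h := FS_rec α hd (fun k => (PowerSeries.X : PowerSeries R) ^ k)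
  have h1 : (fun k => (PowerSeries.X : PowerSeries R) ^ (k + 1)) =
      fun k => PowerSeries.X * PowerSeries.X ^ k := by
    funext k
    rw [pow_succ']
  rw [h1, FS_mul α hd, pow_one] at h
  linear_combination h

theorem FS_Q (α : R) {d : ℕ} (hd : 0 < d) {y : ℕ → R} (hy : y 0 = 0) :
    (1 - PowerSeries.C α * PowerSeries.X ^ (d + 1)) *
      FS α d (fun k => PowerSeries.C (∑ j ∈ Finset.range (k + 1), y j) * PowerSeries.X ^ k) =
      FS α d (fun k => PowerSeries.C (y k) * PowerSeries.X ^ k) := by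
  have h := FS_rec α hd
    (fun k => PowerSeries.C (∑ j ∈ Finset.range (k + 1), y j) * PowerSeries.X ^ k)
  have h0 := FS_rec α hd (fun k => PowerSeries.C (y k) * PowerSeries.X ^ k)
  have h1 : (fun k => PowerSeries.C (∑ j ∈ Finset.range (k + 1 + 1), y j) *
      (PowerSeries.X : PowerSeries R) ^ (k + 1)) =
      fun k => PowerSeries.X *
        (PowerSeries.C (∑ j ∈ Finset.range (k + 1), y j) * PowerSeries.X ^ k) +
        PowerSeries.C (y (k + 1)) * PowerSeries.X ^ (k + 1) := by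
    funext k
    rw [Finset.sum_range_succ _ (k + 1), map_add]
    ring
  have h2 : (PowerSeries.C (∑ j ∈ Finset.range (1 + 1), y j) : PowerSeries R) =
      PowerSeries.C (y 1) := by
    rw [Finset.sum_range_succ, Finset.sum_range_one, hy, zero_add]
  rw [h1, FS_add α hd, FS_mul α hd, h2] at h
  linear_combination h - h0

end

theorem serK_eq (n d : ℕ) (c : ℕ → ℕ → Mot) :
    serK n d c = FS (ell ^ n) d (fun k => PowerSeries.mk (c k)) := by
  ext m
  rw [serK, FS, PowerSeries.coeff_mk, PowerSeries.coeff_mk]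
  have h : Finset.Icc 1 m = Finset.Ico (0 + 1) (m + 1) := by
    ext k
    simp only [Finset.mem_Icc, Finset.mem_Ico]
    omega
  rw [h, ← Finset.sum_Ico_add' _ 0 m 1, Finset.range_eq_Ico]
  refine Finset.sum_congr rfl fun k _ => ?_
  rw [coeff_pow_mul, PowerSeries.coeff_mk, pow_mul]

theorem inv_mem (n : ℕ) {d : ℕ} (hd : 0 < d) {s₀ : ℚ} (h : (n : ℚ) / d ≠ -s₀) :
    ∃ g ∈ regularAt s₀, g * (1 - PowerSeries.C (ell ^ n) * PowerSeries.X ^ d) = 1 := by
  obtain ⟨g, hg, hg'⟩ := exists_inv_mem (n := n) hd h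
  refine ⟨g, hg, ?_⟩
  have h1 : ell ^ n = (↑((LU ^ n)⁻¹) : Mot) := by
    rw [ell, ← Units.val_pow_eq_pow_val, inv_pow]
  rw [h1]
  exact hg'

theorem inv_mem1 {s₀ : ℚ} (h1 : s₀ ≠ -1) :
    ∃ g ∈ regularAt s₀, g * (1 - PowerSeries.C ell * PowerSeries.X) = 1 := by
  obtain ⟨g, hg, hg'⟩ := inv_mem 1 (d := 1) one_pos (s₀ := s₀) (fun h => h1 (by
    rw [← neg_eq_iff_eq_neg, ← h]
    norm_num))
  rw [pow_one, pow_one] at hg'
  exact ⟨g, hg, hg'⟩

theorem C_mem (s₀ : ℚ) (a : Mot) : PowerSeries.C a ∈ regularAt s₀ := by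
  have h1 := Subalgebra.algebraMap_mem (regularAt s₀) a
  rwa [PowerSeries.algebraMap_apply, Algebra.algebraMap_self, RingHom.id_apply] at h1

theorem X_mem (s₀ : ℚ) : (PowerSeries.X : PowerSeries Mot) ∈ regularAt s₀ :=
  Algebra.subset_adjoin (Or.inl rfl)

theorem A_mem (s₀ : ℚ) (a : Mot) (d : ℕ) :
    (PowerSeries.C a * PowerSeries.X ^ d : PowerSeries Mot) ∈ regularAt s₀ :=
  mul_mem (C_mem s₀ a) (pow_mem (X_mem s₀) d)

/-- Division by a product of invertible elements. -/
theorem mem_of_mul {s₀ : ℚ} {S a Z g : PowerSeries Mot} (hg : g ∈ regularAt s₀)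
    (hga : g * a = 1) (h : a * S = Z) (hZ : Z ∈ regularAt s₀) : S ∈ regularAt s₀ := by
  have h1 : S = g * Z := by
    rw [← h, ← mul_assoc, hga, one_mul]
  rw [h1]
  exact mul_mem hg hZ

end SumAux

open SumAux

theorem serK_unit_mem (n : ℕ) {d : ℕ} (hd : 0 < d) (a : Mot) {s₀ : ℚ} (h : (n : ℚ) / d ≠ -s₀) :
    serK n d (fun _ i => if i = 0 then a else 0) ∈ regularAt s₀ := by
  rw [serK_eq]
  have h1 : (PowerSeries.mk fun i => if i = 0 then a else 0) = PowerSeries.C a := by
    ext i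
    rw [PowerSeries.coeff_mk, PowerSeries.coeff_C]
  rw [h1]
  obtain ⟨g, hg, hg'⟩ := inv_mem n hd h
  exact mem_of_mul hg hg' (FS_const (ell ^ n) hd (PowerSeries.C a))
    (mul_mem (A_mem s₀ _ d) (C_mem s₀ a))

theorem serK_smooth_mem (n : ℕ) {d : ℕ} (hd : 0 < d) (b : Mot) {s₀ : ℚ} (h : (n : ℚ) / d ≠ -s₀)
    (h1 : s₀ ≠ -1) :
    serK n d (fun _ i => if i = 0 then 0 else b * ell ^ i) ∈ regularAt s₀ := by
  rw [serK_eq]
  have h2 : (PowerSeries.mk fun i => if i = 0 then 0 else b * ell ^ i) =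
      PowerSeries.C b * Eser ell := by
    ext i
    rw [PowerSeries.coeff_mk, PowerSeries.coeff_C_mul, Eser, PowerSeries.coeff_mk]
    split_ifs with h
    · rw [mul_zero]
    · rfl
  rw [h2]
  obtain ⟨g, hg, hg'⟩ := inv_mem n hd h
  obtain ⟨g1, hg1, hg1'⟩ := inv_mem1 h1
  have hE : Eser ell ∈ regularAt s₀ := mem_of_mul hg1 hg1' (Eser_eq ell)
    (mul_mem (C_mem s₀ _) (X_mem s₀))
  exact mem_of_mul hg hg' (FS_const (ell ^ n) hd (PowerSeries.C b * Eser ell))
    (mul_mem (A_mem s₀ _ d) (mul_mem (C_mem s₀ b) hE))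

namespace SumAux

theorem mk_cK (n k : ℕ) (y : ℕ → Mot) :
    PowerSeries.mk (cK n k y) =
      PowerSeries.C (1 - ell) * Pser y k +
      (PowerSeries.C ((1 - ell) * ell ^ n) * PowerSeries.X ^ k +
      (PowerSeries.C (-(1 - ell)) *
        (PowerSeries.C (∑ j ∈ Finset.range (k + 1), y j) * PowerSeries.X ^ k) +
      (PowerSeries.C (1 - 2 * ell) + PowerSeries.C (1 - ell) * Eser ell) *
        (PowerSeries.C (y k) * PowerSeries.X ^ k))) := by
  ext i
  have hP : PowerSeries.coeff i (Pser y k) = if i < k then y i else 0 := by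
    rw [Pser, map_sum]
    have h1 : ∀ j ∈ Finset.range k, PowerSeries.coeff i
        (PowerSeries.C (y j) * (PowerSeries.X : PowerSeries Mot) ^ j) =
        if j = i then y i else 0 := by
      intro j _
      rw [PowerSeries.coeff_C_mul, PowerSeries.coeff_X_pow]
      by_cases h : i = j
      · rw [if_pos h, if_pos h.symm, mul_one, h]
      · rw [if_neg h, if_neg (Ne.symm h), mul_zero]
    rw [Finset.sum_congr rfl h1, Finset.sum_ite_eq']
    simp only [Finset.mem_range]
  have hE : PowerSeries.coeff i (Eser ell * PowerSeries.X ^ k) =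
      if k < i then ell ^ (i - k) else 0 := by
    rw [PowerSeries.coeff_mul_X_pow', Eser, PowerSeries.coeff_mk]
    by_cases h : k < i
    · rw [if_pos h.le, if_neg (by omega), if_pos h]
    · rw [if_neg h]
      split_ifs with h1 h2
      · rfl
      · exact absurd (by omega) h
      · rfl
  have hT : PowerSeries.coeff i ((PowerSeries.X : PowerSeries Mot) ^ k) =
      if i = k then 1 else 0 := PowerSeries.coeff_X_pow i k
  have h4 : (PowerSeries.C (1 - 2 * ell) + PowerSeries.C (1 - ell) * Eser ell) *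
      (PowerSeries.C (y k) * (PowerSeries.X : PowerSeries Mot) ^ k) =
      PowerSeries.C ((1 - 2 * ell) * y k) * PowerSeries.X ^ k +
      PowerSeries.C ((1 - ell) * y k) * (Eser ell * PowerSeries.X ^ k) := by
    rw [map_mul, map_mul]
    ring
  rw [h4]
  simp only [map_add, PowerSeries.coeff_C_mul, hP, hE, hT, PowerSeries.coeff_mk, cK]
  rcases lt_trichotomy i k with h | h | h
  · simp only [if_pos h, if_neg h.ne, if_neg (not_lt.2 h.le)]
    ring
  · simp only [h, lt_irrefl, if_true, if_false]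
    ring
  · simp only [if_neg (not_lt.2 h.le), if_neg h.ne', if_pos h]
    ring

end SumAux

theorem serK_line_mem (n : ℕ) {d : ℕ} (hd : 0 < d) {y : ℕ → Mot} (hy : y 0 = 0) {s₀ : ℚ}
    (h : ((n + 1 : ℕ) : ℚ) / d ≠ -s₀) (h' : ((n + 1 : ℕ) : ℚ) / ((d + 1 : ℕ) : ℚ) ≠ -s₀)
    (h1 : s₀ ≠ -1)
    (hY : (1 - PowerSeries.C ell * PowerSeries.X) * PowerSeries.mk y ∈
      regularAt (((n + 1 : ℕ) : ℚ) + ((d + 1 : ℕ) : ℚ) * s₀)) :
    serK (n + 1) d (fun k => cK n k y) ∈ regularAt s₀ := by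
  obtain ⟨φ, hφ, hreg⟩ := exists_subst (n + 1) (b := d + 1) (Nat.succ_pos d)
  have hX : φ PowerSeries.X =
      PowerSeries.C (ell ^ (n + 1)) * PowerSeries.X ^ (d + 1) := by
    refine SubAux.map_X (ell ^ (n + 1)) (Nat.succ_pos d) φ fun Y m => ?_
    rw [hφ]
    split_ifs with h
    · rw [pow_mul]
    · rfl
  have hY0 : φ (PowerSeries.mk y) =
      FS (ell ^ (n + 1)) d (fun k => PowerSeries.C (y k) * PowerSeries.X ^ k) := by
    ext m
    rw [hφ, FS, PowerSeries.coeff_mk, PowerSeries.coeff_mk]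
    have h2 : ∀ k ∈ Finset.range m, PowerSeries.coeff m
        ((PowerSeries.C (ell ^ (n + 1)) * (PowerSeries.X : PowerSeries Mot) ^ d) ^ (k + 1) *
        (PowerSeries.C (y (k + 1)) * PowerSeries.X ^ (k + 1))) =
        if m = (d + 1) * (k + 1) then ell ^ ((n + 1) * (m / (d + 1))) * y (m / (d + 1))
        else 0 := by
      intro k _
      have h3 : (PowerSeries.C (ell ^ (n + 1)) * (PowerSeries.X : PowerSeries Mot) ^ d) ^ (k + 1) *
          (PowerSeries.C (y (k + 1)) * PowerSeries.X ^ (k + 1)) =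
          PowerSeries.C ((ell ^ (n + 1)) ^ (k + 1) * y (k + 1)) *
            PowerSeries.X ^ ((d + 1) * (k + 1)) := by
        generalize ell ^ (n + 1) = a
        rw [map_mul, map_pow]
        ring
      rw [h3, PowerSeries.coeff_C_mul, PowerSeries.coeff_X_pow]
      split_ifs with h4
      · have h5 : m / (d + 1) = k + 1 := by
          rw [h4]
          exact Nat.mul_div_cancel_left _ (Nat.succ_pos d)
        rw [h5, mul_one, pow_mul]
      · rw [mul_zero]
    rw [Finset.sum_congr rfl h2]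
    by_cases h3 : d + 1 ∣ m
    · rw [if_pos h3]
      obtain ⟨q, rfl⟩ := h3
      rw [Nat.mul_div_cancel_left _ (Nat.succ_pos d)]
      rcases q with - | q
      · simp [hy]
      · rw [Finset.sum_eq_single q]
        · rw [if_pos rfl]
        · intro k _ hk
          rw [if_neg]
          intro h4
          apply hk
          have h5 := Nat.eq_of_mul_eq_mul_left (Nat.succ_pos d) h4
          omega
        · intro h4
          exfalso
          apply h4
          rw [Finset.mem_range]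
          have h5 : 1 * (q + 1) ≤ (d + 1) * (q + 1) := Nat.mul_le_mul_right _ (by omega)
          omega
    · rw [if_neg h3]
      symm
      refine Finset.sum_eq_zero fun k _ => ?_
      rw [if_neg]
      intro h4
      exact h3 ⟨_, h4⟩
  have hZ : (1 - PowerSeries.C ell * (PowerSeries.C (ell ^ (n + 1)) * PowerSeries.X ^ (d + 1))) *
      FS (ell ^ (n + 1)) d (fun k => PowerSeries.C (y k) * PowerSeries.X ^ k) ∈
      regularAt s₀ := by
    have h2 := hreg s₀ _ hY
    rw [map_mul, map_sub, map_one, map_mul, hX, hY0, SubAux.map_C] at h2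
    exact h2
  have hS : serK (n + 1) d (fun k => cK n k y) =
      PowerSeries.C (1 - ell) * FS (ell ^ (n + 1)) d (Pser y) +
      (PowerSeries.C ((1 - ell) * ell ^ n) *
        FS (ell ^ (n + 1)) d (fun k => (PowerSeries.X : PowerSeries Mot) ^ k) +
      (PowerSeries.C (-(1 - ell)) *
        FS (ell ^ (n + 1)) d (fun k => PowerSeries.C (∑ j ∈ Finset.range (k + 1), y j) *
          PowerSeries.X ^ k) +
      (PowerSeries.C (1 - 2 * ell) + PowerSeries.C (1 - ell) * Eser ell) *
        FS (ell ^ (n + 1)) d (fun k => PowerSeries.C (y k) * PowerSeries.X ^ k))) := by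
    rw [serK_eq]
    have h2 : (fun k => PowerSeries.mk (cK n k y)) = fun k =>
      PowerSeries.C (1 - ell) * Pser y k +
      (PowerSeries.C ((1 - ell) * ell ^ n) * PowerSeries.X ^ k +
      (PowerSeries.C (-(1 - ell)) *
        (PowerSeries.C (∑ j ∈ Finset.range (k + 1), y j) * PowerSeries.X ^ k) +
      (PowerSeries.C (1 - 2 * ell) + PowerSeries.C (1 - ell) * Eser ell) *
        (PowerSeries.C (y k) * PowerSeries.X ^ k))) := funext fun k => mk_cK n k y
    rw [h2, FS_add _ hd, FS_add _ hd, FS_add _ hd, FS_mul _ hd, FS_mul _ hd, FS_mul _ hd,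
      FS_mul _ hd]
  obtain ⟨g, hg, hg'⟩ := inv_mem (n + 1) hd h
  obtain ⟨g2, hg2, hg2'⟩ := inv_mem (n + 1) (Nat.succ_pos d) h'
  obtain ⟨g1, hg1, hg1'⟩ := inv_mem1 h1
  have hP := FS_P (ell ^ (n + 1)) hd hy
  have hT := FS_T (ell ^ (n + 1)) hd
  have hQ := FS_Q (ell ^ (n + 1)) hd hy
  have hE := Eser_eq ell
  generalize FS (ell ^ (n + 1)) d (Pser y) = FP at hS hP
  generalize FS (ell ^ (n + 1)) d (fun k => (PowerSeries.X : PowerSeries Mot) ^ k) = FT at hS hT
  generalize FS (ell ^ (n + 1)) d (fun k => PowerSeries.C (∑ j ∈ Finset.range (k + 1), y j) *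
          PowerSeries.X ^ k) = FQ at hS hQ
  generalize FS (ell ^ (n + 1)) d (fun k => PowerSeries.C (y k) * PowerSeries.X ^ k) = Y
    at hS hP hQ hZ
  have key : (1 - PowerSeries.C (ell ^ (n + 1)) * PowerSeries.X ^ d) *
      ((1 - PowerSeries.C (ell ^ (n + 1)) * PowerSeries.X ^ (d + 1)) *
      ((1 - PowerSeries.C ell * PowerSeries.X) * serK (n + 1) d (fun k => cK n k y))) =
      PowerSeries.C ((1 - ell) * ell ^ n) *
        (PowerSeries.C (ell ^ (n + 1)) * PowerSeries.X ^ (d + 1)) *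
        (1 - PowerSeries.C (ell ^ (n + 1)) * PowerSeries.X ^ d) *
        (1 - PowerSeries.C ell * PowerSeries.X) +
      ((1 - PowerSeries.C ell * (PowerSeries.C (ell ^ (n + 1)) * PowerSeries.X ^ (d + 1))) * Y) *
        ((1 - PowerSeries.X) *
          (PowerSeries.C (ell ^ (n + 1)) * PowerSeries.X ^ d - PowerSeries.C ell)) := by
    rw [hS]
    have hc1 : (PowerSeries.C (1 - ell) : PowerSeries Mot) = 1 - PowerSeries.C ell := by
      rw [map_sub, map_one]
    have hc2 : (PowerSeries.C (-(1 - ell)) : PowerSeries Mot) = -(1 - PowerSeries.C ell) := by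
      rw [map_neg, map_sub, map_one]
    have hc3 : (PowerSeries.C (1 - 2 * ell) : PowerSeries Mot) = 1 - 2 * PowerSeries.C ell := by
      rw [map_sub, map_mul, map_one, map_ofNat]
    have hXX : PowerSeries.C (ell ^ (n + 1)) * (PowerSeries.X : PowerSeries Mot) ^ (d + 1) =
        (PowerSeries.C (ell ^ (n + 1)) * PowerSeries.X ^ d) * PowerSeries.X := by
      rw [pow_succ (PowerSeries.X : PowerSeries Mot) d, mul_assoc]
    rw [hXX] at hT hQ ⊢
    rw [hc1, hc2, hc3]
    generalize PowerSeries.C ((1 - ell) * ell ^ n) = c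
    generalize PowerSeries.C (ell ^ (n + 1)) * (PowerSeries.X : PowerSeries Mot) ^ d = A
      at hP hT hQ ⊢
    generalize PowerSeries.C ell = l at hE ⊢
    linear_combination (1 - A * PowerSeries.X) * (1 - l * PowerSeries.X) * (1 - l) * hP +
      (1 - A) * (1 - l * PowerSeries.X) * c * hT -
      (1 - l) * (1 - A) * (1 - l * PowerSeries.X) * hQ +
      (1 - A) * (1 - A * PowerSeries.X) * (1 - l) * Y * hE
  refine mem_of_mul hg1 hg1' rfl (mem_of_mul hg2 hg2' rfl (mem_of_mul hg hg' key ?_))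
  have hA := A_mem s₀ (ell ^ (n + 1)) d
  have hA' := A_mem s₀ (ell ^ (n + 1)) (d + 1)
  have h1' : (1 : PowerSeries Mot) ∈ regularAt s₀ := one_mem _
  have hl := C_mem s₀ ell
  have hXm := X_mem s₀
  exact add_mem (mul_mem (mul_mem (mul_mem (C_mem s₀ _) hA') (sub_mem h1' hA))
    (sub_mem h1' (mul_mem hl hXm))) (mul_mem hZ (mul_mem (sub_mem h1' hXm) (sub_mem hA hl)))

end SI

end MPb07157
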