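import Pool.Agent.Lib.MP_b07157_agI.Defs
import Pool.Agent.Lib.MP_b07157_agV.H2
import Mathlib.RingTheory.MvPolynomial.EulerIdentity

/-!
# Squarefree forms in three variables
-/

noncomputable section

namespace MPb07157

open MvPolynomial

namespace SI

/-! ### Elimination -/

private theorem fse_pderiv (n : ℕ) (g : MvPolynomial (Fin (n + 1)) ℂ) :
    finSuccEquiv ℂ n (pderiv 0 g) = Polynomial.derivative (finSuccEquiv ℂ n g) := by
  have hC : ∀ a : ℂ, finSuccEquiv ℂ n (C a) = Polynomial.C (C a) := fun a => by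
    rw [← MvPolynomial.algebraMap_eq, AlgEquiv.commutes]
    rfl
  induction g using MvPolynomial.induction_on with
  | C a => rw [pderiv_C, map_zero, hC, Polynomial.derivative_C]
  | add p q hp hq => rw [map_add, map_add, map_add, map_add, hp, hq]
  | mul_X p j hp =>
    rw [Derivation.leibniz, map_add, smul_eq_mul, smul_eq_mul, map_mul, map_mul, map_mul, hp,
      Polynomial.derivative_mul]
    induction j using Fin.cases with
    | zero =>
      rw [pderiv_X_self, map_one, finSuccEquiv_X_zero, Polynomial.derivative_X]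
      ring
    | succ j =>
      rw [pderiv_X_of_ne (Fin.succ_ne_zero j), map_zero, finSuccEquiv_X_succ,
        Polynomial.derivative_C]
      ring

private theorem elim_zero {n : ℕ} {g : MvPolynomial (Fin (n + 1)) ℂ} (hg : Squarefree g) :
    ∃ H a b : MvPolynomial (Fin (n + 1)) ℂ, H ≠ 0 ∧ (∀ v, coeff v H ≠ 0 → v 0 = 0) ∧
      g * a + pderiv 0 g * b = H := by
  let _ : StrongNormalizationMonoid (MvPolynomial (Fin n) ℂ) :=
    UniqueFactorizationMonoid.strongNormalizationMonoid
  let _ : NormalizedGCDMonoid (MvPolynomial (Fin n) ℂ) :=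
    UniqueFactorizationMonoid.toNormalizedGCDMonoid _
  have hsq : Squarefree (finSuccEquiv ℂ n g) := by
    intro Q hQ
    have h1 : (finSuccEquiv ℂ n).symm Q * (finSuccEquiv ℂ n).symm Q ∣ g := by
      have h2 := map_dvd (finSuccEquiv ℂ n).symm hQ
      rwa [map_mul, AlgEquiv.symm_apply_apply] at h2
    have h3 := (hg _ h1).map (finSuccEquiv ℂ n)
    rwa [AlgEquiv.apply_symm_apply] at h3
  obtain ⟨r, hr, a, b, hab⟩ := PC.exists_elim hsq
  refine ⟨(finSuccEquiv ℂ n).symm (Polynomial.C r), (finSuccEquiv ℂ n).symm a,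
    (finSuccEquiv ℂ n).symm b, ?_, ?_, ?_⟩
  · intro h
    apply hr
    have h1 := (map_eq_zero_iff _ (finSuccEquiv ℂ n).symm.injective).1 h
    exact Polynomial.C_eq_zero.1 h1
  · intro v hv
    by_contra h0
    apply hv
    have h1 := finSuccEquiv_coeff_coeff (Finsupp.tail v)
      ((finSuccEquiv ℂ n).symm (Polynomial.C r)) (v 0)
    rw [Finsupp.cons_tail, AlgEquiv.apply_symm_apply, Polynomial.coeff_C, if_neg h0,
      coeff_zero] at h1
    exact h1.symm
  · rw [← hab, ← fse_pderiv, map_add, map_mul, map_mul, AlgEquiv.symm_apply_apply,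
      AlgEquiv.symm_apply_apply]

private theorem elim_gen {n : ℕ} {g : MvPolynomial (Fin (n + 1)) ℂ} (hg : Squarefree g)
    (k : Fin (n + 1)) :
    ∃ H a b : MvPolynomial (Fin (n + 1)) ℂ, H ≠ 0 ∧ (∀ v, coeff v H ≠ 0 → v k = 0) ∧
      g * a + pderiv k g * b = H := by
  set e := renameEquiv ℂ (Equiv.swap (0 : Fin (n + 1)) k) with he
  have hee : ∀ p, e (e p) = p := by
    intro p
    rw [he, renameEquiv_apply, renameEquiv_apply, rename_rename]
    have h1 : (⇑(Equiv.swap (0 : Fin (n + 1)) k) ∘ ⇑(Equiv.swap (0 : Fin (n + 1)) k)) = id := by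
      funext i
      simp
    rw [h1, rename_id]
    rfl
  have hsq : Squarefree (e g) := by
    intro Q hQ
    have h1 : e Q * e Q ∣ g := by
      have h2 := map_dvd e hQ
      rwa [map_mul, hee] at h2
    have h3 := (hg _ h1).map e
    rwa [hee] at h3
  obtain ⟨H, a, b, hH, hv, hab⟩ := elim_zero hsq
  refine ⟨e H, e a, e b, ?_, ?_, ?_⟩
  · intro h
    exact hH ((map_eq_zero_iff _ e.injective).1 h)
  · intro v hv'
    rw [he, renameEquiv_apply] at hv'
    obtain ⟨u, rfl, hu⟩ := coeff_rename_ne_zero _ _ _ hv'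
    have h2 := hv u hu
    rw [Finsupp.mapDomain_equiv_apply]
    simpa using h2
  · rw [← hab, map_add, map_mul, map_mul, hee]
    have h1 := pderiv_rename (R := ℂ) (Equiv.swap (0 : Fin (n + 1)) k).injective k g
    rw [Equiv.swap_apply_right] at h1
    have h2 : pderiv 0 (e g) = e (pderiv k g) := h1
    rw [h2, hee]

private theorem comp_mul {n m : ℕ} {G : MvPolynomial (Fin n) ℂ} (hG : G.IsHomogeneous m)
    (a : MvPolynomial (Fin n) ℂ) (e : ℕ) :
    ∃ a', homogeneousComponent e (G * a) = G * a' := by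
  refine ⟨∑ j ∈ Finset.range (a.totalDegree + 1),
    if e = m + j then homogeneousComponent j a else 0, ?_⟩
  conv_lhs => rw [← sum_homogeneousComponent a, Finset.mul_sum, map_sum]
  rw [Finset.mul_sum]
  refine Finset.sum_congr rfl fun j _ => ?_
  have h1 : G * homogeneousComponent j a ∈ homogeneousSubmodule (Fin n) ℂ (m + j) :=
    hG.mul (homogeneousComponent_isHomogeneous j a)
  rw [homogeneousComponent_of_mem h1]
  split_ifs
  · rfl
  · rw [mul_zero]

/-- Elimination of one of the variables. -/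
theorem exists_elim3 {F : MvPolynomial (Fin 3) ℂ} {d : ℕ} (hF : F.IsHomogeneous d)
    (hsq : Squarefree F) (k : Fin 3) : ∃ (H a b : MvPolynomial (Fin 3) ℂ) (e : ℕ), H ≠ 0 ∧
      H.IsHomogeneous e ∧ (∀ v, coeff v H ≠ 0 → v k = 0) ∧ F * a + pderiv k F * b = H := by
  obtain ⟨H, a, b, hH, hv, hab⟩ := elim_gen hsq k
  obtain ⟨e, he⟩ : ∃ e, homogeneousComponent e H ≠ 0 := by
    by_contra h
    push Not at h
    apply hH
    rw [← sum_homogeneousComponent H]
    exact Finset.sum_eq_zero fun j _ => h j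
  obtain ⟨a', ha⟩ := comp_mul hF a e
  obtain ⟨b', hb⟩ := comp_mul (hF.pderiv (i := k)) b e
  refine ⟨homogeneousComponent e H, a', b', e, he, homogeneousComponent_isHomogeneous e H, ?_, ?_⟩
  · intro v hv'
    rw [coeff_homogeneousComponent] at hv'
    refine hv v ?_
    intro h
    apply hv'
    rw [h, ite_self]
  · rw [← ha, ← hb, ← map_add, hab]

/-! ### The restriction of a form without `x_k` -/

/-- The substitution `x_j = 1`, `x_i = T`, all other variables `0`. -/
private def dh {n : ℕ} (j i : Fin n) : MvPolynomial (Fin n) ℂ →ₐ[ℂ] Polynomial ℂ :=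
  aeval fun l => if l = j then 1 else if l = i then Polynomial.X else 0

private theorem sum_three {j i k : Fin 3} (hji : j ≠ i) (hjk : j ≠ k) (hik : i ≠ k)
    (v : Fin 3 → ℕ) : ∑ l, v l = v j + v i + v k := by
  fin_cases j <;> fin_cases i <;> fin_cases k <;>
    simp_all [Fin.sum_univ_three] <;> ring

private theorem prod_three {R : Type} [CommRing R] {j i k : Fin 3} (hji : j ≠ i) (hjk : j ≠ k)
    (hik : i ≠ k) (v : Fin 3 → R) : ∏ l, v l = v j * v i * v k := by
  fin_cases j <;> fin_cases i <;> fin_cases k <;>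
    simp_all [Fin.prod_univ_three] <;> ring

private theorem three_cases {j i k : Fin 3} (hji : j ≠ i) (hjk : j ≠ k) (hik : i ≠ k)
    (l : Fin 3) : l = j ∨ l = i ∨ l = k := by
  revert j i k l
  decide

private theorem dh_ne_zero {H : MvPolynomial (Fin 3) ℂ} {e : ℕ} (hH : H ≠ 0)
    (he : H.IsHomogeneous e) {j i k : Fin 3} (hji : j ≠ i) (hjk : j ≠ k) (hik : i ≠ k)
    (hv : ∀ v, coeff v H ≠ 0 → v k = 0) : dh j i H ≠ 0 := by
  obtain ⟨v, hvH⟩ := MvPolynomial.ne_zero_iff.1 hH
  intro h0
  apply hvH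
  have h1 : (dh j i H).coeff (v i) = 0 := by rw [h0, Polynomial.coeff_zero]
  rw [← h1, dh, aeval_def, eval₂_eq', Polynomial.finsetSum_coeff]
  have h2 : ∀ u ∈ H.support, (algebraMap ℂ (Polynomial ℂ) (coeff u H) *
      ∏ l, (if l = j then (1 : Polynomial ℂ) else if l = i then Polynomial.X else 0) ^ u l).coeff
        (v i) = if u = v then coeff u H else 0 := by
    intro u hu
    have hu0 := hv u (mem_support_iff.1 hu)
    rw [prod_three hji hjk hik, if_pos rfl, if_neg hji.symm, if_pos rfl, hu0, pow_zero, mul_one,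
      one_pow, one_mul, Polynomial.algebraMap_eq, Polynomial.coeff_C_mul, Polynomial.coeff_X_pow]
    have hd : ∀ w, coeff w H ≠ 0 → w j + w i + w k = e := by
      intro w hw
      have h3 := he hw
      rw [← h3, ← sum_three hji hjk hik]
      simp [Finsupp.weight_apply, Finsupp.sum_fintype]
    by_cases hvu : v i = u i
    · have h4 : u = v := by
        have h5 := hd u (mem_support_iff.1 hu)
        have h6 := hd v hvH
        have h7 := hv v hvH
        ext l
        rcases three_cases hji hjk hik l with rfl | rfl | rfl <;> omega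
      rw [if_pos hvu, if_pos h4, mul_one]
    · rw [if_neg hvu, if_neg (fun h => hvu (by rw [h])), mul_zero]
  rw [Finset.sum_congr rfl h2, Finset.sum_ite_eq' H.support v, if_pos (mem_support_iff.2 hvH)]

/-- A form without `x_k` at a point with `x_j = 1`. -/
private theorem eval_dh {H : MvPolynomial (Fin 3) ℂ} {j i k : Fin 3} (hji : j ≠ i) (hjk : j ≠ k)
    (hik : i ≠ k) (hv : ∀ v, coeff v H ≠ 0 → v k = 0) {R : Type} [CommRing R] [Algebra ℂ R]
    (x : Fin 3 → R) (hx : x j = 1) : aeval x H = Polynomial.aeval (x i) (dh j i H) := by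
  rw [dh, aeval_def, eval₂_eq', aeval_def, eval₂_eq', map_sum]
  refine Finset.sum_congr rfl fun u hu => ?_
  have hu0 := hv u (mem_support_iff.1 hu)
  rw [prod_three hji hjk hik, prod_three hji hjk hik, if_pos rfl, if_neg hji.symm, if_pos rfl, hu0,
    pow_zero, pow_zero, mul_one, mul_one, one_pow, one_mul, hx, one_pow, one_mul, map_mul, map_pow,
    Polynomial.aeval_X, Polynomial.algebraMap_eq, Polynomial.aeval_C]

/-! ### The singular points -/

/-- The singular points of a squarefree form lie on finitely many lines. -/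
theorem finite_lines {F : MvPolynomial (Fin 3) ℂ} {d : ℕ} (hd : 0 < d) (hF : F.IsHomogeneous d)
    (hsq : Squarefree F) : ∃ P : Finset (Fin 3 → ℂ), ∀ q, q ≠ 0 →
      (∀ j, eval q (pderiv j F) = 0) → ∃ p ∈ P, ∃ c : ℂ, q = c • p := by
  classical
  choose H a b e hH he hv hab using fun k => exists_elim3 hF hsq k
  have hzero : ∀ q : Fin 3 → ℂ, (∀ j, eval q (pderiv j F) = 0) → ∀ k, eval q (H k) = 0 := by
    intro q hq k
    have h1 := congrArg (eval q) hF.sum_X_mul_pderiv
    rw [map_sum, map_nsmul] at h1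
    have h2 : ∑ i, eval q (X i * pderiv i F) = 0 :=
      Finset.sum_eq_zero fun i _ => by rw [map_mul, hq i, mul_zero]
    rw [h2, nsmul_eq_mul] at h1
    have h3 : eval q F = 0 := by
      rcases mul_eq_zero.1 h1.symm with h | h
      · exact absurd h (Nat.cast_ne_zero.2 hd.ne')
      · exact h
    rw [← hab k, map_add, map_mul, map_mul, h3, hq k, zero_mul, zero_mul, add_zero]
  -- the third index
  have third : ∀ j i : Fin 3, j ≠ i → ∃ k, j ≠ k ∧ i ≠ k := by decide
  choose t ht using third
  let h : Fin 3 → Fin 3 → Polynomial ℂ := fun j i =>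
    if hji : j ≠ i then dh j i (H (t j i hji)) else 1
  let P : Fin 3 → Finset (Fin 3 → ℂ) := fun j =>
    Fintype.piFinset fun i => if i = j then {1} else (h j i).roots.toFinset
  refine ⟨Finset.univ.biUnion P, fun q hq0 hq => ?_⟩
  obtain ⟨j, hj⟩ : ∃ j, q j ≠ 0 := by
    by_contra hh
    push Not at hh
    exact hq0 (funext hh)
  set r : Fin 3 → ℂ := (q j)⁻¹ • q with hr
  have hrj : r j = 1 := by
    rw [hr, Pi.smul_apply, smul_eq_mul, inv_mul_cancel₀ hj]
  refine ⟨r, Finset.mem_biUnion.2 ⟨j, Finset.mem_univ _, ?_⟩, q j, ?_⟩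
  · rw [Fintype.mem_piFinset]
    intro i
    by_cases hij : i = j
    · rw [if_pos hij, Finset.mem_singleton, hij, hrj]
    · rw [if_neg hij, Multiset.mem_toFinset]
      have hji : j ≠ i := fun hh => hij hh.symm
      obtain ⟨hjk, hik⟩ := ht j i hji
      have e1 : h j i = dh j i (H (t j i hji)) := dif_pos hji
      rw [e1, Polynomial.mem_roots (dh_ne_zero (hH _) (he _) hji hjk hik (hv _)),
        Polynomial.IsRoot.def]
      have h4 := eval_dh hji hjk hik (hv (t j i hji)) r hrj
      rw [Polynomial.coe_aeval_eq_eval] at h4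
      rw [← h4]
      have h5 : aeval r (H (t j i hji)) = eval r (H (t j i hji)) := by
        rw [← coe_aeval_eq_eval]
        rfl
      rw [h5, hr, eval_smul_of_homog (he _), hzero q hq, mul_zero]
  · rw [hr, smul_smul, mul_inv_cancel₀ hj, one_smul]

/-! ### The sections -/

private theorem gch_eq {F : MvPolynomial (Fin 3) ℂ} {q : Fin 3 → ℂ} {j₀ : Fin 3} :
    gch F q j₀ = aeval (j₀.insertNth (α := fun _ => MvPolynomial (Fin 2) ℂ) 1
      fun i => X i + C (q (j₀.succAbove i))) F := rfl

private theorem gch_pderiv (F : MvPolynomial (Fin 3) ℂ) (q : Fin 3 → ℂ) (j₀ : Fin 3) (l : Fin 2) :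
    pderiv l (gch F q j₀) = gch (pderiv (j₀.succAbove l) F) q j₀ := by
  induction F using MvPolynomial.induction_on with
  | C a =>
    rw [gch_eq, gch_eq, pderiv_C, map_zero, aeval_C, MvPolynomial.algebraMap_eq, pderiv_C]
  | add p q hp hq =>
    rw [gch_eq] at hp hq ⊢
    rw [gch_eq] at hp hq ⊢
    rw [map_add, map_add, map_add, map_add, hp, hq]
  | mul_X p m hp =>
    rw [gch_eq, gch_eq] at hp ⊢
    rw [Derivation.leibniz, map_mul, Derivation.leibniz, map_add, smul_eq_mul, smul_eq_mul,
      smul_eq_mul, smul_eq_mul, map_mul, map_mul, hp, aeval_X]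
    congr 1
    by_cases hm : m = j₀
    · subst hm
      rw [Fin.insertNth_apply_same, pderiv_X_of_ne (Fin.succAbove_ne m l).symm, map_zero, mul_zero]
      rw [Derivation.map_one_eq_zero, mul_zero]
    · obtain ⟨i, rfl⟩ := Fin.exists_succAbove_eq hm
      rw [Fin.insertNth_apply_succAbove, map_add, pderiv_C, add_zero]
      by_cases hil : i = l
      · rw [hil, pderiv_X_self, pderiv_X_self, map_one]
      · rw [pderiv_X_of_ne hil, pderiv_X_of_ne (fun hh => hil (Fin.succAbove_right_injective hh)),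
          map_zero]

/-- The sections are isolated singularities. -/
theorem isoSing_gch {F : MvPolynomial (Fin 3) ℂ} {d : ℕ} (hF : F.IsHomogeneous d)
    (hsq : Squarefree F) {q : Fin 3 → ℂ} {j₀ : Fin 3} (hq : q j₀ = 1) :
    PC.IsoSing (gch F q j₀ : PC.P2) := by
  set g := gch F q j₀ with hg
  set I : Ideal PC.P2 := Ideal.span {(g : PC.P2), MvPowerSeries.pderiv ℂ 0 (g : PC.P2),
    MvPowerSeries.pderiv ℂ 1 (g : PC.P2)} with hI
  have key : ∀ l i : Fin 2, l ≠ i → ∃ k, (MvPowerSeries.X i : PC.P2) ^ k ∈ I := by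
    intro l i hli
    obtain ⟨H, a, b, e, hH, he, hv, hab⟩ := exists_elim3 hF hsq (j₀.succAbove l)
    have hji : j₀ ≠ j₀.succAbove i := (Fin.succAbove_ne j₀ i).symm
    have hjk : j₀ ≠ j₀.succAbove l := (Fin.succAbove_ne j₀ l).symm
    have hik : j₀.succAbove i ≠ j₀.succAbove l := fun hh => hli (Fin.succAbove_right_injective hh).symm
    set c := q (j₀.succAbove i)
    set h := dh j₀ (j₀.succAbove i) H with hh
    have hh0 : h ≠ 0 := dh_ne_zero hH he hji hjk hik hv
    have h1 : gch H q j₀ = Polynomial.aeval (X i + C c : MvPolynomial (Fin 2) ℂ) h := by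
      have h2 := eval_dh hji hjk hik hv (j₀.insertNth (α := fun _ => MvPolynomial (Fin 2) ℂ) 1
        fun i => X i + C (q (j₀.succAbove i))) (Fin.insertNth_apply_same _ _ _)
      rw [Fin.insertNth_apply_succAbove] at h2
      exact h2
    have h3 : gch H q j₀ ≠ 0 := by
      intro h4
      apply hh0
      have h5 : aeval (fun _ : Fin 2 => (Polynomial.X - Polynomial.C c : Polynomial ℂ))
          (gch H q j₀) = h := by
        rw [h1, ← Polynomial.aeval_algHom_apply]
        have h6 : aeval (fun _ : Fin 2 => (Polynomial.X - Polynomial.C c : Polynomial ℂ))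
            (X i + C c : MvPolynomial (Fin 2) ℂ) = Polynomial.X := by
          rw [map_add, aeval_X, aeval_C, Polynomial.algebraMap_eq, sub_add_cancel]
        rw [h6, Polynomial.aeval_X_left_apply]
      rw [← h5, h4, map_zero]
    have h7 : ∀ v, coeff v (gch H q j₀) ≠ 0 → v l = 0 := by
      intro v hv'
      by_contra hvl
      have h8 : gch H q j₀ ∈ supported ℂ ({i} : Set (Fin 2)) := by
        have hx : (X i + C c : MvPolynomial (Fin 2) ℂ) ∈ supported ℂ ({i} : Set (Fin 2)) :=
          Subalgebra.add_mem _ (X_mem_supported.2 rfl) (Subalgebra.algebraMap_mem _ c)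
        rw [h1]
        have h9 := Polynomial.aeval_mem_adjoin_singleton ℂ (X i + C c : MvPolynomial (Fin 2) ℂ)
          (p := h)
        exact (Algebra.adjoin_le (Set.singleton_subset_iff.2 hx)) h9
      have h10 := mem_supported.1 h8
      have h11 : l ∈ (gch H q j₀).vars :=
        (mem_vars_iff_mem_support l).2 ⟨v, mem_support_iff.2 hv', Finsupp.mem_support_iff.2 hvl⟩
      exact hli (h10 h11)
    have hH' : ((gch H q j₀ : MvPolynomial (Fin 2) ℂ) : PC.P2) ≠ 0 := by
      intro h
      exact h3 (MvPolynomial.coe_injective _ _ (by simpa using h))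
    obtain ⟨k, U, hU, hk⟩ := PC.exists_unit_of_one_var hH' hli
      (fun v h => h7 v (by rwa [MvPolynomial.coeff_coe] at h))
    refine ⟨k, ?_⟩
    have h12 : ((gch H q j₀ : MvPolynomial (Fin 2) ℂ) : PC.P2) ∈ I := by
      have h13 : gch H q j₀ = g * gch a q j₀ + pderiv l g * gch b q j₀ := by
        rw [hg, gch_pderiv, ← hab]
        simp only [gch_eq, map_add, map_mul]
      rw [h13, MvPolynomial.coe_add, MvPolynomial.coe_mul, MvPolynomial.coe_mul,
        PC.pderiv_coe_P2]
      refine I.add_mem (I.mul_mem_right _ (Ideal.subset_span (by simp)))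
        (I.mul_mem_right _ (Ideal.subset_span ?_))
      rcases (show l = 0 ∨ l = 1 by omega) with rfl | rfl <;> simp
    rw [hk] at h12
    exact (Ideal.mul_unit_mem_iff_mem I hU).1 h12
  obtain ⟨k1, hk1⟩ := key 0 1 (by decide)
  obtain ⟨k0, hk0⟩ := key 1 0 (by decide)
  refine ⟨max k0 k1, fun i => ?_⟩
  rcases (show i = 0 ∨ i = 1 by omega) with rfl | rfl
  · exact I.mem_of_dvd (pow_dvd_pow _ (le_max_left _ _)) hk0
  · exact I.mem_of_dvd (pow_dvd_pow _ (le_max_right _ _)) hk1

end SI

end MPb07157
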