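import Pool.Agent.Lib.MP_b07157_agI.IsoA

/-!
# Formal equivalence in more variables
-/

noncomputable section

namespace MPb07157

open MvPolynomial

variable {n k : ℕ}

theorem coeff_single_ps (j : Fin n) (F : MvPowerSeries (Fin n) ℂ) :
    MvPowerSeries.coeff (Finsupp.single j 1) F =
      MvPowerSeries.constantCoeff (MvPowerSeries.pderiv ℂ j F) := by
  rw [← MvPowerSeries.coeff_zero_eq_constantCoeff_apply, MvPowerSeries.coeff_pderiv, zero_add]
  simp

/-- The Jacobian of an automorphism of the ring of power series is invertible. -/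
theorem jac_det_ne_zero (e : MvPowerSeries (Fin n) ℂ ≃ₐ[ℂ] MvPowerSeries (Fin n) ℂ) :
    (Matrix.of fun i j => MvPowerSeries.coeff (Finsupp.single j 1)
      (e (MvPowerSeries.X i))).det ≠ 0 := by
  classical
  set J : Matrix (Fin n) (Fin n) ℂ := Matrix.of fun i j =>
    MvPowerSeries.coeff (Finsupp.single j 1) (e (MvPowerSeries.X i)) with hJ
  set K : Matrix (Fin n) (Fin n) ℂ := Matrix.of fun l j =>
    MvPowerSeries.constantCoeff (MvPowerSeries.pderiv ℂ j (e.symm (MvPowerSeries.X l))) with hK
  have h : K * J = 1 := by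
    ext l i
    rw [Matrix.mul_apply]
    have h1 := congrArg MvPowerSeries.constantCoeff (pderiv_equiv e i (e.symm (MvPowerSeries.X l)))
    rw [AlgEquiv.apply_symm_apply, map_sum] at h1
    have h2 : MvPowerSeries.constantCoeff (MvPowerSeries.pderiv ℂ i
        (MvPowerSeries.X l : MvPowerSeries (Fin n) ℂ)) = (1 : Matrix (Fin n) (Fin n) ℂ) l i := by
      rw [← coeff_single_ps, MvPowerSeries.coeff_X, Matrix.one_apply]
      by_cases hij : l = i
      · rw [if_pos hij, if_pos (by rw [hij])]
      · rw [if_neg hij, if_neg]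
        intro h
        exact hij (Finsupp.single_left_injective one_ne_zero h).symm
    rw [← h2, h1]
    refine Finset.sum_congr rfl fun j _ => ?_
    rw [hJ, hK, Matrix.of_apply, Matrix.of_apply, coeff_single_ps, map_mul, constantCoeff_equiv e,
      mul_comm]
  intro h0
  have h1 := congrArg Matrix.det h
  rw [Matrix.det_mul, h0, mul_zero, Matrix.det_one] at h1
  exact zero_ne_one h1

theorem coeff_single_rename (c : Fin k ↪ Fin n) (i : Fin n) (F : MvPowerSeries (Fin k) ℂ) :
    MvPowerSeries.coeff (Finsupp.single i 1) (MvPowerSeries.rename c F) =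
      ∑ l, if c l = i then MvPowerSeries.coeff (Finsupp.single l 1) F else 0 := by
  classical
  by_cases hi : ∃ l, c l = i
  · obtain ⟨l, rfl⟩ := hi
    have e1 : (Finsupp.single (c l) 1 : Fin n →₀ ℕ) = Finsupp.embDomain c (Finsupp.single l 1) := by
      rw [Finsupp.embDomain_single]
    rw [e1, MvPowerSeries.coeff_embDomain_rename, Finset.sum_eq_single l, if_pos rfl]
    · intro m _ hm
      rw [if_neg fun h => hm (c.injective h)]
    · intro h
      exact absurd (Finset.mem_univ l) h
  · rw [MvPowerSeries.coeff_rename_eq_zero, Finset.sum_eq_zero]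
    · intro l _
      rw [if_neg fun h => hi ⟨l, h⟩]
    · rintro ⟨y, hy⟩
      have hy' : Finsupp.embDomain c y = Finsupp.single i 1 := by
        rw [Finsupp.embDomain_eq_mapDomain]
        exact hy
      have h1 : (Finsupp.embDomain c y) i = 0 := Finsupp.embDomain_of_notMem_range _ _ _ (by
        rintro ⟨l, hl⟩
        exact hi ⟨l, hl⟩)
      rw [hy', Finsupp.single_eq_same] at h1
      exact one_ne_zero h1

/-- Formal equivalence in more variables. -/
theorem FormEquivPow.rename_inj {g h : MvPolynomial (Fin k) ℂ} {m : ℕ} (H : FormEquivPow g h m)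
    {c : Fin k → Fin n} (hc : Function.Injective c) :
    FormEquivPow (rename c g) (rename c h) m := by
  classical
  obtain ⟨e, u, he⟩ := H
  let c' : Fin k ↪ Fin n := ⟨c, hc⟩
  let R : MvPowerSeries (Fin k) ℂ →ₐ[ℂ] MvPowerSeries (Fin n) ℂ := MvPowerSeries.rename c'
  let A : Fin n → MvPowerSeries (Fin n) ℂ := fun i =>
    if hi : ∃ l, c l = i then R (e (MvPowerSeries.X hi.choose)) else MvPowerSeries.X i
  have hAc : ∀ l, A (c l) = R (e (MvPowerSeries.X l)) := by
    intro l
    have hl : ∃ l', c l' = c l := ⟨l, rfl⟩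
    show (if hi : ∃ l', c l' = c l then R (e (MvPowerSeries.X hi.choose))
      else MvPowerSeries.X (c l)) = _
    rw [dif_pos hl, hc hl.choose_spec]
  have hAn : ∀ i, (¬ ∃ l, c l = i) → A i = MvPowerSeries.X i := fun i hi => dif_neg hi
  have hA0 : ∀ i, MvPowerSeries.constantCoeff (A i) = 0 := by
    intro i
    by_cases hi : ∃ l, c l = i
    · obtain ⟨l, rfl⟩ := hi
      rw [hAc]
      show MvPowerSeries.constantCoeff (MvPowerSeries.rename c' (e (MvPowerSeries.X l))) = 0
      rw [MvPowerSeries.constantCoeff_rename, constantCoeff_equiv, MvPowerSeries.constantCoeff_X]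
    · rw [hAn i hi, MvPowerSeries.constantCoeff_X]
  have hA1 : (Matrix.of fun i j => MvPowerSeries.coeff (Finsupp.single j 1) (A i)).det ≠ 0 := by
    refine Str.det_ne_zero_of_injective fun v hv => ?_
    have h1 : ∀ i, (¬ ∃ l, c l = i) → v i = 0 := by
      intro i hi
      have h2 := hv i
      simp only [Matrix.of_apply, hAn i hi, MvPowerSeries.coeff_X] at h2
      rw [Finset.sum_eq_single i] at h2
      · rwa [if_pos rfl, one_mul] at h2
      · intro j _ hj
        rw [if_neg, zero_mul]
        intro h
        exact hj (Finsupp.single_left_injective one_ne_zero h)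
      · intro h
        exact absurd (Finset.mem_univ i) h
    have h2 : (fun l => v (c l)) = 0 := by
      by_contra hne
      have hdet := jac_det_ne_zero e
      apply hdet
      apply (Matrix.exists_mulVec_eq_zero_iff).1
      refine ⟨fun l => v (c l), hne, ?_⟩
      funext i
      have h3 := hv (c i)
      simp only [Matrix.of_apply, hAc] at h3
      rw [Pi.zero_apply, ← h3]
      show ∑ l, MvPowerSeries.coeff (Finsupp.single l 1) (e (MvPowerSeries.X i)) * v (c l) =
        ∑ j, MvPowerSeries.coeff (Finsupp.single j 1)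
          (MvPowerSeries.rename c' (e (MvPowerSeries.X i))) * v j
      simp only [coeff_single_rename]
      simp only [Finset.sum_mul]
      rw [Finset.sum_comm]
      refine Finset.sum_congr rfl fun l _ => ?_
      rw [Finset.sum_eq_single (c l)]
      · have hcl : c' l = c l := rfl
        rw [if_pos hcl]
      · intro j _ hj
        have hcl : ¬ c' l = j := fun h => hj h.symm
        rw [if_neg hcl, zero_mul]
      · intro h
        exact absurd (Finset.mem_univ _) h
    funext i
    by_cases hi : ∃ l, c l = i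
    · obtain ⟨l, rfl⟩ := hi
      exact congrFun h2 l
    · exact h1 i hi
  obtain ⟨E, hE⟩ := IFT.exists_equiv hA0 hA1
  have hR : ∀ p : MvPolynomial (Fin k) ℂ, R (p : MvPowerSeries (Fin k) ℂ) =
      ((rename c p : MvPolynomial (Fin n) ℂ) : MvPowerSeries (Fin n) ℂ) := fun p =>
    MvPowerSeries.rename_coe (f := c') p
  have h1 : E ((rename c h : MvPolynomial (Fin n) ℂ) : MvPowerSeries (Fin n) ℂ) =
      R (e (h : MvPowerSeries (Fin k) ℂ)) := by
    rw [hE, aeval_rename]
    have e1 : (A ∘ c) = fun l => R (e (MvPowerSeries.X l)) := funext hAc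
    rw [e1]
    have e2 : (aeval fun l => R (e (MvPowerSeries.X l))) =
        (R.comp (e : MvPowerSeries (Fin k) ℂ →ₐ[ℂ] MvPowerSeries (Fin k) ℂ)).comp
          (MvPolynomial.coeToMvPowerSeries.algHom (R := ℂ) (σ := Fin k) ℂ) := by
      apply MvPolynomial.algHom_ext
      intro l
      rw [aeval_X, AlgHom.comp_apply, AlgHom.comp_apply,
        MvPolynomial.coeToMvPowerSeries.algHom_apply]
      simp
    rw [e2, AlgHom.comp_apply, AlgHom.comp_apply, MvPolynomial.coeToMvPowerSeries.algHom_apply]
    simp
  refine ⟨E, Units.map (R : MvPowerSeries (Fin k) ℂ →* MvPowerSeries (Fin n) ℂ) u, ?_⟩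
  rw [h1, ← hR, he, map_mul, map_pow]
  rfl

end MPb07157
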