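import Pool.Agent.Lib.MP_b07157_agI.Defs
import Pool.Agent.Lib.MP_b07157_agS.SZ

/-!
# Superisolated germs: the class of the pairs of arcs
-/

noncomputable section

namespace MPb07157

open MvPolynomial

namespace SI

variable {n : ℕ}

/-- The pairs `(γ, w)` of an arc at the origin and a unit `w` with `ord (g(γ) + t^k w) = i`. -/
def setQ (g : MvPolynomial (Fin n) ℂ) (k N i : ℕ) :
    Set ((Fin n × Fin (N + 1)) ⊕ (Fin 1 × Fin (N + 1)) → ℂ) :=
  {x | (∀ j, x (Sum.inl (j, 0)) = 0) ∧ x (Sum.inr (0, 0)) ≠ 0 ∧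
    ((aeval (arc fun p => x (Sum.inl p)) g : PowerSeries ℂ) +
      PowerSeries.X ^ k * arc (fun p => x (Sum.inr p)) 0).order = (i : ℕ∞)}

namespace LineQ

/-! ### Coefficients -/

theorem coeff_S (g : MvPolynomial (Fin n) ℂ) (k N : ℕ)
    (x : (Fin n × Fin (N + 1)) ⊕ (Fin 1 × Fin (N + 1)) → ℂ) (l : ℕ) :
    PowerSeries.coeff l ((aeval (arc fun p => x (Sum.inl p)) g : PowerSeries ℂ) +
      PowerSeries.X ^ k * arc (fun p => x (Sum.inr p)) 0) =
    PowerSeries.coeff l (aeval (arc fun p => x (Sum.inl p)) g : PowerSeries ℂ) +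
      if k ≤ l then PowerSeries.coeff (l - k) (arc (fun p => x (Sum.inr p)) 0) else 0 := by
  rw [map_add, PowerSeries.coeff_X_pow_mul']

theorem exists_poly_S (g : MvPolynomial (Fin n) ℂ) (k N l : ℕ) :
    ∃ P : MvPolynomial ((Fin n × Fin (N + 1)) ⊕ (Fin 1 × Fin (N + 1))) ℂ, ∀ x,
      PowerSeries.coeff l ((aeval (arc fun p => x (Sum.inl p)) g : PowerSeries ℂ) +
        PowerSeries.X ^ k * arc (fun p => x (Sum.inr p)) 0) = eval x P := by
  obtain ⟨P, hP⟩ := exists_coeff_poly (N := N + 1) g l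
  refine ⟨rename Sum.inl P + if k ≤ l then
    (if h : l - k < N + 1 then X (Sum.inr (0, ⟨l - k, h⟩)) else 0) else 0, fun x => ?_⟩
  rw [coeff_S, hP, map_add, eval_rename]
  congr 1
  split_ifs with h1 h2
  · rw [coeff_arc, dif_pos h2, eval_X]
  · rw [coeff_arc, dif_neg h2, map_zero]
  · rw [map_zero]

theorem mem_setQ (g : MvPolynomial (Fin n) ℂ) (k N i : ℕ)
    (x : (Fin n × Fin (N + 1)) ⊕ (Fin 1 × Fin (N + 1)) → ℂ) :
    x ∈ setQ g k N i ↔ (∀ j, x (Sum.inl (j, 0)) = 0) ∧ x (Sum.inr (0, 0)) ≠ 0 ∧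
      PowerSeries.coeff i ((aeval (arc fun p => x (Sum.inl p)) g : PowerSeries ℂ) +
        PowerSeries.X ^ k * arc (fun p => x (Sum.inr p)) 0) ≠ 0 ∧
      ∀ l < i, PowerSeries.coeff l ((aeval (arc fun p => x (Sum.inl p)) g : PowerSeries ℂ) +
        PowerSeries.X ^ k * arc (fun p => x (Sum.inr p)) 0) = 0 := by
  simp only [setQ, Set.mem_ofPred_eq, PowerSeries.order_eq_nat]

end LineQ

open LineQ in
theorem isConstr_setQ (g : MvPolynomial (Fin n) ℂ) (k N i : ℕ) : IsConstr (setQ g k N i) := by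
  have h : setQ g k N i = {x | (∀ j ∈ (Finset.univ : Finset (Fin n)), x (Sum.inl (j, 0)) = 0) ∧
      x (Sum.inr (0, 0)) ≠ 0 ∧
      PowerSeries.coeff i ((aeval (arc fun p => x (Sum.inl p)) g : PowerSeries ℂ) +
        PowerSeries.X ^ k * arc (fun p => x (Sum.inr p)) 0) ≠ 0 ∧
      ∀ l ∈ Finset.range i,
        PowerSeries.coeff l ((aeval (arc fun p => x (Sum.inl p)) g : PowerSeries ℂ) +
        PowerSeries.X ^ k * arc (fun p => x (Sum.inr p)) 0) = 0} := by
    ext x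
    rw [mem_setQ]
    simp only [Set.mem_ofPred_eq, Finset.mem_univ, true_implies, Finset.mem_range]
  rw [h]
  refine isConstr_setOf_and (isConstr_forall_mem _ _ fun j _ => ?_)
    (isConstr_setOf_and ?_ (isConstr_setOf_and ?_ (isConstr_forall_mem _ _ fun l _ => ?_)))
  · have := isConstr_eq_zero
      (X (Sum.inl (j, 0)) : MvPolynomial ((Fin n × Fin (N + 1)) ⊕ (Fin 1 × Fin (N + 1))) ℂ)
    simpa only [eval_X] using this
  · have := isConstr_ne_zero
      (X (Sum.inr (0, 0)) : MvPolynomial ((Fin n × Fin (N + 1)) ⊕ (Fin 1 × Fin (N + 1))) ℂ)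
    simpa only [eval_X] using this
  · obtain ⟨P, hP⟩ := exists_poly_S g k N i
    simp only [hP]
    exact isConstr_ne_zero P
  · obtain ⟨P, hP⟩ := exists_poly_S g k N l
    simp only [hP]
    exact isConstr_eq_zero P

namespace LineQ

/-! ### The shift of the second arc -/

/-- The polynomial that gives the coefficient `m` of `g(γ)`. -/
def cP (g : MvPolynomial (Fin n) ℂ) (N m : ℕ) : MvPolynomial (Fin n × Fin (N + 1)) ℂ :=
  (exists_coeff_poly (N := N + 1) g m).choose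

theorem eval_cP (g : MvPolynomial (Fin n) ℂ) (N m : ℕ) (γ : Fin n × Fin (N + 1) → ℂ) :
    eval γ (cP g N m) = PowerSeries.coeff m (aeval (arc γ) g : PowerSeries ℂ) :=
  ((exists_coeff_poly (N := N + 1) g m).choose_spec γ).symm

/-- The map `(γ, w) ↦ (γ, w + c g(γ) / t^k)`. -/
def shP (g : MvPolynomial (Fin n) ℂ) (k N : ℕ) (c : ℂ) :
    ((Fin n × Fin (N + 1)) ⊕ (Fin 1 × Fin (N + 1))) →
      MvPolynomial ((Fin n × Fin (N + 1)) ⊕ (Fin 1 × Fin (N + 1))) ℂ
  | Sum.inl p => X (Sum.inl p)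
  | Sum.inr q => X (Sum.inr q) + C c * rename Sum.inl (cP g N ((q.2 : ℕ) + k))

theorem polyMap_shP_inl (g : MvPolynomial (Fin n) ℂ) (k N : ℕ) (c : ℂ)
    (x : (Fin n × Fin (N + 1)) ⊕ (Fin 1 × Fin (N + 1)) → ℂ) (p : Fin n × Fin (N + 1)) :
    polyMap (shP g k N c) x (Sum.inl p) = x (Sum.inl p) := by
  simp only [polyMap, shP, eval_X]

theorem polyMap_shP_inr (g : MvPolynomial (Fin n) ℂ) (k N : ℕ) (c : ℂ)
    (x : (Fin n × Fin (N + 1)) ⊕ (Fin 1 × Fin (N + 1)) → ℂ) (q : Fin 1 × Fin (N + 1)) :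
    polyMap (shP g k N c) x (Sum.inr q) = x (Sum.inr q) + c *
      PowerSeries.coeff ((q.2 : ℕ) + k)
        (aeval (arc fun p => x (Sum.inl p)) g : PowerSeries ℂ) := by
  simp only [polyMap, shP, map_add, map_mul, eval_X, eval_C, eval_rename]
  rw [← eval_cP]
  rfl

theorem polyMap_shP_shP (g : MvPolynomial (Fin n) ℂ) (k N : ℕ) (c : ℂ)
    (x : (Fin n × Fin (N + 1)) ⊕ (Fin 1 × Fin (N + 1)) → ℂ) :
    polyMap (shP g k N (-c)) (polyMap (shP g k N c) x) = x := by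
  funext s
  rcases s with p | q
  · rw [polyMap_shP_inl, polyMap_shP_inl]
  · rw [polyMap_shP_inr, polyMap_shP_inr]
    simp only [polyMap_shP_inl]
    ring

theorem cls_shift (g : MvPolynomial (Fin n) ℂ) (k N : ℕ)
    {S : Set ((Fin n × Fin (N + 1)) ⊕ (Fin 1 × Fin (N + 1)) → ℂ)} (hS : IsConstr S) :
    cls (polyMap (shP g k N 1) ⁻¹' S) = cls S := by
  refine cls_bijOn (hS.preimage _) hS (shP g k N 1) ⟨fun x hx => hx, ?_, ?_⟩
  · intro x _ y _ hxy
    have h := congrArg (polyMap (shP g k N (-1))) hxy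
    rwa [polyMap_shP_shP, polyMap_shP_shP] at h
  · intro y hy
    have h := polyMap_shP_shP g k N (-1) y
    rw [neg_neg] at h
    refine ⟨polyMap (shP g k N (-1)) y, ?_, h⟩
    rw [Set.mem_preimage, h]
    exact hy

/-! ### The pieces -/

/-- The arcs at the origin with `ord g = j`. -/
def Dq (g : MvPolynomial (Fin n) ℂ) (N j : ℕ) : Set (Fin n × Fin (N + 1) → ℂ) :=
  arcs g (N + 1) j ∩ Start n 1 (N + 1)

/-- The arcs at the origin with `ord g > j`. -/
def Dg (g : MvPolynomial (Fin n) ℂ) (N j : ℕ) : Set (Fin n × Fin (N + 1) → ℂ) :=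
  SZ.Gk g (N + 1) (j + 1) ∩ Start n 1 (N + 1)

/-- The arcs in the line with order `j`. -/
def Tj (N j : ℕ) : Set (Fin 1 × Fin (N + 1) → ℂ) := Start 1 j (N + 1) \ Start 1 (j + 1) (N + 1)

theorem isConstr_Dq (g : MvPolynomial (Fin n) ℂ) (N j : ℕ) : IsConstr (Dq g N j) :=
  (isConstr_arcs _ _ _).inter (isConstr_Start _ _ _)

theorem isConstr_Dg (g : MvPolynomial (Fin n) ℂ) (N j : ℕ) : IsConstr (Dg g N j) :=
  (SZ.isConstr_Gk _ _ _).inter (isConstr_Start _ _ _)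

theorem isConstr_Tj (N j : ℕ) : IsConstr (Tj N j) :=
  (isConstr_Start _ _ _).diff (isConstr_Start _ _ _)

theorem mem_Start1 {N j : ℕ} {w : Fin 1 × Fin (N + 1) → ℂ} :
    w ∈ Start 1 j (N + 1) ↔ ∀ l < j, PowerSeries.coeff l (arc w 0) = 0 := by
  constructor
  · intro h l hl
    rw [coeff_arc]
    split_ifs with h1
    · exact h 0 ⟨l, h1⟩ hl
    · rfl
  · intro h i l hl
    have h1 := h l hl
    rw [coeff_arc, dif_pos l.2] at h1
    rw [Subsingleton.elim i 0]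
    exact h1

theorem mem_Tj {N j : ℕ} {w : Fin 1 × Fin (N + 1) → ℂ} :
    w ∈ Tj N j ↔ (∀ l < j, PowerSeries.coeff l (arc w 0) = 0) ∧
      PowerSeries.coeff j (arc w 0) ≠ 0 := by
  unfold Tj
  rw [Set.mem_sdiff, mem_Start1, mem_Start1]
  constructor
  · rintro ⟨h1, h2⟩
    refine ⟨h1, fun h3 => h2 fun l hl => ?_⟩
    rcases Nat.lt_succ_iff_lt_or_eq.1 hl with h4 | h4
    · exact h1 l h4
    · rw [h4]; exact h3
  · rintro ⟨h1, h2⟩
    exact ⟨h1, fun h3 => h2 (h3 j (Nat.lt_succ_self j))⟩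

theorem mem_Dq {g : MvPolynomial (Fin n) ℂ} {N j : ℕ} {γ : Fin n × Fin (N + 1) → ℂ} :
    γ ∈ Dq g N j ↔ (PowerSeries.coeff j (aeval (arc γ) g : PowerSeries ℂ) ≠ 0 ∧
      ∀ l < j, PowerSeries.coeff l (aeval (arc γ) g : PowerSeries ℂ) = 0) ∧
      ∀ i, γ (i, 0) = 0 := by
  unfold Dq
  rw [Set.mem_inter_iff, mem_Start_one]
  simp only [arcs, Set.mem_ofPred_eq, PowerSeries.order_eq_nat]

theorem mem_Dg {g : MvPolynomial (Fin n) ℂ} {N j : ℕ} {γ : Fin n × Fin (N + 1) → ℂ} :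
    γ ∈ Dg g N j ↔ (∀ l < j + 1, PowerSeries.coeff l (aeval (arc γ) g : PowerSeries ℂ) = 0) ∧
      ∀ i, γ (i, 0) = 0 := by
  unfold Dg
  rw [Set.mem_inter_iff, mem_Start_one, SZ.mem_Gk]

theorem mem_Tj_zero {N : ℕ} {w : Fin 1 × Fin (N + 1) → ℂ} : w ∈ Tj N 0 ↔ w (0, 0) ≠ 0 := by
  rw [mem_Tj, coeff_arc, dif_pos (Nat.succ_pos N)]
  simp only [Nat.not_lt_zero, false_implies, implies_true, true_and]
  rfl

theorem mem_prodSum {σ τ : Type} {S : Set (σ → ℂ)} {T : Set (τ → ℂ)} {x : σ ⊕ τ → ℂ} :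
    x ∈ prodSum S T ↔ (fun i => x (Sum.inl i)) ∈ S ∧ (fun i => x (Sum.inr i)) ∈ T := Iff.rfl

theorem coeff_shift (g : MvPolynomial (Fin n) ℂ) (k N : ℕ)
    (x : (Fin n × Fin (N + 1)) ⊕ (Fin 1 × Fin (N + 1)) → ℂ) {l : ℕ} (hl : l ≤ N) :
    PowerSeries.coeff l (arc (fun p => polyMap (shP g k N 1) x (Sum.inr p)) 0) =
      PowerSeries.coeff (l + k) ((aeval (arc fun p => x (Sum.inl p)) g : PowerSeries ℂ) +
        PowerSeries.X ^ k * arc (fun p => x (Sum.inr p)) 0) := by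
  rw [coeff_S, if_pos (Nat.le_add_left k l), Nat.add_sub_cancel, coeff_arc, coeff_arc,
    dif_pos (Nat.lt_succ_of_le hl), dif_pos (Nat.lt_succ_of_le hl), polyMap_shP_inr, one_mul,
    add_comm]

theorem coeff_S_lt (g : MvPolynomial (Fin n) ℂ) {k N : ℕ}
    (x : (Fin n × Fin (N + 1)) ⊕ (Fin 1 × Fin (N + 1)) → ℂ) {l : ℕ} (hl : l < k) :
    PowerSeries.coeff l ((aeval (arc fun p => x (Sum.inl p)) g : PowerSeries ℂ) +
      PowerSeries.X ^ k * arc (fun p => x (Sum.inr p)) 0) =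
    PowerSeries.coeff l (aeval (arc fun p => x (Sum.inl p)) g : PowerSeries ℂ) := by
  rw [coeff_S, if_neg (not_le.2 hl), add_zero]

theorem coeff_S_self (g : MvPolynomial (Fin n) ℂ) {k N : ℕ}
    (x : (Fin n × Fin (N + 1)) ⊕ (Fin 1 × Fin (N + 1)) → ℂ) :
    PowerSeries.coeff k ((aeval (arc fun p => x (Sum.inl p)) g : PowerSeries ℂ) +
      PowerSeries.X ^ k * arc (fun p => x (Sum.inr p)) 0) =
    PowerSeries.coeff k (aeval (arc fun p => x (Sum.inl p)) g : PowerSeries ℂ) +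
      x (Sum.inr (0, 0)) := by
  rw [coeff_S, if_pos le_rfl, Nat.sub_self, coeff_arc, dif_pos (Nat.succ_pos N)]
  rfl

theorem setQ_lt (g : MvPolynomial (Fin n) ℂ) {k N i : ℕ} (h : i < k) :
    setQ g k N i = prodSum (Dq g N i) (Tj N 0) := by
  ext x
  rw [mem_setQ, mem_prodSum, mem_Dq, mem_Tj_zero, coeff_S_lt g x h]
  constructor
  · rintro ⟨h1, h2, h3, h4⟩
    exact ⟨⟨⟨h3, fun l hl => by rw [← coeff_S_lt g x (hl.trans h)]; exact h4 l hl⟩, h1⟩, h2⟩
  · rintro ⟨⟨⟨h3, h4⟩, h1⟩, h2⟩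
    exact ⟨h1, h2, h3, fun l hl => by rw [coeff_S_lt g x (hl.trans h)]; exact h4 l hl⟩

theorem setQ_gt (g : MvPolynomial (Fin n) ℂ) {k N i : ℕ} (h : k < i) (hi : i ≤ N) :
    setQ g k N i = polyMap (shP g k N 1) ⁻¹' (prodSum (Dq g N k) (Tj N (i - k))) := by
  ext x
  rw [mem_setQ, Set.mem_preimage, mem_prodSum, mem_Dq, mem_Tj]
  simp only [polyMap_shP_inl]
  have e1 : PowerSeries.coeff (i - k)
      (arc (fun p => polyMap (shP g k N 1) x (Sum.inr p)) 0) =
      PowerSeries.coeff i ((aeval (arc fun p => x (Sum.inl p)) g : PowerSeries ℂ) +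
        PowerSeries.X ^ k * arc (fun p => x (Sum.inr p)) 0) := by
    rw [coeff_shift g k N x (by omega), Nat.sub_add_cancel h.le]
  rw [e1]
  constructor
  · rintro ⟨h1, h2, h3, h4⟩
    refine ⟨⟨⟨fun h5 => h2 ?_, fun l hl => ?_⟩, h1⟩, fun l hl => ?_, h3⟩
    · have h6 := h4 k h
      rwa [coeff_S_self, h5, zero_add] at h6
    · rw [← coeff_S_lt g x hl]
      exact h4 l (hl.trans h)
    · rw [coeff_shift g k N x (by omega)]
      exact h4 _ (by omega)
  · rintro ⟨⟨⟨h3, h4⟩, h1⟩, h5, h6⟩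
    refine ⟨h1, fun h7 => h3 ?_, h6, fun l hl => ?_⟩
    · have h8 := h5 0 (by omega)
      rwa [coeff_shift g k N x (Nat.zero_le N), zero_add, coeff_S_self, h7, add_zero] at h8
    · rcases Nat.lt_or_ge l k with h9 | h9
      · rw [coeff_S_lt g x h9]
        exact h4 l h9
      · have h8 := h5 (l - k) (by omega)
        rwa [coeff_shift g k N x (by omega), Nat.sub_add_cancel h9] at h8

theorem setQ_eq (g : MvPolynomial (Fin n) ℂ) (k N : ℕ) :
    setQ g k N k = prodSum (Dg g N k) (Tj N 0) ∪ (prodSum (Dq g N k) (Tj N 0) \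
      polyMap (shP g k N 1) ⁻¹' (prodSum (Dq g N k) (Start 1 1 (N + 1)))) := by
  ext x
  rw [mem_setQ, Set.mem_union, Set.mem_sdiff, Set.mem_preimage, mem_prodSum, mem_prodSum,
    mem_prodSum, mem_Dq, mem_Dq, mem_Dg, mem_Tj_zero, mem_Start1]
  simp only [polyMap_shP_inl]
  have e1 : (∀ l < 1, PowerSeries.coeff l
      (arc (fun p => polyMap (shP g k N 1) x (Sum.inr p)) 0) = 0) ↔
      PowerSeries.coeff k (aeval (arc fun p => x (Sum.inl p)) g : PowerSeries ℂ) +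
      x (Sum.inr (0, 0)) = 0 := by
    constructor
    · intro h
      have h8 := h 0 (by omega)
      rwa [coeff_shift g k N x (Nat.zero_le N), zero_add, coeff_S_self] at h8
    · intro h l hl
      rw [show l = 0 by omega, coeff_shift g k N x (Nat.zero_le N), zero_add, coeff_S_self]
      exact h
  rw [e1, coeff_S_self]
  constructor
  · rintro ⟨h1, h2, h3, h4⟩
    have h5 : ∀ l < k, PowerSeries.coeff l
        (aeval (arc fun p => x (Sum.inl p)) g : PowerSeries ℂ) = 0 := fun l hl => by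
      rw [← coeff_S_lt g x hl]
      exact h4 l hl
    by_cases h6 : PowerSeries.coeff k
        (aeval (arc fun p => x (Sum.inl p)) g : PowerSeries ℂ) = 0
    · refine Or.inl ⟨⟨fun l hl => ?_, h1⟩, h2⟩
      rcases Nat.lt_succ_iff_lt_or_eq.1 hl with h7 | h7
      · exact h5 l h7
      · rw [h7]; exact h6
    · exact Or.inr ⟨⟨⟨⟨h6, h5⟩, h1⟩, h2⟩, fun h7 => h3 h7.2⟩
  · rintro (⟨⟨h3, h1⟩, h2⟩ | ⟨⟨⟨⟨h3, h4⟩, h1⟩, h2⟩, h5⟩)
    · refine ⟨h1, h2, ?_, fun l hl => ?_⟩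
      · rw [h3 k (Nat.lt_succ_self k), zero_add]
        exact h2
      · rw [coeff_S_lt g x hl]
        exact h3 l (by omega)
    · refine ⟨h1, h2, fun h6 => h5 ⟨⟨⟨h3, h4⟩, h1⟩, h6⟩, fun l hl => ?_⟩
      rw [coeff_S_lt g x hl]
      exact h4 l hl

/-! ### Classes -/

theorem cls_Tj {N j : ℕ} (hj : j ≤ N) : cls (Tj N j) = L ^ (N - j) * (L - 1) := by
  have h1 : Start 1 j (N + 1) = Tj N j ∪ Start 1 (j + 1) (N + 1) := by
    unfold Tj
    rw [Set.sdiff_union_of_subset]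
    intro w hw i l hl
    exact hw i l (by omega)
  have h2 := SZ.cls_Start (n := 1) (ε := j) (N := N + 1) (by omega)
  rw [h1, cls_union (isConstr_Tj N j) (isConstr_Start _ _ _) Set.disjoint_sdiff_left,
    SZ.cls_Start (by omega), one_mul, one_mul, show N + 1 - j = (N - j) + 1 by omega,
    show N + 1 - (j + 1) = N - j by omega] at h2
  rw [eq_sub_of_add_eq h2, pow_succ]
  ring

theorem cls_lt (g : MvPolynomial (Fin n) ℂ) {k N i : ℕ} (h : i < k) :
    cls (setQ g k N i) = cls (Dq g N i) * (L ^ N * (L - 1)) := by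
  rw [setQ_lt g h, cls_prodSum (isConstr_Dq g N i) (isConstr_Tj N 0), cls_Tj (Nat.zero_le N),
    Nat.sub_zero]

theorem cls_gt (g : MvPolynomial (Fin n) ℂ) {k N i : ℕ} (h : k < i) (hi : i ≤ N) :
    cls (setQ g k N i) = cls (Dq g N k) * (L ^ (N - (i - k)) * (L - 1)) := by
  rw [setQ_gt g h hi, cls_shift g k N (isConstr_prodSum (isConstr_Dq g N k) (isConstr_Tj N _)),
    cls_prodSum (isConstr_Dq g N k) (isConstr_Tj N _), cls_Tj (by omega)]

theorem cls_Dg (g : MvPolynomial (Fin n) ℂ) (k N : ℕ) :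
    cls (Dg g N k) = L ^ (n * N) - ∑ j ∈ Finset.range (k + 1), cls (Dq g N j) := by
  unfold Dg Dq
  rw [SZ.cls_Gk g (by omega), Nat.add_sub_cancel]

theorem cls_eq (g : MvPolynomial (Fin n) ℂ) (k N : ℕ) :
    cls (setQ g k N k) = cls (Dg g N k) * (L ^ N * (L - 1)) +
      cls (Dq g N k) * (L ^ N * (L - 1) - L ^ N) := by
  have hA := isConstr_prodSum (isConstr_Dq g N k) (isConstr_Tj N 0)
  have hB0 := isConstr_prodSum (isConstr_Dq g N k) (isConstr_Start 1 1 (N + 1))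
  have hB := hB0.preimage (shP g k N 1)
  have hC := isConstr_prodSum (isConstr_Dg g N k) (isConstr_Tj N 0)
  have hsub : polyMap (shP g k N 1) ⁻¹' (prodSum (Dq g N k) (Start 1 1 (N + 1))) ⊆
      prodSum (Dq g N k) (Tj N 0) := by
    intro x hx
    rw [Set.mem_preimage, mem_prodSum, mem_Start1, mem_Dq] at hx
    simp only [polyMap_shP_inl] at hx
    rw [mem_prodSum, mem_Dq, mem_Tj_zero]
    refine ⟨hx.1, fun h => hx.1.1.1 ?_⟩
    have h8 := hx.2 0 (by omega)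
    rwa [coeff_shift g k N x (Nat.zero_le N), zero_add, coeff_S_self, h, add_zero] at h8
  have h1 : cls (prodSum (Dq g N k) (Tj N 0) \
      polyMap (shP g k N 1) ⁻¹' (prodSum (Dq g N k) (Start 1 1 (N + 1)))) =
      cls (Dq g N k) * (L ^ N * (L - 1)) - cls (Dq g N k) * L ^ N := by
    have h2 := cls_union (hA.diff hB) hB Set.disjoint_sdiff_left
    rw [Set.sdiff_union_of_subset hsub, cls_shift g k N hB0,
      cls_prodSum (isConstr_Dq g N k) (isConstr_Tj N 0),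
      cls_prodSum (isConstr_Dq g N k) (isConstr_Start 1 1 (N + 1)), cls_Tj (Nat.zero_le N),
      SZ.cls_Start (by omega), Nat.sub_zero, one_mul, Nat.add_sub_cancel] at h2
    exact (eq_sub_of_add_eq h2.symm)
  rw [setQ_eq, cls_union hC (hA.diff hB), h1, cls_prodSum (isConstr_Dg g N k) (isConstr_Tj N 0),
    cls_Tj (Nat.zero_le N), Nat.sub_zero]
  · ring
  · rw [Set.disjoint_left]
    intro x hx hx'
    rw [mem_prodSum, mem_Dg] at hx
    have h3 := hx'.1
    rw [mem_prodSum, mem_Dq] at h3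
    exact h3.1.1.1 (hx.1.1 k (Nat.lt_succ_self k))

/-! ### Measures -/

theorem inv_pow_eq (a : ℕ) : (↑((LU ^ a)⁻¹) : Mot) = ell ^ a := by
  unfold ell
  rw [← inv_pow, Units.val_pow_eq_pow_val]

theorem ell_mul : ell * (LU : Mot) = 1 := by
  unfold ell
  exact Units.inv_mul LU

theorem ell_pow_mul (a : ℕ) : ell ^ a * (LU : Mot) ^ a = 1 := by
  rw [← mul_pow, ell_mul, one_pow]

theorem clsM_Dq (g : MvPolynomial (Fin n) ℂ) {N j : ℕ} (hj : j ≤ N) :
    ell ^ (n * (N + 1)) * clsM (Dq g N j) = Zcoeff0 g j := by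
  rw [Zcoeff0_eq_muE, ← muE_eq g (N := N + 1) (Nat.lt_succ_of_le hj) le_rfl]
  unfold muE Dq
  rw [inv_pow_eq]

end LineQ

open LineQ in
theorem clsM_setQ (g : MvPolynomial (Fin n) ℂ) {k N i : ℕ} (hi : i ≤ N) :
    ↑((LU ^ ((n + 1) * (N + 1)))⁻¹) * clsM (setQ g k N i) = cK n k (Zcoeff0 g) i := by
  have hL : algebraMap K0 Mot L = (LU : Mot) := LU_val.symm
  rw [inv_pow_eq]
  rcases lt_trichotomy i k with h | h | h
  · have h1 : clsM (setQ g k N i) = clsM (Dq g N i) * ((LU : Mot) ^ N * ((LU : Mot) - 1)) := by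
      unfold clsM
      rw [cls_lt g h, map_mul, map_mul, map_pow, map_sub, map_one, hL]
    unfold cK
    rw [if_pos h, h1, ← clsM_Dq g hi]
    have e1 : ell ^ ((n + 1) * (N + 1)) = ell ^ (n * (N + 1)) * (ell ^ N * ell) := by ring
    rw [e1]
    linear_combination (ell ^ (n * (N + 1)) * clsM (Dq g N i) * (ell * (LU : Mot) - ell)) *
      ell_pow_mul N + (ell ^ (n * (N + 1)) * clsM (Dq g N i)) * ell_mul
  · subst h
    have h1 : clsM (setQ g i N i) =
        ((LU : Mot) ^ (n * N) - ∑ j ∈ Finset.range (i + 1), clsM (Dq g N j)) *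
        ((LU : Mot) ^ N * ((LU : Mot) - 1)) +
        clsM (Dq g N i) * ((LU : Mot) ^ N * ((LU : Mot) - 1) - (LU : Mot) ^ N) := by
      unfold clsM
      rw [cls_eq g i N, cls_Dg]
      simp only [map_add, map_mul, map_sub, map_pow, map_one, map_sum, hL]
    have h2 : ∑ j ∈ Finset.range (i + 1), Zcoeff0 g j =
        ell ^ (n * (N + 1)) * ∑ j ∈ Finset.range (i + 1), clsM (Dq g N j) := by
      rw [Finset.mul_sum]
      refine Finset.sum_congr rfl fun j hj => ?_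
      rw [clsM_Dq g (by have := Finset.mem_range.1 hj; omega)]
    unfold cK
    rw [if_neg (lt_irrefl i), if_pos rfl, h1, h2, ← clsM_Dq g hi]
    set s : Mot := ∑ j ∈ Finset.range (i + 1), clsM (Dq g N j)
    set y : Mot := clsM (Dq g N i)
    have e1 : ell ^ ((n + 1) * (N + 1)) = ell ^ (n * (N + 1)) * (ell ^ N * ell) := by ring
    have e2 : ell ^ (n * (N + 1)) = ell ^ (n * N) * ell ^ n := by ring
    have e3 : ell ^ (n * (N + 1)) * (LU : Mot) ^ (n * N) = ell ^ n := by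
      rw [e2, mul_right_comm, ell_pow_mul, one_mul]
    have e4 : ell ^ N * ell * ((LU : Mot) ^ N * ((LU : Mot) - 1)) = 1 - ell := by
      linear_combination (ell * (LU : Mot) - ell) * ell_pow_mul N + ell_mul
    have e5 : ell ^ N * ell * (LU : Mot) ^ N = ell := by
      linear_combination ell * ell_pow_mul N
    rw [e1]
    linear_combination (ell ^ (n * (N + 1)) * ((LU : Mot) ^ (n * N) - s) +
      ell ^ (n * (N + 1)) * y) * e4 + (1 - ell) * e3 - ell ^ (n * (N + 1)) * y * e5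
  · have h1 : clsM (setQ g k N i) =
        clsM (Dq g N k) * ((LU : Mot) ^ (N - (i - k)) * ((LU : Mot) - 1)) := by
      unfold clsM
      rw [cls_gt g h hi, map_mul, map_mul, map_pow, map_sub, map_one, hL]
    unfold cK
    rw [if_neg (not_lt.2 h.le), if_neg h.ne', h1, ← clsM_Dq g (h.le.trans hi)]
    obtain ⟨r, hr⟩ : ∃ r, N = r + (i - k) := ⟨N - (i - k), by omega⟩
    have e0 : N - (i - k) = r := by omega
    have e1 : ell ^ ((n + 1) * (N + 1)) =
        ell ^ (n * (N + 1)) * (ell ^ r * ell ^ (i - k) * ell) := by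
      rw [← pow_add ell r, ← hr]
      ring
    rw [e1, e0]
    linear_combination (ell ^ (n * (N + 1)) * clsM (Dq g N k) * ell ^ (i - k) *
      (ell * (LU : Mot) - ell)) * ell_pow_mul r +
      (ell ^ (n * (N + 1)) * clsM (Dq g N k) * ell ^ (i - k)) * ell_mul

end SI

end MPb07157
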