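import Pool.Agent.Lib.MP_b07157_agI.Strata
import Pool.Agent.Lib.MP_b07157_agI.LineQ

/-!
# Superisolated germs: the lines of singular points
-/

noncomputable section

namespace MPb07157

open MvPolynomial

namespace SI

variable {n : ℕ}

namespace LineA

/-! ### Truncated composition with polynomials -/

/-- The polynomial giving the coefficient `l` of `A(γ)`. -/
def cA {m N : ℕ} (A : MvPolynomial (Fin m) ℂ) (l : ℕ) : MvPolynomial (Fin m × Fin (N + 1)) ℂ :=
  (exists_coeff_poly (N := N + 1) A l).choose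

theorem eval_cA {m N : ℕ} (A : MvPolynomial (Fin m) ℂ) (l : ℕ) (y : Fin m × Fin (N + 1) → ℂ) :
    eval y (cA A l) = PowerSeries.coeff l (aeval (arc y) A : PowerSeries ℂ) :=
  ((exists_coeff_poly (N := N + 1) A l).choose_spec y).symm

/-- Two power series with the same coefficients up to `N` agree modulo `X ^ (N + 1)`. -/
theorem dvd_of_coeff {N : ℕ} {a b : PowerSeries ℂ}
    (h : ∀ l < N + 1, PowerSeries.coeff l a = PowerSeries.coeff l b) :
    (PowerSeries.X : PowerSeries ℂ) ^ (N + 1) ∣ a - b := by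
  rw [PowerSeries.X_pow_dvd_iff]
  intro l hl
  rw [map_sub, h l hl, sub_self]

theorem coeff_of_dvd {N : ℕ} {a b : PowerSeries ℂ}
    (h : (PowerSeries.X : PowerSeries ℂ) ^ (N + 1) ∣ a - b) {l : ℕ} (hl : l < N + 1) :
    PowerSeries.coeff l a = PowerSeries.coeff l b := by
  rw [PowerSeries.X_pow_dvd_iff] at h
  have h1 := h l hl
  rwa [map_sub, sub_eq_zero] at h1

theorem arc_congr {m N : ℕ} {y : Fin m × Fin (N + 1) → ℂ} {j : Fin m} {a : PowerSeries ℂ}
    (h : ∀ l : Fin (N + 1), y (j, l) = PowerSeries.coeff (l : ℕ) a) :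
    (PowerSeries.X : PowerSeries ℂ) ^ (N + 1) ∣ arc y j - a := by
  refine dvd_of_coeff fun l hl => ?_
  rw [coeff_arc, dif_pos hl]
  exact h ⟨l, hl⟩

theorem eq_of_arc {m N : ℕ} {y z : Fin m × Fin (N + 1) → ℂ} {j : Fin m}
    (h : (PowerSeries.X : PowerSeries ℂ) ^ (N + 1) ∣ arc y j - arc z j) (l : Fin (N + 1)) :
    y (j, l) = z (j, l) := by
  have h1 := coeff_of_dvd h l.isLt
  rw [coeff_arc, coeff_arc, dif_pos l.isLt, dif_pos l.isLt] at h1
  exact h1

/-- Division of congruences by units. -/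
theorem dvd_of_unit_mul {N : ℕ} {u a : PowerSeries ℂ} (hu : IsUnit u)
    (h : (PowerSeries.X : PowerSeries ℂ) ^ N ∣ u * a) : (PowerSeries.X : PowerSeries ℂ) ^ N ∣ a :=
  (hu.dvd_mul_left).1 h

theorem coeff_zero_mul (a b : PowerSeries ℂ) : PowerSeries.coeff 0 (a * b) =
    PowerSeries.coeff 0 a * PowerSeries.coeff 0 b := by
  rw [PowerSeries.coeff_zero_eq_constantCoeff_apply, PowerSeries.coeff_zero_eq_constantCoeff_apply,
    PowerSeries.coeff_zero_eq_constantCoeff_apply, map_mul]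

/-! ### The second arc -/

/-- `∑ t^{kj} U^{j+1} c_j`. -/
def Wf (k T : ℕ) (c : ℕ → PowerSeries ℂ) (U : PowerSeries ℂ) : PowerSeries ℂ :=
  ∑ j ∈ Finset.range T, PowerSeries.X ^ (k * j) * (U ^ (j + 1) * c j)

theorem Wf_sub {k T : ℕ} (hk : 0 < k) (c : ℕ → PowerSeries ℂ) (U V : PowerSeries ℂ) :
    ∃ s, Wf k (T + 1) c U - Wf k (T + 1) c V = (U - V) * (c 0 + PowerSeries.X * s) := by
  choose r hr using fun j : ℕ => (sub_dvd_pow_sub_pow U V (j + 1))
  refine ⟨∑ j ∈ Finset.range T, PowerSeries.X ^ (k * (j + 1) - 1) * (r (j + 1) * c (j + 1)), ?_⟩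
  unfold Wf
  rw [← Finset.sum_sub_distrib, Finset.sum_range_succ']
  have h0 : (PowerSeries.X : PowerSeries ℂ) ^ (k * 0) * (U ^ (0 + 1) * c 0) -
      PowerSeries.X ^ (k * 0) * (V ^ (0 + 1) * c 0) = (U - V) * c 0 := by
    simp only [mul_zero, pow_zero, zero_add, pow_one, one_mul]
    ring
  rw [h0, mul_add, add_comm, Finset.mul_sum, Finset.mul_sum]
  congr 1
  refine Finset.sum_congr rfl fun j _ => ?_
  have h1 : k * (j + 1) = (k * (j + 1) - 1) + 1 := by
    have : 0 < k * (j + 1) := Nat.mul_pos hk (Nat.succ_pos j)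
    omega
  have h2 := hr (j + 1)
  rw [← mul_sub, ← sub_mul, h2]
  conv_lhs => rw [h1, pow_succ]
  ring

theorem Wf_congr {k T M : ℕ} (hk : 0 < k) (c : ℕ → PowerSeries ℂ) {U V : PowerSeries ℂ}
    (h : (PowerSeries.X : PowerSeries ℂ) ^ M ∣ U - V) :
    (PowerSeries.X : PowerSeries ℂ) ^ M ∣ Wf k (T + 1) c U - Wf k (T + 1) c V := by
  obtain ⟨s, hs⟩ := Wf_sub (T := T) hk c U V
  rw [hs]
  exact Dvd.dvd.mul_right h _

theorem isUnit_add_X_mul {a s : PowerSeries ℂ} (ha : IsUnit a) :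
    IsUnit (a + PowerSeries.X * s) := by
  rw [PowerSeries.isUnit_iff_constantCoeff] at ha ⊢
  simpa using ha

theorem Wf_inj {k T M : ℕ} (hk : 0 < k) {c : ℕ → PowerSeries ℂ} (hc : IsUnit (c 0))
    {U V : PowerSeries ℂ}
    (h : (PowerSeries.X : PowerSeries ℂ) ^ M ∣ Wf k (T + 1) c U - Wf k (T + 1) c V) :
    (PowerSeries.X : PowerSeries ℂ) ^ M ∣ U - V := by
  obtain ⟨s, hs⟩ := Wf_sub (T := T) hk c U V
  rw [hs, mul_comm] at h
  exact dvd_of_unit_mul (isUnit_add_X_mul hc) h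

theorem Wf_surj {k T : ℕ} (hk : 0 < k) {c : ℕ → PowerSeries ℂ} (hc : IsUnit (c 0))
    (w : PowerSeries ℂ) (M : ℕ) :
    ∃ U, (PowerSeries.X : PowerSeries ℂ) ^ M ∣ Wf k (T + 1) c U - w := by
  induction M with
  | zero => exact ⟨0, by rw [pow_zero]; exact one_dvd _⟩
  | succ M ih =>
    obtain ⟨U, hU⟩ := ih
    obtain ⟨e, he⟩ := hc
    obtain ⟨s, hs⟩ := Wf_sub (T := T) hk c
      (U - (Wf k (T + 1) c U - w) * (↑e⁻¹ : PowerSeries ℂ)) U
    refine ⟨U - (Wf k (T + 1) c U - w) * (↑e⁻¹ : PowerSeries ℂ), ?_⟩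
    have h1 : c 0 * (↑e⁻¹ : PowerSeries ℂ) = 1 := by rw [← he, Units.mul_inv]
    obtain ⟨v, hv⟩ := hU
    refine ⟨-(v * (↑e⁻¹ : PowerSeries ℂ) * s), ?_⟩
    rw [hv] at hs ⊢
    rw [pow_succ]
    linear_combination hs + hv - (PowerSeries.X : PowerSeries ℂ) ^ M * v * h1

end LineA

namespace LineA

variable {f : MvPolynomial (Fin (n + 1)) ℂ} {d k N i : ℕ} {q : Fin (n + 1) → ℂ}
  {j₀ : Fin (n + 1)}

/-! ### The chart -/

/-- The coordinates in the chart at `q`. -/
def insP (q : Fin (n + 1) → ℂ) (j₀ : Fin (n + 1)) : Fin (n + 1) → MvPolynomial (Fin (n + 1)) ℂ :=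
  j₀.insertNth (α := fun _ => MvPolynomial (Fin (n + 1)) ℂ) 1
    fun i => X (j₀.succAbove i) + C (q (j₀.succAbove i))

/-- The arc in the chart. -/
def xx (q : Fin (n + 1) → ℂ) (j₀ : Fin (n + 1)) (y : Fin (n + 1) × Fin (N + 1) → ℂ) :
    Fin (n + 1) → PowerSeries ℂ := fun j => aeval (arc y) (insP q j₀ j)

theorem xx_self (y : Fin (n + 1) × Fin (N + 1) → ℂ) : xx q j₀ y j₀ = 1 := by
  unfold xx insP
  rw [Fin.insertNth_apply_same, map_one]

theorem xx_succAbove (y : Fin (n + 1) × Fin (N + 1) → ℂ) (s : Fin n) :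
    xx q j₀ y (j₀.succAbove s) =
      arc y (j₀.succAbove s) + PowerSeries.C (q (j₀.succAbove s)) := by
  unfold xx insP
  rw [Fin.insertNth_apply_succAbove, map_add, aeval_X, aeval_C]
  rfl

theorem aeval_insP (y : Fin (n + 1) × Fin (N + 1) → ℂ) (G : MvPolynomial (Fin (n + 1)) ℂ) :
    (aeval (arc y) (aeval (insP q j₀) G) : PowerSeries ℂ) = aeval (xx q j₀ y) G :=
  comp_aeval_apply (insP q j₀) (aeval (arc y)) G

theorem aeval_gch (y : Fin (n + 1) × Fin (N + 1) → ℂ) (G : MvPolynomial (Fin (n + 1)) ℂ) :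
    (aeval (fun s => arc y (j₀.succAbove s)) (gch G q j₀) : PowerSeries ℂ) =
      aeval (xx q j₀ y) G := by
  unfold gch
  rw [comp_aeval_apply]
  congr 2
  funext j
  rcases Fin.eq_self_or_eq_succAbove j₀ j with h | ⟨s, h⟩
  · rw [h, xx_self, Fin.insertNth_apply_same, map_one]
  · rw [h, xx_succAbove, Fin.insertNth_apply_succAbove, map_add, aeval_X, aeval_C]
    rfl

/-- The coefficients of the second arc. -/
def cc (f : MvPolynomial (Fin (n + 1)) ℂ) (d : ℕ) (x : Fin (n + 1) → PowerSeries ℂ) (j : ℕ) :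
    PowerSeries ℂ := aeval x (homogeneousComponent (d + (j + 1)) f)

theorem Gk_mul (f : MvPolynomial (Fin (n + 1)) ℂ) (d k : ℕ) (U : PowerSeries ℂ)
    (x : Fin (n + 1) → PowerSeries ℂ) :
    Gk f d k (fun j => U * x j) = U ^ d * (aeval x (homogeneousComponent d f) +
      PowerSeries.X ^ k * Wf k f.totalDegree (cc f d x) U) := by
  unfold Gk Wf cc
  rw [Finset.sum_range_succ', mul_add, add_comm]
  congr 1
  · rw [mul_zero, pow_zero, one_mul, add_zero,
      aeval_mul_of_homog (homogeneousComponent_isHomogeneous d f)]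
  · rw [Finset.mul_sum, Finset.mul_sum]
    refine Finset.sum_congr rfl fun j _ => ?_
    rw [aeval_mul_of_homog (homogeneousComponent_isHomogeneous (d + (j + 1)) f)]
    ring

theorem Gk_congr (f : MvPolynomial (Fin n) ℂ) (d k M : ℕ) {x z : Fin n → PowerSeries ℂ}
    (h : ∀ j, (PowerSeries.X : PowerSeries ℂ) ^ M ∣ x j - z j) :
    (PowerSeries.X : PowerSeries ℂ) ^ M ∣ Gk f d k x - Gk f d k z := by
  unfold Gk
  rw [← Finset.sum_sub_distrib]
  refine Finset.dvd_sum fun j _ => ?_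
  rw [← mul_sub]
  exact Dvd.dvd.mul_left (aeval_congr_X_pow M _ x z h) _

theorem order_unit_mul {U a : PowerSeries ℂ} (hU : PowerSeries.coeff 0 U ≠ 0) (d : ℕ) :
    (U ^ d * a).order = a.order := by
  have h1 : IsUnit (U ^ d) := by
    refine IsUnit.pow d ?_
    rw [PowerSeries.isUnit_iff_constantCoeff, ← PowerSeries.coeff_zero_eq_constantCoeff_apply]
    exact isUnit_iff_ne_zero.2 hU
  rw [PowerSeries.order_mul, PowerSeries.order_zero_of_unit h1, zero_add]

/-! ### The two maps -/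

/-- `(γ, U) ↦ U (q + γ)`. -/
def phi (q : Fin (n + 1) → ℂ) (j₀ : Fin (n + 1)) (N : ℕ) (p : Fin (n + 1) × Fin (N + 1)) :
    MvPolynomial (Fin (n + 1) × Fin (N + 1)) ℂ :=
  cA (X j₀ * insP q j₀ p.1) (p.2 : ℕ)

theorem polyMap_phi (y : Fin (n + 1) × Fin (N + 1) → ℂ) (p : Fin (n + 1) × Fin (N + 1)) :
    polyMap (phi q j₀ N) y p = PowerSeries.coeff (p.2 : ℕ) (arc y j₀ * xx q j₀ y p.1) := by
  unfold polyMap phi
  rw [eval_cA, map_mul, aeval_X]
  rfl

theorem arc_phi (y : Fin (n + 1) × Fin (N + 1) → ℂ) (j : Fin (n + 1)) :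
    (PowerSeries.X : PowerSeries ℂ) ^ (N + 1) ∣
      arc (polyMap (phi q j₀ N) y) j - arc y j₀ * xx q j₀ y j :=
  arc_congr fun l => polyMap_phi y (j, l)

theorem arc_phi_self (y : Fin (n + 1) × Fin (N + 1) → ℂ) (l : Fin (N + 1)) :
    polyMap (phi q j₀ N) y (j₀, l) = y (j₀, l) := by
  rw [polyMap_phi, xx_self, mul_one, coeff_arc, dif_pos l.isLt]

/-- `(γ, U) ↦ (γ, w(U))`. -/
def psi (f : MvPolynomial (Fin (n + 1)) ℂ) (d k : ℕ) (q : Fin (n + 1) → ℂ) (j₀ : Fin (n + 1))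
    (N : ℕ) (p : Fin (n + 1) × Fin (N + 1)) : MvPolynomial (Fin (n + 1) × Fin (N + 1)) ℂ :=
  if p.1 = j₀ then ∑ r ∈ Finset.range f.totalDegree, if k * r ≤ (p.2 : ℕ) then
    cA (X j₀ ^ (r + 1) * aeval (insP q j₀) (homogeneousComponent (d + (r + 1)) f))
      ((p.2 : ℕ) - k * r) else 0
  else X p

theorem polyMap_psi_self (y : Fin (n + 1) × Fin (N + 1) → ℂ) (l : Fin (N + 1)) :
    polyMap (psi f d k q j₀ N) y (j₀, l) =
      PowerSeries.coeff (l : ℕ) (Wf k f.totalDegree (cc f d (xx q j₀ y)) (arc y j₀)) := by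
  unfold polyMap psi Wf cc
  rw [if_pos rfl, map_sum, map_sum]
  refine Finset.sum_congr rfl fun r _ => ?_
  rw [PowerSeries.coeff_X_pow_mul']
  split_ifs with h
  · rw [eval_cA, map_mul, map_pow, aeval_X, aeval_insP]
  · rw [map_zero]

theorem polyMap_psi_succAbove (y : Fin (n + 1) × Fin (N + 1) → ℂ) (s : Fin n)
    (l : Fin (N + 1)) :
    polyMap (psi f d k q j₀ N) y (j₀.succAbove s, l) = y (j₀.succAbove s, l) := by
  unfold polyMap psi
  rw [if_neg (Fin.succAbove_ne j₀ s), eval_X]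

theorem arc_psi_self (y : Fin (n + 1) × Fin (N + 1) → ℂ) :
    (PowerSeries.X : PowerSeries ℂ) ^ (N + 1) ∣ arc (polyMap (psi f d k q j₀ N) y) j₀ -
      Wf k f.totalDegree (cc f d (xx q j₀ y)) (arc y j₀) :=
  arc_congr fun l => polyMap_psi_self y l

theorem arc_psi_succAbove (y : Fin (n + 1) × Fin (N + 1) → ℂ) (s : Fin n) :
    arc (polyMap (psi f d k q j₀ N) y) (j₀.succAbove s) = arc y (j₀.succAbove s) := by
  unfold arc
  refine Finset.sum_congr rfl fun l _ => ?_
  rw [polyMap_psi_succAbove]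

/-! ### The sets -/

/-- The base point of the arc is `q`, and the factor is a unit. -/
def Cnd (j₀ : Fin (n + 1)) (y : Fin (n + 1) × Fin (N + 1) → ℂ) : Prop :=
  (∀ s : Fin n, y (j₀.succAbove s, 0) = 0) ∧ y (j₀, 0) ≠ 0

theorem isConstr_Cnd : IsConstr {y : Fin (n + 1) × Fin (N + 1) → ℂ | Cnd j₀ y} := by
  have h : {y : Fin (n + 1) × Fin (N + 1) → ℂ | Cnd j₀ y} =
      {y | (∀ s ∈ (Finset.univ : Finset (Fin n)), y (j₀.succAbove s, 0) = 0) ∧
        y (j₀, 0) ≠ 0} := by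
    ext y
    simp only [Cnd, Set.mem_ofPred_eq, Finset.mem_univ, true_implies]
  rw [h]
  refine isConstr_setOf_and (isConstr_forall_mem _ _ fun s _ => ?_) ?_
  · have := isConstr_eq_zero
      (X (j₀.succAbove s, 0) : MvPolynomial (Fin (n + 1) × Fin (N + 1)) ℂ)
    simpa only [eval_X] using this
  · have := isConstr_ne_zero (X (j₀, 0) : MvPolynomial (Fin (n + 1) × Fin (N + 1)) ℂ)
    simpa only [eval_X] using this

/-- The two blocks of variables. -/
def eS (j₀ : Fin (n + 1)) (N : ℕ) :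
    (Fin n × Fin (N + 1)) ⊕ (Fin 1 × Fin (N + 1)) ≃ Fin (n + 1) × Fin (N + 1) :=
  Equiv.ofBijective (Sum.elim (fun p => (j₀.succAbove p.1, p.2)) fun p => (j₀, p.2)) (by
    constructor
    · rintro (⟨a, b⟩ | ⟨a, b⟩) (⟨c, e⟩ | ⟨c, e⟩) h
      · simp only [Sum.elim_inl, Prod.mk.injEq] at h
        rw [Fin.succAbove_right_injective h.1, h.2]
      · simp only [Sum.elim_inl, Sum.elim_inr, Prod.mk.injEq] at h
        exact absurd h.1 (Fin.succAbove_ne j₀ a)
      · simp only [Sum.elim_inl, Sum.elim_inr, Prod.mk.injEq] at h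
        exact absurd h.1.symm (Fin.succAbove_ne j₀ c)
      · simp only [Sum.elim_inr, Prod.mk.injEq, true_and] at h
        rw [Subsingleton.elim a c, h]
    · rintro ⟨j, l⟩
      rcases Fin.eq_self_or_eq_succAbove j₀ j with h | ⟨s, h⟩
      · exact ⟨Sum.inr (0, l), by rw [h]; rfl⟩
      · exact ⟨Sum.inl (s, l), by rw [h]; rfl⟩)

/-- The set `setQ` in the other variables. -/
def setQ' (g : MvPolynomial (Fin n) ℂ) (j₀ : Fin (n + 1)) (k N i : ℕ) :
    Set (Fin (n + 1) × Fin (N + 1) → ℂ) := {z | (fun s => z (eS j₀ N s)) ∈ setQ g k N i}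

theorem mem_setQ' {g : MvPolynomial (Fin n) ℂ} {z : Fin (n + 1) × Fin (N + 1) → ℂ} :
    z ∈ setQ' g j₀ k N i ↔ Cnd j₀ z ∧
      ((aeval (fun s => arc z (j₀.succAbove s)) g : PowerSeries ℂ) +
        PowerSeries.X ^ k * arc z j₀).order = (i : ℕ∞) := by
  unfold Cnd
  rw [and_assoc]
  exact Iff.rfl

theorem coeff_zero_arc {m : ℕ} (y : Fin m × Fin (N + 1) → ℂ) (j : Fin m) :
    PowerSeries.coeff 0 (arc y j) = y (j, 0) := by
  rw [coeff_arc, dif_pos (Nat.succ_pos N)]
  rfl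

theorem coeff_zero_xx (hq : q j₀ = 1) {y : Fin (n + 1) × Fin (N + 1) → ℂ} (hy : Cnd j₀ y)
    (j : Fin (n + 1)) : PowerSeries.coeff 0 (xx q j₀ y j) = q j := by
  rcases Fin.eq_self_or_eq_succAbove j₀ j with h | ⟨s, h⟩
  · rw [h, xx_self, hq]
    simp
  · rw [h, xx_succAbove, map_add, coeff_zero_arc, hy.1 s, zero_add]
    simp

theorem coeff_zero_aeval_xx (hq : q j₀ = 1) {y : Fin (n + 1) × Fin (N + 1) → ℂ}
    (hy : Cnd j₀ y) (G : MvPolynomial (Fin (n + 1)) ℂ) :
    PowerSeries.coeff 0 (aeval (xx q j₀ y) G : PowerSeries ℂ) = eval q G := by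
  rw [← aeval_insP, coeff_zero_aeval, ← coe_aeval_eq_eval, RingHom.coe_coe, comp_aeval_apply,
    ← coe_aeval_eq_eval, RingHom.coe_coe]
  congr 2
  funext j
  have h1 := coeff_zero_xx hq hy j
  unfold xx at h1
  rw [coeff_zero_aeval] at h1
  rw [← h1, ← coe_aeval_eq_eval, RingHom.coe_coe]

theorem totalDegree_pos (h1 : eval q (homogeneousComponent (d + 1) f) ≠ 0) :
    ∃ T, f.totalDegree = T + 1 := by
  refine Nat.exists_eq_succ_of_ne_zero fun h => h1 ?_
  rw [homogeneousComponent_eq_zero (d + 1) f (by omega), map_zero]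

theorem isUnit_cc (hq : q j₀ = 1) (h1 : eval q (homogeneousComponent (d + 1) f) ≠ 0)
    {y : Fin (n + 1) × Fin (N + 1) → ℂ} (hy : Cnd j₀ y) : IsUnit (cc f d (xx q j₀ y) 0) := by
  rw [PowerSeries.isUnit_iff_constantCoeff, ← PowerSeries.coeff_zero_eq_constantCoeff_apply]
  unfold cc
  rw [zero_add, coeff_zero_aeval_xx hq hy]
  exact isUnit_iff_ne_zero.2 h1

theorem coeff_zero_Wf {T : ℕ} (hk : 0 < k) (c : ℕ → PowerSeries ℂ) (U : PowerSeries ℂ) :
    PowerSeries.coeff 0 (Wf k (T + 1) c U) =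
      PowerSeries.coeff 0 U * PowerSeries.coeff 0 (c 0) := by
  have h0 : Wf k (T + 1) c 0 = 0 := by
    unfold Wf
    refine Finset.sum_eq_zero fun j _ => ?_
    rw [zero_pow (Nat.succ_ne_zero j), zero_mul, mul_zero]
  obtain ⟨s, hs⟩ := Wf_sub (T := T) hk c U 0
  rw [h0, sub_zero, sub_zero] at hs
  rw [hs, coeff_zero_mul, map_add, PowerSeries.coeff_zero_X_mul, add_zero]

theorem psi_Cnd_iff (hk : 0 < k) (hq : q j₀ = 1)
    (h1 : eval q (homogeneousComponent (d + 1) f) ≠ 0)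
    {y : Fin (n + 1) × Fin (N + 1) → ℂ} (hy : Cnd j₀ y) :
    Cnd j₀ (polyMap (psi f d k q j₀ N) y) := by
  refine ⟨fun s => ?_, ?_⟩
  · rw [polyMap_psi_succAbove]
    exact hy.1 s
  · obtain ⟨T, hT⟩ := totalDegree_pos h1
    rw [polyMap_psi_self, hT, Fin.val_zero, coeff_zero_Wf hk, coeff_zero_arc]
    refine mul_ne_zero hy.2 ?_
    unfold cc
    rw [zero_add, coeff_zero_aeval_xx hq hy]
    exact h1

theorem order_iff_psi (hi : i ≤ N) (y : Fin (n + 1) × Fin (N + 1) → ℂ) :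
    ((aeval (fun s => arc (polyMap (psi f d k q j₀ N) y) (j₀.succAbove s))
      (gch (homogeneousComponent d f) q j₀) : PowerSeries ℂ) +
        PowerSeries.X ^ k * arc (polyMap (psi f d k q j₀ N) y) j₀).order = (i : ℕ∞) ↔
    (aeval (xx q j₀ y) (homogeneousComponent d f) +
      PowerSeries.X ^ k * Wf k f.totalDegree (cc f d (xx q j₀ y)) (arc y j₀)).order =
        (i : ℕ∞) := by
  refine order_congr (Nat.lt_succ_of_le hi) ?_
  simp only [arc_psi_succAbove]
  rw [aeval_gch, add_sub_add_left_eq_sub, ← mul_sub]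
  exact Dvd.dvd.mul_left (arc_psi_self y) _

theorem order_iff_phi (hi : i ≤ N) {y : Fin (n + 1) × Fin (N + 1) → ℂ} (hy : Cnd j₀ y) :
    (Gk f d k (arc (polyMap (phi q j₀ N) y))).order = (i : ℕ∞) ↔
    (aeval (xx q j₀ y) (homogeneousComponent d f) +
      PowerSeries.X ^ k * Wf k f.totalDegree (cc f d (xx q j₀ y)) (arc y j₀)).order =
        (i : ℕ∞) := by
  rw [order_congr (Nat.lt_succ_of_le hi) (Gk_congr f d k (N + 1) (arc_phi (q := q) (j₀ := j₀) y)),
    Gk_mul, order_unit_mul]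
  rw [coeff_zero_arc]
  exact hy.2

theorem phi_AtW (hq : q j₀ = 1) {y : Fin (n + 1) × Fin (N + 1) → ℂ} (hy : Cnd j₀ y) :
    polyMap (phi q j₀ N) y ∈ AtW (lineW q) N := by
  refine ⟨y (j₀, 0), hy.2, ?_⟩
  funext j
  rw [polyMap_phi, Fin.val_zero, coeff_zero_mul, coeff_zero_arc, coeff_zero_xx hq hy,
    Pi.smul_apply, smul_eq_mul]

theorem mem_iff (hk : 0 < k) (hq : q j₀ = 1)
    (h1 : eval q (homogeneousComponent (d + 1) f) ≠ 0) (hi : i ≤ N)
    {y : Fin (n + 1) × Fin (N + 1) → ℂ} (hy : Cnd j₀ y) :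
    polyMap (phi q j₀ N) y ∈ setK f d k (lineW q) N i ↔
      polyMap (psi f d k q j₀ N) y ∈ setQ' (gch (homogeneousComponent d f) q j₀) j₀ k N i := by
  rw [mem_setQ', order_iff_psi hi]
  unfold setK
  rw [Set.mem_inter_iff, Set.mem_ofPred_eq, order_iff_phi hi hy]
  exact ⟨fun h => ⟨psi_Cnd_iff hk hq h1 hy, h.1⟩, fun h => ⟨h.2, phi_AtW hq hy⟩⟩

/-- The pairs `(γ, U)`. -/
def setP (f : MvPolynomial (Fin (n + 1)) ℂ) (d k : ℕ) (q : Fin (n + 1) → ℂ) (j₀ : Fin (n + 1))
    (N i : ℕ) : Set (Fin (n + 1) × Fin (N + 1) → ℂ) :=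
  {y | Cnd j₀ y} ∩ polyMap (phi q j₀ N) ⁻¹' (setK f d k (lineW q) N i)

theorem ne_zero_of_apply (hq : q j₀ = 1) : q ≠ 0 := by
  intro h
  rw [h] at hq
  exact zero_ne_one hq

theorem isConstr_setP (hq : q j₀ = 1) : IsConstr (setP f d k q j₀ N i) :=
  isConstr_Cnd.inter ((isConstr_setK f d k (isConstr_lineW (ne_zero_of_apply hq)) N i).preimage _)

theorem bijOn_phi (hq : q j₀ = 1) :
    Set.BijOn (polyMap (phi q j₀ N)) (setP f d k q j₀ N i) (setK f d k (lineW q) N i) := by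
  refine ⟨fun y hy => hy.2, ?_, ?_⟩
  · intro y hy z hz h
    have hU : ∀ l, y (j₀, l) = z (j₀, l) := by
      intro l
      rw [← arc_phi_self (q := q) y l, ← arc_phi_self (q := q) z l, h]
    have hUa : arc y j₀ = arc z j₀ := by
      unfold arc
      exact Finset.sum_congr rfl fun l _ => by rw [hU l]
    have hunit : IsUnit (arc z j₀) := by
      rw [PowerSeries.isUnit_iff_constantCoeff, ← PowerSeries.coeff_zero_eq_constantCoeff_apply,
        coeff_zero_arc]
      exact isUnit_iff_ne_zero.2 hz.1.2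
    funext ⟨j, l⟩
    rcases Fin.eq_self_or_eq_succAbove j₀ j with h2 | ⟨s, h2⟩
    · rw [h2]
      exact hU l
    · rw [h2]
      refine eq_of_arc (dvd_of_unit_mul hunit ?_) l
      have h3 := dvd_sub (arc_phi (q := q) (j₀ := j₀) z (j₀.succAbove s))
        (arc_phi (q := q) (j₀ := j₀) y (j₀.succAbove s))
      rw [h, xx_succAbove, xx_succAbove, hUa] at h3
      have h4 : arc (polyMap (phi q j₀ N) z) (j₀.succAbove s) - arc z j₀ *
          (arc z (j₀.succAbove s) + PowerSeries.C (q (j₀.succAbove s))) -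
          (arc (polyMap (phi q j₀ N) z) (j₀.succAbove s) - arc z j₀ *
          (arc y (j₀.succAbove s) + PowerSeries.C (q (j₀.succAbove s)))) =
          arc z j₀ * (arc y (j₀.succAbove s) - arc z (j₀.succAbove s)) := by ring
      rwa [h4] at h3
  · intro δ hδ
    obtain ⟨c, hc, hcq⟩ := hδ.2
    have hδ0 : ∀ j, δ (j, 0) = c * q j := fun j => congrFun hcq j
    have hu : IsUnit (arc δ j₀) := by
      rw [PowerSeries.isUnit_iff_constantCoeff, ← PowerSeries.coeff_zero_eq_constantCoeff_apply,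
        coeff_zero_arc, hδ0, hq, mul_one]
      exact isUnit_iff_ne_zero.2 hc
    obtain ⟨e, he⟩ := hu
    set y : Fin (n + 1) × Fin (N + 1) → ℂ := fun p => if p.1 = j₀ then δ p else
      PowerSeries.coeff (p.2 : ℕ) (arc δ p.1 * (↑e⁻¹ : PowerSeries ℂ) - PowerSeries.C (q p.1))
      with hy
    have hy0 : ∀ l, y (j₀, l) = δ (j₀, l) := fun l => by
      rw [hy]
      simp only [if_true]
    have hys : ∀ s l, y (j₀.succAbove s, l) = PowerSeries.coeff (l : ℕ)
        (arc δ (j₀.succAbove s) * (↑e⁻¹ : PowerSeries ℂ) -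
          PowerSeries.C (q (j₀.succAbove s))) := fun s l => by
      rw [hy]
      simp only [if_neg (Fin.succAbove_ne j₀ s)]
    have hya : arc y j₀ = arc δ j₀ := by
      unfold arc
      exact Finset.sum_congr rfl fun l _ => by rw [hy0 l]
    have he1 : arc δ j₀ * (↑e⁻¹ : PowerSeries ℂ) = 1 := by rw [← he, Units.mul_inv]
    have hyc : Cnd j₀ y := by
      refine ⟨fun s => ?_, ?_⟩
      · rw [hys, Fin.val_zero, map_sub, coeff_zero_mul, coeff_zero_arc, hδ0]
        have h3 : PowerSeries.coeff 0 (arc δ j₀) * PowerSeries.coeff 0 (↑e⁻¹ : PowerSeries ℂ) =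
            1 := by
          rw [← coeff_zero_mul, he1]
          simp
        rw [coeff_zero_arc, hδ0, hq, mul_one] at h3
        rw [PowerSeries.coeff_zero_C]
        linear_combination q (j₀.succAbove s) * h3
      · rw [hy0, hδ0, hq, mul_one]
        exact hc
    have hphi : polyMap (phi q j₀ N) y = δ := by
      funext ⟨j, l⟩
      rcases Fin.eq_self_or_eq_succAbove j₀ j with h2 | ⟨s, h2⟩
      · rw [h2, arc_phi_self, hy0]
      · rw [h2]
        refine eq_of_arc ?_ l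
        have h3 := arc_phi (q := q) (j₀ := j₀) y (j₀.succAbove s)
        have h4 : (PowerSeries.X : PowerSeries ℂ) ^ (N + 1) ∣ arc y (j₀.succAbove s) -
            (arc δ (j₀.succAbove s) * (↑e⁻¹ : PowerSeries ℂ) -
              PowerSeries.C (q (j₀.succAbove s))) := arc_congr fun l => hys s l
        rw [xx_succAbove, hya] at h3
        have h5 := dvd_add h3 (Dvd.dvd.mul_left h4 (arc δ j₀))
        have h6 : arc (polyMap (phi q j₀ N) y) (j₀.succAbove s) - arc δ j₀ *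
            (arc y (j₀.succAbove s) + PowerSeries.C (q (j₀.succAbove s))) +
            arc δ j₀ * (arc y (j₀.succAbove s) -
              (arc δ (j₀.succAbove s) * (↑e⁻¹ : PowerSeries ℂ) -
                PowerSeries.C (q (j₀.succAbove s)))) =
            arc (polyMap (phi q j₀ N) y) (j₀.succAbove s) - arc δ (j₀.succAbove s) := by
          linear_combination -arc δ (j₀.succAbove s) * he1
        rwa [h6] at h5
    exact ⟨y, ⟨hyc, by rw [Set.mem_preimage, hphi]; exact hδ⟩, hphi⟩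

theorem bijOn_psi (hk : 0 < k) (hq : q j₀ = 1)
    (h1 : eval q (homogeneousComponent (d + 1) f) ≠ 0) (hi : i ≤ N) :
    Set.BijOn (polyMap (psi f d k q j₀ N)) (setP f d k q j₀ N i)
      (setQ' (gch (homogeneousComponent d f) q j₀) j₀ k N i) := by
  obtain ⟨T, hT⟩ := totalDegree_pos h1
  refine ⟨fun y hy => (mem_iff hk hq h1 hi hy.1).1 hy.2, ?_, ?_⟩
  · intro y hy z hz h
    have hs : ∀ s l, y (j₀.succAbove s, l) = z (j₀.succAbove s, l) := by
      intro s l
      rw [← polyMap_psi_succAbove (f := f) (d := d) (k := k) (q := q) y s l,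
        ← polyMap_psi_succAbove (f := f) (d := d) (k := k) (q := q) z s l, h]
    have hx : xx q j₀ y = xx q j₀ z := by
      funext j
      rcases Fin.eq_self_or_eq_succAbove j₀ j with h2 | ⟨s, h2⟩
      · rw [h2, xx_self, xx_self]
      · rw [h2, xx_succAbove, xx_succAbove]
        congr 1
        unfold arc
        exact Finset.sum_congr rfl fun l _ => by rw [hs s l]
    funext ⟨j, l⟩
    rcases Fin.eq_self_or_eq_succAbove j₀ j with h2 | ⟨s, h2⟩
    · rw [h2]
      refine eq_of_arc (Wf_inj (T := T) hk (isUnit_cc hq h1 hz.1) ?_) l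
      have h3 := dvd_sub (arc_psi_self (f := f) (d := d) (k := k) (q := q) (j₀ := j₀) z)
        (arc_psi_self (f := f) (d := d) (k := k) (q := q) (j₀ := j₀) y)
      rw [h, hx, sub_sub_sub_cancel_left, hT] at h3
      exact h3
    · rw [h2]
      exact hs s l
  · intro z hz
    have hz' := mem_setQ'.1 hz
    -- the arc in the chart only depends on `z`
    have hunit := isUnit_cc hq h1 hz'.1
    obtain ⟨U, hU⟩ := Wf_surj (T := T) hk hunit (arc z j₀) (N + 1)
    set y : Fin (n + 1) × Fin (N + 1) → ℂ := fun p => if p.1 = j₀ then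
      PowerSeries.coeff (p.2 : ℕ) U else z p with hy
    have hy0 : ∀ l, y (j₀, l) = PowerSeries.coeff (l : ℕ) U := fun l => by
      rw [hy]
      simp only [if_true]
    have hys : ∀ s l, y (j₀.succAbove s, l) = z (j₀.succAbove s, l) := fun s l => by
      rw [hy]
      simp only [if_neg (Fin.succAbove_ne j₀ s)]
    have hya : (PowerSeries.X : PowerSeries ℂ) ^ (N + 1) ∣ arc y j₀ - U := arc_congr hy0
    have hx : xx q j₀ y = xx q j₀ z := by
      funext j
      rcases Fin.eq_self_or_eq_succAbove j₀ j with h2 | ⟨s, h2⟩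
      · rw [h2, xx_self, xx_self]
      · rw [h2, xx_succAbove, xx_succAbove]
        congr 1
        unfold arc
        exact Finset.sum_congr rfl fun l _ => by rw [hys s l]
    have hW : (PowerSeries.X : PowerSeries ℂ) ^ (N + 1) ∣
        Wf k f.totalDegree (cc f d (xx q j₀ y)) (arc y j₀) - arc z j₀ := by
      have h3 := dvd_add (Wf_congr (T := T) hk (cc f d (xx q j₀ z)) hya) hU
      rw [sub_add_sub_cancel] at h3
      rw [hx, hT]
      exact h3
    have hyc : Cnd j₀ y := by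
      refine ⟨fun s => ?_, fun h0 => hz'.1.2 ?_⟩
      · rw [hys]
        exact hz'.1.1 s
      · have h3 := coeff_of_dvd hW (Nat.succ_pos N)
        rw [hT, coeff_zero_Wf hk, coeff_zero_arc, coeff_zero_arc, h0, zero_mul] at h3
        exact h3.symm
    have hpsi : polyMap (psi f d k q j₀ N) y = z := by
      funext ⟨j, l⟩
      rcases Fin.eq_self_or_eq_succAbove j₀ j with h2 | ⟨s, h2⟩
      · rw [h2]
        refine eq_of_arc ?_ l
        have h3 := dvd_add (arc_psi_self (f := f) (d := d) (k := k) (q := q) (j₀ := j₀) y) hW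
        rwa [sub_add_sub_cancel] at h3
      · rw [h2, polyMap_psi_succAbove, hys]
    refine ⟨y, ⟨hyc, ?_⟩, hpsi⟩
    rw [Set.mem_preimage, mem_iff hk hq h1 hi hyc, hpsi]
    exact hz

end LineA

open LineA in
/-- The arcs at the points of a line on which `f_{d+1}` does not vanish. -/
theorem cls_setK_line {f : MvPolynomial (Fin (n + 1)) ℂ} {d k : ℕ} (hk : 0 < k)
    {q : Fin (n + 1) → ℂ} {j₀ : Fin (n + 1)} (hq : q j₀ = 1)
    (h1 : eval q (homogeneousComponent (d + 1) f) ≠ 0) {N i : ℕ} (hi : i ≤ N) :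
    cls (setK f d k (lineW q) N i) = cls (setQ (gch (homogeneousComponent d f) q j₀) k N i) := by
  have hQ := isConstr_setQ (gch (homogeneousComponent d f) q j₀) k N i
  have hP : IsConstr (setP f d k q j₀ N i) := isConstr_setP hq
  have hQ' : IsConstr (setQ' (gch (homogeneousComponent d f) q j₀) j₀ k N i) :=
    hQ.reindex (eS j₀ N)
  rw [← cls_bijOn hP (isConstr_setK f d k (isConstr_lineW (ne_zero_of_apply hq)) N i) _
    (bijOn_phi hq), cls_bijOn hP hQ' _ (bijOn_psi hk hq h1 hi)]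
  exact cls_equiv (eS j₀ N) hQ

/-- The measure of the arcs at the points of a line on which `f_{d+1}` does not vanish. -/
theorem Mk_line {f : MvPolynomial (Fin (n + 1)) ℂ} {d k : ℕ} (hk : 0 < k) {q : Fin (n + 1) → ℂ}
    {j₀ : Fin (n + 1)} (hq : q j₀ = 1)
    (h1 : eval q (homogeneousComponent (d + 1) f) ≠ 0) {N i : ℕ} (hi : i ≤ N) :
    Mk f d k (lineW q) N i =
      cK n k (Zcoeff0 (gch (homogeneousComponent d f) q j₀)) i := by
  rw [← clsM_setQ _ hi]
  unfold Mk clsM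
  rw [cls_setK_line hk hq h1 hi]

end SI

end MPb07157
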