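import Pool.Agent.Lib.MP_b07157_agI.Defs

/-!
# Superisolated germs: the strata without singular points
-/

noncomputable section

namespace MPb07157

open MvPolynomial

namespace SI

variable {n : ℕ}

theorem coeff_Gk (f : MvPolynomial (Fin n) ℂ) (d k r : ℕ) (x : Fin n → PowerSeries ℂ) :
    PowerSeries.coeff r (Gk f d k x) = ∑ j ∈ Finset.range (f.totalDegree + 1),
      if k * j ≤ r then
        PowerSeries.coeff (r - k * j) (aeval x (homogeneousComponent (d + j) f)) else 0 := by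
  unfold Gk
  rw [map_sum]
  refine Finset.sum_congr rfl fun j _ => ?_
  rw [PowerSeries.coeff_X_pow_mul']

/-- The coefficients of `Gk` are polynomials in the coefficients of the arc. -/
theorem exists_coeff_Gk {N : ℕ} (f : MvPolynomial (Fin n) ℂ) (d k r : ℕ) :
    ∃ P : MvPolynomial (Fin n × Fin N) ℂ, ∀ γ : Fin n × Fin N → ℂ,
      PowerSeries.coeff r (Gk f d k (arc γ)) = eval γ P := by
  choose Q hQ using fun j : ℕ => exists_coeff_poly (N := N) (homogeneousComponent (d + j) f)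
    (r - k * j)
  refine ⟨∑ j ∈ Finset.range (f.totalDegree + 1), if k * j ≤ r then Q j else 0, fun γ => ?_⟩
  rw [coeff_Gk, map_sum]
  refine Finset.sum_congr rfl fun j _ => ?_
  split_ifs with h
  · exact hQ j γ
  · rw [map_zero]

theorem isConstr_setK (f : MvPolynomial (Fin n) ℂ) (d k : ℕ) {W : Set (Fin n → ℂ)}
    (hW : IsConstr W) (N i : ℕ) : IsConstr (setK f d k W N i) := by
  unfold setK
  refine IsConstr.inter ?_ (isConstr_AtW hW N)
  have h : {δ : Fin n × Fin (N + 1) → ℂ | (Gk f d k (arc δ)).order = (i : ℕ∞)} =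
      {δ : Fin n × Fin (N + 1) → ℂ | PowerSeries.coeff i (Gk f d k (arc δ)) ≠ 0 ∧
        ∀ r ∈ Finset.range i, PowerSeries.coeff r (Gk f d k (arc δ)) = 0} := by
    ext γ
    simp only [Set.mem_ofPred_eq, PowerSeries.order_eq_nat, Finset.mem_range]
  rw [h]
  refine isConstr_setOf_and ?_ (isConstr_forall_mem _ _ fun r _ => ?_)
  · obtain ⟨P, hP⟩ := exists_coeff_Gk (N := N + 1) f d k i
    simp only [hP]
    exact isConstr_ne_zero P
  · obtain ⟨P, hP⟩ := exists_coeff_Gk (N := N + 1) f d k r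
    simp only [hP]
    exact isConstr_eq_zero P

theorem Mk_union (f : MvPolynomial (Fin n) ℂ) (d k : ℕ) {V W : Set (Fin n → ℂ)} (hV : IsConstr V)
    (hW : IsConstr W) (h : Disjoint V W) (N i : ℕ) :
    Mk f d k (V ∪ W) N i = Mk f d k V N i + Mk f d k W N i := by
  have h1 : setK f d k (V ∪ W) N i = setK f d k V N i ∪ setK f d k W N i := by
    ext γ
    simp only [setK, AtW, Set.mem_inter_iff, Set.mem_union, Set.mem_ofPred_eq]
    tauto
  have h2 : Disjoint (setK f d k V N i) (setK f d k W N i) := by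
    rw [Set.disjoint_left] at h ⊢
    intro γ hγ hγ'
    exact h hγ.2 hγ'.2
  unfold Mk clsM
  rw [h1, cls_union (isConstr_setK f d k hV N i) (isConstr_setK f d k hW N i) h2, map_add,
    mul_add]

theorem Mk_empty (f : MvPolynomial (Fin n) ℂ) (d k N i : ℕ) : Mk f d k ∅ N i = 0 := by
  have h1 : setK f d k ∅ N i = ∅ := by
    ext γ
    simp [setK, AtW]
  unfold Mk clsM
  rw [h1, cls_empty, map_zero, mul_zero]

theorem coeff_zero_aeval (g : MvPolynomial (Fin n) ℂ) {m : ℕ} (γ : Fin n × Fin (m + 1) → ℂ) :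
    PowerSeries.coeff 0 (aeval (arc γ) g : PowerSeries ℂ) = eval (fun i => γ (i, 0)) g := by
  by_cases hg : g = 0
  · rw [hg, map_zero, map_zero, map_zero]
  · exact coeff_zero_Fv hg γ

theorem coeff_zero_Gk (f : MvPolynomial (Fin n) ℂ) {d k : ℕ} (hk : 0 < k) {m : ℕ}
    (γ : Fin n × Fin (m + 1) → ℂ) :
    PowerSeries.coeff 0 (Gk f d k (arc γ)) =
      eval (fun i => γ (i, 0)) (homogeneousComponent d f) := by
  rw [coeff_Gk, Finset.sum_eq_single 0]
  · rw [if_pos (by simp)]
    have := coeff_zero_aeval (homogeneousComponent d f) γ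
    simpa using this
  · intro b _ hb
    rw [if_neg]
    intro h
    have h1 : 0 < k * b := Nat.mul_pos hk (Nat.pos_of_ne_zero hb)
    omega
  · intro h
    exact absurd (Finset.mem_range.2 (Nat.succ_pos _)) h

theorem norm_pow (n N : ℕ) :
    (↑((LU ^ (n * (N + 1)))⁻¹) : Mot) * (LU : Mot) ^ (n * N) = ell ^ n := by
  rw [← Units.val_pow_eq_pow_val, ← Units.val_mul]
  unfold ell
  rw [← Units.val_pow_eq_pow_val]
  congr 1
  rw [mul_add n N 1, mul_one, pow_add, mul_inv, mul_comm ((LU ^ (n * N))⁻¹), mul_assoc,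
    inv_mul_cancel, mul_one, inv_pow]

/-- The points outside `f_d = 0`. -/
theorem Mk_unit (f : MvPolynomial (Fin n) ℂ) {d k : ℕ} (hk : 0 < k) {W : Set (Fin n → ℂ)}
    (hW : IsConstr W) (h : ∀ p ∈ W, eval p (homogeneousComponent d f) ≠ 0) (N i : ℕ) :
    Mk f d k W N i = if i = 0 then ell ^ n * clsM W else 0 := by
  have hord : ∀ γ ∈ AtW W N, (Gk f d k (arc γ)).order = ((0 : ℕ) : ℕ∞) := by
    intro γ hγ
    rw [PowerSeries.order_eq_nat]
    refine ⟨?_, fun i hi => absurd hi (Nat.not_lt_zero _)⟩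
    rw [coeff_zero_Gk f hk]
    exact h _ hγ
  split_ifs with hi
  · subst hi
    have h1 : setK f d k W N 0 = AtW W N := by
      ext γ
      simp only [setK, Set.mem_inter_iff, Set.mem_ofPred_eq]
      exact ⟨fun h => h.2, fun h => ⟨hord γ h, h⟩⟩
    unfold Mk clsM
    rw [h1, cls_AtW hW N, map_mul, map_pow, ← LU_val, ← norm_pow n N]
    ring
  · have h1 : setK f d k W N i = ∅ := by
      ext γ
      simp only [setK, Set.mem_inter_iff, Set.mem_ofPred_eq, Set.mem_empty_iff_false, iff_false]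
      rintro ⟨h2, h3⟩
      rw [hord γ h3] at h2
      exact hi (by exact_mod_cast h2.symm)
    unfold Mk clsM
    rw [h1, cls_empty, map_zero, mul_zero]

theorem coeff_aeval_update (g : MvPolynomial (Fin n) ℂ) {m : ℕ}
    (γ : Fin n × Fin (m + 1) → ℂ) (j : Fin n) (r : Fin (m + 1)) (hr : r ≠ 0) (c : ℂ) :
    (∀ l < (r : ℕ), PowerSeries.coeff l
        (aeval (arc (Function.update γ (j, r) (γ (j, r) + c))) g : PowerSeries ℂ) =
        PowerSeries.coeff l (aeval (arc γ) g : PowerSeries ℂ)) ∧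
    PowerSeries.coeff (r : ℕ)
        (aeval (arc (Function.update γ (j, r) (γ (j, r) + c))) g : PowerSeries ℂ) =
        PowerSeries.coeff (r : ℕ) (aeval (arc γ) g : PowerSeries ℂ) +
          c * eval (fun i => γ (i, 0)) (pderiv j g) := by
  by_cases hg : g = 0
  · subst hg
    simp
  · exact coeff_Fv_update_zero hg γ j r hr c

theorem coeff_Gk_update (f : MvPolynomial (Fin n) ℂ) {d k : ℕ} (hk : 0 < k) {m : ℕ}
    (γ : Fin n × Fin (m + 1) → ℂ) (j : Fin n) (r : Fin (m + 1)) (hr : r ≠ 0) (c : ℂ) :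
    (∀ l < (r : ℕ), PowerSeries.coeff l
        (Gk f d k (arc (Function.update γ (j, r) (γ (j, r) + c)))) =
        PowerSeries.coeff l (Gk f d k (arc γ))) ∧
    PowerSeries.coeff (r : ℕ) (Gk f d k (arc (Function.update γ (j, r) (γ (j, r) + c)))) =
        PowerSeries.coeff (r : ℕ) (Gk f d k (arc γ)) +
          c * eval (fun i => γ (i, 0)) (pderiv j (homogeneousComponent d f)) := by
  constructor
  · intro l hl
    rw [coeff_Gk, coeff_Gk]
    refine Finset.sum_congr rfl fun b _ => ?_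
    split_ifs with h
    · exact (coeff_aeval_update _ γ j r hr c).1 _ (by omega)
    · rfl
  · rw [coeff_Gk, coeff_Gk, Finset.sum_range_succ', Finset.sum_range_succ']
    have h1 : ∀ b ∈ Finset.range f.totalDegree,
        (if k * (b + 1) ≤ (r : ℕ) then PowerSeries.coeff ((r : ℕ) - k * (b + 1))
          (aeval (arc (Function.update γ (j, r) (γ (j, r) + c)))
            (homogeneousComponent (d + (b + 1)) f) : PowerSeries ℂ) else 0) =
        if k * (b + 1) ≤ (r : ℕ) then PowerSeries.coeff ((r : ℕ) - k * (b + 1))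
          (aeval (arc γ) (homogeneousComponent (d + (b + 1)) f) : PowerSeries ℂ) else 0 := by
      intro b _
      split_ifs with h
      · refine (coeff_aeval_update _ γ j r hr c).1 _ ?_
        have h2 : 0 < k * (b + 1) := Nat.mul_pos hk (Nat.succ_pos _)
        omega
      · rfl
    rw [Finset.sum_congr rfl h1]
    simp only [mul_zero, Nat.zero_le, if_true, Nat.sub_zero, add_zero]
    rw [(coeff_aeval_update (homogeneousComponent d f) γ j r hr c).2]
    ring

/-- The arcs at `W` along which `Gk` vanishes to order `> k`, except for the constant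
coefficient. -/
def BK (f : MvPolynomial (Fin n) ℂ) (d k : ℕ) (W : Set (Fin n → ℂ)) (N m : ℕ) :
    Set (Fin n × Fin (N + 1) → ℂ) :=
  {γ | γ ∈ AtW W N ∧ ∀ i ∈ Finset.Icc 1 m, PowerSeries.coeff i (Gk f d k (arc γ)) = 0}

theorem isConstr_BK (f : MvPolynomial (Fin n) ℂ) (d k : ℕ) {W : Set (Fin n → ℂ)}
    (hW : IsConstr W) (N m : ℕ) : IsConstr (BK f d k W N m) := by
  refine isConstr_setOf_and (isConstr_AtW hW N) (isConstr_forall_mem _ _ fun r _ => ?_)
  obtain ⟨P, hP⟩ := exists_coeff_Gk (N := N + 1) f d k r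
  simp only [hP]
  exact isConstr_eq_zero P

theorem hensel_BK (f : MvPolynomial (Fin n) ℂ) {d k : ℕ} (hk : 0 < k) {W : Set (Fin n → ℂ)}
    (hW : IsConstr W) (j : Fin n)
    (hj : ∀ p ∈ W, eval p (pderiv j (homogeneousComponent d f)) ≠ 0) {N m : ℕ} (hm : m < N) :
    cls (BK f d k W N (m + 1)) * L = cls (BK f d k W N m) ∧
    cls {γ | γ ∈ BK f d k W N m ∧ PowerSeries.coeff (m + 1) (Gk f d k (arc γ)) ≠ 0} =
      cls (BK f d k W N (m + 1)) * (L - 1) := by
  have hB : {x | x ∈ BK f d k W N m ∧ PowerSeries.coeff (m + 1) (Gk f d k (arc x)) = 0} =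
      BK f d k W N (m + 1) := by
    ext γ
    simp only [BK, Set.mem_ofPred_eq, Finset.mem_Icc]
    constructor
    · rintro ⟨⟨h1, h2⟩, h3⟩
      refine ⟨h1, fun i hi => ?_⟩
      rcases Nat.lt_or_ge i (m + 1) with h4 | h4
      · exact h2 i ⟨hi.1, by omega⟩
      · rw [show i = m + 1 by omega]; exact h3
    · rintro ⟨h1, h2⟩
      exact ⟨⟨h1, fun i hi => h2 i ⟨hi.1, by omega⟩⟩, h2 (m + 1) ⟨by omega, le_rfl⟩⟩
  set r : Fin (N + 1) := ⟨m + 1, by omega⟩ with hr
  have hr0 : r ≠ 0 := by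
    intro h
    have := congrArg Fin.val h
    simp [hr] at this
  have hup : ∀ γ ∈ BK f d k W N m, ∀ c : ℂ,
      Function.update γ (j, r) (γ (j, r) + c) ∈ BK f d k W N m := by
    rintro γ ⟨h1, h3⟩ c
    have h4 := coeff_Gk_update (d := d) f hk γ j r hr0 c
    refine ⟨?_, fun i hi => ?_⟩
    · have : (fun i => Function.update γ (j, r) (γ (j, r) + c) (i, 0)) = fun i => γ (i, 0) := by
        funext i
        rw [Function.update_of_ne]
        intro h
        exact hr0 (congrArg Prod.snd h).symm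
      show (fun i => Function.update γ (j, r) (γ (j, r) + c) (i, 0)) ∈ W
      rw [this]
      exact h1
    · rw [h4.1 i (by have := (Finset.mem_Icc.1 hi).2; simp only [hr]; omega)]
      exact h3 i hi
  have key := hensel_step (BK f d k W N m) (isConstr_BK f d k hW N m)
    (fun γ => PowerSeries.coeff (m + 1) (Gk f d k (arc γ))) (exists_coeff_Gk f d k (m + 1))
    (j, r) hup
    (fun γ => eval (fun i => γ (i, 0)) (pderiv j (homogeneousComponent d f)))
    (fun γ hγ => hj _ hγ.1)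
    (fun γ hγ c => (coeff_Gk_update (d := d) f hk γ j r hr0 c).2)
  rw [hB] at key
  exact key

theorem cls_BK (f : MvPolynomial (Fin n) ℂ) {d k : ℕ} (hk : 0 < k) {W : Set (Fin n → ℂ)}
    (hW : IsConstr W) (j : Fin n)
    (hj : ∀ p ∈ W, eval p (pderiv j (homogeneousComponent d f)) ≠ 0) {N : ℕ} (m : ℕ)
    (hm : m ≤ N) :
    cls (BK f d k W N m) * L ^ m = cls W * L ^ (n * N) := by
  induction m with
  | zero =>
    rw [pow_zero, mul_one, ← cls_AtW hW N]
    congr 1
    ext γ
    simp [BK]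
  | succ m ih =>
    rw [pow_succ', ← mul_assoc, (hensel_BK f hk hW j hj hm).1, ih (by omega)]

theorem setK_smooth (f : MvPolynomial (Fin n) ℂ) {d k : ℕ} (hk : 0 < k) {W : Set (Fin n → ℂ)}
    (h0 : ∀ p ∈ W, eval p (homogeneousComponent d f) = 0) (N m : ℕ) :
    setK f d k W N (m + 1) =
      {γ | γ ∈ BK f d k W N m ∧ PowerSeries.coeff (m + 1) (Gk f d k (arc γ)) ≠ 0} := by
  ext γ
  simp only [setK, BK, Set.mem_inter_iff, Set.mem_ofPred_eq, Finset.mem_Icc,
    PowerSeries.order_eq_nat]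
  constructor
  · rintro ⟨⟨h1, h2⟩, h3⟩
    exact ⟨⟨h3, fun i hi => h2 i (by omega)⟩, h1⟩
  · rintro ⟨⟨h1, h2⟩, h3⟩
    refine ⟨⟨h3, fun i hi => ?_⟩, h1⟩
    rcases Nat.eq_zero_or_pos i with h4 | h4
    · rw [h4, coeff_zero_Gk f hk]
      exact h0 _ h1
    · exact h2 i ⟨h4, by omega⟩

attribute [local irreducible] K0.instCommRing

theorem cls_setK_smooth (f : MvPolynomial (Fin n) ℂ) {d k : ℕ} (hk : 0 < k)
    {W : Set (Fin n → ℂ)} (hW : IsConstr W)
    (h0 : ∀ p ∈ W, eval p (homogeneousComponent d f) = 0) (j : Fin n)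
    (hj : ∀ p ∈ W, eval p (pderiv j (homogeneousComponent d f)) ≠ 0) {N m : ℕ}
    (hm : m < N) :
    cls (setK f d k W N (m + 1)) * L ^ (m + 1) = cls W * L ^ (n * N) * (L - 1) := by
  rw [setK_smooth f hk h0, (hensel_BK f hk hW j hj hm).2, mul_right_comm,
    cls_BK f hk hW j hj (m + 1) hm]

/-- The smooth points of `f_d = 0`. -/
theorem Mk_smooth (f : MvPolynomial (Fin n) ℂ) {d k : ℕ} (hk : 0 < k) {W : Set (Fin n → ℂ)}
    (hW : IsConstr W) (h0 : ∀ p ∈ W, eval p (homogeneousComponent d f) = 0) (j : Fin n)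
    (hj : ∀ p ∈ W, eval p (pderiv j (homogeneousComponent d f)) ≠ 0) {N i : ℕ} (hi : i ≤ N) :
    Mk f d k W N i = if i = 0 then 0 else
      (ell ^ n * clsM W * ((LU : Mot) - 1)) * ell ^ i := by
  split_ifs with hi0
  · subst hi0
    have h1 : setK f d k W N 0 = ∅ := by
      ext γ
      simp only [setK, Set.mem_inter_iff, Set.mem_ofPred_eq, Set.mem_empty_iff_false, iff_false]
      rintro ⟨h2, h3⟩
      rw [PowerSeries.order_eq_nat] at h2
      apply h2.1
      rw [coeff_zero_Gk f hk]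
      exact h0 _ h3
    unfold Mk clsM
    rw [h1, cls_empty, map_zero, mul_zero]
  · obtain ⟨m, rfl⟩ := Nat.exists_eq_succ_of_ne_zero hi0
    have h1 := congrArg (algebraMap K0 Mot) (cls_setK_smooth f hk hW h0 j hj (m := m) (N := N) hi)
    rw [map_mul, map_mul, map_mul, map_pow, map_pow, map_sub, map_one, ← LU_val] at h1
    have h2 : clsM (setK f d k W N (m + 1)) =
        clsM W * (LU : Mot) ^ (n * N) * ((LU : Mot) - 1) * ell ^ (m + 1) := by
      unfold clsM ell
      rw [← h1, mul_assoc, ← mul_pow, Units.mul_inv, one_pow, mul_one]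
    unfold Mk
    rw [Nat.succ_eq_add_one, h2]
    calc _ = (↑((LU ^ (n * (N + 1)))⁻¹) * (LU : Mot) ^ (n * N)) *
          (clsM W * ((LU : Mot) - 1) * ell ^ (m + 1)) := by ring
      _ = _ := by rw [norm_pow]; ring

end SI

end MPb07157
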