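import Pool.Agent.Lib.MP_b07157_ag.NewtRootLoc
import Pool.Agent.Lib.MP_b07157_agM.CDefs

/-!
# A root of the Bernstein–Sato polynomial from the initial form: the functional
-/

noncomputable section

namespace MPb07157

open MvPolynomial

variable {n : ℕ}

namespace Sq

/-- The field of rational functions. -/
abbrev KF (n : ℕ) : Type := FractionRing (MvPolynomial (Fin n) ℂ)

/-- The embedding of the polynomials. -/
abbrev io (n : ℕ) : MvPolynomial (Fin n) ℂ →+* KF n := algebraMap _ _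

/-- `f ∂_i a - (α + m) a ∂_i f`. -/
def ev (f : MvPolynomial (Fin n) ℂ) (α : ℂ) (m : ℕ) (i : Fin n) (a : MvPolynomial (Fin n) ℂ) :
    MvPolynomial (Fin n) ℂ :=
  f * pderiv i a - C (α + m) * (a * pderiv i f)

theorem ev_add (f : MvPolynomial (Fin n) ℂ) (α : ℂ) (m : ℕ) (i : Fin n)
    (a b : MvPolynomial (Fin n) ℂ) : ev f α m i (a + b) = ev f α m i a + ev f α m i b := by
  unfold ev
  rw [map_add]
  ring

theorem ev_smul (f : MvPolynomial (Fin n) ℂ) (α : ℂ) (m : ℕ) (i : Fin n) (c : ℂ)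
    (a : MvPolynomial (Fin n) ℂ) : ev f α m i (C c * a) = C c * ev f α m i a := by
  unfold ev
  rw [pderiv_C_mul]
  ring

theorem ev_mul_f (f : MvPolynomial (Fin n) ℂ) (α : ℂ) (m : ℕ) (i : Fin n)
    (a : MvPolynomial (Fin n) ℂ) : ev f α (m + 1) i (f * a) = f * ev f α m i a := by
  unfold ev
  rw [pderiv_mul]
  have : (C (α + ((m + 1 : ℕ) : ℂ)) : MvPolynomial (Fin n) ℂ) = C (α + m) + 1 := by
    push_cast
    rw [← add_assoc, C_add, C_1]
  rw [this]
  ring

/-- The span of the derivatives. -/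
def SS (f : MvPolynomial (Fin n) ℂ) (α : ℂ) : Submodule ℂ (KF n) :=
  Submodule.span ℂ {x | ∃ (m : ℕ) (i : Fin n) (a : MvPolynomial (Fin n) ℂ),
    x = io n (ev f α m i a) / io n f ^ (m + 1)}

theorem ev_mem (f : MvPolynomial (Fin n) ℂ) (α : ℂ) (m : ℕ) (i : Fin n)
    (a : MvPolynomial (Fin n) ℂ) : io n (ev f α m i a) / io n f ^ (m + 1) ∈ SS f α :=
  Submodule.subset_span ⟨m, i, a, rfl⟩

theorem io_ne_zero {f : MvPolynomial (Fin n) ℂ} (hf : f ≠ 0) : io n f ≠ 0 := by
  intro h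
  exact hf (IsFractionRing.injective (MvPolynomial (Fin n) ℂ) (KF n) (by rw [h, map_zero]))

theorem smul_eq (c : ℂ) (x : KF n) : c • x = io n (C c) * x := by
  rw [Algebra.smul_def]
  rfl

theorem exists_of_mem {f : MvPolynomial (Fin n) ℂ} (hf : f ≠ 0) {α : ℂ} {x : KF n}
    (hx : x ∈ SS f α) : ∃ (m : ℕ) (a : Fin n → MvPolynomial (Fin n) ℂ),
      x * io n f ^ (m + 1) = io n (∑ i, ev f α m i (a i)) := by
  classical
  have hF : io n f ≠ 0 := io_ne_zero hf
  -- raising the order of the pole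
  have hup : ∀ (x : KF n) (m : ℕ) (a : Fin n → MvPolynomial (Fin n) ℂ),
      x * io n f ^ (m + 1) = io n (∑ i, ev f α m i (a i)) → ∀ r : ℕ,
        ∃ b : Fin n → MvPolynomial (Fin n) ℂ,
          x * io n f ^ (m + r + 1) = io n (∑ i, ev f α (m + r) i (b i)) := by
    intro x m a h r
    induction r with
    | zero => exact ⟨a, h⟩
    | succ r ih =>
      obtain ⟨b, hb⟩ := ih
      refine ⟨fun i => f * b i, ?_⟩
      have h1 : ∑ i, ev f α (m + (r + 1)) i (f * b i) = f * ∑ i, ev f α (m + r) i (b i) := by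
        rw [Finset.mul_sum]
        exact Finset.sum_congr rfl fun i _ => ev_mul_f f α (m + r) i (b i)
      rw [h1, map_mul, ← hb]
      ring
  refine Submodule.span_induction ?_ ?_ ?_ ?_ hx
  · rintro _ ⟨m, i, a, rfl⟩
    refine ⟨m, Pi.single i a, ?_⟩
    rw [div_mul_cancel₀ _ (pow_ne_zero _ hF), Finset.sum_eq_single i]
    · rw [Pi.single_eq_same]
    · intro j _ hj
      rw [Pi.single_eq_of_ne hj]
      unfold ev
      simp
    · intro h
      exact absurd (Finset.mem_univ i) h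
  · refine ⟨0, 0, ?_⟩
    simp [ev]
  · rintro x y - - ⟨m, a, hx⟩ ⟨l, b, hy⟩
    obtain ⟨a', ha'⟩ := hup x m a hx l
    obtain ⟨b', hb'⟩ := hup y l b hy m
    refine ⟨m + l, fun i => a' i + b' i, ?_⟩
    rw [add_mul, ha']
    rw [add_comm l m] at hb'
    rw [hb', ← map_add, ← Finset.sum_add_distrib]
    congr 1
    exact Finset.sum_congr rfl fun i _ => (ev_add f α (m + l) i _ _).symm
  · rintro c x - ⟨m, a, hx⟩
    refine ⟨m, fun i => C c * a i, ?_⟩
    rw [smul_eq, mul_assoc, hx, ← map_mul, Finset.mul_sum]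
    congr 1
    exact Finset.sum_congr rfl fun i _ => (ev_smul f α m i c _).symm

/-- The functional. -/
theorem exists_functional {f : MvPolynomial (Fin n) ℂ} (hf : f ≠ 0) {α : ℂ} (h : NonEx f α) :
    ∃ Λ : KF n →ₗ[ℂ] ℂ, Λ 1 = 1 ∧ ∀ x ∈ SS f α, Λ x = 0 := by
  have h1 : (1 : KF n) ∉ SS f α := by
    intro h1
    obtain ⟨m, a, ha⟩ := exists_of_mem hf h1
    rw [one_mul, ← map_pow] at ha
    exact h m a (IsFractionRing.injective (MvPolynomial (Fin n) ℂ) (KF n) ha).symm
  obtain ⟨Λ, h2, h3⟩ := Submodule.exists_le_ker_of_notMem h1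
  refine ⟨(Λ 1)⁻¹ • Λ, ?_, fun x hx => ?_⟩
  · rw [LinearMap.smul_apply, smul_eq_mul, inv_mul_cancel₀ h2]
  · rw [LinearMap.smul_apply, h3 hx, smul_zero]

variable {w : Fin n → ℕ} {N : ℕ}

/-- Euler's identity. -/
theorem euler_w {f : MvPolynomial (Fin n) ℂ} (hf : f.IsWeightedHomogeneous w N) :
    ∑ i, C (w i : ℂ) * (X i * pderiv i f) = C (N : ℂ) * f := by
  have h := hf.sum_weight_X_mul_pderiv
  simp only [nsmul_eq_mul] at h
  rw [← C_eq_coe_nat] at h
  rw [← h]
  refine Finset.sum_congr rfl fun i _ => ?_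
  rw [← C_eq_coe_nat]

/-- Elements of weight different from zero are sums of derivatives. -/
theorem mem_of_weight {f : MvPolynomial (Fin n) ℂ} (hf0 : f ≠ 0)
    (hf : f.IsWeightedHomogeneous w N) {α : ℂ} (hα : α * N = ∑ i, (w i : ℂ)) (m : ℕ)
    {g : MvPolynomial (Fin n) ℂ} {e : ℕ} (hg : g.IsWeightedHomogeneous w e) (he : e ≠ N * m) :
    io n g / io n f ^ m ∈ SS f α := by
  have hF : io n f ≠ 0 := io_ne_zero hf0
  have h1 : ∑ i, ev f α m i (C (w i : ℂ) * (X i * g)) = C ((e : ℂ) - N * m) * (f * g) := by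
    have h2 : ∀ i, ev f α m i (C (w i : ℂ) * (X i * g)) =
        f * (C (w i : ℂ) * g) + f * (C (w i : ℂ) * (X i * pderiv i g)) -
          C (α + m) * (g * (C (w i : ℂ) * (X i * pderiv i f))) := by
      intro i
      unfold ev
      rw [pderiv_C_mul, pderiv_mul, pderiv_X_self]
      ring
    rw [Finset.sum_congr rfl fun i _ => h2 i, Finset.sum_sub_distrib, Finset.sum_add_distrib,
      ← Finset.mul_sum, ← Finset.mul_sum, ← Finset.mul_sum, ← Finset.mul_sum, euler_w hf,
      euler_w hg, ← Finset.sum_mul, ← map_sum, ← hα]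
    simp only [C_add, C_sub, C_mul]
    have h3 : (C (m : ℂ) : MvPolynomial (Fin n) ℂ) = C (m : ℂ) := rfl
    ring
  have h2 : (e : ℂ) - N * m ≠ 0 := by
    intro h
    apply he
    have : (e : ℂ) = ((N * m : ℕ) : ℂ) := by
      push_cast
      linear_combination h
    exact_mod_cast this
  have h3 : ((e : ℂ) - N * m) • (io n g / io n f ^ m) ∈ SS f α := by
    have h4 : ((e : ℂ) - N * m) • (io n g / io n f ^ m) =
        ∑ i, io n (ev f α m i (C (w i : ℂ) * (X i * g))) / io n f ^ (m + 1) := by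
      rw [← Finset.sum_div, ← map_sum, h1, smul_eq, map_mul, map_mul]
      field_simp
      ring
    rw [h4]
    exact Submodule.sum_mem _ fun i _ => ev_mem f α m i _
  have h5 := (SS f α).smul_mem ((e : ℂ) - N * m)⁻¹ h3
  rwa [smul_smul, inv_mul_cancel₀ h2, one_smul] at h5

theorem mem_of_support {f : MvPolynomial (Fin n) ℂ} (hf0 : f ≠ 0)
    (hf : f.IsWeightedHomogeneous w N) {α : ℂ} (hα : α * N = ∑ i, (w i : ℂ)) (m : ℕ)
    {g : MvPolynomial (Fin n) ℂ} (hg : ∀ v ∈ g.support, wt w v ≠ N * m) :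
    io n g / io n f ^ m ∈ SS f α := by
  classical
  have h1 : io n g / io n f ^ m =
      ∑ v ∈ g.support, io n (monomial v (coeff v g)) / io n f ^ m := by
    rw [← Finset.sum_div, ← map_sum, support_sum_monomial_coeff]
  rw [h1]
  refine Submodule.sum_mem _ fun v hv => ?_
  have h2 : (monomial v (coeff v g)).IsWeightedHomogeneous w (wt w v) := by
    refine isWeightedHomogeneous_monomial w v _ ?_
    rw [Finsupp.weight_apply, Finsupp.sum_fintype v (fun i c => c • w i) (by simp)]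
    unfold wt
    exact Finset.sum_congr rfl fun i _ => by rw [smul_eq_mul, mul_comm]
  exact mem_of_weight hf0 hf hα m h2 (hg v hv)

end Sq

end MPb07157
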