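import Pool.Agent.Lib.MP_b07157_agI.Down
import Pool.Agent.Lib.MP_b07157_agI.Line
import Pool.Agent.Lib.MP_b07157_agI.Sum

/-!
# Superisolated germs: the poles
-/

noncomputable section

namespace MPb07157

open MvPolynomial

namespace SI

variable {n : ℕ}

/-- Normalized representatives of finitely many lines. -/
theorem exists_reps (S : Set (Fin (n + 1) → ℂ)) (P : Finset (Fin (n + 1) → ℂ))
    (hS : ∀ q ∈ S, ∀ c : ℂ, c ≠ 0 → c • q ∈ S) (hP : ∀ q ∈ S, q ≠ 0 → ∃ p ∈ P, ∃ c : ℂ, q = c • p) :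
    ∃ P' : Finset (Fin (n + 1) → ℂ), (∀ q ∈ P', q ∈ S ∧ ∃ j, q j = 1) ∧
      (∀ q ∈ P', ∀ q' ∈ P', q ≠ q' → Disjoint (lineW q) (lineW q')) ∧
      ∀ q ∈ S, q ≠ 0 → ∃ p ∈ P', q ∈ lineW p := by
  classical
  have key : ∀ P : Finset (Fin (n + 1) → ℂ), ∃ P' : Finset (Fin (n + 1) → ℂ),
      (∀ q ∈ P', q ∈ S ∧ ∃ j, q j = 1) ∧
      (∀ q ∈ P', ∀ q' ∈ P', q ≠ q' → Disjoint (lineW q) (lineW q')) ∧
      ∀ q ∈ S, q ≠ 0 → (∃ p ∈ P, ∃ c : ℂ, q = c • p) → ∃ p ∈ P', q ∈ lineW p := by
    intro P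
    induction P using Finset.induction_on with
    | empty =>
      refine ⟨∅, fun q hq => absurd hq (Finset.notMem_empty q),
        fun q hq => absurd hq (Finset.notMem_empty q), ?_⟩
      rintro q - - ⟨p, hp, -⟩
      exact absurd hp (Finset.notMem_empty p)
    | insert a P ha ih =>
      obtain ⟨P', h1, h2, h3⟩ := ih
      by_cases hc : ∃ q ∈ S, q ≠ 0 ∧ (∃ c : ℂ, q = c • a) ∧ ∀ p ∈ P', q ∉ lineW p
      · obtain ⟨q, hqS, hq0, ⟨c, hqc⟩, hqP⟩ := hc
        have hc0 : c ≠ 0 := by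
          rintro rfl
          exact hq0 (by rw [hqc, zero_smul])
        have ha0 : a ≠ 0 := by
          rintro rfl
          exact hq0 (by rw [hqc, smul_zero])
        obtain ⟨j, hj⟩ : ∃ j, a j ≠ 0 := by
          by_contra hcon
          push Not at hcon
          exact ha0 (funext hcon)
        set b : Fin (n + 1) → ℂ := (a j)⁻¹ • a with hb
        have hab : a = (a j) • b := by
          rw [hb, smul_smul, mul_inv_cancel₀ hj, one_smul]
        have hbj : b j = 1 := by
          rw [hb, Pi.smul_apply, smul_eq_mul, inv_mul_cancel₀ hj]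
        have hqb : q = (c * a j) • b := by
          rw [mul_smul, ← hab, hqc]
        have hqb' : q ∈ lineW b := ⟨c * a j, mul_ne_zero hc0 hj, hqb⟩
        have hbS : b ∈ S := by
          obtain ⟨e, he, hbe⟩ := mem_lineW_symm hqb'
          rw [hbe]
          exact hS q hqS e he
        have hdis : ∀ p ∈ P', Disjoint (lineW b) (lineW p) := by
          intro p hp
          rw [Set.disjoint_left]
          intro x hxb hxp
          exact hqP p hp (mem_lineW_trans hqb' (mem_lineW_trans (mem_lineW_symm hxb) hxp))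
        refine ⟨insert b P', ?_, ?_, ?_⟩
        · intro x hx
          rcases Finset.mem_insert.1 hx with rfl | hx
          · exact ⟨hbS, j, hbj⟩
          · exact h1 x hx
        · intro x hx x' hx' hne
          rcases Finset.mem_insert.1 hx with rfl | hx
          · rcases Finset.mem_insert.1 hx' with rfl | hx'
            · exact absurd rfl hne
            · exact hdis x' hx'
          · rcases Finset.mem_insert.1 hx' with rfl | hx'
            · exact (hdis x hx).symm
            · exact h2 x hx x' hx' hne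
        · rintro x hxS hx0 ⟨p, hp, e, hxe⟩
          rcases Finset.mem_insert.1 hp with rfl | hp
          · refine ⟨b, Finset.mem_insert_self _ _, e * p j, ?_, ?_⟩
            · refine mul_ne_zero ?_ hj
              rintro rfl
              exact hx0 (by rw [hxe, zero_smul])
            · rw [mul_smul, ← hab, hxe]
          · obtain ⟨p', hp', hx'⟩ := h3 x hxS hx0 ⟨p, hp, e, hxe⟩
            exact ⟨p', Finset.mem_insert_of_mem hp', hx'⟩
      · push Not at hc
        refine ⟨P', h1, h2, ?_⟩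
        rintro x hxS hx0 ⟨p, hp, e, hxe⟩
        rcases Finset.mem_insert.1 hp with rfl | hp
        · obtain ⟨p', hp', hx'⟩ := hc x hxS hx0 ⟨e, hxe⟩
          exact ⟨p', hp', hx'⟩
        · exact h3 x hxS hx0 ⟨p, hp, e, hxe⟩
  obtain ⟨P', h1, h2, h3⟩ := key P
  exact ⟨P', h1, h2, fun q hq hq0 => h3 q hq hq0 (hP q hq hq0)⟩

theorem pole_Mk_biUnion {ι : Type} (f : MvPolynomial (Fin n) ℂ) (d k : ℕ) (s : Finset ι)
    (W : ι → Set (Fin n → ℂ)) (hW : ∀ i ∈ s, IsConstr (W i))
    (hd : ∀ i ∈ s, ∀ j ∈ s, i ≠ j → Disjoint (W i) (W j)) (N i : ℕ) :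
    Mk f d k (⋃ a ∈ s, W a) N i = ∑ a ∈ s, Mk f d k (W a) N i := by
  classical
  induction s using Finset.induction_on with
  | empty => simp [Mk_empty]
  | insert a s ha ih =>
    have hW' : ∀ i ∈ s, IsConstr (W i) := fun i hi => hW i (Finset.mem_insert_of_mem hi)
    have hd' : ∀ i ∈ s, ∀ j ∈ s, i ≠ j → Disjoint (W i) (W j) := fun i hi j hj =>
      hd i (Finset.mem_insert_of_mem hi) j (Finset.mem_insert_of_mem hj)
    rw [Finset.set_biUnion_insert, Finset.sum_insert ha, ← ih hW' hd']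
    refine Mk_union f d k (hW a (Finset.mem_insert_self _ _)) (isConstr_biUnion s W hW') ?_ N i
    rw [Set.disjoint_left]
    intro x hx hx'
    simp only [Set.mem_iUnion, exists_prop] at hx'
    obtain ⟨b, hb, hxb⟩ := hx'
    refine Set.disjoint_left.1 (hd a (Finset.mem_insert_self _ _) b
      (Finset.mem_insert_of_mem hb) ?_) hx hxb
    rintro rfl
    exact ha hb

theorem pole_eval_gch (F : MvPolynomial (Fin (n + 1)) ℂ) (q : Fin (n + 1) → ℂ)
    (j₀ : Fin (n + 1)) (hq : q j₀ = 1) : eval 0 (gch F q j₀) = eval q F := by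
  unfold gch
  have h : (eval (0 : Fin n → ℂ)).comp
      (aeval (j₀.insertNth (α := fun _ => MvPolynomial (Fin n) ℂ) 1
        fun i => X i + C (q (j₀.succAbove i)))).toRingHom = eval q := by
    refine MvPolynomial.ringHom_ext ?_ ?_
    · intro r
      simp
    · intro i
      rcases Fin.eq_self_or_eq_succAbove j₀ i with rfl | ⟨j, rfl⟩
      · simp [hq]
      · simp
  exact congrArg (fun g : MvPolynomial (Fin (n + 1)) ℂ →+* ℂ => g F) h

theorem pole_Zcoeff0_zero {g : MvPolynomial (Fin n) ℂ} (hg : eval 0 g = 0) : Zcoeff0 g 0 = 0 := by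
  unfold Zcoeff0
  have h : {γ : Fin n × Fin (0 + 1) → ℂ | γ ∈ arcs g (0 + 1) 0 ∧ ∀ i, γ (i, 0) = 0} = ∅ := by
    rw [Set.eq_empty_iff_forall_notMem]
    rintro γ ⟨h1, h2⟩
    have h3 : (aeval (arc γ) g : PowerSeries ℂ).order = ((0 : ℕ) : ℕ∞) := h1
    have harc : arc γ = 0 := by
      funext i
      unfold arc
      simp [h2 i]
    have h4 : PowerSeries.constantCoeff (aeval (arc γ) g : PowerSeries ℂ) = 0 := by
      have h5 : (PowerSeries.constantCoeff (R := ℂ)).comp
          (aeval (arc γ) : MvPolynomial (Fin n) ℂ →ₐ[ℂ] PowerSeries ℂ).toRingHom = eval 0 := by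
        refine MvPolynomial.ringHom_ext ?_ ?_
        · intro r
          simp
        · intro i
          simp [harc]
      have h6 := congrArg (fun φ : MvPolynomial (Fin n) ℂ →+* ℂ => φ g) h5
      rw [hg] at h6
      exact h6
    have h7 : (1 : ℕ∞) ≤ (aeval (arc γ) g : PowerSeries ℂ).order := by
      have := PowerSeries.nat_le_order (aeval (arc γ) g : PowerSeries ℂ) 1 (by
        intro i hi
        have : i = 0 := by omega
        rw [this, PowerSeries.coeff_zero_eq_constantCoeff_apply]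
        exact h4)
      exact_mod_cast this
    rw [h3] at h7
    exact absurd h7 (by simp)
  have h' : clsM {γ : Fin n × Fin (0 + 1) → ℂ | γ ∈ arcs g (0 + 1) 0 ∧ ∀ i, γ (i, 0) = 0} = 0 := by
    rw [h]
    unfold clsM
    rw [cls_empty, map_zero]
  rw [h', mul_zero]

/-- **The poles** of superisolated germs come from the singular points of the tangent cone. -/
theorem exists_pole {f : MvPolynomial (Fin (n + 1)) ℂ} {d : ℕ} (hd : 0 < d) (hf : IsSI f d)
    (P : Finset (Fin (n + 1) → ℂ))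
    (hP : ∀ q, q ≠ 0 → (∀ j, eval q (pderiv j (homogeneousComponent d f)) = 0) →
      ∃ p ∈ P, ∃ c : ℂ, q = c • p)
    {s₀ : ℚ} (h : ((n + 1 : ℕ) : ℚ) / d ≠ -s₀) (h' : ((n + 1 : ℕ) : ℚ) / ((d + 1 : ℕ) : ℚ) ≠ -s₀)
    (h1 : s₀ ≠ -1) (hp : IsPole (Zmot0 f) s₀) :
    ∃ (q : Fin (n + 1) → ℂ) (j₀ : Fin (n + 1)), q j₀ = 1 ∧
      (∀ j, eval q (pderiv j (homogeneousComponent d f)) = 0) ∧
      (1 - PowerSeries.C ell * PowerSeries.X) * Zmot0 (gch (homogeneousComponent d f) q j₀) ∉
        regularAt (((n + 1 : ℕ) : ℚ) + ((d + 1 : ℕ) : ℚ) * s₀) := by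
  classical
  by_contra hcon
  push Not at hcon
  apply hp
  set F := homogeneousComponent d f with hF
  have hFh : F.IsHomogeneous d := homogeneousComponent_isHomogeneous d f
  set S : Set (Fin (n + 1) → ℂ) := {q | ∀ j, eval q (pderiv j F) = 0} with hS
  have hSsm : ∀ q ∈ S, ∀ c : ℂ, c ≠ 0 → c • q ∈ S := by
    intro q hq c _ j
    rw [eval_smul_of_homog hFh.pderiv, hq j, mul_zero]
  obtain ⟨P', hP1, hP2, hP3⟩ := exists_reps S P hSsm (fun q hq hq0 => hP q hq0 hq)
  -- Euler
  have hEuler : ∀ q ∈ S, eval q F = 0 := by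
    intro q hq
    have h2 := congrArg (eval q) hFh.sum_X_mul_pderiv
    rw [map_sum, map_nsmul] at h2
    have h3 : ∑ i, eval q (X i * pderiv i F) = 0 := by
      refine Finset.sum_eq_zero ?_
      intro i _
      rw [map_mul, hq i, mul_zero]
    rw [h3, nsmul_eq_mul] at h2
    have h4 : (d : ℂ) ≠ 0 := by exact_mod_cast hd.ne'
    exact (mul_eq_zero.1 h2.symm).resolve_left h4
  have hF0 : eval 0 F = 0 := by
    have h2 := eval_smul_of_homog hFh 0 (0 : Fin (n + 1) → ℂ)
    rw [zero_smul, zero_pow hd.ne', zero_mul] at h2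
    exact h2
  have hPne : ∀ q ∈ P', q ≠ 0 := by
    rintro q hq rfl
    obtain ⟨j, hj⟩ := (hP1 0 hq).2
    simp at hj
  have hJ : ∀ q : Fin (n + 1) → ℂ, ∃ j : Fin (n + 1), q ∈ P' → q j = 1 := by
    intro q
    by_cases hq : q ∈ P'
    · obtain ⟨j, hj⟩ := (hP1 q hq).2
      exact ⟨j, fun _ => hj⟩
    · exact ⟨0, fun hq' => absurd hq' hq⟩
  choose J hJ using hJ
  set W0 : Set (Fin (n + 1) → ℂ) := {x | eval x F ≠ 0} with hW0
  have hW0c : IsConstr W0 := isConstr_ne_zero F
  -- the decomposition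
  have hdec : ({0}ᶜ : Set (Fin (n + 1) → ℂ)) = W0 ∪
      ((⋃ j ∈ (Finset.univ : Finset (Fin (n + 1))), WJ' F j) ∪ ⋃ q ∈ P', lineW q) := by
    ext x
    simp only [Set.mem_compl_iff, Set.mem_singleton_iff, Set.mem_union, Set.mem_iUnion,
      Finset.mem_univ, exists_prop, true_and]
    constructor
    · intro hx
      by_cases hx0 : eval x F = 0
      · right
        by_cases hs : ∀ j, eval x (pderiv j F) = 0
        · right
          exact hP3 x hs hx
        · left
          obtain ⟨j, hj⟩ := exists_mem_WJ hx0 hs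
          exact ⟨j, hj, hx⟩
      · left
        exact hx0
    · rintro (hx | ⟨j, hj⟩ | ⟨q, hq, hx⟩)
      · rintro rfl
        exact hx hF0
      · exact hj.2
      · rintro rfl
        obtain ⟨c, hc, hx⟩ := hx
        exact (smul_ne_zero hc (hPne q hq)) hx.symm
  have hWJc : ∀ j ∈ (Finset.univ : Finset (Fin (n + 1))), IsConstr (WJ' F j) :=
    fun j _ => isConstr_WJ' F j
  have hLc : ∀ q ∈ P', IsConstr (lineW q) := fun q hq => isConstr_lineW (hPne q hq)
  have hWJd : ∀ i ∈ (Finset.univ : Finset (Fin (n + 1))), ∀ j ∈ (Finset.univ : Finset (Fin (n + 1))),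
      i ≠ j → Disjoint (WJ' F i) (WJ' F j) := by
    intro i _ j _ hij
    rw [Set.disjoint_left]
    intro x hx hx'
    exact Set.disjoint_left.1 (disjoint_WJ F hij) hx.1 hx'.1
  have hlineS : ∀ q ∈ P', ∀ x ∈ lineW q, x ∈ S := by
    rintro q hq x ⟨c, hc, rfl⟩
    exact hSsm q (hP1 q hq).1 c hc
  have hd1 : Disjoint W0 ((⋃ j ∈ (Finset.univ : Finset (Fin (n + 1))), WJ' F j) ∪
      ⋃ q ∈ P', lineW q) := by
    rw [Set.disjoint_left]
    intro x hx hx'
    simp only [Set.mem_union, Set.mem_iUnion, Finset.mem_univ, exists_prop, true_and] at hx'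
    rcases hx' with ⟨j, hj⟩ | ⟨q, hq, hxq⟩
    · exact hx hj.1.1
    · exact hx (hEuler x (hlineS q hq x hxq))
  have hd2 : Disjoint (⋃ j ∈ (Finset.univ : Finset (Fin (n + 1))), WJ' F j)
      (⋃ q ∈ P', lineW q) := by
    rw [Set.disjoint_left]
    intro x hx hx'
    simp only [Set.mem_iUnion, Finset.mem_univ, exists_prop, true_and] at hx hx'
    obtain ⟨j, hj⟩ := hx
    obtain ⟨q, hq, hxq⟩ := hx'
    exact hj.1.2.2 (hlineS q hq x hxq j)
  have hMk : ∀ k N i, Mk f d k {0}ᶜ N i = Mk f d k W0 N i +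
      (∑ j, Mk f d k (WJ' F j) N i + ∑ q ∈ P', Mk f d k (lineW q) N i) := by
    intro k N i
    rw [hdec, Mk_union f d k hW0c ((isConstr_biUnion _ _ hWJc).union (isConstr_biUnion _ _ hLc)) hd1,
      Mk_union f d k (isConstr_biUnion _ _ hWJc) (isConstr_biUnion _ _ hLc) hd2,
      pole_Mk_biUnion f d k _ _ hWJc hWJd, pole_Mk_biUnion f d k _ _ hLc hP2]
  -- the three kinds of series
  set cu : ℕ → ℕ → Mot := fun _ i => if i = 0 then ell ^ (n + 1) * clsM W0 else 0 with hcu
  set cs : Fin (n + 1) → ℕ → ℕ → Mot := fun j _ i => if i = 0 then 0 else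
    (ell ^ (n + 1) * clsM (WJ' F j) * ((LU : Mot) - 1)) * ell ^ i with hcs
  set cl : (Fin (n + 1) → ℂ) → ℕ → ℕ → Mot := fun q k =>
    cK n k (Zcoeff0 (gch F q (J q))) with hcl
  have hMk' : ∀ k N i, 0 < k → i ≤ N → Mk f d k {0}ᶜ N i = cu k i +
      (∑ j, cs j k i + ∑ q ∈ P', cl q k i) := by
    intro k N i hk hi
    rw [hMk k N i, Mk_unit f hk hW0c (fun p hp => hp) N i]
    refine congrArg₂ (· + ·) rfl (congrArg₂ (· + ·) ?_ ?_)
    · refine Finset.sum_congr rfl ?_
      intro j _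
      exact Mk_smooth f hk (isConstr_WJ' F j) (fun p hp => hp.1.1) j (fun p hp => hp.1.2.2) hi
    · refine Finset.sum_congr rfl ?_
      intro q hq
      exact Mk_line hk (hJ q hq) (hf.sing q (hPne q hq) (hP1 q hq).1) hi
  have key : Zmot0 f = serK (n + 1) d cu + (∑ j, serK (n + 1) d (cs j) +
      ∑ q ∈ P', serK (n + 1) d (cl q)) := by
    ext m
    rw [map_add, map_add, map_sum, map_sum]
    unfold Zmot0 serK
    simp only [PowerSeries.coeff_mk]
    rw [Zcoeff0_eq_sum hd hf.low m, Finset.sum_comm (s := Finset.univ),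
      Finset.sum_comm (s := P'), ← Finset.sum_add_distrib, ← Finset.sum_add_distrib]
    refine Finset.sum_congr rfl ?_
    intro k hk
    rw [Finset.mem_Icc] at hk
    by_cases hkm : d * k ≤ m
    · simp only [if_pos hkm]
      have hk1 : k ≤ d * k := Nat.le_mul_of_pos_left k hd
      rw [hMk' k (m - k) (m - d * k) (by omega) (by omega), mul_add, mul_add, Finset.mul_sum,
        Finset.mul_sum]
    · simp only [if_neg hkm, Finset.sum_const_zero, add_zero]
  rw [key]
  refine add_mem ?_ (add_mem ?_ ?_)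
  · exact serK_unit_mem (n + 1) hd _ h
  · refine sum_mem ?_
    intro j _
    exact serK_smooth_mem (n + 1) hd _ h h1
  · refine sum_mem ?_
    intro q hq
    refine serK_line_mem n hd ?_ h h' h1 ?_
    · refine pole_Zcoeff0_zero ?_
      rw [pole_eval_gch F q (J q) (hJ q hq)]
      exact hEuler q (hP1 q hq).1
    · exact hcon q (J q) (hJ q hq) (hP1 q hq).1

end SI

end MPb07157
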