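import Pool.Agent.Lib.MP_b07157_agV.T1
import Pool.Agent.Lib.MP_b07157_agV.W2

/-!
# The pole at `-1` of the zeta function of a plane germ
-/

noncomputable section

namespace MPb07157

open MvPolynomial

namespace PC

/-- `f` is a node in suitable coordinates. -/
def IsNode (f : P2) : Prop :=
  ∃ θ : Fin 2 → P2, (∀ i, MvPowerSeries.constantCoeff (θ i) = 0) ∧
    MvPowerSeries.constantCoeff (jac θ) ≠ 0 ∧
    ∃ W : P2, MvPowerSeries.constantCoeff W ≠ 0 ∧
      MvPowerSeries.subst θ f = MvPowerSeries.X 0 * MvPowerSeries.X 1 * W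

/-- The factor `1 - L⁻¹ T`. -/
def omlX : PowerSeries Mot :=
  1 - PowerSeries.C ((LU ^ (-1 : ℤ) : Motˣ) : Mot) * PowerSeries.X

theorem omlX_mem (s₀ : ℚ) : omlX ∈ regularAt s₀ := by
  unfold omlX
  exact sub_mem (one_mem _) (mul_mem ((regularAt s₀).algebraMap_mem _) (X_mem_regularAt s₀))

theorem omlX_mul_geo : omlX * geo 1 1 =
    PowerSeries.C ((LU ^ (-1 : ℤ) : Motˣ) : Mot) * PowerSeries.X := by
  have e1 : ∀ j : ℕ, PowerSeries.coeff j (geo 1 1) =
      if 0 < j then ((LU ^ (-(j : ℤ)) : Motˣ) : Mot) else 0 := by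
    intro j
    rw [geo, PowerSeries.coeff_mk]
    split_ifs with hj
    · rw [Finset.sum_eq_single_of_mem j (Finset.mem_Icc.2 ⟨hj, le_rfl⟩)
        (fun k _ hk => if_neg (by rwa [one_mul])), if_pos (one_mul j), one_mul]
    · refine Finset.sum_eq_zero fun k hk => ?_
      have := Finset.mem_Icc.1 hk
      omega
  ext m
  unfold omlX
  rw [sub_mul, one_mul, map_sub, mul_assoc, PowerSeries.coeff_C_mul, PowerSeries.coeff_C_mul]
  cases m with
  | zero =>
    rw [e1, if_neg (lt_irrefl 0), PowerSeries.coeff_zero_X_mul, PowerSeries.coeff_zero_X]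
    ring
  | succ m =>
    rw [PowerSeries.coeff_succ_X_mul, e1, e1, if_pos (Nat.succ_pos m), PowerSeries.coeff_X]
    by_cases hm : m = 0
    · subst hm
      rw [if_neg (lt_irrefl 0), if_pos rfl]
      push_cast
      ring
    · rw [if_pos (Nat.pos_of_ne_zero hm), if_neg (by omega), mul_zero, ← Units.val_mul,
        ← zpow_add, sub_eq_zero]
      congr 2
      push_cast
      ring

/-- The Newton polygon of `F` is `(1, 1) + ℕ²` if this holds for the model. -/
theorem eq_xy_of_model {F : P2} {g : MvPolynomial (Fin 2) ℂ}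
    (hg1 : ∀ (w : Fin 2 → ℕ) (r : ℕ) (v : Fin 2 →₀ ℕ) (l : ℂ), (∀ j, 0 < w j) →
      IsInit F w r (monomial v l) → IsInit (g : P2) w r (monomial v 1))
    (hg2 : ∀ (p q A B : ℕ) (lam : ℂ) (R : Finset ℂ) (μ : ℂ → ℕ), IsEdge F p q A B lam R μ →
      IsInit (g : P2) ![p, q] (edgeN p q A B R μ)
        (X 0 ^ A * X 1 ^ B * (X 1 ^ (p * ∑ c ∈ R, μ c) + X 0 ^ (q * ∑ c ∈ R, μ c))))
    {ι : Type} {p q A B : ι → ℕ} {lam : ι → ℂ} {R : ι → Finset ℂ} {μ : ι → ℂ → ℕ}
    (hEd : ∀ i, IsEdge F (p i) (q i) (A i) (B i) (lam i) (R i) (μ i))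
    (hw : ∀ w : Fin 2 → ℕ, (∀ j, 0 < w j) →
        (∃ r v l, IsInit F w r (monomial v l)) ∨ ∃ i k, 0 < k ∧ w = ![k * p i, k * q i])
    (h1 : ∃ v ∈ g.support, v 0 = 1 ∧ v 1 = 1) (h2 : ∀ v ∈ g.support, 1 ≤ v 0 ∧ 1 ≤ v 1) :
    ∃ W : P2, MvPowerSeries.constantCoeff W ≠ 0 ∧
      F = MvPowerSeries.X 0 * MvPowerSeries.X 1 * W := by
  classical
  obtain ⟨v₁, hv₁, h10, h11⟩ := h1
  have hv₁g : coeff v₁ g ≠ 0 := MvPolynomial.mem_support_iff.1 hv₁
  have hmem : ∀ v : Fin 2 →₀ ℕ, MvPowerSeries.coeff v (g : P2) ≠ 0 → 1 ≤ v 0 ∧ 1 ≤ v 1 :=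
    fun v hv => h2 v (MvPolynomial.mem_support_iff.2 (by rwa [coeff_coe] at hv))
  -- the weight of `(1, 1)` is at least the minimal weight
  have hmin : ∀ (w : Fin 2 → ℕ) (r : ℕ) (P : MvPolynomial (Fin 2) ℂ), IsInit (g : P2) w r P →
      r ≤ w 0 + w 1 := by
    intro w r P hP
    by_contra hcon
    have hwt : wt w v₁ = w 0 + w 1 := by
      simp [wt, Fin.sum_univ_two, h10, h11]
    have h3 := hP.2.2 v₁ (by omega)
    rw [coeff_coe] at h3
    have h4 : v₁ ∈ P.support := MvPolynomial.mem_support_iff.2 (by rwa [← h3])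
    have := hP.2.1 v₁ h4
    omega
  -- no edges
  have hno : ∀ i : ι, False := by
    intro i
    have hE := hEd i
    have hP := hg2 _ _ _ _ _ _ _ hE
    set S := ∑ c ∈ R i, μ i c with hS
    have hS0 : 0 < S := Finset.sum_pos hE.hm hE.hR
    have hpS : 0 < p i * S := Nat.mul_pos hE.hp hS0
    have hqS : 0 < q i * S := Nat.mul_pos hE.hq hS0
    have hle := hmin _ _ _ hP
    simp only [Matrix.cons_val_zero, Matrix.cons_val_one] at hle
    have hPeq : (X 0 ^ A i * X 1 ^ B i * (X 1 ^ (p i * S) + X 0 ^ (q i * S)) :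
        MvPolynomial (Fin 2) ℂ) = monomial (ex (A i) (B i + p i * S)) 1 +
          monomial (ex (A i + q i * S) (B i)) 1 := by
      have hm : ∀ a b : ℕ, (X 0 ^ a * X 1 ^ b : MvPolynomial (Fin 2) ℂ) = monomial (ex a b) 1 := by
        intro a b
        unfold ex
        rw [X_pow_eq_monomial, X_pow_eq_monomial, monomial_mul, one_mul]
      rw [← hm, ← hm]
      ring
    have hne : ex (A i) (B i + p i * S) ≠ ex (A i + q i * S) (B i) := by
      intro h
      have := DFunLike.congr_fun h 1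
      rw [s1b_ex1, s1b_ex1] at this
      omega
    have hc1 : 1 ≤ A i := by
      have h3 := hP.2.2 (ex (A i) (B i + p i * S)) (by
        rw [s1b_wt, s1b_ex0, s1b_ex1]
        unfold edgeN
        rw [← hS]
        exact le_of_eq (by ring))
      rw [hPeq, coeff_add, coeff_monomial, coeff_monomial, if_pos rfl, if_neg hne.symm,
        add_zero] at h3
      have h4 := hmem _ (by rw [h3]; exact one_ne_zero)
      rw [s1b_ex0] at h4
      exact h4.1
    have hc2 : 1 ≤ B i := by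
      have h3 := hP.2.2 (ex (A i + q i * S) (B i)) (by
        rw [s1b_wt, s1b_ex0, s1b_ex1]
        unfold edgeN
        rw [← hS]
        exact le_of_eq (by ring))
      rw [hPeq, coeff_add, coeff_monomial, coeff_monomial, if_neg hne, if_pos rfl,
        zero_add] at h3
      have h4 := hmem _ (by rw [h3]; exact one_ne_zero)
      rw [s1b_ex1] at h4
      exact h4.2
    unfold edgeN at hle
    rw [← hS] at hle
    have h5 := Nat.mul_le_mul_left (p i) hc1
    have h6 := Nat.mul_le_mul_left (q i) hc2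
    have h7 := Nat.mul_pos (Nat.mul_pos hE.hp hE.hq) hS0
    omega
  -- the initial forms of `F`
  have hinit : ∀ w : Fin 2 → ℕ, (∀ j, 0 < w j) → ∃ l : ℂ, l ≠ 0 ∧
      IsInit F w (w 0 + w 1) (monomial (ex 1 1) l) := by
    intro w hw0
    rcases hw w hw0 with ⟨r, v, l, hI⟩ | ⟨i, -⟩
    · have hg := hg1 w r v l hw0 hI
      have hle := hmin _ _ _ hg
      have hv : v ∈ (monomial v (1 : ℂ)).support := by
        rw [MvPolynomial.mem_support_iff, coeff_monomial, if_pos rfl]
        exact one_ne_zero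
      have hwv := hg.2.1 v hv
      have h3 := hg.2.2 v (le_of_eq hwv)
      rw [coeff_monomial, if_pos rfl] at h3
      have h4 := hmem v (by rw [h3]; exact one_ne_zero)
      have hwv' : w 0 * v 0 + w 1 * v 1 = r := by
        rw [← hwv]
        simp [wt, Fin.sum_univ_two]
      have h5 := Nat.mul_le_mul_left (w 0) h4.1
      have h6 := Nat.mul_le_mul_left (w 1) h4.2
      have h7 : w 0 * v 0 = w 0 * 1 := by omega
      have h8 : w 1 * v 1 = w 1 * 1 := by omega
      have h9 := Nat.eq_of_mul_eq_mul_left (hw0 0) h7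
      have h10 := Nat.eq_of_mul_eq_mul_left (hw0 1) h8
      have hv' : v = ex 1 1 := by rw [s1b_eq_ex v, h9, h10]
      have hr : r = w 0 + w 1 := by omega
      subst hv' hr
      refine ⟨l, ?_, hI⟩
      rintro rfl
      exact hI.1 (map_zero _)
    · exact (hno i).elim
  have hz : ∀ v : Fin 2 →₀ ℕ, v 0 = 0 ∨ v 1 = 0 → MvPowerSeries.coeff v F = 0 := by
    intro v hv
    rcases hv with hv | hv
    · obtain ⟨l, -, hI⟩ := hinit ![v 1 + 1, 1] (by intro j; fin_cases j <;> simp)
      rw [hI.2.2 v (by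
        rw [s1b_wt, hv]
        simp only [Matrix.cons_val_zero, Matrix.cons_val_one]
        omega), coeff_monomial, if_neg]
      intro h
      rw [← h, s1b_ex0] at hv
      omega
    · obtain ⟨l, -, hI⟩ := hinit ![1, v 0 + 1] (by intro j; fin_cases j <;> simp)
      rw [hI.2.2 v (by
        rw [s1b_wt, hv]
        simp only [Matrix.cons_val_zero, Matrix.cons_val_one]
        omega), coeff_monomial, if_neg]
      intro h
      rw [← h, s1b_ex1] at hv
      omega
  have hX0 : (MvPowerSeries.X 0 : P2) ∣ F := by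
    rw [MvPowerSeries.X_dvd_iff]
    exact fun v hv => hz v (Or.inl hv)
  have hX1 : (MvPowerSeries.X 1 : P2) ∣ F := by
    rw [MvPowerSeries.X_dvd_iff]
    exact fun v hv => hz v (Or.inr hv)
  obtain ⟨F₁, rfl⟩ := hX0
  have h3 : (MvPowerSeries.X 1 : P2) ∣ F₁ := by
    refine ((prime_X2 1).dvd_or_dvd hX1).resolve_left fun h => ?_
    rw [MvPowerSeries.X_dvd_iff] at h
    have h4 := h (Finsupp.single 0 1) (by simp)
    rw [MvPowerSeries.coeff_X, if_pos rfl] at h4
    exact one_ne_zero h4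
  obtain ⟨W, rfl⟩ := h3
  refine ⟨W, ?_, by rw [mul_assoc]⟩
  obtain ⟨l, hl, hI⟩ := hinit ![1, 1] (by intro j; fin_cases j <;> simp)
  have h5 := hI.2.2 (ex 1 1) (by
    rw [s1b_wt, s1b_ex0, s1b_ex1]
    simp)
  rw [coeff_monomial, if_pos rfl] at h5
  have h6 : MvPowerSeries.coeff (ex 1 1) ((MvPowerSeries.X 0 : P2) * (MvPowerSeries.X 1 * W)) =
      MvPowerSeries.constantCoeff W := by
    rw [← mul_assoc]
    have h7 : (MvPowerSeries.X 0 * MvPowerSeries.X 1 : P2) = MvPowerSeries.monomial (ex 1 1) 1 := by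
      unfold ex
      rw [MvPowerSeries.X_def, MvPowerSeries.X_def, MvPowerSeries.monomial_mul_monomial, one_mul]
    have h8 := MvPowerSeries.coeff_add_monomial_mul (ex 1 1) 0 W (1 : ℂ)
    rw [h7]
    rw [add_zero, one_mul] at h8
    rw [h8, MvPowerSeries.coeff_zero_eq_constantCoeff_apply]
  rw [← h6, h5]
  exact hl

/-- The zeta function times `1 - L⁻¹ T` is regular at `-1` if this holds at the roots of the edge
polynomials. -/
theorem omlX_mul_ZV_of_edges {F : P2} (hF : F ≠ 0) {a : ℕ} (ha : 1 ≤ a)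
    (haX : a = 1 ∨ MvPowerSeries.X 0 ∣ F)
    (hx : ∀ A, ExactPow F 0 A → 0 < A → a = A → A = 1)
    (hxy : ¬ ∃ W : P2, MvPowerSeries.constantCoeff W ≠ 0 ∧
      F = MvPowerSeries.X 0 * MvPowerSeries.X 1 * W)
    (hE : ∀ (p q A B : ℕ) (lam : ℂ) (R : Finset ℂ) (μ : ℂ → ℕ), IsEdge F p q A B lam R μ →
      a * p + q ≠ edgeN p q A B R μ)
    (hsub : ∀ (p q A B : ℕ) (lam : ℂ) (R : Finset ℂ) (μ : ℂ → ℕ), IsEdge F p q A B lam R μ →
      ∀ c ∈ R, ∀ α β, p * α = q * β + 1 →
        omlX * ZV (MvPowerSeries.subst (kap p q α β c) F) (a * p + q) ∈ regularAt (-1)) :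
    omlX * ZV F a ∈ regularAt (-1) := by
  classical
  obtain ⟨g, hg0, hg1, hg2, hg3, hg4, ι, hι, p, q, A, B, α, β, lam, R, μ, e₀, e₁, hEd, hab, -,
    hw, -, key⟩ := ZV_formula hF
  have hEd' : ∀ i, ((a * p i + q i : ℕ) : ℚ) ≠
      -(-1 : ℚ) * (edgeN (p i) (q i) (A i) (B i) (R i) (μ i) : ℕ) := fun i h =>
    hE _ _ _ _ _ _ _ (hEd i) (by
      rw [neg_neg, one_mul] at h
      exact_mod_cast h)
  rw [key a 2 ha haX (by norm_num), mul_add, Finset.mul_sum]
  refine add_mem (one_sub_mul_Zw_mem hg0 hg3 le_rfl _ ?_ ?_) (sum_mem fun i _ => ?_)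
  · intro w N hw' h
    have hsum : ∑ j, (1 + (![a - 1, 0] : Fin 2 → ℕ) j) * w j = a * w 0 + w 1 := by
      rw [Fin.sum_univ_two]
      obtain ⟨b, rfl⟩ : ∃ b, a = b + 1 := ⟨a - 1, by omega⟩
      simp [add_comm]
    rw [hsum] at h
    rcases hg4 w N hw' with ⟨A', k, hA, hA0, hk, rfl, rfl⟩ | ⟨B', k, hB, hB0, hk, rfl, rfl⟩ |
      ⟨p', q', A', B', lam', R', μ', k, hE', hk, rfl, rfl⟩
    · simp only [Matrix.cons_val_zero, Matrix.cons_val_one, add_zero] at h
      have h3 : a = A' := Nat.eq_of_mul_eq_mul_right hk (by rw [h, mul_comm])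
      have h4 := hx A' hA hA0 h3
      refine ⟨0, ?_⟩
      rw [h4, mul_one]
      funext j
      fin_cases j <;> simp
    · simp only [Matrix.cons_val_zero, Matrix.cons_val_one, mul_zero, zero_add] at h
      refine ⟨1, ?_⟩
      rw [← h]
      funext j
      fin_cases j <;> simp
    · exfalso
      simp only [Matrix.cons_val_zero, Matrix.cons_val_one] at h
      refine hE _ _ _ _ _ _ _ hE' (Nat.eq_of_mul_eq_mul_left hk ?_)
      rw [← h]
      ring
  · rintro ⟨h1, h2⟩
    exact hxy (eq_xy_of_model hg1 hg2 hEd hw h1 h2)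
  · rw [mul_add, mul_sub, Finset.mul_sum]
    refine add_mem (sub_mem ?_ ?_) (sum_mem fun c hc => hsub _ _ _ _ _ _ _ (hEd i) c hc _ _ (hab i))
    · exact mul_mem (omlX_mem _) (mul_mem ((regularAt (-1)).algebraMap_mem _)
        (geo_mem (P1aux.edgeN_pos (hEd i)) (hEd' i)))
    · rw [geo2_eq _ (P1aux.edgeN_pos (hEd i)), mul_left_comm, ← mul_assoc omlX,
        mul_comm omlX (geo _ _), mul_assoc (geo _ _), omlX_mul_geo]
      exact mul_mem ((regularAt (-1)).algebraMap_mem _) (mul_mem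
        (geo_mem (P1aux.edgeN_pos (hEd i)) (hEd' i)) (mul_mem ((regularAt (-1)).algebraMap_mem _)
          (X_mem_regularAt _)))

/-- Later stages. -/
theorem later_omlX (M : ℕ) : ∀ (F : P2) (a A : ℕ), 1 ≤ a → YOrd F A M → a < A →
    omlX * ZV F a ∈ regularAt (-1) := by
  induction M using Nat.strong_induction_on with
  | _ M IH =>
  intro F a A₀ ha hY haA
  obtain ⟨φ, hφ0, hφ, -⟩ := exists_shY F
  rw [← ZV_shY F a hφ0]
  have hY' := hY.shY hφ0
  set G := MvPowerSeries.subst (shY φ) F with hG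
  have hG0 : G ≠ 0 := by
    intro h
    apply hY'.2.2
    rw [h]
    exact map_zero _
  have hlt' : ∀ (p q A B : ℕ) (lam : ℂ) (R : Finset ℂ) (μ : ℂ → ℕ),
      IsEdge G p q A B lam R μ → a * p + q < edgeN p q A B R μ := by
    intro p q A B lam R μ hE
    obtain ⟨hA, -⟩ := hY'.edge_le hE
    have hS := Finset.sum_pos hE.hm hE.hR
    have hp := hE.hp
    have hq := hE.hq
    unfold edgeN
    have h1 : p * (a + 1) ≤ p * A := Nat.mul_le_mul_left p (by omega)
    have h2 : q * 1 ≤ q * (p * ∑ c ∈ R, μ c) :=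
      Nat.mul_le_mul_left q (Nat.mul_pos hp hS)
    have h3 : p * q * ∑ c ∈ R, μ c = q * (p * ∑ c ∈ R, μ c) := by ring
    rw [h3]
    rw [Nat.mul_add, mul_one, mul_comm p a] at h1
    omega
  refine omlX_mul_ZV_of_edges hG0 ha (Or.inr ((dvd_pow_self _ (by omega)).trans hY'.dvd))
    ?_ ?_ (fun p q A B lam R μ hE => (hlt' p q A B lam R μ hE).ne) ?_
  · intro A hA _ h
    have := hY'.exactPow hA.1 hA.2
    omega
  · rintro ⟨W, hW, h⟩
    have h1 : MvPowerSeries.X 0 ^ 2 ∣ G := (pow_dvd_pow _ (by omega)).trans hY'.dvd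
    rw [h, pow_two, mul_assoc] at h1
    exact not_X_dvd hW (by decide : (0 : Fin 2) ≠ 1) 1 (by
      rw [pow_one]
      exact (mul_dvd_mul_iff_left (prime_X2 0).ne_zero).1 h1)
  · intro p q A B lam R μ hE c hc α β hab
    have hc0 : c ≠ 0 := by
      rintro rfl
      exact hE.hR0 hc
    obtain ⟨hA, hB⟩ := hY'.edge_le hE
    have hS := Finset.sum_pos hE.hm hE.hR
    have hlt : μ c < M := by
      by_contra hcon
      have hμS : μ c ≤ ∑ c ∈ R, μ c := Finset.single_le_sum (fun _ _ => Nat.zero_le _) hc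
      have h2 : 1 * ∑ c ∈ R, μ c ≤ p * ∑ c ∈ R, μ c := Nat.mul_le_mul_right _ hE.hp
      have h3 : B = 0 := by omega
      have h4 : p = 1 := by
        by_contra hp
        have : 2 * ∑ c ∈ R, μ c ≤ p * ∑ c ∈ R, μ c :=
          Nat.mul_le_mul_right _ (by have := hE.hp; omega)
        omega
      have h5 := not_bad_card hφ hE h4 h3
      obtain ⟨c', hc', hne'⟩ := Finset.exists_mem_ne (show 1 < R.card by omega) c
      have h6 : μ c + μ c' ≤ ∑ c ∈ R, μ c := by
        rw [← Finset.add_sum_erase _ _ hc]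
        exact Nat.add_le_add_left (Finset.single_le_sum (f := μ) (fun _ _ => Nat.zero_le _)
          (Finset.mem_erase.2 ⟨hne', hc'⟩)) _
      have := hE.hm c' hc'
      omega
    exact IH (μ c) hlt _ _ _ (by have := hE.hq; omega) (YOrd.sub hE hc hab)
      (hlt' p q A B lam R μ hE)

theorem node_ineq {p q A B S : ℕ} (hp : 0 < p) (hq : 0 < q) (hS : 0 < S)
    (e1 : p = 1 ∧ B = 0 → 2 ≤ S) (e2 : q = 1 ∧ A = 0 → 2 ≤ S)
    (e3 : p = 1 ∧ q = 1 ∧ A = 0 ∧ B = 0 → 3 ≤ S) (e4 : ¬ (p = 2 ∧ q = 2)) :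
    1 * p + q < p * A + q * B + p * q * S := by
  have hpqS : 1 ≤ p * q * S := Nat.mul_pos (Nat.mul_pos hp hq) hS
  have k1 : B = 0 → q < p * q * S := by
    intro hB
    rcases Nat.lt_or_ge 1 p with h | h
    · calc q < 2 * q := by omega
        _ ≤ p * q := Nat.mul_le_mul_right q h
        _ ≤ p * q * S := Nat.le_mul_of_pos_right _ hS
    · have hp1 : p = 1 := by omega
      have := e1 ⟨hp1, hB⟩
      calc q < q * 2 := by omega
        _ ≤ q * S := Nat.mul_le_mul_left q this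
        _ = p * q * S := by rw [hp1, one_mul]
  have k2 : A = 0 → p < p * q * S := by
    intro hA
    rcases Nat.lt_or_ge 1 q with h | h
    · calc p < p * 2 := by omega
        _ ≤ p * q := Nat.mul_le_mul_left p h
        _ ≤ p * q * S := Nat.le_mul_of_pos_right _ hS
    · have hq1 : q = 1 := by omega
      have := e2 ⟨hq1, hA⟩
      calc p < p * 2 := by omega
        _ ≤ p * S := Nat.mul_le_mul_left p this
        _ = p * q * S := by rw [hq1, mul_one]
  rcases Nat.eq_zero_or_pos A with hA | hA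
  · rcases Nat.eq_zero_or_pos B with hB | hB
    · subst hA hB
      rw [mul_zero, mul_zero, zero_add, zero_add, one_mul]
      rcases Nat.lt_or_ge 1 p with h | h
      · rcases Nat.lt_or_ge 1 q with h' | h'
        · have h1 : p + q < p * q := by
            rcases Nat.lt_or_ge 2 p with h2 | h2
            · nlinarith
            · have hp2 : p = 2 := by omega
              have hq3 : 3 ≤ q := by
                by_contra hcon
                exact e4 ⟨hp2, by omega⟩
              rw [hp2]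
              omega
          exact lt_of_lt_of_le h1 (Nat.le_mul_of_pos_right _ hS)
        · have hq1 : q = 1 := by omega
          have := e2 ⟨hq1, rfl⟩
          rw [hq1, mul_one]
          nlinarith
      · have hp1 : p = 1 := by omega
        rw [hp1, one_mul]
        rcases Nat.lt_or_ge 1 q with h' | h'
        · have := e1 ⟨hp1, rfl⟩
          nlinarith
        · have hq1 : q = 1 := by omega
          have := e3 ⟨hp1, hq1, rfl, rfl⟩
          rw [hq1]
          omega
    · have h1 := Nat.mul_le_mul_left q hB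
      have h2 := k2 hA
      omega
  · rcases Nat.eq_zero_or_pos B with hB | hB
    · have h1 := Nat.mul_le_mul_left p hA
      have h2 := k1 hB
      omega
    · have h1 := Nat.mul_le_mul_left p hA
      have h2 := Nat.mul_le_mul_left q hB
      omega

/-- **The pole at `-1`.** -/
theorem omlX_mul_ZV_mem {f : P2} (hf : f ≠ 0) (hnode : ¬ IsNode f) :
    omlX * ZV f 1 ∈ regularAt (-1) := by
  obtain ⟨φ₁, ψ₁, φ, ψ, h1', h2', h3', h4', hBY, hBX, hB2⟩ := exists_first hf
  rw [← ZV_shY f 1 h1', ← ZV_shX _ h2', ← ZV_shY _ 1 h3', ← ZV_shX _ h4']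
  have hst := (((((isStage_id f).shY h1').shX h2').shY h3').shX h4')
  set G := (MvPowerSeries.subst (shX ψ) (MvPowerSeries.subst (shY φ)
      (MvPowerSeries.subst (shX ψ₁) (MvPowerSeries.subst (shY φ₁) f)))) with hG
  have hG0 : G ≠ 0 := hst.ne_zero hf
  have hlt' : ∀ (p q A B : ℕ) (lam : ℂ) (R : Finset ℂ) (μ : ℂ → ℕ),
      IsEdge G p q A B lam R μ → 1 * p + q < edgeN p q A B R μ := by
    intro p q A B lam R μ hE
    have hS := Finset.sum_pos hE.hm hE.hR
    have hcS : R.card ≤ ∑ c ∈ R, μ c := by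
      rw [Finset.card_eq_sum_ones]
      exact Finset.sum_le_sum fun c hc => hE.hm c hc
    have hp := hE.hp
    have hq := hE.hq
    have hc1 := Finset.card_pos.2 hE.hR
    have e1 : p = 1 ∧ B = 0 → 2 ≤ R.card := fun h => not_bad_card hBY hE h.1 h.2
    have e2 : q = 1 ∧ A = 0 → 2 ≤ R.card := fun h => not_badX_card hBX hE h.1 h.2
    have e3 : p = 1 ∧ q = 1 ∧ A = 0 ∧ B = 0 → 3 ≤ R.card := by
      rintro ⟨rfl, rfl, rfl, rfl⟩
      exact not_bad2_card hBY hB2 hE
    have e4 : ¬ (p = 2 ∧ q = 2) := by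
      rintro ⟨rfl, rfl⟩
      have := hE.hpq
      norm_num at this
    unfold edgeN
    set S := ∑ c ∈ R, μ c with hSdef
    clear_value S
    exact node_ineq hp hq hS (fun h => (e1 h).trans hcS) (fun h => (e2 h).trans hcS)
      (fun h => (e3 h).trans hcS) e4
  refine omlX_mul_ZV_of_edges hG0 le_rfl (Or.inl rfl) (fun A _ _ h => h.symm) ?_
    (fun p q A B lam R μ hE => (hlt' p q A B lam R μ hE).ne) ?_
  · rintro ⟨W, hW, h⟩
    apply hnode
    obtain ⟨W', hW', hJ⟩ := hst.hjac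
    refine ⟨_, hst.h0, ?_, W, hW, ?_⟩
    · rw [hJ, Nat.sub_self, pow_zero, one_mul]
      exact hW'
    · rw [← hst.hF]
      exact h
  · intro p q A B lam R μ hE c hc α β hab
    exact later_omlX (μ c) _ _ _ (by have := hE.hq; omega) (YOrd.sub hE hc hab)
      (hlt' p q A B lam R μ hE)

end PC

end MPb07157
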