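import Pool.Agent.Lib.MP_b07157_agR.Cor

/-!
# Derivations of tensor products
-/

noncomputable section

namespace MPb07157

open TensorProduct

namespace SI

variable {K B : Type} [CommRing K] [Algebra ℂ K] [CommRing B] [Algebra ℂ B]

/-- The derivation `δ ⊗ 1`. -/
def dL (δ : Derivation ℂ K K) : Derivation ℂ (K ⊗[ℂ] B) (K ⊗[ℂ] B) :=
  Derivation.mk' (δ.toLinearMap.rTensor B) (by
    intro x y
    simp only [smul_eq_mul]
    induction x with
    | zero => simp
    | add x x' hx hx' => rw [add_mul, map_add, map_add, hx, hx']; ring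
    | tmul a b =>
      induction y with
      | zero => simp
      | add y y' hy hy' => rw [mul_add, map_add, map_add, hy, hy']; ring
      | tmul a' b' =>
        rw [Algebra.TensorProduct.tmul_mul_tmul, LinearMap.rTensor_tmul, LinearMap.rTensor_tmul,
          LinearMap.rTensor_tmul, Algebra.TensorProduct.tmul_mul_tmul,
          Algebra.TensorProduct.tmul_mul_tmul, mul_comm b' b, ← TensorProduct.add_tmul]
        congr 1
        exact δ.leibniz a a')

/-- The derivation `1 ⊗ δ`. -/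
def dR (δ : Derivation ℂ B B) : Derivation ℂ (K ⊗[ℂ] B) (K ⊗[ℂ] B) :=
  Derivation.mk' (δ.toLinearMap.lTensor K) (by
    intro x y
    simp only [smul_eq_mul]
    induction x with
    | zero => simp
    | add x x' hx hx' => rw [add_mul, map_add, map_add, hx, hx']; ring
    | tmul a b =>
      induction y with
      | zero => simp
      | add y y' hy hy' => rw [mul_add, map_add, map_add, hy, hy']; ring
      | tmul a' b' =>
        rw [Algebra.TensorProduct.tmul_mul_tmul, LinearMap.lTensor_tmul, LinearMap.lTensor_tmul,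
          LinearMap.lTensor_tmul, Algebra.TensorProduct.tmul_mul_tmul,
          Algebra.TensorProduct.tmul_mul_tmul, mul_comm a' a, ← TensorProduct.tmul_add]
        congr 1
        exact δ.leibniz b b')

theorem dL_tmul (δ : Derivation ℂ K K) (a : K) (b : B) : dL δ (a ⊗ₜ[ℂ] b) = δ a ⊗ₜ b := rfl

theorem dR_tmul (δ : Derivation ℂ B B) (a : K) (b : B) : dR δ (a ⊗ₜ[ℂ] b) = a ⊗ₜ δ b := rfl

theorem dL_dR (δ : Derivation ℂ K K) (δ' : Derivation ℂ B B) (x : K ⊗[ℂ] B) :
    dL δ (dR δ' x) = dR δ' (dL δ x) := by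
  induction x with
  | zero => simp
  | add x y hx hy => rw [map_add, map_add, map_add, map_add, hx, hy]
  | tmul a b => rw [dR_tmul, dL_tmul, dL_tmul, dR_tmul]

/-- The map `1 ⊗ l`, for a functional `l` on `B`. -/
def lamK (l : B →ₗ[ℂ] ℂ) : (K ⊗[ℂ] B) →ₗ[ℂ] K :=
  (TensorProduct.rid ℂ K).toLinearMap ∘ₗ l.lTensor K

theorem lamK_tmul (l : B →ₗ[ℂ] ℂ) (a : K) (b : B) : lamK l (a ⊗ₜ[ℂ] b) = algebraMap ℂ K (l b) * a := by
  unfold lamK
  rw [LinearMap.comp_apply, LinearMap.lTensor_tmul]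
  show (TensorProduct.rid ℂ K) (a ⊗ₜ[ℂ] l b) = _
  rw [TensorProduct.rid_tmul, Algebra.smul_def]

theorem lamK_mul (l : B →ₗ[ℂ] ℂ) (a : K) (x : K ⊗[ℂ] B) :
    lamK l ((a ⊗ₜ[ℂ] (1 : B)) * x) = a * lamK l x := by
  induction x with
  | zero => simp
  | add x y hx hy => rw [mul_add, map_add, map_add, hx, hy]; ring
  | tmul a' b =>
    rw [Algebra.TensorProduct.tmul_mul_tmul, one_mul, lamK_tmul, lamK_tmul]
    ring

theorem lamK_dL (l : B →ₗ[ℂ] ℂ) (δ : Derivation ℂ K K) (x : K ⊗[ℂ] B) :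
    lamK l (dL δ x) = δ (lamK l x) := by
  induction x with
  | zero => simp
  | add x y hx hy => rw [map_add, map_add, map_add, map_add, hx, hy]
  | tmul a b =>
    rw [dL_tmul, lamK_tmul, lamK_tmul, Derivation.leibniz, Derivation.map_algebraMap, smul_zero,
      add_zero, smul_eq_mul]

theorem lamK_dR (l : B →ₗ[ℂ] ℂ) (δ : Derivation ℂ B B) {ψ : B}
    (h : ∀ b, l (δ b + ψ * b) = 0) (x : K ⊗[ℂ] B) :
    lamK l (dR δ x + ((1 : K) ⊗ₜ[ℂ] ψ) * x) = 0 := by
  induction x with
  | zero => simp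
  | add x y hx hy =>
    have : dR δ (x + y) + ((1 : K) ⊗ₜ[ℂ] ψ) * (x + y) = (dR δ x + ((1 : K) ⊗ₜ[ℂ] ψ) * x) +
        (dR δ y + ((1 : K) ⊗ₜ[ℂ] ψ) * y) := by
      rw [map_add]; ring
    rw [this, map_add, hx, hy, add_zero]
  | tmul a b =>
    rw [dR_tmul, Algebra.TensorProduct.tmul_mul_tmul, one_mul, ← TensorProduct.tmul_add, lamK_tmul,
      h, map_zero, zero_mul]

/-- A functional which separates an element from a subspace. -/
theorem exists_functional (E : Submodule ℂ B) {x : B} (hx : x ∉ E) :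
    ∃ l : B →ₗ[ℂ] ℂ, (∀ y ∈ E, l y = 0) ∧ l x = 1 := by
  obtain ⟨l, hl, hE⟩ := Submodule.exists_dual_map_eq_bot_of_notMem hx inferInstance
  refine ⟨(l x)⁻¹ • l, fun y hy => ?_, ?_⟩
  · have h1 : l y ∈ E.map l := Submodule.mem_map_of_mem hy
    rw [hE, Submodule.mem_bot] at h1
    rw [LinearMap.smul_apply, h1, smul_zero]
  · rw [LinearMap.smul_apply, smul_eq_mul, inv_mul_cancel₀ hl]

end SI

end MPb07157
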