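import Pool.Agent.Lib.MP_b07157_agI.Defs
import Pool.Agent.Lib.MP_b07157_agI.Ten
import Pool.Agent.Lib.MP_b07157_agV.R5

/-!
# Superisolated germs: the chart
-/

noncomputable section

namespace MPb07157

open MvPolynomial TensorProduct

namespace SI

variable {n : ℕ}

/-- The two lowest terms of `f(u x)`. -/
theorem aeval_mul_low {A : Type} [CommRing A] [Algebra ℂ A] {f : MvPolynomial (Fin n) ℂ} {d : ℕ}
    (hlow : ∀ j < d, homogeneousComponent j f = 0) (u : A) (x : Fin n → A) :
    ∃ G : A, aeval (fun i => u * x i) f = u ^ d * (aeval x (homogeneousComponent d f) +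
      u * aeval x (homogeneousComponent (d + 1) f) + u ^ 2 * G) := by
  set t := f.totalDegree with ht
  have h1 : ∑ j ∈ Finset.range (d + (t + 1 + 1 + 1)), homogeneousComponent j f = f := by
    conv_rhs => rw [← sum_homogeneousComponent f]
    symm
    refine Finset.sum_subset (Finset.range_subset_range.2 (by omega)) fun j _ hj => ?_
    refine homogeneousComponent_eq_zero j f ?_
    rw [Finset.mem_range] at hj
    omega
  have h2 : aeval (fun i => u * x i) f = ∑ j ∈ Finset.range (d + (t + 1 + 1 + 1)),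
      u ^ j * aeval x (homogeneousComponent j f) := by
    conv_lhs => rw [← h1]
    rw [map_sum]
    exact Finset.sum_congr rfl fun j _ =>
      aeval_mul_of_homog (homogeneousComponent_isHomogeneous j f) u x
  refine ⟨∑ j ∈ Finset.range (t + 1), u ^ j * aeval x (homogeneousComponent (d + (j + 1 + 1)) f),
    ?_⟩
  rw [h2, Finset.sum_range_add, Finset.sum_eq_zero (fun j hj => by
    rw [hlow j (Finset.mem_range.1 hj), map_zero, mul_zero]), zero_add, Finset.sum_range_succ',
    Finset.sum_range_succ', Finset.mul_sum, mul_add, mul_add, Finset.mul_sum]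
  have e1 : ∑ j ∈ Finset.range (t + 1), u ^ (d + (j + 1 + 1)) *
      aeval x (homogeneousComponent (d + (j + 1 + 1)) f) =
      ∑ j ∈ Finset.range (t + 1), u ^ d * (u ^ 2 * (u ^ j *
        aeval x (homogeneousComponent (d + (j + 1 + 1)) f))) := by
    refine Finset.sum_congr rfl fun j _ => ?_
    ring
  rw [e1, zero_add, add_zero]
  ring

/-! ### The map `K[[t]] → (K ⊗ B)[[t]]` -/

variable (B : Type) [CommRing B] [Algebra ℂ B] {K : Type} [CommRing K] [Algebra ℂ K]

/-- The map `K[[t]] → (K ⊗ B)[[t]]`. -/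
def iS : PowerSeries K →ₐ[ℂ] MvPowerSeries Unit (K ⊗[ℂ] B) :=
  { MvPowerSeries.map (Algebra.TensorProduct.includeLeftRingHom : K →+* K ⊗[ℂ] B) with
    commutes' := fun c => by
      refine MvPowerSeries.ext fun v => ?_
      show MvPowerSeries.coeff v (MvPowerSeries.map
        (Algebra.TensorProduct.includeLeftRingHom : K →+* K ⊗[ℂ] B)
        (algebraMap ℂ (MvPowerSeries Unit K) c)) = _
      rw [MvPowerSeries.coeff_map, MvPowerSeries.algebraMap_apply, MvPowerSeries.algebraMap_apply,
        MvPowerSeries.coeff_C, MvPowerSeries.coeff_C]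
      split_ifs
      · rfl
      · exact map_zero _ }

theorem coeff_iS (h : PowerSeries K) (v : Unit →₀ ℕ) :
    MvPowerSeries.coeff v (iS B h) = (MvPowerSeries.coeff v h) ⊗ₜ[ℂ] (1 : B) := rfl

theorem iS_X : iS B (PowerSeries.X : PowerSeries K) = MvPowerSeries.X () := by
  refine MvPowerSeries.ext fun v => ?_
  rw [coeff_iS]
  show (MvPowerSeries.coeff v (MvPowerSeries.X ())) ⊗ₜ[ℂ] (1 : B) = _
  rw [MvPowerSeries.coeff_X, MvPowerSeries.coeff_X]
  split_ifs
  · rfl
  · exact TensorProduct.zero_tmul _ _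

theorem iS_C (a : K) : iS B (PowerSeries.C a : PowerSeries K) = MvPowerSeries.C (a ⊗ₜ[ℂ] (1 : B)) := by
  refine MvPowerSeries.ext fun v => ?_
  rw [coeff_iS]
  show (MvPowerSeries.coeff v (MvPowerSeries.C a)) ⊗ₜ[ℂ] (1 : B) = _
  rw [MvPowerSeries.coeff_C, MvPowerSeries.coeff_C]
  split_ifs
  · rfl
  · exact TensorProduct.zero_tmul _ _

theorem constantCoeff_iS (h : PowerSeries K) :
    MvPowerSeries.constantCoeff (iS B h) = (PowerSeries.constantCoeff h) ⊗ₜ[ℂ] (1 : B) :=
  coeff_iS B h 0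

theorem cw_dR_iS (δ : Derivation ℂ B B) (h : PowerSeries K) :
    ARL.cw (dR δ) (iS B h) = 0 := by
  refine MvPowerSeries.ext fun v => ?_
  rw [ARL.coeff_cw, coeff_iS, dR_tmul, Derivation.map_one_eq_zero, TensorProduct.tmul_zero]
  rfl

theorem lg_iS (h : PowerSeries K) :
    ARL.lg () (iS B h) = MvPowerSeries.X () * iS B (PowerSeries.derivative K h) := by
  have h1 : MvPowerSeries.X () * iS B (PowerSeries.derivative K h) =
      iS B (PowerSeries.X * PowerSeries.derivative K h) := by rw [map_mul, iS_X]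
  rw [h1]
  refine MvPowerSeries.ext fun v => ?_
  rw [ARL.coeff_lg, coeff_iS, coeff_iS]
  obtain ⟨m, rfl⟩ : ∃ m, v = Finsupp.single () m := ⟨v (), by ext; simp⟩
  have h2 : MvPowerSeries.coeff (Finsupp.single () m) (PowerSeries.X *
      PowerSeries.derivative K h : PowerSeries K) =
      PowerSeries.coeff m (PowerSeries.X * PowerSeries.derivative K h) := rfl
  have h3 : MvPowerSeries.coeff (Finsupp.single () m) h = PowerSeries.coeff m h := rfl
  rw [h2, h3, Finsupp.single_eq_same]
  rcases m with _ | m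
  · rw [PowerSeries.coeff_zero_X_mul, Nat.cast_zero, zero_mul, TensorProduct.zero_tmul]
  · rw [PowerSeries.coeff_succ_X_mul, PowerSeries.coeff_derivative, mul_comm]
    have h4 : ((m + 1 : ℕ) : K ⊗[ℂ] B) = ((m : K) + 1) ⊗ₜ[ℂ] (1 : B) := by
      rw [← Nat.cast_succ]
      exact (map_natCast (Algebra.TensorProduct.includeLeftRingHom : K →+* K ⊗[ℂ] B) (m + 1)).symm
    rw [h4, Algebra.TensorProduct.tmul_mul_tmul, one_mul]

/-! ### The chart -/

variable {B}

/-- The coordinates of the chart: `x_{j₀} = 1`, `x_i = q_i + Θ_i`. -/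
def xc (B : Type) [CommRing B] [Algebra ℂ B] (q : Fin (n + 1) → ℂ) (j₀ : Fin (n + 1))
    (Θ : Fin n → PowerSeries K) : Fin (n + 1) → MvPowerSeries Unit (K ⊗[ℂ] B) :=
  j₀.insertNth (α := fun _ => MvPowerSeries Unit (K ⊗[ℂ] B)) 1
    fun i => iS B (Θ i) + algebraMap ℂ _ (q (j₀.succAbove i))

theorem aeval_xc {F : MvPolynomial (Fin (n + 1)) ℂ} (q : Fin (n + 1) → ℂ) (j₀ : Fin (n + 1))
    {Θ : Fin n → PowerSeries K} (h0 : ∀ i, PowerSeries.constantCoeff (Θ i) = 0) :
    aeval (xc B q j₀ Θ) F = iS B (MvPowerSeries.subst (Θ : Fin n → MvPowerSeries Unit K)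
      (gch F q j₀ : MvPowerSeries (Fin n) ℂ) : PowerSeries K) := by
  have h1 : (MvPowerSeries.subst (Θ : Fin n → MvPowerSeries Unit K)
      (gch F q j₀ : MvPowerSeries (Fin n) ℂ) : PowerSeries K) =
      (aeval Θ (gch F q j₀) : PowerSeries K) := MvPowerSeries.subst_coe _
  rw [h1]
  unfold gch
  rw [← AlgHom.comp_apply, ← AlgHom.comp_apply, comp_aeval, comp_aeval]
  congr 2
  funext i
  refine Fin.succAboveCases j₀ ?_ (fun i => ?_) i
  · unfold xc
    rw [Fin.insertNth_apply_same, Fin.insertNth_apply_same]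
    simp
  · unfold xc
    rw [Fin.insertNth_apply_succAbove, Fin.insertNth_apply_succAbove]
    rw [map_add, aeval_X, ← algebraMap_eq, AlgHom.commutes]

theorem constantCoeff_aeval_xc (F : MvPolynomial (Fin (n + 1)) ℂ) {q : Fin (n + 1) → ℂ}
    {j₀ : Fin (n + 1)} (hq : q j₀ = 1) {Θ : Fin n → PowerSeries K}
    (h0 : ∀ i, PowerSeries.constantCoeff (Θ i) = 0) :
    MvPowerSeries.constantCoeff (aeval (xc B q j₀ Θ) F) = algebraMap ℂ (K ⊗[ℂ] B) (eval q F) := by
  have hx : ∀ i, MvPowerSeries.constantCoeff (xc B q j₀ Θ i) = algebraMap ℂ (K ⊗[ℂ] B) (q i) := by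
    intro i
    refine Fin.succAboveCases j₀ ?_ (fun i => ?_) i
    · unfold xc
      rw [Fin.insertNth_apply_same, hq, map_one, map_one]
    · unfold xc
      rw [Fin.insertNth_apply_succAbove, map_add, constantCoeff_iS, h0, TensorProduct.zero_tmul,
        zero_add, MvPowerSeries.algebraMap_apply, MvPowerSeries.constantCoeff_C]
  induction F using MvPolynomial.induction_on with
  | C a =>
    rw [← algebraMap_eq, AlgHom.commutes, MvPowerSeries.algebraMap_apply,
      MvPowerSeries.constantCoeff_C, algebraMap_eq, eval_C]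
  | add p p' hp hp' => rw [map_add, map_add, map_add, map_add, hp, hp']
  | mul_X p i hp => rw [map_mul, map_mul, map_mul, map_mul, hp, aeval_X, eval_X, hx]

end SI

end MPb07157
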