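import Pool.Agent.Lib.MP_b07157_agI.ClsDef
import Pool.Agent.Lib.MP_b07157_agE.EB

/-!
# The initial form lemma

If `b(s) f^s ∈ D[s] f^{s+1}` and `P` is the initial form of `f`, then `b(s) P^s` is a sum of
derivatives of elements of `ℂ[s][x][1/P] P^s`.
-/

noncomputable section

namespace MPb07157.SI

open MvPolynomial

variable {n : ℕ}

/-! ### Homogeneous components -/

/-- The homogeneous component of degree `k`. -/
def hc (k : ℤ) (G : MvPowerSeries (Fin n) ℂ) : MvPowerSeries (Fin n) ℂ :=
  fun m => if (m.degree : ℤ) = k then MvPowerSeries.coeff m G else 0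

theorem coeff_hc (k : ℤ) (G : MvPowerSeries (Fin n) ℂ) (m : Fin n →₀ ℕ) :
    MvPowerSeries.coeff m (hc k G) =
      if (m.degree : ℤ) = k then MvPowerSeries.coeff m G else 0 := rfl

theorem hc_zero (k : ℤ) : hc k (0 : MvPowerSeries (Fin n) ℂ) = 0 := by
  ext m
  rw [coeff_hc]
  simp

theorem hc_add (k : ℤ) (G H : MvPowerSeries (Fin n) ℂ) : hc k (G + H) = hc k G + hc k H := by
  ext m
  rw [coeff_hc, map_add, map_add, coeff_hc, coeff_hc]
  split_ifs <;> simp

theorem hc_sum {ι : Type} (k : ℤ) (s : Finset ι) (G : ι → MvPowerSeries (Fin n) ℂ) :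
    hc k (∑ i ∈ s, G i) = ∑ i ∈ s, hc k (G i) := by
  classical
  induction s using Finset.induction_on with
  | empty => simp [hc_zero]
  | insert a s ha ih => rw [Finset.sum_insert ha, Finset.sum_insert ha, hc_add, ih]

theorem hc_pderiv (k : ℤ) (i : Fin n) (G : MvPowerSeries (Fin n) ℂ) :
    hc k (MvPowerSeries.pderiv ℂ i G) = MvPowerSeries.pderiv ℂ i (hc (k + 1) G) := by
  ext m
  rw [coeff_hc, MvPowerSeries.coeff_pderiv, MvPowerSeries.coeff_pderiv, coeff_hc]
  have h1 : (m + Finsupp.single i 1).degree = m.degree + 1 := by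
    rw [map_add, Finsupp.degree_single]
  rw [h1]
  push_cast
  by_cases h : (m.degree : ℤ) = k
  · rw [if_pos h, if_pos (by rw [h])]
  · rw [if_neg h, if_neg (fun h2 => h (by linarith)), zero_mul]

/-- The Cauchy product of homogeneous components. -/
theorem hc_mul (c G : MvPowerSeries (Fin n) ℂ) (k : ℤ) (J : ℕ)
    (h : ∀ l : ℤ, l < k - J → hc l G = 0) :
    hc k (c * G) = ∑ j ∈ Finset.range (J + 1), hc (j : ℤ) c * hc (k - j) G := by
  classical
  ext m
  rw [coeff_hc, map_sum]
  simp only [MvPowerSeries.coeff_mul, coeff_hc]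
  rw [Finset.sum_comm]
  by_cases hk : (m.degree : ℤ) = k
  · rw [if_pos hk]
    refine Finset.sum_congr rfl fun p hp => ?_
    have hp1 : p.1 + p.2 = m := Finset.HasAntidiagonal.mem_antidiagonal.1 hp
    have hdeg : (p.1.degree : ℤ) + p.2.degree = k := by
      rw [← hk, ← hp1, map_add]
      push_cast
      ring
    by_cases hJ : p.1.degree ≤ J
    · rw [Finset.sum_eq_single p.1.degree]
      · rw [if_pos rfl, if_pos (by linarith)]
      · intro j _ hj
        rw [if_neg (fun h1 => hj (by exact_mod_cast h1.symm)), zero_mul]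
      · intro h1
        exact absurd (Finset.mem_range.2 (Nat.lt_succ_of_le hJ)) h1
    · have h2 : MvPowerSeries.coeff p.2 G = 0 := by
        have h3 := h (p.2.degree : ℤ) (by push Not at hJ; omega)
        have h4 := congrArg (MvPowerSeries.coeff p.2) h3
        rw [coeff_hc, if_pos rfl, map_zero] at h4
        exact h4
      rw [h2, mul_zero]
      symm
      refine Finset.sum_eq_zero fun j _ => ?_
      rw [ite_self, mul_zero]
  · rw [if_neg hk]
    symm
    refine Finset.sum_eq_zero fun p hp => Finset.sum_eq_zero fun j _ => ?_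
    have hp1 : p.1 + p.2 = m := Finset.HasAntidiagonal.mem_antidiagonal.1 hp
    by_cases h1 : (p.1.degree : ℤ) = j
    · by_cases h2 : (p.2.degree : ℤ) = k - j
      · exfalso
        apply hk
        rw [← hp1, map_add]
        push_cast
        linarith
      · rw [if_neg h2, mul_zero]
    · rw [if_neg h1, zero_mul]

theorem hc_eq_zero_of_le_order {G : MvPowerSeries (Fin n) ℂ} {a : ℕ} (h : (a : ℕ∞) ≤ G.order)
    {k : ℤ} (hk : k < a) : hc k G = 0 := by
  ext m
  rw [coeff_hc, map_zero]
  split_ifs with h1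
  · refine MvPowerSeries.coeff_of_lt_order (lt_of_lt_of_le ?_ h)
    have : m.degree < a := by omega
    exact_mod_cast this
  · rfl

/-- A homogeneous power series. -/
def IsHc (d : ℕ) (P : MvPowerSeries (Fin n) ℂ) : Prop := ∀ m, m.degree ≠ d → MvPowerSeries.coeff m P = 0

theorem IsHc.hc_mul {d : ℕ} {P : MvPowerSeries (Fin n) ℂ} (hP : IsHc d P) (k : ℤ)
    (G : MvPowerSeries (Fin n) ℂ) : hc k (P * G) = P * hc (k - d) G := by
  classical
  ext m
  rw [coeff_hc, MvPowerSeries.coeff_mul, MvPowerSeries.coeff_mul]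
  by_cases hk : (m.degree : ℤ) = k
  · rw [if_pos hk]
    refine Finset.sum_congr rfl fun p hp => ?_
    have hp1 : p.1 + p.2 = m := Finset.HasAntidiagonal.mem_antidiagonal.1 hp
    have hdeg : (p.1.degree : ℤ) + p.2.degree = k := by
      rw [← hk, ← hp1, map_add]
      push_cast
      ring
    rw [coeff_hc]
    by_cases h1 : p.1.degree = d
    · rw [if_pos (by omega)]
    · rw [hP _ h1, zero_mul, zero_mul]
  · rw [if_neg hk]
    symm
    refine Finset.sum_eq_zero fun p hp => ?_
    have hp1 : p.1 + p.2 = m := Finset.HasAntidiagonal.mem_antidiagonal.1 hp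
    rw [coeff_hc]
    by_cases h1 : p.1.degree = d
    · rw [if_neg, mul_zero]
      intro h2
      apply hk
      rw [← hp1, map_add]
      push_cast
      omega
    · rw [hP _ h1, zero_mul]

theorem IsHc.pow {d : ℕ} {P : MvPowerSeries (Fin n) ℂ} (hP : IsHc d P) (a : ℕ) :
    IsHc (d * a) (P ^ a) := by
  classical
  induction a with
  | zero =>
    intro m hm
    rw [pow_zero, MvPowerSeries.coeff_one, if_neg]
    rintro rfl
    simp at hm
  | succ a ih =>
    intro m hm
    rw [pow_succ, MvPowerSeries.coeff_mul]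
    refine Finset.sum_eq_zero fun p hp => ?_
    have hp1 : p.1 + p.2 = m := Finset.HasAntidiagonal.mem_antidiagonal.1 hp
    by_cases h1 : p.1.degree = d * a
    · rw [hP p.2 ?_, mul_zero]
      intro h2
      apply hm
      rw [← hp1, map_add, h1, h2]
      ring
    · rw [ih _ h1, zero_mul]

/-- A polynomial with prescribed coefficients in degree `k`. -/
theorem exists_homog {R : Type} [CommRing R] (k : ℕ) (a : (Fin n →₀ ℕ) → R) :
    ∃ p : MvPolynomial (Fin n) R, p.IsHomogeneous k ∧
      ∀ m, MvPolynomial.coeff m p = if m.degree = k then a m else 0 := by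
  classical
  set s : Finset (Fin n →₀ ℕ) := Finset.finsuppAntidiag Finset.univ k with hs
  have hmem : ∀ m : Fin n →₀ ℕ, m ∈ s ↔ m.degree = k := by
    intro m
    rw [hs, Finset.mem_finsuppAntidiag, Finsupp.degree_eq_sum]
    simp
  refine ⟨∑ m ∈ s, monomial m (a m), ?_, fun m => ?_⟩
  · refine MvPolynomial.IsHomogeneous.sum _ _ _ fun m hm => ?_
    exact isHomogeneous_monomial _ ((hmem m).1 hm)
  · rw [coeff_sum]
    simp only [coeff_monomial]
    by_cases h : m.degree = k
    · rw [if_pos h, Finset.sum_eq_single m]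
      · rw [if_pos rfl]
      · intro m' _ h'
        rw [if_neg h']
      · intro h'
        exact absurd ((hmem m).2 h) h'
    · rw [if_neg h]
      refine Finset.sum_eq_zero fun m' hm' => ?_
      rw [if_neg]
      rintro rfl
      exact h ((hmem _).1 hm')

/-! ### Polynomials in `q` -/

/-- Value at `s = q`, as a power series. -/
def evs (q : ℕ) : MvPolynomial (Fin n) (Polynomial ℂ) →+* MvPowerSeries (Fin n) ℂ :=
  (MvPolynomial.coeToMvPowerSeries.ringHom (σ := Fin n) (R := ℂ)).comp
    (MvPolynomial.map (Polynomial.evalRingHom (q : ℂ)))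

theorem coeff_evs (q : ℕ) (θ : MvPolynomial (Fin n) (Polynomial ℂ)) (m : Fin n →₀ ℕ) :
    MvPowerSeries.coeff m (evs q θ) = (MvPolynomial.coeff m θ).eval (q : ℂ) := by
  unfold evs
  rw [RingHom.comp_apply, MvPolynomial.coeToMvPowerSeries.ringHom_apply, MvPolynomial.coeff_coe,
    MvPolynomial.coeff_map]
  rfl

theorem evs_pderiv (q : ℕ) (i : Fin n) (θ : MvPolynomial (Fin n) (Polynomial ℂ)) :
    MvPowerSeries.pderiv ℂ i (evs q θ) = evs q (pderiv i θ) := by
  ext m
  rw [MvPowerSeries.coeff_pderiv, coeff_evs, coeff_evs, MvPolynomial.coeff_pderiv,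
    Polynomial.eval_mul]
  simp

theorem evs_liftS (q : ℕ) (P : MvPolynomial (Fin n) ℂ) :
    evs q (liftS P) = (P : MvPowerSeries (Fin n) ℂ) := by
  ext m
  rw [coeff_evs, MvPolynomial.coeff_coe]
  unfold liftS
  rw [MvPolynomial.coeff_map, Polynomial.eval_C]

theorem evs_C (q : ℕ) (b : Polynomial ℂ) :
    evs q (C b : MvPolynomial (Fin n) (Polynomial ℂ)) = MvPowerSeries.C (b.eval (q : ℂ)) := by
  classical
  ext m
  rw [coeff_evs, MvPolynomial.coeff_C, MvPowerSeries.coeff_C]
  by_cases h : m = 0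
  · rw [if_pos h, if_pos h.symm]
  · rw [if_neg h, if_neg (Ne.symm h), Polynomial.eval_zero]

/-! ### Sums of derivatives of `θ(q) P^{q-N}` -/

/-- Sums of `∂^β (θ(q) P^{q-N})` with `|β| ≥ m`. -/
inductive DD (P : MvPowerSeries (Fin n) ℂ) : ℕ → (ℕ → MvPowerSeries (Fin n) ℂ) → Prop
  | base (N : ℕ) (θ : MvPolynomial (Fin n) (Polynomial ℂ)) :
      DD P 0 (fun q => evs q θ * P ^ (q - N))
  | deriv {m h} (i : Fin n) : DD P m h → DD P (m + 1) (fun q => MvPowerSeries.pderiv ℂ i (h q))
  | add {m h g} : DD P m h → DD P m g → DD P m (fun q => h q + g q)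
  | zero (m : ℕ) : DD P m (fun _ => 0)
  | mono {m h} : DD P (m + 1) h → DD P m h

namespace DD

variable {P : MvPowerSeries (Fin n) ℂ}

theorem le {m l : ℕ} {h : ℕ → MvPowerSeries (Fin n) ℂ} (hh : DD P m h) (hl : l ≤ m) :
    DD P l h := by
  obtain ⟨k, rfl⟩ := Nat.exists_eq_add_of_le hl
  induction k with
  | zero => exact hh
  | succ k ih => exact ih hh.mono (by omega)

theorem sum {ι : Type} {m : ℕ} (s : Finset ι) {h : ι → ℕ → MvPowerSeries (Fin n) ℂ}
    (hh : ∀ i ∈ s, DD P m (h i)) : DD P m (fun q => ∑ i ∈ s, h i q) := by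
  classical
  induction s using Finset.induction_on with
  | empty => simpa using DD.zero m
  | insert a s ha ih =>
    simp only [Finset.sum_insert ha]
    exact (hh a (Finset.mem_insert_self a s)).add
      (ih fun i hi => hh i (Finset.mem_insert_of_mem hi))

theorem mul {m : ℕ} {h : ℕ → MvPowerSeries (Fin n) ℂ} (hh : DD P m h) :
    ∀ (j : ℕ) (c : MvPolynomial (Fin n) (Polynomial ℂ)), c.IsHomogeneous j →
      DD P (m - j) (fun q => evs q c * h q) := by
  induction hh with
  | base N θ =>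
    intro j c _
    rw [Nat.zero_sub]
    have h1 := DD.base (P := P) N (c * θ)
    simpa only [map_mul, mul_assoc] using h1
  | @deriv m h i hh ih =>
    intro j c hc
    have e : (fun q : ℕ => evs q c * MvPowerSeries.pderiv ℂ i (h q)) =
        fun q : ℕ => MvPowerSeries.pderiv ℂ i (evs q c * h q) + evs q (-pderiv i c) * h q := by
      funext q
      rw [Derivation.leibniz, smul_eq_mul, smul_eq_mul, evs_pderiv, map_neg]
      ring
    rw [e]
    have h1 : DD P (m + 1 - j) (fun q => MvPowerSeries.pderiv ℂ i (evs q c * h q)) :=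
      ((ih j c hc).deriv i).le (by omega)
    refine h1.add ?_
    rcases Nat.eq_zero_or_pos j with rfl | hj
    · have h2 : pderiv i c = 0 := by
        have h3 := hc.totalDegree_le
        rw [totalDegree_eq_zero_iff_eq_C.1 (Nat.le_zero.1 h3), pderiv_C]
      rw [h2, neg_zero]
      simp only [map_zero, zero_mul]
      exact DD.zero _
    · have h2 : (-pderiv i c).IsHomogeneous (j - 1) := (hc.pderiv).neg
      exact (ih (j - 1) _ h2).le (by omega)
  | add _ _ ih1 ih2 =>
    intro j c hc
    have := (ih1 j c hc).add (ih2 j c hc)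
    simpa only [mul_add] using this
  | zero m =>
    intro j c _
    simp only [mul_zero]
    exact DD.zero _
  | mono _ ih =>
    intro j c hc
    exact (ih j c hc).le (by omega)

end DD

section Forms

variable {P : MvPolynomial (Fin n) ℂ}

/-- `∂_i (θ P^{q-N}) = θ' P^{q-N-1}`. -/
theorem deriv_base (i : Fin n) (N q : ℕ) (hq : N + 1 ≤ q)
    (θ : MvPolynomial (Fin n) (Polynomial ℂ)) :
    MvPowerSeries.pderiv ℂ i (evs q θ * (P : MvPowerSeries (Fin n) ℂ) ^ (q - N)) =
      evs q (liftS P * pderiv i θ + C (Polynomial.X - (N : Polynomial ℂ)) *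
        liftS (pderiv i P) * θ) * (P : MvPowerSeries (Fin n) ℂ) ^ (q - (N + 1)) := by
  obtain ⟨r, rfl⟩ := Nat.exists_eq_add_of_le hq
  have e1 : N + 1 + r - N = r + 1 := by omega
  have e2 : N + 1 + r - (N + 1) = r := by omega
  rw [e1, e2, Derivation.leibniz, Derivation.leibniz_pow, smul_eq_mul, smul_eq_mul, smul_eq_mul,
    evs_pderiv, Nat.add_sub_cancel, nsmul_eq_mul, map_add, map_mul, map_mul, map_mul, evs_liftS,
    evs_liftS, evs_C, MvPowerSeries.pderiv_coe]
  have e3 : (MvPowerSeries.C ((Polynomial.X - (N : Polynomial ℂ)).eval ((N + 1 + r : ℕ) : ℂ)) :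
      MvPowerSeries (Fin n) ℂ) = ((r + 1 : ℕ) : MvPowerSeries (Fin n) ℂ) := by
    rw [Polynomial.eval_sub, Polynomial.eval_X, Polynomial.eval_natCast, ← map_natCast
      (MvPowerSeries.C (σ := Fin n) (R := ℂ))]
    congr 1
    push_cast
    ring
  rw [e3]
  ring

theorem raise_base (N M q : ℕ) (hNM : N ≤ M) (hq : M ≤ q)
    (θ : MvPolynomial (Fin n) (Polynomial ℂ)) :
    evs q θ * (P : MvPowerSeries (Fin n) ℂ) ^ (q - N) =
      evs q (liftS P ^ (M - N) * θ) * (P : MvPowerSeries (Fin n) ℂ) ^ (q - M) := by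
  rw [map_mul, map_pow, evs_liftS]
  have : q - N = (M - N) + (q - M) := by omega
  rw [this, pow_add]
  ring

theorem DD.zero_form {m : ℕ} {h : ℕ → MvPowerSeries (Fin n) ℂ}
    (hh : DD (P : MvPowerSeries (Fin n) ℂ) m h) :
    ∃ (N : ℕ) (θ : MvPolynomial (Fin n) (Polynomial ℂ)), ∀ q ≥ N,
      h q = evs q θ * (P : MvPowerSeries (Fin n) ℂ) ^ (q - N) := by
  induction hh with
  | base N θ => exact ⟨N, θ, fun q _ => rfl⟩
  | deriv i _ ih =>
    obtain ⟨N, θ, h1⟩ := ih
    refine ⟨N + 1, liftS P * pderiv i θ + C (Polynomial.X - (N : Polynomial ℂ)) *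
        liftS (pderiv i P) * θ, fun q hq => ?_⟩
    beta_reduce
    rw [h1 q (by omega)]
    exact deriv_base i N q hq θ
  | add _ _ ih1 ih2 =>
    obtain ⟨N, θ, h1⟩ := ih1
    obtain ⟨M, η, h2⟩ := ih2
    refine ⟨max N M, liftS P ^ (max N M - N) * θ + liftS P ^ (max N M - M) * η, fun q hq => ?_⟩
    beta_reduce
    rw [h1 q (le_of_max_le_left hq), h2 q (le_of_max_le_right hq),
      raise_base N (max N M) q (le_max_left _ _) hq, raise_base M (max N M) q (le_max_right _ _) hq,
      map_add, add_mul]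
  | zero m => exact ⟨0, 0, fun q _ => by rw [map_zero, zero_mul]⟩
  | mono _ ih => exact ih

theorem DD.deriv_form {m : ℕ} {h : ℕ → MvPowerSeries (Fin n) ℂ}
    (hh : DD (P : MvPowerSeries (Fin n) ℂ) m h) (hm : 0 < m) :
    ∃ (N : ℕ) (θ : Fin n → MvPolynomial (Fin n) (Polynomial ℂ)), ∀ q ≥ N,
      h q = ∑ i, MvPowerSeries.pderiv ℂ i
        (evs q (θ i) * (P : MvPowerSeries (Fin n) ℂ) ^ (q - N)) := by
  classical
  induction hh with
  | base N θ => exact absurd hm (lt_irrefl 0)
  | @deriv m h i hh _ =>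
    obtain ⟨N, θ, h1⟩ := hh.zero_form
    refine ⟨N, Pi.single i θ, fun q hq => ?_⟩
    beta_reduce
    rw [Finset.sum_eq_single i]
    · rw [Pi.single_eq_same, h1 q hq]
    · intro j _ hj
      rw [Pi.single_eq_of_ne hj, map_zero, zero_mul, map_zero]
    · intro h2
      exact absurd (Finset.mem_univ i) h2
  | add _ _ ih1 ih2 =>
    obtain ⟨N, θ, h1⟩ := ih1 hm
    obtain ⟨M, η, h2⟩ := ih2 hm
    refine ⟨max N M, fun i => liftS P ^ (max N M - N) * θ i + liftS P ^ (max N M - M) * η i,
      fun q hq => ?_⟩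
    beta_reduce
    rw [h1 q (le_of_max_le_left hq), h2 q (le_of_max_le_right hq), ← Finset.sum_add_distrib]
    refine Finset.sum_congr rfl fun i _ => ?_
    rw [raise_base N (max N M) q (le_max_left _ _) hq, raise_base M (max N M) q
      (le_max_right _ _) hq, map_add, add_mul, map_add]
  | zero m => exact ⟨0, 0, fun q _ => by simp⟩
  | mono _ ih => exact ih (by omega)

end Forms

/-! ### Good families -/

/-- The components of degree `d q + e` are sums of derivatives of order at least `d - e`. -/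
structure Good (P : MvPowerSeries (Fin n) ℂ) (d : ℕ) (Φ : ℕ → MvPowerSeries (Fin n) ℂ) :
    Prop where
  low : ∃ E : ℕ, ∀ (q : ℕ) (k : ℤ), k < d * q - E → hc k (Φ q) = 0
  comp : ∀ e : ℤ, ∃ h, DD P ((d : ℤ) - e).toNat h ∧
    ∃ q₀ : ℕ, ∀ q ≥ q₀, hc ((d : ℤ) * q + e) (Φ q) = h q

namespace Good

variable {P : MvPowerSeries (Fin n) ℂ} {d : ℕ} {Φ Ψ : ℕ → MvPowerSeries (Fin n) ℂ}

theorem add (h1 : Good P d Φ) (h2 : Good P d Ψ) : Good P d (fun q => Φ q + Ψ q) := by
  obtain ⟨⟨E1, l1⟩, c1⟩ := h1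
  obtain ⟨⟨E2, l2⟩, c2⟩ := h2
  refine ⟨⟨max E1 E2, fun q k hk => ?_⟩, fun e => ?_⟩
  · rw [hc_add, l1 q k (by push_cast at hk; have := le_max_left (E1 : ℤ) E2; omega),
      l2 q k (by push_cast at hk; have := le_max_right (E1 : ℤ) E2; omega), add_zero]
  · obtain ⟨g1, d1, q1, e1⟩ := c1 e
    obtain ⟨g2, d2, q2, e2⟩ := c2 e
    refine ⟨_, d1.add d2, max q1 q2, fun q hq => ?_⟩
    rw [hc_add, e1 q (le_of_max_le_left hq), e2 q (le_of_max_le_right hq)]

theorem deriv (h1 : Good P d Φ) (i : Fin n) :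
    Good P d (fun q => MvPowerSeries.pderiv ℂ i (Φ q)) := by
  obtain ⟨⟨E1, l1⟩, c1⟩ := h1
  refine ⟨⟨E1 + 1, fun q k hk => ?_⟩, fun e => ?_⟩
  · rw [hc_pderiv, l1 q (k + 1) (by push_cast at hk; omega), map_zero]
  · obtain ⟨g1, d1, q1, e1⟩ := c1 (e + 1)
    refine ⟨_, (d1.deriv i).le (by omega), q1, fun q hq => ?_⟩
    rw [hc_pderiv, ← e1 q hq, add_assoc]

/-- The components of a polynomial in `q` with coefficients in `ℂ[[x]]`. -/
theorem exists_comp (c : Polynomial (MvPowerSeries (Fin n) ℂ)) (j : ℕ) :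
    ∃ θ : MvPolynomial (Fin n) (Polynomial ℂ), θ.IsHomogeneous j ∧ ∀ q : ℕ,
      hc (j : ℤ) (c.eval (q : MvPowerSeries (Fin n) ℂ)) = evs q θ := by
  obtain ⟨θ, h1, h2⟩ := exists_homog (n := n) j
    (fun m => ∑ l ∈ c.support, Polynomial.monomial l (MvPowerSeries.coeff m (c.coeff l)))
  refine ⟨θ, h1, fun q => ?_⟩
  ext m
  rw [coeff_hc, coeff_evs, h2]
  by_cases h : m.degree = j
  · rw [if_pos (by exact_mod_cast h), if_pos h, Polynomial.eval_eq_sum, Polynomial.sum_def,
      map_sum, Polynomial.eval_finsetSum]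
    refine Finset.sum_congr rfl fun l _ => ?_
    rw [Polynomial.eval_monomial]
    have h3 : ((q : MvPowerSeries (Fin n) ℂ)) ^ l = MvPowerSeries.C ((q : ℂ) ^ l) := by
      rw [map_pow, map_natCast]
    rw [h3, MvPowerSeries.coeff_mul_C]
  · rw [if_neg (by exact_mod_cast h), if_neg h, Polynomial.eval_zero]

theorem mul (h1 : Good P d Φ) (c : Polynomial (MvPowerSeries (Fin n) ℂ)) :
    Good P d (fun q => c.eval (q : MvPowerSeries (Fin n) ℂ) * Φ q) := by
  classical
  obtain ⟨⟨E, l1⟩, c1⟩ := h1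
  refine ⟨⟨E, fun q k hk => ?_⟩, fun e => ?_⟩
  · rw [hc_mul _ _ k 0 (fun l hl => l1 q l (by push_cast at hl; omega))]
    simp only [Finset.range_one, Finset.sum_singleton, Nat.cast_zero, sub_zero, zero_add]
    rw [l1 q k hk, mul_zero]
  · choose θ hθ1 hθ2 using exists_comp c
    choose h hh q0 hq0 using fun j : ℕ => c1 (e - j)
    refine ⟨fun q => ∑ j ∈ Finset.range ((e + E).toNat + 1), evs q (θ j) * h j q, ?_,
      (Finset.range ((e + E).toNat + 1)).sup q0, fun q hq => ?_⟩
    · refine DD.sum _ fun j _ => ?_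
      refine ((hh j).mul j (θ j) (hθ1 j)).le ?_
      omega
    · rw [hc_mul _ _ _ (e + E).toNat (fun l hl => l1 q l (by omega))]
      refine Finset.sum_congr rfl fun j hj => ?_
      rw [hθ2, ← hq0 j q (le_trans (Finset.le_sup hj) hq)]
      congr 2
      ring

end Good

theorem IsHc.le_order {d : ℕ} {P : MvPowerSeries (Fin n) ℂ} (hP : IsHc d P) :
    (d : ℕ∞) ≤ P.order := by
  refine MvPowerSeries.le_order fun m hm => hP m ?_
  have : m.degree < d := by exact_mod_cast hm
  omega

/-- `q ↦ binomial (q+1, m)` as a polynomial. -/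
def chP (m : ℕ) : Polynomial ℂ :=
  Polynomial.C ((m.factorial : ℂ)⁻¹) * (descPochhammer ℂ m).comp (Polynomial.X + 1)

theorem eval_chP (m q : ℕ) : (chP m).eval (q : ℂ) = ((q + 1).choose m : ℂ) := by
  unfold chP
  rw [Polynomial.eval_mul, Polynomial.eval_C, Polynomial.eval_comp, Polynomial.eval_add,
    Polynomial.eval_X, Polynomial.eval_one]
  have h1 : ((q : ℂ) + 1) = ((q + 1 : ℕ) : ℂ) := by push_cast; ring
  rw [h1, descPochhammer_eval_eq_descFactorial, Nat.descFactorial_eq_factorial_mul_choose]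
  have h2 : (m.factorial : ℂ) ≠ 0 := by exact_mod_cast m.factorial_ne_zero
  push_cast
  field_simp

theorem good_pow {F : MvPowerSeries (Fin n) ℂ} {P : MvPolynomial (Fin n) ℂ} {d : ℕ}
    (hP : IsHc d (P : MvPowerSeries (Fin n) ℂ))
    (hR : ((d + 1 : ℕ) : ℕ∞) ≤ (F - P).order) :
    Good (P : MvPowerSeries (Fin n) ℂ) d (fun q => F ^ (q + 1)) := by
  classical
  set R : MvPowerSeries (Fin n) ℂ := F - P with hRdef
  have hF : F = R + P := by rw [hRdef]; ring
  have hFo : (d : ℕ∞) ≤ F.order := by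
    rw [hF]
    refine le_trans (le_min ?_ hP.le_order) MvPowerSeries.min_order_le_add
    refine le_trans ?_ hR
    exact_mod_cast Nat.le_succ d
  have hpow : ∀ (G : MvPowerSeries (Fin n) ℂ) (a m : ℕ), (a : ℕ∞) ≤ G.order →
      ((a * m : ℕ) : ℕ∞) ≤ (G ^ m).order := by
    intro G a m h
    refine le_trans ?_ (MvPowerSeries.le_order_pow m)
    rw [nsmul_eq_mul, mul_comm a m]
    push_cast
    exact mul_le_mul_right h _
  refine ⟨⟨0, fun q k hk => ?_⟩, fun e => ?_⟩
  · refine hc_eq_zero_of_le_order (hpow F d (q + 1) hFo) ?_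
    push_cast at hk ⊢
    have : (0 : ℤ) ≤ d := by positivity
    linarith
  · by_cases he : e < d
    · refine ⟨_, DD.zero _, 0, fun q _ => ?_⟩
      refine hc_eq_zero_of_le_order (hpow F d (q + 1) hFo) ?_
      push_cast
      linarith
    · obtain ⟨j, rfl⟩ : ∃ j : ℕ, e = d + j := ⟨(e - d).toNat, by omega⟩
      choose θ hθ1 hθ2 using fun m : ℕ => Good.exists_comp (n := n)
        (Polynomial.C (R ^ m)) (j + d * m)
      refine ⟨fun q => ∑ m ∈ Finset.range (j + 1),
        evs q (C (chP m) * liftS P * θ m) * (P : MvPowerSeries (Fin n) ℂ) ^ (q - m), ?_, j,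
        fun q hq => ?_⟩
      · refine DD.sum _ fun m _ => ?_
        have e1 : ((d : ℤ) - (d + j)).toNat = 0 := by omega
        rw [e1]
        exact DD.base m _
      · have key : ∀ m ∈ Finset.range (q + 2),
            hc ((d : ℤ) * q + (d + j)) (R ^ m * (P : MvPowerSeries (Fin n) ℂ) ^ (q + 1 - m) *
              ((q + 1).choose m : MvPowerSeries (Fin n) ℂ)) =
            MvPowerSeries.C ((q + 1).choose m : ℂ) *
              ((P : MvPowerSeries (Fin n) ℂ) ^ (q + 1 - m) * hc ((j + d * m : ℕ) : ℤ) (R ^ m)) := by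
          intro m hm
          have hm' : m ≤ q + 1 := by have := Finset.mem_range.1 hm; omega
          have e1 : R ^ m * (P : MvPowerSeries (Fin n) ℂ) ^ (q + 1 - m) *
              ((q + 1).choose m : MvPowerSeries (Fin n) ℂ) =
              MvPowerSeries.C ((q + 1).choose m : ℂ) *
                ((P : MvPowerSeries (Fin n) ℂ) ^ (q + 1 - m) * R ^ m) := by
            rw [map_natCast]
            ring
          have hC : IsHc 0 (MvPowerSeries.C ((q + 1).choose m : ℂ) :
              MvPowerSeries (Fin n) ℂ) := by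
            intro l hl
            rw [MvPowerSeries.coeff_C, if_neg]
            rintro rfl
            simp at hl
          rw [e1, hC.hc_mul, (hP.pow (q + 1 - m)).hc_mul]
          congr 3
          push_cast [Nat.cast_sub hm']
          ring
        beta_reduce
        rw [hF, add_pow, hc_sum, Finset.sum_congr rfl key]
        symm
        have hsub : Finset.range (j + 1) ⊆ Finset.range (q + 2) :=
          Finset.range_subset_range.2 (by omega)
        rw [← Finset.sum_subset hsub]
        · refine Finset.sum_congr rfl fun m hm => ?_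
          have hm' : m ≤ q := by have := Finset.mem_range.1 hm; omega
          have e2 : q + 1 - m = (q - m) + 1 := by omega
          have e3 := hθ2 m q
          rw [Polynomial.eval_C] at e3
          rw [map_mul, map_mul, evs_C, evs_liftS, eval_chP, ← e3, e2, pow_succ]
          ring
        · intro m _ hm
          have hm' : j + 1 ≤ m := by
            by_contra h
            exact hm (Finset.mem_range.2 (by omega))
          rw [hc_eq_zero_of_le_order (hpow R (d + 1) m hR) (by push_cast; nlinarith), mul_zero,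
            mul_zero]

theorem good_dPow {F : MvPowerSeries (Fin n) ℂ} {P : MvPolynomial (Fin n) ℂ} {d : ℕ}
    (hP : IsHc d (P : MvPowerSeries (Fin n) ℂ))
    (hR : ((d + 1 : ℕ) : ℕ∞) ≤ (F - P).order) :
    ∀ (k : ℕ) (β : Fin n →₀ ℕ), β.degree = k →
      Good (P : MvPowerSeries (Fin n) ℂ) d (fun q => dPow β (F ^ (q + 1))) := by
  classical
  intro k
  induction k with
  | zero =>
    intro β hβ
    have h0 : β = 0 := (Finsupp.degree_eq_zero_iff β).1 hβ
    subst h0
    simp only [dPow_zero]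
    exact good_pow hP hR
  | succ k ih =>
    intro β hβ
    obtain ⟨i, hi⟩ : ∃ i, β i ≠ 0 := by
      by_contra h
      push Not at h
      have : β = 0 := Finsupp.ext h
      rw [this] at hβ
      simp at hβ
    have h1 : β = (β - Finsupp.single i 1) + Finsupp.single i 1 := by
      ext j
      simp only [Finsupp.coe_add, Finsupp.coe_tsub, Pi.add_apply, Pi.sub_apply]
      rcases eq_or_ne j i with rfl | hj
      · rw [Finsupp.single_eq_same]; omega
      · rw [Finsupp.single_eq_of_ne hj]; omega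
    have h2 : (β - Finsupp.single i 1).degree = k := by
      have := congrArg Finsupp.degree h1
      rw [map_add, Finsupp.degree_single, hβ] at this
      omega
    have h3 := (ih _ h2).deriv i
    rw [h1]
    simpa only [pderiv_dPow] using h3

theorem good_of_opVal {F : MvPowerSeries (Fin n) ℂ} {P : MvPolynomial (Fin n) ℂ} {d : ℕ}
    (hP : IsHc d (P : MvPowerSeries (Fin n) ℂ))
    (hR : ((d + 1 : ℕ) : ℕ∞) ≤ (F - P).order) {Φ : ℕ → MvPowerSeries (Fin n) ℂ}
    (h : OpVal F Φ) : Good (P : MvPowerSeries (Fin n) ℂ) d Φ := by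
  induction h with
  | base β => exact good_dPow hP hR _ β rfl
  | add _ _ ih1 ih2 => exact ih1.add ih2
  | mul c _ ih => exact ih.mul c

theorem order_pow_sub {F P : MvPowerSeries (Fin n) ℂ} {d : ℕ} (hP : IsHc d P)
    (hR : ((d + 1 : ℕ) : ℕ∞) ≤ (F - P).order) (q : ℕ) :
    ((d * q + 1 : ℕ) : ℕ∞) ≤ (F ^ q - P ^ q).order := by
  have hFo : (d : ℕ∞) ≤ F.order := by
    have hF : F = (F - P) + P := by ring
    rw [hF]
    refine le_trans (le_min ?_ hP.le_order) MvPowerSeries.min_order_le_add
    refine le_trans ?_ hR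
    exact_mod_cast Nat.le_succ d
  induction q with
  | zero => simp
  | succ q ih =>
    have e : F ^ (q + 1) - P ^ (q + 1) = F * (F ^ q - P ^ q) + (F - P) * P ^ q := by ring
    rw [e]
    refine le_trans (le_min ?_ ?_) MvPowerSeries.min_order_le_add
    · refine le_trans (le_trans ?_ (add_le_add hFo ih)) MvPowerSeries.le_order_mul
      exact_mod_cast (by ring_nf; omega : d * (q + 1) + 1 ≤ d + (d * q + 1))
    · refine le_trans (le_trans ?_ (add_le_add hR (hP.pow q).le_order)) MvPowerSeries.le_order_mul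
      exact_mod_cast (by ring_nf; omega : d * (q + 1) + 1 ≤ (d + 1) + d * q)

/-- **The initial form lemma.** -/
theorem cls_of_form {f : MvPolynomial (Fin n) ℂ} {d : ℕ} (hd : 0 < d)
    (hlow : ∀ k < d, homogeneousComponent k f = 0) {b : Polynomial ℂ}
    (hb : InDnForm f 1 (b.map (MvPowerSeries.C (σ := Fin n) (R := ℂ)))) :
    Cls (homogeneousComponent d f) d b := by
  classical
  set P : MvPolynomial (Fin n) ℂ := homogeneousComponent d f with hPdef
  by_cases hP0 : P = 0
  · refine ⟨0, 0, fun i => ?_, ?_⟩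
    · exact isHomogeneous_zero _ _ _
    · rw [hP0]
      simp [liftS]
  have hf : f ≠ 0 := by
    rintro rfl
    exact hP0 (by rw [hPdef, map_zero])
  have hcoeff : ∀ m : Fin n →₀ ℕ, m.degree < d → coeff m f = 0 := by
    intro m hm
    have h1 := congrArg (coeff m) (hlow m.degree hm)
    rw [coeff_homogeneousComponent, if_pos rfl, coeff_zero] at h1
    exact h1
  have hP : IsHc d (P : MvPowerSeries (Fin n) ℂ) := by
    intro m hm
    rw [MvPolynomial.coeff_coe, hPdef, coeff_homogeneousComponent, if_neg hm]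
  have hR : ((d + 1 : ℕ) : ℕ∞) ≤ ((f : MvPowerSeries (Fin n) ℂ) - P).order := by
    refine MvPowerSeries.le_order fun m hm => ?_
    have hm' : m.degree < d + 1 := by exact_mod_cast hm
    rw [map_sub, MvPolynomial.coeff_coe, MvPolynomial.coeff_coe, hPdef,
      coeff_homogeneousComponent]
    split_ifs with h
    · rw [sub_self]
    · rw [sub_zero, hcoeff m (by omega)]
  obtain ⟨Φ, hΦ, q₁, h1⟩ := hb.exists_opVal hf
  obtain ⟨h, hh, q₂, h2⟩ := (good_of_opVal hP hR hΦ).comp 0
  rw [sub_zero, Int.toNat_natCast] at hh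
  obtain ⟨N, θ, h3⟩ := hh.deriv_form hd
  choose η hη1 hη2 using fun i : Fin n => exists_homog (n := n) (d * N + 1)
    (fun m => MvPolynomial.coeff m (θ i))
  refine ⟨N, η, hη1, ?_⟩
  -- the identity at large integers
  have key : ∀ q : ℕ, max (max q₁ q₂) (N + 1) ≤ q →
      evs q (C b * liftS P ^ (N + 1)) = evs q (∑ i, (liftS P * pderiv i (η i) +
        C (Polynomial.X - (N : Polynomial ℂ)) * liftS (pderiv i P) * η i)) := by
    intro q hq
    have hq1 : q₁ ≤ q := le_trans (le_trans (le_max_left _ _) (le_max_left _ _)) hq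
    have hq2 : q₂ ≤ q := le_trans (le_trans (le_max_right _ _) (le_max_left _ _)) hq
    have hq3 : N + 1 ≤ q := le_trans (le_max_right _ _) hq
    have e1 := (h1 q hq1).2
    have e2 := h2 q hq2
    have e3 := h3 q (by omega)
    rw [add_zero] at e2
    have hCC : ∀ c : ℂ, IsHc 0 (MvPowerSeries.C c : MvPowerSeries (Fin n) ℂ) := by
      intro c l hl
      rw [MvPowerSeries.coeff_C, if_neg]
      rintro rfl
      simp at hl
    have hcPow : ∀ a : ℕ, hc ((d : ℤ) * a) ((P : MvPowerSeries (Fin n) ℂ) ^ a) =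
        (P : MvPowerSeries (Fin n) ℂ) ^ a := by
      intro a
      ext m
      rw [coeff_hc]
      split_ifs with hm
      · rfl
      · refine ((hP.pow a) m fun h => hm ?_).symm
        rw [h]
        push_cast
        ring
    have e4 : hc ((d : ℤ) * q) (Φ q) = MvPowerSeries.C (b.eval (q : ℂ)) *
        (P : MvPowerSeries (Fin n) ℂ) ^ q := by
      rw [← e1, Nat.add_sub_cancel]
      have e5 : (b.map (MvPowerSeries.C (σ := Fin n) (R := ℂ))).eval
          (q : MvPowerSeries (Fin n) ℂ) = MvPowerSeries.C (b.eval (q : ℂ)) := by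
        rw [← map_natCast (MvPowerSeries.C (σ := Fin n) (R := ℂ)), Polynomial.eval_map,
          Polynomial.eval₂_at_apply]
      rw [e5, (hCC _).hc_mul]
      congr 1
      -- the component of degree `d q` of `f ^ q`
      have hFq : hc ((d : ℤ) * q) ((f : MvPowerSeries (Fin n) ℂ) ^ q -
          (P : MvPowerSeries (Fin n) ℂ) ^ q) = 0 :=
        hc_eq_zero_of_le_order (order_pow_sub hP hR q) (by push_cast; linarith)
      have e6 := hc_add ((d : ℤ) * q) ((f : MvPowerSeries (Fin n) ℂ) ^ q -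
          (P : MvPowerSeries (Fin n) ℂ) ^ q) ((P : MvPowerSeries (Fin n) ℂ) ^ q)
      rw [hFq, sub_add_cancel, zero_add, hcPow] at e6
      simpa using e6
    have e7 : MvPowerSeries.C (b.eval (q : ℂ)) * (P : MvPowerSeries (Fin n) ℂ) ^ q =
        ∑ i, MvPowerSeries.pderiv ℂ i
          (evs q (η i) * (P : MvPowerSeries (Fin n) ℂ) ^ (q - N)) := by
      have e8 : hc ((d : ℤ) * q) (MvPowerSeries.C (b.eval (q : ℂ)) *
          (P : MvPowerSeries (Fin n) ℂ) ^ q) = MvPowerSeries.C (b.eval (q : ℂ)) *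
          (P : MvPowerSeries (Fin n) ℂ) ^ q := by
        rw [(hCC _).hc_mul]
        congr 1
        have := hcPow q
        simpa using this
      rw [← e8, ← e4, e2, e3, hc_sum]
      refine Finset.sum_congr rfl fun i _ => ?_
      rw [hc_pderiv, mul_comm (evs q (θ i)), (hP.pow (q - N)).hc_mul, mul_comm]
      congr 2
      ext m
      rw [coeff_hc, coeff_evs, coeff_evs, hη2]
      have e9 : ((d : ℤ) * q + 1 - ((d * (q - N) : ℕ) : ℤ)) = ((d * N + 1 : ℕ) : ℤ) := by
        push_cast [Nat.cast_sub (by omega : N ≤ q)]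
        ring
      rw [e9]
      by_cases hm : m.degree = d * N + 1
      · rw [if_pos (by exact_mod_cast hm), if_pos hm]
      · rw [if_neg (by exact_mod_cast hm), if_neg hm, Polynomial.eval_zero]
    have hPne : (P : MvPowerSeries (Fin n) ℂ) ≠ 0 := by
      intro h0
      exact hP0 (MvPolynomial.coe_injective _ _ (by simpa using h0))
    refine mul_right_cancel₀ (pow_ne_zero (q - (N + 1)) hPne) ?_
    rw [map_mul, map_pow, evs_C, evs_liftS, mul_assoc, ← pow_add,
      (by omega : N + 1 + (q - (N + 1)) = q), e7, map_sum, Finset.sum_mul]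
    refine Finset.sum_congr rfl fun i _ => ?_
    exact deriv_base i N q hq3 (η i)
  refine MvPolynomial.ext _ _ fun m => ?_
  refine Polynomial.eq_of_infinite_eval_eq _ _ ?_
  refine Set.infinite_of_injective_forall_mem (f := fun k : ℕ =>
    ((max (max q₁ q₂) (N + 1) + k : ℕ) : ℂ)) ?_ ?_
  · intro a a' haa
    have haa' : ((max (max q₁ q₂) (N + 1) + a : ℕ) : ℂ) =
        ((max (max q₁ q₂) (N + 1) + a' : ℕ) : ℂ) := haa
    have : (max (max q₁ q₂) (N + 1) + a) = (max (max q₁ q₂) (N + 1) + a') :=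
      Nat.cast_injective haa'
    omega
  · intro k
    show Polynomial.eval _ _ = Polynomial.eval _ _
    rw [← coeff_evs, ← coeff_evs, key _ (by omega)]

end MPb07157.SI
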