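import Pool.Agent.Lib.MP_b07157_ag.Defs

/-!
# The class of `F^s` in the twisted de Rham cohomology of the complement, in families
-/

noncomputable section

namespace MPb07157.SI

open MvPolynomial

variable {n : ℕ}

/-- For `F` homogeneous of degree `d`: `b(s) F^s = ∑ ∂_i (θ_i F^{s-N})` with `θ_i ∈ ℂ[s][x]`
homogeneous of degree `d N + 1`. -/
def Cls (F : MvPolynomial (Fin n) ℂ) (d : ℕ) (b : Polynomial ℂ) : Prop :=
  ∃ (N : ℕ) (θ : Fin n → MvPolynomial (Fin n) (Polynomial ℂ)),
    (∀ i, (θ i).IsHomogeneous (d * N + 1)) ∧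
    C b * liftS F ^ (N + 1) = ∑ i, (liftS F * pderiv i (θ i) +
      C (Polynomial.X - (N : Polynomial ℂ)) * liftS (pderiv i F) * θ i)

end MPb07157.SI
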