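import Pool.Agent.Lib.MP_b07157_agH.HZ

/-!
# Superisolated germs: definitions
-/

noncomputable section

namespace MPb07157

open MvPolynomial

namespace SI

variable {n : ℕ}

/-- `f = f_d + f_{d+1} + ⋯` is superisolated: `f_d` is squarefree, and `f_{d+1}` does not vanish at
the singular points of the projective hypersurface `f_d = 0`. -/
structure IsSI (f : MvPolynomial (Fin n) ℂ) (d : ℕ) : Prop where
  low : ∀ j < d, homogeneousComponent j f = 0
  sqf : Squarefree (homogeneousComponent d f)
  sing : ∀ q : Fin n → ℂ, q ≠ 0 → (∀ j, eval q (pderiv j (homogeneousComponent d f)) = 0) →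
    eval q (homogeneousComponent (d + 1) f) ≠ 0

/-- `f(t^k x) / t^{dk}`, for a polynomial without terms of degree less than `d`. -/
def Gk (f : MvPolynomial (Fin n) ℂ) (d k : ℕ) (x : Fin n → PowerSeries ℂ) : PowerSeries ℂ :=
  ∑ j ∈ Finset.range (f.totalDegree + 1),
    PowerSeries.X ^ (k * j) * aeval x (homogeneousComponent (d + j) f)

/-- The arcs `δ` with base point in `W` such that `f(t^k δ) / t^{dk}` has order `i`. -/
def setK (f : MvPolynomial (Fin n) ℂ) (d k : ℕ) (W : Set (Fin n → ℂ)) (N i : ℕ) :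
    Set (Fin n × Fin (N + 1) → ℂ) :=
  {δ | (Gk f d k (arc δ)).order = (i : ℕ∞)} ∩ AtW W N

/-- The measure of the set `setK`. -/
def Mk (f : MvPolynomial (Fin n) ℂ) (d k : ℕ) (W : Set (Fin n → ℂ)) (N i : ℕ) : Mot :=
  ↑((LU ^ (n * (N + 1)))⁻¹) * clsM (setK f d k W N i)

/-- The germ at `q` of `F`, in the affine chart `x_{j₀} = 1`. -/
def gch (F : MvPolynomial (Fin (n + 1)) ℂ) (q : Fin (n + 1) → ℂ) (j₀ : Fin (n + 1)) :
    MvPolynomial (Fin n) ℂ :=
  aeval (j₀.insertNth (α := fun _ => MvPolynomial (Fin n) ℂ) 1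
    fun i => X i + C (q (j₀.succAbove i))) F

/-- The inverse of `L`. -/
def ell : Mot := ↑(LU⁻¹)

/-- The measures of the sets `setK` for a line of singular points; `y` are the coefficients of the
zeta function of the section. -/
def cK (n k : ℕ) (y : ℕ → Mot) (i : ℕ) : Mot :=
  if i < k then (1 - ell) * y i
  else if i = k then
    (1 - ell) * (ell ^ n - ∑ j ∈ Finset.range (k + 1), y j) + (1 - 2 * ell) * y k
  else (1 - ell) * ell ^ (i - k) * y k

end SI

end MPb07157
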