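import Pool.Agent.Lib.MP_b07157_agI.Defs
import Pool.Agent.Lib.MP_b07157_agI.Strata

/-!
# Superisolated germs: division of the arcs by powers of `t`
-/

noncomputable section

namespace MPb07157

open MvPolynomial

namespace SI

variable {n : ℕ}

theorem aeval_X_pow_mul {f : MvPolynomial (Fin n) ℂ} {d : ℕ}
    (hlow : ∀ j < d, homogeneousComponent j f = 0) (k : ℕ) (x : Fin n → PowerSeries ℂ) :
    aeval (fun i => PowerSeries.X ^ k * x i) f = PowerSeries.X ^ (d * k) * Gk f d k x := by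
  have h1 : ∀ j : ℕ, aeval (fun i => (PowerSeries.X : PowerSeries ℂ) ^ k * x i)
      (homogeneousComponent j f) =
      (PowerSeries.X ^ k) ^ j * aeval x (homogeneousComponent j f) := fun j =>
    aeval_mul_of_homog (homogeneousComponent_isHomogeneous j f) _ x
  have h2 : aeval (fun i => (PowerSeries.X : PowerSeries ℂ) ^ k * x i) f =
      ∑ j ∈ Finset.range (f.totalDegree + 1),
        (PowerSeries.X ^ k) ^ j * aeval x (homogeneousComponent j f) := by
    conv_lhs => rw [← sum_homogeneousComponent f]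
    rw [map_sum]
    exact Finset.sum_congr rfl fun j _ => h1 j
  have h3 : ∑ j ∈ Finset.range (f.totalDegree + 1),
        ((PowerSeries.X : PowerSeries ℂ) ^ k) ^ j * aeval x (homogeneousComponent j f) =
      ∑ j ∈ Finset.range (d + (f.totalDegree + 1)),
        ((PowerSeries.X : PowerSeries ℂ) ^ k) ^ j * aeval x (homogeneousComponent j f) := by
    refine Finset.sum_subset (fun j hj => ?_) fun j _ hj => ?_
    · rw [Finset.mem_range] at hj ⊢
      omega
    · rw [Finset.mem_range, not_lt] at hj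
      rw [homogeneousComponent_eq_zero j f (by omega), map_zero, mul_zero]
  rw [h2, h3, Finset.sum_range_add, Finset.sum_eq_zero fun j hj => by
    rw [hlow j (Finset.mem_range.1 hj), map_zero, mul_zero], zero_add]
  unfold Gk
  rw [Finset.mul_sum]
  refine Finset.sum_congr rfl fun j _ => ?_
  rw [← mul_assoc, ← pow_mul, ← pow_add]
  congr 2
  ring

/-- Division of an arc by `t ^ k`. -/
private def dnPoly (n m k : ℕ) (q : Fin n × Fin (m - k + 1)) :
    MvPolynomial (Fin n × Fin (m + 1)) ℂ :=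
  if h : (q.2 : ℕ) + k < m + 1 then X (q.1, ⟨(q.2 : ℕ) + k, h⟩) else 0

private theorem polyMap_dnPoly {m k : ℕ} (γ : Fin n × Fin (m + 1) → ℂ)
    (q : Fin n × Fin (m - k + 1)) :
    polyMap (dnPoly n m k) γ q =
      if h : (q.2 : ℕ) + k < m + 1 then γ (q.1, ⟨(q.2 : ℕ) + k, h⟩) else 0 := by
  unfold polyMap dnPoly
  split_ifs with h
  · rw [eval_X]
  · rw [map_zero]

/-- The jets whose first coefficient that does not vanish is the `k`-th one. -/
private def Sk (f : MvPolynomial (Fin n) ℂ) (m k : ℕ) : Set (Fin n × Fin (m + 1) → ℂ) :=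
  {γ | γ ∈ arcs f (m + 1) m ∧ (∀ q ∈ (Finset.univ : Finset (Fin n × Fin (m + 1))),
      (q.2 : ℕ) < k → γ q = 0) ∧
    ∃ q ∈ (Finset.univ : Finset (Fin n × Fin (m + 1))), (q.2 : ℕ) = k ∧ γ q ≠ 0}

private theorem isConstr_coord {σ : Type} (q : σ) : IsConstr {x : σ → ℂ | x q = 0} := by
  have := isConstr_eq_zero (X q : MvPolynomial σ ℂ)
  simpa only [eval_X] using this

private theorem isConstr_Sk (f : MvPolynomial (Fin n) ℂ) (m k : ℕ) : IsConstr (Sk f m k) := by
  unfold Sk
  refine isConstr_setOf_and (isConstr_arcs f (m + 1) m) (isConstr_setOf_and ?_ ?_)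
  · exact isConstr_forall_mem _ _ fun q _ => isConstr_setOf_imp (isConstr_const _)
      (isConstr_coord q)
  · exact isConstr_exists_mem _ _ fun q _ => isConstr_setOf_and (isConstr_const _)
      (isConstr_setOf_not (isConstr_coord q))

private theorem arc_dn {m k : ℕ} (hk : k ≤ m) {γ : Fin n × Fin (m + 1) → ℂ}
    (h : ∀ q : Fin n × Fin (m + 1), (q.2 : ℕ) < k → γ q = 0) :
    arc γ = fun i => PowerSeries.X ^ k * arc (polyMap (dnPoly n m k) γ) i := by
  funext i
  ext r
  rw [PowerSeries.coeff_X_pow_mul', coeff_arc]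
  by_cases hr : k ≤ r
  · rw [if_pos hr, coeff_arc]
    by_cases hr2 : r < m + 1
    · rw [dif_pos hr2, dif_pos (show r - k < m - k + 1 by omega), polyMap_dnPoly,
        dif_pos (show r - k + k < m + 1 by omega)]
      congr 2
      ext
      simp only
      omega
    · rw [dif_neg hr2, dif_neg (show ¬ r - k < m - k + 1 by omega)]
  · rw [if_neg hr]
    split_ifs with h2
    · exact h (i, ⟨r, h2⟩) (not_le.1 hr)
    · rfl

private theorem mem_Sk_iff {f : MvPolynomial (Fin n) ℂ} {d : ℕ}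
    (hlow : ∀ j < d, homogeneousComponent j f = 0) {m k : ℕ} (hk : k ≤ m)
    {γ : Fin n × Fin (m + 1) → ℂ} (h : ∀ q : Fin n × Fin (m + 1), (q.2 : ℕ) < k → γ q = 0) :
    γ ∈ Sk f m k ↔ d * k ≤ m ∧
      polyMap (dnPoly n m k) γ ∈ setK f d k {0}ᶜ (m - k) (m - d * k) := by
  have h1 : γ ∈ arcs f (m + 1) m ↔ d * k ≤ m ∧
      (Gk f d k (arc (polyMap (dnPoly n m k) γ))).order = ((m - d * k : ℕ) : ℕ∞) := by
    simp only [arcs, Set.mem_ofPred_eq]
    rw [arc_dn hk h, aeval_X_pow_mul hlow]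
    exact order_X_pow_mul_iff _
  have h2 : (∃ q ∈ (Finset.univ : Finset (Fin n × Fin (m + 1))), (q.2 : ℕ) = k ∧ γ q ≠ 0) ↔
      polyMap (dnPoly n m k) γ ∈ AtW ({0}ᶜ : Set (Fin n → ℂ)) (m - k) := by
    simp only [AtW, Set.mem_ofPred_eq, Set.mem_compl_iff, Set.mem_singleton_iff]
    rw [← Ne, Function.ne_iff]
    have h3 : ∀ i : Fin n, polyMap (dnPoly n m k) γ (i, 0) = γ (i, ⟨k, by omega⟩) := by
      intro i
      rw [polyMap_dnPoly, dif_pos (by simp only [Fin.val_zero]; omega)]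
      congr 2
      ext
      simp
    constructor
    · rintro ⟨⟨i, j⟩, -, hj, hγ⟩
      refine ⟨i, ?_⟩
      rw [h3]
      have hj' : j = ⟨k, by omega⟩ := by
        ext
        exact hj
      rw [← hj']
      exact hγ
    · rintro ⟨i, hi⟩
      rw [h3] at hi
      exact ⟨(i, ⟨k, by omega⟩), Finset.mem_univ _, rfl, hi⟩
  constructor
  · rintro ⟨g1, -, g3⟩
    obtain ⟨g4, g5⟩ := h1.1 g1
    exact ⟨g4, g5, h2.1 g3⟩
  · rintro ⟨g1, g2, g3⟩
    exact ⟨h1.2 ⟨g1, g2⟩, fun q _ => h q, h2.2 g3⟩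

/-- Multiplication of a jet by `t ^ k`. -/
private def upK {m k : ℕ} (δ : Fin n × Fin (m - k + 1) → ℂ) (q : Fin n × Fin (m + 1)) : ℂ :=
  if h : k ≤ (q.2 : ℕ) then δ (q.1, ⟨(q.2 : ℕ) - k, by omega⟩) else 0

private theorem cls_Sk {f : MvPolynomial (Fin n) ℂ} {d : ℕ}
    (hlow : ∀ j < d, homogeneousComponent j f = 0) {m k : ℕ} (hk : k ≤ m) :
    cls (Sk f m k) = if d * k ≤ m then cls (setK f d k {0}ᶜ (m - k) (m - d * k)) else 0 := by
  split_ifs with hd
  · refine cls_bijOn (isConstr_Sk f m k)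
      (isConstr_setK f d k (isConstr_point 0).compl (m - k) (m - d * k)) (dnPoly n m k) ⟨?_, ?_, ?_⟩
    · intro γ hγ
      exact ((mem_Sk_iff hlow hk fun q => hγ.2.1 q (Finset.mem_univ q)).1 hγ).2
    · intro γ hγ δ hδ h
      funext ⟨i, j⟩
      by_cases hj : (j : ℕ) < k
      · rw [hγ.2.1 _ (Finset.mem_univ _) hj, hδ.2.1 _ (Finset.mem_univ _) hj]
      · have h1 := congrFun h (i, ⟨(j : ℕ) - k, by omega⟩)
        have h2 : (j : ℕ) - k + k < m + 1 := by omega
        rw [polyMap_dnPoly, polyMap_dnPoly, dif_pos h2, dif_pos h2] at h1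
        have h3 : (⟨(j : ℕ) - k + k, h2⟩ : Fin (m + 1)) = j := by
          ext
          simp only
          omega
        rw [h3] at h1
        exact h1
    · intro δ hδ
      have h1 : polyMap (dnPoly n m k) (upK δ) = δ := by
        funext ⟨i, j⟩
        rw [polyMap_dnPoly, dif_pos (show (j : ℕ) + k < m + 1 by omega)]
        unfold upK
        rw [dif_pos (show k ≤ (j : ℕ) + k by omega)]
        congr 2
        ext
        simp
      have h2 : ∀ q : Fin n × Fin (m + 1), (q.2 : ℕ) < k → upK δ q = 0 := by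
        intro q hq
        unfold upK
        rw [dif_neg (not_le.2 hq)]
      refine ⟨upK δ, (mem_Sk_iff hlow hk h2).2 ⟨hd, ?_⟩, h1⟩
      rw [h1]
      exact hδ
  · have h1 : Sk f m k = ∅ := by
      rw [Set.eq_empty_iff_forall_notMem]
      intro γ hγ
      exact hd ((mem_Sk_iff hlow hk fun q => hγ.2.1 q (Finset.mem_univ q)).1 hγ).1
    rw [h1, cls_empty]

private theorem iUnion_Sk {f : MvPolynomial (Fin n) ℂ} {d : ℕ} (hd : 0 < d)
    (hlow : ∀ j < d, homogeneousComponent j f = 0) (m : ℕ) :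
    {γ ∈ arcs f (m + 1) m | ∀ i, γ (i, 0) = 0} = ⋃ k ∈ Finset.Icc 1 m, Sk f m k := by
  classical
  ext γ
  simp only [Set.mem_iUnion, exists_prop, Finset.mem_Icc]
  constructor
  · rintro ⟨h1, h2⟩
    have h3 : ∃ k, ∃ q : Fin n × Fin (m + 1), (q.2 : ℕ) = k ∧ γ q ≠ 0 := by
      by_contra hcon
      push Not at hcon
      have h4 : arc γ = fun i => PowerSeries.X ^ (m + 1) * (0 : Fin n → PowerSeries ℂ) i := by
        funext i
        rw [Pi.zero_apply, mul_zero]
        ext r
        rw [coeff_arc, map_zero]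
        split_ifs with hr
        · exact hcon r (i, ⟨r, hr⟩) rfl
        · rfl
      simp only [arcs, Set.mem_ofPred_eq] at h1
      rw [h4, aeval_X_pow_mul hlow, order_X_pow_mul_iff] at h1
      have h5 := h1.1
      have h6 : 1 * (m + 1) ≤ d * (m + 1) := Nat.mul_le_mul_right _ hd
      omega
    obtain ⟨q, hq1, hq2⟩ := Nat.find_spec h3
    have hmin : ∀ q : Fin n × Fin (m + 1), (q.2 : ℕ) < Nat.find h3 → γ q = 0 := by
      intro q' hq'
      by_contra hcon
      exact Nat.find_min h3 hq' ⟨q', rfl, hcon⟩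
    refine ⟨Nat.find h3, ⟨?_, ?_⟩, h1, fun q' _ => hmin q', q, Finset.mem_univ _, hq1, hq2⟩
    · by_contra hcon
      have h0 : Nat.find h3 = 0 := by omega
      apply hq2
      have h7 : q = (q.1, 0) := by
        ext
        · rfl
        · simp only [Fin.val_zero]
          omega
      rw [h7]
      exact h2 q.1
    · have := q.2.isLt
      omega
  · rintro ⟨k, ⟨hk1, hk2⟩, h1, h2, -⟩
    refine ⟨h1, fun i => h2 _ (Finset.mem_univ _) ?_⟩
    simp only [Fin.val_zero]
    omega

/-- The decomposition of the arcs at the origin according to their order `k`. -/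
theorem Zcoeff0_eq_sum {f : MvPolynomial (Fin n) ℂ} {d : ℕ} (hd : 0 < d)
    (hlow : ∀ j < d, homogeneousComponent j f = 0) (m : ℕ) :
    Zcoeff0 f m = ∑ k ∈ Finset.Icc 1 m, if d * k ≤ m then
      ell ^ (n * k) * Mk f d k {0}ᶜ (m - k) (m - d * k) else 0 := by
  have hdis : ∀ i ∈ Finset.Icc 1 m, ∀ j ∈ Finset.Icc 1 m, i ≠ j →
      Disjoint (Sk f m i) (Sk f m j) := by
    have key : ∀ i j : ℕ, i < j → Disjoint (Sk f m i) (Sk f m j) := by
      intro i j hij
      rw [Set.disjoint_left]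
      rintro γ ⟨-, -, q, -, hq1, hq2⟩ ⟨-, h2, -⟩
      exact hq2 (h2 q (Finset.mem_univ q) (by omega))
    intro i _ j _ hij
    rcases lt_or_gt_of_ne hij with h | h
    · exact key i j h
    · exact (key j i h).symm
  unfold Zcoeff0 clsM
  rw [iUnion_Sk hd hlow, cls_biUnion _ _ (fun k _ => isConstr_Sk f m k) hdis, map_sum,
    Finset.mul_sum]
  refine Finset.sum_congr rfl fun k hk => ?_
  obtain ⟨hk1, hk2⟩ := Finset.mem_Icc.1 hk
  rw [cls_Sk hlow hk2]
  split_ifs with h
  · unfold Mk clsM ell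
    rw [← mul_assoc, ← Units.val_pow_eq_pow_val, ← Units.val_mul]
    congr 2
    have h1 : n * (m + 1) = n * k + n * (m - k + 1) := by
      rw [← mul_add]
      congr 1
      omega
    rw [h1, pow_add, mul_inv, inv_pow]
  · rw [map_zero, mul_zero]

end SI

end MPb07157
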