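import Pool.Agent.Lib.MP_b07157_agI.Root

/-!
# Superisolated germs: the residues at the sections
-/

noncomputable section

namespace MPb07157

open MvPolynomial TensorProduct

namespace SI

/-- The form `z^{2 + ds} (1 + z)^s dz` is not exact, for `-1 < 3 + (d + 1) s < 0`. -/
theorem not_exact_beta {δ : Derivation ℂ (RatFunc ℂ) (RatFunc ℂ)}
    (hδ : ∀ P : Polynomial ℂ, δ (algebraMap (Polynomial ℂ) (RatFunc ℂ) P) =
      algebraMap (Polynomial ℂ) (RatFunc ℂ) (Polynomial.derivative P))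
    {d : ℕ} (hd : 2 ≤ d) {s : ℚ} (h1 : -1 < 3 + ((d : ℚ) + 1) * s)
    (h2 : 3 + ((d : ℚ) + 1) * s < 0) :
    ¬ ∃ r : RatFunc ℂ, (RatFunc.X : RatFunc ℂ) ^ 2 = δ r + algebraMap ℂ (RatFunc ℂ) (s : ℂ) *
      (((RatFunc.X : RatFunc ℂ) ^ d * (1 + RatFunc.X))⁻¹ *
        δ ((RatFunc.X : RatFunc ℂ) ^ d * (1 + RatFunc.X))) * r := by
  rintro ⟨r, hr⟩
  have hd2 : (2 : ℚ) ≤ d := by exact_mod_cast hd
  have hs : s < 0 := by
    by_contra hcon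
    push Not at hcon
    nlinarith
  have hf₀ : (RatFunc.X : RatFunc ℂ) ^ d * (1 + RatFunc.X) =
      algebraMap (Polynomial ℂ) (RatFunc ℂ) (Polynomial.C 1 * Polynomial.X ^ d *
        ∏ c ∈ ({-1} : Finset ℂ), (Polynomial.X - Polynomial.C c) ^ (fun _ : ℂ => 1) c) := by
    rw [Finset.prod_singleton, pow_one, map_mul, map_mul, map_pow, map_sub, RatFunc.algebraMap_X,
      map_one, map_one, one_mul, map_neg, map_neg, map_one, map_one, sub_neg_eq_add, add_comm 1]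
  refine PC.not_exact_of_le hδ (e := 2) (κ := d) (R := {-1}) (μ := fun _ => 1)
    (by simp) hs (ε₀ := 2 + 1 + s * d)
    (ε₁ := -(2 + 1 + s * d + s)) (by push_cast; ring) (by simp) ?_ ?_ (by simp) ?_
    (w := 1) (lam := 1) one_ne_zero one_ne_zero hf₀ ⟨r, ?_⟩
  · nlinarith
  · nlinarith
  · rw [Finset.card_singleton, if_neg, if_neg]
    · intro h; nlinarith
    · intro h; nlinarith
  · rw [map_one, one_mul, map_pow, RatFunc.algebraMap_X, hr]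
    have h3 : algebraMap ℂ (RatFunc ℂ) (s : ℂ) = (s : RatFunc ℂ) := map_ratCast _ s
    rw [h3, div_eq_inv_mul]

/-- **The residues at the sections.** -/
theorem ex_gch {f : MvPolynomial (Fin 3) ℂ} {d : ℕ} (hd : 2 ≤ d)
    (hlow : ∀ j < d, homogeneousComponent j f = 0) {q : Fin 3 → ℂ} {j₀ : Fin 3} (hq : q j₀ = 1)
    (hq1 : eval q (homogeneousComponent (d + 1) f) ≠ 0) {s₀ : ℚ}
    (h1 : -1 < 3 + ((d : ℚ) + 1) * s₀) (h2 : 3 + ((d : ℚ) + 1) * s₀ < 0)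
    {b : Polynomial ℂ} (hb : InPs (f : MvPowerSeries (Fin 3) ℂ) 1
      (b.map (MvPowerSeries.C (σ := Fin 3) (R := ℂ)))) (hb0 : b.eval (s₀ : ℂ) ≠ 0) :
    PC.Ex (gch (homogeneousComponent d f) q j₀ : PC.P2)
      (((3 + ((d : ℚ) + 1) * s₀ : ℚ)) : ℂ) := by
  intro δ Θ h0 ν N hν hN hsν J₀ f₀ hf₀ J₁ F₁ hJ hF
  obtain ⟨δ', hδ'⟩ := PC.exists_deriv
  have hs : 3 + ((d : ℂ) + 1) * (s₀ : ℂ) = -((ν : ℂ) / N) := by
    rw [← hsν]; push_cast; ring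
  have hT : δ' (RatFunc.X : RatFunc ℂ) = 1 := by
    have h1 := hδ' Polynomial.X
    rwa [RatFunc.algebraMap_X, Polynomial.derivative_X, map_one] at h1
  have hT0 : (RatFunc.X : RatFunc ℂ) ≠ 0 := RatFunc.X_ne_zero
  have hT1 : 1 + (RatFunc.X : RatFunc ℂ) ≠ 0 := by
    have h3 : 1 + (RatFunc.X : RatFunc ℂ) =
        algebraMap (Polynomial ℂ) (RatFunc ℂ) (Polynomial.X + Polynomial.C 1) := by
      rw [map_add, RatFunc.algebraMap_X, map_one, map_one, add_comm]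
    rw [h3, Ne, map_eq_zero_iff _ (RatFunc.algebraMap_injective ℂ)]
    exact Polynomial.X_add_C_ne_zero 1
  obtain ⟨r₀, r₁, hr⟩ := residue_chart (K := RatFunc ℂ) (B := RatFunc ℂ) hlow hq hq1 hN hν hs hb hb0
    δ δ' hT0 hT1 hT h0 hf₀ hJ hF
  obtain ⟨ψ, hψ⟩ : ∃ ψ : RatFunc ℂ, ψ = algebraMap ℂ (RatFunc ℂ) (s₀ : ℂ) *
      (((RatFunc.X : RatFunc ℂ) ^ d * (1 + RatFunc.X))⁻¹ *
        δ' ((RatFunc.X : RatFunc ℂ) ^ d * (1 + RatFunc.X))) := ⟨_, rfl⟩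
  rw [← hψ] at hr
  -- the functional
  let E : Submodule ℂ (RatFunc ℂ) := LinearMap.range
    (δ'.toLinearMap + LinearMap.mulLeft ℂ ψ)
  have hE : (RatFunc.X : RatFunc ℂ) ^ 2 ∉ E := by
    rintro ⟨r, hr'⟩
    refine not_exact_beta hδ' hd h1 h2 ⟨r, ?_⟩
    rw [← hψ, ← hr']
    rfl
  obtain ⟨l, hl0, hl1⟩ := exists_functional E hE
  have hl : ∀ b : RatFunc ℂ, l (δ' b + ψ * b) = 0 := fun b => hl0 _ ⟨b, rfl⟩
  have h3 := congrArg (lamK l) hr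
  rw [lamK_tmul, hl1, map_one, one_mul, map_add, map_add, lamK_dL, lamK_mul, lamK_dR l δ' hl,
    add_zero] at h3
  obtain ⟨ρ, hρ⟩ : ∃ ρ, lamK l r₀ = f₀ ^ 3 * ρ := ⟨(f₀ ^ 3)⁻¹ * lamK l r₀, by
    rw [mul_inv_cancel_left₀ (pow_ne_zero 3 hf₀)]⟩
  rw [hρ] at h3
  refine ⟨ρ, ?_⟩
  have hs' : 3 + ((d : RatFunc ℂ) + 1) * algebraMap ℂ (RatFunc ℂ) (s₀ : ℂ) =
      -((ν : RatFunc ℂ) / N) := by
    have h4 := congrArg (algebraMap ℂ (RatFunc ℂ)) hs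
    rw [map_add, map_mul, map_add, map_neg, map_div₀, map_natCast, map_natCast, map_natCast,
      map_one, map_ofNat] at h4
    exact h4
  have h5 : δ (f₀ ^ 3 * ρ) = f₀ ^ 3 * δ ρ + 3 * f₀ ^ 2 * δ f₀ * ρ := by
    rw [Derivation.leibniz, Derivation.leibniz_pow, smul_eq_mul, smul_eq_mul, smul_eq_mul,
      nsmul_eq_mul]
    push_cast
    ring
  have h6 : δ (f₀ ^ (d + 1)) = ((d : RatFunc ℂ) + 1) * f₀ ^ d * δ f₀ := by
    rw [Derivation.leibniz_pow, Nat.add_sub_cancel, smul_eq_mul, nsmul_eq_mul]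
    push_cast
    ring
  rw [h5, h6] at h3
  have h7 : f₀ ^ 3 * J₀ = f₀ ^ 3 * (δ ρ + (3 + ((d : RatFunc ℂ) + 1) *
      algebraMap ℂ (RatFunc ℂ) (s₀ : ℂ)) * (δ f₀ / f₀) * ρ) := by
    rw [h3]
    field_simp
    ring
  have h8 := mul_left_cancel₀ (pow_ne_zero 3 hf₀) h7
  rw [h8, hs']
  ring

end SI

end MPb07157
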