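import Pool.Agent.Lib.MP_b07157_agI.LinD
import Pool.Agent.Lib.MP_b07157_agM.RootLT
import Pool.Agent.Lib.MP_b07157_agM.Strata
import Pool.Agent.Lib.MP_b07157_agQ.WHb

/-!
# Homogeneous polynomials whose hypersurface has isolated singular points
-/

noncomputable section

namespace MPb07157

open MvPolynomial

/-- The punctured line through `b`. -/
def punLine {n : ℕ} (b : Fin n → ℂ) : Set (Fin n → ℂ) := {x | ∃ c : ℂ, c ≠ 0 ∧ x = c • b}

/-- **Linear type.** The relations between the partial derivatives of a homogeneous polynomial in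
`n` variables whose hypersurface in projective space has finitely many singular points are generated
by the linear ones, if at each singular point a polynomial vector field which kills `f` does not
vanish. -/
theorem linType_of_isolated {m : ℕ} {f : MvPolynomial (Fin (m + 1)) ℂ} {d : ℕ} (hd : 2 ≤ d)
    (hh : f.IsHomogeneous d) {B : Finset (Fin (m + 1) → ℂ)}
    (hcov : ∀ p : Fin (m + 1) → ℂ, p ≠ 0 → (∀ i, eval p (pderiv i f) = 0) →
      ∃ b ∈ B, ∃ c : ℂ, p = c • b)
    (hloc : ∀ p : Fin (m + 1) → ℂ, p ≠ 0 → (∀ i, eval p (pderiv i f) = 0) → QHat f p) :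
    LinType f := by
  have h := MPb07157I.LT.of_isolated (v := fun i => pderiv i f) (e := d - 1) (by omega)
    (fun i => hh.pderiv) hcov hloc
  intro M _ F hF h0
  exact (MPb07157Q.mem_LI).1 (h M F hF h0)

/-- Near the smooth points of `f = 0`, the polynomial `f` is a coordinate. -/
theorem trivAlong_smooth {n : ℕ} (f : MvPolynomial (Fin n) ℂ) :
    TrivAlong f {p | eval p f = 0 ∧ ∃ i, eval p (pderiv i f) ≠ 0}
      (X 0 : MvPolynomial (Fin 1) ℂ) := by
  refine TrivAlong.of_poly (u := fun _ => f) (a := 1) (b := 1) (by rw [aeval_X]) ?_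
  rintro p ⟨hp0, i, hi⟩
  refine ⟨by rw [map_one]; exact one_ne_zero, by rw [map_one]; exact one_ne_zero,
    fun _ => hp0, ?_⟩
  rw [Fintype.linearIndependent_iff]
  intro α hα j
  have h1 := congrFun hα i
  rw [Finset.sum_apply, Fin.sum_univ_one, Pi.smul_apply, smul_eq_mul] at h1
  have h2 := (mul_eq_zero.1 h1).resolve_right hi
  rw [Subsingleton.elim j 0]
  exact h2

/-- **Dehomogenization.** Along the punctured line through `b ≠ 0`, a homogeneous polynomial in
`n + 1` variables is trivial with a polynomial in `n` variables. -/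
theorem exists_trivAlong_line {n : ℕ} {f : MvPolynomial (Fin (n + 1)) ℂ} {d : ℕ}
    (hh : f.IsHomogeneous d) {b : Fin (n + 1) → ℂ} (hb : b ≠ 0) :
    ∃ g : MvPolynomial (Fin n) ℂ, TrivAlong f (punLine b) g := by
  classical
  obtain ⟨j₀, hj₀⟩ : ∃ j, b j ≠ 0 := by
    by_contra hcon
    push Not at hcon
    exact hb (funext hcon)
  let ℓ : MvPolynomial (Fin (n + 1)) ℂ := C (b j₀)⁻¹ * X j₀
  let u : Fin n → MvPolynomial (Fin (n + 1)) ℂ := fun j =>
    X (j₀.succAbove j) - C (b (j₀.succAbove j)) * ℓ
  let π : Fin (n + 1) → MvPolynomial (Fin n) ℂ :=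
    j₀.insertNth (C (b j₀)) fun j => C (b (j₀.succAbove j)) + X j
  refine ⟨aeval π f, u, 1, ℓ ^ d, ℓ, fun x hx => ?_, ?_⟩
  · have hℓ : eval x ℓ = (b j₀)⁻¹ * x j₀ := by
      simp only [ℓ, map_mul, eval_C, eval_X]
    have e1 : ∀ y : Fin n → ℂ, eval y (aeval π f) = eval (fun i => eval y (π i)) f := by
      intro y
      have : ((aeval y : MvPolynomial (Fin n) ℂ →ₐ[ℂ] ℂ).comp (aeval π)) f =
          aeval (fun i => aeval y (π i)) f := by
        rw [comp_aeval]
      exact this
    rw [map_one, one_mul, map_pow, e1]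
    rw [← eval_smul_of_isHomogeneous hh]
    congr 1
    congr 1
    funext i
    rw [Pi.smul_apply, smul_eq_mul]
    refine Fin.succAboveCases j₀ ?_ (fun j => ?_) i
    · have e2 : π j₀ = C (b j₀) := Fin.insertNth_apply_same ..
      rw [e2, eval_C, hℓ]
      field_simp
    · have e2 : π (j₀.succAbove j) = C (b (j₀.succAbove j)) + X j := Fin.insertNth_apply_succAbove ..
      rw [e2, map_add, eval_C, eval_X]
      have e3 : eval x (u j) = x (j₀.succAbove j) - b (j₀.succAbove j) * eval x ℓ := by
        simp only [u, map_sub, map_mul, eval_C, eval_X]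
      rw [e3]
      field_simp
      ring
  · rintro _ ⟨c, hc, rfl⟩
    have hℓ : eval (c • b) ℓ = c := by
      simp only [ℓ, map_mul, eval_C, eval_X, Pi.smul_apply, smul_eq_mul]
      field_simp
    refine ⟨by rw [map_one]; exact one_ne_zero, ?_, by rw [hℓ]; exact hc, fun j => ?_, ?_⟩
    · rw [map_pow, hℓ]
      exact pow_ne_zero _ hc
    · simp only [u, map_sub, map_mul, eval_C, eval_X, Pi.smul_apply, smul_eq_mul, hℓ]
      ring
    · rw [Fintype.linearIndependent_iff]
      intro α hα i
      have h1 := congrFun hα (j₀.succAbove i)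
      rw [Finset.sum_apply] at h1
      have h2 : ∀ j, (α j • fun l : Fin (n + 1) => eval (c • b) (pderiv l (u j)))
          (j₀.succAbove i) = if j = i then α j else 0 := by
        intro j
        have e1 : pderiv (j₀.succAbove i) (u j) =
            (if j = i then 1 else 0 : MvPolynomial (Fin (n + 1)) ℂ) := by
          simp only [u, ℓ, map_sub]
          rw [← mul_assoc, ← C_mul, pderiv_C_mul, pderiv_X_of_ne (Fin.succAbove_ne j₀ i).symm,
            mul_zero, sub_zero]
          by_cases hji : j = i
          · rw [if_pos hji, hji, pderiv_X_self]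
          · rw [if_neg hji, pderiv_X_of_ne]
            intro h
            exact hji (Fin.succAbove_right_injective h)
        rw [Pi.smul_apply, e1, smul_eq_mul]
        split_ifs
        · rw [map_one, mul_one]
        · rw [map_zero, mul_zero]
      rw [Finset.sum_congr rfl fun j _ => h2 j, Finset.sum_ite_eq' Finset.univ i,
        if_pos (Finset.mem_univ i)] at h1
      exact h1

/-- The punctured line is constructible. -/
theorem isConstr_punLine {n : ℕ} (b : Fin n → ℂ) : IsConstr (punLine b) := by
  classical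
  by_cases hb : b = 0
  · have : punLine b = {0} := by
      ext x
      constructor
      · rintro ⟨c, _, rfl⟩
        rw [hb, smul_zero]
        rfl
      · intro hx
        rw [Set.mem_singleton_iff] at hx
        exact ⟨1, one_ne_zero, by rw [hx, hb, smul_zero]⟩
    rw [this]
    exact isConstr_point 0
  · obtain ⟨j₀, hj₀⟩ : ∃ j, b j ≠ 0 := by
      by_contra hcon
      push Not at hcon
      exact hb (funext hcon)
    have : punLine b = {x | eval x (X j₀) ≠ 0 ∧ ∀ i ∈ (Finset.univ : Finset (Fin n)),
        eval x (C (b j₀) * X i - C (b i) * X j₀) = 0} := by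
      ext x
      simp only [Set.mem_ofPred_eq, Finset.mem_univ, true_imp_iff, map_sub, map_mul, eval_C,
        eval_X]
      constructor
      · rintro ⟨c, hc, rfl⟩
        refine ⟨mul_ne_zero hc hj₀, fun i => ?_⟩
        simp only [Pi.smul_apply, smul_eq_mul]
        ring
      · rintro ⟨h1, h2⟩
        refine ⟨x j₀ / b j₀, div_ne_zero h1 hj₀, ?_⟩
        funext i
        rw [Pi.smul_apply, smul_eq_mul]
        field_simp
        linear_combination h2 i
    rw [this]
    exact isConstr_setOf_and (isConstr_ne_zero _) (isConstr_forall_mem _ _ fun i _ =>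
      isConstr_eq_zero _)

end MPb07157
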