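import Pool.Agent.Lib.MP_b07157_agI.IsoB
import Pool.Agent.Lib.MP_b07157_agM.StrSnc

/-!
# Homogeneous polynomials whose hypersurface has isolated quasi-homogeneous singular points are
stably non-degenerate
-/

noncomputable section

namespace MPb07157

open MvPolynomial

variable {n k : ℕ}

/-- The constructor `cone` with existential germs. -/
theorem StableLoc.cone' (f : MvPolynomial (Fin n) ℂ) (d : ℕ) (hd : 0 < d) (hh : f.IsHomogeneous d)
    (T : Set (Set (Fin n → ℂ))) (hT : T.Finite)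
    (hcov : ∀ p, p ≠ 0 → eval p f = 0 → ∃ W ∈ T, p ∈ W)
    (h : ∀ W ∈ T, IsConstr W ∧ ∃ (k : ℕ) (g : MvPolynomial (Fin k) ℂ), StableLoc k g ∧
      TrivAlong f W g) (hroot : ConeRoot f d) : StableLoc n f := by
  classical
  have hex : ∀ W : Set (Fin n → ℂ), ∃ k : ℕ, ∃ g : MvPolynomial (Fin k) ℂ,
      W ∈ T → StableLoc k g ∧ TrivAlong f W g := by
    intro W
    by_cases hW : W ∈ T
    · obtain ⟨k, g, h1, h2⟩ := (h W hW).2
      exact ⟨k, g, fun _ => ⟨h1, h2⟩⟩
    · exact ⟨0, 0, fun h => absurd h hW⟩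
  choose k g hg using hex
  exact StableLoc.cone f d hd hh T hT hcov k g (fun W hW => ⟨(h W hW).1, (hg W hW).2⟩)
    (fun W hW => (hg W hW).1) hroot

theorem isWeightedHomogeneous_rename {h : MvPolynomial (Fin k) ℂ} {w : Fin k → ℕ} {N : ℕ}
    (hw : h.IsWeightedHomogeneous w N) (c : Fin k → Fin n) {w' : Fin n → ℕ}
    (hc : ∀ j, w' (c j) = w j) : (rename c h).IsWeightedHomogeneous w' N := by
  classical
  intro v hv
  obtain ⟨u, rfl, hu⟩ := coeff_rename_ne_zero _ _ _ hv
  rw [← hw hu]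
  rw [Finsupp.weight_apply, Finsupp.weight_apply, Finsupp.sum_mapDomain_index]
  · refine Finsupp.sum_congr fun x _ => ?_
    rw [hc]
  · intro b
    exact zero_smul _ _
  · intro b m₁ m₂
    exact add_smul _ _ _

/-- A germ along which `f` is trivial, formally equivalent to a power of a weighted homogeneous
polynomial: a polynomial vector field which does not vanish at the point kills `f`. -/
theorem qHat_of_trivAlong {f : MvPolynomial (Fin n) ℂ} {d : ℕ} (hh : f.IsHomogeneous d)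
    {p : Fin n → ℂ} (hp : p ≠ 0) {g h : MvPolynomial (Fin k) ℂ} (ht : TrivAlong f {p} g) {m : ℕ}
    (hm : 0 < m) (he : FormEquivPow g h m) {w : Fin k → ℕ} {N : ℕ} (hN : 0 < N)
    (hw : h.IsWeightedHomogeneous w N) : QHat f p := by
  classical
  obtain ⟨u, a, b, q, hab, H⟩ := ht
  obtain ⟨ha, hb, hq, hu, hli⟩ := H p rfl
  obtain ⟨c, hc⟩ := exists_minor _ hli
  have hc' : eval p (Str.minorU u c) ≠ 0 := by
    rw [Str.eval_minorU]
    exact hc
  have hinj : Function.Injective c := Str.injective_of_minorU hc'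
  have h1 : FormEquivPow (translate p f) (rename c g) 1 :=
    Str.formEquiv_of_relQ hab hinj ha hb hq hu hc
  have h2 : FormEquivPow (rename c g) (rename c h) m := he.rename_inj hinj
  have h3 : FormEquivPow (translate p f) (rename c h) m := by
    obtain ⟨e, v, hv⟩ := h1
    obtain ⟨e', v', hv'⟩ := h2
    refine ⟨e'.trans e, v * Units.map (e : MvPowerSeries (Fin n) ℂ →* MvPowerSeries (Fin n) ℂ) v',
      ?_⟩
    rw [hv, pow_one, hv', map_mul, map_pow, Units.val_mul, mul_assoc]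
    rfl
  let w' : Fin n → ℕ := fun i => if hi : ∃ j, c j = i then w hi.choose else 0
  have hw' : ∀ j, w' (c j) = w j := by
    intro j
    have hj : ∃ j', c j' = c j := ⟨j, rfl⟩
    show (if hi : ∃ j', c j' = c j then w hi.choose else 0) = w j
    rw [dif_pos hj, hinj hj.choose_spec]
  obtain ⟨C, A, hC, hA, hAp⟩ := exists_field_of_formEquivPow hh hm h3 hN
    (isWeightedHomogeneous_rename hw c hw')
  obtain ⟨i, hi⟩ : ∃ i, p i ≠ 0 := by
    by_contra hcon
    push Not at hcon
    exact hp (funext hcon)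
  exact ⟨A, hA, i, by rw [hAp]; exact mul_ne_zero hC hi⟩

/-- The set of smooth points. -/
def smoothW (f : MvPolynomial (Fin n) ℂ) : Set (Fin n → ℂ) :=
  {p | eval p f = 0 ∧ ∃ i, eval p (pderiv i f) ≠ 0}

theorem isConstr_smoothW (f : MvPolynomial (Fin n) ℂ) : IsConstr (smoothW f) := by
  have : smoothW f = {p | eval p f = 0} ∩ {p | ∀ i ∈ (Finset.univ : Finset (Fin n)),
      eval p (pderiv i f) = 0}ᶜ := by
    ext p
    simp only [smoothW, Set.mem_ofPred_eq, Set.mem_inter_iff, Set.mem_compl_iff, Finset.mem_univ,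
      true_imp_iff, not_forall]
  rw [this]
  exact (isConstr_eq_zero _).inter (isConstr_forall_mem _ _ fun i _ => isConstr_eq_zero _).compl

theorem stableLoc_X0 : StableLoc 1 (X 0 : MvPolynomial (Fin 1) ℂ) :=
  stableLoc_monomial (Finsupp.single 0 1)

theorem mem_punLine_of_smul {p b : Fin n → ℂ} (hp : p ≠ 0) {c : ℂ} (h : p = c • b) : p ∈ punLine b :=
  ⟨c, fun h0 => hp (by rw [h, h0, zero_smul]), h⟩

/-- **Isolated quasi-homogeneous singular points.** Let `f` be homogeneous of degree `d ≥ 2` in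
`n + 1` variables, let the hypersurface `f = 0` in projective space have finitely many singular
points, and let the germs at these points be formally equivalent to powers of weighted homogeneous
germs in the class. Then the germ of `f` at the origin is in the class. -/
theorem StableLoc.isolated {f : MvPolynomial (Fin (n + 1)) ℂ} {d : ℕ} (hd : 2 ≤ d)
    (hh : f.IsHomogeneous d) (B : Finset (Fin (n + 1) → ℂ))
    (hcov : ∀ p : Fin (n + 1) → ℂ, p ≠ 0 → (∀ i, eval p (pderiv i f) = 0) →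
      ∃ b ∈ B, ∃ c : ℂ, p = c • b)
    (hloc : ∀ b ∈ B, ∃ (k : ℕ) (g h : MvPolynomial (Fin k) ℂ) (m N : ℕ) (w : Fin k → ℕ),
      TrivAlong f (punLine b) g ∧ 0 < m ∧ FormEquivPow g h m ∧ 0 < N ∧
        h.IsWeightedHomogeneous w N ∧ StableLoc k h) : StableLoc (n + 1) f := by
  classical
  let T : Set (Set (Fin (n + 1) → ℂ)) := {W | W = smoothW f ∨ ∃ b ∈ B, W = punLine b}
  have hT : T.Finite := by
    have : T = {smoothW f} ∪ ((fun b => punLine b) '' (B : Set (Fin (n + 1) → ℂ))) := by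
      ext W
      simp only [T, Set.mem_ofPred_eq, Set.mem_union, Set.mem_singleton_iff, Set.mem_image,
        Finset.mem_coe]
      refine or_congr Iff.rfl ⟨?_, ?_⟩
      · rintro ⟨b, hb, rfl⟩
        exact ⟨b, hb, rfl⟩
      · rintro ⟨b, hb, rfl⟩
        exact ⟨b, hb, rfl⟩
    rw [this]
    exact (Set.finite_singleton _).union (B.finite_toSet.image _)
  refine StableLoc.cone' f d (by omega) hh T hT ?_ ?_ (Or.inr ⟨B, fun p hp hs => ?_⟩)
  · intro p hp h0
    by_cases hs : ∃ i, eval p (pderiv i f) ≠ 0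
    · exact ⟨smoothW f, Or.inl rfl, h0, hs⟩
    · push Not at hs
      obtain ⟨b, hb, c, hc⟩ := hcov p hp hs
      exact ⟨punLine b, Or.inr ⟨b, hb, rfl⟩, mem_punLine_of_smul hp hc⟩
  · rintro W (rfl | ⟨b, hb, rfl⟩)
    · exact ⟨isConstr_smoothW f, 1, X 0, stableLoc_X0, trivAlong_smooth f⟩
    · obtain ⟨k, g, h, m, N, w, ht, hm, he, hN, hw, hS⟩ := hloc b hb
      exact ⟨isConstr_punLine b, k, g, StableLoc.equiv g h m hm he hS, ht⟩
  · obtain ⟨b, hb, c, hc⟩ := hcov p hp hs
    obtain ⟨k, g, h, m, N, w, ht, hm, he, hN, hw, hS⟩ := hloc b hb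
    exact ⟨qHat_of_trivAlong hh hp
      (ht.mono (Set.singleton_subset_iff.2 (mem_punLine_of_smul hp hc))) hm he hN hw, b, hb, c, hc⟩

/-- The global version. -/
theorem StableGlob.isolated {f : MvPolynomial (Fin (n + 1)) ℂ} {d : ℕ} (hd : 2 ≤ d)
    (hh : f.IsHomogeneous d) (B : Finset (Fin (n + 1) → ℂ))
    (hcov : ∀ p : Fin (n + 1) → ℂ, p ≠ 0 → (∀ i, eval p (pderiv i f) = 0) →
      ∃ b ∈ B, ∃ c : ℂ, p = c • b)
    (hloc : ∀ b ∈ B, ∃ (k : ℕ) (g h : MvPolynomial (Fin k) ℂ) (m N : ℕ) (w : Fin k → ℕ),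
      TrivAlong f (punLine b) g ∧ 0 < m ∧ FormEquivPow g h m ∧ 0 < N ∧
        h.IsWeightedHomogeneous w N ∧ StableLoc k h) : StableGlob (n + 1) f := by
  classical
  have hL : StableLoc (n + 1) f := StableLoc.isolated hd hh B hcov hloc
  have h0 : coeff 0 f = 0 := hh.coeff_eq_zero (by simp; omega)
  let T : Set (Set (Fin (n + 1) → ℂ)) := {W | (W = smoothW f ∨ W = {0}) ∨ ∃ b ∈ B, W = punLine b}
  have hT : T.Finite := by
    have : T = ({smoothW f} ∪ {{0}}) ∪ ((fun b => punLine b) '' (B : Set (Fin (n + 1) → ℂ))) := by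
      ext W
      simp only [T, Set.mem_ofPred_eq, Set.mem_union, Set.mem_singleton_iff, Set.mem_image,
        Finset.mem_coe]
      refine or_congr Iff.rfl ⟨?_, ?_⟩
      · rintro ⟨b, hb, rfl⟩
        exact ⟨b, hb, rfl⟩
      · rintro ⟨b, hb, rfl⟩
        exact ⟨b, hb, rfl⟩
    rw [this]
    exact ((Set.finite_singleton _).union (Set.finite_singleton _)).union
      (B.finite_toSet.image _)
  refine StableGlob.strata f h0 T hT ?_ ?_
  · intro p hp0
    by_cases hp : p = 0
    · exact ⟨{0}, Or.inl (Or.inr rfl), hp⟩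
    by_cases hs : ∃ i, eval p (pderiv i f) ≠ 0
    · exact ⟨smoothW f, Or.inl (Or.inl rfl), hp0, hs⟩
    · push Not at hs
      obtain ⟨b, hb, c, hc⟩ := hcov p hp hs
      exact ⟨punLine b, Or.inr ⟨b, hb, rfl⟩, mem_punLine_of_smul hp hc⟩
  · rintro W ((rfl | rfl) | ⟨b, hb, rfl⟩)
    · exact ⟨isConstr_smoothW f, 1, X 0, stableLoc_X0, trivAlong_smooth f⟩
    · refine ⟨isConstr_point 0, n + 1, f, hL, ?_⟩
      have := trivAlong_point f 0
      rwa [translate_zero] at this
    · obtain ⟨k, g, h, m, N, w, ht, hm, he, hN, hw, hS⟩ := hloc b hb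
      exact ⟨isConstr_punLine b, k, g, StableLoc.equiv g h m hm he hS, ht⟩

end MPb07157
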