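import Pool.Agent.Lib.MP_b07157_agI.IsoC

/-!
# Homogeneous polynomials whose hypersurface has isolated quasi-homogeneous singular points
-/

noncomputable section

namespace MPb07157

open MvPolynomial

variable {n k : ℕ}

theorem initialPart_of_isWeightedHomogeneous {h : MvPolynomial (Fin n) ℂ} {w : Fin n → ℕ} {N : ℕ}
    (hw : h.IsWeightedHomogeneous w N) : initialPart h w = h := by
  have h1 : ∀ v ∈ h.support, ∑ j, w j * v j = N := by
    intro v hv
    rw [← hw (mem_support_iff.1 hv), Finsupp.weight_apply, Finsupp.sum_fintype _ _ fun _ => by simp]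
    exact Finset.sum_congr rfl fun i _ => by rw [smul_eq_mul, mul_comm]
  unfold initialPart
  rw [Finset.filter_true_of_mem fun v hv u hu => by rw [h1 v hv, h1 u hu]]
  exact support_sum_monomial_coeff h

/-- The germ of `g` at the origin is, in suitable formal coordinates, a unit times a power of a
weighted homogeneous polynomial with an isolated critical point. -/
def IsQHGerm (g : MvPolynomial (Fin n) ℂ) : Prop :=
  ∃ (h : MvPolynomial (Fin n) ℂ) (m N : ℕ) (w : Fin n → ℕ), 0 < m ∧ FormEquivPow g h m ∧ 0 < N ∧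
    (∀ i, 0 < w i) ∧ h.IsWeightedHomogeneous w N ∧
    ∀ p : Fin n → ℂ, p ≠ 0 → ∃ i, eval p (pderiv i h) ≠ 0

/-- The affine equation near `b`, `b_j ≠ 0`, of the hypersurface `f = 0` in projective space. -/
def dehom (f : MvPolynomial (Fin (n + 1)) ℂ) (b : Fin (n + 1) → ℂ) (j : Fin (n + 1)) :
    MvPolynomial (Fin n) ℂ :=
  aeval (j.insertNth (α := fun _ => MvPolynomial (Fin n) ℂ) (C (b j))
    fun i => C (b (j.succAbove i)) + X i) f

theorem trivAlong_dehom {f : MvPolynomial (Fin (n + 1)) ℂ} {d : ℕ}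
    (hh : f.IsHomogeneous d) {b : Fin (n + 1) → ℂ} {j₀ : Fin (n + 1)} (hj₀ : b j₀ ≠ 0) :
    TrivAlong f (punLine b) (dehom f b j₀) := by
  classical
  let ℓ : MvPolynomial (Fin (n + 1)) ℂ := C (b j₀)⁻¹ * X j₀
  let u : Fin n → MvPolynomial (Fin (n + 1)) ℂ := fun j =>
    X (j₀.succAbove j) - C (b (j₀.succAbove j)) * ℓ
  let π : Fin (n + 1) → MvPolynomial (Fin n) ℂ :=
    j₀.insertNth (C (b j₀)) fun j => C (b (j₀.succAbove j)) + X j
  refine ⟨u, 1, ℓ ^ d, ℓ, fun x hx => ?_, ?_⟩
  · have hℓ : eval x ℓ = (b j₀)⁻¹ * x j₀ := by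
      simp only [ℓ, map_mul, eval_C, eval_X]
    have e1 : ∀ y : Fin n → ℂ, eval y (dehom f b j₀) = eval (fun i => eval y (π i)) f := by
      intro y
      have : ((aeval y : MvPolynomial (Fin n) ℂ →ₐ[ℂ] ℂ).comp (aeval π)) f =
          aeval (fun i => aeval y (π i)) f := by
        rw [comp_aeval]
      exact this
    rw [map_one, one_mul, map_pow, e1]
    rw [← eval_smul_of_isHomogeneous hh]
    congr 1
    congr 1
    funext i
    rw [Pi.smul_apply, smul_eq_mul]
    refine Fin.succAboveCases j₀ ?_ (fun j => ?_) i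
    · have e2 : π j₀ = C (b j₀) := Fin.insertNth_apply_same ..
      rw [e2, eval_C, hℓ]
      field_simp
    · have e2 : π (j₀.succAbove j) = C (b (j₀.succAbove j)) + X j := Fin.insertNth_apply_succAbove ..
      rw [e2, map_add, eval_C, eval_X]
      have e3 : eval x (u j) = x (j₀.succAbove j) - b (j₀.succAbove j) * eval x ℓ := by
        simp only [u, map_sub, map_mul, eval_C, eval_X]
      rw [e3]
      field_simp
      ring
  · rintro _ ⟨c, hc, rfl⟩
    have hℓ : eval (c • b) ℓ = c := by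
      simp only [ℓ, map_mul, eval_C, eval_X, Pi.smul_apply, smul_eq_mul]
      field_simp
    refine ⟨by rw [map_one]; exact one_ne_zero, ?_, by rw [hℓ]; exact hc, fun j => ?_, ?_⟩
    · rw [map_pow, hℓ]
      exact pow_ne_zero _ hc
    · simp only [u, map_sub, map_mul, eval_C, eval_X, Pi.smul_apply, smul_eq_mul, hℓ]
      ring
    · rw [Fintype.linearIndependent_iff]
      intro α hα i
      have h1 := congrFun hα (j₀.succAbove i)
      rw [Finset.sum_apply] at h1
      have h2 : ∀ j, (α j • fun l : Fin (n + 1) => eval (c • b) (pderiv l (u j)))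
          (j₀.succAbove i) = if j = i then α j else 0 := by
        intro j
        have e1 : pderiv (j₀.succAbove i) (u j) =
            (if j = i then 1 else 0 : MvPolynomial (Fin (n + 1)) ℂ) := by
          simp only [u, ℓ, map_sub]
          rw [← mul_assoc, ← C_mul, pderiv_C_mul, pderiv_X_of_ne (Fin.succAbove_ne j₀ i).symm,
            mul_zero, sub_zero]
          by_cases hji : j = i
          · rw [if_pos hji, hji, pderiv_X_self]
          · rw [if_neg hji, pderiv_X_of_ne]
            intro h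
            exact hji (Fin.succAbove_right_injective h)
        rw [Pi.smul_apply, e1, smul_eq_mul]
        split_ifs
        · rw [map_one, mul_one]
        · rw [map_zero, mul_zero]
      rw [Finset.sum_congr rfl fun j _ => h2 j, Finset.sum_ite_eq' Finset.univ i,
        if_pos (Finset.mem_univ i)] at h1
      exact h1

/-- **Isolated quasi-homogeneous singular points.** Let `f` be homogeneous of degree `d ≥ 2` in
`n + 1` variables, let the hypersurface `f = 0` in projective space have finitely many singular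
points, and let it be quasi-homogeneous at each of them. Then `f` is in the class `StableLoc`. -/
theorem StableLoc.of_isolated_qh {f : MvPolynomial (Fin (n + 1)) ℂ} {d : ℕ} (hd : 2 ≤ d)
    (hh : f.IsHomogeneous d) (B : Finset (Fin (n + 1) → ℂ))
    (hcov : ∀ p : Fin (n + 1) → ℂ, p ≠ 0 → (∀ i, eval p (pderiv i f) = 0) →
      ∃ b ∈ B, ∃ c : ℂ, p = c • b)
    (hloc : ∀ b ∈ B, ∃ j, b j ≠ 0 ∧ IsQHGerm (dehom f b j)) :
    StableLoc (n + 1) f := by
  refine StableLoc.isolated hd hh B hcov (fun b hb => ?_)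
  obtain ⟨j, hj, h, m, N, w, hm, he, hN, hw, hwh, hiso⟩ := hloc b hb
  refine ⟨n, dehom f b j, h, m, N, w, trivAlong_dehom hh hj, hm, he, hN, hwh, ?_⟩
  exact StableLoc.sqh h w hw (by rwa [initialPart_of_isWeightedHomogeneous hwh])

theorem StableGlob.of_isolated_qh {f : MvPolynomial (Fin (n + 1)) ℂ} {d : ℕ} (hd : 2 ≤ d)
    (hh : f.IsHomogeneous d) (B : Finset (Fin (n + 1) → ℂ))
    (hcov : ∀ p : Fin (n + 1) → ℂ, p ≠ 0 → (∀ i, eval p (pderiv i f) = 0) →
      ∃ b ∈ B, ∃ c : ℂ, p = c • b)
    (hloc : ∀ b ∈ B, ∃ j, b j ≠ 0 ∧ IsQHGerm (dehom f b j)) :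
    StableGlob (n + 1) f := by
  refine StableGlob.isolated hd hh B hcov (fun b hb => ?_)
  obtain ⟨j, hj, h, m, N, w, hm, he, hN, hw, hwh, hiso⟩ := hloc b hb
  refine ⟨n, dehom f b j, h, m, N, w, trivAlong_dehom hh hj, hm, he, hN, hwh, ?_⟩
  exact StableLoc.sqh h w hw (by rwa [initialPart_of_isWeightedHomogeneous hwh])

/-- **The strong monodromy conjecture** for homogeneous polynomials in `n + 1` variables whose
hypersurface in projective space has only isolated quasi-homogeneous singular points. -/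
theorem smc_isolated_qh {f : MvPolynomial (Fin (n + 1)) ℂ} {d : ℕ} (hd : 2 ≤ d)
    (hf : f ≠ 0) (hh : f.IsHomogeneous d) (B : Finset (Fin (n + 1) → ℂ))
    (hcov : ∀ p : Fin (n + 1) → ℂ, p ≠ 0 → (∀ i, eval p (pderiv i f) = 0) →
      ∃ b ∈ B, ∃ c : ℂ, p = c • b)
    (hloc : ∀ b ∈ B, ∃ j, b j ≠ 0 ∧ IsQHGerm (dehom f b j)) (s₀ : ℚ) (hs : s₀ < 0) :
    (IsPole (Zmot f) s₀ → IsBernsteinSatoRoot f s₀) ∧
      (IsPole (Zmot0 f) s₀ → IsLocalBernsteinSatoRoot f s₀) :=
  ⟨smc_stableGlob hf (StableGlob.of_isolated_qh hd hh B hcov hloc) s₀ hs,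
    smc_stableLoc hf (hh.coeff_eq_zero (by simp; omega))
      (StableLoc.of_isolated_qh hd hh B hcov hloc) s₀ hs⟩

end MPb07157
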