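import Mathlib

/-!
# Relations between the elements of a sequence of depth equal to its length are Koszul relations

Let `y_1, …, y_n` be elements of a commutative ring such that the ideal generated by them contains a
regular sequence `z_1, …, z_n`. Then `∑ a_i y_i = 0` implies `a_i = ∑_j c_{ij} y_j` with an
alternating matrix `c`.
-/

noncomputable section

namespace MPb07157I

open CliffordAlgebra ExteriorAlgebra

variable {R : Type*} [CommRing R] {n : ℕ}

/-- All coordinates of `x` are in `A`. -/
def InA (A : Ideal R) (x : ExteriorAlgebra R (Fin n → R)) : Prop :=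
  ∀ s, (Pi.basisFun R (Fin n)).ExteriorAlgebra.repr x s ∈ A

theorem InA.add {A : Ideal R} {x y : ExteriorAlgebra R (Fin n → R)} (hx : InA A x)
    (hy : InA A y) : InA A (x + y) := fun s => by
  rw [map_add]
  exact A.add_mem (hx s) (hy s)

theorem InA.neg {A : Ideal R} {x : ExteriorAlgebra R (Fin n → R)} (hx : InA A x) :
    InA A (-x) := fun s => by
  rw [map_neg]
  exact A.neg_mem (hx s)

theorem InA.sub {A : Ideal R} {x y : ExteriorAlgebra R (Fin n → R)} (hx : InA A x)
    (hy : InA A y) : InA A (x - y) := by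
  rw [sub_eq_add_neg]
  exact hx.add hy.neg

theorem InA.zero {A : Ideal R} : InA A (0 : ExteriorAlgebra R (Fin n → R)) := fun s => by
  rw [map_zero]
  exact A.zero_mem

theorem InA.map {A : Ideal R} {x : ExteriorAlgebra R (Fin n → R)} (hx : InA A x)
    (T : ExteriorAlgebra R (Fin n → R) →ₗ[R] ExteriorAlgebra R (Fin n → R)) : InA A (T x) := by
  intro s
  set B := (Pi.basisFun R (Fin n)).ExteriorAlgebra with hB
  have h1 : T x = ∑ t, B.repr x t • T (B t) := by
    conv_lhs => rw [← B.sum_repr x]
    rw [map_sum]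
    refine Finset.sum_congr rfl fun t _ => ?_
    rw [map_smul]
  rw [h1, map_sum, Finsupp.finsetSum_apply]
  refine A.sum_mem fun t _ => ?_
  rw [map_smul, Finsupp.smul_apply, smul_eq_mul]
  exact A.mul_mem_right _ (hx t)

theorem InA.exists_sub {A : Ideal R} {z : R} {x : ExteriorAlgebra R (Fin n → R)}
    (hx : InA (A ⊔ Ideal.span {z}) x) : ∃ e, InA A (x - z • e) := by
  set B := (Pi.basisFun R (Fin n)).ExteriorAlgebra with hB
  have h1 : ∀ s, ∃ r, B.repr x s - z * r ∈ A := by
    intro s
    obtain ⟨a, ha, c, hc, hac⟩ := Submodule.mem_sup.1 (hx s)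
    obtain ⟨r, hr⟩ := Ideal.mem_span_singleton'.1 hc
    refine ⟨r, ?_⟩
    rw [← hac, ← hr, mul_comm z r, add_sub_cancel_right]
    exact ha
  choose r hr using h1
  refine ⟨∑ s, r s • B s, fun t => ?_⟩
  have h2 : B.repr (x - z • ∑ s, r s • B s) t = B.repr x t - z * r t := by
    rw [map_sub, map_smul, Finsupp.sub_apply, Finsupp.smul_apply, smul_eq_mul]
    congr 2
    rw [B.repr_sum_self]
  rw [h2]
  exact hr t

theorem InA.of_smul {A : Ideal R} {z : R} (hz : ∀ r, z * r ∈ A → r ∈ A)
    {x : ExteriorAlgebra R (Fin n → R)} (hx : InA A (z • x)) : InA A x := by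
  intro s
  apply hz
  have := hx s
  rwa [map_smul, Finsupp.smul_apply, smul_eq_mul] at this

theorem InA.eq_zero {x : ExteriorAlgebra R (Fin n → R)} (hx : InA ⊥ x) : x = 0 := by
  apply (Pi.basisFun R (Fin n)).ExteriorAlgebra.repr.injective
  ext s
  rw [map_zero, Finsupp.zero_apply]
  exact Ideal.mem_bot.1 (hx s)

theorem InA.smul_mem {A : Ideal R} {z : R} (hz : z ∈ A) (x : ExteriorAlgebra R (Fin n → R)) :
    InA A (z • x) := by
  intro s
  rw [map_smul, Finsupp.smul_apply, smul_eq_mul]
  exact A.mul_mem_right _ hz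

theorem InA.mono {A A' : Ideal R} (h : A ≤ A') {x : ExteriorAlgebra R (Fin n → R)}
    (hx : InA A x) : InA A' x := fun s => h (hx s)

/-- The functional `a ↦ ∑ a_i y_i`. -/
def dy (y : Fin n → R) : Module.Dual R (Fin n → R) := ∑ i, y i • LinearMap.proj i

theorem dy_apply (y a : Fin n → R) : dy y a = ∑ i, a i * y i := by
  unfold dy
  rw [LinearMap.sum_apply]
  refine Finset.sum_congr rfl fun i _ => ?_
  rw [LinearMap.smul_apply, LinearMap.proj_apply, smul_eq_mul, mul_comm]

/-- The tuple `b_{j-1}, …, b_0, a`. -/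
def tup (a : Fin n → R) (b : ℕ → Fin n → R) : (j : ℕ) → Fin (j + 1) → (Fin n → R)
  | 0 => fun _ => a
  | j + 1 => Matrix.vecCons (b j) (tup a b j)

/-- The product `b_{j-1} ∧ … ∧ b_0 ∧ a`. -/
def wj (a : Fin n → R) (b : ℕ → Fin n → R) (j : ℕ) : ExteriorAlgebra R (Fin n → R) :=
  ιMulti R (j + 1) (tup a b j)

theorem wj_zero (a : Fin n → R) (b : ℕ → Fin n → R) : wj a b 0 = ExteriorAlgebra.ι R a := by
  unfold wj
  rw [ιMulti_apply]
  simp [tup]

theorem wj_succ (a : Fin n → R) (b : ℕ → Fin n → R) (j : ℕ) :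
    wj a b (j + 1) = ExteriorAlgebra.ι R (b j) * wj a b j := by
  unfold wj
  rw [ιMulti_succ_apply]
  rfl

theorem wj_top (a : Fin n → R) (b : ℕ → Fin n → R) : wj a b n = 0 := by
  unfold wj
  have h : (ιMulti R (n + 1) : (Fin n → R) [⋀^Fin (n + 1)]→ₗ[R] _) = 0 := by
    apply Module.Basis.ext_alternating (Pi.basisFun R (Fin n))
    intro v hv
    exfalso
    have := Fintype.card_le_of_injective v hv
    simp at this
  rw [h]
  rfl

theorem koszul {y : Fin n → R} {z : ℕ → R} {b : ℕ → Fin n → R}
    (hz : ∀ j, z j = ∑ i, b j i * y i)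
    (hreg : ∀ j < n, ∀ r, z j * r ∈ Ideal.span (z '' {k | k < j}) →
      r ∈ Ideal.span (z '' {k | k < j}))
    {a : Fin n → R} (ha : ∑ i, a i * y i = 0) :
    ∃ c : Fin n → Fin n → R, (∀ i j, c i j = -c j i) ∧ (∀ i, c i i = 0) ∧
      ∀ i, a i = ∑ j, c i j * y j := by
  classical
  set D : ExteriorAlgebra R (Fin n → R) →ₗ[R] ExteriorAlgebra R (Fin n → R) :=
    contractLeft (dy y) with hD
  have hD1 : ∀ (v : Fin n → R) (x : ExteriorAlgebra R (Fin n → R)),
      D (ExteriorAlgebra.ι R v * x) = dy y v • x - ExteriorAlgebra.ι R v * D x := fun v x =>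
    contractLeft_ι_mul (dy y) v x
  have hDD : ∀ x, D (D x) = 0 := fun x => contractLeft_contractLeft (dy y) x
  set A : ℕ → Ideal R := fun j => Ideal.span (z '' {k | k < j}) with hA
  have hA0 : A 0 = ⊥ := by
    rw [hA]
    simp
  have hAs : ∀ j, A (j + 1) = A j ⊔ Ideal.span {z j} := by
    intro j
    have e : {k | k < j + 1} = {k | k < j} ∪ {j} := by
      ext k
      simp only [Set.mem_ofPred_eq, Set.mem_union, Set.mem_singleton_iff]
      omega
    simp only [hA]
    rw [e, Set.image_union, Set.image_singleton, Ideal.span_union]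
  -- the boundary of `w_j`
  have hdw : ∀ j, InA (A j) (D (wj a b j)) := by
    intro j
    induction j with
    | zero =>
      rw [wj_zero]
      have : D (ExteriorAlgebra.ι R a) = 0 := by
        have h := contractLeft_ι (Q := (0 : QuadraticForm R (Fin n → R))) (dy y) a
        rw [dy_apply, ha, map_zero] at h
        exact h
      rw [this]
      exact InA.zero
    | succ j ih =>
      rw [wj_succ, hD1, dy_apply, ← hz]
      refine InA.sub (InA.smul_mem ?_ _) ?_
      · rw [hAs]
        exact Submodule.mem_sup_right (Ideal.mem_span_singleton_self _)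
      · rw [hAs]
        exact ((ih.map (LinearMap.mulLeft R (ExteriorAlgebra.ι R (b j))))).mono le_sup_left
  have hstep : ∀ j < n, (∃ e, InA (A (j + 1)) (wj a b (j + 1) - D e)) →
      ∃ e, InA (A j) (wj a b j - D e) := by
    rintro j hj ⟨e, he⟩
    rw [hAs] at he
    obtain ⟨e', he'⟩ := he.exists_sub
    refine ⟨e', InA.of_smul (hreg j hj) ?_⟩
    have h1 := he'.map D
    rw [map_sub, map_sub, hDD, sub_zero, map_smul, wj_succ, hD1, dy_apply, ← hz] at h1
    have h2 := (hdw j).map (LinearMap.mulLeft R (ExteriorAlgebra.ι R (b j)))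
    rw [LinearMap.mulLeft_apply] at h2
    have h3 := h1.add h2
    have e3 : z j • wj a b j - ExteriorAlgebra.ι R (b j) * D (wj a b j) - z j • D e' +
        ExteriorAlgebra.ι R (b j) * D (wj a b j) = z j • (wj a b j - D e') := by
      rw [smul_sub]
      abel
    rw [e3] at h3
    exact h3
  have hall : ∀ i ≤ n, ∃ e, InA (A (n - i)) (wj a b (n - i) - D e) := by
    intro i
    induction i with
    | zero =>
      intro _
      refine ⟨0, ?_⟩
      rw [Nat.sub_zero, wj_top, map_zero, sub_zero]
      exact InA.zero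
    | succ i ih =>
      intro hi
      obtain ⟨e, he⟩ := ih (by omega)
      have e1 : n - i = (n - (i + 1)) + 1 := by omega
      rw [e1] at he
      exact hstep _ (by omega) ⟨e, he⟩
  obtain ⟨e, he⟩ := hall n le_rfl
  rw [Nat.sub_self, hA0, wj_zero] at he
  have he2 : ExteriorAlgebra.ι R a = D e := sub_eq_zero.1 he.eq_zero
  let p : Fin n → Module.Dual R (Fin n → R) := fun i => LinearMap.proj i
  let cc : Fin n → Fin n → R := fun i j =>
    ExteriorAlgebra.algebraMapInv (contractLeft (p i) (contractLeft (p j) e))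
  refine ⟨cc, fun i j => ?_, fun i => ?_, fun i => ?_⟩
  · show ExteriorAlgebra.algebraMapInv (contractLeft (p i) (contractLeft (p j) e)) =
      -ExteriorAlgebra.algebraMapInv (contractLeft (p j) (contractLeft (p i) e))
    rw [contractLeft_comm, map_neg]
  · show ExteriorAlgebra.algebraMapInv (contractLeft (p i) (contractLeft (p i) e)) = 0
    rw [contractLeft_contractLeft, map_zero]
  · have h1 : ExteriorAlgebra.algebraMapInv (contractLeft (p i) (ExteriorAlgebra.ι R a)) = a i := by
      have h := contractLeft_ι (Q := (0 : QuadraticForm R (Fin n → R))) (p i) a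
      show ExteriorAlgebra.algebraMapInv
        (contractLeft (p i) (CliffordAlgebra.ι (0 : QuadraticForm R (Fin n → R)) a)) = a i
      rw [h]
      exact ExteriorAlgebra.algebraMap_leftInverse _ _
    rw [← h1, he2]
    have h2 : D e = ∑ j, y j • contractLeft (p j) e := by
      rw [hD]
      unfold dy
      rw [map_sum, LinearMap.sum_apply]
      refine Finset.sum_congr rfl fun j _ => ?_
      rw [map_smul, LinearMap.smul_apply]
    rw [h2, map_sum, map_sum]
    refine Finset.sum_congr rfl fun j _ => ?_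
    rw [map_smul, map_smul, smul_eq_mul, mul_comm]

end MPb07157I
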