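import Pool.Agent.Lib.MP_b07157_agL.Lf
import Pool.Agent.Lib.MP_b07157_ag.NewtRootLoc
import Pool.Agent.Lib.MP_b07157_agY.Y7

/-!
# The log canonical threshold at the origin gives a root of the local Bernstein–Sato polynomial
-/

noncomputable section

namespace MPb07157.Lct

open MeasureTheory Filter Topology MvPolynomial Pointwise
open scoped ComplexConjugate ContDiff

variable {n : ℕ} {K : Set (Fin n → ℂ)}

theorem IsTest.conjP_mul {φ : (Fin n → ℂ) → ℂ} (h : IsTest K φ) (P : MvPolynomial (Fin n) ℂ) :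
    IsTest K fun x => conj (eval x P) * φ x :=
  ⟨(Complex.conjCLE.toContinuousLinearMap.contDiff.comp (contDiff_evalP P)).mul h.1, h.comp,
    fun x hx => by rw [h.zero x hx, mul_zero]⟩

/-- The functional equation `h b(s) f^s ∈ D[s] f^{s+1}`, for large real `s`. -/
theorem good_of_inDn_mul {f h : MvPolynomial (Fin n) ℂ} {b : Polynomial ℂ}
    (hb : InDn f 1 (MvPolynomial.C b * liftS h)) {φ : (Fin n → ℂ) → ℂ} (hφ : IsTest K φ) :
    Good K f fun s => b.eval (s : ℂ) * ∫ x, ((NN f x ^ s : ℝ) : ℂ) * (eval x h * φ x) := by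
  refine (good_of_inDn hb φ hφ).congr ?_
  filter_upwards [eventually_ge_atTop (1 : ℝ)] with s hs
  unfold pair
  rw [← integral_const_mul]
  refine integral_congr_ae (Eventually.of_forall fun x => ?_)
  have e1 := NN_rpow_succ f x hs
  have e2 : gs (MvPolynomial.C b * liftS h) s = MvPolynomial.C (b.eval (s : ℂ)) * h := by
    have e3 := gs_liftS h s
    unfold gs at e3 ⊢
    rw [map_mul, e3, map_C]
    rfl
  beta_reduce
  rw [e1, e2, map_mul, eval_C]
  unfold WW
  simp only [Nat.cast_one, pow_one]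
  ring

/-- **The log canonical threshold at the origin gives a root of the local Bernstein–Sato
polynomial** (classical). -/
theorem root_of_lct_form {f : MvPolynomial (Fin n) ℂ} {b : Polynomial ℂ}
    (hb : InDnForm f 1 (b.map (MvPowerSeries.C (σ := Fin n) (R := ℂ))))
    {r c₀ : ℝ} (hr : 0 < r) (hc₀ : 0 < c₀)
    (hint : ∀ t : ℝ, -c₀ < t → t < 0 → IntegrableOn (fun x => NN f x ^ t) (Metric.ball 0 r))
    (hnot : ∀ r' > 0, ¬ IntegrableOn (fun x => NN f x ^ (-c₀)) (Metric.ball 0 r')) :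
    b.eval ((-c₀ : ℝ) : ℂ) = 0 := by
  classical
  obtain ⟨h, hh0, hIn⟩ := hb.exists_poly
  set bf : ContDiffBump (0 : Fin n → ℂ) := ⟨r / 3, r / 2, by positivity, by linarith⟩ with hbf
  set K : Set (Fin n → ℂ) := Metric.closedBall 0 (r / 2) with hKdef
  have hKm : MeasurableSet K := Metric.isClosed_closedBall.measurableSet
  have hKsub : K ⊆ Metric.ball 0 r := Metric.closedBall_subset_ball (by linarith)
  set φ₀ : (Fin n → ℂ) → ℂ := fun x => ((bf x : ℝ) : ℂ) with hφ₀def
  have hφ₀ : IsTest K φ₀ := by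
    refine ⟨Complex.ofRealCLM.contDiff.comp bf.contDiff, isCompact_closedBall _ _, fun x hx => ?_⟩
    have h1 : bf x = 0 := by
      apply bf.zero_of_le_dist
      rw [hKdef, Metric.mem_closedBall, not_le] at hx
      exact hx.le
    simp only [hφ₀def, h1, Complex.ofReal_zero]
  set w : (Fin n → ℂ) → ℝ := fun x => NN h x * bf x with hw
  have hw0 : ∀ x, 0 ≤ w x := fun x => mul_nonneg (NN_nonneg h x) bf.nonneg
  have hwc : Continuous w := (continuous_NN h).mul bf.continuous
  set φ : (Fin n → ℂ) → ℂ := fun x => eval x h * (conj (eval x h) * φ₀ x) with hφdef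
  have hφw : ∀ x, φ x = ((w x : ℝ) : ℂ) := fun x => by
    simp only [hφdef, hw, hφ₀def]
    rw [← mul_assoc, ← ofReal_NN]
    push_cast
    rfl
  have hφ : IsTest K φ := (hφ₀.conjP_mul h).evalP_mul h
  have hint' : ∀ t : ℝ, -c₀ < t → IntegrableOn (fun x => NN f x ^ t) K := by
    intro t ht
    rcases lt_or_ge t 0 with h | h
    · exact (hint t ht h).mono_set hKsub
    · exact ((continuous_NN f).rpow_const fun _ => Or.inr h).continuousOn.integrableOn_compact
        (isCompact_closedBall _ _)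
  obtain ⟨C, hC⟩ := hφ.exists_bound
  have hI : DifferentiableOn ℂ (JJ f φ) {z | -c₀ < z.re} := by
    have := differentiableOn_JJ (e := 0) (C := C) hKm hφ.continuous hint' hφ.zero
      (fun x _ => by rw [Real.rpow_zero, mul_one]; exact hC x)
    simpa using this
  obtain ⟨B, hB1, hB2⟩ :=
    (good_of_inDn_mul hIn (hφ₀.conjP_mul h)).exists_continuation hKm hint'
  obtain ⟨s₁, hs₁⟩ := (hB2.and (eventually_gt_atTop 0)).exists_forall_of_atTop
  have heq : ∀ z : ℂ, -c₀ < z.re → b.eval z * JJ f φ z = B z := by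
    refine eq_of_eq_real ((b.differentiable.differentiableOn).fun_mul hI)
      (hB1.mono fun z hz => ?_) (s₁ := s₁) fun s hs => ?_
    · simp only [Set.mem_ofPred_eq] at hz ⊢
      linarith
    · obtain ⟨h1, h2⟩ := hs₁ s hs
      rw [← h1, JJ_ofReal f φ h2.ne']
  by_contra hne
  -- the sequence
  set σ : ℕ → ℝ := fun k => -c₀ + c₀ / (k + 2) with hσ
  have hσ1 : ∀ k, -c₀ < σ k := fun k => by
    have : 0 < c₀ / ((k : ℝ) + 2) := by positivity
    simp only [hσ]
    linarith
  have hσ2 : ∀ k, σ k ≠ 0 := fun k => by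
    have h1 : c₀ / ((k : ℝ) + 2) < c₀ := by
      rw [div_lt_iff₀ (by positivity)]
      nlinarith [(Nat.cast_nonneg k : (0 : ℝ) ≤ k)]
    simp only [hσ]
    intro h
    linarith
  have hσlim : Tendsto σ atTop (𝓝 (-c₀)) := by
    have h1 : Tendsto (fun k : ℕ => c₀ / ((k : ℝ) + 2)) atTop (𝓝 0) := by
      apply Tendsto.const_div_atTop
      exact tendsto_atTop_add_const_right _ _ tendsto_natCast_atTop_atTop
    have h2 := h1.const_add (-c₀)
    rwa [add_zero] at h2
  have hσlimC : Tendsto (fun k => ((σ k : ℝ) : ℂ)) atTop (𝓝 ((-c₀ : ℝ) : ℂ)) :=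
    (Complex.continuous_ofReal.tendsto _).comp hσlim
  have hBc : ContinuousAt B ((-c₀ : ℝ) : ℂ) := by
    refine (hB1.differentiableAt ?_).continuousAt
    refine (isOpen_lt continuous_const Complex.continuous_re).mem_nhds ?_
    simp
  have hlim : Tendsto (fun k => JJ f φ (σ k : ℝ)) atTop
      (𝓝 (B ((-c₀ : ℝ) : ℂ) / b.eval ((-c₀ : ℝ) : ℂ))) := by
    have h1 : Tendsto (fun k => B ((σ k : ℝ) : ℂ) / b.eval ((σ k : ℝ) : ℂ)) atTop
        (𝓝 (B ((-c₀ : ℝ) : ℂ) / b.eval ((-c₀ : ℝ) : ℂ))) :=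
      (hBc.tendsto.comp hσlimC).div ((b.continuous.tendsto _).comp hσlimC) hne
    refine h1.congr' ?_
    have h2 : ∀ᶠ k in atTop, b.eval ((σ k : ℝ) : ℂ) ≠ 0 :=
      ((b.continuous.tendsto _).comp hσlimC).eventually_ne hne
    filter_upwards [h2] with k hk
    rw [← heq _ (by simpa using hσ1 k)]
    field_simp
  -- Fatou
  set G : ℕ → (Fin n → ℂ) → ENNReal := fun k x => ENNReal.ofReal (NN f x ^ (σ k) * w x) with hG
  have hGm : ∀ k, Measurable (G k) := fun k =>
    (((continuous_NN f).measurable.pow_const (σ k)).mul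
      hwc.measurable).ennreal_ofReal
  have hGint : ∀ k, Integrable (fun x => NN f x ^ (σ k) * w x)
      (volume.restrict (ZZ f)) := by
    intro k
    have h1 := integrable_exp_lg (e := 0) (C := C) hKm hφ.continuous hint' hφ.zero
      (fun x _ => by rw [Real.rpow_zero, mul_one]; exact hC x) (t := σ k)
      (by rw [sub_zero]; exact hσ1 k)
    refine (integrable_congr ?_).1 h1
    refine (ae_restrict_iff' (measurableSet_ZZ f)).2 (Eventually.of_forall fun x hx => ?_)
    beta_reduce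
    rw [exp_lg hx, hφw, Complex.norm_real, Real.norm_eq_abs, abs_of_nonneg (hw0 x)]
  have hGval : ∀ k, ∫⁻ x, G k x ∂(volume.restrict (ZZ f)) = ENNReal.ofReal ‖JJ f φ (σ k : ℝ)‖ := by
    intro k
    have h1 : JJ f φ (σ k : ℝ) = ((∫ x, NN f x ^ (σ k) * w x ∂(volume.restrict (ZZ f)) : ℝ) : ℂ) := by
      unfold JJ
      rw [← integral_complex_ofReal]
      refine setIntegral_congr_fun (measurableSet_ZZ f) fun x hx => ?_
      beta_reduce
      rw [cexp_lg hx, hφw]
      push_cast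
      rfl
    have h0 : 0 ≤ ∫ x, NN f x ^ (σ k) * w x ∂(volume.restrict (ZZ f)) :=
      integral_nonneg fun x => mul_nonneg (Real.rpow_nonneg (NN_nonneg f x) _) (hw0 x)
    rw [h1, Complex.norm_real, Real.norm_eq_abs, abs_of_nonneg h0,
      ofReal_integral_eq_lintegral_ofReal (hGint k)
        (Eventually.of_forall fun x => mul_nonneg (Real.rpow_nonneg (NN_nonneg f x) _) (hw0 x))]
  have hfatou : ∫⁻ x, liminf (fun k => G k x) atTop ∂(volume.restrict (ZZ f)) ≤
      liminf (fun k => ∫⁻ x, G k x ∂(volume.restrict (ZZ f))) atTop :=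
    lintegral_liminf_le hGm
  have hlim2 : Tendsto (fun k => ∫⁻ x, G k x ∂(volume.restrict (ZZ f))) atTop
      (𝓝 (ENNReal.ofReal ‖B ((-c₀ : ℝ) : ℂ) / b.eval ((-c₀ : ℝ) : ℂ)‖)) := by
    simp only [hGval]
    exact (ENNReal.continuous_ofReal.tendsto _).comp hlim.norm
  rw [hlim2.liminf_eq] at hfatou
  have hptw : ∀ x ∈ ZZ f, liminf (fun k => G k x) atTop = ENNReal.ofReal (NN f x ^ (-c₀) * w x) := by
    intro x hx
    apply Tendsto.liminf_eq
    refine (ENNReal.continuous_ofReal.tendsto _).comp ?_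
    exact ((tendsto_const_nhds.rpow hσlim (Or.inl (NN_pos hx).ne'))).mul_const _
  have hfin : ∫⁻ x in ZZ f, ENNReal.ofReal (NN f x ^ (-c₀) * w x) < ⊤ := by
    rw [← setLIntegral_congr_fun (measurableSet_ZZ f) hptw]
    exact lt_of_le_of_lt hfatou ENNReal.ofReal_lt_top
  -- near the origin `h` is bounded below
  obtain ⟨δ, hδ, hδh⟩ : ∃ δ > 0, ∀ x ∈ Metric.ball (0 : Fin n → ℂ) δ, 1 / 4 ≤ NN h x := by
    have e0 : NN h 0 = 1 := by
      unfold NN
      rw [eval_zero, hh0, map_one]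
    have e1 : ∀ᶠ x in 𝓝 (0 : Fin n → ℂ), 1 / 4 < NN h x := by
      apply (continuous_NN h).continuousAt.eventually_const_lt
      rw [e0]
      norm_num
    obtain ⟨δ, hδ, h2⟩ := Metric.eventually_nhds_iff_ball.1 e1
    exact ⟨δ, hδ, fun x hx => (h2 x hx).le⟩
  set ρ : ℝ := min δ (r / 3) with hρ
  apply hnot ρ (lt_min hδ (by positivity))
  refine ⟨((continuous_NN f).measurable.pow_const _).aestronglyMeasurable, ?_⟩
  unfold HasFiniteIntegral
  have hsub : Metric.ball 0 ρ = (Metric.ball 0 ρ ∩ ZZ f) ∪ (Metric.ball 0 ρ \ ZZ f) :=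
    (Set.inter_union_sdiff _ _).symm
  have hz : ∫⁻ x in Metric.ball 0 ρ \ ZZ f, ‖NN f x ^ (-c₀)‖ₑ = 0 := by
    rw [setLIntegral_congr_fun (g := fun _ => 0)
      (Metric.isOpen_ball.measurableSet.diff (measurableSet_ZZ f))]
    · simp
    · intro x hx
      beta_reduce
      rw [NN_zero hx.2, Real.zero_rpow (by linarith), enorm_zero]
  have h1 : ∫⁻ x in Metric.ball 0 ρ, ‖NN f x ^ (-c₀)‖ₑ ≤
      4 * ∫⁻ x in ZZ f, ENNReal.ofReal (NN f x ^ (-c₀) * w x) := by
    calc ∫⁻ x in Metric.ball 0 ρ, ‖NN f x ^ (-c₀)‖ₑ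
        ≤ (∫⁻ x in Metric.ball 0 ρ ∩ ZZ f, ‖NN f x ^ (-c₀)‖ₑ) +
          ∫⁻ x in Metric.ball 0 ρ \ ZZ f, ‖NN f x ^ (-c₀)‖ₑ := by
          conv_lhs => rw [hsub]
          exact lintegral_union_le _ _ _
      _ = ∫⁻ x in Metric.ball 0 ρ ∩ ZZ f, ‖NN f x ^ (-c₀)‖ₑ := by rw [hz, add_zero]
      _ ≤ ∫⁻ x in Metric.ball 0 ρ ∩ ZZ f, 4 * ENNReal.ofReal (NN f x ^ (-c₀) * w x) := by
          refine setLIntegral_mono_ae' ((Metric.isOpen_ball.measurableSet.inter
            (measurableSet_ZZ f))) (Eventually.of_forall fun x hx => ?_)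
          have h2 : bf x = 1 := by
            apply bf.one_of_mem_closedBall
            exact Metric.ball_subset_closedBall (Metric.ball_subset_ball (min_le_right _ _) hx.1)
          have h3 : 1 / 4 ≤ NN h x :=
            hδh x (Metric.ball_subset_ball (min_le_left _ _) hx.1)
          have h4 : (4 : ENNReal) = ENNReal.ofReal 4 := by norm_num
          rw [Real.enorm_of_nonneg (Real.rpow_nonneg (NN_nonneg f x) _), h4,
            ← ENNReal.ofReal_mul (by norm_num)]
          apply ENNReal.ofReal_le_ofReal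
          simp only [hw]
          rw [h2, mul_one]
          have h5 := Real.rpow_nonneg (NN_nonneg f x) (-c₀)
          nlinarith
      _ = 4 * ∫⁻ x in Metric.ball 0 ρ ∩ ZZ f, ENNReal.ofReal (NN f x ^ (-c₀) * w x) := by
          rw [lintegral_const_mul' _ _ (by norm_num)]
      _ ≤ _ := by
          gcongr
          exact Set.inter_subset_right
  exact lt_of_le_of_lt h1 (ENNReal.mul_lt_top (by norm_num) hfin)

/-- A polynomial without terms of degree less than `d` is `O(‖x‖^d)` at the origin. -/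
theorem exists_norm_le {f : MvPolynomial (Fin n) ℂ} {d : ℕ}
    (hlow : ∀ j < d, homogeneousComponent j f = 0) :
    ∃ C : ℝ, 0 < C ∧ ∀ x ∈ Metric.ball (0 : Fin n → ℂ) 1, ‖eval x f‖ ≤ C * ‖x‖ ^ d := by
  refine ⟨(∑ v ∈ f.support, ‖coeff v f‖) + 1, by positivity, fun x hx => ?_⟩
  rw [mem_ball_zero_iff] at hx
  have h1 : ∀ v ∈ f.support, d ≤ v.degree := by
    intro v hv
    by_contra hlt
    push Not at hlt
    have h2 := hlow _ hlt
    have h3 : coeff v (homogeneousComponent v.degree f) = coeff v f := by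
      rw [coeff_homogeneousComponent, if_pos rfl]
    rw [h2, coeff_zero] at h3
    exact (mem_support_iff.1 hv) h3.symm
  rw [eval_eq]
  calc ‖∑ v ∈ f.support, coeff v f * ∏ i ∈ v.support, x i ^ v i‖
      ≤ ∑ v ∈ f.support, ‖coeff v f * ∏ i ∈ v.support, x i ^ v i‖ := norm_sum_le _ _
    _ ≤ ∑ v ∈ f.support, ‖coeff v f‖ * ‖x‖ ^ d := by
        refine Finset.sum_le_sum fun v hv => ?_
        rw [norm_mul, norm_prod]
        refine mul_le_mul_of_nonneg_left ?_ (norm_nonneg _)
        calc ∏ i ∈ v.support, ‖x i ^ v i‖ ≤ ∏ i ∈ v.support, ‖x‖ ^ v i := by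
              refine Finset.prod_le_prod (fun _ _ => norm_nonneg _) fun i _ => ?_
              rw [norm_pow]
              exact pow_le_pow_left₀ (norm_nonneg _) (norm_le_pi_norm x i) _
          _ = ‖x‖ ^ v.degree := by
              rw [Finset.prod_pow_eq_pow_sum]
              rfl
          _ ≤ ‖x‖ ^ d := pow_le_pow_of_le_one (norm_nonneg _) hx.le (h1 v hv)
    _ = (∑ v ∈ f.support, ‖coeff v f‖) * ‖x‖ ^ d := by rw [Finset.sum_mul]
    _ ≤ _ := by
        have := pow_nonneg (norm_nonneg x) d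
        nlinarith

/-- `‖x‖^{-2n}` is not integrable at the origin. -/
theorem not_integrableOn_norm (hn : 0 < n) {r : ℝ} (hr : 0 < r) :
    ¬ IntegrableOn (fun x : Fin n → ℂ => ‖x‖ ^ (-(2 * n : ℝ))) (Metric.ball (0 : Fin n → ℂ) r) := by
  intro hint
  set g : (Fin n → ℂ) → ℝ := fun x => ‖x‖ ^ (-(2 * n : ℝ)) with hg
  have hg0 : ∀ x, 0 ≤ g x := fun x => Real.rpow_nonneg (norm_nonneg x) _
  have hfin : Module.finrank ℝ (Fin n → ℂ) = 2 * n := by
    rw [Module.finrank_pi_fintype ℝ]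
    simp [Complex.finrank_real_complex, mul_comm]
  have hball : (1 / 2 : ℝ) • Metric.ball (0 : Fin n → ℂ) r = Metric.ball 0 (r / 2) := by
    rw [smul_ball (by norm_num : (1 / 2 : ℝ) ≠ 0), smul_zero]
    congr 1
    rw [Real.norm_eq_abs, abs_of_pos (by norm_num)]
    ring
  have h1 := Measure.setIntegral_comp_smul_of_pos (volume : Measure (Fin n → ℂ)) g
    (Metric.ball (0 : Fin n → ℂ) r) (R := 1 / 2) (by norm_num)
  have h2 : ∀ x, g ((1 / 2 : ℝ) • x) = (2 : ℝ) ^ (2 * n) * g x := by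
    intro x
    simp only [hg]
    rw [norm_smul, Real.mul_rpow (norm_nonneg _) (norm_nonneg x), Real.norm_eq_abs,
      abs_of_pos (by norm_num), Real.rpow_neg (by norm_num)]
    congr 1
    rw [show (2 * n : ℝ) = ((2 * n : ℕ) : ℝ) by push_cast; ring, Real.rpow_natCast, one_div,
      inv_pow, inv_inv]
  simp only [h2] at h1
  rw [integral_const_mul, hball, hfin, smul_eq_mul] at h1
  have h3 : ∫ x in Metric.ball (0 : Fin n → ℂ) r, g x =
      ∫ x in Metric.ball (0 : Fin n → ℂ) (r / 2), g x := by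
    have e : ((1 / 2 : ℝ) ^ (2 * n))⁻¹ = (2 : ℝ) ^ (2 * n) := by
      rw [one_div, inv_pow, inv_inv]
    rw [e] at h1
    exact mul_left_cancel₀ (by positivity) h1
  have hsub : Metric.ball (0 : Fin n → ℂ) (r / 2) ⊆ Metric.ball 0 r :=
    Metric.ball_subset_ball (by linarith)
  have h4 : ∫ x in Metric.ball (0 : Fin n → ℂ) r \ Metric.ball 0 (r / 2), g x = 0 := by
    rw [setIntegral_sdiff Metric.isOpen_ball.measurableSet hint hsub, h3, sub_self]
  have h5 : g =ᵐ[volume.restrict (Metric.ball (0 : Fin n → ℂ) r \ Metric.ball 0 (r / 2))] 0 :=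
    (setIntegral_eq_zero_iff_of_nonneg_ae (Eventually.of_forall hg0)
      (hint.mono_set Set.sdiff_subset)).1 h4
  set U : Set (Fin n → ℂ) := Metric.ball 0 r \ Metric.closedBall 0 (r / 2) with hU
  have hUo : IsOpen U := Metric.isOpen_ball.sdiff Metric.isClosed_closedBall
  have hUne : U.Nonempty := by
    haveI : Nonempty (Fin n) := ⟨⟨0, hn⟩⟩
    obtain ⟨y, hy⟩ := NormedSpace.exists_lt_norm ℝ (Fin n → ℂ) 0
    refine ⟨((3 * r / 4) / ‖y‖) • y, ?_, ?_⟩
    · rw [mem_ball_zero_iff, norm_smul, Real.norm_eq_abs, abs_of_pos (by positivity),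
        div_mul_cancel₀ _ hy.ne']
      linarith
    · rw [mem_closedBall_zero_iff, norm_smul, Real.norm_eq_abs, abs_of_pos (by positivity),
        div_mul_cancel₀ _ hy.ne']
      linarith
  have hUpos : 0 < volume U := hUo.measure_pos volume hUne
  have h6 : volume U = 0 := by
    rw [Filter.EventuallyEq, ae_restrict_iff' (Metric.isOpen_ball.measurableSet.diff
      Metric.isOpen_ball.measurableSet)] at h5
    refine measure_mono_null (fun x hx => ?_) h5
    simp only [Set.mem_compl_iff, Set.mem_ofPred_eq, Classical.not_imp]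
    refine ⟨⟨hx.1, fun h => hx.2 (Metric.ball_subset_closedBall h)⟩, ?_⟩
    simp only [hg, Pi.zero_apply]
    have hx0 : 0 < ‖x‖ := by
      have := hx.2
      rw [mem_closedBall_zero_iff] at this
      push Not at this
      linarith
    exact (Real.rpow_pos_of_pos hx0 _).ne'
  exact hUpos.ne' h6

/-- If `f` has no terms of degree less than `d`, then `|f|^{-2n/d}` is not integrable at the
origin. -/
theorem not_integrableOn_of_low {f : MvPolynomial (Fin n) ℂ} {d : ℕ} (hd : 0 < d)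
    (hn : 0 < n) (hf : f ≠ 0) (hlow : ∀ j < d, homogeneousComponent j f = 0) {r : ℝ}
    (hr : 0 < r) :
    ¬ IntegrableOn (fun x => NN f x ^ (-((n : ℝ) / d))) (Metric.ball (0 : Fin n → ℂ) r) := by
  intro hint
  obtain ⟨C, hC0, hC⟩ := exists_norm_le hlow
  have hd' : (0 : ℝ) < d := by exact_mod_cast hd
  have hn' : (0 : ℝ) < n := by exact_mod_cast hn
  set c : ℝ := (n : ℝ) / d with hc
  have hc0 : 0 < c := by positivity
  set ρ : ℝ := min r 1 with hρ
  have hρ0 : 0 < ρ := lt_min hr one_pos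
  refine not_integrableOn_norm hn hρ0 ?_
  have h1 : IntegrableOn (fun x => (C ^ 2) ^ c * NN f x ^ (-c)) (Metric.ball (0 : Fin n → ℂ) ρ) :=
    (hint.mono_set (Metric.ball_subset_ball (min_le_left _ _))).const_mul _
  refine h1.mono' ?_ ?_
  · exact (measurable_norm.pow_const _).aestronglyMeasurable
  · filter_upwards [ae_restrict_of_ae (s := Metric.ball (0 : Fin n → ℂ) ρ)
      (Alp.ae_eval_ne_zero hf), ae_restrict_mem Metric.isOpen_ball.measurableSet] with x hx hxb
    rw [Real.norm_eq_abs, abs_of_nonneg (Real.rpow_nonneg (norm_nonneg x) _)]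
    have hNN : 0 < NN f x := Complex.normSq_pos.2 hx
    have hx0 : x ≠ 0 := by
      rintro rfl
      apply hx
      rw [eval_zero, constantCoeff_eq, ← coeff_zero (0 : Fin n →₀ ℕ), ← hlow 0 hd,
        coeff_homogeneousComponent]
      simp
    have hxn : 0 < ‖x‖ := norm_pos_iff.2 hx0
    have h2 : NN f x ≤ C ^ 2 * ‖x‖ ^ (2 * d) := by
      have h3 := hC x (Metric.ball_subset_ball (min_le_right _ _) hxb)
      unfold NN
      rw [Complex.normSq_eq_norm_sq]
      calc ‖eval x f‖ ^ 2 ≤ (C * ‖x‖ ^ d) ^ 2 := pow_le_pow_left₀ (norm_nonneg _) h3 2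
        _ = _ := by ring
    have h4 : (C ^ 2 * ‖x‖ ^ (2 * d)) ^ (-c) ≤ NN f x ^ (-c) :=
      Real.rpow_le_rpow_of_nonpos hNN h2 (by linarith)
    have h5 : (C ^ 2 * ‖x‖ ^ (2 * d)) ^ (-c) = ((C ^ 2) ^ c)⁻¹ * ‖x‖ ^ (-(2 * n : ℝ)) := by
      rw [Real.mul_rpow (by positivity) (by positivity), Real.rpow_neg (by positivity) c,
        ← Real.rpow_natCast ‖x‖ (2 * d), ← Real.rpow_mul (norm_nonneg x)]
      congr 2
      rw [hc]
      push_cast
      field_simp
    rw [h5] at h4
    have h6 : 0 < (C ^ 2) ^ c := by positivity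
    calc ‖x‖ ^ (-(2 * n : ℝ)) = (C ^ 2) ^ c * (((C ^ 2) ^ c)⁻¹ * ‖x‖ ^ (-(2 * n : ℝ))) := by
          rw [← mul_assoc, mul_inv_cancel₀ h6.ne', one_mul]
      _ ≤ _ := mul_le_mul_of_nonneg_left h4 h6.le

/-- The log canonical threshold of `f` at the origin is at least `c₀`: near the origin
`|f|^{-2c}` is integrable for all `c < c₀`. -/
def HasLct (f : MvPolynomial (Fin n) ℂ) (c₀ : ℝ) : Prop :=
  ∃ r : ℝ, 0 < r ∧ ∀ c : ℝ, 0 < c → c < c₀ →
    IntegrableOn (fun x => ‖eval x f‖ ^ (-(2 * c))) (Metric.ball (0 : Fin n → ℂ) r)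

/-- **The root `-n/d`** of the local Bernstein–Sato polynomial of a germ of multiplicity `≥ d` with
log canonical threshold at least `n/d`. -/
theorem root_order {f : MvPolynomial (Fin n) ℂ} {d : ℕ} (hd : 0 < d) (hn : 0 < n) (hf : f ≠ 0)
    (hlow : ∀ j < d, homogeneousComponent j f = 0) (hlct : HasLct f ((n : ℝ) / d))
    {b : Polynomial ℂ} (hb : InDnForm f 1 (b.map (MvPowerSeries.C (σ := Fin n) (R := ℂ)))) :
    b.eval (((-((n : ℚ) / d) : ℚ)) : ℂ) = 0 := by
  have hc : (0 : ℝ) < (n : ℝ) / d := by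
    have h1 : (0 : ℝ) < n := by exact_mod_cast hn
    have h2 : (0 : ℝ) < d := by exact_mod_cast hd
    positivity
  obtain ⟨r, hr, hint⟩ := hlct
  have h := root_of_lct_form hb hr hc ?_ ?_
  · rw [← h]
    push_cast
    rfl
  · intro t ht ht0
    have h1 := hint (-t) (by linarith) (by linarith)
    refine h1.congr_fun (fun x _ => ?_) Metric.isOpen_ball.measurableSet
    simp only
    rw [norm_eval_eq, ← Real.rpow_mul (NN_nonneg f x)]
    congr 1
    ring
  · intro r' hr'
    exact not_integrableOn_of_low hd hn hf hlow hr'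

end MPb07157.Lct
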