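import Pool.Agent.Lib.MP_b07157_agQ.LT1

/-!
# Sequences of linear type
-/

noncomputable section

namespace MPb07157I

open MvPolynomial MPb07157Q

variable {R : Type*} [CommRing R] {n : ℕ}

/-- The homogeneous polynomial relations between the elements `x_j` are generated by the linear
ones. -/
def LT (x : Fin n → R) : Prop :=
  ∀ (M : ℕ) (F : MvPolynomial (Fin n) R), F.IsHomogeneous M → eval x F = 0 → F ∈ LI x

/-! ### Homogeneous components -/

theorem hc_mul_X (t : MvPolynomial (Fin n) R) (i : Fin n) (M : ℕ) :
    homogeneousComponent (M + 1) (t * X i) = homogeneousComponent M t * X i := by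
  classical
  ext m
  rw [coeff_homogeneousComponent, coeff_mul_X', coeff_mul_X']
  by_cases hm : i ∈ m.support
  · rw [if_pos hm, if_pos hm, coeff_homogeneousComponent]
    have h1 : m = (m - Finsupp.single i 1) + Finsupp.single i 1 := by
      rw [tsub_add_cancel_of_le]
      rw [Finsupp.single_le_iff]
      exact Nat.one_le_iff_ne_zero.2 (Finsupp.mem_support_iff.1 hm)
    have h2 : m.degree = (m - Finsupp.single i 1).degree + 1 := by
      conv_lhs => rw [h1]
      rw [map_add, Finsupp.degree_single]
    by_cases h : m.degree = M + 1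
    · rw [if_pos h, if_pos (by omega)]
    · rw [if_neg h, if_neg (by omega)]
  · rw [if_neg hm, if_neg hm, ite_self]

theorem hc_mul_C (t : MvPolynomial (Fin n) R) (c : R) (M : ℕ) :
    homogeneousComponent M (t * C c) = homogeneousComponent M t * C c := by
  rw [mul_comm, homogeneousComponent_C_mul, mul_comm]

theorem hc_map {S : Type*} [CommRing S] (π : R →+* S) (t : MvPolynomial (Fin n) R) (M : ℕ) :
    map π (homogeneousComponent M t) = homogeneousComponent M (map π t) := by
  ext m
  rw [coeff_map, coeff_homogeneousComponent, coeff_homogeneousComponent, coeff_map]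
  split_ifs
  · rfl
  · exact map_zero _

/-- Elements of `LI` which are homogeneous come from homogeneous coefficients. -/
theorem LI_homogeneous {x : Fin n → R} {M : ℕ} {F : MvPolynomial (Fin n) R}
    (hF : F.IsHomogeneous (M + 1)) (h : F ∈ LI x) :
    ∃ T : Fin n → MvPolynomial (Fin n) R, (∀ i, (T i).IsHomogeneous M) ∧
      ∑ i, T i * C (x i) = 0 ∧ F = ∑ i, T i * X i := by
  obtain ⟨T, hT, hFT⟩ := mem_LI.1 h
  refine ⟨fun i => homogeneousComponent M (T i), fun i =>
    homogeneousComponent_isHomogeneous M (T i), ?_, ?_⟩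
  · have h1 := congrArg (homogeneousComponent M) hT
    rw [map_sum, map_zero] at h1
    rw [← h1]
    exact Finset.sum_congr rfl fun i _ => (hc_mul_C _ _ _).symm
  · have h1 := congrArg (homogeneousComponent (M + 1)) hFT
    rw [homogeneousComponent_eq_self hF, map_sum] at h1
    rw [h1]
    exact Finset.sum_congr rfl fun i _ => hc_mul_X _ _ _

theorem exists_decomp {M : ℕ} {F : MvPolynomial (Fin n) R} (hF : F.IsHomogeneous (M + 1)) :
    ∃ H : Fin n → MvPolynomial (Fin n) R, (∀ i, (H i).IsHomogeneous M) ∧ F = ∑ i, H i * X i := by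
  classical
  have h1 : ∀ m ∈ F.support, ∃ i, m i ≠ 0 := by
    intro m hm
    by_contra hcon
    push Not at hcon
    have h2 : m = 0 := Finsupp.ext hcon
    have h3 := hF (mem_support_iff.1 hm)
    rw [h2] at h3
    simp at h3
  have h2 : ∀ P : MvPolynomial (Fin n) R, (∀ m ∈ P.support, ∃ i, m i ≠ 0) →
      ∃ H : Fin n → MvPolynomial (Fin n) R, P = ∑ i, H i * X i := by
    intro P hP
    rw [P.as_sum]
    have : ∀ s ⊆ P.support, ∃ H : Fin n → MvPolynomial (Fin n) R,
        ∑ m ∈ s, monomial m (coeff m P) = ∑ i, H i * X i := by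
      intro s
      induction s using Finset.induction_on with
      | empty => exact fun _ => ⟨0, by simp⟩
      | insert m s hms ih =>
        intro hs
        obtain ⟨H, hH⟩ := ih ((Finset.subset_insert _ _).trans hs)
        obtain ⟨i, hi⟩ := hP m (hs (Finset.mem_insert_self _ _))
        refine ⟨H + Pi.single i (monomial (m - Finsupp.single i 1) (coeff m P)), ?_⟩
        rw [Finset.sum_insert hms, hH]
        simp only [Pi.add_apply, add_mul, Finset.sum_add_distrib]
        have h3 : ∑ j, (Pi.single i (monomial (m - Finsupp.single i 1) (coeff m P)) :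
            Fin n → MvPolynomial (Fin n) R) j * X j = monomial m (coeff m P) := by
          rw [Finset.sum_eq_single i]
          · rw [Pi.single_eq_same, X, monomial_mul, mul_one, tsub_add_cancel_of_le]
            rw [Finsupp.single_le_iff]
            exact Nat.one_le_iff_ne_zero.2 hi
          · intro j _ hj
            rw [Pi.single_eq_of_ne hj, zero_mul]
          · intro h
            exact absurd (Finset.mem_univ _) h
        rw [h3, add_comm]
    exact this _ subset_rfl
  obtain ⟨H, hH⟩ := h2 F h1
  refine ⟨fun i => homogeneousComponent M (H i), fun i =>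
    homogeneousComponent_isHomogeneous M (H i), ?_⟩
  have h3 := congrArg (homogeneousComponent (M + 1)) hH
  rw [homogeneousComponent_eq_self hF, map_sum] at h3
  rw [h3]
  exact Finset.sum_congr rfl fun i _ => hc_mul_X _ _ _

theorem eval_of_mem_LI {x : Fin n → R} {F : MvPolynomial (Fin n) R} (h : F ∈ LI x) :
    eval x F = 0 := by
  obtain ⟨T, hT, rfl⟩ := mem_LI.1 h
  have h1 := congrArg (eval x) hT
  rw [map_sum, map_zero] at h1
  rw [map_sum, ← h1]
  refine Finset.sum_congr rfl fun i _ => ?_
  rw [map_mul, map_mul, eval_X, eval_C]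

theorem eq_zero_of_homogeneous_zero {x : Fin n → R} {F : MvPolynomial (Fin n) R}
    (hF : F.IsHomogeneous 0) (h0 : eval x F = 0) : F = 0 := by
  have h1 : F = C (coeff 0 F) := by
    rw [← homogeneousComponent_zero, homogeneousComponent_eq_self hF]
  rw [h1, eval_C] at h0
  rw [h1, h0, C_0]

theorem exists_C_mul {S : Type*} [CommRing S] {π : R →+* S} {z : R}
    (hker : ∀ r, π r = 0 → ∃ s, r = z * s) {M : ℕ} {P : MvPolynomial (Fin n) R}
    (hP : P.IsHomogeneous M) (h : map π P = 0) :
    ∃ U : MvPolynomial (Fin n) R, U.IsHomogeneous M ∧ P = C z * U := by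
  classical
  have h1 : ∀ m, ∃ s, coeff m P = z * s := fun m => hker _ (by rw [← coeff_map, h, coeff_zero])
  choose s hs using h1
  have h2 : P = C z * ∑ m ∈ P.support, monomial m (s m) := by
    conv_lhs => rw [P.as_sum]
    rw [Finset.mul_sum]
    refine Finset.sum_congr rfl fun m _ => ?_
    rw [C_mul_monomial, ← hs m]
  refine ⟨homogeneousComponent M (∑ m ∈ P.support, monomial m (s m)),
    homogeneousComponent_isHomogeneous _ _, ?_⟩
  rw [← homogeneousComponent_C_mul, ← h2, homogeneousComponent_eq_self hP]

theorem eval_map_comp {S : Type*} [CommRing S] (π : R →+* S) (x : Fin n → R)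
    (F : MvPolynomial (Fin n) R) : eval (fun j => π (x j)) (map π F) = π (eval x F) := by
  rw [eval_map, eval₂_comp]
  rfl

/-- One step: from the quotient by `x_k`. -/
theorem LT.step {S : Type*} [CommRing S] {π : R →+* S} (hπ : Function.Surjective π)
    {x : Fin n → R} {k : Fin n} (hker : ∀ r, π r = 0 → ∃ s, r = x k * s)
    (hreg : ∀ r, x k * r = 0 → r = 0) (h : LT fun j => π (x j)) : LT x := by
  classical
  intro M
  induction M with
  | zero =>
    intro F hF h0
    rw [eq_zero_of_homogeneous_zero hF h0]
    exact (LI x).zero_mem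
  | succ M ih =>
    intro F hF h0
    have h1 : map π F ∈ LI fun j => π (x j) := by
      refine h (M + 1) _ (hF.map π) ?_
      rw [eval_map_comp, h0, map_zero]
    obtain ⟨T', hT'h, hT', hFT'⟩ := LI_homogeneous (hF.map π) h1
    have h2 : ∀ i, ∃ t : MvPolynomial (Fin n) R, t.IsHomogeneous M ∧ map π t = T' i := by
      intro i
      obtain ⟨t, ht⟩ := map_surjective π hπ (T' i)
      refine ⟨homogeneousComponent M t, homogeneousComponent_isHomogeneous _ _, ?_⟩
      rw [hc_map, ht, homogeneousComponent_eq_self (hT'h i)]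
    choose T hTh hT using h2
    -- the relation
    have h3 : map π (∑ i, T i * C (x i)) = 0 := by
      rw [map_sum, ← hT']
      refine Finset.sum_congr rfl fun i _ => ?_
      rw [map_mul, hT, map_C]
    have h3h : (∑ i, T i * C (x i)).IsHomogeneous M := by
      refine IsHomogeneous.sum _ _ _ fun i _ => ?_
      rw [mul_comm]
      exact (hTh i).C_mul _
    obtain ⟨U, hUh, hU⟩ := exists_C_mul hker h3h h3
    -- the value
    have h4 : map π (F - ∑ i, T i * X i) = 0 := by
      rw [map_sub, map_sum, hFT', sub_eq_zero]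
      refine Finset.sum_congr rfl fun i _ => ?_
      rw [map_mul, hT, map_X]
    have h4h : (F - ∑ i, T i * X i).IsHomogeneous (M + 1) :=
      hF.sub (IsHomogeneous.sum _ _ _ fun i _ => (hTh i).mul (isHomogeneous_X _ i))
    obtain ⟨H, hHh, hH⟩ := exists_C_mul hker h4h h4
    obtain ⟨G, hGh, hG⟩ := exists_decomp hHh
    let T1 : Fin n → MvPolynomial (Fin n) R := fun i => T i - Pi.single (M := fun _ =>
      MvPolynomial (Fin n) R) k U i
    have hT1 : ∑ i, T1 i * C (x i) = 0 := by
      simp only [T1, sub_mul, Finset.sum_sub_distrib, hU]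
      rw [Finset.sum_eq_single k (fun j _ hj => by rw [Pi.single_eq_of_ne hj, zero_mul])
        (fun h => absurd (Finset.mem_univ _) h), Pi.single_eq_same]
      ring
    have hT1X : ∑ i, T1 i * X i = ∑ i, T i * X i - U * X k := by
      simp only [T1, sub_mul, Finset.sum_sub_distrib]
      rw [Finset.sum_eq_single (f := fun i => Pi.single (M := fun _ =>
        MvPolynomial (Fin n) R) k U i * X i) k (fun j _ hj => by
          rw [Pi.single_eq_of_ne hj, zero_mul])
        (fun h => absurd (Finset.mem_univ _) h), Pi.single_eq_same]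
    have hLI1 : ∑ i, T1 i * X i ∈ LI x := mem_LI.2 ⟨T1, hT1, rfl⟩
    have hF1 : F = ∑ i, T1 i * X i + U * X k + C (x k) * H := by
      rw [hT1X]
      linear_combination hH
    let G' : MvPolynomial (Fin n) R := U + ∑ i, C (x i) * G i
    have hG'h : G'.IsHomogeneous M :=
      hUh.add (IsHomogeneous.sum _ _ _ fun i _ => (hGh i).C_mul _)
    have hG'0 : eval x G' = 0 := by
      apply hreg
      have h5 := congrArg (eval x) hF1
      rw [h0, map_add, map_add, eval_of_mem_LI hLI1, zero_add, map_mul, map_mul, eval_X,
        eval_C, hG, map_sum] at h5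
      simp only [G', map_add, map_sum, map_mul, eval_C]
      rw [mul_add, h5]
      have e1 : ∑ i, eval x (G i * X i) = ∑ i, x i * eval x (G i) := by
        refine Finset.sum_congr rfl fun i _ => ?_
        rw [map_mul, eval_X, mul_comm]
      rw [e1]
      ring
    have h6 := ih G' hG'h hG'0
    have hF2 : F = ∑ i, T1 i * X i + G' * X k + ∑ i, G i * (C (x k) * X i - C (x i) * X k) := by
      rw [hF1, hG]
      simp only [G', add_mul, Finset.sum_mul, Finset.mul_sum, mul_sub, Finset.sum_sub_distrib]
      have e1 : ∑ i, C (x k) * (G i * X i) = ∑ i, G i * (C (x k) * X i) :=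
        Finset.sum_congr rfl fun i _ => by ring
      have e2 : ∑ i, C (x i) * G i * X k = ∑ i, G i * (C (x i) * X k) :=
        Finset.sum_congr rfl fun i _ => by ring
      rw [e1, e2]
      ring
    rw [hF2]
    refine (LI x).add_mem ((LI x).add_mem hLI1 ((LI x).mul_mem_right _ h6))
      ((LI x).sum_mem fun i _ => (LI x).mul_mem_left _ ?_)
    exact two_mem_LI i k (mul_comm _ _)

/-- The base: all elements but one are zero. -/
theorem LT.base {x : Fin n → R} {k : Fin n} (h0 : ∀ j, j ≠ k → x j = 0)
    (hsq : ∀ c, c * x k * x k = 0 → c * x k = 0) : LT x := by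
  classical
  have hX : ∀ j, j ≠ k → (X j : MvPolynomial (Fin n) R) ∈ LI x := by
    intro j hj
    have h1 : ∑ i, (Pi.single j 1 : Fin n → R) i * x i = 0 := by
      rw [Finset.sum_eq_single j (fun i _ hi => by rw [Pi.single_eq_of_ne hi, zero_mul])
        (fun h => absurd (Finset.mem_univ _) h), h0 j hj, mul_zero]
    have h2 := lin_mem_LI h1
    rwa [Finset.sum_eq_single j (fun i _ hi => by rw [Pi.single_eq_of_ne hi, C_0, zero_mul])
        (fun h => absurd (Finset.mem_univ _) h), Pi.single_eq_same, C_1, one_mul] at h2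
  have hmod : ∀ (M : ℕ) (F : MvPolynomial (Fin n) R), F.IsHomogeneous M →
      ∃ c, F - C c * X k ^ M ∈ LI x := by
    intro M
    induction M with
    | zero =>
      intro F hF
      refine ⟨coeff 0 F, ?_⟩
      have h1 : F = C (coeff 0 F) := by
        rw [← homogeneousComponent_zero, homogeneousComponent_eq_self hF]
      rw [pow_zero, mul_one, ← h1, sub_self]
      exact (LI x).zero_mem
    | succ M ih =>
      intro F hF
      obtain ⟨H, hH, hFH⟩ := exists_decomp hF
      obtain ⟨c, hc⟩ := ih (H k) (hH k)
      refine ⟨c, ?_⟩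
      have e : F - C c * X k ^ (M + 1) =
          (H k - C c * X k ^ M) * X k + ∑ j ∈ Finset.univ.erase k, H j * X j := by
        rw [hFH, ← Finset.add_sum_erase Finset.univ _ (Finset.mem_univ k), pow_succ]
        ring
      rw [e]
      refine (LI x).add_mem ((LI x).mul_mem_right _ hc) ((LI x).sum_mem fun j hj =>
        (LI x).mul_mem_left _ (hX j (Finset.ne_of_mem_erase hj)))
  intro M F hF hF0
  cases M with
  | zero =>
    rw [eq_zero_of_homogeneous_zero hF hF0]
    exact (LI x).zero_mem
  | succ M =>
    obtain ⟨c, hc⟩ := hmod (M + 1) F hF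
    have h1 := eval_of_mem_LI hc
    rw [map_sub, hF0, zero_sub, neg_eq_zero, map_mul, map_pow, eval_C, eval_X] at h1
    have h2 : ∀ M : ℕ, c * x k ^ (M + 1) = 0 → c * x k = 0 := by
      intro M
      induction M with
      | zero => intro h; rwa [zero_add, pow_one] at h
      | succ M ih =>
        intro h
        apply ih
        have h3 : (c * x k ^ M) * x k * x k = 0 := by
          rw [← h]
          ring
        have h4 := hsq _ h3
        rw [← h4]
        ring
    have h3 := h2 M h1
    have h4 : (C c * X k : MvPolynomial (Fin n) R) ∈ LI x := by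
      have h5 : ∑ i, (Pi.single k c : Fin n → R) i * x i = 0 := by
        rw [Finset.sum_eq_single k (fun i _ hi => by rw [Pi.single_eq_of_ne hi, zero_mul])
          (fun h => absurd (Finset.mem_univ _) h), Pi.single_eq_same, h3]
      have h6 := lin_mem_LI h5
      rwa [Finset.sum_eq_single k (fun i _ hi => by rw [Pi.single_eq_of_ne hi, C_0, zero_mul])
          (fun h => absurd (Finset.mem_univ _) h), Pi.single_eq_same] at h6
    have e : F = (F - C c * X k ^ (M + 1)) + (C c * X k) * X k ^ M := by
      rw [pow_succ]
      ring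
    rw [e]
    exact (LI x).add_mem hc ((LI x).mul_mem_right _ h4)

/-- Transport along an injective and surjective homomorphism. -/
theorem LT.of_bijective {S : Type*} [CommRing S] {π : R →+* S} (hπ : Function.Bijective π)
    {x : Fin n → R} (h : LT fun j => π (x j)) : LT x := by
  intro M F hF h0
  have h1 : map π F ∈ LI fun j => π (x j) := by
    refine h M _ (hF.map π) ?_
    rw [eval_map_comp, h0, map_zero]
  obtain ⟨T', hT', hFT'⟩ := mem_LI.1 h1
  choose T hT using fun i => map_surjective π hπ.2 (T' i)
  have hinj : Function.Injective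
      (map π : MvPolynomial (Fin n) R →+* MvPolynomial (Fin n) S) := map_injective π hπ.1
  refine mem_LI.2 ⟨T, ?_, ?_⟩
  · apply hinj
    rw [map_sum, map_zero, ← hT']
    refine Finset.sum_congr rfl fun i _ => ?_
    rw [map_mul, hT, map_C]
  · apply hinj
    rw [map_sum, hFT']
    refine Finset.sum_congr rfl fun i _ => ?_
    rw [map_mul, hT, map_X]

/-- Invertible linear changes of the elements. -/
theorem LT.of_matrix {v x : Fin n → R} {A B : Matrix (Fin n) (Fin n) R}
    (hx : ∀ i, x i = ∑ j, A i j * v j) (hv : ∀ i, v i = ∑ j, B i j * x j) (hBA : B * A = 1)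
    (h : LT x) : LT v := by
  classical
  intro M F hF h0
  -- `F(B ξ)`
  let β : Fin n → MvPolynomial (Fin n) R := fun i => ∑ j, C (B i j) * X j
  let α : Fin n → MvPolynomial (Fin n) R := fun i => ∑ j, C (A i j) * X j
  have hβh : ∀ i, (β i).IsHomogeneous 1 := fun i =>
    IsHomogeneous.sum _ _ _ fun j _ => (isHomogeneous_X _ j).C_mul _
  have h1 : (aeval β F).IsHomogeneous M := by
    have := hF.aeval β hβh
    rwa [one_mul] at this
  have h2 : eval x (aeval β F) = 0 := by
    have h3 : eval x (aeval β F) = eval (fun i => eval x (β i)) F := by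
      have : ((aeval x : MvPolynomial (Fin n) R →ₐ[R] R).comp (aeval β)) F =
          aeval (fun i => aeval x (β i)) F := by
        rw [comp_aeval]
      exact this
    have h4 : (fun i => eval x (β i)) = v := by
      funext i
      simp only [β, map_sum, map_mul, eval_C, eval_X]
      exact (hv i).symm
    rw [h3, h4, h0]
  obtain ⟨T, hT, hFT⟩ := mem_LI.1 (h M _ h1 h2)
  have h5 : aeval α (aeval β F) = F := by
    rw [← AlgHom.comp_apply, comp_aeval]
    have : (fun i => aeval α (β i)) = (X : Fin n → MvPolynomial (Fin n) R) := by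
      funext i
      simp only [β, map_sum, map_mul, aeval_X, α]
      have e1 : ∀ j, (aeval fun i => ∑ j, C (A i j) * X j : MvPolynomial (Fin n) R →ₐ[R]
          MvPolynomial (Fin n) R) (C (B i j)) = C (B i j) := fun j => by
        rw [← MvPolynomial.algebraMap_eq, AlgHom.commutes]
      simp only [e1, Finset.mul_sum]
      rw [Finset.sum_comm]
      have e2 : ∀ l, ∑ j, C (B i j) * (C (A j l) * X l) =
          C ((B * A) i l) * (X l : MvPolynomial (Fin n) R) := by
        intro l
        rw [Matrix.mul_apply, map_sum, Finset.sum_mul]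
        refine Finset.sum_congr rfl fun j _ => ?_
        rw [map_mul, mul_assoc]
      rw [Finset.sum_congr rfl fun l _ => e2 l, hBA]
      rw [Finset.sum_eq_single i (fun l _ hl => by
        rw [Matrix.one_apply_ne (Ne.symm hl), C_0, zero_mul])
        (fun h => absurd (Finset.mem_univ _) h), Matrix.one_apply_eq, C_1, one_mul]
    rw [this]
    exact aeval_X_left_apply F
  refine mem_LI.2 ⟨fun j => ∑ i, C (A i j) * aeval α (T i), ?_, ?_⟩
  · have e1 := congrArg (aeval α : MvPolynomial (Fin n) R →ₐ[R] MvPolynomial (Fin n) R) hT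
    rw [map_zero, map_sum] at e1
    rw [← e1]
    simp only [Finset.sum_mul]
    rw [Finset.sum_comm]
    refine Finset.sum_congr rfl fun i _ => ?_
    rw [map_mul, ← MvPolynomial.algebraMap_eq, AlgHom.commutes, hx i, map_sum, Finset.mul_sum]
    refine Finset.sum_congr rfl fun j _ => ?_
    rw [map_mul]
    ring
  · have e1 := congrArg (aeval α : MvPolynomial (Fin n) R →ₐ[R] MvPolynomial (Fin n) R) hFT
    rw [h5, map_sum] at e1
    rw [e1]
    simp only [Finset.sum_mul]
    rw [Finset.sum_comm]
    refine Finset.sum_congr rfl fun i _ => ?_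
    rw [map_mul, aeval_X]
    simp only [α, Finset.mul_sum]
    refine Finset.sum_congr rfl fun j _ => ?_
    ring

end MPb07157I
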