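import Pool.Agent.Lib.MP_b07157_agI.LinA
import Pool.Agent.Lib.MP_b07157_agI.KosB

/-!
# Sequences of linear type: the chain of quotients
-/

noncomputable section

namespace MPb07157I

open MvPolynomial MPb07157Q

section

variable {R : Type*} [CommRing R] {m : ℕ}

/-- The ideal generated by the first `i` elements. -/
def AA (x : Fin (m + 1) → R) (i : ℕ) : Ideal R := Ideal.span (x '' {j | (j : ℕ) < i})

theorem AA_zero (x : Fin (m + 1) → R) : AA x 0 = ⊥ := by
  unfold AA
  simp

theorem AA_mono (x : Fin (m + 1) → R) (i : ℕ) : AA x i ≤ AA x (i + 1) :=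
  Ideal.span_mono (Set.image_mono fun _ hj => Nat.lt_succ_of_lt hj)

theorem AA_succ (x : Fin (m + 1) → R) {i : ℕ} (hi : i < m + 1) :
    AA x (i + 1) = AA x i ⊔ Ideal.span {x ⟨i, hi⟩} := by
  unfold AA
  rw [← Ideal.span_union, ← Set.image_singleton, ← Set.image_union]
  congr 2
  ext j
  simp only [Set.mem_ofPred_eq, Set.mem_union, Set.mem_singleton_iff, Fin.ext_iff]
  omega

/-- A regular sequence, followed by an element such that `c x^2 = 0` implies `c x = 0` in the
quotient, is of linear type. -/
theorem LT.of_seq {x : Fin (m + 1) → R}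
    (hreg : ∀ (i : ℕ) (hi : i < m), ∀ r, r * x ⟨i, Nat.lt_succ_of_lt hi⟩ ∈ AA x i → r ∈ AA x i)
    (hsq : ∀ c, c * x (Fin.last m) * x (Fin.last m) ∈ AA x m → c * x (Fin.last m) ∈ AA x m) :
    LT x := by
  have hmain : ∀ k ≤ m, LT fun j => Ideal.Quotient.mk (AA x (m - k)) (x j) := by
    intro k
    induction k with
    | zero =>
      intro _
      rw [Nat.sub_zero]
      refine LT.base (k := Fin.last m) (fun j hj => ?_) fun c => ?_
      · rw [Ideal.Quotient.eq_zero_iff_mem]
        refine Ideal.subset_span ⟨j, ?_, rfl⟩
        have h1 : (j : ℕ) ≠ m := fun h => hj (Fin.ext h)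
        have h2 := j.2
        show (j : ℕ) < m
        omega
      · obtain ⟨c, rfl⟩ := Ideal.Quotient.mk_surjective c
        intro h
        rw [← map_mul, ← map_mul, Ideal.Quotient.eq_zero_iff_mem] at h
        rw [← map_mul, Ideal.Quotient.eq_zero_iff_mem]
        exact hsq c h
    | succ k ih =>
      intro hk
      have ih' := ih (by omega)
      obtain ⟨i, hi⟩ : ∃ i, i = m - (k + 1) := ⟨_, rfl⟩
      have e1 : m - k = i + 1 := by omega
      have him : i < m := by omega
      rw [← hi]
      rw [e1] at ih'
      refine LT.step (π := Ideal.Quotient.factor (AA_mono x i))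
        (Ideal.Quotient.factor_surjective (AA_mono x i)) (k := ⟨i, Nat.lt_succ_of_lt him⟩)
        (fun r hr => ?_) (fun r hr => ?_) ?_
      · obtain ⟨r, rfl⟩ := Ideal.Quotient.mk_surjective r
        rw [Ideal.Quotient.factor_mk, Ideal.Quotient.eq_zero_iff_mem,
          AA_succ x (Nat.lt_succ_of_lt him)] at hr
        obtain ⟨a, ha, b, hb, hab⟩ := Submodule.mem_sup.1 hr
        obtain ⟨s, hs⟩ := Ideal.mem_span_singleton'.1 hb
        refine ⟨Ideal.Quotient.mk _ s, ?_⟩
        rw [← hab, map_add, Ideal.Quotient.eq_zero_iff_mem.2 ha, zero_add, ← hs, map_mul, mul_comm]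
      · obtain ⟨r, rfl⟩ := Ideal.Quotient.mk_surjective r
        rw [← map_mul, Ideal.Quotient.eq_zero_iff_mem, mul_comm] at hr
        rw [Ideal.Quotient.eq_zero_iff_mem]
        exact hreg i him r hr
      · have e2 : (fun j => Ideal.Quotient.factor (AA_mono x i)
            (Ideal.Quotient.mk (AA x i) (x j))) =
            fun j => Ideal.Quotient.mk (AA x (i + 1)) (x j) := by
          funext j
          rw [Ideal.Quotient.factor_mk]
        rw [e2]
        exact ih'
  have h0 := hmain m le_rfl
  refine LT.of_bijective (π := Ideal.Quotient.mk (AA x (m - m))) ⟨?_, Ideal.Quotient.mk_surjective⟩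
    h0
  intro a b hab
  rw [Ideal.Quotient.eq, Nat.sub_self, AA_zero, Ideal.mem_bot] at hab
  exact sub_eq_zero.1 hab

end

variable {m : ℕ}

/-- Linear type for `n` polynomials in `n` variables such that the first `n - 1` of them and a form
have no common zero outside the origin, and the local condition holds. -/
theorem LT.of_zeros {x y : Fin (m + 1) → MvPolynomial (Fin (m + 1)) ℂ} {e : Fin (m + 1) → ℕ}
    (he : ∀ i, 0 < e i) (hh : ∀ i, (y i).IsHomogeneous (e i))
    (hxy : ∀ i, i ≠ Fin.last m → x i = y i)
    (hy : ∀ p : Fin (m + 1) → ℂ, (∀ i, eval p (y i) = 0) → p = 0)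
    (hloc : ∀ p : Fin (m + 1) → ℂ, p ≠ 0 → (∀ i, eval p (x i) = 0) →
      ∃ a : Fin (m + 1) → MvPolynomial (Fin (m + 1)) ℂ, ∑ i, a i * x i = 0 ∧
        eval p (a (Fin.last m)) ≠ 0) : LT x := by
  classical
  have hAA : ∀ i ≤ m, AA x i = Ideal.span (y '' {j | (j : ℕ) < i}) := by
    intro i hi
    unfold AA
    congr 1
    refine Set.image_congr fun j hj => hxy j ?_
    rintro rfl
    have : m < i := hj
    omega
  refine LT.of_seq (fun i hi r hr => ?_) fun c hc => ?_
  · rw [hAA i hi.le] at hr ⊢
    have hne : (⟨i, Nat.lt_succ_of_lt hi⟩ : Fin (m + 1)) ≠ Fin.last m := fun h =>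
      hi.ne (congrArg Fin.val h)
    rw [hxy _ hne] at hr
    exact regular_of_zeros he hh hy ⟨i, Nat.lt_succ_of_lt hi⟩ hr
  · set u := x (Fin.last m) with hu
    set ℓ := y (Fin.last m) with hℓ
    have hmem : ∀ j, j ≠ Fin.last m → x j ∈ AA x m := fun j hj =>
      Ideal.subset_span ⟨j, by
        have h1 : (j : ℕ) ≠ m := fun h => hj (Fin.ext h)
        have h2 := j.2
        show (j : ℕ) < m
        omega, rfl⟩
    -- the colon ideal
    let I : Ideal (MvPolynomial (Fin (m + 1)) ℂ) :=
      { carrier := {g | g * (c * u) ∈ AA x m}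
        add_mem' := fun {a b} ha hb => by
          show (a + b) * (c * u) ∈ AA x m
          rw [add_mul]
          exact (AA x m).add_mem ha hb
        zero_mem' := by
          show 0 * (c * u) ∈ AA x m
          rw [zero_mul]
          exact (AA x m).zero_mem
        smul_mem' := fun g a ha => by
          show (g * a) * (c * u) ∈ AA x m
          rw [mul_assoc]
          exact (AA x m).mul_mem_left _ ha }
    have hI : ∀ g, g ∈ I ↔ g * (c * u) ∈ AA x m := fun g => Iff.rfl
    have hℓI : ℓ ∈ I.radical := by
      rw [← vanishingIdeal_zeroLocus_eq_radical (K := ℂ), mem_vanishingIdeal_iff]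
      intro p hp
      have hp' : ∀ g ∈ I, eval p g = 0 := fun g hg => hp g hg
      have hp0 : p = 0 := by
        by_contra hne
        have h1 : ∀ i, eval p (x i) = 0 := by
          intro i
          by_cases hi : i = Fin.last m
          · rw [hi]
            apply hp'
            rw [hI, ← hu]
            have : u * (c * u) = c * u * u := by ring
            rw [this]
            exact hc
          · apply hp'
            rw [hI]
            exact (AA x m).mul_mem_right _ (hmem i hi)
        obtain ⟨a, ha, hap⟩ := hloc p hne h1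
        apply hap
        apply hp'
        rw [hI]
        rw [← Finset.add_sum_erase Finset.univ _ (Finset.mem_univ (Fin.last m))] at ha
        have e1 : a (Fin.last m) * (c * u) =
            -(c * ∑ i ∈ Finset.univ.erase (Fin.last m), a i * x i) := by
          linear_combination c * ha
        rw [e1]
        refine (AA x m).neg_mem ((AA x m).mul_mem_left _ ((AA x m).sum_mem fun i hi =>
          (AA x m).mul_mem_left _ (hmem i (Finset.ne_of_mem_erase hi))))
      have h2 : eval (0 : Fin (m + 1) → ℂ) ℓ = 0 := by
        rw [MvPolynomial.eval_zero, constantCoeff_eq]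
        apply (hh (Fin.last m)).coeff_eq_zero
        rw [map_zero]
        exact (he _).ne
      rw [hp0]
      exact h2
    obtain ⟨N, hN⟩ := hℓI
    have hN' : ℓ ^ (N + 1) ∈ I := by
      rw [pow_succ]
      exact I.mul_mem_right _ hN
    rw [hI] at hN'
    -- a power of `ℓ` is regular modulo the first elements
    let y' : Fin (m + 1) → MvPolynomial (Fin (m + 1)) ℂ := fun j =>
      if j = Fin.last m then ℓ ^ (N + 1) else y j
    let e' : Fin (m + 1) → ℕ := fun j => if j = Fin.last m then e j * (N + 1) else e j
    have h3 := regular_of_zeros (y := y') (e := e') (fun i => ?_) (fun i => ?_) (fun p hp => ?_)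
      (Fin.last m) (r := c * u) ?_
    · rw [hAA m le_rfl]
      have e1 : y' '' {j | j < Fin.last m} = y '' {j | (j : ℕ) < m} := by
        have e2 : {j : Fin (m + 1) | j < Fin.last m} = {j : Fin (m + 1) | (j : ℕ) < m} := rfl
        rw [e2]
        refine Set.image_congr fun j hj => ?_
        show (if j = Fin.last m then ℓ ^ (N + 1) else y j) = y j
        rw [if_neg]
        rintro rfl
        exact lt_irrefl m hj
      rw [← e1]
      exact h3
    · show 0 < (if i = Fin.last m then e i * (N + 1) else e i)
      split_ifs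
      · exact Nat.mul_pos (he i) (Nat.succ_pos N)
      · exact he i
    · show (if i = Fin.last m then ℓ ^ (N + 1) else y i).IsHomogeneous
        (if i = Fin.last m then e i * (N + 1) else e i)
      split_ifs with h
      · rw [h]
        exact (hh _).pow _
      · exact hh i
    · apply hy
      intro i
      have h4 := hp i
      have e1 : y' i = if i = Fin.last m then ℓ ^ (N + 1) else y i := rfl
      rw [e1] at h4
      split_ifs at h4 with h
      · rw [map_pow] at h4
        rw [h]
        exact pow_eq_zero_iff (Nat.succ_ne_zero N) |>.1 h4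
      · exact h4
    · have e1 : y' (Fin.last m) = ℓ ^ (N + 1) := if_pos rfl
      have e2 : y' '' {j | j < Fin.last m} = y '' {j | (j : ℕ) < m} := by
        have e2 : {j : Fin (m + 1) | j < Fin.last m} = {j : Fin (m + 1) | (j : ℕ) < m} := rfl
        rw [e2]
        refine Set.image_congr fun j hj => ?_
        show (if j = Fin.last m then ℓ ^ (N + 1) else y j) = y j
        rw [if_neg]
        rintro rfl
        exact lt_irrefl m hj
      rw [e1, e2, ← hAA m le_rfl, mul_comm]
      exact hN'

end MPb07157I
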