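import Mathlib

/-!
# Chains of prime ideals above the ideals of lines
-/

noncomputable section

namespace MPb07157I

open MvPolynomial

variable {n : ℕ}

/-! ### Lengths of chains of primes -/

/-- Each chain of primes above `P` has at most `k` steps. -/
def Dle {R : Type*} [CommRing R] : ℕ → Ideal R → Prop
  | 0, P => ∀ Q : Ideal R, Q.IsPrime → ¬ P < Q
  | k + 1, P => ∀ Q : Ideal R, Q.IsPrime → P < Q → Dle k Q

theorem Dle.mono {R : Type*} [CommRing R] {k : ℕ} {P Q : Ideal R} (h : Dle k P) (hPQ : P ≤ Q) :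
    Dle k Q := by
  cases k with
  | zero => exact fun Q' hQ' hlt => h Q' hQ' (hPQ.trans_lt hlt)
  | succ k => exact fun Q' hQ' hlt => h Q' hQ' (hPQ.trans_lt hlt)

theorem Dle.succ {R : Type*} [CommRing R] {k : ℕ} {P : Ideal R} (h : Dle k P) : Dle (k + 1) P := by
  induction k generalizing P with
  | zero => exact fun Q hQ hlt => absurd hlt (h Q hQ)
  | succ k ih => exact fun Q hQ hlt => ih (h Q hQ hlt)

theorem Dle.le {R : Type*} [CommRing R] {k l : ℕ} {P : Ideal R} (h : Dle k P) (hkl : k ≤ l) :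
    Dle l P := by
  obtain ⟨j, rfl⟩ := Nat.exists_eq_add_of_le hkl
  induction j with
  | zero => exact h
  | succ j ih => exact (ih (Nat.le_add_right _ _)).succ

theorem dle_of_coheight {R : Type*} [CommRing R] {k : ℕ} {P : PrimeSpectrum R}
    (h : Order.coheight P ≤ k) : Dle k P.asIdeal := by
  induction k generalizing P with
  | zero =>
    intro Q hQ hlt
    have h1 : P < ⟨Q, hQ⟩ := hlt
    have h2 := Order.coheight_add_one_le h1
    have h3 := h2.trans h
    simp at h3
  | succ k ih =>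
    intro Q hQ hlt
    have h1 : P < ⟨Q, hQ⟩ := hlt
    have h2 := (Order.coheight_add_one_le h1).trans h
    refine ih (P := ⟨Q, hQ⟩) ?_
    rw [Nat.cast_add, Nat.cast_one] at h2
    exact (ENat.add_le_add_iff_right ENat.one_ne_top).1 h2

theorem dle_all (P : Ideal (MvPolynomial (Fin n) ℂ)) [hP : P.IsPrime] : Dle n P := by
  refine dle_of_coheight (P := ⟨P, hP⟩) ?_
  have h1 := Order.coheight_le_krullDim (⟨P, hP⟩ : PrimeSpectrum (MvPolynomial (Fin n) ℂ))
  have h2 : Order.krullDim (PrimeSpectrum (MvPolynomial (Fin n) ℂ)) = (n : ℕ∞) := by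
    have := MvPolynomial.ringKrullDim_of_isNoetherianRing (R := ℂ) (ι := Fin n)
    rw [ringKrullDim] at this
    rw [this]
    simp
  rw [h2] at h1
  exact_mod_cast h1

/-! ### Lines -/

/-- The restriction to the line through `0` and `b`. -/
def lineH (b : Fin n → ℂ) : MvPolynomial (Fin n) ℂ →ₐ[ℂ] Polynomial ℂ :=
  aeval fun i => Polynomial.C (b i) * Polynomial.X

theorem eval_lineH (b : Fin n → ℂ) (c : ℂ) (f : MvPolynomial (Fin n) ℂ) :
    (lineH b f).eval c = eval (c • b) f := by
  unfold lineH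
  induction f using MvPolynomial.induction_on with
  | C a =>
    rw [← MvPolynomial.algebraMap_eq, AlgHom.commutes]
    simp
  | add p q hp hq => rw [map_add, Polynomial.eval_add, hp, hq, map_add]
  | mul_X p i hp =>
    rw [map_mul, Polynomial.eval_mul, hp, map_mul, aeval_X, eval_X, Polynomial.eval_mul,
      Polynomial.eval_C, Polynomial.eval_X, Pi.smul_apply, smul_eq_mul]
    ring

/-- The ideal of the line. -/
def lineI (b : Fin n → ℂ) : Ideal (MvPolynomial (Fin n) ℂ) := RingHom.ker (lineH b)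

instance lineI_prime (b : Fin n → ℂ) : (lineI b).IsPrime := RingHom.ker_isPrime _

theorem mem_lineI {b : Fin n → ℂ} {f : MvPolynomial (Fin n) ℂ} :
    f ∈ lineI b ↔ ∀ c : ℂ, eval (c • b) f = 0 := by
  unfold lineI
  rw [RingHom.mem_ker]
  constructor
  · intro h c
    rw [← eval_lineH]
    have h' : lineH b f = 0 := h
    rw [h', Polynomial.eval_zero]
  · intro h
    show lineH b f = 0
    apply Polynomial.funext
    intro c
    rw [eval_lineH, h c, Polynomial.eval_zero]

theorem lineH_surjective {b : Fin n → ℂ} (hb : b ≠ 0) : Function.Surjective (lineH b) := by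
  obtain ⟨j, hj⟩ : ∃ j, b j ≠ 0 := by
    by_contra hcon
    push Not at hcon
    exact hb (funext hcon)
  intro P
  refine ⟨Polynomial.aeval (C (b j)⁻¹ * X j) P, ?_⟩
  rw [← Polynomial.aeval_algHom_apply]
  have h1 : lineH b (C (b j)⁻¹ * X j) = Polynomial.X := by
    rw [map_mul]
    unfold lineH
    rw [aeval_X, ← MvPolynomial.algebraMap_eq, AlgHom.commutes]
    rw [Polynomial.algebraMap_eq, ← mul_assoc, ← map_mul, inv_mul_cancel₀ hj, map_one, one_mul]
  rw [h1, Polynomial.aeval_X_left_apply]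

theorem dle_line {b : Fin n → ℂ} (hb : b ≠ 0) : Dle 1 (lineI b) := by
  intro Q hQ hlt Q' hQ' hlt'
  set φ : MvPolynomial (Fin n) ℂ →+* Polynomial ℂ := (lineH b).toRingHom with hφ
  have hsur : Function.Surjective φ := lineH_surjective hb
  have hker : RingHom.ker φ ≤ Q := hlt.le
  have h1 : (Ideal.map φ Q).IsPrime := Ideal.map_isPrime_of_surjective hsur hker
  have h2 : Ideal.comap φ (Ideal.map φ Q) = Q := by
    rw [Ideal.comap_map_of_surjective φ hsur, sup_eq_left]
    exact hker
  have h3 : Ideal.map φ Q ≠ ⊥ := by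
    intro h0
    rw [h0] at h2
    exact hlt.ne h2
  have h4 : (Ideal.map φ Q).IsMaximal := IsPrime.to_maximal_ideal h3
  have h5 : Q.IsMaximal := by
    rw [← h2]
    exact Ideal.comap_isMaximal_of_surjective φ hsur
  exact hlt'.ne (h5.eq_of_le hQ'.ne_top hlt'.le)

theorem lineI_lt_point {p : Fin n → ℂ} (hp : p ≠ 0) :
    lineI p < vanishingIdeal ℂ ({p} : Set (Fin n → ℂ)) := by
  refine lt_of_le_of_ne ?_ ?_
  · intro f hf
    rw [mem_vanishingIdeal_singleton_iff]
    have h := mem_lineI.1 hf 1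
    rw [one_smul] at h
    exact h
  · intro h
    obtain ⟨j, hj⟩ : ∃ j, p j ≠ 0 := by
      by_contra hcon
      push Not at hcon
      exact hp (funext hcon)
    have h1 : (X j - C (p j) : MvPolynomial (Fin n) ℂ) ∈ lineI p := by
      rw [h, mem_vanishingIdeal_singleton_iff]
      simp
    have h2 := mem_lineI.1 h1 0
    rw [zero_smul] at h2
    simp at h2
    exact hj h2

/-- Prime ideals whose zeros are on finitely many lines. -/
theorem dle_of_lines {ι : Type*} {v : ι → MvPolynomial (Fin n) ℂ} {B : Finset (Fin n → ℂ)}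
    (hB : ∀ b ∈ B, b ≠ 0)
    (hcov : ∀ p : Fin n → ℂ, p ≠ 0 → (∀ i, eval p (v i) = 0) → ∃ b ∈ B, ∃ c : ℂ, p = c • b)
    (P : Ideal (MvPolynomial (Fin n) ℂ)) [P.IsPrime] (hv : ∀ i, v i ∈ P) : Dle 1 P := by
  classical
  by_cases h : ∃ b ∈ B, lineI b ≤ P
  · obtain ⟨b, hb, hbP⟩ := h
    exact (dle_line (hB b hb)).mono hbP
  · push Not at h
    have h1 : ∀ b ∈ B, ∃ g ∈ lineI b, g ∉ P := fun b hb => SetLike.not_le_iff_exists.1 (h b hb)
    choose! g hg hgP using h1
    by_cases h0 : vanishingIdeal ℂ ({0} : Set (Fin n → ℂ)) ≤ P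
    · refine Dle.succ ?_
      intro Q hQ hlt
      have hmax : (vanishingIdeal ℂ ({0} : Set (Fin n → ℂ))).IsMaximal :=
        isMaximal_iff_eq_vanishingIdeal_singleton.2 ⟨0, rfl⟩
      have h2 := hmax.eq_of_le hQ.ne_top (h0.trans hlt.le)
      exact hlt.not_ge (h2 ▸ h0)
    · obtain ⟨g0, hg0, hg0P⟩ := SetLike.not_le_iff_exists.1 h0
      exfalso
      have hprod : g0 * ∏ b ∈ B, g b ∉ P := by
        intro hmem
        rcases (inferInstance : P.IsPrime).mem_or_mem hmem with h2 | h2
        · exact hg0P h2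
        · obtain ⟨b, hb, hb2⟩ := ((inferInstance : P.IsPrime).prod_mem_iff).1 h2
          exact hgP b hb hb2
      apply hprod
      rw [← IsPrime.vanishingIdeal_zeroLocus (K := ℂ) P, mem_vanishingIdeal_iff]
      intro x hx
      have hx' : ∀ f ∈ P, eval x f = 0 := fun f hf => hx f hf
      by_cases hx0 : x = 0
      · have h3 := (mem_vanishingIdeal_singleton_iff (k := ℂ) (0 : Fin n → ℂ) g0).1 hg0
        rw [map_mul, hx0, h3, zero_mul]
      · obtain ⟨b, hb, c, hc⟩ := hcov x hx0 fun i => hx' _ (hv i)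
        rw [map_mul, map_prod, Finset.prod_eq_zero hb, mul_zero]
        rw [hc]
        exact mem_lineI.1 (hg b hb) c

end MPb07157I
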