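import Pool.Agent.Lib.MP_b07157_agI.LinB
import Pool.Agent.Lib.MP_b07157_agI.LinC
import Pool.Agent.Lib.MP_b07157_agQ.Lines

/-!
# Linear type for isolated points
-/

noncomputable section

namespace MPb07157I

open MvPolynomial MPb07157Q

variable {m : ℕ}

/-- The combination `∑ A_j v_j`. -/
def comb {n : ℕ} (v : Fin n → MvPolynomial (Fin n) ℂ) (A : Fin n → ℂ) : MvPolynomial (Fin n) ℂ :=
  ∑ j, C (A j) * v j

/-- The coefficient vectors of the combinations in an ideal. -/
def combS {n : ℕ} (v : Fin n → MvPolynomial (Fin n) ℂ) (P : Ideal (MvPolynomial (Fin n) ℂ)) :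
    Submodule ℂ (Fin n → ℂ) where
  carrier := {A | comb v A ∈ P}
  add_mem' := fun {a b} ha hb => by
    show comb v (a + b) ∈ P
    have : comb v (a + b) = comb v a + comb v b := by
      unfold comb
      rw [← Finset.sum_add_distrib]
      refine Finset.sum_congr rfl fun j _ => ?_
      rw [Pi.add_apply, C_add, add_mul]
    rw [this]
    exact P.add_mem ha hb
  zero_mem' := by
    show comb v 0 ∈ P
    have : comb v 0 = 0 := by
      unfold comb
      refine Finset.sum_eq_zero fun j _ => ?_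
      rw [Pi.zero_apply, C_0, zero_mul]
    rw [this]
    exact P.zero_mem
  smul_mem' := fun c a ha => by
    show comb v (c • a) ∈ P
    have : comb v (c • a) = C c * comb v a := by
      unfold comb
      rw [Finset.mul_sum]
      refine Finset.sum_congr rfl fun j _ => ?_
      rw [Pi.smul_apply, smul_eq_mul, C_mul, mul_assoc]
    rw [this]
    exact P.mul_mem_left _ ha

theorem mem_combS {n : ℕ} {v : Fin n → MvPolynomial (Fin n) ℂ}
    {P : Ideal (MvPolynomial (Fin n) ℂ)} {A : Fin n → ℂ} : A ∈ combS v P ↔ comb v A ∈ P := Iff.rfl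

theorem combS_ne_top {n : ℕ} {v : Fin n → MvPolynomial (Fin n) ℂ}
    {P : Ideal (MvPolynomial (Fin n) ℂ)} (h : ¬ ∀ j, v j ∈ P) : combS v P ≠ ⊤ := by
  classical
  intro htop
  apply h
  intro j
  have h1 : (Pi.single j 1 : Fin n → ℂ) ∈ combS v P := by
    rw [htop]
    exact Submodule.mem_top
  rw [mem_combS] at h1
  have h2 : comb v (Pi.single j 1) = v j := by
    unfold comb
    rw [Finset.sum_eq_single j (fun i _ hi => by rw [Pi.single_eq_of_ne hi, C_0, zero_mul])
      (fun h => absurd (Finset.mem_univ _) h), Pi.single_eq_same, C_1, one_mul]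
  rwa [h2] at h1

theorem span_ne_top {r : ℕ} (hr : r < m + 1) (Av : Fin r → (Fin (m + 1) → ℂ)) :
    Submodule.span ℂ (Set.range Av) ≠ ⊤ := by
  intro h
  have h1 : (Set.range Av).finrank ℂ ≤ Fintype.card (Fin r) := finrank_range_le_card Av
  rw [Set.finrank, h, finrank_top, Module.finrank_fintype_fun_eq_card, Fintype.card_fin,
    Fintype.card_fin] at h1
  omega

theorem exists_avoid {n : ℕ} (T : Finset (Submodule ℂ (Fin n → ℂ))) (hT : ∀ p ∈ T, p ≠ ⊤) :
    ∃ A : Fin n → ℂ, ∀ p ∈ T, A ∉ p := by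
  by_contra hcon
  push Not at hcon
  have h1 : (⊤ : Submodule ℂ (Fin n → ℂ)) ∉ T := fun h => hT _ h rfl
  apply Subspace.biUnion_ne_univ_of_top_notMem (s := T) h1
  rw [Set.eq_univ_iff_forall]
  intro A
  obtain ⟨p, hp, hA⟩ := hcon A
  exact Set.mem_biUnion hp hA

theorem exists_generic {v : Fin (m + 1) → MvPolynomial (Fin (m + 1)) ℂ}
    {B : Finset (Fin (m + 1) → ℂ)} (hB : ∀ b ∈ B, b ≠ 0)
    (hcov : ∀ p : Fin (m + 1) → ℂ, p ≠ 0 → (∀ i, eval p (v i) = 0) → ∃ b ∈ B, ∃ c : ℂ, p = c • b)
    (S : Finset (Fin (m + 1) → ℂ)) (hS : ∀ s ∈ S, s ≠ 0) : ∀ r ≤ m,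
    ∃ Av : Fin r → (Fin (m + 1) → ℂ), LinearIndependent ℂ Av ∧
      (∀ s ∈ S, s ∉ Submodule.span ℂ (Set.range Av)) ∧
      ∀ P : Ideal (MvPolynomial (Fin (m + 1)) ℂ), P.IsPrime → (∀ i, comb v (Av i) ∈ P) →
        Dle (m + 1 - r) P := by
  classical
  intro r
  induction r with
  | zero =>
    intro _
    refine ⟨Fin.elim0, linearIndependent_empty_type, fun s hs => ?_, fun P hP _ => ?_⟩
    · rw [Set.range_eq_empty, Submodule.span_empty, Submodule.mem_bot]
      exact hS s hs
    · exact @dle_all (m + 1) P hP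
  | succ r ih =>
    intro hr
    obtain ⟨Av, hli, hSA, hD⟩ := ih (by omega)
    let I : Ideal (MvPolynomial (Fin (m + 1)) ℂ) := Ideal.span (Set.range fun i => comb v (Av i))
    have hfin : I.minimalPrimes.Finite := Ideal.finite_minimalPrimes_of_isNoetherianRing _ I
    let T : Finset (Submodule ℂ (Fin (m + 1) → ℂ)) :=
      ({Submodule.span ℂ (Set.range Av)} ∪
        S.image fun s => Submodule.span ℂ (insert s (Set.range Av))) ∪
        (hfin.toFinset.filter fun P => ¬ ∀ j, v j ∈ P).image (combS v)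
    obtain ⟨A, hA⟩ := exists_avoid T (by
      intro p hp
      rw [Finset.mem_union, Finset.mem_union, Finset.mem_singleton, Finset.mem_image,
        Finset.mem_image] at hp
      rcases hp with (rfl | ⟨s, -, rfl⟩) | ⟨P, hP, rfl⟩
      · exact span_ne_top (by omega) Av
      · have h1 := span_ne_top (m := m) (r := r + 1) (by omega) (Fin.cons s Av)
        rwa [Fin.range_cons] at h1
      · exact combS_ne_top (Finset.mem_filter.1 hP).2)
    have hA1 : A ∉ Submodule.span ℂ (Set.range Av) := hA _ (by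
      rw [Finset.mem_union, Finset.mem_union, Finset.mem_singleton]
      exact Or.inl (Or.inl rfl))
    refine ⟨Fin.snoc Av A, hli.finSnoc hA1, fun s hs hmem => ?_, fun P hP hcomb => ?_⟩
    · rw [Fin.range_snoc] at hmem
      have h1 := mem_span_insert_exchange hmem (hSA s hs)
      refine hA _ ?_ h1
      rw [Finset.mem_union, Finset.mem_union, Finset.mem_image]
      exact Or.inl (Or.inr ⟨s, hs, rfl⟩)
    · have hI : I ≤ P := by
        refine Ideal.span_le.2 ?_
        rintro _ ⟨i, rfl⟩
        have := hcomb (Fin.castSucc i)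
        rwa [Fin.snoc_castSucc] at this
      obtain ⟨P', hP', hle⟩ := Ideal.exists_minimalPrimes_le hI
      have hP'p : P'.IsPrime := hP'.1.1
      by_cases hv : ∀ j, v j ∈ P'
      · exact ((@dle_of_lines (m + 1) _ v B hB hcov P' hP'p hv).mono hle).le (by omega)
      · have h1 : comb v A ∉ P' := by
          intro h2
          refine hA (combS v P') ?_ (mem_combS.2 h2)
          rw [Finset.mem_union, Finset.mem_image]
          exact Or.inr ⟨P', Finset.mem_filter.2 ⟨hfin.mem_toFinset.2 hP', hv⟩, rfl⟩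
        have h2 : comb v A ∈ P := by
          have := hcomb (Fin.last r)
          rwa [Fin.snoc_last] at this
        have hlt : P' < P := lt_of_le_of_ne hle fun h => h1 (h ▸ h2)
        have h3 := hD P' hP'p fun i => hP'.1.2 (Ideal.subset_span ⟨i, rfl⟩)
        have e : m + 1 - r = (m + 1 - (r + 1)) + 1 := by omega
        rw [e] at h3
        exact h3 P hP hlt

theorem isHomogeneous_comb {n : ℕ} {v : Fin n → MvPolynomial (Fin n) ℂ} {e : ℕ}
    (hv : ∀ i, (v i).IsHomogeneous e) (A : Fin n → ℂ) : (comb v A).IsHomogeneous e :=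
  IsHomogeneous.sum _ _ _ fun j _ => (hv j).C_mul _

theorem mem_lineI_of_homogeneous {n e : ℕ} {f : MvPolynomial (Fin n) ℂ} (hf : f.IsHomogeneous e)
    {p : Fin n → ℂ} (h : eval p f = 0) : f ∈ lineI p := by
  rw [mem_lineI]
  intro c
  rw [MPb07157.eval_smul_of_isHomogeneous hf, h, mul_zero]

/-- Homogeneous vector fields. -/
theorem exists_homogeneous_field {n : ℕ} {v : Fin n → MvPolynomial (Fin n) ℂ} {e : ℕ}
    (hv : ∀ i, (v i).IsHomogeneous e) {a : Fin n → MvPolynomial (Fin n) ℂ}
    (ha : ∑ i, a i * v i = 0) {p : Fin n → ℂ} (hp : ∃ i, eval p (a i) ≠ 0) :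
    ∃ (δ : ℕ) (a' : Fin n → MvPolynomial (Fin n) ℂ), (∀ i, (a' i).IsHomogeneous δ) ∧
      ∑ i, a' i * v i = 0 ∧ ∃ i, eval p (a' i) ≠ 0 := by
  obtain ⟨i, hi⟩ := hp
  obtain ⟨δ, hδ⟩ : ∃ δ, eval p (homogeneousComponent δ (a i)) ≠ 0 := by
    by_contra hcon
    push Not at hcon
    apply hi
    rw [← sum_homogeneousComponent (a i), map_sum]
    exact Finset.sum_eq_zero fun δ _ => hcon δ
  refine ⟨δ, fun i => homogeneousComponent δ (a i), fun i =>
    homogeneousComponent_isHomogeneous _ _, ?_, i, hδ⟩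
  have h1 := congrArg (homogeneousComponent (δ + e)) ha
  rw [map_sum, map_zero] at h1
  rw [← h1]
  refine Finset.sum_congr rfl fun j _ => ?_
  rw [hc_mul (hv j), if_pos (Nat.le_add_left _ _), Nat.add_sub_cancel]

/-- **Linear type** for `n` homogeneous polynomials of the same degree in `n` variables with
finitely many common zeros in projective space, at each of which a relation does not vanish. -/
theorem LT.of_isolated {v : Fin (m + 1) → MvPolynomial (Fin (m + 1)) ℂ} {e : ℕ} (he : 0 < e)
    (hv : ∀ i, (v i).IsHomogeneous e) {B : Finset (Fin (m + 1) → ℂ)}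
    (hcov : ∀ p : Fin (m + 1) → ℂ, p ≠ 0 → (∀ i, eval p (v i) = 0) → ∃ b ∈ B, ∃ c : ℂ, p = c • b)
    (hloc : ∀ p : Fin (m + 1) → ℂ, p ≠ 0 → (∀ i, eval p (v i) = 0) →
      ∃ a : Fin (m + 1) → MvPolynomial (Fin (m + 1)) ℂ, ∑ i, a i * v i = 0 ∧
        ∃ i, eval p (a i) ≠ 0) : LT v := by
  classical
  -- the points
  let B' : Finset (Fin (m + 1) → ℂ) := B.filter fun b => b ≠ 0 ∧ ∀ i, eval b (v i) = 0
  have hB' : ∀ b ∈ B', b ≠ 0 := fun b hb => (Finset.mem_filter.1 hb).2.1
  have hcov' : ∀ p : Fin (m + 1) → ℂ, p ≠ 0 → (∀ i, eval p (v i) = 0) →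
      ∃ b ∈ B', ∃ c : ℂ, p = c • b := by
    intro p hp hpv
    obtain ⟨b, hb, c, rfl⟩ := hcov p hp hpv
    have hc : c ≠ 0 := by
      rintro rfl
      exact hp (zero_smul _ _)
    have hb0 : b ≠ 0 := by
      rintro rfl
      exact hp (smul_zero _)
    refine ⟨b, Finset.mem_filter.2 ⟨hb, hb0, fun i => ?_⟩, c, rfl⟩
    have h1 := hpv i
    rw [MPb07157.eval_smul_of_isHomogeneous (hv i)] at h1
    exact (mul_eq_zero.1 h1).resolve_left (pow_ne_zero _ hc)
  have hfield : ∀ b : Fin (m + 1) → ℂ, ∃ (δ : ℕ) (a : Fin (m + 1) → MvPolynomial (Fin (m + 1)) ℂ),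
      b ∈ B' → (∀ i, (a i).IsHomogeneous δ) ∧ ∑ i, a i * v i = 0 ∧ ∃ i, eval b (a i) ≠ 0 := by
    intro b
    by_cases hb : b ∈ B'
    · obtain ⟨a, ha, hab⟩ := hloc b (hB' b hb) (Finset.mem_filter.1 hb).2.2
      obtain ⟨δ, a', h1, h2, h3⟩ := exists_homogeneous_field hv ha hab
      exact ⟨δ, a', fun _ => ⟨h1, h2, h3⟩⟩
    · exact ⟨0, 0, fun h => absurd h hb⟩
  choose δ a ha using hfield
  let S : Finset (Fin (m + 1) → ℂ) := B'.image fun b i => eval b (a b i)
  have hS : ∀ s ∈ S, s ≠ 0 := by
    intro s hs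
    obtain ⟨b, hb, rfl⟩ := Finset.mem_image.1 hs
    obtain ⟨i, hi⟩ := (ha b hb).2.2
    intro h
    exact hi (congrFun h i)
  obtain ⟨Av, hli, hSA, hD⟩ := exists_generic hB' hcov' S hS m le_rfl
  -- the last row
  obtain ⟨A0, hA0⟩ : ∃ A0, A0 ∉ Submodule.span ℂ (Set.range Av) := by
    by_contra hcon
    push Not at hcon
    exact span_ne_top (Nat.lt_succ_self m) Av (eq_top_iff.2 fun x _ => hcon x)
  let Af : Fin (m + 1) → (Fin (m + 1) → ℂ) := Fin.snoc Av A0
  have hAf : LinearIndependent ℂ Af := hli.finSnoc hA0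
  let A : Matrix (Fin (m + 1)) (Fin (m + 1)) ℂ := Matrix.of Af
  have hAu : IsUnit A := Matrix.linearIndependent_rows_iff_isUnit.1 hAf
  obtain ⟨Bm, hBA, hAB⟩ : ∃ Bm : Matrix (Fin (m + 1)) (Fin (m + 1)) ℂ, Bm * A = 1 ∧ A * Bm = 1 := by
    obtain ⟨u, hu⟩ := hAu
    exact ⟨↑u⁻¹, by rw [← hu, Units.inv_mul], by rw [← hu, Units.mul_inv]⟩
  -- the linear form
  let I : Ideal (MvPolynomial (Fin (m + 1)) ℂ) := Ideal.span (Set.range fun i => comb v (Av i))
  have hfin : I.minimalPrimes.Finite := Ideal.finite_minimalPrimes_of_isNoetherianRing _ I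
  obtain ⟨c0, hc0⟩ := exists_avoid
    ((hfin.toFinset.filter fun P => ¬ ∀ j, (X j : MvPolynomial (Fin (m + 1)) ℂ) ∈ P).image
      (combS X)) (by
      intro p hp
      obtain ⟨P, hP, rfl⟩ := Finset.mem_image.1 hp
      exact combS_ne_top (Finset.mem_filter.1 hP).2)
  let x : Fin (m + 1) → MvPolynomial (Fin (m + 1)) ℂ := fun i => comb v (Af i)
  let y : Fin (m + 1) → MvPolynomial (Fin (m + 1)) ℂ := fun i =>
    if i = Fin.last m then comb X c0 else x i
  have hxs : ∀ i : Fin m, x (Fin.castSucc i) = comb v (Av i) := fun i => by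
    show comb v (Af (Fin.castSucc i)) = _
    congr 1
    exact Fin.snoc_castSucc ..
  have hys : ∀ i : Fin m, y (Fin.castSucc i) = comb v (Av i) := fun i => by
    show (if Fin.castSucc i = Fin.last m then comb X c0 else x (Fin.castSucc i)) = _
    rw [if_neg (Fin.castSucc_lt_last i).ne, hxs]
  have hyl : y (Fin.last m) = comb X c0 := if_pos rfl
  have hvx : ∀ i, v i = ∑ j, C (Bm i j) * x j := by
    intro i
    have h1 : ∀ j, C (Bm i j) * x j = ∑ k, C (Bm i j * A j k) * v k := by
      intro j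
      show C (Bm i j) * comb v (Af j) = _
      unfold comb
      rw [Finset.mul_sum]
      refine Finset.sum_congr rfl fun k _ => ?_
      rw [C_mul, mul_assoc]
      rfl
    rw [Finset.sum_congr rfl fun j _ => h1 j, Finset.sum_comm]
    have h2 : ∀ k, ∑ j, C (Bm i j * A j k) * v k = C ((Bm * A) i k) * v k := by
      intro k
      rw [Matrix.mul_apply, map_sum, Finset.sum_mul]
    rw [Finset.sum_congr rfl fun k _ => h2 k, hBA]
    rw [Finset.sum_eq_single i (fun k _ hk => by
      rw [Matrix.one_apply_ne (Ne.symm hk), C_0, zero_mul])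
      (fun h => absurd (Finset.mem_univ _) h), Matrix.one_apply_eq, C_1, one_mul]
  have hLTx : LT x := by
    refine LT.of_zeros (y := y) (e := fun i => if i = Fin.last m then 1 else e)
      (fun i => ?_) (fun i => ?_) (fun i hi => ?_) (fun p hp => ?_) (fun p hp0 hp => ?_)
    · show 0 < (if i = Fin.last m then 1 else e)
      split_ifs
      · exact one_pos
      · exact he
    · show (if i = Fin.last m then comb X c0 else x i).IsHomogeneous
        (if i = Fin.last m then 1 else e)
      split_ifs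
      · exact isHomogeneous_comb (fun j => isHomogeneous_X _ j) c0
      · exact isHomogeneous_comb hv _
    · exact (if_neg hi).symm
    · by_contra hne
      have hI : I ≤ lineI p := by
        refine Ideal.span_le.2 ?_
        rintro _ ⟨i, rfl⟩
        refine mem_lineI_of_homogeneous (isHomogeneous_comb hv _) ?_
        have h1 := hp (Fin.castSucc i)
        rwa [hys] at h1
      obtain ⟨P', hP', hle⟩ := Ideal.exists_minimalPrimes_le hI
      have hP'p : P'.IsPrime := hP'.1.1
      have hX : ¬ ∀ j, (X j : MvPolynomial (Fin (m + 1)) ℂ) ∈ P' := by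
        intro h
        apply hne
        funext j
        have h1 := mem_lineI.1 (hle (h j)) 1
        rwa [one_smul, eval_X] at h1
      have h1 : comb X c0 ∉ P' := by
        intro h2
        refine hc0 (combS X P') ?_ (mem_combS.2 h2)
        exact Finset.mem_image.2
          ⟨P', Finset.mem_filter.2 ⟨hfin.mem_toFinset.2 hP', hX⟩, rfl⟩
      have h2 : comb X c0 ∈ lineI p := by
        refine mem_lineI_of_homogeneous (isHomogeneous_comb (fun j => isHomogeneous_X _ j) c0) ?_
        have := hp (Fin.last m)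
        rwa [hyl] at this
      have hlt : P' < lineI p := lt_of_le_of_ne hle fun h => h1 (h ▸ h2)
      have h3 := hD P' hP'p fun i => hP'.1.2 (Ideal.subset_span ⟨i, rfl⟩)
      have e1 : m + 1 - m = 0 + 1 := by omega
      rw [e1] at h3
      have h4 : Dle 0 (lineI p) := h3 (lineI p) inferInstance hlt
      have h5 : (vanishingIdeal ℂ ({p} : Set (Fin (m + 1) → ℂ))).IsMaximal :=
        isMaximal_iff_eq_vanishingIdeal_singleton.2 ⟨p, rfl⟩
      exact h4 _ h5.isPrime (lineI_lt_point hne)
    · have hpv : ∀ i, eval p (v i) = 0 := by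
        intro i
        rw [hvx i, map_sum]
        refine Finset.sum_eq_zero fun j _ => ?_
        rw [map_mul, hp j, mul_zero]
      obtain ⟨b, hb, c, rfl⟩ := hcov' p hp0 hpv
      have hc : c ≠ 0 := by
        rintro rfl
        exact hp0 (zero_smul _ _)
      obtain ⟨hah, ha0, -⟩ := ha b hb
      refine ⟨fun i => ∑ k, C (Bm k i) * a b k, ?_, ?_⟩
      · rw [← ha0]
        simp only [Finset.sum_mul]
        rw [Finset.sum_comm]
        refine Finset.sum_congr rfl fun k _ => ?_
        rw [hvx k, Finset.mul_sum]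
        refine Finset.sum_congr rfl fun i _ => ?_
        ring
      · intro h0
        have h1 : ∑ k, Bm k (Fin.last m) * eval b (a b k) = 0 := by
          rw [map_sum] at h0
          have h2 : ∀ k, eval (c • b) (C (Bm k (Fin.last m)) * a b k) =
              c ^ δ b * (Bm k (Fin.last m) * eval b (a b k)) := by
            intro k
            rw [map_mul, eval_C, MPb07157.eval_smul_of_isHomogeneous (hah k)]
            ring
          rw [Finset.sum_congr rfl fun k _ => h2 k, ← Finset.mul_sum] at h0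
          exact (mul_eq_zero.1 h0).resolve_left (pow_ne_zero _ hc)
        refine hSA _ (Finset.mem_image.2 ⟨b, hb, rfl⟩) ?_
        -- `s = ∑ (s B)_i A_i`
        have h2 : (fun i => eval b (a b i)) =
            ∑ i, (∑ k, Bm k i * eval b (a b k)) • Af i := by
          funext l
          rw [Finset.sum_apply]
          simp only [Pi.smul_apply, smul_eq_mul, Finset.sum_mul]
          rw [Finset.sum_comm]
          have h3 : ∀ k, ∑ i, Bm k i * eval b (a b k) * Af i l = (Bm * A) k l * eval b (a b k) := by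
            intro k
            rw [Matrix.mul_apply, Finset.sum_mul]
            refine Finset.sum_congr rfl fun i _ => ?_
            show Bm k i * eval b (a b k) * A i l = _
            ring
          rw [Finset.sum_congr rfl fun k _ => h3 k, hBA]
          rw [Finset.sum_eq_single l (fun k _ hk => by
            rw [Matrix.one_apply_ne hk, zero_mul])
            (fun h => absurd (Finset.mem_univ _) h), Matrix.one_apply_eq, one_mul]
        rw [h2, Fin.sum_univ_castSucc, h1, zero_smul, add_zero]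
        refine Submodule.sum_mem _ fun i _ => Submodule.smul_mem _ _ ?_
        have h4 : Af (Fin.castSucc i) = Av i := Fin.snoc_castSucc ..
        rw [h4]
        exact Submodule.subset_span ⟨i, rfl⟩
  refine LT.of_matrix (x := x) (A := A.map C) (B := Bm.map C) (fun i => ?_) (fun i => ?_) ?_ hLTx
  · rfl
  · rw [hvx i]
    rfl
  · rw [← Matrix.map_mul, hBA, Matrix.map_one _ C_0 C_1]

end MPb07157I
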