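import Pool.Agent.Lib.MP_b07157_agI.Root
import Pool.Agent.Lib.MP_b07157_agR.Two

/-!
# Superisolated germs: the root `-4/(d+1)` at a node

Let `f = f_d + f_{d+1} + ...` be a germ in three variables whose tangent cone has a node `q` with
`f_{d+1}(q) != 0`. If `d != 3` then `-4/(d+1)` is a root of every polynomial in the local
Bernstein-Sato ideal of `f`.
-/

noncomputable section

namespace MPb07157

open MvPolynomial

namespace SI

namespace Node

open ARL

/-- The ring `ℂ(T)[[x, y]]`. -/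
abbrev A : Type := MvPowerSeries (Fin 2) (RatFunc ℂ)

/-- The inclusion `ℂ[[x, y]] → ℂ(T)[[x, y]]`. -/
def mp : PC.P2 →ₐ[ℂ] A :=
  { MvPowerSeries.map (algebraMap ℂ (RatFunc ℂ)) with
    commutes' := fun c => by
      refine MvPowerSeries.ext fun v => ?_
      show MvPowerSeries.coeff v (MvPowerSeries.map (algebraMap ℂ (RatFunc ℂ))
        (algebraMap ℂ PC.P2 c)) = _
      rw [MvPowerSeries.coeff_map, MvPowerSeries.algebraMap_apply, MvPowerSeries.algebraMap_apply,
        MvPowerSeries.coeff_C, MvPowerSeries.coeff_C]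
      split_ifs
      · rfl
      · exact map_zero _ }

theorem coeff_mp (h : PC.P2) (v : Fin 2 →₀ ℕ) :
    MvPowerSeries.coeff v (mp h) = algebraMap ℂ (RatFunc ℂ) (MvPowerSeries.coeff v h) := rfl

theorem constantCoeff_mp (h : PC.P2) : MvPowerSeries.constantCoeff (mp h) =
    algebraMap ℂ (RatFunc ℂ) (MvPowerSeries.constantCoeff h) := coeff_mp h 0

theorem mp_X (j : Fin 2) : mp (MvPowerSeries.X j) = MvPowerSeries.X j := by
  refine MvPowerSeries.ext fun v => ?_
  rw [coeff_mp, MvPowerSeries.coeff_X, MvPowerSeries.coeff_X]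
  split_ifs
  · exact map_one _
  · exact map_zero _

theorem DB_mp (j : Fin 2) (h : PC.P2) : DB j 1 0 (mp h) := fun v => by
  rw [coeff_mp, add_zero]
  exact dg_mono (Int.natCast_nonneg _) (dg_algebraMap 1 _)

theorem DB_lg_mp (j : Fin 2) (h : PC.P2) : DB j 1 (-1) (lg j (mp h)) := fun v => by
  rw [coeff_lg, coeff_mp]
  rcases Nat.eq_zero_or_pos (v j) with hv | hv
  · have h0 : ((v j : ℕ) : RatFunc ℂ) = 0 := by rw [hv]; exact Nat.cast_zero
    rw [h0, zero_mul]
    exact (dg 1 _).zero_mem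
  · rw [← map_natCast (algebraMap ℂ (RatFunc ℂ)), ← map_mul]
    exact dg_mono (by omega) (dg_algebraMap 1 _)

theorem cw_mp (δ : Derivation ℂ (RatFunc ℂ) (RatFunc ℂ)) (h : PC.P2) : cw δ (mp h) = 0 := by
  refine MvPowerSeries.ext fun v => ?_
  rw [coeff_cw, coeff_mp, Derivation.map_algebraMap, map_zero]

theorem lg_mp (j : Fin 2) (h : PC.P2) :
    lg j (mp h) = MvPowerSeries.X j * mp (MvPowerSeries.pderiv ℂ j h) := by
  classical
  rw [← mp_X, ← map_mul]
  refine MvPowerSeries.ext fun v => ?_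
  rw [coeff_lg, coeff_mp, coeff_mp, ← map_natCast (algebraMap ℂ (RatFunc ℂ)), ← map_mul]
  congr 1
  have h1 : (MvPowerSeries.X j : PC.P2) = MvPowerSeries.monomial (Finsupp.single j 1) 1 := rfl
  rw [h1, MvPowerSeries.coeff_monomial_mul]
  split_ifs with h2
  · obtain ⟨w, rfl⟩ : ∃ w, v = w + Finsupp.single j 1 := ⟨v - Finsupp.single j 1, by
      rw [tsub_add_cancel_of_le h2]⟩
    rw [add_tsub_cancel_right, MvPowerSeries.coeff_pderiv, Finsupp.add_apply,
      Finsupp.single_eq_same, one_mul]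
    push_cast
    ring
  · have h3 : v j = 0 := by
      by_contra h3
      exact h2 (Finsupp.single_le_iff.2 (Nat.one_le_iff_ne_zero.2 h3))
    rw [h3, Nat.cast_zero, zero_mul]

/-! ### The chart -/

/-- The coordinates of the chart. -/
def xn (q : Fin 3 → ℂ) (j₀ : Fin 3) (θ : Fin 2 → PC.P2) : Fin 3 → A :=
  j₀.insertNth (α := fun _ => A) 1 fun i => mp (θ i) + algebraMap ℂ _ (q (j₀.succAbove i))

theorem aeval_xn {F : MvPolynomial (Fin 3) ℂ} (q : Fin 3 → ℂ) (j₀ : Fin 3)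
    {θ : Fin 2 → PC.P2} :
    aeval (xn q j₀ θ) F = mp (MvPowerSeries.subst θ (gch F q j₀ : PC.P2)) := by
  have h1 : (MvPowerSeries.subst θ (gch F q j₀ : PC.P2) : PC.P2) = aeval θ (gch F q j₀) :=
    MvPowerSeries.subst_coe _
  rw [h1]
  unfold gch
  rw [← AlgHom.comp_apply, ← AlgHom.comp_apply, comp_aeval, comp_aeval]
  congr 2
  funext i
  refine Fin.succAboveCases j₀ ?_ (fun i => ?_) i
  · unfold xn
    rw [Fin.insertNth_apply_same, Fin.insertNth_apply_same]
    simp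
  · unfold xn
    rw [Fin.insertNth_apply_succAbove, Fin.insertNth_apply_succAbove]
    rw [map_add, aeval_X, ← algebraMap_eq, AlgHom.commutes]

theorem constantCoeff_aeval_xn (F : MvPolynomial (Fin 3) ℂ) {q : Fin 3 → ℂ}
    {j₀ : Fin 3} (hq : q j₀ = 1) {θ : Fin 2 → PC.P2}
    (h0 : ∀ i, MvPowerSeries.constantCoeff (θ i) = 0) :
    MvPowerSeries.constantCoeff (aeval (xn q j₀ θ) F) =
      algebraMap ℂ (RatFunc ℂ) (eval q F) := by
  have hx : ∀ i, MvPowerSeries.constantCoeff (xn q j₀ θ i) = algebraMap ℂ (RatFunc ℂ) (q i) := by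
    intro i
    refine Fin.succAboveCases j₀ ?_ (fun i => ?_) i
    · unfold xn
      rw [Fin.insertNth_apply_same, hq, map_one, map_one]
    · unfold xn
      rw [Fin.insertNth_apply_succAbove, map_add, constantCoeff_mp, h0, map_zero,
        zero_add, MvPowerSeries.algebraMap_apply, MvPowerSeries.constantCoeff_C]
  induction F using MvPolynomial.induction_on with
  | C a =>
    rw [← algebraMap_eq, AlgHom.commutes, MvPowerSeries.algebraMap_apply,
      MvPowerSeries.constantCoeff_C, algebraMap_eq, eval_C]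
  | add p p' hp hp' => rw [map_add, map_add, map_add, map_add, hp, hp']
  | mul_X p i hp => rw [map_mul, map_mul, map_mul, map_mul, hp, aeval_X, eval_X, hx]

theorem DB_algebraMap (j : Fin 2) (c : ℂ) : DB j 1 0 (algebraMap ℂ A c) := by
  rw [MvPowerSeries.algebraMap_apply]
  exact DB.C (dg_algebraMap 1 c)

theorem DB_xn (q : Fin 3 → ℂ) (j₀ : Fin 3) (θ : Fin 2 → PC.P2) (j : Fin 2) (i : Fin 3) :
    DB j 1 0 (xn q j₀ θ i) := by
  refine Fin.succAboveCases j₀ ?_ (fun i => ?_) i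
  · unfold xn
    rw [Fin.insertNth_apply_same]
    exact DB.one j 1
  · unfold xn
    rw [Fin.insertNth_apply_succAbove]
    exact (DB_mp j _).add (DB_algebraMap j _)

theorem DB_lg_xn (q : Fin 3 → ℂ) (j₀ : Fin 3) (θ : Fin 2 → PC.P2) (j : Fin 2) (i : Fin 3) :
    DB j 1 (-1) (lg j (xn q j₀ θ i)) := by
  refine Fin.succAboveCases j₀ ?_ (fun i => ?_) i
  · unfold xn
    rw [Fin.insertNth_apply_same, Derivation.map_one_eq_zero]
    intro v
    rw [map_zero]
    exact (dg 1 _).zero_mem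
  · unfold xn
    rw [Fin.insertNth_apply_succAbove, map_add, Derivation.map_algebraMap, add_zero]
    exact DB_lg_mp j _

/-- The exponent of `x^i y^j`. -/
theorem ex_apply_zero (i j : ℕ) : PC.ex i j 0 = i := by
  rw [PC.ex, Finsupp.add_apply, Finsupp.single_eq_same, Finsupp.single_eq_of_ne (by decide),
    add_zero]

theorem ex_apply_one (i j : ℕ) : PC.ex i j 1 = j := by
  rw [PC.ex, Finsupp.add_apply, Finsupp.single_eq_same, Finsupp.single_eq_of_ne (by decide),
    zero_add]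

theorem ex_apply (i : ℕ) (j : Fin 2) : PC.ex i i j = i := by
  fin_cases j
  · exact ex_apply_zero i i
  · exact ex_apply_one i i

/-- The function `u = T x y`. -/
def un : A := MvPowerSeries.monomial (PC.ex 1 1) (RatFunc.X : RatFunc ℂ)

theorem DB_un (j : Fin 2) : DB j 1 0 un := fun v => by
  unfold un
  rw [MvPowerSeries.coeff_monomial]
  split_ifs with h
  · rw [h, ex_apply]
    right
    rw [RatFunc.intDegree_X]
    norm_num
  · exact (dg 1 _).zero_mem

theorem lg_un (j : Fin 2) : lg j un = un := by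
  refine MvPowerSeries.ext fun v => ?_
  rw [coeff_lg]
  unfold un
  rw [MvPowerSeries.coeff_monomial]
  split_ifs with h
  · rw [h, ex_apply, Nat.cast_one, one_mul]
  · rw [mul_zero]

theorem cw_un {δ : Derivation ℂ (RatFunc ℂ) (RatFunc ℂ)} (hX : δ RatFunc.X = 1) :
    cw δ un = MvPowerSeries.monomial (PC.ex 1 1) 1 := by
  refine MvPowerSeries.ext fun v => ?_
  rw [coeff_cw]
  unfold un
  rw [MvPowerSeries.coeff_monomial, MvPowerSeries.coeff_monomial]
  split_ifs with h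
  · exact hX
  · exact map_zero δ

theorem un_pow (k : ℕ) : un ^ k =
    MvPowerSeries.monomial (PC.ex k k) 1 * MvPowerSeries.C (RatFunc.X ^ k : RatFunc ℂ) := by
  have h1 : PC.ex k k = k • PC.ex 1 1 := by
    ext j
    rw [Finsupp.smul_apply, ex_apply, ex_apply, smul_eq_mul, mul_one]
  unfold un
  rw [MvPowerSeries.monomial_pow, h1]
  have h2 := MvPowerSeries.monomial_mul_monomial (k • PC.ex 1 1) 0 (1 : RatFunc ℂ)
    (RatFunc.X ^ k)
  rw [add_zero, one_mul] at h2
  rw [← h2]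
  rfl

theorem ex_add (i j : ℕ) : PC.ex i i + PC.ex j j = PC.ex (i + j) (i + j) := by
  ext l
  rw [Finsupp.add_apply, ex_apply, ex_apply, ex_apply]

theorem mono_mul (i j : ℕ) : (MvPowerSeries.monomial (PC.ex i i) 1 : A) *
    MvPowerSeries.monomial (PC.ex j j) 1 = MvPowerSeries.monomial (PC.ex (i + j) (i + j)) 1 := by
  rw [MvPowerSeries.monomial_mul_monomial, ex_add, one_mul]

/-- Sums of two series, one with a better bound in each direction. -/
def Sp (h : A) : Prop :=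
  ∃ m₁ m₂ : A, h = m₁ + m₂ ∧ DB 0 1 (-1) m₁ ∧ DB 1 1 (-1) m₂

theorem Sp.minor {x x' : A} (hx : ∀ j, DB j 1 0 x) (hx' : ∀ j, DB j 1 0 x')
    (hl : ∀ j, DB j 1 (-1) (lg j x)) (hl' : ∀ j, DB j 1 (-1) (lg j x')) :
    Sp (lg 0 (un * x) * lg 1 (un * x') - lg 1 (un * x) * lg 0 (un * x')) := by
  have e : ∀ (j : Fin 2) (y : A), lg j (un * y) = un * (y + lg j y) := by
    intro j y
    rw [Derivation.leibniz, lg_un, smul_eq_mul, smul_eq_mul]
    ring
  have hl0 : ∀ (i j : Fin 2) (y : A), DB j 1 0 y → DB j 1 0 (lg i y) := fun i j y hy => hy.lg i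
  refine ⟨un * un * (lg 0 x * (x' + lg 1 x') - (x + lg 1 x) * lg 0 x'),
    un * un * (x * lg 1 x' - lg 1 x * x'), ?_, ?_, ?_⟩
  · rw [e, e, e, e]
    ring
  · have h1 := ((hl 0).mul ((hx' 0).add (hl0 1 0 x' (hx' 0))))
    have h2 := (((hx 0).add (hl0 1 0 x (hx 0))).mul (hl' 0))
    rw [add_zero] at h1
    rw [zero_add] at h2
    exact ((((DB_un 0).mul (DB_un 0)).mul (h1.sub h2)).mono (le_of_eq (by ring)))
  · have h1 := (hx 1).mul (hl' 1)
    have h2 := (hl 1).mul (hx' 1)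
    rw [zero_add] at h1
    rw [add_zero] at h2
    exact ((((DB_un 1).mul (DB_un 1)).mul (h1.sub h2)).mono (le_of_eq (by ring)))

theorem Sp.neg {h : A} (hh : Sp h) : Sp (-h) := by
  obtain ⟨m₁, m₂, e, h₁, h₂⟩ := hh
  exact ⟨-m₁, -m₂, by rw [e]; ring, h₁.neg, h₂.neg⟩

/-- The rows. -/
def rw3 : Fin 3 → Fin 2 ⊕ Unit := ![Sum.inr (), Sum.inl 0, Sum.inl 1]

theorem rw3_inr {a : Fin 3} {b : Unit} (h : rw3 a = Sum.inr b) : a = 0 := by
  fin_cases a
  · rfl
  · cases h
  · cases h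

theorem adjugate_Sp (δ : Unit → Derivation ℂ (RatFunc ℂ) (RatFunc ℂ)) {x : Fin 3 → A}
    (hx : ∀ i j, DB j 1 0 (x i)) (hl : ∀ i j, DB j 1 (-1) (lg j (x i))) (i : Fin 3) :
    Sp ((jm (fun a => rowD δ (rw3 a)) fun i => un * x i).adjugate i 0) := by
  have h1 : ∀ i, jm (fun a => rowD δ (rw3 a)) (fun i => un * x i) 1 i = lg 0 (un * x i) :=
    fun i => rfl
  have h2 : ∀ i, jm (fun a => rowD δ (rw3 a)) (fun i => un * x i) 2 i = lg 1 (un * x i) :=
    fun i => rfl
  rw [Matrix.adjugate_fin_three]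
  fin_cases i
  · show Sp (jm (fun a => rowD δ (rw3 a)) (fun i => un * x i) 1 1 *
      jm (fun a => rowD δ (rw3 a)) (fun i => un * x i) 2 2 -
      jm (fun a => rowD δ (rw3 a)) (fun i => un * x i) 1 2 *
      jm (fun a => rowD δ (rw3 a)) (fun i => un * x i) 2 1)
    rw [h1, h1, h2, h2]
    have := Sp.minor (hx 1) (hx 2) (hl 1) (hl 2)
    rwa [mul_comm (lg 1 (un * x 1))] at this
  · show Sp (-(jm (fun a => rowD δ (rw3 a)) (fun i => un * x i) 1 0 *
      jm (fun a => rowD δ (rw3 a)) (fun i => un * x i) 2 2) +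
      jm (fun a => rowD δ (rw3 a)) (fun i => un * x i) 1 2 *
      jm (fun a => rowD δ (rw3 a)) (fun i => un * x i) 2 0)
    rw [h1, h1, h2, h2]
    have := (Sp.minor (hx 0) (hx 2) (hl 0) (hl 2)).neg
    rwa [neg_sub, mul_comm (lg 1 (un * x 0)), sub_eq_neg_add] at this
  · show Sp (jm (fun a => rowD δ (rw3 a)) (fun i => un * x i) 1 0 *
      jm (fun a => rowD δ (rw3 a)) (fun i => un * x i) 2 1 -
      jm (fun a => rowD δ (rw3 a)) (fun i => un * x i) 1 1 *
      jm (fun a => rowD δ (rw3 a)) (fun i => un * x i) 2 0)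
    rw [h1, h1, h2, h2]
    have := Sp.minor (hx 0) (hx 1) (hl 0) (hl 1)
    rwa [mul_comm (lg 1 (un * x 0))] at this

/-- The Jacobian determinant. -/
theorem det_node {δ : Derivation ℂ (RatFunc ℂ) (RatFunc ℂ)} (hX : δ RatFunc.X = 1)
    (q : Fin 3 → ℂ) (j₀ : Fin 3) (θ : Fin 2 → PC.P2) :
    (jm (fun a => rowD (fun _ : Unit => δ) (rw3 a)) fun i => un * xn q j₀ θ i).det =
      MvPowerSeries.monomial (PC.ex 4 4) 1 *
        ((-1) ^ (j₀ : ℕ) * (MvPowerSeries.C (RatFunc.X ^ 2 : RatFunc ℂ) * mp (PC.jac θ))) := by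
  have h1 := det_chart (cw δ) (lg 0) (lg 1) un j₀
    (fun i => mp (θ i) + algebraMap ℂ A (q (j₀.succAbove i))) (fun i => by
      rw [map_add, cw_mp, Derivation.map_algebraMap, add_zero])
    (D := fun a => rowD (fun _ : Unit => δ) (rw3 a)) rfl rfl rfl
  have h2 : (fun i => un * xn q j₀ θ i) = fun i => un * j₀.insertNth (α := fun _ => A) 1
      (fun i => mp (θ i) + algebraMap ℂ A (q (j₀.succAbove i))) i := rfl
  rw [h2, h1, cw_un hX, map_add, map_add, map_add, map_add, Derivation.map_algebraMap,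
    Derivation.map_algebraMap, Derivation.map_algebraMap, Derivation.map_algebraMap, add_zero,
    add_zero, add_zero, add_zero, lg_mp, lg_mp, lg_mp, lg_mp, un_pow]
  have h3 : MvPowerSeries.X 0 * mp (MvPowerSeries.pderiv ℂ 0 (θ 0)) *
        (MvPowerSeries.X 1 * mp (MvPowerSeries.pderiv ℂ 1 (θ 1))) -
      MvPowerSeries.X 0 * mp (MvPowerSeries.pderiv ℂ 0 (θ 1)) *
        (MvPowerSeries.X 1 * mp (MvPowerSeries.pderiv ℂ 1 (θ 0))) =
      MvPowerSeries.monomial (PC.ex 1 1) 1 * mp (PC.jac θ) := by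
    have h4 : (MvPowerSeries.monomial (PC.ex 1 1) 1 : A) =
        MvPowerSeries.X 0 * MvPowerSeries.X 1 := by
      rw [MvPowerSeries.X, MvPowerSeries.X, MvPowerSeries.monomial_mul_monomial, one_mul]
      rfl
    rw [h4]
    unfold PC.jac
    rw [map_sub, map_mul, map_mul]
    ring
  rw [h3]
  have h5 : (MvPowerSeries.monomial (PC.ex 4 4) 1 : A) =
      MvPowerSeries.monomial (PC.ex 1 1) 1 * MvPowerSeries.monomial (PC.ex 2 2) 1 *
        MvPowerSeries.monomial (PC.ex 1 1) 1 := by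
    rw [mono_mul, mono_mul]
  rw [h5]
  ring

theorem un_eq : un = MvPowerSeries.monomial (PC.ex 1 1) 1 * MvPowerSeries.C (RatFunc.X : RatFunc ℂ) := by
  have := un_pow 1
  rwa [pow_one, pow_one] at this

theorem constantCoeff_un : MvPowerSeries.constantCoeff un = 0 := by
  rw [← MvPowerSeries.coeff_zero_eq_constantCoeff_apply, un, MvPowerSeries.coeff_monomial, if_neg]
  intro h
  have h1 := DFunLike.congr_fun h 0
  rw [ex_apply_zero] at h1
  simp at h1

/-- The value of `f` on the chart. -/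
theorem aeval_node {f : MvPolynomial (Fin 3) ℂ} {d : ℕ}
    (hlow : ∀ j < d, homogeneousComponent j f = 0) {q : Fin 3 → ℂ} {j₀ : Fin 3} (hq : q j₀ = 1)
    {θ : Fin 2 → PC.P2} (h0 : ∀ i, MvPowerSeries.constantCoeff (θ i) = 0) {W : PC.P2}
    (hF : MvPowerSeries.subst θ (gch (homogeneousComponent d f) q j₀ : PC.P2) =
      MvPowerSeries.X 0 * MvPowerSeries.X 1 * W) :
    ∃ V : A, aeval (fun i => un * xn q j₀ θ i) f =
        MvPowerSeries.monomial (PC.ex (d + 1) (d + 1)) 1 * V ∧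
      MvPowerSeries.constantCoeff V = RatFunc.X ^ d *
        (algebraMap ℂ (RatFunc ℂ) (MvPowerSeries.constantCoeff W) +
          RatFunc.X * algebraMap ℂ (RatFunc ℂ) (eval q (homogeneousComponent (d + 1) f))) := by
  obtain ⟨G, hG⟩ := aeval_mul_low hlow un (xn q j₀ θ)
  have h4 : (MvPowerSeries.monomial (PC.ex 1 1) 1 : A) =
      MvPowerSeries.X 0 * MvPowerSeries.X 1 := by
    rw [MvPowerSeries.X, MvPowerSeries.X, MvPowerSeries.monomial_mul_monomial, one_mul]
    rfl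
  refine ⟨MvPowerSeries.C (RatFunc.X ^ d : RatFunc ℂ) * (mp W + MvPowerSeries.C RatFunc.X *
    aeval (xn q j₀ θ) (homogeneousComponent (d + 1) f) + MvPowerSeries.C RatFunc.X * (un * G)),
    ?_, ?_⟩
  · rw [hG, aeval_xn, hF, map_mul, map_mul, mp_X, mp_X, ← h4, un_pow, ← mono_mul d 1]
    rw [pow_two]
    conv_lhs => rw [un_eq]
    conv_rhs => rw [un_eq]
    ring
  · rw [map_mul, map_add, map_add, map_mul, map_mul, map_mul, MvPowerSeries.constantCoeff_C,
      MvPowerSeries.constantCoeff_C, constantCoeff_un, zero_mul, mul_zero, add_zero,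
      constantCoeff_aeval_xn _ hq h0, constantCoeff_mp]

theorem DB_cancel {γ : Fin 2 →₀ ℕ} {j : Fin 2} {m : ℤ} (hγ : (γ j : ℤ) = m)
    {F1 : A} (h : DB j 1 0 (MvPowerSeries.monomial γ 1 * F1)) : DB j 1 m F1 := by
  intro v
  have h1 := h (γ + v)
  rw [MvPowerSeries.coeff_add_monomial_mul, one_mul, Finsupp.add_apply] at h1
  refine dg_mono (le_of_eq ?_) h1
  push_cast
  rw [hγ]
  ring

/-! ### The differential equation -/

theorem hom_poly {a b : Polynomial ℂ} (ha : a ≠ 0) (hb : b ≠ 0) {c s D : ℂ} (hc : c ≠ 0)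
    (h : Polynomial.X * (Polynomial.X - Polynomial.C c) *
        (Polynomial.derivative a * b - a * Polynomial.derivative b) +
      Polynomial.C s * (Polynomial.C D * (Polynomial.X - Polynomial.C c) + Polynomial.X) *
        (a * b) = 0) : ∃ m k : ℕ, (m : ℂ) - k + s = 0 := by
  obtain ⟨a₁, ha1, ha2⟩ :=
    Polynomial.exists_eq_pow_rootMultiplicity_mul_and_not_dvd a ha c
  obtain ⟨b₁, hb1, hb2⟩ :=
    Polynomial.exists_eq_pow_rootMultiplicity_mul_and_not_dvd b hb c
  obtain ⟨m, hm⟩ : ∃ m, m = Polynomial.rootMultiplicity c a := ⟨_, rfl⟩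
  obtain ⟨k, hk⟩ : ∃ k, k = Polynomial.rootMultiplicity c b := ⟨_, rfl⟩
  rw [← hm] at ha1
  rw [← hk] at hb1
  refine ⟨m, k, ?_⟩
  set L : Polynomial ℂ := Polynomial.X - Polynomial.C c with hL
  have hL0 : L ≠ 0 := Polynomial.X_sub_C_ne_zero c
  have hdL : Polynomial.derivative L = 1 := by rw [hL, Polynomial.derivative_X_sub_C]
  have da : L * Polynomial.derivative a = L ^ m * (Polynomial.C (m : ℂ) * a₁ +
      L * Polynomial.derivative a₁) := by
    rw [ha1, Polynomial.derivative_mul, Polynomial.derivative_pow, hdL, mul_one]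
    rcases m with _ | m
    · simp
    · rw [Nat.add_sub_cancel]
      ring
  have db : L * Polynomial.derivative b = L ^ k * (Polynomial.C (k : ℂ) * b₁ +
      L * Polynomial.derivative b₁) := by
    rw [hb1, Polynomial.derivative_mul, Polynomial.derivative_pow, hdL, mul_one]
    rcases k with _ | k
    · simp
    · rw [Nat.add_sub_cancel]
      ring
  have h1 : L ^ (m + k) * (Polynomial.X * ((Polynomial.C (m : ℂ) * a₁ +
        L * Polynomial.derivative a₁) * b₁ -
      a₁ * (Polynomial.C (k : ℂ) * b₁ + L * Polynomial.derivative b₁)) +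
      Polynomial.C s * (Polynomial.C D * L + Polynomial.X) * (a₁ * b₁)) = 0 := by
    rw [← h]
    have e1 : Polynomial.X * L * (Polynomial.derivative a * b - a * Polynomial.derivative b) =
        Polynomial.X * ((L * Polynomial.derivative a) * b -
          a * (L * Polynomial.derivative b)) := by ring
    rw [e1, da, db]
    conv_rhs => rw [ha1, hb1]
    ring
  have h2 := (mul_eq_zero.1 h1).resolve_left (pow_ne_zero _ hL0)
  have h3 := congrArg (Polynomial.eval c) h2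
  have hLc : Polynomial.eval c L = 0 := by
    rw [hL, Polynomial.eval_sub, Polynomial.eval_X, Polynomial.eval_C, sub_self]
  simp only [Polynomial.eval_add, Polynomial.eval_mul, Polynomial.eval_sub, Polynomial.eval_C,
    Polynomial.eval_X, hLc, zero_mul, add_zero, mul_zero, zero_add, Polynomial.eval_zero] at h3
  have ha3 : Polynomial.eval c a₁ ≠ 0 := fun h => ha2 (Polynomial.dvd_iff_isRoot.2 h)
  have hb3 : Polynomial.eval c b₁ ≠ 0 := fun h => hb2 (Polynomial.dvd_iff_isRoot.2 h)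
  have h4 : c * (Polynomial.eval c a₁ * Polynomial.eval c b₁) * ((m : ℂ) - k + s) = 0 := by
    linear_combination h3
  exact (mul_eq_zero.1 h4).resolve_left (mul_ne_zero hc (mul_ne_zero ha3 hb3))

theorem hom_rat {δ : Derivation ℂ (RatFunc ℂ) (RatFunc ℂ)}
    (hδ : ∀ P : Polynomial ℂ, δ (algebraMap (Polynomial ℂ) (RatFunc ℂ) P) =
      algebraMap (Polynomial ℂ) (RatFunc ℂ) (Polynomial.derivative P)) {h : RatFunc ℂ}
    (hh : h ≠ 0) {c s D : ℂ} (hc : c ≠ 0)
    (he : RatFunc.X * (RatFunc.X - RatFunc.C c) * δ h +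
      RatFunc.C s * (RatFunc.C D * (RatFunc.X - RatFunc.C c) + RatFunc.X) * h = 0) :
    ∃ m k : ℕ, (m : ℂ) - k + s = 0 := by
  have hb0 : h.denom ≠ 0 := RatFunc.denom_ne_zero h
  have ha0 : h.num ≠ 0 := RatFunc.num_ne_zero hh
  have hb1 : algebraMap (Polynomial ℂ) (RatFunc ℂ) h.denom ≠ 0 := RatFunc.algebraMap_ne_zero hb0
  have e1 : h * algebraMap (Polynomial ℂ) (RatFunc ℂ) h.denom =
      algebraMap (Polynomial ℂ) (RatFunc ℂ) h.num :=
    ((div_eq_iff hb1).1 (RatFunc.num_div_denom h)).symm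
  have e2 := congrArg δ e1
  rw [Derivation.leibniz, smul_eq_mul, smul_eq_mul, hδ, hδ] at e2
  refine hom_poly ha0 hb0 (c := c) (s := s) (D := D) hc ?_
  apply RatFunc.algebraMap_injective ℂ
  rw [map_zero]
  simp only [map_add, map_mul, map_sub, RatFunc.algebraMap_X, RatFunc.algebraMap_C]
  rw [← e1, ← e2]
  linear_combination (algebraMap (Polynomial ℂ) (RatFunc ℂ) h.denom) ^ 2 * he

/-- The equation has no solution of degree at most three. -/
theorem no_sol {δ : Derivation ℂ (RatFunc ℂ) (RatFunc ℂ)}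
    (hδ : ∀ P : Polynomial ℂ, δ (algebraMap (Polynomial ℂ) (RatFunc ℂ) P) =
      algebraMap (Polynomial ℂ) (RatFunc ℂ) (Polynomial.derivative P)) {d : ℕ} (hd : 2 ≤ d)
    (hd3 : d ≠ 3) {W w c₀ : ℂ} (hW : W ≠ 0) (hw : w ≠ 0) (hc₀ : c₀ ≠ 0) {φ : (RatFunc ℂ)ˣ}
    (hφ : (φ : RatFunc ℂ) = RatFunc.X ^ d * (algebraMap ℂ (RatFunc ℂ) W +
      RatFunc.X * algebraMap ℂ (RatFunc ℂ) w)) {r : RatFunc ℂ} (hr : r ∈ dg 1 3)
    (he : algebraMap ℂ (RatFunc ℂ) c₀ * RatFunc.X ^ 2 = δ r +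
      algebraMap ℂ (RatFunc ℂ) (-(4 / ((d : ℂ) + 1))) * (((φ⁻¹ : (RatFunc ℂ)ˣ) : RatFunc ℂ) * δ φ)
        * r) : False := by
  have hX : δ RatFunc.X = 1 := by
    have := hδ Polynomial.X
    rwa [Polynomial.derivative_X, map_one, RatFunc.algebraMap_X] at this
  have hC : ∀ c : ℂ, δ (algebraMap ℂ (RatFunc ℂ) c) = 0 := fun c => Derivation.map_algebraMap δ c
  have hd1 : (d : ℂ) + 1 ≠ 0 := by exact_mod_cast Nat.succ_ne_zero d
  have hd3' : (3 : ℂ) - d ≠ 0 := by
    intro h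
    apply hd3
    have h1 : (d : ℂ) = 3 := (sub_eq_zero.1 h).symm
    exact_mod_cast h1
  obtain ⟨s, hs⟩ : ∃ s : ℂ, s = -(4 / ((d : ℂ) + 1)) := ⟨_, rfl⟩
  rw [← hs] at he
  have hs1 : s * ((d : ℂ) + 1) = -4 := by
    rw [hs]
    field_simp
  have hs2 : 3 + s * d ≠ 0 := by
    intro h
    apply hd3'
    have h1 : (3 + s * d) * ((d : ℂ) + 1) = 3 - d := by
      linear_combination (d : ℂ) * hs1
    rw [← h1, h, zero_mul]
  set x : RatFunc ℂ := RatFunc.X with hx
  set W' : RatFunc ℂ := algebraMap ℂ (RatFunc ℂ) W with hW'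
  set w' : RatFunc ℂ := algebraMap ℂ (RatFunc ℂ) w with hw'
  have hx0 : x ≠ 0 := RatFunc.X_ne_zero
  have hφ0 : (φ : RatFunc ℂ) ≠ 0 := Units.ne_zero φ
  have hU : W' + x * w' ≠ 0 := by
    intro h
    rw [h, mul_zero] at hφ
    exact hφ0 hφ
  have hw0 : w' ≠ 0 := by
    intro h
    exact hw ((map_eq_zero_iff _ (algebraMap ℂ (RatFunc ℂ)).injective).1 h)
  -- the logarithmic derivative
  have hlog : x * (W' + x * w') * (((φ⁻¹ : (RatFunc ℂ)ˣ) : RatFunc ℂ) * δ φ) =
      (d : RatFunc ℂ) * (W' + x * w') + x * w' := by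
    have h1 : δ φ = (d : RatFunc ℂ) * x ^ (d - 1) * (W' + x * w') + x ^ d * w' := by
      rw [hφ, Derivation.leibniz, Derivation.leibniz_pow, map_add, Derivation.leibniz, hW', hC, hw',
        hC, hX]
      simp only [smul_eq_mul, mul_zero, mul_one, zero_add, nsmul_eq_mul]
      ring
    have h2 : x * δ φ = x ^ d * ((d : RatFunc ℂ) * (W' + x * w') + x * w') := by
      rw [h1]
      obtain ⟨k, rfl⟩ : ∃ k, d = k + 1 := ⟨d - 1, by omega⟩
      rw [Nat.add_sub_cancel]
      ring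
    have h3 : ((φ⁻¹ : (RatFunc ℂ)ˣ) : RatFunc ℂ) * (φ : RatFunc ℂ) = 1 := Units.inv_mul φ
    have h4 : x * (W' + x * w') * (((φ⁻¹ : (RatFunc ℂ)ˣ) : RatFunc ℂ) * δ φ) =
        ((φ⁻¹ : (RatFunc ℂ)ˣ) : RatFunc ℂ) * (x ^ d * (W' + x * w')) *
          ((d : RatFunc ℂ) * (W' + x * w') + x * w') := by
      linear_combination (W' + x * w') * ((φ⁻¹ : (RatFunc ℂ)ˣ) : RatFunc ℂ) * h2
    rw [h4, ← hφ, h3, one_mul]
  obtain ⟨c', hc'⟩ : ∃ c' : ℂ, c' * (W * (3 + s * d)) = c₀ :=
    ⟨c₀ / (W * (3 + s * d)), div_mul_cancel₀ _ (mul_ne_zero hW hs2)⟩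
  have hc'0 : c' ≠ 0 := by
    rintro rfl
    exact hc₀ (by rw [← hc', zero_mul])
  -- the particular solution
  obtain ⟨r₁, hr₁⟩ : ∃ r₁ : RatFunc ℂ, r₁ = algebraMap ℂ (RatFunc ℂ) c' * (x ^ 3 * (W' + x * w')) :=
    ⟨_, rfl⟩
  have hr10 : r₁ ≠ 0 := by
    rw [hr₁]
    refine mul_ne_zero ?_ (mul_ne_zero (pow_ne_zero _ hx0) hU)
    intro h
    exact hc'0 ((map_eq_zero_iff _ (algebraMap ℂ (RatFunc ℂ)).injective).1 h)
  have hdeg : r₁.intDegree = 4 := by
    have h1 : r₁ = algebraMap (Polynomial ℂ) (RatFunc ℂ) (Polynomial.C (c' * w) *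
        Polynomial.X ^ 4 + Polynomial.C (c' * W) * Polynomial.X ^ 3) := by
      rw [hr₁, hW', hw', hx]
      simp only [map_add, map_mul, map_pow, RatFunc.algebraMap_X, RatFunc.algebraMap_C,
        ← RatFunc.algebraMap_eq_C]
      ring
    rw [h1, RatFunc.intDegree_polynomial]
    have h2 : (Polynomial.C (c' * w) * Polynomial.X ^ 4 +
        Polynomial.C (c' * W) * Polynomial.X ^ 3 : Polynomial ℂ).natDegree = 4 := by
      have h3 : c' * w ≠ 0 := mul_ne_zero hc'0 hw
      compute_degree!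
    rw [h2]
    rfl
  have hr1e : δ r₁ = algebraMap ℂ (RatFunc ℂ) c' * (3 * x ^ 2 * W' + 4 * x ^ 3 * w') := by
    rw [hr₁, Derivation.leibniz, Derivation.leibniz, Derivation.leibniz_pow, map_add,
      Derivation.leibniz, hW', hC, hw', hC, hX, hC]
    simp only [smul_eq_mul, mul_zero, mul_one, add_zero, zero_add, nsmul_eq_mul]
    push_cast
    ring
  have hsA : algebraMap ℂ (RatFunc ℂ) s * ((d : RatFunc ℂ) + 1) = -4 := by
    have := congrArg (algebraMap ℂ (RatFunc ℂ)) hs1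
    rwa [map_mul, map_add, map_one, map_natCast, map_neg, map_ofNat] at this
  have hcA : algebraMap ℂ (RatFunc ℂ) c' * (W' * (3 + algebraMap ℂ (RatFunc ℂ) s * d)) =
      algebraMap ℂ (RatFunc ℂ) c₀ := by
    have := congrArg (algebraMap ℂ (RatFunc ℂ)) hc'
    rwa [map_mul, map_mul, map_add, map_ofNat, map_mul, map_natCast] at this
  -- the difference
  have hne : r - r₁ ≠ 0 := by
    intro h
    have h1 : r = r₁ := sub_eq_zero.1 h
    rw [h1] at hr
    rcases hr with h2 | h2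
    · exact hr10 h2
    · rw [hdeg] at h2
      norm_num at h2
  set S : RatFunc ℂ := algebraMap ℂ (RatFunc ℂ) s with hS
  set L : RatFunc ℂ := ((φ⁻¹ : (RatFunc ℂ)ˣ) : RatFunc ℂ) * δ φ with hL
  have e1 : x * (W' + x * w') * (δ r₁ + S * L * r₁) = x * (W' + x * w') *
      (algebraMap ℂ (RatFunc ℂ) c₀ * x ^ 2) := by
    have e2 : x * (W' + x * w') * (δ r₁ + S * L * r₁) = x * (W' + x * w') * δ r₁ +
        S * r₁ * ((d : RatFunc ℂ) * (W' + x * w') + x * w') := by
      linear_combination S * r₁ * hlog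
    rw [e2, hr1e, hr₁, ← hcA]
    linear_combination algebraMap ℂ (RatFunc ℂ) c' * x ^ 4 * w' * (W' + x * w') * hsA
  have e3 : x * (W' + x * w') * (δ (r - r₁) + S * L * (r - r₁)) = 0 := by
    rw [map_sub]
    linear_combination (-(x * (W' + x * w'))) * he - e1
  have e4 : x * (W' + x * w') * δ (r - r₁) + S * ((d : RatFunc ℂ) * (W' + x * w') + x * w') *
      (r - r₁) = 0 := by
    linear_combination e3 - S * (r - r₁) * hlog
  have hcw : w' * RatFunc.C (-(W / w)) = -W' := by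
    rw [hw', hW', RatFunc.algebraMap_eq_C, ← map_mul, ← map_neg]
    congr 1
    field_simp
  obtain ⟨m, k, hmk⟩ := hom_rat hδ hne (c := -(W / w)) (s := s) (D := (d : ℂ))
    (neg_ne_zero.2 (div_ne_zero hW hw)) (by
      have h1 : w' * (x * (x - RatFunc.C (-(W / w))) * δ (r - r₁) +
          RatFunc.C s * (RatFunc.C (d : ℂ) * (x - RatFunc.C (-(W / w))) + x) * (r - r₁)) = 0 := by
        have h2 : (RatFunc.C s : RatFunc ℂ) = S := by rw [hS, RatFunc.algebraMap_eq_C]
        have h3 : (RatFunc.C (d : ℂ) : RatFunc ℂ) = d := map_natCast _ d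
        rw [h2, h3, ← e4]
        linear_combination (-(x * δ (r - r₁)) - S * d * (r - r₁)) * hcw
      exact (mul_eq_zero.1 h1).resolve_left hw0)
  -- the arithmetic
  have h1 : ((k : ℂ) - m) * (d + 1) = -4 := by
    rw [← hs1]
    linear_combination (-((d : ℂ) + 1)) * hmk
  have h2 : ((k : ℤ) - m) * ((d : ℤ) + 1) = -4 := by exact_mod_cast h1
  have h3 : ((d : ℤ) + 1) ∣ 4 := ⟨(m : ℤ) - k, by linear_combination h2⟩
  have h4 : (d + 1) ∣ 4 := by exact_mod_cast h3
  have h5 : d ≤ 3 := by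
    have := Nat.le_of_dvd (by norm_num) h4
    omega
  interval_cases d
  · revert h4; decide
  · exact hd3 rfl

end Node

open ARL Node in
/-- **The root `-4/(d+1)`.** -/
theorem root_node {f : MvPolynomial (Fin 3) ℂ} {d : ℕ} (hd : 2 ≤ d) (hd3 : d ≠ 3)
    (hlow : ∀ j < d, homogeneousComponent j f = 0) {q : Fin 3 → ℂ} {j₀ : Fin 3} (hq : q j₀ = 1)
    (hne : eval q (homogeneousComponent (d + 1) f) ≠ 0)
    (hnode : ∃ θ : Fin 2 → PC.P2, (∀ i, MvPowerSeries.constantCoeff (θ i) = 0) ∧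
      MvPowerSeries.constantCoeff (PC.jac θ) ≠ 0 ∧
      ∃ W : PC.P2, MvPowerSeries.constantCoeff W ≠ 0 ∧
      MvPowerSeries.subst θ (gch (homogeneousComponent d f) q j₀ : PC.P2) =
        MvPowerSeries.X 0 * MvPowerSeries.X 1 * W) {b : Polynomial ℂ}
    (hb : InPs (f : MvPowerSeries (Fin 3) ℂ) 1
      (b.map (MvPowerSeries.C (σ := Fin 3) (R := ℂ)))) :
    b.eval (-(4 / ((d : ℂ) + 1))) = 0 := by
  by_contra hbs
  obtain ⟨θ, h0, hjac, W, hW, hF⟩ := hnode
  obtain ⟨δ, hδ⟩ := PC.exists_deriv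
  have hX : δ RatFunc.X = 1 := by
    have := hδ Polynomial.X
    rwa [Polynomial.derivative_X, map_one, RatFunc.algebraMap_X] at this
  obtain ⟨V, hV, hV0⟩ := aeval_node hlow hq h0 hF
  set Θ : Fin 3 → A := fun i => un * xn q j₀ θ i with hΘ
  have hΘ0 : ∀ i, MvPowerSeries.constantCoeff (Θ i) = 0 := fun i => by
    rw [hΘ]
    dsimp only
    rw [map_mul, constantCoeff_un, zero_mul]
  have hΘD : ∀ j i, DB j 1 0 (Θ i) := fun j i => by
    have := (DB_un j).mul (DB_xn q j₀ θ j i)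
    rwa [add_zero] at this
  have hsub := MvPowerSeries.hasSubst_of_constantCoeff_zero hΘ0
  set ϑ : MvPowerSeries (Fin 3) ℂ →ₐ[ℂ] A := MvPowerSeries.substAlgHom hsub with hϑ
  have hϑX : ∀ i, ϑ (MvPowerSeries.X i) = Θ i := fun i => MvPowerSeries.substAlgHom_X hsub i
  have hϑc : ∀ c, ϑ c = MvPowerSeries.subst Θ c := fun c => by
    rw [hϑ, MvPowerSeries.coe_substAlgHom]
  have hϑf : ϑ (f : MvPowerSeries (Fin 3) ℂ) = MvPowerSeries.monomial (PC.ex (d + 1) (d + 1)) 1 *
      V := by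
    rw [hϑc, MvPowerSeries.subst_coe]
    exact hV
  have hw : ((algebraMap ℂ (RatFunc ℂ)) (MvPowerSeries.constantCoeff W) +
      RatFunc.X * algebraMap ℂ (RatFunc ℂ) (eval q (homogeneousComponent (d + 1) f))) ≠ 0 ∧
      ((algebraMap ℂ (RatFunc ℂ)) (MvPowerSeries.constantCoeff W) +
      RatFunc.X * algebraMap ℂ (RatFunc ℂ)
        (eval q (homogeneousComponent (d + 1) f))).intDegree = 1 := by
    have h1 : (algebraMap ℂ (RatFunc ℂ)) (MvPowerSeries.constantCoeff W) +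
        RatFunc.X * algebraMap ℂ (RatFunc ℂ) (eval q (homogeneousComponent (d + 1) f)) =
        algebraMap (Polynomial ℂ) (RatFunc ℂ) (Polynomial.C
          (eval q (homogeneousComponent (d + 1) f)) * Polynomial.X +
          Polynomial.C (MvPowerSeries.constantCoeff W)) := by
      simp only [map_add, map_mul, RatFunc.algebraMap_X, RatFunc.algebraMap_C,
        ← RatFunc.algebraMap_eq_C]
      ring
    rw [h1]
    constructor
    · apply RatFunc.algebraMap_ne_zero
      intro h2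
      have h3 := congrArg (fun p => Polynomial.coeff p 1) h2
      simp only [Polynomial.coeff_add, Polynomial.coeff_C_mul, Polynomial.coeff_X_one,
        Polynomial.coeff_zero] at h3
      rw [Polynomial.coeff_C_of_ne_zero (by norm_num), mul_one, add_zero] at h3
      exact hne h3
    · rw [RatFunc.intDegree_polynomial, Polynomial.natDegree_linear hne]
      rfl
  have hφ0 : (RatFunc.X : RatFunc ℂ) ^ d * ((algebraMap ℂ (RatFunc ℂ))
      (MvPowerSeries.constantCoeff W) +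
      RatFunc.X * algebraMap ℂ (RatFunc ℂ) (eval q (homogeneousComponent (d + 1) f))) ≠ 0 :=
    mul_ne_zero (pow_ne_zero _ RatFunc.X_ne_zero) hw.1
  obtain ⟨φ, hφ⟩ : ∃ φ : (RatFunc ℂ)ˣ, (φ : RatFunc ℂ) = RatFunc.X ^ d *
      ((algebraMap ℂ (RatFunc ℂ)) (MvPowerSeries.constantCoeff W) +
      RatFunc.X * algebraMap ℂ (RatFunc ℂ) (eval q (homogeneousComponent (d + 1) f))) :=
    ⟨Units.mk0 _ hφ0, rfl⟩
  have hdeg : (φ : RatFunc ℂ).intDegree = (d : ℤ) + 1 := by
    have h2 : ∀ k : ℕ, ((RatFunc.X : RatFunc ℂ) ^ k).intDegree = k := by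
      intro k
      induction k with
      | zero => rw [pow_zero, RatFunc.intDegree_one]; rfl
      | succ k ih =>
        rw [pow_succ, RatFunc.intDegree_mul (pow_ne_zero _ RatFunc.X_ne_zero) RatFunc.X_ne_zero,
          ih, RatFunc.intDegree_X]
        push_cast
        ring
    rw [hφ, RatFunc.intDegree_mul (pow_ne_zero _ RatFunc.X_ne_zero) hw.1, hw.2, h2]
  have hVD : ∀ j, DB j 1 ((1 : ℕ) * (φ : RatFunc ℂ).intDegree) V := fun j => by
    refine DB_cancel (γ := PC.ex (d + 1) (d + 1)) ?_ ?_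
    · rw [ex_apply, hdeg]
      push_cast
      ring
    · rw [← hϑf, hϑc]
      exact DB.mv_subst hsub (hΘD j) _
  have hfun : (fun i => ϑ (MvPowerSeries.X i)) = Θ := funext hϑX
  have main := residue_cornerP (R := RatFunc ℂ) (β := Unit) (τ := Fin 2) rw3
    (δ := fun _ => δ) (fun _ _ _ => rfl) (θ := ϑ) (fun i => by rw [hϑX]; exact hΘ0 i)
    (f := (f : MvPowerSeries (Fin 3) ℂ)) (N := PC.ex (d + 1) (d + 1)) (F₁ := V) hϑf
    (φ := φ) (by rw [hV0, hφ]) (ν := 4) (D := d + 1) (Nat.succ_pos d)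
    (s := -(4 / ((d : ℂ) + 1))) (by push_cast; ring) (Mon := ∅) (M := fun _ => 0)
    (fun i hi => absurd hi (Finset.notMem_empty i)) (l := fun _ => 0) (E := PC.ex 4 4)
    (J' := (-1) ^ (j₀ : ℕ) * (MvPowerSeries.C (RatFunc.X ^ 2 : RatFunc ℂ) *
      Node.mp (PC.jac θ)))
    (by rw [hfun]; exact det_node hX q j₀ θ) (fun j => by
      rw [ex_apply, ex_apply, Finset.sum_empty]
      have hd1 : (d : ℂ) + 1 ≠ 0 := by exact_mod_cast Nat.succ_ne_zero d
      push_cast
      field_simp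
      ring) (j₀ := 0) (by rw [ex_apply]; exact Nat.succ_pos d)
    (fun i hi => absurd hi (Finset.notMem_empty i)) hb hbs (P := fun _ => dg 1 3)
  suffices hP : _ from by
    obtain ⟨r, hr, hr'⟩ := main hP
    rw [Finset.univ_unique, Finset.sum_singleton] at hr'
    refine no_sol hδ hd hd3 (c₀ := (-1) ^ (j₀ : ℕ) * MvPowerSeries.constantCoeff (PC.jac θ)) hW
      hne (mul_ne_zero (pow_ne_zero _ (neg_ne_zero.2 one_ne_zero)) hjac) hφ (hr default) ?_
    rw [← hr', map_mul, map_mul, map_mul, map_pow, map_neg, map_one, MvPowerSeries.constantCoeff_C,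
      constantCoeff_mp, map_pow, map_neg, map_one]
    ring
  · intro H F₂ hF₂ hH k L i a b' c ha
    rw [hfun, rw3_inr ha]
    obtain ⟨m₁, m₂, em, hm₁, hm₂⟩ := adjugate_Sp (fun _ => δ)
      (fun i j => DB_xn q j₀ θ j i) (fun i j => DB_lg_xn q j₀ θ j i) i
    have key : ∀ (j : Fin 2) (m : A), DB j 1 (-1) m →
        cz (epsR (PC.ex (d + 1) (d + 1)) ∅ (fun _ => 0)
          (fun j => (PC.ex 4 4 j : ℤ) - PC.ex (d + 1) (d + 1) j) k L) (wG F₂ H k *
          (m * ϑ c)) ∈ dg 1 3 := by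
      intro j m hm
      have h1 := DB.weight hF₂ (by rw [hV0, hφ]) (hVD j) hH k
      have h3 : DB j 1 0 (ϑ c) := by
        rw [hϑc]
        exact DB.mv_subst hsub (hΘD j) c
      refine dg_mono ?_ ((h1.mul (hm.mul h3)).cz _)
      have h5 : epsR (PC.ex (d + 1) (d + 1)) (∅ : Finset (Fin 3)) (fun _ => 0)
          (fun j => (PC.ex 4 4 j : ℤ) - PC.ex (d + 1) (d + 1) j) k L j =
          4 - ((d : ℤ) + 1) + k * ((d : ℤ) + 1) := by
        unfold epsR
        dsimp only
        rw [ex_apply, ex_apply, Finset.sum_empty]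
        push_cast
        ring
      rw [h5, hdeg]
      push_cast
      refine le_of_eq ?_
      ring
    have e : (jm (fun a => rowD (fun _ : Unit => δ) (rw3 a)) Θ).adjugate i 0 = m₁ + m₂ := em
    rw [e, add_mul, mul_add, map_add]
    exact (dg 1 3).add_mem (key 0 m₁ hm₁) (key 1 m₂ hm₂)

end SI

end MPb07157
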