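import Pool.Agent.Lib.MP_b07157_agV.T1
import Pool.Agent.Lib.MP_b07157_agV.H1

/-!
# Plane curve germs with an isolated singularity: the zeta function outside `[-1, 0)`
-/

noncomputable section

namespace MPb07157

open MvPolynomial

namespace PC

/-- The exponents outside `[-1, 0)` do not match a ratio `ν/N ≤ 1`. -/
theorem out_ne {s₀ : ℚ} (h : s₀ < -1 ∨ 0 ≤ s₀) {ν N : ℕ} (hν : 0 < ν) (hνN : ν ≤ N) :
    (ν : ℚ) ≠ -s₀ * N := by
  have h1 : (0 : ℚ) < ν := by exact_mod_cast hν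
  have h2 : (ν : ℚ) ≤ N := by exact_mod_cast hνN
  intro h3
  rcases h with h | h
  · nlinarith
  · nlinarith

theorem edgeN_ge {p q A B a : ℕ} {R : Finset ℂ} {μ : ℂ → ℕ} (hp : 0 < p) (hq : 0 < q)
    (hS : 0 < ∑ c ∈ R, μ c) (ha : a ≤ A) : a * p + q ≤ edgeN p q A B R μ := by
  unfold edgeN
  have h1 : a * p ≤ p * A := by rw [mul_comm p A]; exact Nat.mul_le_mul_right p ha
  have h2 : q ≤ p * q * ∑ c ∈ R, μ c := by
    calc q = 1 * q * 1 := by ring
      _ ≤ p * q * ∑ c ∈ R, μ c := Nat.mul_le_mul (Nat.mul_le_mul_right q hp) hS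
  omega

/-- Later stages. -/
theorem later_out {f : P2} (hiso : IsoSing f) {s₀ : ℚ} (h : s₀ < -1 ∨ 0 ≤ s₀) (M : ℕ) :
    ∀ (θ : Fin 2 → P2) (F : P2) (a A : ℕ), IsStage f θ F a →
      YOrd F A M → 1 ≤ A → a ≤ A → ZV F a ∈ regularAt s₀ := by
  have h1 : s₀ ≠ -1 := by
    rintro rfl
    rcases h with h | h
    · exact lt_irrefl _ h
    · linarith
  induction M using Nat.strong_induction_on with
  | _ M IH =>
  intro θ F a A₀ hst hY hA₀ haA
  obtain ⟨φ, hφ0, hφ, -⟩ := exists_shY F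
  rw [← ZV_shY F a hφ0]
  have hst' := hst.shY hφ0
  have hY' := hY.shY hφ0
  set G := MvPowerSeries.subst (shY φ) F with hG
  have hG0 : G ≠ 0 := by
    intro h
    apply hY'.2.2
    rw [h]
    exact map_zero _
  have hge : ∀ (p q A B : ℕ) (lam : ℂ) (R : Finset ℂ) (μ : ℂ → ℕ),
      IsEdge G p q A B lam R μ → a * p + q ≤ edgeN p q A B R μ := by
    intro p q A B lam R μ hE
    exact edgeN_ge hE.hp hE.hq (Finset.sum_pos hE.hm hE.hR) (haA.trans (hY'.edge_le hE).1)
  have hroot : ∀ (p q A B : ℕ) (lam : ℂ) (R : Finset ℂ) (μ : ℂ → ℕ),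
      IsEdge G p q A B lam R μ → ((a * p + q : ℕ) : ℚ) ≠ -s₀ * (edgeN p q A B R μ : ℕ) := by
    intro p q A B lam R μ hE
    exact out_ne h (by have := hE.hq; omega) (hge _ _ _ _ _ _ _ hE)
  refine ZV_mem_of_edges hG0 hst.ha (Or.inr ((dvd_pow_self _ (by omega)).trans hY'.dvd)) h1
    ?_ ?_ hroot ?_
  · intro A hA _
    rw [hY'.exactPow hA.1 hA.2]
    exact out_ne h hst.ha haA
  · intro B hB hB0
    obtain ⟨W, hW, hJ⟩ := hst'.hjac
    have hF' := hst'.hF
    rw [hF'] at hB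
    refine axis_ne hiso hst'.h0 ?_ hB0 hB h1
    rw [hJ]
    exact not_X_dvd hW (by decide) _
  · intro p q A B lam R μ hE c hc α β hab
    have hc0 : c ≠ 0 := by
      rintro rfl
      exact hE.hR0 hc
    obtain ⟨hA, hB⟩ := hY'.edge_le hE
    have hμS : μ c ≤ ∑ c ∈ R, μ c := Finset.single_le_sum (fun _ _ => Nat.zero_le _) hc
    have hS := Finset.sum_pos hE.hm hE.hR
    have hN := hge _ _ _ _ _ _ _ hE
    have hlt : μ c < M := by
      by_contra hcon
      have h2 : 1 * ∑ c ∈ R, μ c ≤ p * ∑ c ∈ R, μ c := Nat.mul_le_mul_right _ hE.hp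
      have h3 : B = 0 := by omega
      have h4 : p = 1 := by
        by_contra hp
        have : 2 * ∑ c ∈ R, μ c ≤ p * ∑ c ∈ R, μ c :=
          Nat.mul_le_mul_right _ (by have := hE.hp; omega)
        omega
      have h5 := not_bad_card hφ hE h4 h3
      obtain ⟨c', hc', hne'⟩ := Finset.exists_mem_ne (show 1 < R.card by omega) c
      have h6 : μ c + μ c' ≤ ∑ c ∈ R, μ c := by
        rw [← Finset.add_sum_erase _ _ hc]
        exact Nat.add_le_add_left (Finset.single_le_sum (f := μ) (fun _ _ => Nat.zero_le _)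
          (Finset.mem_erase.2 ⟨hne', hc'⟩)) _
      have := hE.hm c' hc'
      omega
    exact IH (μ c) hlt _ _ _ _ (hst'.sub hE.hp hE.hq hab hc0) (YOrd.sub hE hc hab)
      (by have := hE.hq; omega) hN

/-- The zeta function of a plane curve germ with an isolated singularity has no pole outside
`[-1, 0)`. -/
theorem regular_out {f : P2} (hf : f ≠ 0) (hiso : IsoSing f) {s₀ : ℚ} (h : s₀ < -1 ∨ 0 ≤ s₀) :
    ZV f 1 ∈ regularAt s₀ := by
  have h1 : s₀ ≠ -1 := by
    rintro rfl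
    rcases h with h | h
    · exact lt_irrefl _ h
    · linarith
  obtain ⟨φ₁, ψ₁, φ, ψ, h1', h2', h3', h4', hBY, hBX, hB2⟩ := exists_first hf
  rw [← ZV_shY f 1 h1', ← ZV_shX _ h2', ← ZV_shY _ 1 h3', ← ZV_shX _ h4']
  have hst := (((((isStage_id f).shY h1').shX h2').shY h3').shX h4')
  set G := (MvPowerSeries.subst (shX ψ) (MvPowerSeries.subst (shY φ)
      (MvPowerSeries.subst (shX ψ₁) (MvPowerSeries.subst (shY φ₁) f)))) with hG
  have hG0 : G ≠ 0 := hst.ne_zero hf
  have hge : ∀ (p q A B : ℕ) (lam : ℂ) (R : Finset ℂ) (μ : ℂ → ℕ),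
      IsEdge G p q A B lam R μ → 1 * p + q ≤ edgeN p q A B R μ := by
    intro p q A B lam R μ hE
    have hS := Finset.sum_pos hE.hm hE.hR
    rcases Nat.eq_zero_or_pos A with hA | hA
    · -- `A = 0`
      have hSR : R.card ≤ ∑ c ∈ R, μ c := by
        have := Finset.card_nsmul_le_sum R μ 1 fun c hc => hE.hm c hc
        simpa using this
      have h4 : 2 ≤ q * ∑ c ∈ R, μ c := by
        by_cases hq : q = 1
        · have h5 := not_badX_card hBX hE hq hA
          rw [hq]; omega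
        · have hq2 : 2 ≤ q := by have := hE.hq; omega
          calc 2 = 2 * 1 := rfl
            _ ≤ q * ∑ c ∈ R, μ c := Nat.mul_le_mul hq2 hS
      have h4' : 2 ≤ p * ∑ c ∈ R, μ c ∨ 1 ≤ B := by
        by_cases hB : B = 0
        · left
          by_cases hp : p = 1
          · have h5 := not_bad_card hBY hE hp hB
            rw [hp]; omega
          · have hp2 : 2 ≤ p := by have := hE.hp; omega
            calc 2 = 2 * 1 := rfl
              _ ≤ p * ∑ c ∈ R, μ c := Nat.mul_le_mul hp2 hS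
        · right; omega
      unfold edgeN
      have e1 : p * q * ∑ c ∈ R, μ c = p * (q * ∑ c ∈ R, μ c) := by ring
      have e2 : p * q * ∑ c ∈ R, μ c = q * (p * ∑ c ∈ R, μ c) := by ring
      have h5 : p * 2 ≤ p * (q * ∑ c ∈ R, μ c) := Nat.mul_le_mul_left p h4
      rcases h4' with h6 | h6
      · have h7 : q * 2 ≤ q * (p * ∑ c ∈ R, μ c) := Nat.mul_le_mul_left q h6
        omega
      · have h7 : q * 1 ≤ q * B := Nat.mul_le_mul_left q h6
        omega
    · exact edgeN_ge hE.hp hE.hq hS hA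
  have hroot : ∀ (p q A B : ℕ) (lam : ℂ) (R : Finset ℂ) (μ : ℂ → ℕ),
      IsEdge G p q A B lam R μ → ((1 * p + q : ℕ) : ℚ) ≠ -s₀ * (edgeN p q A B R μ : ℕ) := by
    intro p q A B lam R μ hE
    exact out_ne h (by have := hE.hq; omega) (hge _ _ _ _ _ _ _ hE)
  have haxis : ∀ (i : Fin 2) (B : ℕ), ExactPow G i B → 0 < B → (1 : ℚ) ≠ -s₀ * B := by
    intro i B hB hB0
    obtain ⟨W, hW, hJ⟩ := hst.hjac
    have hF' := hst.hF
    rw [hF'] at hB
    refine axis_ne hiso hst.h0 ?_ hB0 hB h1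
    rw [hJ, Nat.sub_self]
    intro hd
    rw [pow_zero, one_mul, MvPowerSeries.X_dvd_iff] at hd
    exact hW (hd 0 rfl)
  refine ZV_mem_of_edges hG0 le_rfl (Or.inl rfl) h1 ?_ ?_ hroot ?_
  · intro A hA hA0
    have := haxis 0 A hA hA0
    exact_mod_cast this
  · intro B hB hB0
    exact haxis 1 B hB hB0
  · intro p q A B lam R μ hE c hc α β hab
    have hc0 : c ≠ 0 := by
      rintro rfl
      exact hE.hR0 hc
    have hN := hge _ _ _ _ _ _ _ hE
    exact later_out hiso h (μ c) _ _ _ _ (hst.sub hE.hp hE.hq hab hc0) (YOrd.sub hE hc hab)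
      (by have := hE.hq; omega) hN

end PC

end MPb07157
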