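import Pool.Agent.Lib.MP_b07157_agI.TorP

/-!
# The zeta function of a plane curve germ as a toric sum plus corrections at the roots
-/

noncomputable section

namespace MPb07157

open MvPolynomial

namespace PC

open P1aux (Lp)

namespace TFh

/-- The minimum of the weights is the weight of the initial form. -/
theorem mw_eq {F : P2} {w : Fin 2 → ℕ} {r : ℕ} {P : MvPolynomial (Fin 2) ℂ}
    (hI : IsInit F w r P) : mw (suppV F) (w 0) (w 1) = r := by
  obtain ⟨h1, h2, h3⟩ := hI
  have hex : ∀ v : Fin 2 →₀ ℕ, ex (v 0) (v 1) = v := by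
    intro v
    ext j
    fin_cases j
    · simp [ex]
    · simp [ex]
  have hwt : ∀ v : Fin 2 →₀ ℕ, wt w v = w 0 * v 0 + w 1 * v 1 := by
    intro v
    unfold wt
    rw [Fin.sum_univ_two]
  have hne : P.support.Nonempty := by
    rw [Finset.nonempty_iff_ne_empty]
    intro h
    exact h1 (MvPolynomial.support_eq_empty.1 h)
  obtain ⟨v, hv⟩ := hne
  have hvr := h2 v hv
  have hvF : MvPowerSeries.coeff v F ≠ 0 := by
    rw [h3 v hvr.le]
    exact MvPolynomial.mem_support_iff.1 hv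
  unfold mw
  apply le_antisymm
  · apply Nat.sInf_le
    refine ⟨(v 0, v 1), ?_, ?_⟩
    · change MvPowerSeries.coeff (ex (v 0) (v 1)) F ≠ 0
      rw [hex]
      exact hvF
    · change w 0 * v 0 + w 1 * v 1 = r
      rw [← hwt, hvr]
  · apply le_csInf
    · exact ⟨_, (v 0, v 1), by
        change MvPowerSeries.coeff (ex (v 0) (v 1)) F ≠ 0
        rw [hex]; exact hvF, rfl⟩
    · rintro _ ⟨⟨x, y⟩, hxy, rfl⟩
      change r ≤ w 0 * x + w 1 * y
      by_contra hlt
      rw [not_le] at hlt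
      have hx : (ex x y) 0 = x := by simp [ex]
      have hy : (ex x y) 1 = y := by simp [ex]
      have e : wt w (ex x y) = w 0 * x + w 1 * y := by rw [hwt, hx, hy]
      have h4 : P.coeff (ex x y) ≠ 0 := by
        rw [← h3 _ (by omega)]
        exact hxy
      have h5 := h2 _ (MvPolynomial.mem_support_iff.2 h4)
      omega

/-- The measure of a stratum. -/
theorem hh_eq {F : P2} {a N m : ℕ} {w : Fin 2 → ℕ} (hw : ∀ j, 1 ≤ w j) (hwN : ∀ j, w j ≤ N)
    {r : ℕ} {P : MvPolynomial (Fin 2) ℂ} (hI : IsInit F w r P) :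
    hh (mw (suppV F)) a N m (w 0) (w 1) =
      if r = m then Lp ((a - 1) * w 0) * (mj N (w 0) * mj N (w 1)) else 0 := by
  unfold hh
  rw [mw_eq hI]
  refine if_congr ?_ rfl rfl
  have := hw 0
  have := hw 1
  have := hwN 0
  have := hwN 1
  tauto

/-- The sum over the box. -/
theorem sum_pi (N : ℕ) (f : ℕ → ℕ → Mot) :
    ∑ i ∈ Finset.Icc 1 N, ∑ j ∈ Finset.Icc 1 N, f i j =
      ∑ w ∈ Fintype.piFinset (fun _ : Fin 2 => Finset.Icc 1 N), f (w 0) (w 1) := by
  rw [← Finset.sum_product' (s := Finset.Icc 1 N) (t := Finset.Icc 1 N) (f := f)]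
  refine Finset.sum_bij' (fun x _ => ![x.1, x.2]) (fun w _ => (w 0, w 1)) ?_ ?_ ?_ ?_ ?_
  · rintro ⟨i, j⟩ h
    rw [Finset.mem_product] at h
    rw [Fintype.mem_piFinset]
    intro l
    fin_cases l
    · exact h.1
    · exact h.2
  · intro w hw
    rw [Fintype.mem_piFinset] at hw
    rw [Finset.mem_product]
    exact ⟨hw 0, hw 1⟩
  · rintro ⟨i, j⟩ _
    rfl
  · intro w _
    funext l
    fin_cases l
    · rfl
    · rfl
  · rintro ⟨i, j⟩ _
    rfl

/-- The contribution of one ray. -/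
theorem ray_formula {F : P2} {a : ℕ} (ha : 1 ≤ a) {p q A B : ℕ} {lam : ℂ} {R : Finset ℂ}
    {μ : ℂ → ℕ} (hE : IsEdge F p q A B lam R μ) {α β : ℕ} (hab : p * α = q * β + 1)
    {k N m : ℕ} (hk : 0 < k) (hm : m < N) :
    (if k * p ≤ N ∧ k * q ≤ N then Lp ((a - 1) * (k * p)) *
      muN N (arcsV F N m ∩ Strat N ![k * p, k * q]) -
        hh (mw (suppV F)) a N m (k * p) (k * q) else 0) =
    -((R.card : Mot) * ((1 - Lp 1) * Lp 1)) *
        (if edgeN p q A B R μ * k = m then Lp ((a * p + q) * k) else 0) +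
      ∑ c ∈ R, Lp ((a * p + q - 1) * k) *
        muN N (arcsV (MvPowerSeries.subst (kap p q α β c) F) N m ∩ Xo N k) := by
  have hp := hE.hp
  have hq := hE.hq
  have hwe : (![k * p, k * q] : Fin 2 → ℕ) = fun j => k * (![p, q] : Fin 2 → ℕ) j := by
    funext j
    fin_cases j <;> rfl
  have hI : IsInit F ![k * p, k * q] (k * edgeN p q A B R μ) (edgeP p q A B lam R μ) := by
    rw [hwe]
    exact B2h.isInit_mul hk hE.init
  by_cases h : k * p < N ∧ k * q < N
  · obtain ⟨h1, h2⟩ := h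
    have hh1 := hh_eq (a := a) (N := N) (m := m) (P1aux.one_le_ray hp hq hk) (by
      intro j
      fin_cases j
      · exact h1.le
      · exact h2.le) hI
    change hh (mw (suppV F)) a N m (k * p) (k * q) =
      if k * edgeN p q A B R μ = m then
        Lp ((a - 1) * (k * p)) * (mj N (k * p) * mj N (k * q)) else 0 at hh1
    have hmp : mj N (k * p) = (1 - Lp 1) * Lp (k * p) := if_pos h1
    have hmq : mj N (k * q) = (1 - Lp 1) * Lp (k * q) := if_pos h2
    rw [hmp, hmq, mul_comm k (edgeN p q A B R μ)] at hh1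
    rw [if_pos ⟨h1.le, h2.le⟩, strat_edge hE hk h1 h2 hm, hh1]
    have hnear : ∀ c ∈ R, muN N (arcsV F N m ∩ Near N p q k c) =
        Lp ((p + q - 1) * k) *
          muN N (arcsV (MvPowerSeries.subst (kap p q α β c) F) N m ∩ Xo N k) := by
      intro c hc
      exact near_root hp hq hab (fun h => hE.hR0 (h ▸ hc)) hk h1 h2 hm
    rw [Finset.sum_congr rfl hnear, ← Finset.mul_sum, ← Finset.mul_sum]
    have htor := lp_tor_edgeP (A := A) (B := B) hp hq hE.hpq hE.hlam hE.hR0 hE.hm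
    obtain ⟨a, rfl⟩ : ∃ b, a = b + 1 := ⟨a - 1, by omega⟩
    obtain ⟨p, rfl⟩ : ∃ b, p = b + 1 := ⟨p - 1, by omega⟩
    have e2 : Lp ((a + 1 - 1) * (k * (p + 1))) * (Lp (k * (p + 1)) * Lp (k * q)) =
        Lp (((a + 1) * (p + 1) + q) * k) := by
      rw [← P1aux.Lp_add, ← P1aux.Lp_add]
      congr 1
      rw [Nat.add_sub_cancel]
      ring
    have e4 : Lp ((p + 1 + q) * k) = Lp (k * (p + 1)) * Lp (k * q) := by
      rw [← P1aux.Lp_add]
      congr 1
      ring
    have e3 : Lp ((a + 1 - 1) * (k * (p + 1))) * Lp ((p + 1 + q - 1) * k) =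
        Lp (((a + 1) * (p + 1) + q - 1) * k) := by
      rw [← P1aux.Lp_add]
      congr 1
      rw [Nat.add_sub_cancel, show p + 1 + q - 1 = p + q by omega,
        show (a + 1) * (p + 1) + q - 1 = a * (p + 1) + p + q by
          rw [add_mul, one_mul]; omega]
      ring
    rw [← e3, ← e2]
    change _ * ((if _ then Lp ((p + 1 + q) * k + 2) * _ else 0) + _) - _ = _
    rw [P1aux.Lp_add ((p + 1 + q) * k) 2, e4]
    split_ifs
    · linear_combination (Lp ((a + 1 - 1) * (k * (p + 1))) * Lp (k * (p + 1)) * Lp (k * q)) * htor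
    · ring
  · have hN : N ≤ k * edgeN p q A B R μ := by
      obtain ⟨h1, h2⟩ := P1aux.le_edgeN hE
      have h3 := Nat.mul_le_mul (le_refl k) h1
      have h4 := Nat.mul_le_mul (le_refl k) h2
      by_contra h5
      apply h
      constructor <;> omega
    have hN' : N ≤ edgeN p q A B R μ * k := by rwa [mul_comm]
    have h0 : (if k * p ≤ N ∧ k * q ≤ N then Lp ((a - 1) * (k * p)) *
        muN N (arcsV F N m ∩ Strat N ![k * p, k * q]) -
        hh (mw (suppV F)) a N m (k * p) (k * q) else 0) = 0 := by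
      split_ifs with h1
      · have hh1 := hh_eq (a := a) (N := N) (m := m) (P1aux.one_le_ray hp hq hk) (by
          intro j
          fin_cases j
          · exact h1.1
          · exact h1.2) hI
        change hh (mw (suppV F)) a N m (k * p) (k * q) = _ at hh1
        rw [P1aux.strat_ray_empty hp hq hE.init hk h1.1 h1.2 hm (by omega), hh1,
          if_neg (by omega), P1aux.muN_empty, mul_zero, sub_zero]
      · rfl
    rw [h0, if_neg (by omega), mul_zero, zero_add, Finset.sum_eq_zero]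
    intro c hc
    rw [P1aux.arcsV_Xo_eq_empty (YOrd.sub hE hc hab).dvd hk (by omega), P1aux.muN_empty, mul_zero]

/-- The sum over one ray. -/
theorem ray_sum {F : P2} {a : ℕ} (ha : 1 ≤ a) {p q A B : ℕ} {lam : ℂ} {R : Finset ℂ}
    {μ : ℂ → ℕ} (hE : IsEdge F p q A B lam R μ) {α β : ℕ} (hab : p * α = q * β + 1)
    {N m : ℕ} (hm : m < N) :
    (∑ k ∈ Finset.Icc 1 N, if k * p ≤ N ∧ k * q ≤ N then Lp ((a - 1) * (k * p)) *
      muN N (arcsV F N m ∩ Strat N ![k * p, k * q]) -
        hh (mw (suppV F)) a N m (k * p) (k * q) else 0) =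
    PowerSeries.coeff m (∑ c ∈ R, ZV (MvPowerSeries.subst (kap p q α β c) F) (a * p + q) -
      PowerSeries.C ((R.card : Mot) * ((1 - Lp 1) * Lp 1)) *
        geo (a * p + q) (edgeN p q A B R μ)) := by
  have hN := P1aux.edgeN_pos hE
  rw [Finset.sum_congr rfl fun k hk => ray_formula ha hE hab (Finset.mem_Icc.1 hk).1 hm,
    Finset.sum_add_distrib, ← Finset.mul_sum, map_sub, PowerSeries.coeff_C_mul,
    P1aux.coeff_geo, map_sum, P1aux.sum_Icc_eq hN hm, Finset.sum_comm, neg_mul, neg_add_eq_sub]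
  · congr 1
    refine Finset.sum_congr rfl fun c hc => ?_
    have hd : MvPowerSeries.X 0 ∣ MvPowerSeries.subst (kap p q α β c) F :=
      (dvd_pow_self _ hN.ne').trans (YOrd.sub hE hc hab).dvd
    unfold ZV
    rw [PowerSeries.coeff_mk, ← Zst_eq (Or.inr hd) hm]
    rfl
  · intro k hk
    rw [if_neg (by omega)]

end TFh

open TFh

theorem ZV_toric {F : P2} (hF : F ≠ 0) :
    ∃ (ι : Type) (_ : Fintype ι) (p q A B α β : ι → ℕ) (lam : ι → ℂ) (R : ι → Finset ℂ)
      (μ : ι → ℂ → ℕ),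
      (∀ i, IsEdge F (p i) (q i) (A i) (B i) (lam i) (R i) (μ i)) ∧
      (∀ i, p i * α i = q i * β i + 1) ∧
      ∀ (a K : ℕ), 1 ≤ a → (a = 1 ∨ MvPowerSeries.X 0 ∣ F) → 1 ≤ K →
        ZV F a = TS (mw (suppV F)) a K +
          ∑ i, (∑ c ∈ R i, ZV (MvPowerSeries.subst (kap (p i) (q i) (α i) (β i) c) F)
              (a * p i + q i) -
            PowerSeries.C (((R i).card : Mot) * ((1 - Lp 1) * Lp 1)) *
              geo (a * p i + q i) (edgeN (p i) (q i) (A i) (B i) (R i) (μ i))) := by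
  classical
  obtain ⟨ι, hι, p, q, A, B, lam, R, μ, hEd, hinj, hcov⟩ := exists_edges hF
  choose α β hab using fun i => P1aux.exists_ab (hEd i).hp (hEd i).hq (hEd i).hpq
  refine ⟨ι, hι, p, q, A, B, α, β, lam, R, μ, hEd, hab, ?_⟩
  intro a K ha haX hK1
  ext m
  have hm : m < K * (m + 1) := by nlinarith
  have e1 : PowerSeries.coeff m (ZV F a) = Zst F a (K * (m + 1)) m := by
    rw [Zst_eq haX hm]
    exact PowerSeries.coeff_mk _ _
  have e2 : PowerSeries.coeff m (TS (mw (suppV F)) a K) =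
      ∑ w ∈ Fintype.piFinset (fun _ : Fin 2 => Finset.Icc 1 (K * (m + 1))),
        hh (mw (suppV F)) a (K * (m + 1)) m (w 0) (w 1) := by
    unfold TS
    rw [PowerSeries.coeff_mk, sum_pi]
  rw [map_add, map_sum, e1, Zst_strat F a hm, e2, ← sub_eq_iff_eq_add', ← Finset.sum_sub_distrib,
    ← Finset.sum_congr rfl fun i _ => ray_sum ha (hEd i) (hab i) hm]
  refine Eq.trans ?_ (P1aux.sum_box (fun i => (hEd i).hp) (fun i => (hEd i).hq)
    (fun i => (hEd i).hpq) hinj
    (K * (m + 1)) (fun w => Lp ((a - 1) * w 0) *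
      muN (K * (m + 1)) (arcsV F (K * (m + 1)) m ∩ Strat (K * (m + 1)) w) -
        hh (mw (suppV F)) a (K * (m + 1)) m (w 0) (w 1)) ?_)
  · refine Finset.sum_congr rfl fun w _ => ?_
    rfl
  · intro w hw hwN
    rcases hcov w hw with ⟨r, v, l, hI⟩ | h
    · left
      rw [strat_mono hw hwN hm hI, hh_eq hw hwN hI]
      split_ifs
      · rw [muN_Strat hw hwN, sub_self]
      · rw [P1aux.muN_empty, mul_zero, sub_self]
    · exact Or.inr h

end PC

end MPb07157
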