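import Pool.Agent.Lib.MP_b07157_agI.TCone
import Pool.Agent.Lib.MP_b07157_agI.TForm
import Pool.Agent.Lib.MP_b07157_agI.Out

/-!
# The value at `T = 1` of the zeta function of a plane curve germ
-/

noncomputable section

namespace MPb07157

open MvPolynomial

namespace PC

open P1aux (Lp Lp_add)

theorem suppV_nonempty {F : P2} (hF : F ≠ 0) : (suppV F).Nonempty := by
  by_contra hcon
  apply hF
  ext v
  rw [map_zero]
  by_contra hv
  apply hcon
  refine ⟨(v 0, v 1), ?_⟩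
  show MvPowerSeries.coeff (ex (v 0) (v 1)) F ≠ 0
  have : ex (v 0) (v 1) = v := by
    ext j
    fin_cases j
    · simp [ex]
    · simp [ex]
  rw [this]
  exact hv

/-- The inductive step. -/
theorem Cl_ZV_step {F : P2} (hF : F ≠ 0) (h0 : MvPowerSeries.constantCoeff F = 0) {a : ℕ}
    (ha : 1 ≤ a) (haX : a = 1 ∨ MvPowerSeries.X 0 ∣ F)
    (hsub : ∀ (p q A B : ℕ) (lam : ℂ) (R : Finset ℂ) (μ : ℂ → ℕ), IsEdge F p q A B lam R μ →
      ∀ c ∈ R, ∀ α β, p * α = q * β + 1 →
        Cl (ZV (MvPowerSeries.subst (kap p q α β c) F) (a * p + q))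
          (qC ((1 - Lp 1) * Lp 1) * uu (a * p + q))) :
    Cl (ZV F a) (qC ((1 - Lp 1) * Lp 1) * uu a) := by
  classical
  obtain ⟨ι, hι, p, q, A, B, α, β, lam, R, μ, hE, hab, key⟩ := ZV_toric hF
  have hV0 : ((0, 0) : ℕ × ℕ) ∉ suppV F := by
    intro h
    apply h
    show MvPowerSeries.coeff (ex 0 0) F = 0
    have : ex 0 0 = 0 := by simp [ex]
    rw [this, MvPowerSeries.coeff_zero_eq_constantCoeff_apply, h0]
  have haV : a = 1 ∨ ∀ v ∈ suppV F, 1 ≤ v.1 := by
    rcases haX with h | h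
    · exact Or.inl h
    · right
      intro v hv
      by_contra hcon
      apply hv
      rw [MvPowerSeries.X_dvd_iff] at h
      apply h
      have : v.1 = 0 := by omega
      rw [this]
      simp [ex]
  obtain ⟨K, hK, hTS⟩ := exists_TS (suppV_nonempty hF) hV0 ha haV
  have hsum : Cl (∑ i, (∑ c ∈ R i, ZV (MvPowerSeries.subst (kap (p i) (q i) (α i) (β i) c) F)
              (a * p i + q i) -
            PowerSeries.C (((R i).card : Mot) * ((1 - Lp 1) * Lp 1)) *
              geo (a * p i + q i) (edgeN (p i) (q i) (A i) (B i) (R i) (μ i))))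
      (∑ i, (∑ _c ∈ R i, qC ((1 - Lp 1) * Lp 1) * uu (a * p i + q i) -
        qC (((R i).card : Mot) * ((1 - Lp 1) * Lp 1)) * uu (a * p i + q i))) := by
    refine Cl.sum _ fun i _ => ?_
    refine (Cl.sum _ fun c hc => hsub _ _ _ _ _ _ _ (hE i) c hc _ _ (hab i)).sub ?_
    exact (Cl.C _).mul (Cl_geo (by have := (hE i).hq; omega) (P1aux.edgeN_pos (hE i)))
  rw [key a K ha haX hK]
  refine (hTS.add hsum).of_eq rfl ?_
  have hz : (∑ i, (∑ _c ∈ R i, qC ((1 - Lp 1) * Lp 1) * uu (a * p i + q i) -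
        qC (((R i).card : Mot) * ((1 - Lp 1) * Lp 1)) * uu (a * p i + q i))) = 0 := by
    refine Finset.sum_eq_zero fun i _ => ?_
    rw [Finset.sum_const, nsmul_eq_mul, map_mul qC ((R i).card : Mot), map_natCast]
    ring
  rw [hz, add_zero]

theorem YOrd.constantCoeff {F : P2} {A M : ℕ} (h : YOrd F A M) (hA : 1 ≤ A) :
    MvPowerSeries.constantCoeff F = 0 := by
  have h1 := h.1 0 (by omega) 0
  have : ex 0 0 = 0 := by simp [ex]
  rwa [this, MvPowerSeries.coeff_zero_eq_constantCoeff_apply] at h1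

/-- Later stages. -/
theorem Cl_later (M : ℕ) : ∀ (F : P2) (a A : ℕ), YOrd F A M → 1 ≤ A → 1 ≤ a →
    Cl (ZV F a) (qC ((1 - Lp 1) * Lp 1) * uu a) := by
  induction M using Nat.strong_induction_on with
  | _ M IH =>
  intro F a A₀ hY hA₀ ha
  obtain ⟨φ, hφ0, hφ, -⟩ := exists_shY F
  rw [← ZV_shY F a hφ0]
  have hY' := hY.shY hφ0
  set G := MvPowerSeries.subst (shY φ) F with hG
  have hG0 : G ≠ 0 := by
    intro h
    apply hY'.2.2
    rw [h]
    exact map_zero _
  refine Cl_ZV_step hG0 (hY'.constantCoeff hA₀) ha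
    (Or.inr ((dvd_pow_self _ (by omega)).trans hY'.dvd)) ?_
  intro p q A B lam R μ hE c hc α β hab
  have hc0 : c ≠ 0 := by
    rintro rfl
    exact hE.hR0 hc
  have hp := hE.hp
  have hq := hE.hq
  obtain ⟨hA, hB⟩ := hY'.edge_le hE
  have hμS : μ c ≤ ∑ c ∈ R, μ c := Finset.single_le_sum (fun _ _ => Nat.zero_le _) hc
  have hS := Finset.sum_pos hE.hm hE.hR
  have hlt : μ c < M := by
    by_contra hcon
    have h2 : 1 * ∑ c ∈ R, μ c ≤ p * ∑ c ∈ R, μ c := Nat.mul_le_mul_right _ hE.hp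
    have h3 : B = 0 := by omega
    have h4 : p = 1 := by
      by_contra hp
      have : 2 * ∑ c ∈ R, μ c ≤ p * ∑ c ∈ R, μ c :=
        Nat.mul_le_mul_right _ (by have := hE.hp; omega)
      omega
    have h5 := not_bad_card hφ hE h4 h3
    obtain ⟨c', hc', hne'⟩ := Finset.exists_mem_ne (show 1 < R.card by omega) c
    have h6 : μ c + μ c' ≤ ∑ c ∈ R, μ c := by
      rw [← Finset.add_sum_erase _ _ hc]
      exact Nat.add_le_add_left (Finset.single_le_sum (f := μ) (fun _ _ => Nat.zero_le _)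
        (Finset.mem_erase.2 ⟨hne', hc'⟩)) _
    have := hE.hm c' hc'
    omega
  exact IH (μ c) hlt _ _ _ (YOrd.sub hE hc hab) (P1aux.edgeN_pos hE) (by omega)

/-- The value at `T = 1` of the zeta function of a plane curve germ. -/
theorem Cl_ZV {f : P2} (hf : f ≠ 0) (h0 : MvPowerSeries.constantCoeff f = 0) :
    Cl (ZV f 1) (qC ((1 - Lp 1) * Lp 1) * uu 1) := by
  refine Cl_ZV_step hf h0 le_rfl (Or.inl rfl) ?_
  intro p q A B lam R μ hE c hc α β hab
  have hp := hE.hp
  have hq := hE.hq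
  exact Cl_later (μ c) _ _ _ (YOrd.sub hE hc hab) (P1aux.edgeN_pos hE) (by omega)

/-- **Tails.** The total measure minus the zeta function is divisible by `1 - T` in the ring of
series which are regular at `0`. -/
theorem exists_tail {f : P2} (hf : f ≠ 0) (h0 : MvPowerSeries.constantCoeff f = 0) :
    ∃ W ∈ regularAt (0 : ℚ), ZV f 1 = PowerSeries.C (Lp 2) + (1 - PowerSeries.X) * W := by
  have h1 := (Cl_ZV hf h0).sub (Cl.C (Lp 2))
  have h2 : qC ((1 - Lp 1) * Lp 1) * uu 1 - qC (Lp 2) = 0 := by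
    have h3 := uu_one
    have h4 : Lp 2 = Lp 1 * Lp 1 := by rw [← Lp_add]
    rw [h4, map_mul, map_mul, map_sub, map_one]
    linear_combination qC (Lp 1) * h3
  rw [h2] at h1
  obtain ⟨h5, h6⟩ := h1
  have h7 : (⟨ZV f 1 - PowerSeries.C (Lp 2), h5⟩ : regularAt (0 : ℚ)) ∈ Ideal.span {oneSubT} :=
    Ideal.Quotient.eq_zero_iff_mem.1 h6
  obtain ⟨w, hw⟩ := Ideal.mem_span_singleton'.1 h7
  refine ⟨w, w.2, ?_⟩
  have h8 := congrArg (fun x : regularAt (0 : ℚ) => (x : PowerSeries Mot)) hw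
  have h9 : (w : PowerSeries Mot) * (1 - PowerSeries.X) = ZV f 1 - PowerSeries.C (Lp 2) := h8
  linear_combination -h9

end PC

end MPb07157
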