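import Pool.Agent.Lib.MP_b07157_agI.Pole2
import Pool.Agent.Lib.MP_b07157_agI.TRec
import Pool.Agent.Lib.MP_b07157_agI.Geo
import Pool.Agent.Lib.MP_b07157_agI.Ex
import Pool.Agent.Lib.MP_b07157_agI.Out
import Pool.Agent.Lib.MP_b07157_agI.NodeP
import Pool.Agent.Lib.MP_b07157_agI.Node
import Pool.Agent.Lib.MP_b07157_agI.Lc
import Pool.Agent.Lib.MP_b07157_agI.SqR3
import Pool.Agent.Lib.MP_b07157_agS.SMain

/-!
# The strong monodromy conjecture for superisolated surface germs
-/

noncomputable section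

namespace MPb07157

open MvPolynomial

namespace SI

/-- An isolated singularity is not the zero series. -/
theorem ne_zero_of_isoSing {g : PC.P2} (h : PC.IsoSing g) : g ≠ 0 := by
  rintro rfl
  obtain ⟨k, hk⟩ := h
  have h1 := hk 0
  simp only [map_zero, Set.mem_singleton_iff, Set.insert_eq_of_mem, Ideal.span_singleton_eq_bot.2,
    Ideal.mem_bot] at h1
  have h2 := congrArg (MvPowerSeries.coeff (Finsupp.single 0 k)) h1
  rw [MvPowerSeries.X_pow_eq, MvPowerSeries.coeff_monomial, if_pos rfl, map_zero] at h2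
  exact one_ne_zero h2

/-- A linear form without derivatives is zero. -/
theorem eq_zero_of_linear {n : ℕ} {F : MvPolynomial (Fin n) ℂ} (hF : F.IsHomogeneous 1)
    {q : Fin n → ℂ} (hq : ∀ j, eval q (pderiv j F) = 0) : F = 0 := by
  have h1 : ∀ j, pderiv j F = 0 := by
    intro j
    have h2 : (pderiv j F).IsHomogeneous 0 := hF.pderiv
    rw [← totalDegree_zero_iff_isHomogeneous, totalDegree_eq_zero_iff_eq_C] at h2
    have h3 := hq j
    rw [h2, eval_C] at h3
    rw [h2, h3, C_0]
  have h4 := hF.sum_X_mul_pderiv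
  simp only [h1, mul_zero, Finset.sum_const_zero, one_smul] at h4
  exact h4.symm

/-- `-3/(d+1)` is not a pole. -/
theorem regular_special {f : MvPolynomial (Fin 3) ℂ} {d : ℕ} (hd : 0 < d) (hf : IsSI f d) {s₀ : ℚ}
    (h3 : s₀ = -(3 / ((d : ℚ) + 1))) (hs1 : s₀ ≠ -1) : ¬ IsPole (Zmot0 f) s₀ := by
  intro hp
  have hdQ : (0 : ℚ) < d := by exact_mod_cast hd
  obtain ⟨P, hP⟩ := finite_lines hd (homogeneousComponent_isHomogeneous d f) hf.sqf
  have h : ((2 + 1 : ℕ) : ℚ) / d ≠ -s₀ := by
    intro h
    rw [h3, neg_neg, div_eq_div_iff hdQ.ne' (by positivity)] at h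
    push_cast at h
    linarith
  obtain ⟨q, j₀, hq, hsing, hF, hreg⟩ := exists_pole_serK hd hf P hP h hs1 hp
  apply hreg
  have hiso := isoSing_gch (homogeneousComponent_isHomogeneous d f) hf.sqf hq
  have hg0 := ne_zero_of_isoSing hiso
  have hc : eval 0 (gch (homogeneousComponent d f) q j₀) = 0 := by
    rw [pole_eval_gch _ q j₀ hq]
    exact hF
  have hc' : MvPowerSeries.constantCoeff
      ((gch (homogeneousComponent d f) q j₀ : MvPolynomial (Fin 2) ℂ) : PC.P2) = 0 := by
    rw [← MvPowerSeries.coeff_zero_eq_constantCoeff_apply, MvPolynomial.coeff_coe,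
      ← MvPolynomial.constantCoeff_eq, ← hc, MvPolynomial.eval_zero]
  obtain ⟨W, hW, hY⟩ := PC.exists_tail hg0 hc'
  have hs' : ((2 + 1 : ℕ) : ℚ) + ((d + 1 : ℕ) : ℚ) * s₀ = 0 := by
    rw [h3]
    push_cast
    field_simp
    ring
  refine serK_line_mem_tail 2 hd (pole_Zcoeff0_zero hc) h hs1 (W := W) (by rw [hs']; exact hW) ?_
  have e1 : PowerSeries.mk (Zcoeff0 (gch (homogeneousComponent d f) q j₀)) =
      Zmot0 (gch (homogeneousComponent d f) q j₀) := rfl
  rw [e1, ← PC.ZV_one, hY]
  congr 2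

/-- The root `-3/d` if `F^(-3/d)` is not a sum of derivatives, `F` the initial form. -/
theorem root_of_nonEx {f : MvPolynomial (Fin 3) ℂ} {d : ℕ} (hd : 0 < d)
    (hlow : ∀ k < d, homogeneousComponent k f = 0) (hF0 : homogeneousComponent d f ≠ 0)
    (h : NonEx (homogeneousComponent d f) (3 / (d : ℂ))) {b : Polynomial ℂ}
    (hb : InDnForm f 1 (b.map (MvPowerSeries.C (σ := Fin 3) (R := ℂ)))) :
    b.eval (-(3 / (d : ℂ))) = 0 := by
  classical
  set F := homogeneousComponent d f with hF
  have hFh : F.IsHomogeneous d := homogeneousComponent_isHomogeneous d f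
  have hdC : (d : ℂ) ≠ 0 := by exact_mod_cast hd.ne'
  have hd2 : 1 < d := by
    by_contra hcon
    obtain rfl : d = 1 := by omega
    obtain ⟨j, hj⟩ : ∃ j, pderiv j F ≠ 0 := by
      by_contra hall
      push Not at hall
      exact hF0 (eq_zero_of_linear hFh (q := 0) fun j => by rw [hall j, map_zero])
    have h2 : (pderiv j F).IsHomogeneous 0 := hFh.pderiv
    rw [← totalDegree_zero_iff_isHomogeneous, totalDegree_eq_zero_iff_eq_C] at h2
    set c := coeff 0 (pderiv j F) with hc
    have hc0 : c ≠ 0 := by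
      rintro h3
      apply hj
      rw [h2, h3, C_0]
    apply h 0 (Pi.single j (C (-(1 / (2 * c))) * F))
    rw [Finset.sum_eq_single j]
    · rw [Pi.single_eq_same, Derivation.leibniz, pderiv_C, smul_zero, add_zero, smul_eq_mul, h2]
      have e1 : (C (3 / ((1 : ℕ) : ℂ) + ((0 : ℕ) : ℂ)) : MvPolynomial (Fin 3) ℂ) = C 3 := by
        norm_num
      rw [e1]
      have e2 : (C (-(1 / (2 * c))) : MvPolynomial (Fin 3) ℂ) * C c = C (-(1 / 2)) := by
        rw [← C_mul]
        congr 1
        field_simp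
      have e3 : (C 3 : MvPolynomial (Fin 3) ℂ) = 3 := map_ofNat C 3
      have e4 : (C (-(1 / 2)) : MvPolynomial (Fin 3) ℂ) * 2 = -1 := by
        have : (2 : MvPolynomial (Fin 3) ℂ) = C 2 := (map_ofNat C 2).symm
        rw [this, ← C_mul, ← C_1, ← C_neg]
        congr 1
        norm_num
      rw [e3]
      linear_combination (F - 3 * F) * e2 - F * e4
    · intro i _ hi
      rw [Pi.single_eq_of_ne hi, map_zero, mul_zero, zero_mul, mul_zero, sub_zero]
    · intro h3
      exact absurd (Finset.mem_univ j) h3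
  have hb' : InDnForm (F + (f - F)) 1 (b.map (MvPowerSeries.C (σ := Fin 3) (R := ℂ))) := by
    rw [add_sub_cancel]
    exact hb
  have hwt : ∀ v : Fin 3 →₀ ℕ, wt (fun _ : Fin 3 => 1) v = v.degree := by
    intro v
    rw [Finsupp.degree_eq_sum]
    unfold wt
    simp
  refine root_of_initial (w := fun _ : Fin 3 => 1) (fun _ => one_pos) (fun _ => hd2) hd hF0 hFh ?_
    ?_ h hb'
  · intro v hv
    rw [hwt]
    by_contra hcon
    apply mem_support_iff.1 hv
    rw [coeff_sub, hF, coeff_homogeneousComponent]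
    by_cases h1 : v.degree = d
    · rw [if_pos h1, sub_self]
    · rw [if_neg h1, sub_zero]
      have h2 := congrArg (coeff v) (hlow v.degree (by omega))
      rw [coeff_homogeneousComponent, if_pos rfl, coeff_zero] at h2
      exact h2
  · rw [div_mul_cancel₀ _ hdC]
    simp

/-- The condition at `-3/d`: the log canonical threshold is `3/d`, or the power `F^(-3/d)` of the
initial form is not a sum of derivatives. -/
def Cond3 (f : MvPolynomial (Fin 3) ℂ) (d : ℕ) : Prop :=
  Lct.HasLct f (3 / (d : ℝ)) ∨ NonEx (homogeneousComponent d f) (3 / (d : ℂ))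

/-- **Superisolated surface germs.** The poles of the local zeta function other than `-3/d` are
roots, and also `-3/d` if the log canonical threshold is `3/d`, or if `F^(-3/d)` is not a sum of
derivatives, `F` the initial form. -/
theorem smc_si {f : MvPolynomial (Fin 3) ℂ} {d : ℕ} (hd : 0 < d) (hf : IsSI f d) {s₀ : ℚ}
    (hlct : s₀ = -(3 / (d : ℚ)) → Cond3 f d)
    (hp : IsPole (Zmot0 f) s₀) {b : Polynomial ℂ}
    (hb : InDnForm f 1 (b.map (MvPowerSeries.C (σ := Fin 3) (R := ℂ)))) :
    b.eval (s₀ : ℂ) = 0 := by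
  have hF0 : homogeneousComponent d f ≠ 0 := hf.sqf.ne_zero
  have hf0 : f ≠ 0 := by
    rintro rfl
    exact hF0 (map_zero _)
  have h00 : coeff 0 f = 0 := by
    have h1 := hf.low 0 hd
    rw [homogeneousComponent_zero] at h1
    exact C_eq_zero.1 h1
  by_cases hs1 : s₀ = -1
  · subst hs1
    exact neg_one_root hf0 (by rwa [notMem_support_iff]) b hb
  have hdQ : (0 : ℚ) < d := by exact_mod_cast hd
  by_cases hs2 : s₀ = -(3 / (d : ℚ))
  · rcases hlct hs2 with hc | hc
    · have h1 := Lct.root_order hd (by norm_num) hf0 hf.low (by exact_mod_cast hc) hb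
      rw [hs2]
      exact_mod_cast h1
    · have h1 := root_of_nonEx hd hf.low hF0 hc hb
      rw [hs2]
      push_cast
      exact h1
  by_cases h3 : s₀ = -(3 / ((d : ℚ) + 1))
  · exact absurd hp (regular_special hd hf h3 hs1)
  -- the singular point
  obtain ⟨P, hP⟩ := finite_lines hd (homogeneousComponent_isHomogeneous d f) hf.sqf
  obtain ⟨q, j₀, hq, hsing, hreg⟩ := exists_pole hd hf P hP (s₀ := s₀)
    (by
      intro h
      apply hs2
      push_cast at h
      rw [← neg_eq_iff_eq_neg, ← h])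
    (by
      intro h
      apply h3
      push_cast at h
      rw [← neg_eq_iff_eq_neg, ← h]) hs1 hp
  have hq0 : q ≠ 0 := by
    rintro rfl
    simp at hq
  have hne := hf.sing q hq0 hsing
  have hiso := isoSing_gch (homogeneousComponent_isHomogeneous d f) hf.sqf hq
  have hg0 := ne_zero_of_isoSing hiso
  rw [← PC.ZV_one] at hreg
  have hs' : ((2 + 1 : ℕ) : ℚ) + ((d + 1 : ℕ) : ℚ) * s₀ = 3 + ((d : ℚ) + 1) * s₀ := by
    push_cast; ring
  rw [hs'] at hreg
  set s' : ℚ := 3 + ((d : ℚ) + 1) * s₀ with hs'def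
  have hmul : PC.ZV (gch (homogeneousComponent d f) q j₀ : PC.P2) 1 ∉ regularAt s' := by
    intro h
    apply hreg
    exact mul_mem (sub_mem (one_mem _) (mul_mem (C_mem_regularAt s' _) (X_mem_regularAt s'))) h
  have hd2 : 2 ≤ d := by
    by_contra hcon
    have hd1 : d = 1 := by omega
    subst hd1
    exact hF0 (eq_zero_of_linear (homogeneousComponent_isHomogeneous 1 f) hsing)
  have hbps := inPs_of_form hb
  rcases lt_or_ge s' (-1) with h1 | h1
  · exact absurd (PC.regular_out hg0 hiso (Or.inl h1)) hmul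
  rcases le_or_gt 0 s' with h2 | h2
  · exact absurd (PC.regular_out hg0 hiso (Or.inr h2)) hmul
  rcases eq_or_lt_of_le h1 with h1 | h1
  · -- `s' = -1`
    rw [← h1] at hreg
    have hnode : PC.IsNode (gch (homogeneousComponent d f) q j₀ : PC.P2) := by
      by_contra hcon
      apply hreg
      have h5 := PC.omlX_mul_ZV_mem hg0 hcon
      unfold PC.omlX at h5
      rw [zpow_neg_one] at h5
      exact h5
    have hd3 : d ≠ 3 := by
      rintro rfl
      apply hs1
      rw [hs'def] at h1
      push_cast at h1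
      linarith
    have h4 := root_node hd2 hd3 hf.low hq hne hnode hbps
    have h5 : (s₀ : ℂ) = -(4 / ((d : ℂ) + 1)) := by
      have h6 : s₀ = -(4 / ((d : ℚ) + 1)) := by
        rw [hs'def] at h1
        field_simp
        linarith
      rw [h6]
      push_cast
      ring
    rw [h5]
    exact h4
  · by_contra hb0
    have hex := ex_gch hd2 hf.low hq hne h1 h2 hbps hb0
    exact hmul (PC.first hg0 hex (fun θ h0 i B hJ hB0 hB => PC.axis_ne hiso h0 hJ hB0 hB h1.ne')
      h1.ne')

end SI

end MPb07157
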