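import Pool.Agent.Lib.MP_b07157_agI.Sum

/-!
# Superisolated germs: the summation at the exponent `-(n+1)/(d+1)`
-/

noncomputable section

namespace MPb07157

open MvPolynomial

namespace SI

open SumAux

theorem serK_line_key (n : ℕ) {d : ℕ} (hd : 0 < d) {y : ℕ → Mot} (hy : y 0 = 0) :
    ∃ φ : PowerSeries Mot →ₐ[Mot] PowerSeries Mot,
      (∀ s₀ : ℚ, ∀ Y ∈ regularAt (((n + 1 : ℕ) : ℚ) + ((d + 1 : ℕ) : ℚ) * s₀), φ Y ∈ regularAt s₀) ∧
      φ PowerSeries.X = PowerSeries.C (ell ^ (n + 1)) * PowerSeries.X ^ (d + 1) ∧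
      (∀ a, φ (PowerSeries.C a) = PowerSeries.C a) ∧
      (1 - PowerSeries.C (ell ^ (n + 1)) * PowerSeries.X ^ d) *
      ((1 - PowerSeries.C (ell ^ (n + 1)) * PowerSeries.X ^ (d + 1)) *
      ((1 - PowerSeries.C ell * PowerSeries.X) * serK (n + 1) d (fun k => cK n k y))) =
      PowerSeries.C ((1 - ell) * ell ^ n) *
        (PowerSeries.C (ell ^ (n + 1)) * PowerSeries.X ^ (d + 1)) *
        (1 - PowerSeries.C (ell ^ (n + 1)) * PowerSeries.X ^ d) *
        (1 - PowerSeries.C ell * PowerSeries.X) +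
      ((1 - PowerSeries.C ell * (PowerSeries.C (ell ^ (n + 1)) * PowerSeries.X ^ (d + 1))) *
        φ (PowerSeries.mk y)) *
        ((1 - PowerSeries.X) *
          (PowerSeries.C (ell ^ (n + 1)) * PowerSeries.X ^ d - PowerSeries.C ell)) := by
  obtain ⟨φ, hφ, hreg⟩ := exists_subst (n + 1) (b := d + 1) (Nat.succ_pos d)
  have hX : φ PowerSeries.X =
      PowerSeries.C (ell ^ (n + 1)) * PowerSeries.X ^ (d + 1) := by
    refine SubAux.map_X (ell ^ (n + 1)) (Nat.succ_pos d) φ fun Y m => ?_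
    rw [hφ]
    split_ifs with h
    · rw [pow_mul]
    · rfl
  have hY0 : φ (PowerSeries.mk y) =
      FS (ell ^ (n + 1)) d (fun k => PowerSeries.C (y k) * PowerSeries.X ^ k) := by
    ext m
    rw [hφ, FS, PowerSeries.coeff_mk, PowerSeries.coeff_mk]
    have h2 : ∀ k ∈ Finset.range m, PowerSeries.coeff m
        ((PowerSeries.C (ell ^ (n + 1)) * (PowerSeries.X : PowerSeries Mot) ^ d) ^ (k + 1) *
        (PowerSeries.C (y (k + 1)) * PowerSeries.X ^ (k + 1))) =
        if m = (d + 1) * (k + 1) then ell ^ ((n + 1) * (m / (d + 1))) * y (m / (d + 1))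
        else 0 := by
      intro k _
      have h3 : (PowerSeries.C (ell ^ (n + 1)) * (PowerSeries.X : PowerSeries Mot) ^ d) ^ (k + 1) *
          (PowerSeries.C (y (k + 1)) * PowerSeries.X ^ (k + 1)) =
          PowerSeries.C ((ell ^ (n + 1)) ^ (k + 1) * y (k + 1)) *
            PowerSeries.X ^ ((d + 1) * (k + 1)) := by
        generalize ell ^ (n + 1) = a
        rw [map_mul, map_pow]
        ring
      rw [h3, PowerSeries.coeff_C_mul, PowerSeries.coeff_X_pow]
      split_ifs with h4
      · have h5 : m / (d + 1) = k + 1 := by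
          rw [h4]
          exact Nat.mul_div_cancel_left _ (Nat.succ_pos d)
        rw [h5, mul_one, pow_mul]
      · rw [mul_zero]
    rw [Finset.sum_congr rfl h2]
    by_cases h3 : d + 1 ∣ m
    · rw [if_pos h3]
      obtain ⟨q, rfl⟩ := h3
      rw [Nat.mul_div_cancel_left _ (Nat.succ_pos d)]
      rcases q with - | q
      · simp [hy]
      · rw [Finset.sum_eq_single q]
        · rw [if_pos rfl]
        · intro k _ hk
          rw [if_neg]
          intro h4
          apply hk
          have h5 := Nat.eq_of_mul_eq_mul_left (Nat.succ_pos d) h4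
          omega
        · intro h4
          exfalso
          apply h4
          rw [Finset.mem_range]
          have h5 : 1 * (q + 1) ≤ (d + 1) * (q + 1) := Nat.mul_le_mul_right _ (by omega)
          omega
    · rw [if_neg h3]
      symm
      refine Finset.sum_eq_zero fun k _ => ?_
      rw [if_neg]
      intro h4
      exact h3 ⟨_, h4⟩
  have hS : serK (n + 1) d (fun k => cK n k y) =
      PowerSeries.C (1 - ell) * FS (ell ^ (n + 1)) d (Pser y) +
      (PowerSeries.C ((1 - ell) * ell ^ n) *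
        FS (ell ^ (n + 1)) d (fun k => (PowerSeries.X : PowerSeries Mot) ^ k) +
      (PowerSeries.C (-(1 - ell)) *
        FS (ell ^ (n + 1)) d (fun k => PowerSeries.C (∑ j ∈ Finset.range (k + 1), y j) *
          PowerSeries.X ^ k) +
      (PowerSeries.C (1 - 2 * ell) + PowerSeries.C (1 - ell) * Eser ell) *
        FS (ell ^ (n + 1)) d (fun k => PowerSeries.C (y k) * PowerSeries.X ^ k))) := by
    rw [serK_eq]
    have h2 : (fun k => PowerSeries.mk (cK n k y)) = fun k =>
      PowerSeries.C (1 - ell) * Pser y k +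
      (PowerSeries.C ((1 - ell) * ell ^ n) * PowerSeries.X ^ k +
      (PowerSeries.C (-(1 - ell)) *
        (PowerSeries.C (∑ j ∈ Finset.range (k + 1), y j) * PowerSeries.X ^ k) +
      (PowerSeries.C (1 - 2 * ell) + PowerSeries.C (1 - ell) * Eser ell) *
        (PowerSeries.C (y k) * PowerSeries.X ^ k))) := funext fun k => mk_cK n k y
    rw [h2, FS_add _ hd, FS_add _ hd, FS_add _ hd, FS_mul _ hd, FS_mul _ hd, FS_mul _ hd,
      FS_mul _ hd]
  have hP := FS_P (ell ^ (n + 1)) hd hy
  have hT := FS_T (ell ^ (n + 1)) hd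
  have hQ := FS_Q (ell ^ (n + 1)) hd hy
  have hE := Eser_eq ell
  generalize FS (ell ^ (n + 1)) d (Pser y) = FP at hS hP
  generalize FS (ell ^ (n + 1)) d (fun k => (PowerSeries.X : PowerSeries Mot) ^ k) = FT at hS hT
  generalize FS (ell ^ (n + 1)) d (fun k => PowerSeries.C (∑ j ∈ Finset.range (k + 1), y j) *
          PowerSeries.X ^ k) = FQ at hS hQ
  generalize FS (ell ^ (n + 1)) d (fun k => PowerSeries.C (y k) * PowerSeries.X ^ k) = Y
    at hS hP hQ hY0
  refine ⟨φ, hreg, hX, fun a => SubAux.map_C _ _, ?_⟩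
  rw [hY0]
  have key : (1 - PowerSeries.C (ell ^ (n + 1)) * PowerSeries.X ^ d) *
      ((1 - PowerSeries.C (ell ^ (n + 1)) * PowerSeries.X ^ (d + 1)) *
      ((1 - PowerSeries.C ell * PowerSeries.X) * serK (n + 1) d (fun k => cK n k y))) =
      PowerSeries.C ((1 - ell) * ell ^ n) *
        (PowerSeries.C (ell ^ (n + 1)) * PowerSeries.X ^ (d + 1)) *
        (1 - PowerSeries.C (ell ^ (n + 1)) * PowerSeries.X ^ d) *
        (1 - PowerSeries.C ell * PowerSeries.X) +
      ((1 - PowerSeries.C ell * (PowerSeries.C (ell ^ (n + 1)) * PowerSeries.X ^ (d + 1))) * Y) *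
        ((1 - PowerSeries.X) *
          (PowerSeries.C (ell ^ (n + 1)) * PowerSeries.X ^ d - PowerSeries.C ell)) := by
    rw [hS]
    have hc1 : (PowerSeries.C (1 - ell) : PowerSeries Mot) = 1 - PowerSeries.C ell := by
      rw [map_sub, map_one]
    have hc2 : (PowerSeries.C (-(1 - ell)) : PowerSeries Mot) = -(1 - PowerSeries.C ell) := by
      rw [map_neg, map_sub, map_one]
    have hc3 : (PowerSeries.C (1 - 2 * ell) : PowerSeries Mot) = 1 - 2 * PowerSeries.C ell := by
      rw [map_sub, map_mul, map_one, map_ofNat]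
    have hXX : PowerSeries.C (ell ^ (n + 1)) * (PowerSeries.X : PowerSeries Mot) ^ (d + 1) =
        (PowerSeries.C (ell ^ (n + 1)) * PowerSeries.X ^ d) * PowerSeries.X := by
      rw [pow_succ (PowerSeries.X : PowerSeries Mot) d, mul_assoc]
    rw [hXX] at hT hQ ⊢
    rw [hc1, hc2, hc3]
    generalize PowerSeries.C ((1 - ell) * ell ^ n) = c
    generalize PowerSeries.C (ell ^ (n + 1)) * (PowerSeries.X : PowerSeries Mot) ^ d = A
      at hP hT hQ ⊢
    generalize PowerSeries.C ell = l at hE ⊢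
    linear_combination (1 - A * PowerSeries.X) * (1 - l * PowerSeries.X) * (1 - l) * hP +
      (1 - A) * (1 - l * PowerSeries.X) * c * hT -
      (1 - l) * (1 - A) * (1 - l * PowerSeries.X) * hQ +
      (1 - A) * (1 - A * PowerSeries.X) * (1 - l) * Y * hE
  exact key

/-- The contribution of a line of singular points, if the series of the section is
`ℓ^n + (1 - T) W`. -/
theorem serK_line_mem_tail (n : ℕ) {d : ℕ} (hd : 0 < d) {y : ℕ → Mot} (hy : y 0 = 0) {s₀ : ℚ}
    (h : ((n + 1 : ℕ) : ℚ) / d ≠ -s₀) (h1 : s₀ ≠ -1) {W : PowerSeries Mot}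
    (hW : W ∈ regularAt (((n + 1 : ℕ) : ℚ) + ((d + 1 : ℕ) : ℚ) * s₀))
    (hY : PowerSeries.mk y = PowerSeries.C (ell ^ n) + (1 - PowerSeries.X) * W) :
    serK (n + 1) d (fun k => cK n k y) ∈ regularAt s₀ := by
  obtain ⟨φ, hreg, hX, hC, key⟩ := serK_line_key n hd hy
  have hφW := hreg s₀ W hW
  have hφY : φ (PowerSeries.mk y) = PowerSeries.C (ell ^ n) +
      (1 - PowerSeries.C (ell ^ (n + 1)) * PowerSeries.X ^ (d + 1)) * φ W := by
    rw [hY, map_add, map_mul, map_sub, map_one, hX, hC]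
  obtain ⟨g, hg, hg'⟩ := inv_mem (n + 1) hd h
  obtain ⟨g1, hg1, hg1'⟩ := inv_mem1 h1
  have hXX : PowerSeries.C (ell ^ (n + 1)) * (PowerSeries.X : PowerSeries Mot) ^ (d + 1) =
      (PowerSeries.C (ell ^ (n + 1)) * PowerSeries.X ^ d) * PowerSeries.X := by
    rw [pow_succ (PowerSeries.X : PowerSeries Mot) d, mul_assoc]
  have hA := A_mem s₀ (ell ^ (n + 1)) d
  have hA' := A_mem s₀ (ell ^ (n + 1)) (d + 1)
  have hu : IsUnit (1 - PowerSeries.C (ell ^ (n + 1)) * PowerSeries.X ^ (d + 1) :
      PowerSeries Mot) := by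
    rw [PowerSeries.isUnit_iff_constantCoeff]
    simp
  have key2 : (1 - PowerSeries.C (ell ^ (n + 1)) * PowerSeries.X ^ d) *
      ((1 - PowerSeries.C ell * PowerSeries.X) * serK (n + 1) d (fun k => cK n k y)) =
      PowerSeries.C (ell ^ n) * (PowerSeries.C (ell ^ (n + 1)) * PowerSeries.X ^ d -
        PowerSeries.C ell + PowerSeries.C ell * PowerSeries.X -
        (2 * PowerSeries.C ell - PowerSeries.C ell ^ 2) *
          (PowerSeries.C (ell ^ (n + 1)) * PowerSeries.X ^ (d + 1))) +
      φ W * ((1 - PowerSeries.C ell * (PowerSeries.C (ell ^ (n + 1)) * PowerSeries.X ^ (d + 1))) *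
        ((1 - PowerSeries.X) *
          (PowerSeries.C (ell ^ (n + 1)) * PowerSeries.X ^ d - PowerSeries.C ell))) := by
    refine hu.mul_left_cancel ?_
    rw [hφY] at key
    have hc : PowerSeries.C ((1 - ell) * ell ^ n) =
        (1 - PowerSeries.C ell) * (PowerSeries.C (ell ^ n) : PowerSeries Mot) := by
      rw [map_mul, map_sub, map_one]
    rw [hc, hXX] at key
    rw [hXX]
    generalize serK (n + 1) d (fun k => cK n k y) = S at key ⊢
    generalize PowerSeries.C (ell ^ (n + 1)) * (PowerSeries.X : PowerSeries Mot) ^ d = A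
      at key ⊢
    generalize PowerSeries.C (ell ^ n) = cn at key ⊢
    generalize PowerSeries.C ell = l at key ⊢
    generalize φ W = w at key ⊢
    linear_combination key
  refine mem_of_mul hg1 hg1' rfl (mem_of_mul hg hg' key2 ?_)
  have h1' : (1 : PowerSeries Mot) ∈ regularAt s₀ := one_mem _
  have hl := C_mem s₀ ell
  have hXm := X_mem s₀
  have h2' : (2 : PowerSeries Mot) ∈ regularAt s₀ := by
    have := add_mem h1' h1'
    rwa [one_add_one_eq_two] at this
  exact add_mem (mul_mem (C_mem s₀ _) (sub_mem (add_mem (sub_mem hA hl) (mul_mem hl hXm))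
    (mul_mem (sub_mem (mul_mem h2' hl) (pow_mem hl 2)) hA')))
    (mul_mem hφW (mul_mem (sub_mem h1' (mul_mem hl hA')) (mul_mem (sub_mem h1' hXm)
      (sub_mem hA hl))))

end SI

end MPb07157
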