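import Pool.Agent.Lib.MP_b07157_agI.Chart

/-!
# Superisolated germs: roots
-/

noncomputable section

namespace MPb07157

open MvPolynomial TensorProduct

namespace SI

/-- The Jacobian determinant of the chart. -/
theorem det_chart {A : Type} [CommRing A] [Algebra ℂ A] (D0 D1 D2 : Derivation ℂ A A) (u : A)
    (j₀ : Fin 3) (y : Fin 2 → A) (h0 : ∀ i, D0 (y i) = 0) {D : Fin 3 → Derivation ℂ A A}
    (e0 : D 0 = D0) (e1 : D 1 = D1) (e2 : D 2 = D2) :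
    (ARL.jm D fun i => u * j₀.insertNth (α := fun _ => A) 1 y i).det =
      (-1) ^ (j₀ : ℕ) * (D0 u * u ^ 2 * (D1 (y 0) * D2 (y 1) - D1 (y 1) * D2 (y 0))) := by
  have hy0 : ∀ D' : Derivation ℂ A A, D' 1 = 0 := fun D' => D'.map_one_eq_zero
  subst e0 e1 e2
  rw [Matrix.det_fin_three]
  simp only [ARL.jm, Matrix.of_apply, Derivation.leibniz, smul_eq_mul]
  fin_cases j₀
  · have k0 : Fin.insertNth (α := fun _ => A) (⟨0, by omega⟩ : Fin 3) 1 y 0 = 1 := rfl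
    have k1 : Fin.insertNth (α := fun _ => A) (⟨0, by omega⟩ : Fin 3) 1 y 1 = y 0 := rfl
    have k2 : Fin.insertNth (α := fun _ => A) (⟨0, by omega⟩ : Fin 3) 1 y 2 = y 1 := rfl
    have k3 : (((⟨0, by omega⟩ : Fin 3) : Fin 3) : ℕ) = 0 := rfl
    rw [k3, k0, k1, k2, hy0, hy0, hy0, h0, h0]
    ring
  · have k0 : Fin.insertNth (α := fun _ => A) (⟨1, by omega⟩ : Fin 3) 1 y 0 = y 0 := rfl
    have k1 : Fin.insertNth (α := fun _ => A) (⟨1, by omega⟩ : Fin 3) 1 y 1 = 1 := rfl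
    have k2 : Fin.insertNth (α := fun _ => A) (⟨1, by omega⟩ : Fin 3) 1 y 2 = y 1 := rfl
    have k3 : (((⟨1, by omega⟩ : Fin 3) : Fin 3) : ℕ) = 1 := rfl
    rw [k3, k0, k1, k2, hy0, hy0, hy0, h0, h0]
    ring
  · have k0 : Fin.insertNth (α := fun _ => A) (⟨2, by omega⟩ : Fin 3) 1 y 0 = y 0 := rfl
    have k1 : Fin.insertNth (α := fun _ => A) (⟨2, by omega⟩ : Fin 3) 1 y 1 = y 1 := rfl
    have k2 : Fin.insertNth (α := fun _ => A) (⟨2, by omega⟩ : Fin 3) 1 y 2 = 1 := rfl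
    have k3 : (((⟨2, by omega⟩ : Fin 3) : Fin 3) : ℕ) = 2 := rfl
    rw [k3, k0, k1, k2, hy0, hy0, hy0, h0, h0]
    ring

variable {K : Type} [Field K] [Algebra ℂ K] {B : Type} [Field B] [Algebra ℂ B]

/-- The function `u = t^N f₀ T / c`. -/
def uc (f₀ : K) (Q : B) (N : ℕ) : MvPowerSeries Unit (K ⊗[ℂ] B) :=
  MvPowerSeries.C (f₀ ⊗ₜ[ℂ] Q) * MvPowerSeries.X () ^ N

theorem cw_dR_uc (δ : Derivation ℂ B B) (f₀ : K) (Q : B) (N : ℕ) :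
    ARL.cw (dR δ) (uc f₀ Q N) = MvPowerSeries.C (f₀ ⊗ₜ[ℂ] δ Q) * MvPowerSeries.X () ^ N := by
  unfold uc
  rw [Derivation.leibniz, ARL.cw_C, dR_tmul, smul_eq_mul, smul_eq_mul, MvPowerSeries.X_pow_eq,
    ARL.cw_monomial, mul_zero, zero_add, mul_comm]

theorem cw_dL_iS (δ : Derivation ℂ K K) (h : PowerSeries K) :
    ARL.cw (dL δ) (iS B h) = iS B (PC.dz δ h) := by
  refine MvPowerSeries.ext fun v => ?_
  rw [ARL.coeff_cw, coeff_iS, coeff_iS, dL_tmul]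
  obtain ⟨m, rfl⟩ : ∃ m, v = Finsupp.single () m := ⟨v (), by ext; simp⟩
  have h1 : MvPowerSeries.coeff (Finsupp.single () m) (PC.dz δ h) =
      PowerSeries.coeff m (PC.dz δ h) := rfl
  have h2 : MvPowerSeries.coeff (Finsupp.single () m) h = PowerSeries.coeff m h := rfl
  rw [h1, h2, PC.coeff_dz]

theorem jac_iS (δ : Derivation ℂ K K) {Θ : Fin 2 → PowerSeries K} (c : Fin 2 → ℂ) :
    ARL.lg () (iS B (Θ 0) + algebraMap ℂ _ (c 0)) *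
        ARL.cw (dL δ) (iS B (Θ 1) + algebraMap ℂ _ (c 1)) -
      ARL.lg () (iS B (Θ 1) + algebraMap ℂ _ (c 1)) *
        ARL.cw (dL δ) (iS B (Θ 0) + algebraMap ℂ _ (c 0)) =
      MvPowerSeries.X () * iS B (PC.jacK δ Θ) := by
  rw [map_add, map_add, map_add, map_add, Derivation.map_algebraMap, Derivation.map_algebraMap,
    Derivation.map_algebraMap, Derivation.map_algebraMap, add_zero, add_zero, add_zero, add_zero,
    lg_iS, lg_iS, cw_dL_iS, cw_dL_iS]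
  unfold PC.jacK
  rw [map_sub, map_mul, map_mul]
  ring

/-- The value of `f` on the chart. -/
theorem aeval_chart {f : MvPolynomial (Fin 3) ℂ} {d : ℕ}
    (hlow : ∀ j < d, homogeneousComponent j f = 0) {q : Fin 3 → ℂ} {j₀ : Fin 3} (hq : q j₀ = 1)
    {N : ℕ} (hN : 0 < N) {T : B} {c : ℂ} (hc : eval q (homogeneousComponent (d + 1) f) = c)
    (hc0 : c ≠ 0) {Θ : Fin 2 → PowerSeries K} (h0 : ∀ i, PowerSeries.constantCoeff (Θ i) = 0)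
    {f₀ : K} {F₁ : PowerSeries K}
    (hF : (MvPowerSeries.subst (Θ : Fin 2 → MvPowerSeries Unit K)
      (gch (homogeneousComponent d f) q j₀ : MvPowerSeries (Fin 2) ℂ) : PowerSeries K) =
      PowerSeries.X ^ N * (PowerSeries.C f₀ + PowerSeries.X * F₁)) :
    ∃ V : MvPowerSeries Unit (K ⊗[ℂ] B),
      aeval (fun i => uc f₀ (algebraMap ℂ B c⁻¹ * T) N * xc B q j₀ Θ i) f =
        MvPowerSeries.monomial (Finsupp.single () (N * (d + 1))) 1 * V ∧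
      MvPowerSeries.constantCoeff V =
        (f₀ ^ (d + 1)) ⊗ₜ[ℂ] ((algebraMap ℂ B c⁻¹ * T) ^ d * (1 + T)) := by
  obtain ⟨G, hG⟩ := aeval_mul_low hlow (uc f₀ (algebraMap ℂ B c⁻¹ * T) N) (xc B q j₀ Θ)
  set a : K ⊗[ℂ] B := f₀ ⊗ₜ[ℂ] (algebraMap ℂ B c⁻¹ * T) with ha
  set X' : MvPowerSeries Unit (K ⊗[ℂ] B) := MvPowerSeries.X () with hX'
  refine ⟨MvPowerSeries.C a ^ d * ((MvPowerSeries.C (f₀ ⊗ₜ[ℂ] (1 : B)) + X' * iS B F₁) +
    MvPowerSeries.C a * aeval (xc B q j₀ Θ) (homogeneousComponent (d + 1) f) +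
    X' ^ N * (MvPowerSeries.C a ^ 2 * G)), ?_, ?_⟩
  · rw [hG, aeval_xc q j₀ h0, hF, map_mul, map_pow, map_add, map_mul, iS_X, iS_C, ← hX',
      ← MvPowerSeries.X_pow_eq, ← hX']
    unfold uc
    rw [← ha, ← hX']
    ring
  · rw [map_mul, map_add, map_add, map_add, map_mul, map_mul, map_mul, map_pow, map_pow,
      MvPowerSeries.constantCoeff_C, MvPowerSeries.constantCoeff_C, hX',
      MvPowerSeries.constantCoeff_X, zero_pow hN.ne', zero_mul, zero_mul, add_zero, add_zero,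
      constantCoeff_aeval_xc _ hq h0, hc, ha, Algebra.TensorProduct.tmul_pow]
    have h1 : algebraMap ℂ (K ⊗[ℂ] B) c = (1 : K) ⊗ₜ[ℂ] (algebraMap ℂ B c) := by
      rw [Algebra.TensorProduct.algebraMap_apply, Algebra.algebraMap_eq_smul_one,
        TensorProduct.smul_tmul, Algebra.algebraMap_eq_smul_one]
    have h2 : algebraMap ℂ B c⁻¹ * T * algebraMap ℂ B c = T := by
      rw [mul_right_comm, ← map_mul, inv_mul_cancel₀ hc0, map_one, one_mul]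
    rw [h1, Algebra.TensorProduct.tmul_mul_tmul, mul_one, h2, ← TensorProduct.tmul_add,
      Algebra.TensorProduct.tmul_mul_tmul, pow_succ]

/-- **The residue lemma in the chart.** -/
theorem residue_chart {f : MvPolynomial (Fin 3) ℂ} {d : ℕ}
    (hlow : ∀ j < d, homogeneousComponent j f = 0) {q : Fin 3 → ℂ} {j₀ : Fin 3} (hq : q j₀ = 1)
    (hq1 : eval q (homogeneousComponent (d + 1) f) ≠ 0) {s : ℂ} {ν N : ℕ} (hN : 0 < N)
    (hν : 0 < ν)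
    (hs : 3 + ((d : ℂ) + 1) * s = -((ν : ℂ) / N))
    {b : Polynomial ℂ} (hb : InPs (f : MvPowerSeries (Fin 3) ℂ) 1
      (b.map (MvPowerSeries.C (σ := Fin 3) (R := ℂ)))) (hb0 : b.eval s ≠ 0)
    (δ : Derivation ℂ K K) (δ' : Derivation ℂ B B) {T : B} (hT : T ≠ 0) (hT1 : 1 + T ≠ 0)
    (hδT : δ' T = 1) {Θ : Fin 2 → PowerSeries K} (h0 : ∀ i, PowerSeries.constantCoeff (Θ i) = 0)
    {J₀ f₀ : K} (hf₀ : f₀ ≠ 0) {J₁ F₁ : PowerSeries K}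
    (hJ : PC.jacK δ Θ = PowerSeries.X ^ (ν - 1) * (PowerSeries.C J₀ + PowerSeries.X * J₁))
    (hF : (MvPowerSeries.subst (Θ : Fin 2 → MvPowerSeries Unit K)
      (gch (homogeneousComponent d f) q j₀ : MvPowerSeries (Fin 2) ℂ) : PowerSeries K) =
      PowerSeries.X ^ N * (PowerSeries.C f₀ + PowerSeries.X * F₁)) :
    ∃ r₀ r₁ : K ⊗[ℂ] B, (f₀ ^ 3 * J₀) ⊗ₜ[ℂ] (T ^ 2) =
      dL δ r₀ + ((algebraMap ℂ K s * ((f₀ ^ (d + 1))⁻¹ * δ (f₀ ^ (d + 1)))) ⊗ₜ[ℂ] (1 : B)) * r₀ +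
      (dR δ' r₁ + ((1 : K) ⊗ₜ[ℂ] (algebraMap ℂ B s *
        ((T ^ d * (1 + T))⁻¹ * δ' (T ^ d * (1 + T))))) * r₁) := by
  classical
  set c := eval q (homogeneousComponent (d + 1) f) with hc
  obtain ⟨Q, hQ⟩ : ∃ Q : B, Q = algebraMap ℂ B c⁻¹ * T := ⟨_, rfl⟩
  have hQ0 : Q ≠ 0 := by
    rw [hQ]
    exact mul_ne_zero (by
      rw [Ne, map_eq_zero_iff _ (algebraMap ℂ B).injective]; exact inv_ne_zero hq1) hT
  obtain ⟨a, ha⟩ : ∃ a : K ⊗[ℂ] B, a = f₀ ⊗ₜ[ℂ] Q := ⟨_, rfl⟩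
  obtain ⟨u, hu⟩ : ∃ u : MvPowerSeries Unit (K ⊗[ℂ] B), u = uc f₀ Q N := ⟨_, rfl⟩
  set X' : MvPowerSeries Unit (K ⊗[ℂ] B) := MvPowerSeries.X () with hX'
  have hu0 : MvPowerSeries.constantCoeff u = 0 := by
    rw [hu]
    unfold uc
    rw [map_mul, map_pow, MvPowerSeries.constantCoeff_X, zero_pow hN.ne', mul_zero]
  have hX0 : ∀ i, MvPowerSeries.constantCoeff (u * xc B q j₀ Θ i) = 0 := fun i => by
    rw [map_mul, hu0, zero_mul]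
  have hsub : MvPowerSeries.HasSubst (fun i => u * xc B q j₀ Θ i) :=
    MvPowerSeries.hasSubst_of_constantCoeff_zero hX0
  set θ : MvPowerSeries (Fin 3) ℂ →ₐ[ℂ] MvPowerSeries Unit (K ⊗[ℂ] B) :=
    MvPowerSeries.substAlgHom hsub with hθ
  have hθX : ∀ i, θ (MvPowerSeries.X i) = u * xc B q j₀ Θ i := fun i => by
    rw [hθ, MvPowerSeries.substAlgHom_X]
  have hθf : θ (f : MvPowerSeries (Fin 3) ℂ) = aeval (fun i => u * xc B q j₀ Θ i) f := by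
    rw [hθ, MvPowerSeries.coe_substAlgHom, MvPowerSeries.subst_coe]
  obtain ⟨V, hV1, hV2⟩ := aeval_chart (B := B) (T := T) hlow hq hN hc.symm hq1 h0 hF
  rw [← hQ, ← hu, ← hθf] at hV1
  rw [← hQ] at hV2
  -- the unit
  set P : B := Q ^ d * (1 + T) with hP
  have hP0 : P ≠ 0 := mul_ne_zero (pow_ne_zero _ hQ0) hT1
  have hf₀' : f₀ ^ (d + 1) ≠ 0 := pow_ne_zero _ hf₀
  let φ : (K ⊗[ℂ] B)ˣ := ⟨(f₀ ^ (d + 1)) ⊗ₜ[ℂ] P, (f₀ ^ (d + 1))⁻¹ ⊗ₜ[ℂ] P⁻¹, by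
    rw [Algebra.TensorProduct.tmul_mul_tmul, mul_inv_cancel₀ hf₀', mul_inv_cancel₀ hP0]; rfl, by
    rw [Algebra.TensorProduct.tmul_mul_tmul, inv_mul_cancel₀ hf₀', inv_mul_cancel₀ hP0]; rfl⟩
  have hφ1 : (φ : K ⊗[ℂ] B) = (f₀ ^ (d + 1)) ⊗ₜ[ℂ] P := rfl
  have hφ2 : ((φ⁻¹ : (K ⊗[ℂ] B)ˣ) : K ⊗[ℂ] B) = (f₀ ^ (d + 1))⁻¹ ⊗ₜ[ℂ] P⁻¹ := rfl
  have hφ : MvPowerSeries.constantCoeff V = φ := hV2
  -- the derivations
  let D : Fin 2 → Derivation ℂ (K ⊗[ℂ] B) (K ⊗[ℂ] B) := ![dL δ, dR δ']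
  have hD : ∀ b b' x, D b (D b' x) = D b' (D b x) := by
    intro b b' x
    fin_cases b <;> fin_cases b'
    · rfl
    · exact dL_dR δ δ' x
    · exact (dL_dR δ δ' x).symm
    · rfl
  let e : Fin 3 → Unit ⊕ Fin 2 := ![Sum.inr 1, Sum.inl (), Sum.inr 0]
  -- the Jacobian
  have hdet : (ARL.jm (fun i => ARL.rowD D (e i)) fun i => θ (MvPowerSeries.X i)).det =
      MvPowerSeries.monomial (Finsupp.single () (3 * N + ν)) 1 * ((-1) ^ (j₀ : ℕ) *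
        (MvPowerSeries.C (f₀ ⊗ₜ[ℂ] δ' Q) * MvPowerSeries.C a ^ 2 *
          (MvPowerSeries.C (J₀ ⊗ₜ[ℂ] (1 : B)) + X' * iS B J₁))) := by
    have h1 : (fun i => θ (MvPowerSeries.X i)) = fun i => u * j₀.insertNth
        (α := fun _ => MvPowerSeries Unit (K ⊗[ℂ] B)) 1
          (fun i => iS B (Θ i) + algebraMap ℂ _ (q (j₀.succAbove i))) i := funext hθX
    rw [h1, det_chart (ARL.cw (dR δ')) (ARL.lg ()) (ARL.cw (dL δ)) u j₀ _ (fun i => by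
      rw [map_add, cw_dR_iS, Derivation.map_algebraMap, add_zero]) rfl rfl rfl,
      jac_iS δ (fun i => q (j₀.succAbove i)), hJ, hu, cw_dR_uc, map_mul, map_pow, map_add,
      map_mul, iS_X, iS_C, ← MvPowerSeries.X_pow_eq, ← hX']
    unfold uc
    rw [← ha, ← hX']
    obtain ⟨m, rfl⟩ : ∃ m, ν = m + 1 := ⟨ν - 1, by omega⟩
    rw [Nat.add_sub_cancel]
    ring
  have hNC : (N : ℂ) ≠ 0 := by exact_mod_cast hN.ne'
  have hdC : ((d : ℂ) + 1) ≠ 0 := by exact_mod_cast Nat.succ_ne_zero d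
  have hs1 : s = -(((3 * N + ν : ℕ) : ℂ) / ((N * (d + 1) : ℕ) : ℂ)) := by
    push_cast
    field_simp
    field_simp at hs
    linear_combination hs
  obtain ⟨r, hr⟩ := ARL.residue_corner (τ := Unit) (β := Fin 2) e hD (θ := θ)
    (fun i => by rw [hθX]; exact hX0 i) hV1 hφ (ν := 3 * N + ν) (D := N * (d + 1))
    (Nat.mul_pos hN (Nat.succ_pos d)) hs1 (Mon := ∅) (M := fun _ => 0) (by simp)
    (l := fun _ => 0) hdet (fun j => by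
      rw [Finsupp.single_apply, Finsupp.single_apply, if_pos (Subsingleton.elim _ _),
        if_pos (Subsingleton.elim _ _), Finset.sum_empty, add_zero, hs1]
      push_cast
      field_simp
      ring) (j₀ := ()) (by
      rw [Finsupp.single_eq_same]; exact Nat.mul_pos hN (Nat.succ_pos d)) (by simp) hb hb0
  -- the constant coefficient
  have hδQ : δ' Q = algebraMap ℂ B c⁻¹ := by
    rw [hQ, Derivation.leibniz, Derivation.map_algebraMap, smul_zero, add_zero, hδT, smul_eq_mul,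
      mul_one]
  have hcB : algebraMap ℂ B c⁻¹ * algebraMap ℂ B c = 1 := by
    rw [← map_mul, inv_mul_cancel₀ hq1, map_one]
  obtain ⟨κ, hκ⟩ : ∃ κ : K ⊗[ℂ] B, κ = (-1) ^ (j₀ : ℕ) * algebraMap ℂ (K ⊗[ℂ] B) (c ^ 3) :=
    ⟨_, rfl⟩
  have hκc : ∀ x : ℂ, algebraMap ℂ (K ⊗[ℂ] B) x = (1 : K) ⊗ₜ[ℂ] (algebraMap ℂ B x) := by
    intro x
    rw [Algebra.TensorProduct.algebraMap_apply, Algebra.algebraMap_eq_smul_one,
      TensorProduct.smul_tmul, Algebra.algebraMap_eq_smul_one]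
  have hκc' : ∀ x : ℂ, algebraMap ℂ (K ⊗[ℂ] B) x = (algebraMap ℂ K x) ⊗ₜ[ℂ] (1 : B) := by
    intro x
    rw [Algebra.TensorProduct.algebraMap_apply]
  have hleft : κ * MvPowerSeries.constantCoeff ((-1) ^ (j₀ : ℕ) *
        (MvPowerSeries.C (f₀ ⊗ₜ[ℂ] δ' Q) * MvPowerSeries.C a ^ 2 *
          (MvPowerSeries.C (J₀ ⊗ₜ[ℂ] (1 : B)) + X' * iS B J₁))) =
      (f₀ ^ 3 * J₀) ⊗ₜ[ℂ] (T ^ 2) := by
    rw [map_mul, map_mul, map_mul, map_add, map_mul, map_pow, map_pow, map_neg, map_one,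
      MvPowerSeries.constantCoeff_C, MvPowerSeries.constantCoeff_C, MvPowerSeries.constantCoeff_C,
      hX', MvPowerSeries.constantCoeff_X, zero_mul, add_zero, hκ, hκc, hδQ, ha,
      Algebra.TensorProduct.tmul_pow, Algebra.TensorProduct.tmul_mul_tmul,
      Algebra.TensorProduct.tmul_mul_tmul]
    have h1 : (-1 : K ⊗[ℂ] B) ^ (j₀ : ℕ) * (-1) ^ (j₀ : ℕ) = 1 := by
      rw [← mul_pow, neg_mul_neg, one_mul, one_pow]
    have h2 : algebraMap ℂ B (c ^ 3) * (algebraMap ℂ B c⁻¹ * Q ^ 2 * 1) = T ^ 2 := by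
      rw [map_pow, hQ]
      linear_combination (T ^ 2 * ((algebraMap ℂ B c⁻¹ * algebraMap ℂ B c) ^ 2 +
        algebraMap ℂ B c⁻¹ * algebraMap ℂ B c + 1)) * hcB
    calc (-1 : K ⊗[ℂ] B) ^ (j₀ : ℕ) * (1 : K) ⊗ₜ[ℂ] (algebraMap ℂ B (c ^ 3)) *
          ((-1) ^ (j₀ : ℕ) * (f₀ * f₀ ^ 2 * J₀) ⊗ₜ[ℂ] (algebraMap ℂ B c⁻¹ * Q ^ 2 * 1))
        = ((-1 : K ⊗[ℂ] B) ^ (j₀ : ℕ) * (-1) ^ (j₀ : ℕ)) *
          ((1 : K) ⊗ₜ[ℂ] (algebraMap ℂ B (c ^ 3)) *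
            (f₀ * f₀ ^ 2 * J₀) ⊗ₜ[ℂ] (algebraMap ℂ B c⁻¹ * Q ^ 2 * 1)) := by ring
      _ = _ := by
        rw [h1, one_mul, Algebra.TensorProduct.tmul_mul_tmul, one_mul, h2]
        congr 1
        ring
  have hDκ : ∀ b, D b κ = 0 := by
    intro b
    rw [hκ, Derivation.leibniz, Derivation.map_algebraMap, smul_zero, zero_add,
      Derivation.leibniz_pow, map_neg, Derivation.map_one_eq_zero, neg_zero, smul_zero, smul_zero,
      smul_zero]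
  rw [Fin.sum_univ_two] at hr
  refine ⟨κ * r 0, κ * r 1, ?_⟩
  rw [← hleft, hr]
  have e0 : D 0 = dL δ := rfl
  have e1 : D 1 = dR δ' := rfl
  have g0 : dL δ (κ * r 0) = κ * dL δ (r 0) := by
    rw [Derivation.leibniz, ← e0, hDκ, smul_zero, add_zero, smul_eq_mul]
  have g1 : dR δ' (κ * r 1) = κ * dR δ' (r 1) := by
    rw [Derivation.leibniz, ← e1, hDκ, smul_zero, add_zero, smul_eq_mul]
  have k0 : algebraMap ℂ (K ⊗[ℂ] B) s * (((φ⁻¹ : (K ⊗[ℂ] B)ˣ) : K ⊗[ℂ] B) * dL δ φ) =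
      ((algebraMap ℂ K s * ((f₀ ^ (d + 1))⁻¹ * δ (f₀ ^ (d + 1)))) ⊗ₜ[ℂ] (1 : B)) := by
    rw [hφ1, hφ2, dL_tmul, Algebra.TensorProduct.tmul_mul_tmul, inv_mul_cancel₀ hP0, hκc',
      Algebra.TensorProduct.tmul_mul_tmul, one_mul]
  have hPT : P⁻¹ * δ' P = (T ^ d * (1 + T))⁻¹ * δ' (T ^ d * (1 + T)) := by
    have h1 : P = algebraMap ℂ B (c⁻¹ ^ d) * (T ^ d * (1 + T)) := by
      rw [hP, hQ, mul_pow, map_pow]; ring
    have h2 : algebraMap ℂ B (c⁻¹ ^ d) ≠ 0 := by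
      rw [Ne, map_eq_zero_iff _ (algebraMap ℂ B).injective]
      exact pow_ne_zero _ (inv_ne_zero hq1)
    have h3 : δ' P = algebraMap ℂ B (c⁻¹ ^ d) * δ' (T ^ d * (1 + T)) := by
      rw [h1, Derivation.leibniz, Derivation.map_algebraMap, smul_zero, add_zero, smul_eq_mul]
    rw [h3, h1, mul_inv, mul_mul_mul_comm, inv_mul_cancel₀ h2, one_mul]
  have k1 : algebraMap ℂ (K ⊗[ℂ] B) s * (((φ⁻¹ : (K ⊗[ℂ] B)ˣ) : K ⊗[ℂ] B) * dR δ' φ) =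
      (1 : K) ⊗ₜ[ℂ] (algebraMap ℂ B s * ((T ^ d * (1 + T))⁻¹ * δ' (T ^ d * (1 + T)))) := by
    rw [hφ1, hφ2, dR_tmul, Algebra.TensorProduct.tmul_mul_tmul, inv_mul_cancel₀ hf₀', hκc,
      Algebra.TensorProduct.tmul_mul_tmul, one_mul, hPT]
  rw [e0, e1, g0, g1, k0, k1]
  ring

end SI

end MPb07157

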