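import Pool.Agent.Lib.MP_b07157_agI.Main

/-!
# The strong monodromy conjecture for superisolated surface singularities: local and global forms
-/

noncomputable section

namespace MPb07157

open MvPolynomial

/-- All superisolated surface germs with the condition at `-3/d`. -/
theorem SmcLoc.of_si {f : MvPolynomial (Fin 3) ℂ} {d : ℕ} (hd : 0 < d) (hf : SI.IsSI f d)
    (hc : SI.Cond3 f d) : SmcLoc f :=
  fun _ _ hp _ hb => SI.smc_si hd hf (fun _ => hc) hp hb

/-- **Local version.** -/
theorem smc_superisolated {f : MvPolynomial (Fin 3) ℂ} {d : ℕ} (hd : 0 < d) (hf : SI.IsSI f d)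
    {s₀ : ℚ} (hc : s₀ = -(3 / (d : ℚ)) → SI.Cond3 f d) (hp : IsPole (Zmot0 f) s₀) :
    IsBernsteinSatoRoot f s₀ ∧ IsLocalBernsteinSatoRoot f s₀ :=
  roots_of_form fun _ hb => SI.smc_si hd hf hc hp hb

/-- A polynomial without zeros. -/
theorem regular_of_no_zero {n : ℕ} {f : MvPolynomial (Fin n) ℂ} (h : ∀ p, eval p f ≠ 0) {s₀ : ℚ} :
    ¬ IsPole (Zmot f) s₀ := by
  intro hp
  apply hp
  have h1 : Zmot f = PowerSeries.C (Zcoeff f 0) := by
    ext m
    unfold Zmot
    rw [PowerSeries.coeff_mk, PowerSeries.coeff_C]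
    split_ifs with hm
    · rw [hm]
    · have h2 : arcs f (m + 1) m = ∅ := by
        rw [Set.eq_empty_iff_forall_notMem]
        intro γ hγ
        have h3 : (aeval (arc γ) f : PowerSeries ℂ).order = (m : ℕ∞) := hγ
        have h4 : PowerSeries.constantCoeff (aeval (arc γ) f : PowerSeries ℂ) = 0 := by
          rw [← PowerSeries.coeff_zero_eq_constantCoeff_apply]
          refine PowerSeries.coeff_of_lt_order 0 ?_
          rw [h3]
          exact_mod_cast Nat.pos_of_ne_zero hm
        apply h fun i => PowerSeries.constantCoeff (arc γ i)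
        have h5 : (PowerSeries.constantCoeff (R := ℂ)).comp
            (aeval (arc γ) : MvPolynomial (Fin n) ℂ →ₐ[ℂ] PowerSeries ℂ).toRingHom =
              eval fun i => PowerSeries.constantCoeff (arc γ i) := by
          refine MvPolynomial.ringHom_ext ?_ ?_
          · intro r
            simp
          · intro i
            simp
        have h6 := congrArg (fun φ : MvPolynomial (Fin n) ℂ →+* ℂ => φ f) h5
        exact h6.symm.trans h4
      unfold Zcoeff
      rw [h2]
      unfold clsM
      rw [cls_empty, map_zero, mul_zero]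
  rw [h1]
  exact C_mem_regularAt s₀ _

/-- **Global version**, for surfaces with isolated singular points which are all superisolated. -/
theorem smc_superisolated_global {f : MvPolynomial (Fin 3) ℂ} (hf : f ≠ 0)
    (hfin : {p : Fin 3 → ℂ | eval p f = 0 ∧ ∀ j, eval p (pderiv j f) = 0}.Finite) {s₀ : ℚ}
    (h : ∀ p : Fin 3 → ℂ, eval p f = 0 → (∀ j, eval p (pderiv j f) = 0) →
      ∃ d : ℕ, 0 < d ∧ SI.IsSI (translate p f) d ∧
        (s₀ = -(3 / (d : ℚ)) → SI.Cond3 (translate p f) d))
    (hp : IsPole (Zmot f) s₀) : IsBernsteinSatoRoot f s₀ := by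
  by_cases h1 : s₀ = -1
  · subst h1
    by_cases hz : ∀ p, eval p f ≠ 0
    · exact absurd hp (regular_of_no_zero hz)
    · push Not at hz
      obtain ⟨p, hz⟩ := hz
      intro b hb
      refine neg_one_root (translate_ne_zero hf p) ?_ b (form_translate p hb)
      rw [notMem_support_iff]
      exact coeff_zero_translate hz
  obtain ⟨p, ⟨hp1, hp2⟩, hp3⟩ := exists_pole_of_isolated hf hfin h1 hp
  obtain ⟨d, hd, hSI, hc⟩ := h p hp1 hp2
  intro b hb
  exact SI.smc_si hd hSI hc hp3 (form_translate p hb)

end MPb07157
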