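import Pool.Agent.Lib.MP_b07157_agE.EG

/-!
# The pole side for semi-quasi-homogeneous germs: the measure of the arcs with given leading
coefficients
-/

noncomputable section

namespace MPb07157

open MvPolynomial

variable {n : ℕ}

namespace Sq

/-- Arcs of order at least `r` with leading coefficients in `A`. -/
def LA (N : ℕ) (r : Fin n → ℕ) (A : Set (Fin n → ℂ)) : Set (Fin n × Fin N → ℂ) :=
  {γ | Vn r γ ∧ lead0 r γ ∈ A}

theorem lead0_eq_of_lt {N : ℕ} {r : Fin n → ℕ} (hr : ∀ j, r j < N) (γ : Fin n × Fin N → ℂ) :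
    lead0 r γ = fun j => γ (j, ⟨r j, hr j⟩) := by
  funext j
  unfold lead0
  rw [dif_pos (hr j)]

theorem isConstr_LA {N : ℕ} {r : Fin n → ℕ} (hr : ∀ j, r j < N) {A : Set (Fin n → ℂ)}
    (hA : IsConstr A) : IsConstr (LA N r A) := by
  refine isConstr_setOf_and (isConstr_Vn N r) ?_
  simp only [lead0_eq_of_lt hr]
  exact hA.reindex fun j => ((j, ⟨r j, hr j⟩) : Fin n × Fin N)

theorem cls_LA {N : ℕ} {r : Fin n → ℕ} (hr : ∀ j, r j < N) {A : Set (Fin n → ℂ)}
    (hA : IsConstr A) {Q : ℕ} (hQ : n * N = n + ∑ j, r j + Q) :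
    cls (LA N r A) = cls A * L ^ Q := by
  classical
  rw [← cls_cell (fun j => ((j, ⟨r j, hr j⟩) : Fin n × Fin N))
    (fun i j h => congrArg Prod.fst h) A hA (Zpos N r) ?_ Q ?_]
  · congr 1
    ext γ
    simp only [LA, lead0_eq_of_lt hr, Set.mem_ofPred_eq, Vn, Zpos, Finset.mem_filter,
      Finset.mem_univ, true_and, Prod.forall]
    exact and_comm
  · intro j
    simp [Zpos]
  · rw [card_Zpos fun j => (hr j).le]
    simpa using hQ

/-- The arcs in `LA A` along which `f` vanishes to order `> M + k`. -/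
def BA (f : MvPolynomial (Fin n) ℂ) (N : ℕ) (r : Fin n → ℕ) (M : ℕ) (A : Set (Fin n → ℂ))
    (k : ℕ) : Set (Fin n × Fin N → ℂ) :=
  {γ | γ ∈ LA N r A ∧ ∀ i ∈ Finset.Icc 1 k, PowerSeries.coeff (M + i) (Fv f γ) = 0}

theorem isConstr_BA (f : MvPolynomial (Fin n) ℂ) {N : ℕ} {r : Fin n → ℕ} (hr : ∀ j, r j < N)
    (M : ℕ) {A : Set (Fin n → ℂ)} (hA : IsConstr A) (k : ℕ) : IsConstr (BA f N r M A k) :=
  isConstr_setOf_and (isConstr_LA hr hA) (isConstr_forall_mem _ _ fun _ _ => isConstr_coeff f _ _)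

variable {f : MvPolynomial (Fin n) ℂ} {N M : ℕ} {r : Fin n → ℕ}

theorem hensel_BA (h : IsMinWt f r M) (hr : ∀ j, r j < N) {A : Set (Fin n → ℂ)}
    (hA : IsConstr A) (j : Fin n)
    (hj : ∀ c ∈ A, eval c (pderiv j (inForm f (face f r M))) ≠ 0) {k : ℕ}
    (hk : r j + (k + 1) < N) :
    cls (BA f N r M A (k + 1)) * L = cls (BA f N r M A k) ∧
    cls {γ | γ ∈ BA f N r M A k ∧ PowerSeries.coeff (M + (k + 1)) (Fv f γ) ≠ 0} =
      cls (BA f N r M A (k + 1)) * (L - 1) := by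
  have hB : {x | x ∈ BA f N r M A k ∧ PowerSeries.coeff (M + (k + 1)) (Fv f x) = 0} =
      BA f N r M A (k + 1) := by
    ext γ
    simp only [BA, Set.mem_ofPred_eq, Finset.mem_Icc]
    constructor
    · rintro ⟨⟨h1, h2⟩, h3⟩
      refine ⟨h1, fun i hi => ?_⟩
      rcases Nat.lt_or_ge i (k + 1) with h4 | h4
      · exact h2 i ⟨hi.1, by omega⟩
      · rw [show i = k + 1 by omega]; exact h3
    · rintro ⟨h1, h2⟩
      exact ⟨⟨h1, fun i hi => h2 i ⟨hi.1, by omega⟩⟩, h2 (k + 1) ⟨by omega, le_rfl⟩⟩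
  have hup : ∀ γ ∈ BA f N r M A k, ∀ c : ℂ,
      Function.update γ (j, ⟨r j + (k + 1), hk⟩) (γ (j, ⟨r j + (k + 1), hk⟩) + c) ∈
        BA f N r M A k := by
    rintro γ ⟨⟨h1, h2⟩, h3⟩ c
    have h4 := coeff_Fv_update h h1 j (k + 1) (by omega) hk c
    refine ⟨⟨Vn_update h1 j (k + 1) hk _, ?_⟩, fun i hi => ?_⟩
    · rw [lead0_eq_of_lt hr] at h2 ⊢
      have : (fun i => Function.update γ (j, (⟨r j + (k + 1), hk⟩ : Fin N))
        (γ (j, ⟨r j + (k + 1), hk⟩) + c) (i, ⟨r i, hr i⟩)) = fun i => γ (i, ⟨r i, hr i⟩) := by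
        funext i
        rw [Function.update_of_ne]
        intro h5
        have h6 := congrArg Prod.fst h5
        have h7 := congrArg (fun p : Fin n × Fin N => (p.2 : ℕ)) h5
        simp only at h6 h7
        rw [h6] at h7
        omega
      rw [this]
      exact h2
    · rw [h4.1 (M + i) (by have := (Finset.mem_Icc.1 hi).2; omega)]
      exact h3 i hi
  have key := hensel_step (BA f N r M A k) (isConstr_BA f hr M hA k)
    (fun γ => PowerSeries.coeff (M + (k + 1)) (Fv f γ)) (exists_coeff_poly f (M + (k + 1)))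
    (j, ⟨r j + (k + 1), hk⟩) hup
    (fun γ => eval (lead0 r γ) (pderiv j (inForm f (face f r M))))
    (fun γ hγ => hj _ hγ.1.2)
    (fun γ hγ c => (coeff_Fv_update h hγ.1.1 j (k + 1) (by omega) hk c).2)
  rw [hB] at key
  exact key

theorem cls_BA (h : IsMinWt f r M) (hr : ∀ j, r j < N) {A : Set (Fin n → ℂ)}
    (hA : IsConstr A) (j : Fin n)
    (hj : ∀ c ∈ A, eval c (pderiv j (inForm f (face f r M))) ≠ 0) {Q : ℕ}
    (hQ : n * N = n + ∑ j, r j + Q) (k : ℕ) (hk : r j + k < N) :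
    cls (BA f N r M A k) * L ^ k = cls A * L ^ Q := by
  induction k with
  | zero =>
    rw [pow_zero, mul_one, ← cls_LA hr hA hQ]
    congr 1
    ext γ
    simp [BA]
  | succ k ih =>
    rw [pow_succ', ← mul_assoc, (hensel_BA h hr hA j hj hk).1, ih (by omega)]

/-- The zeros of the initial form in `U`. -/
def XU (f : MvPolynomial (Fin n) ℂ) (r : Fin n → ℕ) (M : ℕ) (U : Set (Fin n → ℂ)) :
    Set (Fin n → ℂ) := {c | c ∈ U ∧ eval c (inForm f (face f r M)) = 0}

/-- The complement. -/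
def YU (f : MvPolynomial (Fin n) ℂ) (r : Fin n → ℕ) (M : ℕ) (U : Set (Fin n → ℂ)) :
    Set (Fin n → ℂ) := {c | c ∈ U ∧ eval c (inForm f (face f r M)) ≠ 0}

/-- The part of `XU` where `∂_j` is the first partial derivative which is not zero. -/
def XJ (f : MvPolynomial (Fin n) ℂ) (r : Fin n → ℕ) (M : ℕ) (U : Set (Fin n → ℂ)) (j : Fin n) :
    Set (Fin n → ℂ) :=
  {c | c ∈ XU f r M U ∧ ((∀ i ∈ Finset.univ.filter (· < j),
    eval c (pderiv i (inForm f (face f r M))) = 0) ∧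
    eval c (pderiv j (inForm f (face f r M))) ≠ 0)}

theorem isConstr_XU (f : MvPolynomial (Fin n) ℂ) (r : Fin n → ℕ) (M : ℕ) {U : Set (Fin n → ℂ)}
    (hU : IsConstr U) : IsConstr (XU f r M U) :=
  isConstr_setOf_and hU (isConstr_eq_zero _)

theorem isConstr_YU (f : MvPolynomial (Fin n) ℂ) (r : Fin n → ℕ) (M : ℕ) {U : Set (Fin n → ℂ)}
    (hU : IsConstr U) : IsConstr (YU f r M U) :=
  isConstr_setOf_and hU (isConstr_ne_zero _)

theorem isConstr_XJ (f : MvPolynomial (Fin n) ℂ) (r : Fin n → ℕ) (M : ℕ) {U : Set (Fin n → ℂ)}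
    (hU : IsConstr U) (j : Fin n) : IsConstr (XJ f r M U j) :=
  isConstr_setOf_and (isConstr_XU f r M hU) (isConstr_setOf_and
    (isConstr_forall_mem _ _ fun _ _ => isConstr_eq_zero _) (isConstr_ne_zero _))

theorem disjoint_XJ (f : MvPolynomial (Fin n) ℂ) (r : Fin n → ℕ) (M : ℕ) (U : Set (Fin n → ℂ))
    {i j : Fin n} (hij : i ≠ j) : Disjoint (XJ f r M U i) (XJ f r M U j) := by
  rw [Set.disjoint_left]
  rintro u ⟨-, h1, h2⟩ ⟨-, h3, h4⟩
  rcases lt_or_gt_of_ne hij with h5 | h5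
  · exact h2 (h3 i (Finset.mem_filter.2 ⟨Finset.mem_univ i, h5⟩))
  · exact h4 (h1 j (Finset.mem_filter.2 ⟨Finset.mem_univ j, h5⟩))

theorem XU_eq {U : Set (Fin n → ℂ)}
    (hnd : ∀ c ∈ U, eval c (inForm f (face f r M)) = 0 →
      ∃ j, eval c (pderiv j (inForm f (face f r M))) ≠ 0) :
    XU f r M U = ⋃ j ∈ (Finset.univ : Finset (Fin n)), XJ f r M U j := by
  classical
  ext u
  simp only [Set.mem_iUnion, Finset.mem_univ, exists_prop, true_and]
  constructor
  · intro hu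
    obtain ⟨j, hj⟩ := hnd u hu.1 hu.2
    have hne : (Finset.univ.filter fun j =>
      eval u (pderiv j (inForm f (face f r M))) ≠ 0).Nonempty := ⟨j, by simpa using hj⟩
    refine ⟨Finset.min' _ hne, hu, fun i hi => ?_, ?_⟩
    · by_contra hcon
      have hmem : i ∈ Finset.univ.filter fun j =>
          eval u (pderiv j (inForm f (face f r M))) ≠ 0 :=
        Finset.mem_filter.2 ⟨Finset.mem_univ i, hcon⟩
      have h1 := Finset.min'_le _ i hmem
      rw [Finset.mem_filter] at hi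
      exact absurd hi.2 (not_lt.2 h1)
    · exact (Finset.mem_filter.1 (Finset.min'_mem _ hne)).2
  · rintro ⟨j, hu⟩
    exact hu.1

/-- The arcs of minimal order. -/
theorem arcs_zero (h : IsMinWt f r M) (U : Set (Fin n → ℂ)) :
    arcs f N M ∩ LA N r U = LA N r (YU f r M U) := by
  ext γ
  rw [Set.mem_inter_iff, mem_arcs_iff]
  simp only [LA, YU, Set.mem_ofPred_eq]
  constructor
  · rintro ⟨⟨h1, h2⟩, h3, h4⟩
    exact ⟨h3, h4, by rwa [← coeff_Fv_eq h h3]⟩
  · rintro ⟨h3, h4, h5⟩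
    rw [← coeff_Fv_eq h h3] at h5
    exact ⟨⟨h5, fun i hi => coeff_Fv_of_lt h h3 hi⟩, h3, h4⟩

attribute [local irreducible] K0.instCommRing

/-- The arcs of larger order. -/
theorem cls_arcs_pos (h : IsMinWt f r M) (hr : ∀ j, r j < N) {U : Set (Fin n → ℂ)}
    (hU : IsConstr U)
    (hnd : ∀ c ∈ U, eval c (inForm f (face f r M)) = 0 →
      ∃ j, eval c (pderiv j (inForm f (face f r M))) ≠ 0)
    {Q : ℕ} (hQ : n * N = n + ∑ j, r j + Q) (k : ℕ) (hk : M + (k + 1) < N) :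
    cls (arcs f N (M + (k + 1)) ∩ LA N r U) * L ^ (k + 1) =
      cls (XU f r M U) * L ^ Q * (L - 1) := by
  classical
  let W : Fin n → Set (Fin n × Fin N → ℂ) := fun j => {γ | γ ∈ BA f N r M (XJ f r M U j) k ∧
      PowerSeries.coeff (M + (k + 1)) (Fv f γ) ≠ 0}
  have hW : arcs f N (M + (k + 1)) ∩ LA N r U =
      ⋃ j ∈ (Finset.univ : Finset (Fin n)), W j := by
    ext γ
    rw [Set.mem_inter_iff, mem_arcs_iff]
    simp only [Set.mem_iUnion, Finset.mem_univ, exists_prop, true_and, W, Set.mem_ofPred_eq, BA,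
      Finset.mem_Icc]
    constructor
    · rintro ⟨⟨h1, h2⟩, h3, h4⟩
      have h5 : lead0 r γ ∈ XU f r M U := by
        refine ⟨h4, ?_⟩
        rw [← coeff_Fv_eq h h3]
        exact h2 M (by omega)
      rw [XU_eq hnd] at h5
      simp only [Set.mem_iUnion, Finset.mem_univ, exists_prop, true_and] at h5
      obtain ⟨j, h5⟩ := h5
      exact ⟨j, ⟨⟨h3, h5⟩, fun i hi => h2 _ (by omega)⟩, h1⟩
    · rintro ⟨j, ⟨⟨h1, h2⟩, h3⟩, h4⟩
      refine ⟨⟨h4, fun i hi => ?_⟩, h1, h2.1.1⟩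
      rcases lt_trichotomy i M with h5 | h5 | h5
      · exact coeff_Fv_of_lt h h1 h5
      · rw [h5, coeff_Fv_eq h h1]
        exact h2.1.2
      · obtain ⟨l, rfl⟩ := Nat.exists_eq_add_of_lt h5
        rw [add_assoc]
        exact h3 (l + 1) ⟨by omega, by omega⟩
  have hWc : ∀ j ∈ (Finset.univ : Finset (Fin n)), IsConstr (W j) := fun j _ =>
    isConstr_setOf_and (isConstr_BA f hr M (isConstr_XJ f r M hU j) k) (isConstr_setOf_not
      (isConstr_coeff f N _))
  have hWd : ∀ i ∈ (Finset.univ : Finset (Fin n)), ∀ j ∈ (Finset.univ : Finset (Fin n)), i ≠ j →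
      Disjoint (W i) (W j) := by
    intro i hi j hj hij
    rw [Set.disjoint_left]
    rintro γ ⟨⟨⟨-, h1⟩, -⟩, -⟩ ⟨⟨⟨-, h2⟩, -⟩, -⟩
    exact Set.disjoint_left.1 (disjoint_XJ f r M U hij) h1 h2
  rw [hW, cls_biUnion _ _ hWc hWd, XU_eq hnd,
    cls_biUnion _ _ (fun j _ => isConstr_XJ f r M hU j) (fun i _ j _ hij =>
      disjoint_XJ f r M U hij), Finset.sum_mul, Finset.sum_mul, Finset.sum_mul]
  refine Finset.sum_congr rfl fun j _ => ?_
  by_cases hj : r j + (k + 1) < N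
  · have h1 := (hensel_BA (k := k) h hr (isConstr_XJ f r M hU j) j (fun c hc => hc.2.2) hj).2
    have h2 := cls_BA h hr (isConstr_XJ f r M hU j) j (fun c hc => hc.2.2) hQ (k + 1) hj
    simp only [W]
    rw [h1, ← h2]
    ring
  · have hX : XJ f r M U j = ∅ := by
      rw [Set.eq_empty_iff_forall_notMem]
      rintro u ⟨-, -, h2⟩
      obtain ⟨v, hv, hne⟩ := exists_of_pderiv_ne f _ j _ h2
      have h1 := wt_le_of_ne (a := r) hne
      rw [face, Finset.mem_filter] at hv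
      rw [hv.2] at h1
      omega
    have hW0 : W j = ∅ := by
      rw [Set.eq_empty_iff_forall_notMem]
      rintro γ ⟨⟨⟨-, h1⟩, -⟩, -⟩
      rw [hX] at h1
      exact h1
    rw [hX, hW0, cls_empty, cls_empty]
    ring

/-- The measure of the arcs in `LA U` with `ord f = m`. -/
def aP (f : MvPolynomial (Fin n) ℂ) (r : Fin n → ℕ) (M : ℕ) (U : Set (Fin n → ℂ)) (m : ℕ) : Mot :=
  ↑((LU ^ (n + ∑ j, r j))⁻¹) *
    if m < M then 0 else if m = M then clsM (YU f r M U)
      else clsM (XU f r M U) * ((LU : Mot) - 1) * (↑(LU⁻¹) : Mot) ^ (m - M)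

theorem measure_LA (h : IsMinWt f r M) (hr : ∀ j, r j < N) {U : Set (Fin n → ℂ)}
    (hU : IsConstr U)
    (hnd : ∀ c ∈ U, eval c (inForm f (face f r M)) = 0 →
      ∃ j, eval c (pderiv j (inForm f (face f r M))) ≠ 0) {m : ℕ} (hm : m < N) :
    ↑((LU ^ (n * N))⁻¹) * clsM (arcs f N m ∩ LA N r U) = aP f r M U m := by
  have hle : n + ∑ j, r j ≤ n * N := by
    have h1 : ∑ j : Fin n, (1 + r j) ≤ ∑ _j : Fin n, N := Finset.sum_le_sum fun j _ => by
      have := hr j
      omega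
    rw [Finset.sum_add_distrib] at h1
    simpa using h1
  obtain ⟨Q, hQ⟩ := Nat.exists_eq_add_of_le hle
  have hLQ : (↑((LU ^ (n * N))⁻¹) : Mot) * (LU : Mot) ^ Q = ↑((LU ^ (n + ∑ j, r j))⁻¹) := by
    rw [← Units.val_pow_eq_pow_val, ← Units.val_mul]
    congr 1
    rw [hQ, pow_add, mul_inv, mul_assoc, inv_mul_cancel, mul_one]
  unfold aP
  rcases lt_trichotomy m M with h1 | h1 | h1
  · rw [if_pos h1, mul_zero]
    have : arcs f N m ∩ LA N r U = ∅ := by
      rw [Set.eq_empty_iff_forall_notMem]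
      rintro γ ⟨h2, h3, -⟩
      rw [mem_arcs_iff] at h2
      exact h2.1 (coeff_Fv_of_lt h h3 h1)
    rw [this]
    unfold clsM
    rw [cls_empty, map_zero, mul_zero]
  · subst h1
    rw [if_neg (lt_irrefl _), if_pos rfl, arcs_zero h, ← hLQ]
    unfold clsM
    rw [cls_LA hr (isConstr_YU f r m hU) hQ, map_mul, map_pow, ← LU_val]
    ring
  · rw [if_neg (by omega), if_neg (by omega), ← hLQ]
    obtain ⟨k, rfl⟩ : ∃ k, m = M + (k + 1) := ⟨m - M - 1, by omega⟩
    have h2 := congrArg (algebraMap K0 Mot) (cls_arcs_pos h hr hU hnd hQ k hm)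
    rw [map_mul, map_mul, map_mul, map_pow, map_pow, map_sub, map_one, ← LU_val] at h2
    have h3 : clsM (arcs f N (M + (k + 1)) ∩ LA N r U) =
        clsM (XU f r M U) * (LU : Mot) ^ Q * ((LU : Mot) - 1) * (↑(LU⁻¹) : Mot) ^ (k + 1) := by
      unfold clsM
      rw [← h2, mul_assoc, ← mul_pow, Units.mul_inv, one_pow, mul_one]
    rw [h3, Nat.add_sub_cancel_left]
    ring

theorem mk_aP_mem {s₀ : ℚ} (hs : s₀ ≠ -1) (f : MvPolynomial (Fin n) ℂ) (r : Fin n → ℕ) (M : ℕ)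
    (U : Set (Fin n → ℂ)) : PowerSeries.mk (aP f r M U) ∈ regularAt s₀ := by
  have e : PowerSeries.mk (aP f r M U) =
      PowerSeries.C (↑((LU ^ (n + ∑ j, r j))⁻¹) : Mot) * PowerSeries.X ^ M *
        (PowerSeries.C (clsM (YU f r M U)) +
          PowerSeries.C (clsM (XU f r M U) * ((LU : Mot) - 1)) * (geoS - 1)) := by
    ext m
    rw [PowerSeries.coeff_mk, mul_assoc, PowerSeries.coeff_C_mul, PowerSeries.coeff_X_pow_mul']
    unfold aP
    congr 1
    rcases lt_trichotomy m M with h1 | h1 | h1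
    · rw [if_pos h1, if_neg (by omega)]
    · rw [if_neg (by omega), if_pos h1, if_pos (by omega), h1, Nat.sub_self]
      simp [geoS]
    · rw [if_neg (by omega), if_neg (by omega), if_pos (by omega)]
      obtain ⟨k, rfl⟩ : ∃ k, m = M + (k + 1) := ⟨m - M - 1, by omega⟩
      rw [Nat.add_sub_cancel_left, map_add, PowerSeries.coeff_C, if_neg (by omega), zero_add,
        PowerSeries.coeff_C_mul, map_sub, PowerSeries.coeff_one, if_neg (by omega), sub_zero]
      unfold geoS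
      rw [PowerSeries.coeff_mk]
  rw [e]
  refine mul_mem (mul_mem (C_mem_regularAt s₀ _) (pow_mem (X_mem_regularAt s₀) _))
    (add_mem (C_mem_regularAt s₀ _) (mul_mem (C_mem_regularAt s₀ _)
      (sub_mem (geoS_mem hs) (one_mem _))))

end Sq

end MPb07157
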