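import Pool.Agent.Lib.MP_b07157_agI.SqP1

/-!
# The pole side for semi-quasi-homogeneous germs: initial forms
-/

noncomputable section

namespace MPb07157

open MvPolynomial

variable {n : ℕ}

namespace Sq

/-- `r_j = ⌈w_j p / W⌉`, `M = ⌈p N / W⌉`. -/
structure Num (w : Fin n → ℕ) (N W p : ℕ) (r d : Fin n → ℕ) (M K : ℕ) : Prop where
  hp : 0 < p
  hr : ∀ j, W * r j = w j * p + d j
  hd : ∀ j, d j < W
  hM : W * M = p * N + K
  hK : K < W

variable {w : Fin n → ℕ} {N W p : ℕ} {r d : Fin n → ℕ} {M K : ℕ}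

theorem Num.wt (h : Num w N W p r d M K) (v : Fin n →₀ ℕ) :
    W * wt r v = p * wt w v + MPb07157.wt d v := by
  unfold MPb07157.wt
  rw [Finset.mul_sum, Finset.mul_sum, ← Finset.sum_add_distrib]
  refine Finset.sum_congr rfl fun j _ => ?_
  rw [← mul_assoc, h.hr]
  ring

theorem Num.le (h : Num w N W p r d M K) {v : Fin n →₀ ℕ} (hv : N ≤ MPb07157.wt w v) :
    M ≤ MPb07157.wt r v := by
  have h1 := h.wt v
  have h2 := h.hM
  have h3 := h.hK
  by_contra hlt
  push Not at hlt
  have h4 : p * N ≤ p * MPb07157.wt w v := Nat.mul_le_mul_left _ hv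
  have h5 : W * (MPb07157.wt r v + 1) ≤ W * M := Nat.mul_le_mul_left _ hlt
  rw [Nat.mul_add, mul_one] at h5
  omega

/-- Projection to the coordinates with `d_j = 0`. -/
def pr (d : Fin n → ℕ) (c : Fin n → ℂ) : Fin n → ℂ := fun j => if d j = 0 then c j else 0

/-- The points with a nonzero coordinate `c_i`, `d_i = 0`. -/
def Ud (d : Fin n → ℕ) : Set (Fin n → ℂ) := {c | ∃ i, d i = 0 ∧ c i ≠ 0}

theorem pr_ne_zero {c : Fin n → ℂ} (hc : c ∈ Ud d) : pr d c ≠ 0 := by
  obtain ⟨i, hi, hc⟩ := hc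
  intro h
  have := congrFun h i
  simp only [pr, if_pos hi] at this
  exact hc this

theorem isConstr_Ud (d : Fin n → ℕ) : IsConstr (Ud d) := by
  have h := isConstr_exists_mem (σ := Fin n) (Finset.univ.filter fun i => d i = 0)
    (fun i c => c i ≠ 0) (fun i _ => by
      have := isConstr_ne_zero (X i : MvPolynomial (Fin n) ℂ)
      simpa using this)
  have h2 : Ud d = {c | ∃ i ∈ Finset.univ.filter fun i => d i = 0, c i ≠ 0} := by
    ext c
    simp [Ud]
  rw [h2]
  exact h

/-- `v` is a good exponent for `j`. -/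
def Gd (d : Fin n → ℕ) (j : Fin n) (v : Fin n →₀ ℕ) : Prop :=
  v j ≠ 0 ∧ ∀ l, (v - Finsupp.single j 1 : Fin n →₀ ℕ) l ≠ 0 → d l = 0

theorem wt_split (d : Fin n → ℕ) (v : Fin n →₀ ℕ) (j : Fin n) :
    MPb07157.wt d v = d j * v j + ∑ l ∈ Finset.univ.erase j, d l * v l := by
  unfold MPb07157.wt
  rw [Finset.add_sum_erase Finset.univ (fun l => d l * v l) (Finset.mem_univ j)]

theorem Gd.wt {j : Fin n} {v : Fin n →₀ ℕ} (h : Gd d j v) : MPb07157.wt d v = d j := by
  classical
  rw [wt_split d v j, Finset.sum_eq_zero, add_zero]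
  · by_cases h1 : v j = 1
    · rw [h1, mul_one]
    · have h2 : d j = 0 := by
        apply h.2 j
        rw [Finsupp.tsub_apply, Finsupp.single_eq_same]
        have := h.1
        omega
      rw [h2, zero_mul]
  · intro l hl
    by_cases h1 : v l = 0
    · rw [h1, mul_zero]
    · have h2 : d l = 0 := by
        apply h.2 l
        rw [Finsupp.tsub_apply, Finsupp.single_eq_of_ne (Finset.ne_of_mem_erase hl), Nat.sub_zero]
        exact h1
      rw [h2, zero_mul]

theorem gd_of_wt {j : Fin n} {v : Fin n →₀ ℕ} (hj : v j ≠ 0) (h : MPb07157.wt d v ≤ d j) :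
    Gd d j v := by
  classical
  refine ⟨hj, fun l hl => ?_⟩
  rw [wt_split d v j] at h
  have hj1 : 1 ≤ v j := Nat.one_le_iff_ne_zero.2 hj
  have h1 : d j ≤ d j * v j := Nat.le_mul_of_pos_right _ hj1
  by_cases hlj : l = j
  · subst hlj
    rw [Finsupp.tsub_apply, Finsupp.single_eq_same] at hl
    have h2 : 2 ≤ v l := by omega
    have h3 : d l * 2 ≤ d l * v l := Nat.mul_le_mul_left _ h2
    omega
  · rw [Finsupp.tsub_apply, Finsupp.single_eq_of_ne hlj, Nat.sub_zero] at hl
    have h2 : d l * v l ≤ ∑ l ∈ Finset.univ.erase j, d l * v l :=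
      Finset.single_le_sum (f := fun l => d l * v l) (fun _ _ => Nat.zero_le _)
        (Finset.mem_erase.2 ⟨hlj, Finset.mem_univ l⟩)
    have h3 : d l ≤ d l * v l := Nat.le_mul_of_pos_right _ (Nat.pos_of_ne_zero hl)
    omega

/-- The value of the derivative of a monomial. -/
def tv (j : Fin n) (c : Fin n → ℂ) (a : ℂ) (v : Fin n →₀ ℕ) : ℂ :=
  eval c (pderiv j (monomial v a))

theorem tv_eq (j : Fin n) (c : Fin n → ℂ) (a : ℂ) (v : Fin n →₀ ℕ) :
    tv j c a v = a * v j * (v - Finsupp.single j 1).prod fun l e => c l ^ e := by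
  unfold tv
  rw [pderiv_monomial, eval_monomial]

theorem tv_zero {j : Fin n} {v : Fin n →₀ ℕ} (hj : v j = 0) (c : Fin n → ℂ) (a : ℂ) :
    tv j c a v = 0 := by
  rw [tv_eq, hj]
  simp

theorem tv_gd {j : Fin n} {v : Fin n →₀ ℕ} (h : Gd d j v) (c : Fin n → ℂ) (a : ℂ) :
    tv j (pr d c) a v = tv j c a v := by
  rw [tv_eq, tv_eq]
  congr 1
  refine Finset.prod_congr rfl fun l hl => ?_
  have := h.2 l (Finsupp.mem_support_iff.1 hl)
  simp only [pr, if_pos this]

theorem tv_not_gd {j : Fin n} {v : Fin n →₀ ℕ} (h : ¬ Gd d j v) (c : Fin n → ℂ) (a : ℂ) :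
    tv j (pr d c) a v = 0 := by
  by_cases hj : v j = 0
  · exact tv_zero hj _ _
  · have h1 : ∃ l, (v - Finsupp.single j 1 : Fin n →₀ ℕ) l ≠ 0 ∧ d l ≠ 0 := by
      by_contra hcon
      push Not at hcon
      exact h ⟨hj, hcon⟩
    obtain ⟨l, hl, hd⟩ := h1
    rw [tv_eq]
    have h2 : ((v - Finsupp.single j 1).prod fun l e => pr d c l ^ e) = 0 := by
      refine Finset.prod_eq_zero (Finsupp.mem_support_iff.2 hl) ?_
      simp only [pr, if_neg hd]
      exact zero_pow hl
    rw [h2, mul_zero]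

variable {f : MvPolynomial (Fin n) ℂ}

theorem eval_pderiv_inForm (f : MvPolynomial (Fin n) ℂ) (I : Finset (Fin n →₀ ℕ)) (j : Fin n)
    (c : Fin n → ℂ) :
    eval c (pderiv j (inForm f I)) = ∑ v ∈ I, tv j c (coeff v f) v := by
  unfold inForm tv
  rw [map_sum, map_sum]

/-- A direction in which the initial form is smooth. -/
theorem Num.dir (h : Num w N W p r d M K) {c : Fin n → ℂ} {j : Fin n}
    (hj : eval (pr d c) (pderiv j (inForm f (face f w N))) ≠ 0) : d j = K := by
  rw [eval_pderiv_inForm] at hj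
  obtain ⟨v, hv, hne⟩ := Finset.exists_ne_zero_of_sum_ne_zero hj
  have hg : Gd d j v := by
    by_contra hcon
    exact hne (tv_not_gd hcon c _)
  have h1 := h.wt v
  rw [hg.wt, (Finset.mem_filter.1 hv).2] at h1
  have h2 := h.hM
  have h3 := h.hK
  have h4 := h.hd j
  rcases lt_trichotomy (MPb07157.wt r v) M with h5 | h5 | h5
  · have h6 : W * (MPb07157.wt r v + 1) ≤ W * M := Nat.mul_le_mul_left _ h5
    rw [Nat.mul_add, mul_one] at h6
    omega
  · rw [h5] at h1
    omega
  · have h6 : W * (M + 1) ≤ W * MPb07157.wt r v := Nat.mul_le_mul_left _ h5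
    rw [Nat.mul_add, mul_one] at h6
    omega

theorem Num.gd (h : Num w N W p r d M K) (hge : ∀ v ∈ f.support, N ≤ MPb07157.wt w v)
    {j : Fin n} (hj : d j = K) {v : Fin n →₀ ℕ} (hv : v ∈ face f r M) (hvj : v j ≠ 0) :
    MPb07157.wt w v = N ∧ Gd d j v := by
  obtain ⟨hv1, hv2⟩ := Finset.mem_filter.1 hv
  have h1 := h.wt v
  have h2 := h.hM
  have h3 := hge v hv1
  rw [hv2] at h1
  have h4 : d j ≤ MPb07157.wt d v := wt_le_of_ne hvj |>.trans le_rfl
  have h5 : p * N ≤ p * MPb07157.wt w v := Nat.mul_le_mul_left _ h3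
  have h6 : p * MPb07157.wt w v = p * N := by omega
  refine ⟨Nat.eq_of_mul_eq_mul_left h.hp h6, gd_of_wt hvj (by omega)⟩

theorem Num.eval_eq (h : Num w N W p r d M K) (hge : ∀ v ∈ f.support, N ≤ MPb07157.wt w v)
    {c : Fin n → ℂ} {j : Fin n}
    (hj : eval (pr d c) (pderiv j (inForm f (face f w N))) ≠ 0) :
    eval c (pderiv j (inForm f (face f r M))) =
      eval (pr d c) (pderiv j (inForm f (face f w N))) := by
  classical
  have hdj := h.dir hj
  rw [eval_pderiv_inForm, eval_pderiv_inForm]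
  unfold face
  rw [Finset.sum_filter, Finset.sum_filter]
  refine Finset.sum_congr rfl fun v hv => ?_
  by_cases hg : Gd d j v
  · have h1 := h.wt v
    rw [hg.wt, hdj] at h1
    have h2 := h.hM
    have h3 : MPb07157.wt r v = M ↔ MPb07157.wt w v = N := by
      constructor
      · intro h4
        exact (h.gd hge hdj (Finset.mem_filter.2 ⟨hv, h4⟩) hg.1).1
      · intro h4
        rw [h4] at h1
        have h5 : W * MPb07157.wt r v = W * M := by omega
        exact Nat.eq_of_mul_eq_mul_left (by have := h.hK; omega) h5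
    rw [tv_gd hg]
    by_cases h4 : MPb07157.wt w v = N
    · rw [if_pos h4, if_pos (h3.2 h4)]
    · rw [if_neg h4, if_neg fun h5 => h4 (h3.1 h5)]
  · rw [tv_not_gd hg, ite_self]
    split_ifs with h4
    · apply tv_zero
      by_contra hvj
      exact hg (h.gd hge hdj (Finset.mem_filter.2 ⟨hv, h4⟩) hvj).2
    · rfl

/-- The hypotheses. -/
structure Sqh (f : MvPolynomial (Fin n) ℂ) (w : Fin n → ℕ) (N : ℕ) : Prop where
  ge : ∀ v ∈ f.support, N ≤ MPb07157.wt w v
  iso : ∀ c : Fin n → ℂ, c ≠ 0 → ∃ j, eval c (pderiv j (inForm f (face f w N))) ≠ 0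

theorem Num.nd (h : Num w N W p r d M K) (H : Sqh f w N) {c : Fin n → ℂ} (hc : c ∈ Ud d) :
    ∃ j, eval c (pderiv j (inForm f (face f r M))) ≠ 0 := by
  obtain ⟨j, hj⟩ := H.iso _ (pr_ne_zero hc)
  exact ⟨j, by rwa [h.eval_eq H.ge hj]⟩

theorem Num.isMinWt (h : Num w N W p r d M K) (H : Sqh f w N) {i : Fin n} (hi : d i = 0) :
    IsMinWt f r M := by
  classical
  refine ⟨fun v hv => h.le (H.ge v hv), ?_⟩
  have hc : (Pi.single i 1 : Fin n → ℂ) ∈ Ud d := ⟨i, hi, by simp⟩
  obtain ⟨j, hj⟩ := h.nd H hc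
  obtain ⟨v, hv, -⟩ := exists_of_pderiv_ne f _ j _ hj
  exact ⟨v, (Finset.mem_filter.1 hv).1, (Finset.mem_filter.1 hv).2⟩

/-! ### The class of the zeros of the initial form -/

theorem Num.XU_eq_of_zero (h : Num w N W p r d M 0) (H : Sqh f w N) (U : Set (Fin n → ℂ)) :
    XU f r M U = {c | c ∈ U ∧ eval c (inForm f
      (f.support.filter fun v => MPb07157.wt w v = N ∧ MPb07157.wt d v = 0)) = 0} := by
  have h1 : face f r M = f.support.filter fun v => MPb07157.wt w v = N ∧ MPb07157.wt d v = 0 := by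
    ext v
    unfold face
    rw [Finset.mem_filter, Finset.mem_filter]
    refine and_congr_right fun hv => ?_
    have h2 := h.wt v
    have h3 := h.hM
    have h4 : p * N ≤ p * MPb07157.wt w v := Nat.mul_le_mul_left _ (H.ge v hv)
    constructor
    · intro h5
      rw [h5] at h2
      exact ⟨Nat.eq_of_mul_eq_mul_left h.hp (by omega : p * MPb07157.wt w v = p * N), by omega⟩
    · rintro ⟨h5, h6⟩
      rw [h5, h6] at h2
      exact Nat.eq_of_mul_eq_mul_left (by have := h.hK; omega) (by omega : W * MPb07157.wt r v = W * M)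
  unfold XU
  rw [h1]

theorem eval_update_monomial (c : Fin n → ℂ) (j : Fin n) (t : ℂ) (a : ℂ) {v : Fin n →₀ ℕ}
    (hv : v j ≤ 1) : eval (Function.update c j (c j + t)) (monomial v a) =
      eval c (monomial v a) + t * tv j c a v := by
  classical
  rw [eval_monomial, eval_monomial, tv_eq, Finsupp.prod_fintype _ _ fun _ => pow_zero _,
    Finsupp.prod_fintype _ _ fun _ => pow_zero _, Finsupp.prod_fintype _ _ fun _ => pow_zero _,
    ← Finset.mul_prod_erase _ _ (Finset.mem_univ j), ← Finset.mul_prod_erase _ _ (Finset.mem_univ j),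
    ← Finset.mul_prod_erase _ _ (Finset.mem_univ j)]
  have h1 : ∏ x ∈ Finset.univ.erase j, Function.update c j (c j + t) x ^ v x =
      ∏ x ∈ Finset.univ.erase j, c x ^ v x :=
    Finset.prod_congr rfl fun x hx => by rw [Function.update_of_ne (Finset.ne_of_mem_erase hx)]
  have h2 : ∏ x ∈ Finset.univ.erase j, c x ^ (v - Finsupp.single j 1 : Fin n →₀ ℕ) x =
      ∏ x ∈ Finset.univ.erase j, c x ^ v x :=
    Finset.prod_congr rfl fun x hx => by
      rw [Finsupp.tsub_apply, Finsupp.single_eq_of_ne (Finset.ne_of_mem_erase hx), Nat.sub_zero]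
  rw [h1, h2, Function.update_self, Finsupp.tsub_apply, Finsupp.single_eq_same]
  rcases Nat.le_one_iff_eq_zero_or_eq_one.1 hv with h3 | h3
  · rw [h3]
    simp
  · rw [h3]
    simp
    ring

/-- The part of `U` where `∂_j` is the first partial derivative of the initial form which is not
zero. -/
def UJ (f : MvPolynomial (Fin n) ℂ) (w : Fin n → ℕ) (N : ℕ) (d : Fin n → ℕ) (j : Fin n) :
    Set (Fin n → ℂ) :=
  {c | c ∈ Ud d ∧ ((∀ i ∈ Finset.univ.filter (· < j),
    eval (pr d c) (pderiv i (inForm f (face f w N))) = 0) ∧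
    eval (pr d c) (pderiv j (inForm f (face f w N))) ≠ 0)}

theorem isConstr_pr (d : Fin n → ℕ) (P : MvPolynomial (Fin n) ℂ) :
    IsConstr {c : Fin n → ℂ | eval (pr d c) P = 0} := by
  let φ : Fin n → MvPolynomial (Fin n) ℂ := fun j => if d j = 0 then X j else 0
  have h : ∀ c : Fin n → ℂ, polyMap φ c = pr d c := by
    intro c
    funext j
    simp only [polyMap, φ, pr]
    split_ifs <;> simp
  have h2 := (isConstr_eq_zero P).preimage φ
  have h3 : polyMap φ ⁻¹' {x | eval x P = 0} = {c : Fin n → ℂ | eval (pr d c) P = 0} := by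
    ext u
    simp only [Set.mem_preimage, Set.mem_ofPred_eq, h]
  rwa [h3] at h2

theorem isConstr_UJ (f : MvPolynomial (Fin n) ℂ) (w : Fin n → ℕ) (N : ℕ) (d : Fin n → ℕ)
    (j : Fin n) : IsConstr (UJ f w N d j) :=
  isConstr_setOf_and (isConstr_Ud d) (isConstr_setOf_and
    (isConstr_forall_mem _ _ fun _ _ => isConstr_pr d _) (isConstr_setOf_not (isConstr_pr d _)))

theorem disjoint_UJ (f : MvPolynomial (Fin n) ℂ) (w : Fin n → ℕ) (N : ℕ) (d : Fin n → ℕ)
    {i j : Fin n} (hij : i ≠ j) : Disjoint (UJ f w N d i) (UJ f w N d j) := by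
  rw [Set.disjoint_left]
  rintro u ⟨-, h1, h2⟩ ⟨-, h3, h4⟩
  rcases lt_or_gt_of_ne hij with h5 | h5
  · exact h2 (h3 i (Finset.mem_filter.2 ⟨Finset.mem_univ i, h5⟩))
  · exact h4 (h1 j (Finset.mem_filter.2 ⟨Finset.mem_univ j, h5⟩))

theorem Ud_eq (H : Sqh f w N) (d : Fin n → ℕ) :
    Ud d = ⋃ j ∈ (Finset.univ : Finset (Fin n)), UJ f w N d j := by
  classical
  ext u
  simp only [Set.mem_iUnion, Finset.mem_univ, exists_prop, true_and]
  constructor
  · intro hu
    obtain ⟨j, hj⟩ := H.iso _ (pr_ne_zero hu)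
    have hne : (Finset.univ.filter fun j =>
      eval (pr d u) (pderiv j (inForm f (face f w N))) ≠ 0).Nonempty := ⟨j, by simpa using hj⟩
    refine ⟨Finset.min' _ hne, hu, fun i hi => ?_, ?_⟩
    · by_contra hcon
      have hmem : i ∈ Finset.univ.filter fun j =>
          eval (pr d u) (pderiv j (inForm f (face f w N))) ≠ 0 :=
        Finset.mem_filter.2 ⟨Finset.mem_univ i, hcon⟩
      have h1 := Finset.min'_le _ i hmem
      rw [Finset.mem_filter] at hi
      exact absurd hi.2 (not_lt.2 h1)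
    · exact (Finset.mem_filter.1 (Finset.min'_mem _ hne)).2
  · rintro ⟨j, hu⟩
    exact hu.1

attribute [local irreducible] K0.instCommRing

theorem Num.cls_XU (h : Num w N W p r d M K) (H : Sqh f w N) (hK : K ≠ 0) :
    cls (XU f r M (Ud d)) * L = cls (Ud d) := by
  classical
  have h1 : XU f r M (Ud d) = ⋃ j ∈ (Finset.univ : Finset (Fin n)),
      {c | c ∈ UJ f w N d j ∧ eval c (inForm f (face f r M)) = 0} := by
    ext c
    unfold XU
    rw [Ud_eq H d]
    simp only [Set.mem_ofPred_eq, Set.mem_iUnion, Finset.mem_univ, exists_prop, true_and]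
    constructor
    · rintro ⟨⟨j, hj⟩, h0⟩
      exact ⟨j, hj, h0⟩
    · rintro ⟨j, hj, h0⟩
      exact ⟨⟨j, hj⟩, h0⟩
  have h2 : cls (⋃ j ∈ (Finset.univ : Finset (Fin n)),
      {c | c ∈ UJ f w N d j ∧ eval c (inForm f (face f r M)) = 0}) =
      ∑ j, cls {c | c ∈ UJ f w N d j ∧ eval c (inForm f (face f r M)) = 0} :=
    cls_biUnion _ _ (fun j _ => isConstr_setOf_and (isConstr_UJ f w N d j) (isConstr_eq_zero _))
      (fun i _ j _ hij => (disjoint_UJ f w N d hij).mono (fun _ hx => hx.1) (fun _ hx => hx.1))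
  have h3 : cls (⋃ j ∈ (Finset.univ : Finset (Fin n)), UJ f w N d j) =
      ∑ j, cls (UJ f w N d j) :=
    cls_biUnion _ _ (fun j _ => isConstr_UJ f w N d j) (fun i _ j _ hij => disjoint_UJ f w N d hij)
  rw [h1, h2, Ud_eq H d, h3, Finset.sum_mul]
  refine Finset.sum_congr rfl fun j _ => ?_
  by_cases hdj : d j = K
  · have hprj : ∀ (c : Fin n → ℂ) (t : ℂ), pr d (Function.update c j t) = pr d c := by
      intro c t
      funext l
      unfold pr
      by_cases hl : l = j
      · rw [hl, if_neg (by omega), if_neg (by omega)]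
      · rw [Function.update_of_ne hl]
    refine (hensel_step (UJ f w N d j) (isConstr_UJ f w N d j)
      (fun c => eval c (inForm f (face f r M))) ⟨_, fun _ => rfl⟩ j ?_
      (fun c => eval c (pderiv j (inForm f (face f r M)))) ?_ ?_).1
    · rintro c ⟨⟨i, hi, hci⟩, h2, h3⟩ t
      refine ⟨⟨i, hi, ?_⟩, ?_, ?_⟩
      · rw [Function.update_of_ne]
        · exact hci
        · rintro rfl
          omega
      · intro l hl
        rw [hprj]
        exact h2 l hl
      · rw [hprj]
        exact h3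
    · rintro c ⟨-, -, h3⟩
      rw [h.eval_eq H.ge h3]
      exact h3
    · rintro c - t
      beta_reduce
      rw [eval_pderiv_inForm]
      unfold inForm
      rw [map_sum, map_sum, Finset.mul_sum, ← Finset.sum_add_distrib]
      refine Finset.sum_congr rfl fun v hv => ?_
      refine eval_update_monomial c j t _ ?_
      by_contra hcon
      have h4 := (h.gd H.ge hdj hv (by omega)).2.2 j (by
        rw [Finsupp.tsub_apply, Finsupp.single_eq_same]
        omega)
      omega
  · have h2 : UJ f w N d j = ∅ := by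
      rw [Set.eq_empty_iff_forall_notMem]
      rintro c ⟨-, -, h3⟩
      exact hdj (h.dir h3)
    have h3 : {c | c ∈ UJ f w N d j ∧ eval c (inForm f (face f r M)) = 0} = ∅ := by
      rw [h2]
      ext c
      simp
    rw [h3, h2, cls_empty, zero_mul]

/-- The class of the zeros of the initial form depends only on `d` and `K`. -/
theorem Num.clsM_XU {p' M' : ℕ} {r' : Fin n → ℕ} (h : Num w N W p r d M K)
    (h' : Num w N W p' r' d M' K) (H : Sqh f w N) :
    clsM (XU f r M (Ud d)) = clsM (XU f r' M' (Ud d)) := by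
  by_cases hK : K = 0
  · subst hK
    rw [h.XU_eq_of_zero H, h'.XU_eq_of_zero H]
  · have h1 := congrArg (algebraMap K0 Mot) (h.cls_XU H hK)
    have h2 := congrArg (algebraMap K0 Mot) (h'.cls_XU H hK)
    rw [map_mul, ← LU_val] at h1 h2
    unfold clsM
    have h3 := h1.trans h2.symm
    exact (LU.isUnit.mul_left_inj).1 h3

theorem clsM_YU (f : MvPolynomial (Fin n) ℂ) (r : Fin n → ℕ) (M : ℕ) {U : Set (Fin n → ℂ)}
    (hU : IsConstr U) : clsM (YU f r M U) = clsM U - clsM (XU f r M U) := by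
  have h1 : U = XU f r M U ∪ YU f r M U := by
    ext c
    simp only [XU, YU, Set.mem_union, Set.mem_ofPred_eq]
    tauto
  have h2 : cls U = cls (XU f r M U) + cls (YU f r M U) := by
    conv_lhs => rw [h1]
    refine cls_union (isConstr_XU f r M hU) (isConstr_YU f r M hU) ?_
    rw [Set.disjoint_left]
    rintro c ⟨-, h3⟩ ⟨-, h4⟩
    exact h4 h3
  unfold clsM
  rw [h2, map_add]
  ring

end Sq

end MPb07157
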