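import Pool.Agent.Lib.MP_b07157_agI.SqP2

/-!
# The pole side for semi-quasi-homogeneous germs: the local zeta function
-/

noncomputable section

namespace MPb07157

open MvPolynomial

variable {n : ℕ}

namespace Sq

/-- `⌈x / W⌉`. -/
def cei (W x : ℕ) : ℕ := (x + (W - 1)) / W

theorem cei_spec {W : ℕ} (hW : 0 < W) (x : ℕ) : x ≤ W * cei W x ∧ W * cei W x < x + W := by
  have h1 := Nat.div_add_mod (x + (W - 1)) W
  have h2 := Nat.mod_lt (x + (W - 1)) hW
  unfold cei
  constructor <;> omega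

theorem cei_eq {W : ℕ} (hW : 0 < W) {x k : ℕ} (h1 : x ≤ W * k) (h2 : W * k < x + W) :
    cei W x = k := by
  have h3 := cei_spec hW x
  rcases lt_trichotomy (cei W x) k with h | h | h
  · have h4 : W * (cei W x + 1) ≤ W * k := Nat.mul_le_mul_left _ h
    rw [Nat.mul_add, mul_one] at h4
    omega
  · exact h
  · have h4 : W * (k + 1) ≤ W * cei W x := Nat.mul_le_mul_left _ h
    rw [Nat.mul_add, mul_one] at h4
    omega

theorem cei_add {W : ℕ} (hW : 0 < W) (x k : ℕ) : cei W (x + W * k) = cei W x + k := by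
  have h3 := cei_spec hW x
  apply cei_eq hW
  · rw [Nat.mul_add]; omega
  · rw [Nat.mul_add]; omega

/-- The product of the weights. -/
def Wt (w : Fin n → ℕ) : ℕ := ∏ j, w j

/-- `r_j(p) = ⌈w_j p / W⌉`. -/
def rP (w : Fin n → ℕ) (p : ℕ) (j : Fin n) : ℕ := cei (Wt w) (w j * p)

/-- `d_j(p) = W r_j(p) - w_j p`. -/
def dP (w : Fin n → ℕ) (p : ℕ) (j : Fin n) : ℕ := Wt w * rP w p j - w j * p

/-- `M(p) = ⌈p N / W⌉`. -/
def MP (w : Fin n → ℕ) (N p : ℕ) : ℕ := cei (Wt w) (p * N)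

/-- `K(p) = W M(p) - p N`. -/
def KP (w : Fin n → ℕ) (N p : ℕ) : ℕ := Wt w * MP w N p - p * N

variable {w : Fin n → ℕ} {N : ℕ}

theorem Wt_pos (hw : ∀ j, 0 < w j) : 0 < Wt w := Finset.prod_pos fun j _ => hw j

theorem num_P (hw : ∀ j, 0 < w j) {p : ℕ} (hp : 0 < p) :
    Num w N (Wt w) p (rP w p) (dP w p) (MP w N p) (KP w N p) := by
  refine ⟨hp, fun j => ?_, fun j => ?_, ?_, ?_⟩
  · have := cei_spec (Wt_pos hw) (w j * p)
    unfold dP rP
    omega
  · have := cei_spec (Wt_pos hw) (w j * p)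
    unfold dP rP
    omega
  · have := cei_spec (Wt_pos hw) (p * N)
    unfold KP MP
    omega
  · have := cei_spec (Wt_pos hw) (p * N)
    unfold KP MP
    omega

theorem rP_add (hw : ∀ j, 0 < w j) (p : ℕ) (j : Fin n) : rP w (p + Wt w) j = rP w p j + w j := by
  unfold rP
  rw [mul_add, mul_comm (w j) (Wt w), cei_add (Wt_pos hw)]

theorem dP_add (hw : ∀ j, 0 < w j) (p : ℕ) : dP w (p + Wt w) = dP w p := by
  funext j
  unfold dP
  rw [rP_add hw, mul_add, mul_add, mul_comm (w j) (Wt w)]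
  omega

theorem MP_add (hw : ∀ j, 0 < w j) (p : ℕ) : MP w N (p + Wt w) = MP w N p + N := by
  unfold MP
  rw [add_mul, cei_add (Wt_pos hw)]

theorem KP_add (hw : ∀ j, 0 < w j) (p : ℕ) : KP w N (p + Wt w) = KP w N p := by
  unfold KP
  rw [MP_add hw, mul_add, add_mul]
  omega

theorem rP_le_MP (hwN : ∀ j, w j ≤ N) (p : ℕ) (j : Fin n) :
    rP w p j ≤ MP w N p := by
  unfold rP MP cei
  apply Nat.div_le_div_right
  have : w j * p ≤ p * N := by
    rw [mul_comm]
    exact Nat.mul_le_mul_left _ (hwN j)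
  omega

/-- The measure of the arcs of weighted order `p`. -/
def AP (f : MvPolynomial (Fin n) ℂ) (w : Fin n → ℕ) (N p m : ℕ) : Mot :=
  aP f (rP w p) (MP w N p) (Ud (dP w p)) m

variable {f : MvPolynomial (Fin n) ℂ}

theorem Ud_empty {d : Fin n → ℕ} (h : ¬ ∃ i, d i = 0) : Ud d = ∅ := by
  rw [Set.eq_empty_iff_forall_notMem]
  rintro c ⟨i, hi, -⟩
  exact h ⟨i, hi⟩

theorem measure_AP (H : Sqh f w N) (hw : ∀ j, 0 < w j) (hwN : ∀ j, w j ≤ N) {p : ℕ} (hp : 0 < p)
    (m : ℕ) : ↑((LU ^ (n * (m + 1)))⁻¹) *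
      clsM (arcs f (m + 1) m ∩ LA (m + 1) (rP w p) (Ud (dP w p))) = AP f w N p m := by
  by_cases hd : ∃ i, dP w p i = 0
  · obtain ⟨i, hi⟩ := hd
    have hnum := num_P (N := N) hw hp
    have hmin := hnum.isMinWt H hi
    by_cases hm : m < MP w N p
    · have h1 : arcs f (m + 1) m ∩ LA (m + 1) (rP w p) (Ud (dP w p)) = ∅ := by
        rw [Set.eq_empty_iff_forall_notMem]
        rintro γ ⟨h2, h3, -⟩
        rw [mem_arcs_iff] at h2
        exact h2.1 (coeff_Fv_of_lt hmin h3 hm)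
      rw [h1]
      unfold AP aP clsM
      rw [cls_empty, map_zero, mul_zero, if_pos hm, mul_zero]
    · unfold AP
      exact measure_LA hmin (fun j => by have := rP_le_MP hwN p j; omega) (isConstr_Ud _)
        (fun c hc _ => hnum.nd H hc) (by omega)
  · have h0 := Ud_empty hd
    have h1 : arcs f (m + 1) m ∩ LA (m + 1) (rP w p) (Ud (dP w p)) = ∅ := by
      rw [Set.eq_empty_iff_forall_notMem]
      rintro γ ⟨h2, h3, h4⟩
      rw [h0] at h4
      exact h4
    have h2 : YU f (rP w p) (MP w N p) (∅ : Set (Fin n → ℂ)) = ∅ := by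
      rw [Set.eq_empty_iff_forall_notMem]
      rintro c ⟨h, -⟩
      exact h
    have h3 : XU f (rP w p) (MP w N p) (∅ : Set (Fin n → ℂ)) = ∅ := by
      rw [Set.eq_empty_iff_forall_notMem]
      rintro c ⟨h, -⟩
      exact h
    unfold AP aP
    rw [h1, h0, h2, h3]
    unfold clsM
    simp only [cls_empty, map_zero, mul_zero, zero_mul, ite_self]

theorem AP_add (H : Sqh f w N) (hw : ∀ j, 0 < w j) {p : ℕ} (hp : 0 < p) (m : ℕ) :
    AP f w N (p + Wt w) (m + N) = ↑((LU ^ (∑ j, w j))⁻¹) * AP f w N p m := by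
  have h1 := num_P (N := N) hw hp
  have h2 := num_P (N := N) hw (p := p + Wt w) (by omega)
  rw [KP_add hw, dP_add hw] at h2
  have h3 := h1.clsM_XU h2 H
  have h4 := clsM_YU f (rP w p) (MP w N p) (isConstr_Ud (dP w p))
  have h5 := clsM_YU f (rP w (p + Wt w)) (MP w N (p + Wt w)) (isConstr_Ud (dP w p))
  rw [← h3, ← h4] at h5
  unfold AP aP
  rw [dP_add hw, ← h3, h5]
  have h6 : n + ∑ j, rP w (p + Wt w) j = ∑ j, w j + (n + ∑ j, rP w p j) := by
    simp only [rP_add hw]
    rw [Finset.sum_add_distrib]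
    omega
  rw [h6, pow_add, mul_inv, Units.val_mul, mul_assoc, MP_add hw]
  congr 2
  rcases lt_trichotomy m (MP w N p) with h7 | h7 | h7
  · rw [if_pos h7, if_pos (by omega)]
  · rw [if_neg (by omega), if_pos (by omega), if_neg (by omega), if_pos h7]
  · rw [if_neg (by omega), if_neg (by omega), if_neg (by omega), if_neg (by omega)]
    congr 2
    omega

theorem AP_lt (hw : ∀ j, 0 < w j) {p m : ℕ} (hm : m < N) : AP f w N (p + Wt w) m = 0 := by
  unfold AP aP
  rw [MP_add hw, if_pos (by omega), mul_zero]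

/-! ### The partition -/

theorem mem_LA_P {m p : ℕ} (hw : ∀ j, 0 < w j) {γ : Fin n × Fin (m + 1) → ℂ} :
    γ ∈ LA (m + 1) (rP w p) (Ud (dP w p)) ↔
      (∀ (j : Fin n) (k : Fin (m + 1)), γ (j, k) ≠ 0 → w j * p ≤ Wt w * k) ∧
      ∃ (j : Fin n) (k : Fin (m + 1)), γ (j, k) ≠ 0 ∧ Wt w * (k : ℕ) = w j * p := by
  have hW := Wt_pos hw
  constructor
  · rintro ⟨h1, j, hj, h2⟩
    refine ⟨fun i k hik => ?_, ?_⟩
    · by_contra hcon
      push Not at hcon
      apply hik
      apply h1 i k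
      by_contra h3
      push Not at h3
      have h4 := cei_spec hW (w i * p)
      have h5 : Wt w * rP w p i ≤ Wt w * k := Nat.mul_le_mul_left _ h3
      unfold rP at h5
      omega
    · unfold lead0 at h2
      split_ifs at h2 with h3
      · refine ⟨j, ⟨rP w p j, h3⟩, h2, ?_⟩
        have h4 := cei_spec hW (w j * p)
        unfold dP rP at hj
        unfold rP
        simp only
        omega
      · exact absurd rfl h2
  · rintro ⟨h1, j, k, h2, h3⟩
    have hrj : rP w p j = k := by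
      unfold rP
      apply cei_eq hW
      · omega
      · omega
    refine ⟨fun i l hil => ?_, j, ?_, ?_⟩
    · by_contra hcon
      have h4 := h1 i l hcon
      have h5 := cei_spec hW (w i * p)
      have h6 : Wt w * (l + 1) ≤ Wt w * rP w p i := Nat.mul_le_mul_left _ hil
      unfold rP at h6
      rw [Nat.mul_add, mul_one] at h6
      omega
    · unfold dP
      rw [hrj]
      omega
    · unfold lead0
      have h4 : rP w p j < m + 1 := by rw [hrj]; exact k.2
      rw [dif_pos h4]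
      have h5 : (⟨rP w p j, h4⟩ : Fin (m + 1)) = k := Fin.ext hrj
      rw [h5]
      exact h2

theorem exists_p {m : ℕ} (hw : ∀ j, 0 < w j) {γ : Fin n × Fin (m + 1) → ℂ}
    (hγ : ∃ q, γ q ≠ 0) (h0 : ∀ i, γ (i, 0) = 0) :
    ∃ p, 0 < p ∧ γ ∈ LA (m + 1) (rP w p) (Ud (dP w p)) := by
  classical
  have hdvd : ∀ j, w j ∣ Wt w := fun j => Finset.dvd_prod_of_mem w (Finset.mem_univ j)
  choose c hc using hdvd
  have hc0 : ∀ j, 0 < c j := by
    intro j
    rcases Nat.eq_zero_or_pos (c j) with h | h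
    · have := Wt_pos hw
      rw [hc j, h, mul_zero] at this
      exact absurd this (lt_irrefl _)
    · exact h
  set S := Finset.univ.filter fun q : Fin n × Fin (m + 1) => γ q ≠ 0 with hS
  have hne : S.Nonempty := by
    obtain ⟨q, hq⟩ := hγ
    exact ⟨q, by rw [hS]; simpa using hq⟩
  obtain ⟨⟨j, k⟩, hq, hmin⟩ := S.exists_min_image (fun q => c q.1 * (q.2 : ℕ)) hne
  have hjk : γ (j, k) ≠ 0 := by
    rw [hS] at hq
    simpa using hq
  have hk : (k : ℕ) ≠ 0 := by
    intro h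
    have : k = 0 := Fin.ext h
    rw [this] at hjk
    exact hjk (h0 j)
  refine ⟨c j * k, Nat.mul_pos (hc0 j) (Nat.pos_of_ne_zero hk), (mem_LA_P hw).2 ⟨?_, j, k, hjk, ?_⟩⟩
  · intro i l hil
    have h1 := hmin (i, l) (by rw [hS]; simpa using hil)
    simp only at h1
    rw [hc i, mul_assoc]
    exact Nat.mul_le_mul_left _ h1
  · rw [← mul_assoc, ← hc j]

theorem disjoint_LA_P {m p q : ℕ} (hw : ∀ j, 0 < w j) (hpq : p ≠ q) :
    Disjoint (LA (m + 1) (rP w p) (Ud (dP w p))) (LA (m + 1) (rP w q) (Ud (dP w q))) := by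
  rw [Set.disjoint_left]
  intro γ h1 h2
  obtain ⟨h3, i, k, h4, h5⟩ := (mem_LA_P hw).1 h1
  obtain ⟨h6, j, l, h7, h8⟩ := (mem_LA_P hw).1 h2
  have h9 := h3 j l h7
  have h10 := h6 i k h4
  rw [h8] at h9
  rw [h5] at h10
  have h11 := Nat.le_of_mul_le_mul_left h9 (hw j)
  have h12 := Nat.le_of_mul_le_mul_left h10 (hw i)
  omega

theorem arcs_eq_P (H : Sqh f w N) (hw : ∀ j, 0 < w j) (hN : 0 < N)
    (hf0 : coeff 0 f = 0) (m P : ℕ) (hP : Wt w * m ≤ P) :
    {γ ∈ arcs f (m + 1) m | ∀ i, γ (i, 0) = 0} = ⋃ p ∈ Finset.range P,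
      (arcs f (m + 1) m ∩ LA (m + 1) (rP w (p + 1)) (Ud (dP w (p + 1)))) := by
  ext γ
  simp only [Set.mem_ofPred_eq, Set.mem_iUnion, Finset.mem_range, exists_prop, Set.mem_inter_iff]
  constructor
  · rintro ⟨h1, h2⟩
    have hne : ∃ q, γ q ≠ 0 := by
      by_contra hcon
      push Not at hcon
      have h3 := ((mem_arcs_iff _ _ _ _).1 h1).1
      apply h3
      have h4 : arc γ = fun _ => 0 := by
        funext i
        ext k
        rw [coeff_arc]
        split_ifs
        · rw [hcon]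
          simp
        · simp
      unfold Fv
      rw [h4]
      have h5 : (aeval (fun _ : Fin n => (0 : PowerSeries ℂ))) f =
          algebraMap ℂ (PowerSeries ℂ) (constantCoeff f) := by
        rw [aeval_zero']
      rw [h5, constantCoeff_eq, hf0, map_zero, map_zero]
    obtain ⟨p, hp, h3⟩ := exists_p hw hne h2
    obtain ⟨q, rfl⟩ : ∃ q, p = q + 1 := ⟨p - 1, by omega⟩
    refine ⟨q, ?_, h1, h3⟩
    have hnum := num_P (N := N) hw hp
    obtain ⟨h4, i, hi, -⟩ := h3
    have hmin := hnum.isMinWt H hi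
    have h5 : MP w N (q + 1) ≤ m := by
      by_contra hcon
      push Not at hcon
      exact ((mem_arcs_iff _ _ _ _).1 h1).1 (coeff_Fv_of_lt hmin h4 hcon)
    have h6 := hnum.hM
    have h7 : Wt w * MP w N (q + 1) ≤ Wt w * m := Nat.mul_le_mul_left _ h5
    have h8 : (q + 1) * 1 ≤ (q + 1) * N := Nat.mul_le_mul_left _ hN
    omega
  · rintro ⟨p, -, h1, h2⟩
    refine ⟨h1, fun i => ?_⟩
    by_contra hcon
    have h3 := ((mem_LA_P hw).1 h2).1 i 0 hcon
    simp only [Fin.val_zero, mul_zero] at h3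
    have h4 := Nat.mul_pos (hw i) (Nat.succ_pos p)
    simp only [Nat.succ_eq_add_one] at h4
    omega

theorem Zcoeff0_eq_P (H : Sqh f w N) (hw : ∀ j, 0 < w j) (hwN : ∀ j, w j ≤ N) (hN : 0 < N)
    (hf0 : coeff 0 f = 0) (m P : ℕ) (hP : Wt w * m ≤ P) :
    Zcoeff0 f m = ∑ p ∈ Finset.range P, AP f w N (p + 1) m := by
  unfold Zcoeff0
  rw [arcs_eq_P H hw hN hf0 m P hP]
  have h1 : ∀ p ∈ Finset.range P, IsConstr
      (arcs f (m + 1) m ∩ LA (m + 1) (rP w (p + 1)) (Ud (dP w (p + 1)))) := by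
    intro p _
    have h2 : arcs f (m + 1) m ∩ LA (m + 1) (rP w (p + 1)) (Ud (dP w (p + 1))) =
        arcs f (m + 1) m ∩ {γ | (∀ j ∈ (Finset.univ : Finset (Fin n)), ∀ k ∈
          (Finset.univ.filter fun k : Fin (m + 1) => ¬ (w j * (p + 1) ≤ Wt w * k)),
            γ (j, k) = 0) ∧ ∃ j ∈ (Finset.univ : Finset (Fin n)), ∃ k ∈
          (Finset.univ.filter fun k : Fin (m + 1) => (Wt w * (k : ℕ) = w j * (p + 1))),
            γ (j, k) ≠ 0} := by
      ext γ
      rw [Set.mem_inter_iff, Set.mem_inter_iff, mem_LA_P hw]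
      refine and_congr_right fun _ => ?_
      simp only [Set.mem_ofPred_eq, Finset.mem_univ, true_and, Finset.mem_filter, forall_true_left]
      refine and_congr ?_ ?_
      · refine forall_congr' fun j => forall_congr' fun k => ?_
        constructor
        · intro h hk
          by_contra hcon
          exact hk (h hcon)
        · intro h hk
          by_contra hcon
          exact hk (h hcon)
      · refine exists_congr fun j => exists_congr fun k => and_comm
    rw [h2]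
    refine (isConstr_arcs _ _ _).inter (isConstr_setOf_and ?_ ?_)
    · exact isConstr_forall_mem _ _ fun j _ => isConstr_forall_mem _ _ fun k _ => by
        have := isConstr_eq_zero (X (j, k) : MvPolynomial (Fin n × Fin (m + 1)) ℂ)
        simpa using this
    · exact isConstr_exists_mem _ _ fun j _ => isConstr_exists_mem _ _ fun k _ => by
        have := isConstr_ne_zero (X (j, k) : MvPolynomial (Fin n × Fin (m + 1)) ℂ)
        simpa using this
  have h3 : clsM (⋃ p ∈ Finset.range P,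
      (arcs f (m + 1) m ∩ LA (m + 1) (rP w (p + 1)) (Ud (dP w (p + 1))))) =
      ∑ p ∈ Finset.range P,
        clsM (arcs f (m + 1) m ∩ LA (m + 1) (rP w (p + 1)) (Ud (dP w (p + 1)))) := by
    unfold clsM
    rw [cls_biUnion _ _ h1, map_sum]
    intro p _ q _ hpq
    exact (disjoint_LA_P hw (by omega)).mono (fun _ hx => hx.2) (fun _ hx => hx.2)
  rw [h3, Finset.mul_sum]
  exact Finset.sum_congr rfl fun p _ => measure_AP H hw hwN (Nat.succ_pos p) m

theorem Zmot0_mul_P (H : Sqh f w N) (hw : ∀ j, 0 < w j) (hwN : ∀ j, w j ≤ N) (hN : 0 < N)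
    (hf0 : coeff 0 f = 0) :
    Zmot0 f * (1 - PowerSeries.C (↑((LU ^ (∑ j, w j))⁻¹) : Mot) * PowerSeries.X ^ N) =
      ∑ p ∈ Finset.range (Wt w), PowerSeries.mk (AP f w N (p + 1)) := by
  ext m
  rw [mul_sub, mul_one, map_sub, map_sum]
  simp only [PowerSeries.coeff_mk]
  have e1 : Zmot0 f * (PowerSeries.C (↑((LU ^ (∑ j, w j))⁻¹) : Mot) * PowerSeries.X ^ N) =
      PowerSeries.C (↑((LU ^ (∑ j, w j))⁻¹) : Mot) * (Zmot0 f * PowerSeries.X ^ N) := by ring
  rw [e1, PowerSeries.coeff_C_mul, PowerSeries.coeff_mul_X_pow']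
  unfold Zmot0
  rw [PowerSeries.coeff_mk, Zcoeff0_eq_P H hw hwN hN hf0 m (Wt w + Wt w * m) (by omega),
    Finset.sum_range_add]
  have e2 : ∑ p ∈ Finset.range (Wt w * m), AP f w N (Wt w + p + 1) m =
      ↑((LU ^ (∑ j, w j))⁻¹) * if N ≤ m then PowerSeries.coeff (m - N)
        (PowerSeries.mk (Zcoeff0 f)) else 0 := by
    split_ifs with hm
    · rw [PowerSeries.coeff_mk, Zcoeff0_eq_P H hw hwN hN hf0 (m - N) (Wt w * m)
        (Nat.mul_le_mul_left _ (Nat.sub_le _ _)), Finset.mul_sum]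
      refine Finset.sum_congr rfl fun p _ => ?_
      rw [← AP_add H hw (Nat.succ_pos p)]
      congr 1
      · omega
      · omega
    · rw [mul_zero]
      refine Finset.sum_eq_zero fun p _ => ?_
      rw [show Wt w + p + 1 = (p + 1) + Wt w by omega]
      exact AP_lt hw (by omega)
  rw [e2]
  ring

/-- The local motivic zeta function of a semi-quasi-homogeneous germ has only the poles `-1` and
`-|w|/N`. -/
theorem Sqh.Zmot0_mem (H : Sqh f w N) (hw : ∀ j, 0 < w j) (hwN : ∀ j, w j ≤ N) (hN : 0 < N)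
    (hf0 : coeff 0 f = 0) {s₀ : ℚ} (hs : s₀ ≠ -1) (hs' : s₀ * N ≠ -∑ j, (w j : ℚ)) :
    Zmot0 f ∈ regularAt s₀ := by
  set φ : PowerSeries Mot :=
    1 - PowerSeries.C (↑((LU ^ (∑ j, w j))⁻¹) : Mot) * PowerSeries.X ^ N with hφ
  have hc : PowerSeries.constantCoeff φ = ((1 : Motˣ) : Mot) := by
    rw [hφ, map_sub, map_one, map_mul, map_pow, PowerSeries.constantCoeff_X, zero_pow (by omega),
      mul_zero, sub_zero, Units.val_one]
  have hG := PowerSeries.mul_invOfUnit φ 1 hc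
  set G := PowerSeries.invOfUnit φ 1 with hGdef
  have hmem : G ∈ regularAt s₀ := by
    refine Algebra.subset_adjoin (Or.inr ⟨((∑ j, w j : ℕ) : ℤ), N, hN, ?_, ?_⟩)
    · intro h
      apply hs'
      have hNQ : (N : ℚ) ≠ 0 := by exact_mod_cast hN.ne'
      rw [div_eq_iff hNQ] at h
      push_cast at h
      linarith
    · rw [zpow_neg, zpow_natCast, mul_comm]
      exact hG
  have hZ : Zmot0 f = (∑ p ∈ Finset.range (Wt w), PowerSeries.mk (AP f w N (p + 1))) * G := by
    rw [← Zmot0_mul_P H hw hwN hN hf0, mul_assoc, hG, mul_one]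
  rw [hZ]
  refine mul_mem (sum_mem fun p _ => ?_) hmem
  exact mk_aP_mem hs _ _ _ _

end Sq

end MPb07157
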