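import Pool.Agent.Lib.MP_b07157_agI.SqR1

/-!
# A root of the Bernstein–Sato polynomial from the initial form
-/

noncomputable section

namespace MPb07157

open MvPolynomial

variable {n : ℕ}

namespace Sq

/-! ### Binomial coefficients -/

/-- The binomial coefficient `a (a - 1) ⋯ (a - j + 1) / j!`. -/
def bc (a : ℂ) : ℕ → ℂ
  | 0 => 1
  | j + 1 => bc a j * (a - j) / (j + 1)

theorem bc_zero (a : ℂ) : bc a 0 = 1 := rfl

theorem bc_succ (a : ℂ) (j : ℕ) : ((j : ℂ) + 1) * bc a (j + 1) = bc a j * (a - j) := by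
  have h : (j : ℂ) + 1 ≠ 0 := Nat.cast_add_one_ne_zero j
  show ((j : ℂ) + 1) * (bc a j * (a - j) / (j + 1)) = _
  field_simp

theorem bc_A (a : ℂ) (j : ℕ) : ((j : ℂ) + 1) * bc (a + 1) (j + 1) = (a + 1) * bc a j := by
  induction j with
  | zero =>
    rw [bc_succ, bc_zero, bc_zero]
    push_cast
    ring
  | succ j ih =>
    have h : (j : ℂ) + 1 ≠ 0 := Nat.cast_add_one_ne_zero j
    apply mul_left_cancel₀ h
    have h1 := bc_succ (a + 1) (j + 1)
    have h2 := bc_succ a j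
    push_cast at h1 ⊢
    linear_combination ((j : ℂ) + 1) * h1 + (a + 1 - (j + 1)) * ih - (a + 1) * h2

theorem bc_pascal (a : ℂ) (j : ℕ) : bc (a + 1) (j + 1) = bc a (j + 1) + bc a j := by
  have h : (j : ℂ) + 1 ≠ 0 := Nat.cast_add_one_ne_zero j
  apply mul_left_cancel₀ h
  rw [bc_A, mul_add, bc_succ]
  ring

theorem sum_pascal (a : ℂ) (T : ℕ → ℂ) (J : ℕ) :
    ∑ j ∈ Finset.range (J + 1), bc a j * (T j + T (j + 1)) =
      ∑ j ∈ Finset.range (J + 1), bc (a + 1) j * T j + bc a J * T (J + 1) := by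
  induction J with
  | zero =>
    rw [Finset.sum_range_one, Finset.sum_range_one, bc_zero, bc_zero]
    ring
  | succ J ih =>
    rw [Finset.sum_range_succ, ih, Finset.sum_range_succ _ (J + 1), bc_pascal]
    ring

/-! ### Weights -/

/-- All terms have weight at least `e`. -/
def Wge (w : Fin n → ℕ) (e : ℕ) (u : MvPolynomial (Fin n) ℂ) : Prop :=
  ∀ v ∈ u.support, e ≤ wt w v

variable {w : Fin n → ℕ}

theorem wt_add (w : Fin n → ℕ) (u v : Fin n →₀ ℕ) : wt w (u + v) = wt w u + wt w v := by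
  unfold wt
  rw [← Finset.sum_add_distrib]
  exact Finset.sum_congr rfl fun i _ => by rw [Finsupp.add_apply, mul_add]

theorem wge_zero (u : MvPolynomial (Fin n) ℂ) : Wge w 0 u := fun _ _ => Nat.zero_le _

theorem Wge.mul {e e' : ℕ} {u u' : MvPolynomial (Fin n) ℂ} (h : Wge w e u) (h' : Wge w e' u') :
    Wge w (e + e') (u * u') := by
  classical
  intro v hv
  obtain ⟨a, ha, b, hb, rfl⟩ := Finset.mem_add.1 (support_mul u u' hv)
  rw [wt_add]
  exact add_le_add (h a ha) (h' b hb)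

theorem Wge.pow {e : ℕ} {u : MvPolynomial (Fin n) ℂ} (h : Wge w e u) (j : ℕ) :
    Wge w (e * j) (u ^ j) := by
  induction j with
  | zero => exact wge_zero _
  | succ j ih =>
    rw [pow_succ, Nat.mul_succ]
    exact ih.mul h

theorem Wge.mono {e e' : ℕ} (hee : e' ≤ e) {u : MvPolynomial (Fin n) ℂ} (h : Wge w e u) :
    Wge w e' u := fun v hv => hee.trans (h v hv)

theorem Wge.pderiv {e : ℕ} {u : MvPolynomial (Fin n) ℂ} (h : Wge w e u) (i : Fin n) :
    Wge w (e - w i) (pderiv i u) := by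
  classical
  intro v hv
  rw [mem_support_iff, coeff_pderiv] at hv
  have h1 : v + Finsupp.single i 1 ∈ u.support := by
    rw [mem_support_iff]
    exact left_ne_zero_of_mul hv
  have h2 := h _ h1
  rw [wt_add] at h2
  have h3 : wt w (Finsupp.single i 1) = w i := by
    unfold wt
    rw [Finset.sum_eq_single i]
    · simp
    · intro j _ hj
      rw [Finsupp.single_apply, if_neg hj.symm, mul_zero]
    · intro h
      exact absurd (Finset.mem_univ i) h
  omega

theorem Wge.constantCoeff {e : ℕ} (he : 0 < e) {u : MvPolynomial (Fin n) ℂ} (h : Wge w e u) :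
    constantCoeff u = 0 := by
  rw [constantCoeff_eq]
  by_contra hne
  have := h 0 (mem_support_iff.2 hne)
  simp [wt] at this
  omega

/-! ### The functionals -/

variable (Λ : KF n →ₗ[ℂ] ℂ) (g₀ : MvPolynomial (Fin n) ℂ)

/-- `Λ(u g₀^(1 - l))`. -/
def br (l : ℕ) (u : MvPolynomial (Fin n) ℂ) : ℂ := Λ (io n (u * g₀) / io n g₀ ^ l)

theorem br_add (l : ℕ) (u v : MvPolynomial (Fin n) ℂ) :
    br Λ g₀ l (u + v) = br Λ g₀ l u + br Λ g₀ l v := by
  unfold br
  rw [add_mul, map_add, add_div, map_add]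

theorem br_C_mul (l : ℕ) (c : ℂ) (u : MvPolynomial (Fin n) ℂ) :
    br Λ g₀ l (C c * u) = c * br Λ g₀ l u := by
  unfold br
  have h : io n (C c * u * g₀) / io n g₀ ^ l = c • (io n (u * g₀) / io n g₀ ^ l) := by
    rw [smul_eq, mul_assoc (C c) u g₀, map_mul, mul_div_assoc]
  rw [h, map_smul, smul_eq_mul]

variable {Λ g₀}

theorem br_up (h0 : g₀ ≠ 0) (l : ℕ) (u : MvPolynomial (Fin n) ℂ) :
    br Λ g₀ (l + 1) (g₀ * u) = br Λ g₀ l u := by
  have hF : io n g₀ ≠ 0 := io_ne_zero h0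
  unfold br
  congr 1
  rw [map_mul, map_mul, map_mul]
  field_simp
  ring

variable {N : ℕ} {α : ℂ}

theorem br_eq_zero (h0 : g₀ ≠ 0) (hg : g₀.IsWeightedHomogeneous w N)
    (hα : α * N = ∑ i, (w i : ℂ)) (hΛ : ∀ x ∈ SS g₀ α, Λ x = 0) {l e : ℕ}
    {u : MvPolynomial (Fin n) ℂ} (hu : Wge w e u) (hl : N * l < e + N) :
    br Λ g₀ l u = 0 := by
  unfold br
  refine hΛ _ (mem_of_support h0 hg hα l fun v hv => ?_)
  have h1 : Wge w N g₀ := by
    intro v hv
    have h2 := hg (mem_support_iff.1 hv)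
    rw [Finsupp.weight_apply, Finsupp.sum_fintype v (fun i c => c • w i) (by simp)] at h2
    unfold wt
    rw [← h2]
    exact le_of_eq (Finset.sum_congr rfl fun i _ => by rw [smul_eq_mul, mul_comm])
  have h2 := (hu.mul h1) v hv
  omega

theorem br_ev (h0 : g₀ ≠ 0) (hΛ : ∀ x ∈ SS g₀ α, Λ x = 0) (l : ℕ) (i : Fin n)
    (u : MvPolynomial (Fin n) ℂ) :
    br Λ g₀ (l + 2) (g₀ * pderiv i u - C (α + l) * (u * pderiv i g₀)) = 0 := by
  have hF : io n g₀ ≠ 0 := io_ne_zero h0
  have h1 := hΛ _ (ev_mem g₀ α l i u)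
  unfold br
  rw [← h1]
  congr 1
  unfold ev
  rw [map_mul]
  field_simp
  ring

/-- The expansion of `Λ(u (g₀ + h)^(1 - k - α))`. -/
def Lk (Λ : KF n →ₗ[ℂ] ℂ) (g₀ h : MvPolynomial (Fin n) ℂ) (N : ℕ) (α : ℂ) (k : ℕ)
    (u : MvPolynomial (Fin n) ℂ) : ℂ :=
  ∑ j ∈ Finset.range (N * k + 1), bc (1 - k - α) j * br Λ g₀ (k + j) (u * h ^ j)

/-- The data. -/
structure Dat (Λ : KF n →ₗ[ℂ] ℂ) (g₀ h : MvPolynomial (Fin n) ℂ) (w : Fin n → ℕ) (N : ℕ)
    (α : ℂ) : Prop where
  ne : g₀ ≠ 0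
  hg : g₀.IsWeightedHomogeneous w N
  hα : α * N = ∑ i, (w i : ℂ)
  one : Λ 1 = 1
  hΛ : ∀ x ∈ SS g₀ α, Λ x = 0
  hh : Wge w (N + 1) h
  hw : ∀ i, 0 < w i
  hwN : ∀ i, w i < N
  hN : 0 < N

variable {h : MvPolynomial (Fin n) ℂ}

theorem Dat.van (D : Dat Λ g₀ h w N α) {k j e : ℕ} {u : MvPolynomial (Fin n) ℂ} (hu : Wge w e u)
    (hj : N * k < e + j + N) : br Λ g₀ (k + j) (u * h ^ j) = 0 := by
  refine br_eq_zero D.ne D.hg D.hα D.hΛ (hu.mul (D.hh.pow j)) ?_
  nlinarith

theorem Dat.Lk_eq (D : Dat Λ g₀ h w N α) {k J : ℕ} (hJ : N * k ≤ J)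
    (u : MvPolynomial (Fin n) ℂ) :
    Lk Λ g₀ h N α k u =
      ∑ j ∈ Finset.range J, bc (1 - k - α) j * br Λ g₀ (k + j) (u * h ^ j) := by
  have hN := D.hN
  have h1 : ∀ J, N * k ≤ J →
      ∑ j ∈ Finset.range J, bc (1 - k - α) j * br Λ g₀ (k + j) (u * h ^ j) =
        ∑ j ∈ Finset.range (N * k), bc (1 - k - α) j * br Λ g₀ (k + j) (u * h ^ j) := by
    intro J hJ
    refine (Finset.sum_subset (Finset.range_mono hJ) fun j _ hj => ?_).symm
    rw [Finset.mem_range, not_lt] at hj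
    rw [D.van (wge_zero u) (by omega), mul_zero]
  unfold Lk
  rw [h1 _ (by omega), h1 _ hJ]

theorem Dat.Lk_zero (D : Dat Λ g₀ h w N α) (u : MvPolynomial (Fin n) ℂ) :
    Lk Λ g₀ h N α 0 u = 0 := by
  rw [D.Lk_eq (J := 0) (by omega), Finset.range_zero, Finset.sum_empty]

theorem Dat.Lk_one (D : Dat Λ g₀ h w N α) (u : MvPolynomial (Fin n) ℂ) :
    Lk Λ g₀ h N α 1 u = constantCoeff u := by
  have hN := D.hN
  have hF : io n g₀ ≠ 0 := io_ne_zero D.ne
  rw [D.Lk_eq (J := N) (by omega)]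
  obtain ⟨M, rfl⟩ : ∃ M, N = M + 1 := ⟨N - 1, by omega⟩
  rw [Finset.sum_range_succ', Finset.sum_eq_zero, zero_add, bc_zero, one_mul, pow_zero, mul_one,
    add_zero]
  · have h1 : u = C (constantCoeff u) * 1 + (u - C (constantCoeff u)) := by ring
    have h2 : Wge w 1 (u - C (constantCoeff u)) := by
      intro v hv
      by_contra hlt
      have h3 : v = 0 := by
        ext i
        by_contra hi
        have h4 := wt_le_of_ne (a := w) hi
        have := D.hw i
        omega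
      rw [h3, mem_support_iff, coeff_sub, coeff_C, if_pos rfl, constantCoeff_eq, sub_self] at hv
      exact hv rfl
    rw [h1, br_add, br_C_mul, br_eq_zero D.ne D.hg D.hα D.hΛ h2 (by omega), add_zero]
    unfold br
    rw [one_mul, pow_one, div_self hF, D.one, mul_one]
    simp
  · intro j _
    rw [D.van (wge_zero u) (by omega), mul_zero]

/-- Multiplication by `f = g₀ + h`. -/
theorem Dat.Lk_mul (D : Dat Λ g₀ h w N α) (k : ℕ) (u : MvPolynomial (Fin n) ℂ) :
    Lk Λ g₀ h N α (k + 1) ((g₀ + h) * u) = Lk Λ g₀ h N α k u := by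
  have hN := D.hN
  have e1 : (1 - ((k + 1 : ℕ) : ℂ) - α) = -k - α := by push_cast; ring
  have e2 : (1 - (k : ℂ) - α) = (-k - α) + 1 := by ring
  set T : ℕ → ℂ := fun j => br Λ g₀ (k + j) (u * h ^ j) with hT
  obtain ⟨J, hJ⟩ : ∃ J, J = N * (k + 1) := ⟨_, rfl⟩
  rw [D.Lk_eq (J := J + 1) (by omega), D.Lk_eq (k := k) (J := J + 1) (by rw [hJ]; nlinarith), e1,
    e2]
  have h1 : ∀ j, br Λ g₀ (k + 1 + j) ((g₀ + h) * u * h ^ j) = T j + T (j + 1) := by
    intro j
    have e3 : (g₀ + h) * u * h ^ j = g₀ * (u * h ^ j) + u * h ^ (j + 1) := by ring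
    rw [e3, br_add, show k + 1 + j = k + j + 1 by ring, br_up D.ne]
    rfl
  simp only [h1]
  rw [sum_pascal]
  have h2 : T (J + 1) = 0 := D.van (wge_zero u) (by rw [hJ]; nlinarith)
  rw [h2, mul_zero, add_zero]

/-- Derivatives are killed. -/
theorem Dat.Lk_deriv (D : Dat Λ g₀ h w N α) (k : ℕ) (i : Fin n) (u : MvPolynomial (Fin n) ℂ) :
    Lk Λ g₀ h N α (k + 1) ((g₀ + h) * pderiv i u +
      C (1 - k - α) * (u * pderiv i (g₀ + h))) = 0 := by
  have hN := D.hN
  have hwN := D.hwN i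
  have hg₀ : Wge w N g₀ := by
    intro v hv
    have h2 := D.hg (mem_support_iff.1 hv)
    rw [Finsupp.weight_apply, Finsupp.sum_fintype v (fun i c => c • w i) (by simp)] at h2
    unfold wt
    rw [← h2]
    exact le_of_eq (Finset.sum_congr rfl fun i _ => by rw [smul_eq_mul, mul_comm])
  rcases Nat.eq_zero_or_pos k with rfl | hk
  · rw [D.Lk_one, map_add, map_mul, map_mul, map_mul, map_add, map_add, map_add,
      hg₀.constantCoeff hN, D.hh.constantCoeff (by omega),
      (hg₀.pderiv i).constantCoeff (by omega), (D.hh.pderiv i).constantCoeff (by omega)]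
    ring
  · obtain ⟨l, rfl⟩ : ∃ l, k = l + 1 := ⟨k - 1, by omega⟩
    set a : ℂ := -((l + 1 : ℕ) : ℂ) - α with ha
    have e1 : (1 - ((l + 1 + 1 : ℕ) : ℂ) - α) = a := by rw [ha]; push_cast; ring
    have e2 : (1 - ((l + 1 : ℕ) : ℂ) - α) = a + 1 := by rw [ha]; ring
    obtain ⟨J, hJ⟩ : ∃ J, J = N * (l + 1 + 1) := ⟨_, rfl⟩
    rw [D.Lk_eq (J := J + 1) (by omega), e1, e2]
    set A : ℕ → ℂ := fun j => br Λ g₀ (l + 1 + 1 + j) (u * h ^ j * pderiv i h) with hA
    set B : ℕ → ℂ := fun j => br Λ g₀ (l + 1 + 1 + j) (u * h ^ j * pderiv i g₀) with hB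
    set T : ℕ → ℂ := fun j => br Λ g₀ (l + 1 + j) (pderiv i u * h ^ j) with hT
    have h1 : ∀ j, br Λ g₀ (l + 1 + 1 + j) (((g₀ + h) * pderiv i u +
        C (a + 1) * (u * pderiv i (g₀ + h))) * h ^ j) =
        (T j + T (j + 1)) + (a + 1) * B j + (a + 1) * A j := by
      intro j
      have e3 : ((g₀ + h) * pderiv i u + C (a + 1) * (u * pderiv i (g₀ + h))) * h ^ j =
          (g₀ * (pderiv i u * h ^ j) + pderiv i u * h ^ (j + 1)) +
            C (a + 1) * (u * h ^ j * pderiv i g₀) + C (a + 1) * (u * h ^ j * pderiv i h) := by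
        rw [map_add (pderiv i) g₀ h]
        ring
      rw [e3, br_add, br_add, br_add, br_C_mul, br_C_mul,
        show l + 1 + 1 + j = l + 1 + j + 1 by ring, br_up D.ne]
      simp only [hA, hB, hT, show l + 1 + 1 + j = l + 1 + j + 1 by ring]
      rfl
    -- the total derivative of `u h ^ j`
    have h2 : ∀ j, T j = -((j : ℂ) * A (j - 1)) - (a + 1 - j) * B j := by
      intro j
      have h3 := br_ev D.ne D.hΛ (l + j) i (u * h ^ j)
      rcases Nat.eq_zero_or_pos j with rfl | hj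
      · have e4 : g₀ * pderiv i (u * h ^ 0) - C (α + ((l + 0 : ℕ) : ℂ)) *
            (u * h ^ 0 * pderiv i g₀) = g₀ * (pderiv i u * h ^ 0) +
              C (a + 1) * (u * h ^ 0 * pderiv i g₀) := by
          rw [ha]
          push_cast
          simp only [C_add, C_sub, C_neg, pow_zero, mul_one, add_zero]
          ring
        rw [e4, br_add, br_C_mul, show l + 0 + 2 = l + 1 + 0 + 1 by ring, br_up D.ne] at h3
        simp only [hA, hB, hT]
        push_cast
        rw [show l + 1 + 1 + 0 = l + 1 + 0 + 1 by ring]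
        linear_combination h3
      · obtain ⟨r, rfl⟩ : ∃ r, j = r + 1 := ⟨j - 1, by omega⟩
        have e4 : g₀ * pderiv i (u * h ^ (r + 1)) - C (α + ((l + (r + 1) : ℕ) : ℂ)) *
            (u * h ^ (r + 1) * pderiv i g₀) = g₀ * (pderiv i u * h ^ (r + 1)) +
              C ((r : ℂ) + 1) * (g₀ * (u * h ^ r * pderiv i h)) +
              C (a + 1 - (r + 1)) * (u * h ^ (r + 1) * pderiv i g₀) := by
          rw [pderiv_mul, pderiv_pow, ha]
          push_cast
          simp only [C_add, C_sub, C_neg]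
          have e5 : (C (r : ℂ) : MvPolynomial (Fin n) ℂ) = (r : MvPolynomial (Fin n) ℂ) := by
            simp
          rw [e5]
          simp
          ring
        rw [e4, br_add, br_add, br_C_mul, br_C_mul, show l + (r + 1) + 2 = l + 1 + (r + 1) + 1 by
          ring, br_up D.ne, br_up D.ne] at h3
        simp only [hA, hB, hT, Nat.add_sub_cancel]
        rw [show l + 1 + 1 + (r + 1) = l + 1 + (r + 1) + 1 by ring,
          show l + 1 + 1 + r = l + 1 + (r + 1) by ring]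
        push_cast
        linear_combination h3
    simp only [h1]
    have h4 : ∑ j ∈ Finset.range (J + 1), bc a j * (T j + T (j + 1) + (a + 1) * B j +
        (a + 1) * A j) = ∑ j ∈ Finset.range (J + 1), bc a j * (T j + T (j + 1)) +
          ∑ j ∈ Finset.range (J + 1), (a + 1) * bc a j * (B j + A j) := by
      rw [← Finset.sum_add_distrib]
      exact Finset.sum_congr rfl fun j _ => by ring
    have hT0 : T (J + 1) = 0 := D.van (wge_zero _) (by rw [hJ]; nlinarith)
    rw [h4, sum_pascal, hT0, mul_zero, add_zero, ← Finset.sum_add_distrib]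
    have h5 : ∀ j, bc (a + 1) j * T j + (a + 1) * bc a j * (B j + A j) =
        (a + 1) * bc a j * A j - (j : ℂ) * bc (a + 1) j * A (j - 1) := by
      intro j
      have h6 := bc_A a j
      rw [h2 j]
      have h7 := bc_succ (a + 1) j
      linear_combination B j * h7 - B j * h6
    rw [Finset.sum_congr rfl fun j _ => h5 j, Finset.sum_sub_distrib]
    have hAJ : A J = 0 := by
      have h8 : Wge w (N + 1 - w i) (u * pderiv i h) := by
        have := (wge_zero (w := w) u).mul (D.hh.pderiv i)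
        rwa [zero_add] at this
      have h9 := D.van (k := l + 1 + 1) (j := J) h8 (by rw [hJ]; omega)
      rw [← h9]
      simp only [hA]
      congr 1
      ring
    rw [Finset.sum_range_succ, hAJ, mul_zero, add_zero, Finset.sum_range_succ' _ J]
    simp only [Nat.add_sub_cancel, Nat.cast_zero, zero_mul, add_zero]
    rw [sub_eq_zero]
    refine Finset.sum_congr rfl fun j _ => ?_
    rw [← bc_A]
    push_cast
    ring

end Sq

end MPb07157
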