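import Pool.Agent.Lib.MP_b07157_agI.Defs

/-!
# Superisolated germs: the substitution `T ↦ L^{-a} T^b`
-/

noncomputable section

namespace MPb07157

open MvPolynomial

namespace SI

namespace SubAux

/-- The substitution `T ↦ c T^b` over an arbitrary commutative ring. -/
theorem exists_subst_gen {R : Type*} [CommRing R] (c : R) {b : ℕ} (hb : 0 < b) :
    ∃ φ : PowerSeries R →ₐ[R] PowerSeries R,
      ∀ (Y : PowerSeries R) (m : ℕ), PowerSeries.coeff m (φ Y) =
        if b ∣ m then c ^ (m / b) * PowerSeries.coeff (m / b) Y else 0 := by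
  refine ⟨(PowerSeries.substAlgHom (R := R) (a := (PowerSeries.X ^ b : PowerSeries R))
    (PowerSeries.HasSubst.X_pow hb.ne')).comp
    (PowerSeries.rescaleAlgHom c), fun Y m => ?_⟩
  have h0 : PowerSeries.rescaleAlgHom c Y = PowerSeries.rescale c Y :=
    RingHom.congr_fun (PowerSeries.coe_rescaleAlgHom c) Y
  rw [AlgHom.comp_apply, PowerSeries.coe_substAlgHom, h0]
  rw [PowerSeries.coeff_subst_X_pow hb.ne']
  split_ifs with h
  · rw [Algebra.algebraMap_self, RingHom.id_apply, PowerSeries.coeff_rescale]
  · rfl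

/-- The image of the variable. -/
theorem map_X {R : Type*} [CommRing R] (c : R) {b : ℕ} (hb : 0 < b)
    (φ : PowerSeries R →ₐ[R] PowerSeries R)
    (hφ : ∀ (Y : PowerSeries R) (m : ℕ), PowerSeries.coeff m (φ Y) =
        if b ∣ m then c ^ (m / b) * PowerSeries.coeff (m / b) Y else 0) :
    φ PowerSeries.X = PowerSeries.C c * PowerSeries.X ^ b := by
  ext m
  rw [hφ, PowerSeries.coeff_C_mul, PowerSeries.coeff_X_pow, PowerSeries.coeff_X]
  by_cases hm : m = b
  · subst hm
    rw [if_pos dvd_rfl, Nat.div_self hb]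
    simp
  · rw [if_neg hm, mul_zero]
    split_ifs with h1 h2
    · exfalso
      apply hm
      have h3 := Nat.div_mul_cancel h1
      rw [h2, one_mul] at h3
      exact h3.symm
    · rw [mul_zero]
    · rfl

theorem map_C {R : Type*} [CommRing R] (φ : PowerSeries R →ₐ[R] PowerSeries R) (r : R) :
    φ (PowerSeries.C r) = PowerSeries.C r := by
  have h := φ.commutes r
  rwa [PowerSeries.algebraMap_apply, Algebra.algebraMap_self, RingHom.id_apply] at h

end SubAux

/-- The substitution `T ↦ L^{-a} T^b`. -/
theorem exists_subst (a : ℕ) {b : ℕ} (hb : 0 < b) :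
    ∃ φ : PowerSeries Mot →ₐ[Mot] PowerSeries Mot,
      (∀ (Y : PowerSeries Mot) (m : ℕ), PowerSeries.coeff m (φ Y) =
        if b ∣ m then ell ^ (a * (m / b)) * PowerSeries.coeff (m / b) Y else 0) ∧
      ∀ (s₀ : ℚ) (Y : PowerSeries Mot), Y ∈ regularAt ((a : ℚ) + b * s₀) → φ Y ∈ regularAt s₀ := by
  obtain ⟨φ, hφ⟩ := SubAux.exists_subst_gen (ell ^ a) hb
  refine ⟨φ, fun Y m => ?_, fun s₀ Y hY => ?_⟩
  · rw [hφ]
    split_ifs with h
    · rw [← pow_mul]
    · rfl
  · have hX := SubAux.map_X (ell ^ a) hb φ hφ
    have hle : regularAt ((a : ℚ) + b * s₀) ≤ (regularAt s₀).comap φ := by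
      refine Algebra.adjoin_le ?_
      rintro g (hg | ⟨a', b', hb', hne, hg⟩)
      · rw [Set.mem_singleton_iff] at hg
        subst hg
        show φ PowerSeries.X ∈ regularAt s₀
        rw [hX]
        refine Subalgebra.mul_mem _ ?_ (Subalgebra.pow_mem _ ?_ _)
        · have h1 := Subalgebra.algebraMap_mem (regularAt s₀) (ell ^ a)
          rwa [PowerSeries.algebraMap_apply, Algebra.algebraMap_self, RingHom.id_apply] at h1
        · exact Algebra.subset_adjoin (Or.inl rfl)
      · show φ g ∈ regularAt s₀
        refine Algebra.subset_adjoin (Or.inr ⟨a' + a * b', b * b', Nat.mul_pos hb hb', ?_, ?_⟩)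
        · have hb1 : (b : ℚ) ≠ 0 := by exact_mod_cast hb.ne'
          have hb2 : (b' : ℚ) ≠ 0 := by exact_mod_cast hb'.ne'
          intro h
          apply hne
          push_cast at h
          rw [div_eq_iff (mul_ne_zero hb1 hb2)] at h
          rw [div_eq_iff hb2]
          linear_combination h
        · have h1 := congrArg φ hg
          rw [map_mul, map_sub, map_mul, map_one, map_pow, hX, SubAux.map_C] at h1
          have h2 : (PowerSeries.C (↑(LU ^ (-a')) : Mot) : PowerSeries Mot) *
              (PowerSeries.C (ell ^ a) * PowerSeries.X ^ b) ^ b' =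
              PowerSeries.C (↑(LU ^ (-(a' + (a : ℤ) * b'))) : Mot) * PowerSeries.X ^ (b * b') := by
            rw [mul_pow, ← map_pow, ← pow_mul, ← pow_mul, ← mul_assoc, ← map_mul]
            have h3 : (↑(LU ^ (-a')) : Mot) * ell ^ (a * b') =
                ↑(LU ^ (-(a' + (a : ℤ) * b'))) := by
              have h4 : ell ^ (a * b') = (↑(LU ^ (-((a : ℤ) * b'))) : Mot) := by
                rw [ell, ← Units.val_pow_eq_pow_val]
                congr 1
                rw [← zpow_natCast, ← zpow_neg_one, ← zpow_mul]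
                push_cast
                rw [neg_one_mul]
              rw [h4, ← Units.val_mul, ← zpow_add]
              congr 2
              ring
            rw [h3]
          rw [h2] at h1
          exact h1
    exact hle hY

end SI

end MPb07157
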