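import Pool.Agent.Lib.MP_b07157_agI.TLin

/-!
# The value of toric sums at `T = 1`
-/

noncomputable section

namespace MPb07157

open MvPolynomial

namespace PC

open P1aux (Lp Lp_add)

namespace TCone

theorem sum_shift (N : ℕ) (G : ℕ → Mot) (hG : ∀ i, N < i → G i = 0) (j : ℕ) :
    ∑ i ∈ Finset.Icc 1 N, G (i + j) = ∑ i ∈ Finset.Icc 1 N, if j < i then G i else 0 := by
  have h1 : ∑ i ∈ Finset.Icc 1 N, G (i + j) = ∑ i ∈ Finset.Icc (1 + j) (N + j), G i := by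
    rw [← Finset.map_add_right_Icc, Finset.sum_map]
    rfl
  rw [h1, ← Finset.sum_filter]
  symm
  refine Finset.sum_subset ?_ ?_
  · intro i hi
    rw [Finset.mem_filter, Finset.mem_Icc] at hi
    rw [Finset.mem_Icc]
    omega
  · intro i hi hi'
    rw [Finset.mem_Icc] at hi
    apply hG
    by_contra hcon
    apply hi'
    rw [Finset.mem_filter, Finset.mem_Icc]
    omega

theorem sum_split (N : ℕ) (H : ℕ → ℕ → Mot) (hH : ∀ i j, N < i ∨ N < j → H i j = 0) :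
    ∑ i ∈ Finset.Icc 1 N, ∑ j ∈ Finset.Icc 1 N, H i j =
      ∑ i ∈ Finset.Icc 1 N, ∑ j ∈ Finset.Icc 1 N, H (i + j) j +
        ∑ k ∈ Finset.Icc 1 N, H k k +
        ∑ i ∈ Finset.Icc 1 N, ∑ j ∈ Finset.Icc 1 N, H i (i + j) := by
  have e1 : ∑ i ∈ Finset.Icc 1 N, ∑ j ∈ Finset.Icc 1 N, H (i + j) j =
      ∑ i ∈ Finset.Icc 1 N, ∑ j ∈ Finset.Icc 1 N, if j < i then H i j else 0 := by
    rw [Finset.sum_comm, Finset.sum_comm (f := fun i j => if j < i then H i j else 0)]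
    refine Finset.sum_congr rfl fun j _ => ?_
    exact sum_shift N (fun i => H i j) (fun i hi => hH i j (Or.inl hi)) j
  have e3 : ∑ i ∈ Finset.Icc 1 N, ∑ j ∈ Finset.Icc 1 N, H i (i + j) =
      ∑ i ∈ Finset.Icc 1 N, ∑ j ∈ Finset.Icc 1 N, if i < j then H i j else 0 := by
    refine Finset.sum_congr rfl fun i _ => ?_
    have := sum_shift N (fun j => H i j) (fun j hj => hH i j (Or.inr hj)) i
    simpa only [add_comm i] using this
  have e2 : ∑ k ∈ Finset.Icc 1 N, H k k =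
      ∑ i ∈ Finset.Icc 1 N, ∑ j ∈ Finset.Icc 1 N, if i = j then H i j else 0 := by
    refine Finset.sum_congr rfl fun i hi => ?_
    rw [Finset.sum_ite_eq, if_pos hi]
  rw [e1, e2, e3, ← Finset.sum_add_distrib, ← Finset.sum_add_distrib]
  refine Finset.sum_congr rfl fun i _ => ?_
  rw [← Finset.sum_add_distrib, ← Finset.sum_add_distrib]
  refine Finset.sum_congr rfl fun j _ => ?_
  rcases lt_trichotomy i j with h | h | h
  · rw [if_neg (by omega), if_neg (by omega), if_pos h, zero_add, zero_add]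
  · rw [if_neg (by omega), if_pos h, if_neg (by omega), zero_add, add_zero]
  · rw [if_pos h, if_neg (by omega), if_neg (by omega), add_zero, add_zero]

theorem hh_eq_zero {φ : ℕ → ℕ → ℕ} {a N m x y : ℕ} (h : N < x ∨ N < y) : hh φ a N m x y = 0 := by
  unfold hh
  rw [if_neg]
  omega

theorem CS_split (φ : ℕ → ℕ → ℕ) (a : ℕ) {p q p' q' : ℕ} (hdet : p * q' = q * p' + 1)
    (N m : ℕ) :
    CS φ a p q p' q' N m = CS φ a p q (p + p') (q + q') N m +
      ∑ k ∈ Finset.Icc 1 N, hh φ a N m (k * (p + p')) (k * (q + q')) +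
      CS φ a (p + p') (q + q') p' q' N m := by
  have hp : 1 ≤ p := Nat.pos_of_ne_zero (by rintro rfl; simp at hdet)
  have hq' : 1 ≤ q' := Nat.pos_of_ne_zero (by rintro rfl; simp at hdet)
  unfold CS
  rw [sum_split N (fun i j => hh φ a N m (i * p + j * p') (i * q + j * q'))]
  · congr 1
    · congr 1
      · refine Finset.sum_congr rfl fun i _ => Finset.sum_congr rfl fun j _ => ?_
        congr 1 <;> ring
      · refine Finset.sum_congr rfl fun k _ => ?_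
        congr 1 <;> ring
    · refine Finset.sum_congr rfl fun i _ => Finset.sum_congr rfl fun j _ => ?_
      congr 1 <;> ring
  · intro i j hij
    apply hh_eq_zero
    rcases hij with h | h
    · left
      have : i * 1 ≤ i * p := Nat.mul_le_mul_left i hp
      omega
    · right
      have : j * 1 ≤ j * q' := Nat.mul_le_mul_left j hq'
      omega

theorem mw_mem {V : Set (ℕ × ℕ)} (hV : V.Nonempty) (x y : ℕ) :
    ∃ v ∈ V, x * v.1 + y * v.2 = mw V x y := by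
  have h := Nat.sInf_mem (hV.image fun v : ℕ × ℕ => x * v.1 + y * v.2)
  obtain ⟨v, hv, hv'⟩ := h
  exact ⟨v, hv, hv'⟩

theorem mw_le {V : Set (ℕ × ℕ)} {v : ℕ × ℕ} (hv : v ∈ V) (x y : ℕ) :
    mw V x y ≤ x * v.1 + y * v.2 :=
  Nat.sInf_le ⟨v, hv, rfl⟩

theorem mw_mul {V : Set (ℕ × ℕ)} (hV : V.Nonempty) (k x y : ℕ) :
    mw V (k * x) (k * y) = k * mw V x y := by
  obtain ⟨v, hv, h1⟩ := mw_mem hV x y
  obtain ⟨w, hw, h2⟩ := mw_mem hV (k * x) (k * y)
  apply le_antisymm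
  · refine (mw_le hv _ _).trans (le_of_eq ?_)
    rw [← h1]; ring
  · rw [← h2]
    have h3 := Nat.mul_le_mul_left k (mw_le hw x y)
    refine h3.trans (le_of_eq ?_)
    ring

theorem mw_pos {V : Set (ℕ × ℕ)} (hV : V.Nonempty) (h0 : ((0, 0) : ℕ × ℕ) ∉ V) {x y : ℕ}
    (hx : 1 ≤ x) (hy : 1 ≤ y) : 1 ≤ mw V x y := by
  obtain ⟨v, hv, h1⟩ := mw_mem hV x y
  rw [← h1]
  by_contra hcon
  have h2 : x * v.1 + y * v.2 = 0 := by omega
  have h3 : x * v.1 = 0 := by omega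
  have h4 : y * v.2 = 0 := by omega
  have h5 : v.1 = 0 := by
    rcases Nat.mul_eq_zero.1 h3 with h | h
    · omega
    · exact h
  have h6 : v.2 = 0 := by
    rcases Nat.mul_eq_zero.1 h4 with h | h
    · omega
    · exact h
  apply h0
  have : v = (0, 0) := Prod.ext h5 h6
  rwa [← this]

/-- The sum over a ray. -/
theorem ray {V : Set (ℕ × ℕ)} (hV : V.Nonempty) (h0 : ((0, 0) : ℕ × ℕ) ∉ V) {a P Q : ℕ}
    (ha : 1 ≤ a) (hP : 1 ≤ P) (hQ : 1 ≤ Q) {m N : ℕ} (hN : (P + Q) * (m + 1) ≤ N) :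
    ∑ k ∈ Finset.Icc 1 N, hh (mw V) a N m (k * P) (k * Q) =
      PowerSeries.coeff m (PowerSeries.C ((1 - Lp 1) ^ 2) * geo (a * P + Q) (mw V P Q)) := by
  have hr := mw_pos hV h0 hP hQ
  have hmN : m ≤ N := by nlinarith
  rw [PowerSeries.coeff_C_mul, P1aux.coeff_geo, Finset.mul_sum]
  symm
  refine Finset.sum_subset_zero_on_sdiff (Finset.Icc_subset_Icc_right hmN) ?_ ?_
  · intro k hk
    rw [Finset.mem_sdiff, Finset.mem_Icc, Finset.mem_Icc] at hk
    unfold hh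
    rw [if_neg]
    rintro ⟨-, -, -, -, h⟩
    rw [mw_mul hV] at h
    have : k * 1 ≤ k * mw V P Q := Nat.mul_le_mul_left k hr
    omega
  · intro k hk
    rw [Finset.mem_Icc] at hk
    unfold hh
    rw [mw_mul hV]
    by_cases h : mw V P Q * k = m
    · have hkP : k * P ≤ m * P := Nat.mul_le_mul_right P hk.2
      have hkQ : k * Q ≤ m * Q := Nat.mul_le_mul_right Q hk.2
      have hkP1 : 1 ≤ k * P := Nat.mul_pos hk.1 hP
      have hkQ1 : 1 ≤ k * Q := Nat.mul_pos hk.1 hQ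
      have hN1 : k * P < N := by nlinarith
      have hN2 : k * Q < N := by nlinarith
      rw [if_pos h, if_pos ⟨hkP1, hN1.le, hkQ1, hN2.le, by rw [← h]; ring⟩]
      unfold mj
      rw [if_pos hN1, if_pos hN2]
      obtain ⟨b, rfl⟩ : ∃ b, a = b + 1 := ⟨a - 1, by omega⟩
      have e : Lp (((b + 1) * P + Q) * k) =
          Lp ((b + 1 - 1) * (k * P)) * (Lp (k * P) * Lp (k * Q)) := by
        rw [← Lp_add, ← Lp_add, Nat.add_sub_cancel]
        congr 1
        ring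
      rw [e]
      ring
    · rw [if_neg h, mul_zero, if_neg]
      rintro ⟨-, -, -, -, h'⟩
      exact h (by rw [← h']; ring)

theorem goodC_split {V : Set (ℕ × ℕ)} (hV : V.Nonempty) (h0 : ((0, 0) : ℕ × ℕ) ∉ V) {a : ℕ}
    (ha : 1 ≤ a) {p q p' q' : ℕ} (hdet : p * q' = q * p' + 1)
    (h1 : GoodC (mw V) a p q (p + p') (q + q')) (h2 : GoodC (mw V) a (p + p') (q + q') p' q') :
    GoodC (mw V) a p q p' q' := by
  have hp : 1 ≤ p := Nat.pos_of_ne_zero (by rintro rfl; simp at hdet)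
  have hq' : 1 ≤ q' := Nat.pos_of_ne_zero (by rintro rfl; simp at hdet)
  obtain ⟨G1, K1, hK1, c1, e1⟩ := h1
  obtain ⟨G2, K2, hK2, c2, e2⟩ := h2
  have hr := mw_pos hV h0 (show 1 ≤ p + p' by omega) (show 1 ≤ q + q' by omega)
  have hν : 0 < a * (p + p') + (q + q') := by omega
  refine ⟨G1 + PowerSeries.C ((1 - Lp 1) ^ 2) * geo (a * (p + p') + (q + q'))
    (mw V (p + p') (q + q')) + G2, K1 + K2 + (p + p' + (q + q')), by omega, ?_, ?_⟩
  · refine ((c1.add ((Cl.C _).mul (Cl_geo hν hr))).add c2).of_eq rfl ?_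
    have e3 : a * (p + p') + (q + q') = (a * p + q) + (a * p' + q') := by ring
    have hν1 : 0 < a * p + q := by
      have := Nat.mul_pos ha hp
      omega
    rw [e3, ← uu_merge hν1 (show 0 < a * p' + q' by omega)]
    ring
  · intro m N hN
    have hN1 : K1 * (m + 1) ≤ N := le_trans (Nat.mul_le_mul_right _ (by omega)) hN
    have hN2 : K2 * (m + 1) ≤ N := le_trans (Nat.mul_le_mul_right _ (by omega)) hN
    have hN3 : (p + p' + (q + q')) * (m + 1) ≤ N :=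
      le_trans (Nat.mul_le_mul_right _ (by omega)) hN
    rw [CS_split _ _ hdet, e1 m N hN1, e2 m N hN2, ray hV h0 ha (by omega) (by omega) hN3, map_add,
      map_add]

theorem goodC_all {V : Set (ℕ × ℕ)} (hV : V.Nonempty) (h0 : ((0, 0) : ℕ × ℕ) ∉ V) {a : ℕ}
    (ha : 1 ≤ a) (haV : a = 1 ∨ ∀ v ∈ V, 1 ≤ v.1) (c : ℕ) :
    ∀ (p q p' q' : ℕ) (v v' : ℕ × ℕ), p * q' = q * p' + 1 → v ∈ V → v' ∈ V →
      (∀ w ∈ V, p * v.1 + q * v.2 ≤ p * w.1 + q * w.2) →
      (∀ w ∈ V, p' * v'.1 + q' * v'.2 ≤ p' * w.1 + q' * w.2) →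
      (p * v'.1 + q * v'.2) + (p' * v.1 + q' * v.2) =
        (p * v.1 + q * v.2) + (p' * v'.1 + q' * v'.2) + c →
      GoodC (mw V) a p q p' q' := by
  induction c using Nat.strong_induction_on with
  | _ c IH =>
  intro p q p' q' v v' hdet hv hv' h1 h2 hc
  have hne : ∀ w ∈ V, w ≠ (0, 0) := by
    rintro w hw rfl
    exact h0 hw
  have g1 := h1 v' hv'
  have g2 := h2 v hv
  by_cases e1 : p * v'.1 + q * v'.2 = p * v.1 + q * v.2
  · exact goodC_linear ha haV hv' (hne _ hv') hdet (fun w hw => by rw [e1]; exact h1 w hw) h2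
  by_cases e2 : p' * v.1 + q' * v.2 = p' * v'.1 + q' * v'.2
  · exact goodC_linear ha haV hv (hne _ hv) hdet h1 (fun w hw => by rw [e2]; exact h2 w hw)
  obtain ⟨u, hu, hu'⟩ := mw_mem hV (p + p') (q + q')
  have h3 : ∀ w ∈ V, (p + p') * u.1 + (q + q') * u.2 ≤ (p + p') * w.1 + (q + q') * w.2 :=
    fun w hw => by rw [hu']; exact mw_le hw _ _
  have k1 := h1 u hu
  have k2 := h2 u hu
  have hdet1 : p * (q + q') = q * (p + p') + 1 := by
    rw [mul_add, mul_add, hdet, mul_comm p q]; ring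
  have hdet2 : (p + p') * q' = (q + q') * p' + 1 := by
    rw [add_mul, add_mul, hdet, mul_comm p' q']; ring
  refine goodC_split hV h0 ha hdet
    (IH ((p' * v.1 + q' * v.2) - (p' * u.1 + q' * u.2)) ?_ _ _ _ _ v u hdet1 hv hu h1 h3 ?_)
    (IH ((p * v'.1 + q * v'.2) - (p * u.1 + q * u.2)) ?_ _ _ _ _ u v' hdet2 hu hv' h3 h2 ?_)
  · omega
  · have k3 := h3 v hv
    rw [add_mul, add_mul] at k3 ⊢
    rw [add_mul, add_mul] at k3 ⊢
    omega
  · omega
  · have k3 := h3 v' hv'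
    rw [add_mul, add_mul] at k3 ⊢
    rw [add_mul, add_mul] at k3 ⊢
    omega

end TCone

/-- **The value of the toric sum at `T = 1`.** -/
theorem exists_TS {V : Set (ℕ × ℕ)} (hV : V.Nonempty) (h0 : ((0, 0) : ℕ × ℕ) ∉ V) {a : ℕ}
    (ha : 1 ≤ a) (haV : a = 1 ∨ ∀ v ∈ V, 1 ≤ v.1) :
    ∃ K, 1 ≤ K ∧ Cl (TS (mw V) a K) (qC ((1 - Lp 1) * Lp 1) * uu a) := by
  obtain ⟨v, hv, hv'⟩ := TCone.mw_mem hV 1 0
  obtain ⟨v', hv₂, hv₂'⟩ := TCone.mw_mem hV 0 1
  have h1 : ∀ w ∈ V, 1 * v.1 + 0 * v.2 ≤ 1 * w.1 + 0 * w.2 :=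
    fun w hw => by rw [hv']; exact TCone.mw_le hw _ _
  have h2 : ∀ w ∈ V, 0 * v'.1 + 1 * v'.2 ≤ 0 * w.1 + 1 * w.2 :=
    fun w hw => by rw [hv₂']; exact TCone.mw_le hw _ _
  have k1 := h1 v' hv₂
  have k2 := h2 v hv
  obtain ⟨G, K, hK, c, e⟩ := TCone.goodC_all hV h0 ha haV ((1 * v'.1 + 0 * v'.2) -
    (1 * v.1 + 0 * v.2) + ((0 * v.1 + 1 * v.2) - (0 * v'.1 + 1 * v'.2))) 1 0 0 1 v v'
    (by norm_num) hv hv₂ h1 h2 (by omega)
  refine ⟨K, hK, c.of_eq ?_ ?_⟩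
  · ext m
    rw [← e m (K * (m + 1)) le_rfl]
    unfold TS CS
    rw [PowerSeries.coeff_mk]
    refine Finset.sum_congr rfl fun i _ => Finset.sum_congr rfl fun j _ => ?_
    congr 1 <;> ring
  · have h3 := uu_one
    simp only [mul_one, mul_zero, add_zero, zero_add]
    rw [map_mul, map_pow, map_sub, map_one]
    linear_combination (1 - qC (Lp 1)) * uu a * h3

end PC

end MPb07157
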