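import Pool.Agent.Lib.MP_b07157_agV.P1
import Pool.Agent.Lib.MP_b07157_agI.Defs

/-!
# Values at `T = 1`

`QQ` is the quotient of `regularAt 0` by `1 - T`; `Cl G c` says that `G` is regular at `0` and has
the value `c` at `T = 1`.
-/

noncomputable section

namespace MPb07157

open MvPolynomial

namespace PC

open P1aux (Lp)

/-- `1 - T`. -/
def oneSubT : regularAt (0 : ℚ) :=
  ⟨1 - PowerSeries.X, sub_mem (one_mem _) (X_mem_regularAt 0)⟩

/-- The ring of values at `T = 1` of series which are regular at `0`. -/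
def QQ : Type := regularAt (0 : ℚ) ⧸ Ideal.span {oneSubT}

instance : CommRing QQ := inferInstanceAs (CommRing (regularAt (0 : ℚ) ⧸ Ideal.span {oneSubT}))

/-- The value at `T = 1`. -/
def qm : regularAt (0 : ℚ) →+* QQ := Ideal.Quotient.mk (Ideal.span {oneSubT})

/-- `G` is regular at `0` and has the value `c` at `T = 1`. -/
def Cl (G : PowerSeries Mot) (c : QQ) : Prop :=
  ∃ h : G ∈ regularAt (0 : ℚ), qm ⟨G, h⟩ = c

/-- Constants. -/
def qC : Mot →+* QQ :=
  qm.comp (algebraMap Mot (regularAt (0 : ℚ)))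

/-- The value of `∑_{k ≥ 1} L^{-ak} T^{k}`. -/
def uu (a : ℕ) : QQ :=
  if h : 0 < a then qm ⟨geo a 1, geo_mem one_pos (by
    have : (0 : ℚ) < a := by exact_mod_cast h
    simp only [neg_zero, zero_mul]
    exact this.ne')⟩ else 0

namespace Cl

variable {G H : PowerSeries Mot} {c d : QQ}

theorem mem (h : Cl G c) : G ∈ regularAt (0 : ℚ) := h.1

theorem unique (h : Cl G c) (h' : Cl G d) : c = d := by
  obtain ⟨h1, h2⟩ := h
  obtain ⟨h1', h2'⟩ := h'
  rw [← h2, ← h2']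

theorem of_eq (h : Cl G c) (h1 : G = H) (h2 : c = d) : Cl H d := by
  subst h1 h2
  exact h

theorem add (h : Cl G c) (h' : Cl H d) : Cl (G + H) (c + d) := by
  obtain ⟨h1, h2⟩ := h
  obtain ⟨h1', h2'⟩ := h'
  exact ⟨add_mem h1 h1', by rw [← h2, ← h2', ← map_add]; rfl⟩

theorem sub (h : Cl G c) (h' : Cl H d) : Cl (G - H) (c - d) := by
  obtain ⟨h1, h2⟩ := h
  obtain ⟨h1', h2'⟩ := h'
  exact ⟨sub_mem h1 h1', by rw [← h2, ← h2', ← map_sub]; rfl⟩

theorem mul (h : Cl G c) (h' : Cl H d) : Cl (G * H) (c * d) := by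
  obtain ⟨h1, h2⟩ := h
  obtain ⟨h1', h2'⟩ := h'
  exact ⟨mul_mem h1 h1', by rw [← h2, ← h2', ← map_mul]; rfl⟩

theorem C (x : Mot) : Cl (PowerSeries.C x) (qC x) :=
  ⟨C_mem_regularAt 0 x, rfl⟩

theorem one : Cl 1 1 := ⟨one_mem _, map_one _⟩

theorem zero : Cl 0 0 := ⟨zero_mem _, map_zero _⟩

theorem T : Cl PowerSeries.X 1 := by
  refine ⟨X_mem_regularAt 0, ?_⟩
  have h1 : qm oneSubT = 0 := Ideal.Quotient.eq_zero_iff_mem.2 (Ideal.subset_span rfl)
  have h2 : (oneSubT : regularAt (0 : ℚ)) = 1 - ⟨PowerSeries.X, X_mem_regularAt 0⟩ := rfl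
  rw [h2, map_sub, map_one, sub_eq_zero] at h1
  exact h1.symm

theorem pow (h : Cl G c) (k : ℕ) : Cl (G ^ k) (c ^ k) := by
  induction k with
  | zero => simpa using one
  | succ k ih => simpa only [pow_succ] using ih.mul h

theorem sum {ι : Type*} (s : Finset ι) {G : ι → PowerSeries Mot} {c : ι → QQ}
    (h : ∀ i ∈ s, Cl (G i) (c i)) : Cl (∑ i ∈ s, G i) (∑ i ∈ s, c i) := by
  classical
  induction s using Finset.induction_on with
  | empty => simpa using zero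
  | insert a s ha ih =>
    rw [Finset.sum_insert ha, Finset.sum_insert ha]
    exact (h a (Finset.mem_insert_self a s)).add (ih fun i hi => h i (Finset.mem_insert_of_mem hi))

end Cl

theorem isUnit_one_sub {a : ℕ} (ha : 0 < a) : IsUnit (1 - qC (Lp a)) := by
  obtain ⟨G, hG⟩ : ∃ G : PowerSeries Mot,
      G * (1 - PowerSeries.C (Lp a) * PowerSeries.X ^ 1) = 1 := by
    have h : IsUnit (1 - PowerSeries.C (Lp a) * PowerSeries.X ^ 1 : PowerSeries Mot) := by
      rw [PowerSeries.isUnit_iff_constantCoeff]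
      simp
    obtain ⟨v, hv⟩ := h
    exact ⟨↑v⁻¹, by rw [← hv, Units.inv_mul]⟩
  have h1 : G ∈ regularAt (0 : ℚ) := by
    refine Algebra.subset_adjoin (Or.inr ⟨a, 1, one_pos, ?_, hG⟩)
    have : (0 : ℚ) < a := by exact_mod_cast ha
    simp only [Int.cast_natCast, Nat.cast_one, div_one, neg_zero]
    exact this.ne'
  have h2 : Cl G (qm ⟨G, h1⟩) := ⟨h1, rfl⟩
  have h3 := h2.mul (Cl.one.sub ((Cl.C (Lp a)).mul (Cl.T.pow 1)))
  rw [hG, one_pow, mul_one] at h3
  have h4 := h3.unique Cl.one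
  exact isUnit_iff_exists_inv.2 ⟨_, by rw [mul_comm]; exact h4⟩

theorem geo_mul (a : ℕ) {N : ℕ} (hN : 0 < N) :
    (1 - PowerSeries.C (Lp a) * PowerSeries.X ^ N) * geo a N =
      PowerSeries.C (Lp a) * PowerSeries.X ^ N := by
  rw [geo_eq_geoK a hN, mul_comm]
  exact geoK_mul _ hN

theorem geo_mem' {a N : ℕ} (ha : 0 < a) (hN : 0 < N) : geo a N ∈ regularAt (0 : ℚ) :=
  geo_mem hN (by
    have : (0 : ℚ) < a := by exact_mod_cast ha
    simp only [neg_zero, zero_mul]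
    exact this.ne')

theorem value_geo {a N : ℕ} (ha : 0 < a) (hN : 0 < N) :
    (1 - qC (Lp a)) * qm ⟨geo a N, geo_mem' ha hN⟩ =
      qC (Lp a) := by
  have h1 : Cl (geo a N) (qm ⟨geo a N, geo_mem' ha hN⟩) :=
    ⟨geo_mem' ha hN, rfl⟩
  have h2 := (Cl.one.sub ((Cl.C (Lp a)).mul (Cl.T.pow N))).mul h1
  rw [geo_mul a hN] at h2
  have h5 := h2.unique ((Cl.C (Lp a)).mul (Cl.T.pow N))
  rw [one_pow, mul_one] at h5
  exact h5

/-- `(1 - L^{-a}) u_a = L^{-a}`. -/
theorem uu_mul {a : ℕ} (ha : 0 < a) : (1 - qC (Lp a)) * uu a = qC (Lp a) := by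
  unfold uu
  rw [dif_pos ha]
  exact value_geo ha one_pos

/-- All geometric series with the same exponent have the same value. -/
theorem Cl_geo {a N : ℕ} (ha : 0 < a) (hN : 0 < N) : Cl (geo a N) (uu a) :=
  ⟨geo_mem' ha hN, (isUnit_one_sub ha).mul_left_cancel (by
    rw [value_geo ha hN, uu_mul ha])⟩

/-- Merging of two cones. -/
theorem uu_merge {a b : ℕ} (ha : 0 < a) (hb : 0 < b) :
    uu a * uu (a + b) + uu (a + b) + uu (a + b) * uu b = uu a * uu b := by
  have h1 := uu_mul ha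
  have h2 := uu_mul hb
  have h3 := uu_mul (show 0 < a + b by omega)
  have h4 : qC (Lp (a + b)) = qC (Lp a) * qC (Lp b) := by
    rw [P1aux.Lp_add, map_mul]
  rw [h4] at h3
  have e1 := isUnit_one_sub ha
  have e2 := isUnit_one_sub hb
  have e3 := isUnit_one_sub (show 0 < a + b by omega)
  rw [h4] at e3
  refine ((e1.mul e2).mul e3).mul_left_cancel ?_
  set x := qC (Lp a)
  set y := qC (Lp b)
  set u := uu a
  set v := uu b
  set w := uu (a + b)
  linear_combination ((1 - y) * (1 - x * y) * w - (1 - y) * (1 - x * y) * v) * h1 +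
    ((1 - x) * (1 - x * y) * w - x * (1 - x * y)) * h2 + (1 - x * y) * h3

/-- `(1 - L^{-1}) u_1 = L^{-1}`. -/
theorem uu_one : (1 - qC (Lp 1)) * uu 1 = qC (Lp 1) := uu_mul one_pos

/-! ### Toric sums -/

/-- The measure of the truncated arcs in the line with `ord = j` (for `j = N`: the arc `0`). -/
def mj (N j : ℕ) : Mot := if j < N then (1 - Lp 1) * Lp j else Lp N

/-- The minimum of the weights `(i, j)` on `V`. -/
def mw (V : Set (ℕ × ℕ)) (i j : ℕ) : ℕ := sInf ((fun v : ℕ × ℕ => i * v.1 + j * v.2) '' V)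

/-- The exponents of `F`. -/
def suppV (F : P2) : Set (ℕ × ℕ) := {v | MvPowerSeries.coeff (ex v.1 v.2) F ≠ 0}

/-- The measure of the arcs with orders `(x, y)`, if the value of `φ` is `m`. -/
def hh (φ : ℕ → ℕ → ℕ) (a N m x y : ℕ) : Mot :=
  if 1 ≤ x ∧ x ≤ N ∧ 1 ≤ y ∧ y ≤ N ∧ φ x y = m then Lp ((a - 1) * x) * (mj N x * mj N y) else 0

/-- The sum over the interior of the cone generated by `(p, q)` and `(p', q')`. -/
def CS (φ : ℕ → ℕ → ℕ) (a p q p' q' N m : ℕ) : Mot :=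
  ∑ i ∈ Finset.Icc 1 N, ∑ j ∈ Finset.Icc 1 N, hh φ a N m (i * p + j * p') (i * q + j * q')

/-- The toric sum. -/
def TS (φ : ℕ → ℕ → ℕ) (a K : ℕ) : PowerSeries Mot :=
  PowerSeries.mk fun m => ∑ i ∈ Finset.Icc 1 (K * (m + 1)), ∑ j ∈ Finset.Icc 1 (K * (m + 1)),
    hh φ a (K * (m + 1)) m i j

/-- The cone is good: its sum is regular at `0`, with the expected value at `T = 1`. -/
def GoodC (φ : ℕ → ℕ → ℕ) (a p q p' q' : ℕ) : Prop :=
  ∃ (G : PowerSeries Mot) (K : ℕ), 1 ≤ K ∧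
    Cl G (qC ((1 - Lp 1) ^ 2) * (uu (a * p + q) * uu (a * p' + q'))) ∧
    ∀ m N : ℕ, K * (m + 1) ≤ N → CS φ a p q p' q' N m = PowerSeries.coeff m G

end PC

end MPb07157
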