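import Pool.Agent.Lib.MP_b07157_agI.TDefs

/-!
# Cones on which the minimal weight is linear
-/

noncomputable section

namespace MPb07157

open MvPolynomial

namespace PC

open P1aux (Lp)

namespace TLin

/-! ### The minimal weight -/

theorem mw_eq {V : Set (ℕ × ℕ)} {v : ℕ × ℕ} (hv : v ∈ V) {x y : ℕ}
    (h : ∀ w ∈ V, x * v.1 + y * v.2 ≤ x * w.1 + y * w.2) : mw V x y = x * v.1 + y * v.2 := by
  unfold mw
  apply le_antisymm
  · exact Nat.sInf_le ⟨v, hv, rfl⟩
  · refine le_csInf ⟨_, ⟨v, hv, rfl⟩⟩ ?_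
    rintro _ ⟨w, hw, rfl⟩
    exact h w hw

theorem mw_cone {V : Set (ℕ × ℕ)} {v : ℕ × ℕ} (hv : v ∈ V) {p q p' q' : ℕ}
    (h1 : ∀ w ∈ V, p * v.1 + q * v.2 ≤ p * w.1 + q * w.2)
    (h2 : ∀ w ∈ V, p' * v.1 + q' * v.2 ≤ p' * w.1 + q' * w.2) (i j : ℕ) :
    mw V (i * p + j * p') (i * q + j * q') =
      i * (p * v.1 + q * v.2) + j * (p' * v.1 + q' * v.2) := by
  have key : ∀ w : ℕ × ℕ, (i * p + j * p') * w.1 + (i * q + j * q') * w.2 =
      i * (p * w.1 + q * w.2) + j * (p' * w.1 + q' * w.2) := fun w => by ring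
  rw [mw_eq hv, key]
  intro w hw
  rw [key, key]
  exact add_le_add (Nat.mul_le_mul_left i (h1 w hw)) (Nat.mul_le_mul_left j (h2 w hw))

/-! ### Sums in the line -/

theorem Lp_zero : Lp 0 = 1 := by
  unfold Lp
  simp

theorem mj_lt {N j : ℕ} (h : j < N) : mj N j = (1 - Lp 1) * Lp j := by
  unfold mj
  rw [if_pos h]

theorem sum_mj {N : ℕ} : ∀ d : ℕ, d ≤ N → ∑ x ∈ Finset.Icc (N - d) N, mj N x = Lp (N - d) := by
  intro d
  induction d with
  | zero =>
    intro _
    rw [Nat.sub_zero, Finset.Icc_self, Finset.sum_singleton]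
    unfold mj
    rw [if_neg (lt_irrefl N)]
  | succ d ih =>
    intro hd
    have h1 : Finset.Icc (N - (d + 1)) N = insert (N - (d + 1)) (Finset.Icc (N - d) N) := by
      ext x
      rw [Finset.mem_insert, Finset.mem_Icc, Finset.mem_Icc]
      omega
    have h2 : N - (d + 1) ∉ Finset.Icc (N - d) N := by
      rw [Finset.mem_Icc]
      omega
    rw [h1, Finset.sum_insert h2, ih (by omega), mj_lt (by omega)]
    have h3 : N - d = (N - (d + 1)) + 1 := by omega
    rw [h3, P1aux.Lp_add (N - (d + 1)) 1]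
    ring

theorem sum_mj_Icc {N c : ℕ} (h : c ≤ N) : ∑ x ∈ Finset.Icc c N, mj N x = Lp c := by
  have h1 := sum_mj (N := N) (N - c) (Nat.sub_le N c)
  rwa [Nat.sub_sub_self h] at h1

theorem sum_shift {N c : ℕ} (h : c + 1 ≤ N) :
    ∑ i ∈ Finset.Icc 1 N, (if i + c ≤ N then mj N (i + c) else 0) = Lp (c + 1) := by
  rw [← sum_mj_Icc h, ← Finset.sum_filter]
  refine Finset.sum_nbij' (fun i => i + c) (fun x => x - c) ?_ ?_ ?_ ?_ ?_
  · intro i hi
    rw [Finset.mem_filter, Finset.mem_Icc] at hi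
    rw [Finset.mem_Icc]
    omega
  · intro x hx
    rw [Finset.mem_Icc] at hx
    rw [Finset.mem_filter, Finset.mem_Icc]
    omega
  · intro i _
    show i + c - c = i
    omega
  · intro x hx
    rw [Finset.mem_Icc] at hx
    show x - c + c = x
    omega
  · intro i _
    rfl

/-! ### Products of geometric series -/

theorem coeff_geo' (ν E : ℕ) (hE : 0 < E) {c m : ℕ} (h : c ≤ m) :
    PowerSeries.coeff c (geo ν E) =
      ∑ k ∈ Finset.Icc 1 m, if E * k = c then Lp (ν * k) else 0 := by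
  rw [P1aux.coeff_geo]
  refine Finset.sum_subset (Finset.Icc_subset_Icc le_rfl h) fun k hk hk' => ?_
  rw [if_neg]
  rintro rfl
  exact hk' (Finset.mem_Icc.2 ⟨(Finset.mem_Icc.1 hk).1, Nat.le_mul_of_pos_left _ hE⟩)

theorem coeff_geo_mul {ν ν' E E' : ℕ} (hE : 0 < E) (hE' : 0 < E') {m N : ℕ} (hN : m ≤ N) :
    PowerSeries.coeff m (geo ν E * geo ν' E') =
      ∑ i ∈ Finset.Icc 1 N, ∑ j ∈ Finset.Icc 1 N,
        if i * E + j * E' = m then Lp (ν * i + ν' * j) else 0 := by
  rw [PowerSeries.coeff_mul]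
  have e1 : ∀ c ∈ Finset.HasAntidiagonal.antidiagonal m, PowerSeries.coeff c.1 (geo ν E) *
      PowerSeries.coeff c.2 (geo ν' E') = ∑ i ∈ Finset.Icc 1 N, ∑ j ∈ Finset.Icc 1 N,
        if i * E = c.1 ∧ j * E' = c.2 then Lp (ν * i + ν' * j) else 0 := by
    intro c hc
    have hc' := Finset.HasAntidiagonal.mem_antidiagonal.1 hc
    rw [coeff_geo' ν E hE (m := N) (by omega), coeff_geo' ν' E' hE' (m := N) (by omega),
      Finset.sum_mul_sum]
    refine Finset.sum_congr rfl fun i _ => Finset.sum_congr rfl fun j _ => ?_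
    rw [mul_comm E i, mul_comm E' j]
    by_cases h1 : i * E = c.1
    · by_cases h2 : j * E' = c.2
      · rw [if_pos h1, if_pos h2, if_pos ⟨h1, h2⟩, P1aux.Lp_add]
      · rw [if_neg h2, if_neg (fun h : i * E = c.1 ∧ j * E' = c.2 => h2 h.2), mul_zero]
    · rw [if_neg h1, if_neg (fun h : i * E = c.1 ∧ j * E' = c.2 => h1 h.1), zero_mul]
  rw [Finset.sum_congr rfl e1, Finset.sum_comm]
  refine Finset.sum_congr rfl fun i _ => ?_
  rw [Finset.sum_comm]
  refine Finset.sum_congr rfl fun j _ => ?_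
  split_ifs with h
  · rw [Finset.sum_eq_single_of_mem (i * E, j * E')
      (Finset.HasAntidiagonal.mem_antidiagonal.2 h)]
    · rw [if_pos ⟨rfl, rfl⟩]
    · rintro ⟨c, d⟩ _ hne
      rw [if_neg]
      rintro ⟨h1, h2⟩
      exact hne (by rw [h1, h2])
  · refine Finset.sum_eq_zero fun c hc => ?_
    rw [if_neg]
    rintro ⟨h1, h2⟩
    exact h (by rw [h1, h2]; exact Finset.HasAntidiagonal.mem_antidiagonal.1 hc)

/-! ### Case I -/

theorem case_one {φ : ℕ → ℕ → ℕ} {a : ℕ} (ha : 1 ≤ a) {p q p' q' : ℕ}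
    (hdet : p * q' = q * p' + 1) {E E' : ℕ} (hE : 0 < E) (hE' : 0 < E')
    (hφ : ∀ i j, φ (i * p + j * p') (i * q + j * q') = i * E + j * E') :
    GoodC φ a p q p' q' := by
  have hp : 1 ≤ p := Nat.pos_of_ne_zero (by rintro rfl; simp at hdet)
  have hq : 1 ≤ q' := Nat.pos_of_ne_zero (by rintro rfl; simp at hdet)
  refine ⟨PowerSeries.C ((1 - Lp 1) ^ 2) * (geo (a * p + q) E * geo (a * p' + q') E'),
    p + q + p' + q' + 1, by omega, ?_, ?_⟩
  · refine (Cl.C _).mul ((Cl_geo ?_ hE).mul (Cl_geo ?_ hE'))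
    · have : 1 ≤ a * p := Nat.mul_pos ha hp
      omega
    · omega
  · intro m N hN
    have hmN : m ≤ N := le_trans (by nlinarith) hN
    rw [PowerSeries.coeff_C_mul, coeff_geo_mul hE hE' hmN, CS, Finset.mul_sum]
    refine Finset.sum_congr rfl fun i hi => ?_
    rw [Finset.mul_sum]
    refine Finset.sum_congr rfl fun j hj => ?_
    rw [Finset.mem_Icc] at hi hj
    unfold hh
    rw [hφ]
    by_cases h : i * E + j * E' = m
    · have hi1 : i ≤ m := le_trans (Nat.le_mul_of_pos_right i hE) (by omega)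
      have hj1 : j ≤ m := le_trans (Nat.le_mul_of_pos_right j hE') (by omega)
      have b1 : i * p ≤ m * p := Nat.mul_le_mul_right p hi1
      have b2 : i * q ≤ m * q := Nat.mul_le_mul_right q hi1
      have b3 : j * p' ≤ m * p' := Nat.mul_le_mul_right p' hj1
      have b4 : j * q' ≤ m * q' := Nat.mul_le_mul_right q' hj1
      have b5 : (p + q + p' + q' + 1) * (m + 1) =
          m * p + m * q + m * p' + m * q' + m + (p + q + p' + q' + 1) := by ring
      have b6 : 1 ≤ i * p := Nat.mul_pos hi.1 hp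
      have b7 : 1 ≤ j * q' := Nat.mul_pos hj.1 hq
      have hx : i * p + j * p' < N := by omega
      have hy : i * q + j * q' < N := by omega
      rw [if_pos h, if_pos ⟨by omega, hx.le, by omega, hy.le, h⟩, mj_lt hx, mj_lt hy]
      obtain ⟨a', rfl⟩ : ∃ a', a = a' + 1 := ⟨a - 1, by omega⟩
      have e1 : (a' + 1 - 1) = a' := by omega
      have e2 : ((a' + 1) * p + q) * i + ((a' + 1) * p' + q') * j =
          a' * (i * p + j * p') + ((i * p + j * p') + (i * q + j * q')) := by ring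
      rw [e1, e2, P1aux.Lp_add (a' * (i * p + j * p')), P1aux.Lp_add (i * p + j * p')]
      ring
    · rw [if_neg h, mul_zero, if_neg (fun h' => h h'.2.2.2.2)]

/-! ### Case II -/

theorem case_two {φ : ℕ → ℕ → ℕ} {p' B : ℕ} (hB : 0 < B)
    (hφ : ∀ i j, φ (i * 1 + j * p') (i * 0 + j * 1) = j * B) :
    GoodC φ 1 1 0 p' 1 := by
  refine ⟨PowerSeries.C ((1 - Lp 1) * Lp 1) * geo (p' + 1) B, p' + 2, by omega, ?_, ?_⟩
  · refine ((Cl.C _).mul (Cl_geo (Nat.succ_pos p') hB)).of_eq rfl ?_
    have h1 : (1 : ℕ) * 1 + 0 = 1 := rfl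
    rw [h1, one_mul p', map_mul, map_pow, map_sub, map_one]
    have h2 := uu_one
    linear_combination (-((1 - qC (Lp 1)) * uu (p' + 1))) * h2
  · intro m N hN
    have hmN : m ≤ N := le_trans (by nlinarith) hN
    rw [PowerSeries.coeff_C_mul, coeff_geo' (p' + 1) B hB hmN, CS, Finset.sum_comm,
      Finset.mul_sum]
    refine Finset.sum_congr rfl fun j hj => ?_
    rw [Finset.mem_Icc] at hj
    by_cases h : j * B = m
    · have hj1 : j ≤ m := le_trans (Nat.le_mul_of_pos_right j hB) h.le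
      have b3 : j * p' ≤ m * p' := Nat.mul_le_mul_right p' hj1
      have b5 : (p' + 2) * (m + 1) = m * p' + 2 * m + (p' + 2) := by ring
      have hjN : j < N := by omega
      have e1 : ∀ i ∈ Finset.Icc 1 N, hh φ 1 N m (i * 1 + j * p') (i * 0 + j * 1) =
          (1 - Lp 1) * Lp j * (if i + j * p' ≤ N then mj N (i + j * p') else 0) := by
        intro i hi
        rw [Finset.mem_Icc] at hi
        unfold hh
        rw [hφ, mul_one, mul_zero, zero_add, mul_one]
        by_cases h2 : i + j * p' ≤ N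
        · rw [if_pos ⟨by omega, h2, by omega, by omega, h⟩, if_pos h2, mj_lt hjN, Nat.sub_self,
            zero_mul, Lp_zero]
          ring
        · rw [if_neg h2, if_neg (fun h' => h2 h'.2.1), mul_zero]
      rw [Finset.sum_congr rfl e1, ← Finset.mul_sum, sum_shift (by omega), mul_comm B j,
        if_pos h, P1aux.Lp_add (j * p') 1]
      have e2 : (p' + 1) * j = j * p' + j := by ring
      rw [e2, P1aux.Lp_add (j * p') j]
      ring
    · rw [mul_comm B j, if_neg h, mul_zero]
      refine Finset.sum_eq_zero fun i _ => ?_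
      unfold hh
      rw [hφ, if_neg (fun h' => h h'.2.2.2.2)]

/-! ### Case III -/

theorem case_three {φ : ℕ → ℕ → ℕ} {a : ℕ} (ha : 1 ≤ a) {q A : ℕ} (hA : 0 < A)
    (hφ : ∀ i j, φ (i * 1 + j * 0) (i * q + j * 1) = i * A) :
    GoodC φ a 1 q 0 1 := by
  refine ⟨PowerSeries.C ((1 - Lp 1) * Lp 1) * geo (a + q) A, q + 2, by omega, ?_, ?_⟩
  · refine ((Cl.C _).mul (Cl_geo (by omega : 0 < a + q) hA)).of_eq rfl ?_
    have h1 : a * 0 + 1 = 1 := by omega
    rw [h1, mul_one a, map_mul, map_pow, map_sub, map_one]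
    have h2 := uu_one
    linear_combination (-((1 - qC (Lp 1)) * uu (a + q))) * h2
  · intro m N hN
    have hmN : m ≤ N := le_trans (by nlinarith) hN
    rw [PowerSeries.coeff_C_mul, coeff_geo' (a + q) A hA hmN, CS, Finset.mul_sum]
    refine Finset.sum_congr rfl fun i hi => ?_
    rw [Finset.mem_Icc] at hi
    by_cases h : i * A = m
    · have hi1 : i ≤ m := le_trans (Nat.le_mul_of_pos_right i hA) h.le
      have b3 : i * q ≤ m * q := Nat.mul_le_mul_right q hi1
      have b5 : (q + 2) * (m + 1) = m * q + 2 * m + (q + 2) := by ring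
      have hiN : i < N := by omega
      have e1 : ∀ j ∈ Finset.Icc 1 N, hh φ a N m (i * 1 + j * 0) (i * q + j * 1) =
          Lp ((a - 1) * i) * ((1 - Lp 1) * Lp i) *
            (if j + i * q ≤ N then mj N (j + i * q) else 0) := by
        intro j hj
        rw [Finset.mem_Icc] at hj
        unfold hh
        rw [hφ, mul_one, mul_zero, add_zero, mul_one, add_comm (i * q) j]
        by_cases h2 : j + i * q ≤ N
        · rw [if_pos ⟨by omega, by omega, by omega, h2, h⟩, if_pos h2, mj_lt hiN]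
          ring
        · rw [if_neg h2, if_neg (fun h' => h2 h'.2.2.2.1), mul_zero]
      rw [Finset.sum_congr rfl e1, ← Finset.mul_sum, sum_shift (by omega), mul_comm A i,
        if_pos h, P1aux.Lp_add (i * q) 1]
      obtain ⟨a', rfl⟩ : ∃ a', a = a' + 1 := ⟨a - 1, by omega⟩
      have e0 : (a' + 1 - 1) = a' := by omega
      have e2 : (a' + 1 + q) * i = a' * i + (i + i * q) := by ring
      rw [e0, e2, P1aux.Lp_add (a' * i), P1aux.Lp_add i]
      ring
    · rw [mul_comm A i, if_neg h, mul_zero]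
      refine Finset.sum_eq_zero fun j _ => ?_
      unfold hh
      rw [hφ, if_neg (fun h' => h h'.2.2.2.2)]

end TLin

open TLin in
/-- A unimodular cone on which the minimal weight is linear. -/
theorem goodC_linear {V : Set (ℕ × ℕ)} {a : ℕ} (ha : 1 ≤ a) (haV : a = 1 ∨ ∀ v ∈ V, 1 ≤ v.1)
    {v : ℕ × ℕ} (hv : v ∈ V) (hv0 : v ≠ (0, 0)) {p q p' q' : ℕ} (hdet : p * q' = q * p' + 1)
    (h1 : ∀ w ∈ V, p * v.1 + q * v.2 ≤ p * w.1 + q * w.2)
    (h2 : ∀ w ∈ V, p' * v.1 + q' * v.2 ≤ p' * w.1 + q' * w.2) :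
    GoodC (mw V) a p q p' q' := by
  have hφ := mw_cone hv h1 h2
  have hp : 0 < p := Nat.pos_of_ne_zero (by rintro rfl; simp at hdet)
  have hq : 0 < q' := Nat.pos_of_ne_zero (by rintro rfl; simp at hdet)
  obtain ⟨A, B⟩ := v
  simp only at hφ
  rcases Nat.eq_zero_or_pos (p * A + q * B) with hE | hE
  · -- the first ray
    have hA : A = 0 := by
      rcases Nat.mul_eq_zero.1 (Nat.eq_zero_of_add_eq_zero_right hE) with h | h
      · omega
      · exact h
    have hB : 0 < B := by
      rcases Nat.eq_zero_or_pos B with h | h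
      · exact absurd (by rw [hA, h]) hv0
      · exact h
    have hq0 : q = 0 := by
      rcases Nat.mul_eq_zero.1 (Nat.eq_zero_of_add_eq_zero_left hE) with h | h
      · exact h
      · omega
    subst hA hq0
    have hpq : p = 1 ∧ q' = 1 := by
      rw [zero_mul, zero_add] at hdet
      exact ⟨Nat.eq_one_of_mul_eq_one_right hdet, Nat.eq_one_of_mul_eq_one_left hdet⟩
    obtain ⟨rfl, rfl⟩ := hpq
    have ha1 : a = 1 := by
      rcases haV with h | h
      · exact h
      · have := h _ hv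
        simp at this
    subst ha1
    refine case_two hB fun i j => ?_
    rw [hφ]
    ring
  · rcases Nat.eq_zero_or_pos (p' * A + q' * B) with hE' | hE'
    · -- the second ray
      have hB : B = 0 := by
        rcases Nat.mul_eq_zero.1 (Nat.eq_zero_of_add_eq_zero_left hE') with h | h
        · omega
        · exact h
      have hA : 0 < A := by
        rcases Nat.eq_zero_or_pos A with h | h
        · exact absurd (by rw [hB, h]) hv0
        · exact h
      have hp0 : p' = 0 := by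
        rcases Nat.mul_eq_zero.1 (Nat.eq_zero_of_add_eq_zero_right hE') with h | h
        · exact h
        · omega
      subst hB hp0
      have hpq : p = 1 ∧ q' = 1 := by
        rw [mul_zero, zero_add] at hdet
        exact ⟨Nat.eq_one_of_mul_eq_one_right hdet, Nat.eq_one_of_mul_eq_one_left hdet⟩
      obtain ⟨rfl, rfl⟩ := hpq
      refine case_three ha hA fun i j => ?_
      rw [hφ]
      ring
    · exact case_one ha hdet hE hE' hφ

end PC

end MPb07157
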