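import Pool.Agent.Lib.MP_b07157_agI.TDefs

/-!
# The classes of the complements of the edge curves
-/

noncomputable section

namespace MPb07157

open MvPolynomial

namespace PC

open P1aux (Lp)

namespace TorPh

theorem lu_mul_lp (k : ℕ) : ((LU : Motˣ) : Mot) ^ k * Lp k = 1 := by
  unfold Lp
  rw [← Units.val_pow_eq_pow_val, ← Units.val_mul, ← zpow_natCast, ← zpow_add, add_neg_cancel,
    zpow_zero, Units.val_one]

/-- The truncated arcs in the line of order `k`. -/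
def cS (N k : ℕ) : Set (Fin N → ℂ) := if k < N then SZ.ordS N k else SZ.staS N k

theorem isConstr_cS (N k : ℕ) : IsConstr (cS N k) := by
  unfold cS
  split_ifs
  · exact SZ.isConstr_ordS N k
  · exact SZ.isConstr_staS N k

theorem mem_cS {N k : ℕ} {v : Fin N → ℂ} : v ∈ cS N k ↔
    (∀ j : Fin N, (j : ℕ) < k → v j = 0) ∧ ∀ h : k < N, v ⟨k, h⟩ ≠ 0 := by
  unfold cS
  split_ifs with h
  · rw [SZ.mem_ordS h]
    exact and_congr_right fun _ => ⟨fun h1 _ => h1, fun h1 => h1 h⟩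
  · rw [SZ.mem_staS]
    exact ⟨fun h1 => ⟨h1, fun h2 => absurd h2 h⟩, fun h1 => h1.1⟩

theorem clsM_cS {N k : ℕ} (hk : k ≤ N) : clsM (cS N k) = ((LU : Motˣ) : Mot) ^ N * mj N k := by
  unfold cS mj clsM
  split_ifs with h
  · rw [SZ.cls_ordS h, map_mul, map_sub, map_one, map_pow, ← LU_val]
    obtain ⟨M, rfl⟩ : ∃ M, N = M + 1 + k := ⟨N - 1 - k, by omega⟩
    rw [show M + 1 + k - 1 - k = M by omega, pow_add _ (M + 1) k, pow_succ]
    linear_combination (-(((LU : Motˣ) : Mot) ^ M * (((LU : Motˣ) : Mot) - 1))) * lu_mul_lp k +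
      (((LU : Motˣ) : Mot) ^ M * ((LU : Motˣ) : Mot) ^ k * Lp k) * lu_mul_lp 1
  · obtain rfl : k = N := by omega
    rw [SZ.cls_staS le_rfl, Nat.sub_self, pow_zero, map_one, lu_mul_lp]

/-- The pairs of coordinates. -/
def eqv (N : ℕ) : Fin N ⊕ Fin N ≃ Fin 2 × Fin N where
  toFun := Sum.elim (fun j => (0, j)) (fun j => (1, j))
  invFun := fun p => if p.1 = 0 then Sum.inl p.2 else Sum.inr p.2
  left_inv := by
    rintro (j | j)
    · simp
    · simp
  right_inv := by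
    rintro ⟨i, j⟩
    fin_cases i
    · simp
    · simp

theorem cls_Strat (N : ℕ) (w : Fin 2 → ℕ) :
    clsM (Strat N w) = clsM (cS N (w 0)) * clsM (cS N (w 1)) := by
  have h1 := cls_equiv (eqv N) (isConstr_prodSum (isConstr_cS N (w 0)) (isConstr_cS N (w 1)))
  rw [cls_prodSum (isConstr_cS N (w 0)) (isConstr_cS N (w 1))] at h1
  have h2 : {x : Fin 2 × Fin N → ℂ | (fun i => x (eqv N i)) ∈
      prodSum (cS N (w 0)) (cS N (w 1))} = Strat N w := by
    ext x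
    have h3 : x ∈ Strat N w ↔ (∀ j : Fin 2, ∀ k : Fin N, (k : ℕ) < w j → x (j, k) = 0) ∧
        ∀ j : Fin 2, w j < N → lead0 w x j ≠ 0 := Iff.rfl
    have h4 : (x ∈ {x : Fin 2 × Fin N → ℂ | (fun i => x (eqv N i)) ∈
      prodSum (cS N (w 0)) (cS N (w 1))}) ↔ ((fun i => x (0, i)) ∈ cS N (w 0) ∧
        (fun i => x (1, i)) ∈ cS N (w 1)) := Iff.rfl
    rw [h3, h4, mem_cS, mem_cS, Fin.forall_fin_two, Fin.forall_fin_two]
    have h5 : ∀ j : Fin 2, (w j < N → lead0 w x j ≠ 0) ↔ ∀ h : w j < N, x (j, ⟨w j, h⟩) ≠ 0 := by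
      intro j
      refine forall_congr' fun h => ?_
      unfold lead0
      rw [dif_pos h]
    rw [h5, h5]
    tauto
  rw [h2] at h1
  unfold clsM
  rw [h1, map_mul]

/-- The torus. -/
def tor2 : Set (Fin 2 → ℂ) := {ξ | ξ 0 ≠ 0 ∧ ξ 1 ≠ 0}

/-- The punctured line. -/
def gm : Set (Fin 1 → ℂ) := {t | t 0 ≠ 0}

/-- The curve. -/
def cur (p q : ℕ) (c : ℂ) : Set (Fin 2 → ℂ) := {ξ | (ξ 0 ≠ 0 ∧ ξ 1 ≠ 0) ∧ ξ 1 ^ p = c * ξ 0 ^ q}

theorem isConstr_gm : IsConstr gm := by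
  have h := isConstr_ne_zero (X 0 : MvPolynomial (Fin 1) ℂ)
  simpa [gm] using h

theorem isConstr_tor2 : IsConstr tor2 := by
  have h : ∀ j : Fin 2, IsConstr {ξ : Fin 2 → ℂ | ξ j ≠ 0} := by
    intro j
    have := isConstr_ne_zero (X j : MvPolynomial (Fin 2) ℂ)
    simpa using this
  exact isConstr_setOf_and (h 0) (h 1)

theorem isConstr_cur (p q : ℕ) (c : ℂ) : IsConstr (cur p q c) := by
  refine isConstr_setOf_and isConstr_tor2 ?_
  have h := isConstr_eq_zero (X 1 ^ p - C c * X 0 ^ q : MvPolynomial (Fin 2) ℂ)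
  simpa [sub_eq_zero] using h

theorem cls_gm : cls gm = L - 1 := by
  have h := SZ.cls_ordS (N := 1) (k := 0) one_pos
  have h1 : SZ.ordS 1 0 = gm := by
    ext v
    rw [SZ.mem_ordS one_pos]
    simp [gm]
  rw [h1] at h
  simpa using h

theorem cls_tor2 : cls tor2 = (L - 1) * (L - 1) := by
  have h1 : cls (prodSum gm gm) = cls gm * cls gm := cls_prodSum isConstr_gm isConstr_gm
  have hev : ∀ x : Fin 2 → ℂ, polyMap (Sum.elim (fun _ : Fin 1 => (X 0 : MvPolynomial (Fin 2) ℂ))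
      (fun _ : Fin 1 => X 1)) x = Sum.elim (fun _ => x 0) (fun _ => x 1) := by
    intro x
    funext j
    rcases j with j | j
    · simp [polyMap]
    · simp [polyMap]
  have h2 : cls tor2 = cls (prodSum gm gm) := by
    refine cls_bijOn isConstr_tor2 (isConstr_prodSum isConstr_gm isConstr_gm)
      (Sum.elim (fun _ => X 0) (fun _ => X 1)) ⟨?_, ?_, ?_⟩
    · intro x hx
      rw [hev]
      exact ⟨hx.1, hx.2⟩
    · intro x _ y _ hxy
      rw [hev, hev] at hxy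
      have e0 : x 0 = y 0 := congrFun hxy (Sum.inl (0 : Fin 1))
      have e1 : x 1 = y 1 := congrFun hxy (Sum.inr (0 : Fin 1))
      funext j
      fin_cases j
      · exact e0
      · exact e1
    · intro y hy
      refine ⟨![y (Sum.inl 0), y (Sum.inr 0)], ⟨hy.1, hy.2⟩, ?_⟩
      rw [hev]
      funext j
      rcases j with j | j
      · have : j = 0 := Subsingleton.elim _ _
        subst this
        rfl
      · have : j = 0 := Subsingleton.elim _ _
        subst this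
        rfl
  rw [h2, h1, cls_gm]

theorem cls_cur {p q : ℕ} (hp : 0 < p) (hq : 0 < q) (hpq : Nat.Coprime p q) {c : ℂ}
    (hc : c ≠ 0) : cls (cur p q c) = L - 1 := by
  obtain ⟨al, be, hab⟩ := P1aux.exists_ab hp hq hpq
  rw [← cls_gm]
  symm
  have hev : ∀ t : Fin 1 → ℂ, polyMap (![C (c ^ be) * X 0 ^ p, C (c ^ al) * X 0 ^ q] :
      Fin 2 → MvPolynomial (Fin 1) ℂ) t = ![c ^ be * t 0 ^ p, c ^ al * t 0 ^ q] := by
    intro t
    funext j
    fin_cases j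
    · simp [polyMap]
    · simp [polyMap]
  refine cls_bijOn isConstr_gm (isConstr_cur p q c)
    (![C (c ^ be) * X 0 ^ p, C (c ^ al) * X 0 ^ q] : Fin 2 → MvPolynomial (Fin 1) ℂ) ⟨?_, ?_, ?_⟩
  · intro t ht
    rw [hev]
    have ht0 : t 0 ≠ 0 := ht
    refine ⟨⟨mul_ne_zero (pow_ne_zero _ hc) (pow_ne_zero _ ht0),
      mul_ne_zero (pow_ne_zero _ hc) (pow_ne_zero _ ht0)⟩, ?_⟩
    change (c ^ al * t 0 ^ q) ^ p = c * (c ^ be * t 0 ^ p) ^ q
    rw [mul_pow, mul_pow, ← pow_mul, ← pow_mul, ← pow_mul, ← pow_mul, mul_comm al p, hab,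
      mul_comm be q, mul_comm p q, pow_succ]
    ring
  · intro t ht s hs h
    rw [hev, hev] at h
    have ht0 : t 0 ≠ 0 := ht
    have hs0 : s 0 ≠ 0 := hs
    have e0 : c ^ be * t 0 ^ p = c ^ be * s 0 ^ p := congrFun h 0
    have e1 : c ^ al * t 0 ^ q = c ^ al * s 0 ^ q := congrFun h 1
    have e2 := mul_left_cancel₀ (pow_ne_zero _ hc) e0
    have e3 := mul_left_cancel₀ (pow_ne_zero _ hc) e1
    have e4 : t 0 ^ (p * al) = s 0 ^ (p * al) := by
      rw [pow_mul, pow_mul, e2]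
    have e5 : t 0 ^ (q * be) = s 0 ^ (q * be) := by
      rw [pow_mul, pow_mul, e3]
    rw [hab, pow_succ, pow_succ, e5] at e4
    have e6 := mul_left_cancel₀ (pow_ne_zero _ hs0) e4
    funext j
    have : j = 0 := Subsingleton.elim _ _
    subst this
    exact e6
  · rintro x ⟨⟨hx0, hx1⟩, hx⟩
    have k0 : x 1 ^ be ≠ 0 := pow_ne_zero _ hx1
    have k1 : c ^ be ≠ 0 := pow_ne_zero _ hc
    have k2 : c ^ al ≠ 0 := pow_ne_zero _ hc
    have k3 : x 0 ^ (q * be) ≠ 0 := pow_ne_zero _ hx0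
    have k4 : x 1 ^ (q * be) ≠ 0 := pow_ne_zero _ hx1
    refine ⟨fun _ => x 0 ^ al / x 1 ^ be, div_ne_zero (pow_ne_zero _ hx0) k0, ?_⟩
    rw [hev]
    have a0 : c ^ be * (x 0 ^ al / x 1 ^ be) ^ p = x 0 := by
      have b1 : (x 1 ^ be) ^ p = c ^ be * x 0 ^ (q * be) := by
        rw [← pow_mul, mul_comm be p, pow_mul, hx, mul_pow, ← pow_mul]
      rw [div_pow, b1, ← pow_mul, mul_comm al p, hab, pow_succ]
      field_simp
    have a1 : c ^ al * (x 0 ^ al / x 1 ^ be) ^ q = x 1 := by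
      have b1 : c ^ al * (x 0 ^ al) ^ q = x 1 ^ (q * be) * x 1 := by
        rw [← pow_mul, mul_comm al q, pow_mul, ← mul_pow, ← hx, ← pow_mul, hab, pow_succ]
      rw [div_pow, ← mul_div_assoc, b1, ← pow_mul, mul_comm be q]
      field_simp
    funext j
    fin_cases j
    · exact a0
    · exact a1

theorem tor_eq {p q A B : ℕ} {lam : ℂ} {R : Finset ℂ} {μ : ℂ → ℕ} (hlam : lam ≠ 0)
    (hm : ∀ c ∈ R, 0 < μ c) :
    tor2 = Tor (edgeP p q A B lam R μ) ∪ ⋃ c ∈ R, cur p q c := by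
  ext x
  simp only [Set.mem_union, Set.mem_iUnion, exists_prop]
  constructor
  · intro hx
    by_cases h : eval x (edgeP p q A B lam R μ) = 0
    · obtain ⟨c, hc, h1⟩ := (B2h.eval_edgeP_eq_zero_iff hlam hm hx.1 hx.2).1 h
      exact Or.inr ⟨c, hc, hx, h1⟩
    · exact Or.inl ⟨hx.1, hx.2, h⟩
  · rintro (h | ⟨c, _, h⟩)
    · exact ⟨h.1, h.2.1⟩
    · exact h.1

theorem cls_tor {p q A B : ℕ} {lam : ℂ} {R : Finset ℂ} {μ : ℂ → ℕ} (hp : 0 < p)
    (hq : 0 < q) (hpq : Nat.Coprime p q) (hlam : lam ≠ 0) (hR0 : (0 : ℂ) ∉ R)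
    (hm : ∀ c ∈ R, 0 < μ c) :
    cls (Tor (edgeP p q A B lam R μ)) + (R.card : K0) * (L - 1) = (L - 1) * (L - 1) := by
  have hc : ∀ c ∈ R, IsConstr (cur p q c) := fun c _ => isConstr_cur p q c
  have h1 : cls (⋃ c ∈ R, cur p q c) = ∑ c ∈ R, cls (cur p q c) := by
    refine cls_biUnion R _ hc ?_
    intro c _ d _ hcd
    rw [Set.disjoint_left]
    rintro x ⟨⟨h2, _⟩, h3⟩ ⟨_, h4⟩
    rw [h3] at h4
    exact hcd (mul_right_cancel₀ (pow_ne_zero _ h2) h4)
  have h2 : ∑ c ∈ R, cls (cur p q c) = (R.card : K0) * (L - 1) := by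
    rw [Finset.sum_congr rfl fun c h => cls_cur hp hq hpq (c := c) (fun h0 => hR0 (h0 ▸ h)),
      Finset.sum_const, nsmul_eq_mul]
  rw [← h2, ← h1, ← cls_tor2, tor_eq (p := p) (q := q) (A := A) (B := B) hlam hm]
  symm
  refine cls_union (B2h.isConstr_Tor _) (isConstr_biUnion R _ hc) ?_
  rw [Set.disjoint_left]
  intro x hx hx2
  simp only [Set.mem_iUnion, exists_prop] at hx2
  obtain ⟨c, hc, _, h3⟩ := hx2
  exact hx.2.2 ((B2h.eval_edgeP_eq_zero_iff hlam hm hx.1 hx.2.1).2 ⟨c, hc, h3⟩)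

end TorPh

open TorPh

/-- The measure of the arcs with orders `w`. -/
theorem muN_Strat {N : ℕ} {w : Fin 2 → ℕ} (hw : ∀ j, 1 ≤ w j) (hwN : ∀ j, w j ≤ N) :
    muN N (Strat N w) = mj N (w 0) * mj N (w 1) := by
  unfold muN
  rw [cls_Strat, clsM_cS (hwN 0), clsM_cS (hwN 1)]
  have h : (((LU ^ (2 * N))⁻¹ : Motˣ) : Mot) * (((LU : Motˣ) : Mot) ^ N *
      ((LU : Motˣ) : Mot) ^ N) = 1 := by
    rw [← Units.val_pow_eq_pow_val, ← Units.val_mul, ← Units.val_mul, ← pow_add, two_mul,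
      inv_mul_cancel, Units.val_one]
  linear_combination (mj N (w 0) * mj N (w 1)) * h

/-- The class of the torus minus the curves `y^p = c x^q`, `c ∈ R`. -/
theorem lp_tor_edgeP {p q A B : ℕ} {lam : ℂ} {R : Finset ℂ} {μ : ℂ → ℕ} (hp : 0 < p) (hq : 0 < q)
    (hpq : Nat.Coprime p q) (hlam : lam ≠ 0) (hR0 : (0 : ℂ) ∉ R) (hm : ∀ c ∈ R, 0 < μ c) :
    Lp 2 * clsM (Tor (edgeP p q A B lam R μ)) =
      (1 - Lp 1) ^ 2 - (R.card : Mot) * ((1 - Lp 1) * Lp 1) := by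
  have h1 := congrArg (algebraMap K0 Mot) (cls_tor (A := A) (B := B) hp hq hpq hlam hR0 hm)
  rw [map_add, map_mul, map_mul, map_natCast, map_sub, map_one, ← LU_val] at h1
  have h2 : Lp 2 = Lp 1 * Lp 1 := P1aux.Lp_add 1 1
  have h3 := lu_mul_lp 1
  rw [pow_one] at h3
  rw [h2]
  unfold clsM
  set u := ((LU : Motˣ) : Mot)
  set l := Lp 1
  linear_combination (l * l) * h1 + ((1 : Mot) * (l * u - 1) + (-2 * l + 2) - (R.card : Mot) * l) * h3

end PC

end MPb07157
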